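import Pool.Agent.Lib.H82OH.DD

/-!
# Project H82OH, chunk BA: translations without nontrivial finite values
-/

open MeasureTheory Filter Topology Finset
open scoped ComplexConjugate Matrix

namespace Pool.Agent.Lib.H82OH

open Pool.Agent.Lib.H22M Pool.Agent.Lib.H82T Pool.Agent.Lib.H82OT Pool.Agent.Lib.H82OF

variable {W : Type*} [CommGroup W] [TopologicalSpace W] [IsTopologicalGroup W] [CompactSpace W]
  [T2Space W] [SecondCountableTopology W] [MeasurableSpace W] [BorelSpace W]

/-- Proof. `ch θ (c ^ n) ^ k = ch θ c ^ (n * k)` (`ch_pow_right`). -/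
theorem Free.pow {c : W} (h : Free c) (n : ℕ) (hn : 1 ≤ n) : Free (c ^ n) := by
  intro θ k hk h1
  rw [ch_pow_right, ← pow_mul] at h1
  exact h θ (n * k) (Nat.mul_pos hn hk) h1

/-- The dual is torsion free. Proof. `ch θ c ^ n = ch (θ ^ n) c = 1` (`ch_pow_left`). -/
theorem Free.torsion {c : W} (h : Free c) (θ : PontryaginDual W) (n : ℕ) (hn : 1 ≤ n)
    (hθ : θ ^ n = 1) : θ = 1 := by
  refine h θ n hn ?_
  rw [← ch_pow_left, hθ, ch_one_left]

/-- Closed proper subgroups are in the kernel of a nontrivial character. -/
private theorem ba_exists_char (V : Subgroup W) (hV : IsClosed (V : Set W)) {w : W} (hw : w ∉ V) :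
    ∃ θ : PontryaginDual W, (∀ v ∈ V, θ v = 1) ∧ θ w ≠ 1 := by
  have hc : IsClosed (V : Set W) := hV
  have : T2Space (W ⧸ V) := by
    have : T3Space (W ⧸ V) := by infer_instance
    infer_instance
  have hx : (QuotientGroup.mk w : W ⧸ V) ≠ 1 := by
    intro h
    exact hw ((QuotientGroup.eq_one_iff w).1 h)
  obtain ⟨χ, hχ⟩ := Pool.Agent.Lib.CompactAbelian.exists_char_ne_one hx
  let q : W →ₜ* (W ⧸ V) := { QuotientGroup.mk' V with continuous_toFun := continuous_quotient_mk' }
  let θ : PontryaginDual W := ContinuousMonoidHom.comp χ q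
  refine ⟨θ, fun v hv => ?_, ?_⟩
  · have h1 : θ v = χ (QuotientGroup.mk v : W ⧸ V) := rfl
    rw [h1, (QuotientGroup.eq_one_iff v).2 hv, map_one]
  · exact hχ

/-- `W` is divisible. Proof. The range `V` of the continuous homomorphism `v ↦ v ^ n` (`powMonoidHom`) is a
compact, hence closed subgroup. If `w ∉ V`, the quotient `W ⧸ V` is a compact Hausdorff group and there is a
character of it which is not `1` at the class of `w`
(`Pool.Agent.Lib.CompactAbelian.exists_char_ne_one`), i.e. a character `θ` of `W`, trivial on `V`, with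
`θ w ≠ 1`. But then `θ ^ n = 1`, so `θ = 1` by `Free.torsion`, a contradiction. -/
theorem Free.divisible {c : W} (h : Free c) (n : ℕ) (hn : 1 ≤ n) (w : W) : ∃ v : W, v ^ n = w := by
  let f : W →* W := powMonoidHom n
  have hcf : Continuous f := continuous_pow n
  have hcl : IsClosed (f.range : Set W) := by
    rw [MonoidHom.coe_range]
    exact (isCompact_range hcf).isClosed
  by_contra hne
  have hw : w ∉ f.range := by
    intro hmem
    obtain ⟨v, hv⟩ := MonoidHom.mem_range.1 hmem
    exact hne ⟨v, hv⟩
  obtain ⟨θ, h1, h2⟩ := ba_exists_char f.range hcl hw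
  have hθ : θ ^ n = 1 := by
    ext v
    have h3 : θ (v ^ n) = 1 := h1 _ (MonoidHom.mem_range.2 ⟨v, rfl⟩)
    rw [map_pow] at h3
    have h4 : (θ ^ n) v = (θ v) ^ n := by
      have := ch_pow_left θ v n
      apply Circle.ext
      rw [Circle.coe_pow]
      exact this
    rw [h4, h3]
    rfl
  have h5 := h.torsion θ n hn hθ
  apply h2
  rw [h5]
  rfl

/-- Proof. The powers of `c` are dense: otherwise a nontrivial character is trivial on the closed subgroup
generated by `c`, so `ch θ c = 1` and `θ = 1` by `h` with `n = 1`. Mathlib: `ergodic_mul_left_of_denseRange_zpow`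
or similar in `Mathlib/Dynamics/Ergodic/Action/OfMinimal.lean`; see also `ergodic_rotation` in
`H82T/B3.lean`. -/
theorem Free.erg (lam : Measure W) [lam.IsHaarMeasure] [IsProbabilityMeasure lam] {c : W}
    (h : Free c) : Ergodic (fun w => c * w) lam := by
  have hd : DenseRange (fun k : ℤ => c ^ k) := by
    let V : Subgroup W := (Subgroup.zpowers c).topologicalClosure
    have hV : IsClosed (V : Set W) := Subgroup.isClosed_topologicalClosure _
    intro w
    by_contra hne
    have hw : w ∉ V := by
      intro hmem
      apply hne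
      have h1 : w ∈ closure ((Subgroup.zpowers c : Subgroup W) : Set W) := hmem
      rwa [Subgroup.coe_zpowers] at h1
    obtain ⟨θ, h1, h2⟩ := ba_exists_char V hV hw
    have hc : θ c = 1 := h1 c (Subgroup.le_topologicalClosure _ (Subgroup.mem_zpowers c))
    have h3 : ch θ c ^ 1 = 1 := by
      rw [pow_one]
      unfold ch
      rw [hc, Circle.coe_one]
    have h4 := h θ 1 le_rfl h3
    apply h2
    rw [h4]
    rfl
  exact ergodic_mul_left_of_denseRange_zpow hd lam

/-- Proof. `w ↦ w ^ n` is a surjective continuous homomorphism (`Free.divisible`), so the image of `lam` is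
invariant under all translations, a Haar probability measure, hence equal to `lam`
(`Measure.isHaarMeasure_map`, uniqueness, or compare the integrals of the characters: `measure_ext_char` in
`H22M/FC.lean`, `∫ ch (χ ^ n) = 0` for `χ ≠ 1` by `Free.torsion`). Then translate by `t`. -/
theorem mp_pow (lam : Measure W) [lam.IsHaarMeasure] [IsProbabilityMeasure lam] {c : W}
    (h : Free c) (n : ℕ) (hn : 1 ≤ n) (t : W) :
    MeasurePreserving (fun w => t * w ^ n) lam lam := by
  let f : W →* W := powMonoidHom n
  have hcf : Continuous f := continuous_pow n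
  have hs : Function.Surjective f := fun w => h.divisible n hn w
  have h1 : MeasurePreserving f lam lam := f.measurePreserving hcf hs rfl
  have h2 : MeasurePreserving (fun w => t * w) lam lam := measurePreserving_mul_left lam t
  exact h2.comp h1

end Pool.Agent.Lib.H82OH
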