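import Pool.Agent.Lib.H82OH.BA

/-!
# Project H82OH, chunk BB: Fourier coefficients
-/

open MeasureTheory Filter Topology Finset
open scoped ComplexConjugate Matrix

namespace Pool.Agent.Lib.H82OH

open Pool.Agent.Lib.H22M Pool.Agent.Lib.H82T Pool.Agent.Lib.H82OT Pool.Agent.Lib.H82OF

variable {W : Type*} [CommGroup W] [TopologicalSpace W] [IsTopologicalGroup W] [CompactSpace W]
  [T2Space W] [SecondCountableTopology W] [MeasurableSpace W] [BorelSpace W]

open scoped Classical in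
private theorem bb_orth (lam : Measure W) [lam.IsHaarMeasure] [IsProbabilityMeasure lam]
    (χ ψ : PontryaginDual W) :
    ∫ w, ch χ w * conj (ch ψ w) ∂lam = if χ = ψ then 1 else 0 :=
  Pool.Agent.Lib.CompactAbelian.integral_char_mul lam χ ψ

private theorem bb_bmT (F : Finset (PontryaginDual W)) (t : PontryaginDual W → ℂ) :
    BM fun w : W => ∑ χ ∈ F, t χ * ch χ w :=
  BM.sum F fun χ _ => (BM.const (t χ)).mul (bm_ch χ)

private theorem bb_int_sq (lam : Measure W) [IsProbabilityMeasure lam] (f : W → ℂ) (hf : BM f) :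
    Integrable (fun w => ‖f w‖ ^ 2) lam := by
  obtain ⟨h1, C, hC⟩ := hf
  refine Integrable.of_bound (h1.norm.pow_const 2).aestronglyMeasurable (C ^ 2)
    (Eventually.of_forall fun w => ?_)
  rw [Real.norm_of_nonneg (by positivity)]
  exact pow_le_pow_left₀ (norm_nonneg _) (hC w) 2

private theorem bb_normT (lam : Measure W) [lam.IsHaarMeasure] [IsProbabilityMeasure lam]
    (F : Finset (PontryaginDual W)) (t : PontryaginDual W → ℂ) :
    ∫ w, ‖∑ χ ∈ F, t χ * ch χ w‖ ^ 2 ∂lam = ∑ χ ∈ F, ‖t χ‖ ^ 2 := by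
  have h := Pool.Agent.Lib.CompactAbelian.integral_normSq_trigPoly lam
    (fun j : F => (j : PontryaginDual W)) Subtype.val_injective (fun j : F => t j)
  rw [Finset.sum_coe_sort F (fun χ => ‖t χ‖ ^ 2)] at h
  rw [← h]
  refine integral_congr_ae (Eventually.of_forall fun w => ?_)
  show ‖∑ χ ∈ F, t χ * ch χ w‖ ^ 2 = ‖∑ j : F, t j * ch (j : PontryaginDual W) w‖ ^ 2
  rw [Finset.sum_coe_sort F (fun χ => t χ * ch χ w)]

private theorem bb_cross (lam : Measure W) [lam.IsHaarMeasure] [IsProbabilityMeasure lam]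
    (f : W → ℂ) (hf : BM f) (F : Finset (PontryaginDual W)) (t : PontryaginDual W → ℂ) :
    ∫ w, f w * conj (∑ χ ∈ F, t χ * ch χ w) ∂lam =
      ∑ χ ∈ F, conj (t χ) * ∫ w, f w * conj (ch χ w) ∂lam := by
  have h1 : ∀ w, f w * conj (∑ χ ∈ F, t χ * ch χ w) =
      ∑ χ ∈ F, conj (t χ) * (f w * conj (ch χ w)) := by
    intro w
    rw [map_sum, Finset.mul_sum]
    refine Finset.sum_congr rfl fun χ _ => ?_
    rw [map_mul]
    ring
  simp_rw [h1]
  rw [integral_finsetSum _ (fun χ _ => ((hf.mul (bm_ch χ).conj).integrable).const_mul _)]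
  refine Finset.sum_congr rfl fun χ _ => ?_
  rw [integral_const_mul]

private theorem bb_quad (lam : Measure W) [lam.IsHaarMeasure] [IsProbabilityMeasure lam]
    (f : W → ℂ) (hf : BM f) (F : Finset (PontryaginDual W)) (t : PontryaginDual W → ℂ) :
    ∫ w, ‖f w - ∑ χ ∈ F, t χ * ch χ w‖ ^ 2 ∂lam = ∫ w, ‖f w‖ ^ 2 ∂lam
      - 2 * (∑ χ ∈ F, conj (t χ) * ∫ w, f w * conj (ch χ w) ∂lam).re
      + ∑ χ ∈ F, ‖t χ‖ ^ 2 := by
  have hT := bb_bmT (W := W) F t
  have h1 : ∀ w, ‖f w - ∑ χ ∈ F, t χ * ch χ w‖ ^ 2 = (‖f w‖ ^ 2 -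
      2 * RCLike.re (f w * conj (∑ χ ∈ F, t χ * ch χ w))) + ‖∑ χ ∈ F, t χ * ch χ w‖ ^ 2 := by
    intro w
    rw [← Complex.normSq_eq_norm_sq, ← Complex.normSq_eq_norm_sq, ← Complex.normSq_eq_norm_sq,
      Complex.normSq_sub]
    simp only [RCLike.re_to_complex]
    ring
  have h2 : Integrable (fun w => f w * conj (∑ χ ∈ F, t χ * ch χ w)) lam :=
    (hf.mul hT.conj).integrable
  have h3 : Integrable (fun w => RCLike.re (f w * conj (∑ χ ∈ F, t χ * ch χ w))) lam := h2.re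
  have h4 : Integrable (fun w => ‖f w‖ ^ 2 -
      2 * RCLike.re (f w * conj (∑ χ ∈ F, t χ * ch χ w))) lam :=
    (bb_int_sq lam f hf).sub (h3.const_mul 2)
  simp_rw [h1]
  rw [integral_add h4 (bb_int_sq lam _ hT),
    integral_sub (bb_int_sq lam f hf) (h3.const_mul 2), integral_const_mul, integral_re h2,
    bb_cross lam f hf F t, bb_normT lam F t]
  rfl

/-- Proof. `χ c₀ ≠ 1` for some `c₀`, and `∫ χ(w) = ∫ χ(c₀ w) = χ(c₀) ∫ χ(w)`. -/
theorem int_ch (lam : Measure W) [lam.IsHaarMeasure] [IsProbabilityMeasure lam]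
    (χ : PontryaginDual W) (h : χ ≠ 1) : ∫ w, ch χ w ∂lam = 0 :=
  Pool.Agent.Lib.CompactAbelian.integral_char_eq_zero lam χ h

/-- Proof. By `tg_approx` (`H22M/TG.lean`) for every `k > 0` there is a trigonometric polynomial `T` with
`∫ ‖f - T‖² ≤ k²`; `∫ f conj T = 0` by `h`, so `∫ ‖f‖² = ∫ f conj (f - T) ≤ C k`. -/
theorem fourier_zero (lam : Measure W) [lam.IsHaarMeasure] [IsProbabilityMeasure lam]
    (f : W → ℂ) (hf : BM f) (h : ∀ χ : PontryaginDual W, ∫ w, f w * conj (ch χ w) ∂lam = 0) :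
    ∀ᵐ w ∂lam, f w = 0 := by
  have h0 : 0 ≤ ∫ w, ‖f w‖ ^ 2 ∂lam := integral_nonneg fun w => by positivity
  have h1 : ∀ k : ℝ, 0 < k → ∫ w, ‖f w‖ ^ 2 ∂lam ≤ k ^ 2 := by
    intro k hk
    obtain ⟨F, t, hF⟩ := tg_approx lam f hf k hk
    have h2 := bb_quad lam f hf F t
    have h3 : ∑ χ ∈ F, conj (t χ) * ∫ w, f w * conj (ch χ w) ∂lam = 0 :=
      Finset.sum_eq_zero fun χ _ => by rw [h χ, mul_zero]
    rw [h3, Complex.zero_re, mul_zero, sub_zero] at h2
    have h4 : 0 ≤ ∑ χ ∈ F, ‖t χ‖ ^ 2 := Finset.sum_nonneg fun χ _ => by positivity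
    have h5 : ∫ w, ‖f w - ∑ χ ∈ F, t χ * ch χ w‖ ^ 2 ∂lam ≤ k ^ 2 := hF
    linarith
  have h6 : ∫ w, ‖f w‖ ^ 2 ∂lam = 0 := by
    refine le_antisymm (le_of_forall_pos_le_add fun ε hε => ?_) h0
    have := h1 (Real.sqrt ε) (Real.sqrt_pos.mpr hε)
    rw [Real.sq_sqrt hε.le] at this
    linarith
  rw [integral_eq_zero_iff_of_nonneg (fun w => by positivity) (bb_int_sq lam f hf)] at h6
  filter_upwards [h6] with w hw
  have h7 : ‖f w‖ ^ 2 = 0 := hw
  exact norm_eq_zero.mp (pow_eq_zero_iff (two_ne_zero) |>.mp h7)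

/-- Proof. `fourier_zero` for the entries. -/
theorem fourier_mat (lam : Measure W) [lam.IsHaarMeasure] [IsProbabilityMeasure lam] {d e : ℕ}
    (X : W → Matrix (Fin d) (Fin e) ℂ) (hX : BMM X) (h0 : ¬ ∀ᵐ w ∂lam, X w = 0) :
    ∃ (χ : PontryaginDual W) (i : Fin d) (j : Fin e),
      ∫ w, X w i j * conj (ch χ w) ∂lam ≠ 0 := by
  by_contra hcon
  push Not at hcon
  apply h0
  have h1 : ∀ (i : Fin d) (j : Fin e), ∀ᵐ w ∂lam, X w i j = 0 := fun i j =>
    fourier_zero lam (fun w => X w i j) (hX i j) fun χ => hcon χ i j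
  have h2 : ∀ᵐ w ∂lam, ∀ (i : Fin d) (j : Fin e), X w i j = 0 :=
    ae_all_iff.mpr fun i => ae_all_iff.mpr fun j => h1 i j
  filter_upwards [h2] with w hw
  ext i j
  exact hw i j

/-- Proof. `∫ ‖f - ∑_{χ ∈ F} f^(χ) χ‖² ≥ 0` and orthonormality of the characters (`int_ch` for `χ χ'⁻¹`). -/
theorem bessel (lam : Measure W) [lam.IsHaarMeasure] [IsProbabilityMeasure lam]
    (f : W → ℂ) (hf : BM f) (F : Finset (PontryaginDual W)) :
    ∑ χ ∈ F, ‖∫ w, f w * conj (ch χ w) ∂lam‖ ^ 2 ≤ ∫ w, ‖f w‖ ^ 2 ∂lam := by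
  have h1 := bb_quad lam f hf F (fun χ => ∫ w, f w * conj (ch χ w) ∂lam)
  have h2 : (∑ χ ∈ F, conj (∫ w, f w * conj (ch χ w) ∂lam) *
      ∫ w, f w * conj (ch χ w) ∂lam).re = ∑ χ ∈ F, ‖∫ w, f w * conj (ch χ w) ∂lam‖ ^ 2 := by
    rw [Complex.re_sum]
    refine Finset.sum_congr rfl fun χ _ => ?_
    rw [mul_comm, Complex.mul_conj, Complex.ofReal_re, Complex.normSq_eq_norm_sq]
  rw [h2] at h1
  have h3 : 0 ≤ ∫ w, ‖f w - ∑ χ ∈ F, (∫ w, f w * conj (ch χ w) ∂lam) * ch χ w‖ ^ 2 ∂lam :=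
    integral_nonneg fun w => by positivity
  linarith

/-- Proof. By `bessel` every finite subset has at most `∫ ‖f‖² / η²` elements. -/
theorem finite_coeff (lam : Measure W) [lam.IsHaarMeasure] [IsProbabilityMeasure lam]
    (f : W → ℂ) (hf : BM f) (η : ℝ) (hη : 0 < η) :
    {χ : PontryaginDual W | η ≤ ‖∫ w, f w * conj (ch χ w) ∂lam‖}.Finite := by
  by_contra hinf
  obtain ⟨n, hn⟩ := exists_nat_gt ((∫ w, ‖f w‖ ^ 2 ∂lam) / η ^ 2)
  obtain ⟨F, hF, hc⟩ := Set.Infinite.exists_subset_card_eq hinf n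
  have h1 := bessel lam f hf F
  have h2 : (n : ℝ) * η ^ 2 ≤ ∑ χ ∈ F, ‖∫ w, f w * conj (ch χ w) ∂lam‖ ^ 2 := by
    rw [← hc, ← nsmul_eq_mul]
    refine Finset.card_nsmul_le_sum F _ _ fun χ hχ => ?_
    exact pow_le_pow_left₀ hη.le (hF hχ) 2
  rw [div_lt_iff₀ (by positivity)] at hn
  linarith

/-- Proof. Some Fourier coefficient `a = ∫ f conj χ` is not `0` (`fourier_zero`), and
`a = ∫ f(c w) conj χ(c w) = z conj χ(c) a`, so `z = χ(c)`. `f conj χ` is invariant under the ergodic rotation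
by `c` (`Free.erg`), so it is a.e. constant. -/
theorem eigen_ch (lam : Measure W) [lam.IsHaarMeasure] [IsProbabilityMeasure lam] {c : W}
    (hc : Free c) (f : W → ℂ) (hf : BM f) (z : ℂ) (h : ∀ᵐ w ∂lam, f (c * w) = z * f w)
    (h0 : ¬ ∀ᵐ w ∂lam, f w = 0) :
    ∃ (χ : PontryaginDual W) (a : ℂ), a ≠ 0 ∧ z = ch χ c ∧ ∀ᵐ w ∂lam, f w = a * ch χ w := by
  obtain ⟨χ, hχ⟩ : ∃ χ : PontryaginDual W, ∫ w, f w * conj (ch χ w) ∂lam ≠ 0 := by
    by_contra hcon
    push Not at hcon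
    exact h0 (fourier_zero lam f hf hcon)
  have h1 : ∀ᵐ w ∂lam, f (c * w) * conj (ch χ (c * w)) =
      (z * conj (ch χ c)) * (f w * conj (ch χ w)) := by
    filter_upwards [h] with w hw
    rw [hw, ch_mul_right, map_mul]
    ring
  have h2 : ∫ w, f w * conj (ch χ w) ∂lam =
      (z * conj (ch χ c)) * ∫ w, f w * conj (ch χ w) ∂lam := by
    rw [← integral_const_mul, ← integral_congr_ae h1]
    exact (integral_mul_left_eq_self (fun w => f w * conj (ch χ w)) c).symm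
  have h3 : z * conj (ch χ c) = 1 := by
    have h4 : (z * conj (ch χ c) - 1) * ∫ w, f w * conj (ch χ w) ∂lam = 0 := by
      rw [sub_mul, one_mul, ← h2, sub_self]
    rcases mul_eq_zero.mp h4 with h5 | h5
    · exact sub_eq_zero.mp h5
    · exact absurd h5 hχ
  have hz : z = ch χ c := by
    calc z = z * (ch χ c * conj (ch χ c)) := by rw [ch_mul_conj, mul_one]
      _ = (z * conj (ch χ c)) * ch χ c := by ring
      _ = ch χ c := by rw [h3, one_mul]
  have hg : BM fun w => f w * conj (ch χ w) := hf.mul (bm_ch χ).conj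
  have h6 : (fun w => f w * conj (ch χ w)) ∘ (fun w => c * w) =ᵐ[lam]
      fun w => f w * conj (ch χ w) := by
    filter_upwards [h1] with w hw
    show f (c * w) * conj (ch χ (c * w)) = _
    rw [hw, h3, one_mul]
  obtain ⟨b, hb⟩ := (hc.erg lam).ae_eq_const_of_ae_eq_comp_ae
    hg.1.aestronglyMeasurable h6
  have h7 : ∫ w, f w * conj (ch χ w) ∂lam = b := by
    rw [integral_congr_ae hb]
    simp
  refine ⟨χ, b, h7 ▸ hχ, hz, ?_⟩
  filter_upwards [hb] with w hw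
  have h8 : f w * conj (ch χ w) = b := hw
  calc f w = f w * (ch χ w * conj (ch χ w)) := by rw [ch_mul_conj, mul_one]
    _ = (f w * conj (ch χ w)) * ch χ w := by ring
    _ = b * ch χ w := by rw [h8]

end Pool.Agent.Lib.H82OH
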