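import Pool.Agent.Lib.H82OH.BB

/-!
# Project H82OH, chunk BC: continuity of the translations in the mean
-/

open MeasureTheory Filter Topology Finset
open scoped ComplexConjugate Matrix

namespace Pool.Agent.Lib.H82OH

open Pool.Agent.Lib.H22M Pool.Agent.Lib.H82T Pool.Agent.Lib.H82OT Pool.Agent.Lib.H82OF

variable {W : Type*} [CommGroup W] [TopologicalSpace W] [IsTopologicalGroup W] [CompactSpace W]
  [T2Space W] [SecondCountableTopology W] [MeasurableSpace W] [BorelSpace W]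

private theorem bc_int_sq (lam : Measure W) [IsProbabilityMeasure lam] (f : W → ℂ) (hf : BM f) :
    Integrable (fun w => ‖f w‖ ^ 2) lam := by
  obtain ⟨h1, C, hC⟩ := hf
  refine Integrable.of_bound (h1.norm.pow_const 2).aestronglyMeasurable (C ^ 2)
    (Eventually.of_forall fun w => ?_)
  rw [Real.norm_of_nonneg (by positivity)]
  exact pow_le_pow_left₀ (norm_nonneg _) (hC w) 2

private theorem bc_ineq (a b S : ℝ) (x : ℝ) (hx : 0 ≤ x)
    (h : x ≤ a + b + S) : x ^ 2 ≤ 3 * (a ^ 2 + b ^ 2 + S ^ 2) := by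
  have h1 : x ^ 2 ≤ (a + b + S) ^ 2 := pow_le_pow_left₀ hx h 2
  nlinarith [sq_nonneg (a - b), sq_nonneg (a - S), sq_nonneg (b - S)]

/-- Proof. `tg_approx` (`H22M/TG.lean`): `f = T + g`, `T = ∑_{χ ∈ F} t χ`, `∫ ‖g‖² ≤ k²`; the translates of `g` have
the same norm, and `T(β w) - T(β₀ w) = ∑ t_χ (χ β - χ β₀) χ w` is uniformly small for `β` near `β₀`
(continuity of the finitely many `ch χ`). So
`∫ ‖f(β w) - f(β₀ w)‖² ≤ 3 (2 k² + (∑ ‖t_χ‖ ‖χ β - χ β₀‖)²)`. -/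
theorem trans_cont (lam : Measure W) [lam.IsHaarMeasure] [IsProbabilityMeasure lam]
    (f : W → ℂ) (hf : BM f) (β₀ : W) :
    Tendsto (fun β : W => ∫ w, ‖f (β * w) - f (β₀ * w)‖ ^ 2 ∂lam) (𝓝 β₀) (𝓝 0) := by
  rw [Metric.tendsto_nhds]
  intro ε hε
  obtain ⟨F, t, hF⟩ := tg_approx lam f hf (Real.sqrt (ε / 12)) (by positivity)
  rw [Real.sq_sqrt (by positivity)] at hF
  have hbT : BM fun w : W => ∑ χ ∈ F, t χ * ch χ w :=
    BM.sum F fun χ _ => (BM.const (t χ)).mul (bm_ch χ)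
  obtain ⟨g, hgdef⟩ : ∃ g : W → ℂ, g = fun z => f z - ∑ χ ∈ F, t χ * ch χ z := ⟨_, rfl⟩
  have hg : BM g := by rw [hgdef]; exact hf.sub hbT
  have hgI : Integrable (fun w => ‖g w‖ ^ 2) lam := bc_int_sq lam g hg
  have hgle : ∫ w, ‖g w‖ ^ 2 ∂lam ≤ ε / 12 := by
    rw [hgdef]
    exact hF
  obtain ⟨S, hSdef⟩ : ∃ S : W → ℝ, S = fun β => ∑ χ ∈ F, ‖t χ‖ * ‖ch χ β - ch χ β₀‖ := ⟨_, rfl⟩
  have hSc : Continuous S := by
    rw [hSdef]
    exact continuous_finsetSum _ fun χ _ =>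
      continuous_const.mul ((continuous_ch χ).sub continuous_const).norm
  have hS0 : S β₀ = 0 := by
    rw [hSdef]
    simp
  have hev : ∀ᶠ β in 𝓝 β₀, 3 * (S β) ^ 2 < ε / 2 := by
    have h1 : Tendsto (fun β => 3 * (S β) ^ 2) (𝓝 β₀) (𝓝 (3 * (S β₀) ^ 2)) :=
      (continuous_const.mul (hSc.pow 2)).tendsto β₀
    rw [hS0] at h1
    have h2 : (3 * (0 : ℝ) ^ 2) < ε / 2 := by
      norm_num
      exact hε
    exact h1.eventually (gt_mem_nhds h2)
  filter_upwards [hev] with β hβ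
  rw [Real.dist_eq, sub_zero, abs_of_nonneg (integral_nonneg fun w => by positivity)]
  have hshift : ∀ u : W, Integrable (fun w => ‖g (u * w)‖ ^ 2) lam := fun u =>
    bc_int_sq lam (fun w => g (u * w)) (hg.comp (measurable_const_mul u))
  have heq : ∀ u : W, ∫ w, ‖g (u * w)‖ ^ 2 ∂lam = ∫ w, ‖g w‖ ^ 2 ∂lam := fun u =>
    integral_mul_left_eq_self (fun w => ‖g w‖ ^ 2) u
  have hle : ∫ w, ‖f (β * w) - f (β₀ * w)‖ ^ 2 ∂lam ≤
      ∫ w, 3 * (‖g (β * w)‖ ^ 2 + ‖g (β₀ * w)‖ ^ 2 + (S β) ^ 2) ∂lam := by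
    refine integral_mono_of_nonneg (Eventually.of_forall fun w => by positivity)
      ((((hshift β).add (hshift β₀)).add (integrable_const _)).const_mul 3)
      (Eventually.of_forall fun w => ?_)
    show ‖f (β * w) - f (β₀ * w)‖ ^ 2 ≤ 3 * (‖g (β * w)‖ ^ 2 + ‖g (β₀ * w)‖ ^ 2 + (S β) ^ 2)
    refine bc_ineq _ _ _ _ (norm_nonneg _) ?_
    have h1 : f (β * w) - f (β₀ * w) = g (β * w) - g (β₀ * w) +
        ∑ χ ∈ F, t χ * (ch χ β - ch χ β₀) * ch χ w := by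
      rw [hgdef]
      have h2 : ∑ χ ∈ F, t χ * (ch χ β - ch χ β₀) * ch χ w =
          ∑ χ ∈ F, t χ * ch χ (β * w) - ∑ χ ∈ F, t χ * ch χ (β₀ * w) := by
        rw [← Finset.sum_sub_distrib]
        refine Finset.sum_congr rfl fun χ _ => ?_
        rw [ch_mul_right, ch_mul_right]
        ring
      rw [h2]
      ring
    rw [h1]
    have h3 : ‖∑ χ ∈ F, t χ * (ch χ β - ch χ β₀) * ch χ w‖ ≤ S β := by
      rw [hSdef]
      refine (norm_sum_le _ _).trans (Finset.sum_le_sum fun χ _ => ?_)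
      rw [norm_mul, norm_mul, norm_ch, mul_one]
    exact (norm_add_le _ _).trans (add_le_add (norm_sub_le _ _) h3)
  have hval : ∫ w, 3 * (‖g (β * w)‖ ^ 2 + ‖g (β₀ * w)‖ ^ 2 + (S β) ^ 2) ∂lam =
      3 * (∫ w, ‖g w‖ ^ 2 ∂lam + ∫ w, ‖g w‖ ^ 2 ∂lam + (S β) ^ 2) := by
    have hsum : Integrable (fun w => ‖g (β * w)‖ ^ 2 + ‖g (β₀ * w)‖ ^ 2) lam :=
      (hshift β).add (hshift β₀)
    rw [integral_const_mul, integral_add hsum (integrable_const _),
      integral_add (hshift β) (hshift β₀), heq, heq]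
    simp
  rw [hval] at hle
  linarith

end Pool.Agent.Lib.H82OH
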