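import Pool.Agent.Lib.H82OH.DD

/-!
# Project H82OH, chunk BD: weak limits
-/

open MeasureTheory Filter Topology Finset
open scoped ComplexConjugate Matrix

namespace Pool.Agent.Lib.H82OH

open Pool.Agent.Lib.H22M Pool.Agent.Lib.H82T Pool.Agent.Lib.H82OT Pool.Agent.Lib.H82OF

private theorem BD_conj_memLp {Ω : Type*} [MeasurableSpace Ω] (μ : Measure Ω) [IsProbabilityMeasure μ]
    (f : Ω → ℂ) (hf : Measurable f) (C : ℝ) (hC : ∀ᵐ ω ∂μ, ‖f ω‖ ≤ C) :
    MemLp (fun ω => conj (f ω)) 2 μ := by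
  refine MemLp.of_bound (Complex.continuous_conj.measurable.comp hf).aestronglyMeasurable C ?_
  filter_upwards [hC] with ω h
  rw [RCLike.norm_conj]
  exact h

/-- the existence of the weak limit, without the bound -/
private theorem BD_weak {Ω : Type*} [MeasurableSpace Ω] (μ : Measure Ω) [IsProbabilityMeasure μ]
    {I : Type*} (𝒰 : Ultrafilter I) (f : I → Ω → ℂ) (hf : ∀ i, Measurable (f i)) (C : ℝ) (hC0 : 0 ≤ C)
    (hC : ∀ i, ∀ᵐ ω ∂μ, ‖f i ω‖ ≤ C) :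
    ∃ G : Ω → ℂ, Measurable G ∧ Integrable G μ ∧ ∀ h : Ω → ℂ, BM h →
      Tendsto (fun i => ∫ ω, f i ω * h ω ∂μ) 𝒰 (𝓝 (∫ ω, G ω * h ω ∂μ)) := by
  classical
  set F : I → Lp ℂ 2 μ := fun i => (BD_conj_memLp μ (f i) (hf i) C (hC i)).toLp _ with hF
  have hFae : ∀ i, F i =ᵐ[μ] fun ω => conj (f i ω) := fun i => MemLp.coeFn_toLp _
  have hFn : ∀ i, ‖F i‖ ≤ measureUnivNNReal μ ^ (2 : ENNReal).toReal⁻¹ * C := by
    intro i
    refine Lp.norm_le_of_ae_bound hC0 ?_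
    filter_upwards [hFae i, hC i] with ω h1 h2
    rw [h1, RCLike.norm_conj]
    exact h2
  set R : ℝ := measureUnivNNReal μ ^ (2 : ENNReal).toReal⁻¹ * C with hR
  set T : I → WeakDual ℂ (Lp ℂ 2 μ) := fun i =>
    StrongDual.toWeakDual (InnerProductSpace.toDual ℂ (Lp ℂ 2 μ) (F i)) with hT
  have hcomp := WeakDual.isCompact_closedBall (𝕜 := ℂ) (E := Lp ℂ 2 μ) 0 R
  obtain ⟨L, _, hL⟩ := hcomp.ultrafilter_le_nhds (𝒰.map T) (by
    rw [le_principal_iff]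
    refine Filter.mem_map.2 (Eventually.of_forall fun i => ?_)
    rw [Set.mem_preimage, Metric.mem_closedBall, dist_zero_right]
    have h1 : WeakDual.toStrongDual (T i) = InnerProductSpace.toDual ℂ (Lp ℂ 2 μ) (F i) := rfl
    rw [h1, LinearIsometryEquiv.norm_map]
    exact hFn i)
  have hLx : ∀ x : Lp ℂ 2 μ, Tendsto (fun i => inner ℂ (F i) x) 𝒰 (𝓝 (L x)) := by
    intro x
    have h1 : Tendsto T 𝒰 (𝓝 L) := hL
    have h2 := ((WeakDual.eval_continuous x).tendsto L).comp h1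
    exact h2
  set F₀ : Lp ℂ 2 μ := (InnerProductSpace.toDual ℂ (Lp ℂ 2 μ)).symm (WeakDual.toStrongDual L) with hF₀
  have hF₀x : ∀ x : Lp ℂ 2 μ, inner ℂ F₀ x = L x := by
    intro x
    rw [hF₀, InnerProductSpace.toDual_symm_apply]
    rfl
  have hin : ∀ (u : Lp ℂ 2 μ) (h : Ω → ℂ) (hh : BM h),
      inner ℂ u (hh.memLp (m := μ) (p := 2)).toLp = ∫ ω, conj (u ω) * h ω ∂μ := by
    intro u h hh
    rw [L2.inner_def]
    refine integral_congr_ae ?_
    filter_upwards [(hh.memLp (m := μ) (p := 2)).coeFn_toLp] with ω hω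
    rw [hω, RCLike.inner_apply, mul_comm]
  refine ⟨fun ω => conj (F₀ ω), Complex.continuous_conj.measurable.comp (Lp.stronglyMeasurable F₀).measurable,
    ?_, ?_⟩
  · have h1 : Integrable (F₀ : Ω → ℂ) μ := (Lp.memLp F₀).integrable (by norm_num)
    have h2 : Integrable (fun ω => conj (F₀ ω)) μ := by
      refine h1.norm.mono' (Complex.continuous_conj.measurable.comp (Lp.stronglyMeasurable F₀).measurable).aestronglyMeasurable ?_
      exact Eventually.of_forall fun ω => (RCLike.norm_conj _).le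
    exact h2
  · intro h hh
    have h1 := hLx (hh.memLp (m := μ) (p := 2)).toLp
    rw [← hF₀x, hin F₀ h hh] at h1
    refine h1.congr fun i => ?_
    rw [hin (F i) h hh]
    refine integral_congr_ae ?_
    filter_upwards [hFae i] with ω hω
    rw [hω, Complex.conj_conj]

/-- Weak limits along an ultrafilter. Proof. In the Hilbert space `Lp ℂ 2 μ` let `F i` be the class of `conj (f i)`;
for `x` in it the bounded family `⟪F i, x⟫` converges along `𝒰` (compact balls of `ℂ`, as in `w2_lim`,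
`H22M/W2.lean`); the limit is linear in `x` and bounded by `C ‖x‖`, so it is `⟪F₀, x⟫` for some `F₀`
(`InnerProductSpace.toDual`). Let `G₀` be a measurable version of `conj F₀`. For bounded measurable `h`:
`∫ f i h → ∫ G₀ h`. `‖G₀‖ ≤ C` a.e.: for `h = 1_{‖G₀‖ > C + 1/n} conj G₀ / ‖G₀‖` one gets
`(C + 1/n) μ{‖G₀‖ > C + 1/n} ≤ ∫ G₀ h ≤ C μ{‖G₀‖ > C + 1/n}`. Put `G = G₀` where `‖G₀‖ ≤ C` and `0` elsewhere
(`0 ≤ C` since some `f i` is a.e. bounded by `C` and `μ` is a probability measure; an ultrafilter is `NeBot`,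
so the index set is nonempty). -/
theorem exists_wlim {Ω : Type*} [MeasurableSpace Ω] (μ : Measure Ω) [IsProbabilityMeasure μ]
    {I : Type*} (𝒰 : Ultrafilter I) (f : I → Ω → ℂ) (hf : ∀ i, Measurable (f i)) (C : ℝ)
    (hC : ∀ i, ∀ᵐ ω ∂μ, ‖f i ω‖ ≤ C) :
    ∃ G : Ω → ℂ, Measurable G ∧ (∀ ω, ‖G ω‖ ≤ C) ∧ ∀ h : Ω → ℂ, BM h →
      Tendsto (fun i => ∫ ω, f i ω * h ω ∂μ) 𝒰 (𝓝 (∫ ω, G ω * h ω ∂μ)) := by
  classical
  have hC0 : 0 ≤ C := by
    obtain ⟨i⟩ := Filter.nonempty_of_neBot (𝒰 : Filter I)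
    obtain ⟨ω, hω⟩ := (hC i).exists
    exact (norm_nonneg _).trans hω
  obtain ⟨G₀, hGm, hGi, hG⟩ := BD_weak μ 𝒰 f hf C hC0 hC
  set A : Set Ω := {ω | C < ‖G₀ ω‖} with hA
  have hAm : MeasurableSet A := measurableSet_lt measurable_const hGm.norm
  set h₀ : Ω → ℂ := A.indicator (fun ω => conj (G₀ ω) / (‖G₀ ω‖ : ℂ)) with hh₀
  have hh₀n : ∀ ω, ‖h₀ ω‖ ≤ A.indicator (fun _ => (1 : ℝ)) ω := by
    intro ω
    by_cases hω : ω ∈ A
    · rw [hh₀, Set.indicator_of_mem hω, Set.indicator_of_mem hω, norm_div, RCLike.norm_conj,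
        Complex.norm_real, norm_norm]
      exact div_self_le_one _
    · rw [hh₀, Set.indicator_of_notMem hω, Set.indicator_of_notMem hω, norm_zero]
  have hh₀bm : BM h₀ := by
    refine ⟨?_, 1, fun ω => (hh₀n ω).trans ?_⟩
    · refine Measurable.indicator ?_ hAm
      exact (Complex.continuous_conj.measurable.comp hGm).div
        (Complex.measurable_ofReal.comp hGm.norm)
    · exact Set.indicator_le_self' (fun _ _ => zero_le_one) ω
  have hlim := (hG h₀ hh₀bm).norm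
  have hle : ∀ i, ‖∫ ω, f i ω * h₀ ω ∂μ‖ ≤ ∫ ω, A.indicator (fun _ => C) ω ∂μ := by
    intro i
    refine norm_integral_le_of_norm_le ((integrable_const C).indicator hAm) ?_
    filter_upwards [hC i] with ω hω
    rw [norm_mul]
    by_cases h1 : ω ∈ A
    · have h2 := hh₀n ω
      rw [Set.indicator_of_mem h1] at h2
      rw [Set.indicator_of_mem h1]
      calc ‖f i ω‖ * ‖h₀ ω‖ ≤ C * 1 := mul_le_mul hω h2 (norm_nonneg _) hC0
        _ = C := mul_one C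
    · have h2 := hh₀n ω
      rw [Set.indicator_of_notMem h1] at h2
      rw [Set.indicator_of_notMem h1, le_antisymm h2 (norm_nonneg _), mul_zero]
  have hle2 : ‖∫ ω, G₀ ω * h₀ ω ∂μ‖ ≤ ∫ ω, A.indicator (fun _ => C) ω ∂μ :=
    le_of_tendsto hlim (Eventually.of_forall hle)
  have heq : ∫ ω, G₀ ω * h₀ ω ∂μ = ((∫ ω, A.indicator (fun ω => ‖G₀ ω‖) ω ∂μ : ℝ) : ℂ) := by
    rw [← integral_complex_ofReal]
    refine integral_congr_ae (Eventually.of_forall fun ω => ?_)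
    show G₀ ω * h₀ ω = ((A.indicator (fun ω => ‖G₀ ω‖) ω : ℝ) : ℂ)
    by_cases h1 : ω ∈ A
    · have h2 : (‖G₀ ω‖ : ℂ) ≠ 0 := by
        have h3 : 0 < ‖G₀ ω‖ := lt_of_le_of_lt hC0 h1
        exact_mod_cast h3.ne'
      rw [hh₀, Set.indicator_of_mem h1, Set.indicator_of_mem h1, ← mul_div_assoc, Complex.mul_conj,
        Complex.normSq_eq_norm_sq]
      push_cast
      rw [pow_two, mul_div_assoc, div_self h2, mul_one]
    · rw [hh₀, Set.indicator_of_notMem h1, Set.indicator_of_notMem h1, mul_zero, Complex.ofReal_zero]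
  have hae : ∀ᵐ ω ∂μ, ‖G₀ ω‖ ≤ C := by
    have h1 : 0 ≤ ∫ ω, A.indicator (fun ω => ‖G₀ ω‖) ω ∂μ :=
      integral_nonneg fun ω => Set.indicator_nonneg (fun _ _ => norm_nonneg _) ω
    rw [heq, Complex.norm_real, Real.norm_eq_abs, abs_of_nonneg h1] at hle2
    have i1 : Integrable (A.indicator (fun ω => ‖G₀ ω‖)) μ := hGi.norm.indicator hAm
    have i2 : Integrable (A.indicator (fun _ => C)) μ := (integrable_const C).indicator hAm
    have h2 : ∫ ω, (A.indicator (fun ω => ‖G₀ ω‖) ω - A.indicator (fun _ => C) ω) ∂μ ≤ 0 := by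
      rw [integral_sub i1 i2]
      linarith
    have h3 : 0 ≤ fun ω => (A.indicator (fun ω => ‖G₀ ω‖) ω - A.indicator (fun _ => C) ω) := by
      intro ω
      show 0 ≤ A.indicator (fun ω => ‖G₀ ω‖) ω - A.indicator (fun _ => C) ω
      by_cases h1 : ω ∈ A
      · rw [Set.indicator_of_mem h1, Set.indicator_of_mem h1]
        have h4 : C < ‖G₀ ω‖ := h1
        linarith
      · rw [Set.indicator_of_notMem h1, Set.indicator_of_notMem h1, sub_zero]
    have h5 := (integral_eq_zero_iff_of_nonneg h3 (i1.sub i2)).1 (le_antisymm h2 (integral_nonneg h3))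
    filter_upwards [h5] with ω hω
    by_contra hlt
    have h1 : ω ∈ A := not_le.1 hlt
    have h6 : A.indicator (fun ω => ‖G₀ ω‖) ω - A.indicator (fun _ => C) ω = 0 := hω
    rw [Set.indicator_of_mem h1, Set.indicator_of_mem h1] at h6
    have h4 : C < ‖G₀ ω‖ := h1
    linarith
  refine ⟨fun ω => if ‖G₀ ω‖ ≤ C then G₀ ω else 0, ?_, ?_, ?_⟩
  · exact Measurable.ite (measurableSet_le hGm.norm measurable_const) hGm measurable_const
  · intro ω
    show ‖if ‖G₀ ω‖ ≤ C then G₀ ω else 0‖ ≤ C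
    split_ifs with h
    · exact h
    · rw [norm_zero]
      exact hC0
  · intro h hh
    have h1 : ∫ ω, (if ‖G₀ ω‖ ≤ C then G₀ ω else 0) * h ω ∂μ = ∫ ω, G₀ ω * h ω ∂μ := by
      refine integral_congr_ae ?_
      filter_upwards [hae] with ω hω
      rw [if_pos hω]
    rw [h1]
    exact hG h hh

/-- Products of weakly and strongly convergent families. Proof.
`∫ f i g i h - ∫ f i g₀ h = ∫ f i (g i - g₀) h`, of absolute value at most
`C ‖h‖_∞ (∫ ‖g i - g₀‖²)^(1/2)`, and `∫ f i g₀ h → ∫ G g₀ h` by `hw` (`g₀ h` is bounded measurable). -/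
theorem wlim_mul {Ω : Type*} [MeasurableSpace Ω] (μ : Measure Ω) [IsProbabilityMeasure μ]
    {I : Type*} (𝓕 : Filter I) (f : I → Ω → ℂ) (hf : ∀ i, Measurable (f i)) (C : ℝ)
    (hC : ∀ i, ∀ᵐ ω ∂μ, ‖f i ω‖ ≤ C) (G : Ω → ℂ) (hG : BM G)
    (hw : ∀ h : Ω → ℂ, BM h →
      Tendsto (fun i => ∫ ω, f i ω * h ω ∂μ) 𝓕 (𝓝 (∫ ω, G ω * h ω ∂μ)))
    (g : I → Ω → ℂ) (hg : ∀ i, Measurable (g i)) (hgC : ∀ i, ∀ᵐ ω ∂μ, ‖g i ω‖ ≤ C)
    (g₀ : Ω → ℂ) (hg₀ : BM g₀)
    (h2 : Tendsto (fun i => ∫ ω, ‖g i ω - g₀ ω‖ ^ 2 ∂μ) 𝓕 (𝓝 0)) (h : Ω → ℂ) (hh : BM h) :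
    Tendsto (fun i => ∫ ω, f i ω * g i ω * h ω ∂μ) 𝓕 (𝓝 (∫ ω, G ω * g₀ ω * h ω ∂μ)) := by
  obtain ⟨K, hK⟩ := hh.2
  have hK0 : 0 ≤ |K| := abs_nonneg K
  have hKa : ∀ ω, ‖h ω‖ ≤ |K| := fun ω => (hK ω).trans (le_abs_self K)
  obtain ⟨M, hM⟩ := hg₀.2
  have h1 := hw (fun ω => g₀ ω * h ω) (hg₀.mul hh)
  have hdm : ∀ i, Measurable fun ω => g i ω - g₀ ω := fun i => (hg i).sub hg₀.1
  have hdb : ∀ i, ∀ᵐ ω ∂μ, ‖g i ω - g₀ ω‖ ≤ |C| + |M| := by
    intro i
    filter_upwards [hgC i] with ω hω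
    exact (norm_sub_le _ _).trans (add_le_add (hω.trans (le_abs_self C)) ((hM ω).trans (le_abs_self M)))
  have hmem : ∀ i, MemLp (fun ω => ‖g i ω - g₀ ω‖) 2 μ := by
    intro i
    refine MemLp.of_bound (hdm i).norm.aestronglyMeasurable (|C| + |M|) ?_
    filter_upwards [hdb i] with ω hω
    rw [norm_norm]
    exact hω
  have hint1 : ∀ i, Integrable (fun ω => ‖g i ω - g₀ ω‖) μ := fun i => (hmem i).integrable (by norm_num)
  have hcs : ∀ i, ∫ ω, ‖g i ω - g₀ ω‖ ∂μ ≤ √(∫ ω, ‖g i ω - g₀ ω‖ ^ 2 ∂μ) := by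
    intro i
    have h3 := ProbabilityTheory.variance_nonneg (fun ω => ‖g i ω - g₀ ω‖) μ
    rw [ProbabilityTheory.variance_eq_sub (hmem i)] at h3
    have h4 : (∫ ω, ‖g i ω - g₀ ω‖ ∂μ) ^ 2 ≤ ∫ ω, ‖g i ω - g₀ ω‖ ^ 2 ∂μ := by
      have h5 : ∫ ω, ((fun ω => ‖g i ω - g₀ ω‖) ^ 2) ω ∂μ = ∫ ω, ‖g i ω - g₀ ω‖ ^ 2 ∂μ := rfl
      rw [h5] at h3
      linarith
    exact Real.le_sqrt_of_sq_le h4
  have hfg : ∀ i, Integrable (fun ω => f i ω * (g₀ ω * h ω)) μ := by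
    intro i
    have hb := (hg₀.mul hh)
    obtain ⟨B, hB⟩ := hb.2
    refine Integrable.of_bound ((hf i).mul hb.1).aestronglyMeasurable (|C| * |B|) ?_
    filter_upwards [hC i] with ω hω
    rw [norm_mul]
    exact mul_le_mul (hω.trans (le_abs_self C)) ((hB ω).trans (le_abs_self B)) (norm_nonneg _) (abs_nonneg _)
  have hfd : ∀ i, ∀ᵐ ω ∂μ, ‖f i ω * (g i ω - g₀ ω) * h ω‖ ≤ |C| * |K| * ‖g i ω - g₀ ω‖ := by
    intro i
    filter_upwards [hC i] with ω hω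
    rw [norm_mul, norm_mul]
    calc ‖f i ω‖ * ‖g i ω - g₀ ω‖ * ‖h ω‖ ≤ |C| * ‖g i ω - g₀ ω‖ * |K| :=
          mul_le_mul (mul_le_mul_of_nonneg_right (hω.trans (le_abs_self C)) (norm_nonneg _)) (hKa ω)
            (norm_nonneg _) (mul_nonneg (abs_nonneg _) (norm_nonneg _))
      _ = |C| * |K| * ‖g i ω - g₀ ω‖ := by ring
  have hfdi : ∀ i, Integrable (fun ω => f i ω * (g i ω - g₀ ω) * h ω) μ := by
    intro i
    refine ((hint1 i).const_mul (|C| * |K|)).mono' ?_ (hfd i)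
    exact (((hf i).mul (hdm i)).mul hh.1).aestronglyMeasurable
  have hz : Tendsto (fun i => ∫ ω, f i ω * (g i ω - g₀ ω) * h ω ∂μ) 𝓕 (𝓝 0) := by
    refine squeeze_zero_norm (a := fun i => |C| * |K| * √(∫ ω, ‖g i ω - g₀ ω‖ ^ 2 ∂μ)) (fun i => ?_) ?_
    · refine (norm_integral_le_of_norm_le ((hint1 i).const_mul (|C| * |K|)) (hfd i)).trans ?_
      rw [integral_const_mul]
      exact mul_le_mul_of_nonneg_left (hcs i) (mul_nonneg (abs_nonneg _) (abs_nonneg _))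
    · have h3 := ((Real.continuous_sqrt.tendsto 0).comp h2).const_mul (|C| * |K|)
      rw [Real.sqrt_zero, mul_zero] at h3
      exact h3
  have h3 := h1.add hz
  have h4 : ∫ ω, G ω * (g₀ ω * h ω) ∂μ + 0 = ∫ ω, G ω * g₀ ω * h ω ∂μ := by
    rw [add_zero]
    refine integral_congr_ae (Eventually.of_forall fun ω => ?_)
    show G ω * (g₀ ω * h ω) = G ω * g₀ ω * h ω
    ring
  rw [h4] at h3
  refine h3.congr fun i => ?_
  rw [← integral_add (hfg i) (hfdi i)]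
  refine integral_congr_ae (Eventually.of_forall fun ω => ?_)
  show f i ω * (g₀ ω * h ω) + f i ω * (g i ω - g₀ ω) * h ω = f i ω * g i ω * h ω
  ring

end Pool.Agent.Lib.H82OH
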