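import Pool.Agent.Lib.H82OH.BA

/-!
# Project H82OH, chunk BE: conditional expectations given the powers
-/

open MeasureTheory Filter Topology Finset
open scoped ComplexConjugate Matrix

namespace Pool.Agent.Lib.H82OH

open Pool.Agent.Lib.H22M Pool.Agent.Lib.H82T Pool.Agent.Lib.H82OT Pool.Agent.Lib.H82OF

variable {W : Type*} [CommGroup W] [TopologicalSpace W] [IsTopologicalGroup W] [CompactSpace W]
  [T2Space W] [SecondCountableTopology W] [MeasurableSpace W] [BorelSpace W]

/-- Scalar case of `exists_cexp`. -/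
private theorem BE_cexp (lam : Measure W) [IsProbabilityMeasure lam] {p : W → W}
    (hp : MeasurePreserving p lam lam) (f : W → ℂ) (hf : BM f) :
    ∃ G : W → ℂ, BM G ∧ ∀ h : W → ℂ, BM h →
      ∫ ω, f ω * h (p ω) ∂lam = ∫ w, G w * h w ∂lam := by
  obtain ⟨C, hC⟩ := hf.2
  have hm := hp.measurable.comap_le
  have hgm : Measurable[MeasurableSpace.comap p inferInstance]
      (lam[f | MeasurableSpace.comap p inferInstance]) := stronglyMeasurable_condExp.measurable
  obtain ⟨G₀, hG₀, hgG⟩ := hgm.exists_eq_measurable_comp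
  have hbd : ∀ᵐ ω ∂lam, ‖(lam[f | MeasurableSpace.comap p inferInstance]) ω‖ ≤ C :=
    ae_bdd_norm_condExp_of_ae_bdd_norm (Eventually.of_forall hC)
  classical
  have hG : BM (fun w => if ‖G₀ w‖ ≤ C then G₀ w else 0) := by
    refine ⟨Measurable.ite (measurableSet_le hG₀.norm measurable_const) hG₀ measurable_const,
      |C|, fun w => ?_⟩
    dsimp only
    split_ifs with h
    · exact h.trans (le_abs_self C)
    · simp
  refine ⟨fun w => if ‖G₀ w‖ ≤ C then G₀ w else 0, hG, fun h hh => ?_⟩
  have hfh : BM (fun ω => f ω * h (p ω)) := hf.mul (hh.comp hp.measurable)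
  have hhm : StronglyMeasurable[MeasurableSpace.comap p inferInstance] (fun ω => h (p ω)) :=
    (hh.1.comp (comap_measurable p)).stronglyMeasurable
  have e1 : ∫ ω, f ω * h (p ω) ∂lam =
      ∫ ω, (lam[fun ω => f ω * h (p ω) | MeasurableSpace.comap p inferInstance]) ω ∂lam :=
    (integral_condExp hm).symm
  have e2 : lam[fun ω => f ω * h (p ω) | MeasurableSpace.comap p inferInstance] =ᵐ[lam]
      fun ω => (lam[f | MeasurableSpace.comap p inferInstance]) ω * h (p ω) :=
    condExp_bilin_of_stronglyMeasurable_right (ContinuousLinearMap.mul ℝ ℂ) hhm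
      hfh.integrable hf.integrable
  have e3 : (fun ω => (lam[f | MeasurableSpace.comap p inferInstance]) ω * h (p ω)) =ᵐ[lam]
      fun ω => (fun w => (if ‖G₀ w‖ ≤ C then G₀ w else 0) * h w) (p ω) := by
    filter_upwards [hbd] with ω hω
    have h1 : (lam[f | MeasurableSpace.comap p inferInstance]) ω = G₀ (p ω) := congrFun hgG ω
    rw [h1] at hω ⊢
    show G₀ (p ω) * h (p ω) = (if ‖G₀ (p ω)‖ ≤ C then G₀ (p ω) else 0) * h (p ω)
    rw [if_pos hω]
  rw [e1, integral_congr_ae e2, integral_congr_ae e3]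
  have e4 := integral_map (μ := lam) hp.measurable.aemeasurable
    (f := fun w => (if ‖G₀ w‖ ≤ C then G₀ w else 0) * h w)
    (hG.mul hh).1.aestronglyMeasurable
  rw [hp.map_eq] at e4
  exact e4.symm

/-- Two bounded measurable functions with the same integrals against all bounded measurable functions
agree almost everywhere. -/
private theorem BE_ae_eq (lam : Measure W) [IsProbabilityMeasure lam] {L R : W → ℂ} (hL : BM L)
    (hR : BM R) (h : ∀ h : W → ℂ, BM h → ∫ w, L w * h w ∂lam = ∫ w, R w * h w ∂lam) :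
    L =ᵐ[lam] R := by
  have hd : BM fun w => L w - R w := hL.sub hR
  have h1 : ∫ w, (L w - R w) * conj (L w - R w) ∂lam = 0 := by
    have h2 := h (fun w => conj (L w - R w)) hd.conj
    have h3 : ∀ w, (L w - R w) * conj (L w - R w) =
        L w * conj (L w - R w) - R w * conj (L w - R w) := fun w => sub_mul _ _ _
    simp_rw [h3]
    rw [integral_sub (hL.mul hd.conj).integrable (hR.mul hd.conj).integrable, h2, sub_self]
  have h4 : ∀ w, (L w - R w) * conj (L w - R w) = ((‖L w - R w‖ ^ 2 : ℝ) : ℂ) := fun w => by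
    rw [Complex.mul_conj, Complex.normSq_eq_norm_sq]
  simp_rw [h4] at h1
  rw [integral_complex_ofReal, Complex.ofReal_eq_zero] at h1
  have hint : Integrable (fun w => ‖L w - R w‖ ^ 2) lam := by
    obtain ⟨hm, C, hC⟩ := hd
    refine (memLp_one_iff_integrable.mp (MemLp.of_bound (hm.norm.pow_const 2).aestronglyMeasurable
      (C ^ 2) (Eventually.of_forall fun w => ?_)))
    rw [norm_pow, norm_norm]
    exact pow_le_pow_left₀ (norm_nonneg _) (hC w) 2
  have h5 := (integral_eq_zero_iff_of_nonneg (fun w => sq_nonneg ‖L w - R w‖) hint).mp h1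
  filter_upwards [h5] with w hw
  have h6 : ‖L w - R w‖ ^ 2 = 0 := hw
  have h7 : ‖L w - R w‖ = 0 := by simpa using h6
  exact sub_eq_zero.mp (norm_eq_zero.mp h7)

/-- Proof. `p ω = t * ω ^ r` preserves `lam` (`mp_pow`). For every entry `f` let
`g = lam[f | comap p]` (`condExp`; real and imaginary parts are not needed), measurable for `comap p`, so
`g = G₀ ∘ p` with `G₀` measurable (`Measurable.exists_eq_measurable_comp` or
`StronglyMeasurable...`, see `PG7_factor` in `H82OG/PG7.lean`), a.e. bounded by the bound of `f`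
(`ae_bdd_condExp_of_ae_bdd`), so `G₀` may be truncated. `∫ f (h ∘ p) = ∫ g (h ∘ p) = ∫ G₀ h` (`condExp_mul...`,
`integral_condExp`; `MeasurePreserving.integral_comp'` or `integral_map`). Alternatively use the Hilbert space
projection or Radon-Nikodym. -/
theorem exists_cexp (lam : Measure W) [lam.IsHaarMeasure] [IsProbabilityMeasure lam] {c : W}
    (hc : Free c) (r : ℕ) (hr : 1 ≤ r) (t : W) {d e : ℕ} (X : W → Matrix (Fin d) (Fin e) ℂ)
    (hX : BMM X) :
    ∃ G : W → Matrix (Fin d) (Fin e) ℂ, BMM G ∧ ∀ i j (h : W → ℂ), BM h →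
      ∫ ω, X ω i j * h (t * ω ^ r) ∂lam = ∫ w, G w i j * h w ∂lam := by
  have hp := mp_pow lam hc r hr t
  have h1 : ∀ i j, ∃ G : W → ℂ, BM G ∧ ∀ h : W → ℂ, BM h →
      ∫ ω, X ω i j * h (t * ω ^ r) ∂lam = ∫ w, G w * h w ∂lam := fun i j =>
    BE_cexp lam hp (fun ω => X ω i j) (hX i j)
  choose G hG hGh using h1
  exact ⟨fun w => Matrix.of fun i j => G i j w, fun i j => hG i j, fun i j h hh => hGh i j h hh⟩

/-- Equivariance. Proof. For bounded measurable `h`, entry `(i, j)`:
`∫ (G(c^r w) B(w))_ij h(w) = ∑_k ∫ G(w)_ik (B_kj h)(c^(-r) w) = ∑_k ∫ X(ω)_ik (B_kj h)(c^(-r) t ω^r)`, and by the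
substitution `ω → c ω` this is `∑_k ∫ X(c ω)_ik B_kj(t ω^r) h(t ω^r) = ζ ∑_k ∫ A_ik(t ω^r) X(ω)_kj h(t ω^r)
= ζ ∑_k ∫ A_ik(w) G(w)_kj h(w)`. Two bounded measurable functions with the same integrals against all bounded
measurable `h` agree a.e. (`h` = the conjugate of the difference). -/
theorem cexp_eq (lam : Measure W) [lam.IsHaarMeasure] [IsProbabilityMeasure lam] {c : W}
    (r : ℕ) (t : W) {d e : ℕ} (X G : W → Matrix (Fin d) (Fin e) ℂ)
    (hX : BMM X) (hG : BMM G)
    (hGX : ∀ i j (h : W → ℂ), BM h →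
      ∫ ω, X ω i j * h (t * ω ^ r) ∂lam = ∫ w, G w i j * h w ∂lam)
    (ζ : ℂ) (A : W → Matrix (Fin d) (Fin d) ℂ) (B : W → Matrix (Fin e) (Fin e) ℂ) (hA : BMM A)
    (hB : BMM B)
    (heq : ∀ᵐ ω ∂lam, X (c * ω) * B (t * ω ^ r) = ζ • (A (t * ω ^ r) * X ω)) :
    ∀ᵐ w ∂lam, G (c ^ r * w) * B w = ζ • (A w * G w) := by
  have hmul : ∀ a : W, Measurable fun w : W => a * w := fun a =>
    (continuous_const.mul continuous_id).measurable
  have hpw : Measurable fun ω : W => t * ω ^ r :=
    (continuous_const.mul (continuous_pow r)).measurable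
  have hLb : BMM fun w => G (c ^ r * w) * B w := (hG.comp (hmul (c ^ r))).mul hB
  have hRb : BMM fun w => ζ • (A w * G w) := (hA.mul hG).smul ζ
  have key : ∀ i j, (fun w => (G (c ^ r * w) * B w) i j) =ᵐ[lam]
      fun w => (ζ • (A w * G w)) i j := by
    intro i j
    refine BE_ae_eq lam (hLb i j) (hRb i j) fun h hh => ?_
    have hBh : ∀ k, BM fun w => B w k j * h w := fun k => (hB k j).mul hh
    have hAh : ∀ k, BM fun w => A w i k * h w := fun k => (hA i k).mul hh
    -- left side
    have eL : ∫ w, (G (c ^ r * w) * B w) i j * h w ∂lam =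
        ∫ ω, (X (c * ω) * B (t * ω ^ r)) i j * h (t * ω ^ r) ∂lam := by
      have a1 : ∀ w, (G (c ^ r * w) * B w) i j * h w =
          ∑ k, G (c ^ r * w) i k * (B w k j * h w) := fun w => by
        rw [Matrix.mul_apply, Finset.sum_mul]
        exact Finset.sum_congr rfl fun k _ => mul_assoc _ _ _
      have a2 : ∀ ω, (X (c * ω) * B (t * ω ^ r)) i j * h (t * ω ^ r) =
          ∑ k, X (c * ω) i k * (B (t * ω ^ r) k j * h (t * ω ^ r)) := fun w => by
        rw [Matrix.mul_apply, Finset.sum_mul]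
        exact Finset.sum_congr rfl fun k _ => mul_assoc _ _ _
      simp_rw [a1, a2]
      rw [integral_finsetSum _ fun k _ =>
          (((hG i k).comp (hmul (c ^ r))).mul (hBh k)).integrable,
        integral_finsetSum _ fun k _ =>
          (((hX i k).comp (hmul c)).mul ((hBh k).comp hpw)).integrable]
      refine Finset.sum_congr rfl fun k _ => ?_
      have b1 : ∫ w, G (c ^ r * w) i k * (B w k j * h w) ∂lam =
          ∫ w, G w i k * (B ((c ^ r)⁻¹ * w) k j * h ((c ^ r)⁻¹ * w)) ∂lam := by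
        have := integral_mul_left_eq_self (μ := lam)
          (fun w => G w i k * (B ((c ^ r)⁻¹ * w) k j * h ((c ^ r)⁻¹ * w))) (c ^ r)
        rw [← this]
        refine integral_congr_ae (Eventually.of_forall fun w => ?_)
        simp only [inv_mul_cancel_left]
      have b2 := hGX i k (fun w => B ((c ^ r)⁻¹ * w) k j * h ((c ^ r)⁻¹ * w))
        ((hBh k).comp (hmul _))
      have b3 : ∫ ω, X ω i k * (B ((c ^ r)⁻¹ * (t * ω ^ r)) k j *
          h ((c ^ r)⁻¹ * (t * ω ^ r))) ∂lam =
          ∫ ω, X (c * ω) i k * (B (t * ω ^ r) k j * h (t * ω ^ r)) ∂lam := by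
        have := integral_mul_left_eq_self (μ := lam)
          (fun ω => X ω i k * (B ((c ^ r)⁻¹ * (t * ω ^ r)) k j *
            h ((c ^ r)⁻¹ * (t * ω ^ r)))) c
        rw [← this]
        refine integral_congr_ae (Eventually.of_forall fun w => ?_)
        have e : (c ^ r)⁻¹ * (t * (c * w) ^ r) = t * w ^ r := by
          rw [mul_pow, mul_left_comm t, inv_mul_cancel_left]
        simp only [e]
      rw [b1, ← b2, b3]
    have eM : ∫ ω, (X (c * ω) * B (t * ω ^ r)) i j * h (t * ω ^ r) ∂lam =
        ∫ ω, (ζ • (A (t * ω ^ r) * X ω)) i j * h (t * ω ^ r) ∂lam := by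
      refine integral_congr_ae ?_
      filter_upwards [heq] with ω hω
      rw [hω]
    have eR : ∫ w, (ζ • (A w * G w)) i j * h w ∂lam =
        ∫ ω, (ζ • (A (t * ω ^ r) * X ω)) i j * h (t * ω ^ r) ∂lam := by
      have a1 : ∀ w, (ζ • (A w * G w)) i j * h w =
          ζ * ∑ k, G w k j * (A w i k * h w) := fun w => by
        rw [Matrix.smul_apply, Matrix.mul_apply, smul_eq_mul, mul_assoc, Finset.sum_mul]
        congr 1
        exact Finset.sum_congr rfl fun k _ => by ring
      have a2 : ∀ ω, (ζ • (A (t * ω ^ r) * X ω)) i j * h (t * ω ^ r) =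
          ζ * ∑ k, X ω k j * (A (t * ω ^ r) i k * h (t * ω ^ r)) := fun w => by
        rw [Matrix.smul_apply, Matrix.mul_apply, smul_eq_mul, mul_assoc, Finset.sum_mul]
        congr 1
        exact Finset.sum_congr rfl fun k _ => by ring
      simp_rw [a1, a2]
      rw [integral_const_mul, integral_const_mul,
        integral_finsetSum _ fun k _ => ((hG k j).mul (hAh k)).integrable,
        integral_finsetSum _ fun k _ => ((hX k j).mul ((hAh k).comp hpw)).integrable]
      congr 1
      exact Finset.sum_congr rfl fun k _ => (hGX k j (fun w => A w i k * h w) (hAh k)).symm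
    rw [eL, eM, eR]
  have key2 : ∀ᵐ w ∂lam, ∀ i j, (G (c ^ r * w) * B w) i j = (ζ • (A w * G w)) i j := by
    rw [ae_all_iff]
    intro i
    rw [ae_all_iff]
    exact fun j => key i j
  filter_upwards [key2] with w hw
  ext i j
  exact hw i j

end Pool.Agent.Lib.H82OH
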