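import Pool.Agent.Lib.H82OH.FB
import Pool.Agent.Lib.H82OH.BB

/-!
# Project H82OH, chunk CA: almost no translation has a lift with constant one
-/

open MeasureTheory Filter Topology Finset
open scoped ComplexConjugate Matrix

namespace Pool.Agent.Lib.H82OH

open Pool.Agent.Lib.H22M Pool.Agent.Lib.H82T Pool.Agent.Lib.H82OT Pool.Agent.Lib.H82OF

variable {W : Type*} [CommGroup W] [TopologicalSpace W] [IsTopologicalGroup W] [CompactSpace W]
  [T2Space W] [SecondCountableTopology W] [MeasurableSpace W] [BorelSpace W]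

omit [IsTopologicalGroup W] [MeasurableSpace W] [BorelSpace W] in
private theorem ca_countable : Countable (PontryaginDual W) := by
  haveI : SecondCountableTopology (PontryaginDual W) :=
    (ContinuousMonoidHom.isInducing_toContinuousMap W Circle).secondCountableTopology
  haveI : DiscreteTopology (PontryaginDual W) := inferInstance
  exact TopologicalSpace.separableSpace_iff_countable.1 inferInstance

private theorem ca_cc_one {W : Type*} [CommGroup W] (c : W) (n : ℕ) (w : W) :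
    cc c (fun _ => (1 : Matrix (Fin 1) (Fin 1) ℂ)) n w = 1 := by
  induction n with
  | zero => rfl
  | succ n ih =>
    show 1 * cc c (fun _ => (1 : Matrix (Fin 1) (Fin 1) ℂ)) n w = 1
    rw [ih, one_mul]

private theorem ca_cc_shift {W : Type*} [CommGroup W] {d : ℕ} (c β : W)
    (Φ : W → Matrix (Fin d) (Fin d) ℂ) (n : ℕ) (w : W) :
    cc c (fun v => Φ (β * v)) n w = cc c Φ n (β * w) := by
  induction n with
  | zero => rfl
  | succ n ih =>
    show Φ (β * (c ^ n * w)) * cc c (fun v => Φ (β * v)) n w =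
      Φ (c ^ n * (β * w)) * cc c Φ n (β * w)
    rw [ih, mul_left_comm]

/-- The diagonal entries of the cocycle: lemma of Wiener. -/
private theorem ca_wiener (lam : Measure W) [lam.IsHaarMeasure] [IsProbabilityMeasure lam] {c : W}
    (hc : Free c) {d : ℕ} {Φ : W → Matrix (Fin d) (Fin d) ℂ} (hΦ : UC Φ)
    (hN : NE lam c Φ) (k : Fin d) :
    Tendsto (fun N : ℕ => (∑ n ∈ range N, ‖∫ w, cc c Φ n w k k ∂lam‖ ^ 2) / N) atTop (𝓝 0) := by
  classical
  obtain ⟨Y, hY⟩ : ∃ Y : W → Matrix (Fin d) (Fin 1) ℂ, ∀ w i j, Y w i j = if i = k then 1 else 0 :=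
    ⟨fun _ => Matrix.of fun i _ => if i = k then 1 else 0, fun _ _ _ => rfl⟩
  have hYb : BMM Y := fun i j => by
    simp_rw [hY]
    exact BM.const _
  have hB : UC (fun _ : W => (1 : Matrix (Fin 1) (Fin 1) ℂ)) :=
    ⟨fun i j => BM.const _, fun w => by simp, fun w => by simp⟩
  refine (twisted_wiener lam (hc.erg lam) hΦ hB (fun X z hz hX => hN X z hz hX) Y Y hYb
    hYb).congr fun N => ?_
  congr 1
  refine Finset.sum_congr rfl fun n _ => ?_
  congr 2
  refine integral_congr_ae (Eventually.of_forall fun w => ?_)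
  show Matrix.trace ((Y (c ^ n * w))ᴴ * (cc c Φ n w * Y w *
    (cc c (fun _ => (1 : Matrix (Fin 1) (Fin 1) ℂ)) n w)ᴴ)) = cc c Φ n w k k
  rw [ca_cc_one, Matrix.conjTranspose_one, Matrix.mul_one, Matrix.trace, Fin.sum_univ_one,
    Matrix.diag_apply, Matrix.mul_apply, Finset.sum_eq_single k, Matrix.mul_apply,
    Finset.sum_eq_single k, Matrix.conjTranspose_apply, hY, hY, if_pos rfl, star_one, one_mul,
    mul_one]
  · intro j _ hj
    rw [hY, if_neg hj, mul_zero]
  · intro h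
    exact absurd (Finset.mem_univ k) h
  · intro j _ hj
    rw [Matrix.conjTranspose_apply, hY, if_neg hj, star_zero, zero_mul]
  · intro h
    exact absurd (Finset.mem_univ k) h

/-- The mean ergodic theorem for one vector. -/
private theorem ca_mean {H : Type*} [NormedAddCommGroup H] [InnerProductSpace ℂ H]
    [CompleteSpace H] (V : H →ₗᵢ[ℂ] H) (y : H) :
    ∃ L : ℝ, 0 ≤ L ∧ Tendsto (fun N : ℕ => (∑ n ∈ range N, inner ℂ ((⇑V)^[n] y) y) / (N : ℂ)) atTop
      (𝓝 (L : ℂ)) ∧ (L = 0 → ∀ g : H, V g = g → inner ℂ g y = 0) := by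
  obtain ⟨T, hT⟩ : ∃ T : H →L[ℂ] H, T = V.toContinuousLinearMap := ⟨_, rfl⟩
  have hTV : ∀ x, T x = V x := fun x => by rw [hT]; rfl
  have hT1 : ‖T‖ ≤ 1 := by
    refine T.opNorm_le_bound zero_le_one fun x => ?_
    rw [hTV, V.norm_map, one_mul]
  have h1 := T.tendsto_birkhoffAverage_orthogonalProjection hT1 y
  obtain ⟨q, hq⟩ : ∃ q : H, q = ((T.eqLocus (1 : H →L[ℂ] H)).orthogonalProjectionOnto y : H) :=
    ⟨_, rfl⟩
  rw [← hq] at h1
  have hqy : ∀ g : H, V g = g → inner ℂ g y = inner ℂ g q := by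
    intro g hg
    have hmem : g ∈ T.eqLocus (1 : H →L[ℂ] H) := by
      show T g = (1 : H →L[ℂ] H) g
      rw [hTV, hg]
      rfl
    have h2 : inner ℂ g (y - q) = 0 := by
      have h3 : y - q ∈ (T.eqLocus (1 : H →L[ℂ] H))ᗮ := by
        rw [hq]
        exact Submodule.sub_starProjection_mem_orthogonal y
      exact Submodule.mem_orthogonal _ _ |>.1 h3 g hmem
    rw [inner_sub_right, sub_eq_zero] at h2
    exact h2
  have hVq : V q = q := by
    have h2 : q ∈ T.eqLocus (1 : H →L[ℂ] H) := by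
      rw [hq]
      exact Submodule.coe_mem _
    have h3 : T q = (1 : H →L[ℂ] H) q := h2
    rw [hTV] at h3
    exact h3
  refine ⟨‖q‖ ^ 2, by positivity, ?_, fun h0 g hg => ?_⟩
  · have h2 := h1.inner (tendsto_const_nhds (x := y)) (𝕜 := ℂ)
    rw [hqy q hVq, inner_self_eq_norm_sq_to_K] at h2
    have h3 : ((‖q‖ ^ 2 : ℝ) : ℂ) = (‖q‖ : ℂ) ^ 2 := by push_cast; rfl
    rw [h3]
    refine h2.congr fun N => ?_
    rw [birkhoffAverage, birkhoffSum, inner_smul_left, sum_inner, div_eq_inv_mul, map_inv₀,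
      Complex.conj_natCast]
    congr 1
    refine Finset.sum_congr rfl fun n _ => ?_
    have h4 : (⇑T)^[n] y = (⇑V)^[n] y := by
      have h5 : (⇑T) = (⇑V) := funext hTV
      rw [h5]
    rw [id, h4]
  · have h2 : q = 0 := norm_eq_zero.1 (pow_eq_zero_iff (two_ne_zero) |>.1 h0)
    rw [hqy g hg, h2, inner_zero_right]

private theorem ca_entry {d : ℕ} (U : Matrix (Fin d) (Fin d) ℂ) (hU : U * Uᴴ = 1) (i j : Fin d) :
    ‖U i j‖ ≤ 1 :=
  entry_norm_bound_of_unitary (Matrix.mem_unitaryGroup_iff.2 hU) i j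

/-- Dominated convergence. -/
private theorem ca_avg {W : Type*} [MeasurableSpace W] (lam : Measure W) [IsProbabilityMeasure lam]
    (G : ℕ → W → ℂ) (hG : ∀ n, Measurable (G n)) (hb : ∀ n β, ‖G n β‖ ≤ 1) (L : W → ℝ)
    (hL0 : ∀ β, 0 ≤ L β)
    (hlim : ∀ β, Tendsto (fun N : ℕ => (∑ n ∈ range N, G n β) / (N : ℂ)) atTop (𝓝 (L β : ℂ)))
    (hint : Tendsto (fun N : ℕ => (∑ n ∈ range N, ∫ β, G n β ∂lam) / (N : ℂ)) atTop (𝓝 0)) :
    ∀ᵐ β ∂lam, L β = 0 := by
  have hm : ∀ N : ℕ, Measurable fun β => (∑ n ∈ range N, G n β) / (N : ℂ) := fun N =>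
    (Finset.measurable_fun_sum _ fun n _ => hG n).div_const _
  have hb' : ∀ (N : ℕ) (β : W), ‖(∑ n ∈ range N, G n β) / (N : ℂ)‖ ≤ 1 := by
    intro N β
    rw [norm_div, Complex.norm_natCast]
    refine div_le_one_of_le₀ ?_ (Nat.cast_nonneg _)
    calc ‖∑ n ∈ range N, G n β‖ ≤ ∑ n ∈ range N, ‖G n β‖ := norm_sum_le _ _
      _ ≤ ∑ n ∈ range N, (1 : ℝ) := Finset.sum_le_sum fun n _ => hb n β
      _ = N := by simp
  have h1 : Tendsto (fun N : ℕ => ∫ β, (∑ n ∈ range N, G n β) / (N : ℂ) ∂lam) atTop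
      (𝓝 (∫ β, (L β : ℂ) ∂lam)) :=
    tendsto_integral_of_dominated_convergence (fun _ => (1 : ℝ))
      (fun N => (hm N).aestronglyMeasurable) (integrable_const _)
      (fun N => Eventually.of_forall (hb' N)) (Eventually.of_forall hlim)
  have h2 : ∀ N : ℕ, ∫ β, (∑ n ∈ range N, G n β) / (N : ℂ) ∂lam =
      (∑ n ∈ range N, ∫ β, G n β ∂lam) / (N : ℂ) := by
    intro N
    rw [integral_div, integral_finsetSum]
    intro n _
    exact BM.integrable ⟨hG n, 1, hb n⟩
  have h3 : ∫ β, (L β : ℂ) ∂lam = 0 := tendsto_nhds_unique (h1.congr h2) hint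
  have h4 : ∫ β, L β ∂lam = 0 := by
    have h5 : ∫ β, (L β : ℂ) ∂lam = ((∫ β, L β ∂lam : ℝ) : ℂ) := integral_ofReal
    rw [h3] at h5
    exact_mod_cast h5.symm
  have hLc : Measurable fun β => (L β : ℂ) :=
    measurable_of_tendsto_metrizable hm (tendsto_pi_nhds.2 hlim)
  have hLm : Measurable L := by
    have h5 := Complex.measurable_re.comp hLc
    exact h5
  have hLb : ∀ β, ‖L β‖ ≤ 1 := by
    intro β
    have h5 := (hlim β).norm
    rw [Complex.norm_real] at h5
    exact le_of_tendsto h5 (Eventually.of_forall fun N => hb' N β)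
  have hLi : Integrable L lam :=
    Integrable.of_bound hLm.aestronglyMeasurable 1 (Eventually.of_forall hLb)
  exact (integral_eq_zero_iff_of_nonneg hL0 hLi).1 h4

/-- Fubini. -/
private theorem ca_fubini (lam : Measure W) [lam.IsHaarMeasure] [IsProbabilityMeasure lam]
    (f g : W → ℂ) (hf : BM f) (hg : BM g) :
    Measurable (fun β => ∫ w, f (β * w) * conj (g w) ∂lam) ∧
      ∫ β, ∫ w, f (β * w) * conj (g w) ∂lam ∂lam = (∫ w, f w ∂lam) * conj (∫ w, g w ∂lam) := by
  have hF : BM fun p : W × W => f (p.1 * p.2) * conj (g p.2) :=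
    (hf.comp (measurable_fst.mul measurable_snd)).mul (hg.conj.comp measurable_snd)
  constructor
  · have h1 : StronglyMeasurable (Function.uncurry fun β w : W => f (β * w) * conj (g w)) :=
      hF.1.stronglyMeasurable
    exact h1.integral_prod_right.measurable
  · have h1 : Integrable (Function.uncurry fun β w : W => f (β * w) * conj (g w))
        (lam.prod lam) := hF.integrable
    rw [integral_integral_swap h1]
    have h2 : ∀ w : W, ∫ β, f (β * w) * conj (g w) ∂lam = (∫ v, f v ∂lam) * conj (g w) := by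
      intro w
      rw [integral_mul_const, integral_mul_right_eq_self f w]
    simp_rw [h2]
    rw [integral_const_mul, integral_conj]

/-- The matrices of the twisted translation `X ↦ A(w)ᴴ X(c w) B(w)`. -/
private def caW {W : Type*} {d e : ℕ} (A : W → Matrix (Fin d) (Fin d) ℂ)
    (B : W → Matrix (Fin e) (Fin e) ℂ) (w : W) (k l : Fin d × Fin e) : ℂ :=
  conj (A w k.1 l.1) * B w k.2 l.2

private theorem ca_unit {W : Type*} {d e : ℕ} (A : W → Matrix (Fin d) (Fin d) ℂ)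
    (B : W → Matrix (Fin e) (Fin e) ℂ) (hA : ∀ w, A w * (A w)ᴴ = 1) (hB : ∀ w, B w * (B w)ᴴ = 1)
    (w : W) (k k' : Fin d × Fin e) :
    ∑ l, caW A B w k l * conj (caW A B w k' l) = if k = k' then 1 else 0 := by
  have h2 : ∀ (m : ℕ) (M : Matrix (Fin m) (Fin m) ℂ), M * Mᴴ = 1 → ∀ i j : Fin m,
      ∑ l, M i l * conj (M j l) = if i = j then 1 else 0 := by
    intro m M hM i j
    have h3 : (M * Mᴴ) i j = (1 : Matrix (Fin m) (Fin m) ℂ) i j := by rw [hM]
    rw [Matrix.mul_apply, Matrix.one_apply] at h3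
    exact h3
  have h1 : ∀ l : Fin d × Fin e, caW A B w k l * conj (caW A B w k' l) =
      (A w k'.1 l.1 * conj (A w k.1 l.1)) * (B w k.2 l.2 * conj (B w k'.2 l.2)) := by
    intro l
    unfold caW
    simp only [map_mul, Complex.conj_conj]
    ring
  rw [Finset.sum_congr rfl fun l _ => h1 l, Fintype.sum_prod_type]
  have h3 : ∑ x, ∑ y, (A w k'.1 x * conj (A w k.1 x)) * (B w k.2 y * conj (B w k'.2 y)) =
      (∑ x, A w k'.1 x * conj (A w k.1 x)) * ∑ y, B w k.2 y * conj (B w k'.2 y) := by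
    rw [Finset.sum_mul_sum]
  rw [h3, h2 d _ (hA w), h2 e _ (hB w)]
  by_cases h4 : k.1 = k'.1
  · by_cases h5 : k.2 = k'.2
    · rw [if_pos h4.symm, if_pos h5, if_pos (Prod.ext h4 h5), one_mul]
    · rw [if_pos h4.symm, if_neg h5, if_neg fun h => h5 (congrArg Prod.snd h), mul_zero]
  · rw [if_neg fun h => h4 h.symm, if_neg fun h => h4 (congrArg Prod.fst h), zero_mul]

/-- The coordinates of the twisted translation as a matrix product. -/
private theorem ca_sum {W : Type*} {d e : ℕ} (A : W → Matrix (Fin d) (Fin d) ℂ)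
    (B : W → Matrix (Fin e) (Fin e) ℂ) (w : W) (X : Matrix (Fin d) (Fin e) ℂ)
    (l : Fin d × Fin e) :
    ∑ k, caW A B w k l * X k.1 k.2 = ((A w)ᴴ * X * B w) l.1 l.2 := by
  rw [Fintype.sum_prod_type, Finset.sum_comm, Matrix.mul_apply]
  refine Finset.sum_congr rfl fun y _ => ?_
  rw [Matrix.mul_apply, Finset.sum_mul]
  refine Finset.sum_congr rfl fun x _ => ?_
  rw [Matrix.conjTranspose_apply]
  unfold caW
  have : star (A w x l.1) = conj (A w x l.1) := rfl
  rw [this]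
  ring

/-- The iterates. -/
private theorem ca_iter (lam : Measure W) [IsProbabilityMeasure lam] {β : W}
    (hβ : MeasurePreserving (fun w => β * w) lam lam) {d e : ℕ}
    {A : W → Matrix (Fin d) (Fin d) ℂ} {B : W → Matrix (Fin e) (Fin e) ℂ}
    (V : Lp (EuclideanSpace ℂ (Fin d × Fin e)) 2 lam →ₗᵢ[ℂ]
      Lp (EuclideanSpace ℂ (Fin d × Fin e)) 2 lam)
    (hV : IsTwist lam (fun w => β * w) (caW A B) V) (Z : W → Matrix (Fin d) (Fin e) ℂ)
    (v : Lp (EuclideanSpace ℂ (Fin d × Fin e)) 2 lam) (hv : ∀ᵐ w ∂lam, ∀ k, v w k = Z w k.1 k.2)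
    (n : ℕ) :
    ∀ᵐ w ∂lam, ∀ k, ((⇑V)^[n] v) w k =
      ((cc β A n w)ᴴ * Z (β ^ n * w) * cc β B n w) k.1 k.2 := by
  induction n with
  | zero =>
    filter_upwards [hv] with w hw k
    have h1 : cc β A 0 w = 1 := rfl
    have h2 : cc β B 0 w = 1 := rfl
    rw [h1, h2, Matrix.conjTranspose_one, Matrix.one_mul, Matrix.mul_one, pow_zero, one_mul]
    exact hw k
  | succ n ih =>
    have h1 := hβ.quasiMeasurePreserving.ae ih
    filter_upwards [hV ((⇑V)^[n] v), h1] with w h2 h3 l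
    rw [Function.iterate_succ_apply', h2 l]
    have h4 : ∑ k, caW A B w k l * ((⇑V)^[n] v) (β * w) k = ∑ k, caW A B w k l *
        ((cc β A n (β * w))ᴴ * Z (β ^ n * (β * w)) * cc β B n (β * w)) k.1 k.2 :=
      Finset.sum_congr rfl fun k _ => by rw [h3 k]
    rw [h4, ca_sum]
    have h5 : ∀ {m : ℕ} (Φ : W → Matrix (Fin m) (Fin m) ℂ),
        cc β Φ (n + 1) w = cc β Φ n (β * w) * Φ w := by
      intro m Φ
      rw [cc_add β Φ n 1 w, pow_one]
      have h6 : cc β Φ 1 w = Φ w := by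
        show Φ (β ^ 0 * w) * 1 = Φ w
        rw [pow_zero, one_mul, mul_one]
      rw [h6]
    have h7 : β ^ n * (β * w) = β ^ (n + 1) * w := by rw [← mul_assoc, ← pow_succ]
    rw [h5 A, h5 B, h7, Matrix.conjTranspose_mul]
    simp only [Matrix.mul_assoc]

/-- Classes of bounded measurable matrix functions. -/
private theorem ca_class {W : Type*} [MeasurableSpace W] (lam : Measure W)
    [IsProbabilityMeasure lam] {d e : ℕ} (Z : W → Matrix (Fin d) (Fin e) ℂ) (hZ : BMM Z) :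
    ∃ v : Lp (EuclideanSpace ℂ (Fin d × Fin e)) 2 lam, ∀ᵐ w ∂lam, ∀ k, v w k = Z w k.1 k.2 := by
  classical
  choose hm C hC using hZ
  obtain ⟨F, hF⟩ : ∃ F : W → EuclideanSpace ℂ (Fin d × Fin e), F = fun w =>
      WithLp.toLp 2 fun k => Z w k.1 k.2 := ⟨_, rfl⟩
  have hF' : ∀ w k, F w k = Z w k.1 k.2 := fun w k => by
    rw [hF]
  have h4 : F = fun w => ∑ l : Fin d × Fin e, (Z w l.1 l.2) •
      EuclideanSpace.single l (1 : ℂ) := by
    funext w
    ext l
    rw [hF']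
    simp [WithLp.ofLp_sum, Finset.sum_apply, Pi.single_apply]
  have hFm : AEStronglyMeasurable F lam := by
    rw [h4]
    exact Finset.aestronglyMeasurable_fun_sum _ fun l _ =>
      (hm l.1 l.2).aestronglyMeasurable.smul_const _
  have hFb : ∀ w, ‖F w‖ ≤ Real.sqrt (∑ k : Fin d × Fin e, |C k.1 k.2| ^ 2) := by
    intro w
    rw [EuclideanSpace.norm_eq]
    refine Real.sqrt_le_sqrt (Finset.sum_le_sum fun k _ => ?_)
    rw [hF']
    exact pow_le_pow_left₀ (norm_nonneg _) ((hC k.1 k.2 w).trans (le_abs_self _)) 2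
  have hmem : MemLp F 2 lam := MemLp.of_bound hFm _ (Eventually.of_forall hFb)
  refine ⟨hmem.toLp F, ?_⟩
  filter_upwards [hmem.coeFn_toLp] with w hw k
  rw [hw, hF']

/-- For one translation, one character and one matrix unit. -/
private theorem ca_pair (lam : Measure W) [lam.IsHaarMeasure] [IsProbabilityMeasure lam]
    (c β : W) {d : ℕ} {Φ : W → Matrix (Fin d) (Fin d) ℂ} (hΦ : UC Φ) (χ : PontryaginDual W)
    (k l : Fin d) :
    ∃ L : ℝ, 0 ≤ L ∧ Tendsto (fun N : ℕ => (∑ n ∈ range N, conj (ch χ (c ^ n)) *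
        ∫ w, cc c Φ n (β * w) k k * conj (cc c Φ n w l l) ∂lam) / (N : ℂ)) atTop (𝓝 (L : ℂ)) ∧
      (L = 0 → ∀ γ : W → Matrix (Fin d) (Fin d) ℂ, UL lam c Φ β 1 γ →
        ∫ w, ch χ w * conj (γ w k l) ∂lam = 0) := by
  classical
  obtain ⟨A, hA⟩ : ∃ A : W → Matrix (Fin d) (Fin d) ℂ, A = fun w => Φ (β * w) := ⟨_, rfl⟩
  have hAu : UC A := by
    rw [hA]
    exact hΦ.shift β
  have hmp := measurePreserving_mul_left lam c
  have hWm : ∀ k l, Measurable fun w => caW A Φ w k l := fun k l =>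
    (Complex.continuous_conj.measurable.comp (hAu.bm k.1 l.1).1).mul (hΦ.bm k.2 l.2).1
  obtain ⟨V, hV⟩ := exists_twist lam (fun w => c * w) hmp (caW A Φ) hWm
    (ca_unit A Φ hAu.right hΦ.right)
  obtain ⟨X, hX⟩ : ∃ X : W → Matrix (Fin d) (Fin d) ℂ,
      ∀ w i j, X w i j = if i = k ∧ j = l then ch χ w else 0 :=
    ⟨fun w => Matrix.of fun i j => if i = k ∧ j = l then ch χ w else 0, fun _ _ _ => rfl⟩
  have hXb : BMM X := by
    intro i j
    simp_rw [hX]
    by_cases h : i = k ∧ j = l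
    · simp only [h, and_self, if_true]
      exact bm_ch χ
    · simp only [h, if_false]
      exact BM.const _
  obtain ⟨y, hy⟩ := ca_class lam X hXb
  obtain ⟨L, hL0, hL1, hL2⟩ := ca_mean V y
  have hin : ∀ g : Lp (EuclideanSpace ℂ (Fin d × Fin d)) 2 lam,
      inner ℂ g y = ∫ w, ch χ w * conj (g w (k, l)) ∂lam := by
    intro g
    rw [L2.inner_def]
    refine integral_congr_ae ?_
    filter_upwards [hy] with w h1
    rw [PiLp.inner_apply, Finset.sum_eq_single (k, l)]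
    · rw [RCLike.inner_apply, h1, hX, if_pos ⟨rfl, rfl⟩]
    · intro p _ hp
      rw [RCLike.inner_apply, h1, hX, if_neg, zero_mul]
      rintro ⟨h2, h3⟩
      exact hp (Prod.ext h2 h3)
    · intro h
      exact absurd (Finset.mem_univ _) h
  refine ⟨L, hL0, hL1.congr fun N => ?_, fun h0 γ hγ => ?_⟩
  · congr 1
    refine Finset.sum_congr rfl fun n _ => ?_
    rw [hin, ← integral_const_mul]
    refine integral_congr_ae ?_
    filter_upwards [ca_iter lam hmp V hV X y hy n] with w h1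
    rw [h1 (k, l)]
    have h2 : cc c A n w = cc c Φ n (β * w) := by
      rw [hA]
      exact ca_cc_shift c β Φ n w
    have h3 : ((cc c A n w)ᴴ * X (c ^ n * w) * cc c Φ n w) k l =
        conj (cc c Φ n (β * w) k k) * ch χ (c ^ n * w) * cc c Φ n w l l := by
      rw [h2, Matrix.mul_apply, Finset.sum_eq_single l, Matrix.mul_apply,
        Finset.sum_eq_single k, Matrix.conjTranspose_apply, hX, if_pos ⟨rfl, rfl⟩]
      · rfl
      · intro i _ hi
        rw [hX, if_neg (fun h => hi h.1), mul_zero]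
      · intro h
        exact absurd (Finset.mem_univ _) h
      · intro j _ hj
        rw [Matrix.mul_apply, Finset.sum_eq_zero, zero_mul]
        intro i _
        rw [hX, if_neg (fun h => hj h.2), mul_zero]
      · intro h
        exact absurd (Finset.mem_univ _) h
    rw [h3, ch_mul_right, map_mul, map_mul, map_mul, Complex.conj_conj]
    calc ch χ w * (cc c Φ n (β * w) k k * (conj (ch χ (c ^ n)) * conj (ch χ w)) *
          conj (cc c Φ n w l l)) = (ch χ w * conj (ch χ w)) * (conj (ch χ (c ^ n)) *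
          (cc c Φ n (β * w) k k * conj (cc c Φ n w l l))) := by ring
      _ = conj (ch χ (c ^ n)) * (cc c Φ n (β * w) k k * conj (cc c Φ n w l l)) := by
          rw [ch_mul_conj, one_mul]
  · obtain ⟨g, hg⟩ := ca_class lam γ hγ.bm
    have hVg : V g = g := by
      refine Lp.ext ?_
      filter_upwards [hV g, hg, hmp.quasiMeasurePreserving.ae hg, hγ.eq] with w h1 h2 h3 h4
      ext p
      rw [h1 p, h2 p]
      have h5 : ∑ q, caW A Φ w q p * g (c * w) q = ∑ q, caW A Φ w q p * γ (c * w) q.1 q.2 :=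
        Finset.sum_congr rfl fun q _ => by rw [h3 q]
      rw [h5, ca_sum, Matrix.mul_assoc, h4, one_smul, ← Matrix.mul_assoc, hA]
      show ((Φ (β * w))ᴴ * Φ (β * w) * γ w) p.1 p.2 = γ w p.1 p.2
      rw [hΦ.left, Matrix.one_mul]
    have h6 := hL2 h0 g hVg
    rw [hin] at h6
    rw [← h6]
    refine integral_congr_ae ?_
    filter_upwards [hg] with w hw
    rw [hw (k, l)]


/-- Proof. `twisted_wiener` (FB) with `β = c` (`Free.erg`), `A = Φ`, `B = 1` (`1 × 1`), `Y = Z` = the constant column `e_k`: with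
`b_k(n) = ∫ (cc c Φ n)_kk dlam`, `N⁻¹ ∑_{n<N} ‖b_k(n)‖² → 0` (`hne` is `hN`).
For a character `χ` and `k, l` let `X₀(w) = χ(w) E_kl` (matrix unit), and `(𝒰_β^n X₀)(c^n w) = cc c Φ n (β w) X₀(w) (cc c Φ n w)ᴴ`,
`A_N(β, w) = N⁻¹ ∑_{n<N} (𝒰_β^n X₀)(w)`. `∫ tr((𝒰_β^n' X₀)ᴴ 𝒰_β^n X₀) dw = ∫ tr(X₀ᴴ 𝒰_β^(n-n') X₀)` for `n ≥ n'`, and by Fubini
`∫∫ tr(X₀ᴴ 𝒰_β^p X₀) dw dβ = conj χ(c^p) b_k(p) conj b_l(p)`. So
`∫∫ ‖A_N(β, w)‖²_HS dw dβ ≤ N⁻² ∑_{n,n'} ‖b_k(|n-n'|)‖ ‖b_l(|n-n'|)‖ ≤ N⁻¹ ∑_{p<N} (‖b_k(p)‖² + ‖b_l(p)‖²) → 0`. By Fatou, for a.e. `β` and all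
`χ, k, l` (countably many: `PontryaginDual W` is countable) `liminf_N ∫ ‖A_N(β, w)‖² dw = 0`.
If `γ` is a unitary lift of `β` with constant `1`, then `γ(c^n w) = cc c Φ n (β w) γ(w) (cc c Φ n w)ᴴ` (`Tw.iter`), so
`∫ tr(γᴴ X₀) = ∫ tr(γᴴ 𝒰_β^n X₀) = ∫ tr(γᴴ A_N(β, ·))`, of absolute value at most `√d (∫ ‖A_N‖²)^(1/2)`. For such `β` therefore
`∫ conj γ_kl χ = 0` for all `χ, k, l`, and `γ = 0` a.e. (`fourier_zero`), a contradiction (`0 < d`). -/
theorem cl_null (lam : Measure W) [lam.IsHaarMeasure] [IsProbabilityMeasure lam] {c : W}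
    (hc : Free c) {d : ℕ} (hd : 0 < d) {Φ : W → Matrix (Fin d) (Fin d) ℂ} (hΦ : UC Φ)
    (hN : NE lam c Φ) :
    ∀ᵐ β ∂lam, ∀ γ : W → Matrix (Fin d) (Fin d) ℂ, ¬ UL lam c Φ β 1 γ := by
  classical
  haveI : Countable (PontryaginDual W) := ca_countable
  have hk : ∀ (χ : PontryaginDual W) (k l : Fin d), ∀ᵐ β ∂lam,
      ∀ γ : W → Matrix (Fin d) (Fin d) ℂ, UL lam c Φ β 1 γ →
        ∫ w, ch χ w * conj (γ w k l) ∂lam = 0 := by
    intro χ k l
    choose L hL0 hL1 hL2 using fun β => ca_pair lam c β hΦ χ k l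
    have hcb : ∀ (n : ℕ) (w : W) (i : Fin d), ‖cc c Φ n w i i‖ ≤ 1 := fun n w i =>
      ca_entry _ ((hΦ.cc c n).right w) i i
    have hfub := fun n : ℕ => ca_fubini lam (fun w => cc c Φ n w k k) (fun w => cc c Φ n w l l)
      ((hΦ.cc c n).bm k k) ((hΦ.cc c n).bm l l)
    have h1 : ∀ᵐ β ∂lam, L β = 0 := by
      refine ca_avg lam (fun n β => conj (ch χ (c ^ n)) *
        ∫ w, cc c Φ n (β * w) k k * conj (cc c Φ n w l l) ∂lam)
        (fun n => (hfub n).1.const_mul _) ?_ L hL0 hL1 ?_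
      · intro n β
        rw [norm_mul, RCLike.norm_conj, norm_ch, one_mul]
        refine (norm_integral_le_of_norm_le_const (C := 1)
          (Eventually.of_forall fun w => ?_)).trans ?_
        · rw [norm_mul, RCLike.norm_conj]
          exact mul_le_one₀ (hcb n _ k) (norm_nonneg _) (hcb n _ l)
        · simp
      · have h2 := ca_wiener lam hc hΦ hN k
        have h3 := ca_wiener lam hc hΦ hN l
        have h4 := h2.add h3
        rw [add_zero] at h4
        refine squeeze_zero_norm (fun N => ?_) h4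
        rw [← add_div, norm_div, Complex.norm_natCast, ← Finset.sum_add_distrib]
        refine div_le_div_of_nonneg_right ?_ (Nat.cast_nonneg _)
        refine (norm_sum_le _ _).trans (Finset.sum_le_sum fun n _ => ?_)
        rw [integral_const_mul, (hfub n).2, norm_mul, norm_mul, RCLike.norm_conj,
          RCLike.norm_conj, norm_ch, one_mul]
        nlinarith [sq_nonneg (‖∫ w, cc c Φ n w k k ∂lam‖ - ‖∫ w, cc c Φ n w l l ∂lam‖),
          sq_nonneg (‖∫ w, cc c Φ n w k k ∂lam‖), sq_nonneg (‖∫ w, cc c Φ n w l l ∂lam‖)]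
    filter_upwards [h1] with β h2 using hL2 β h2
  have h3 : ∀ᵐ β ∂lam, ∀ (χ : PontryaginDual W) (k l : Fin d),
      ∀ γ : W → Matrix (Fin d) (Fin d) ℂ, UL lam c Φ β 1 γ →
        ∫ w, ch χ w * conj (γ w k l) ∂lam = 0 :=
    ae_all_iff.2 fun χ => ae_all_iff.2 fun k => ae_all_iff.2 fun l => hk χ k l
  filter_upwards [h3] with β hβ γ hγ
  have h4 : ∀ k l : Fin d, ∀ᵐ w ∂lam, γ w k l = 0 := fun k l =>
    fourier_zero lam (fun w => γ w k l) (hγ.bm k l) fun χ => by
      have h5 := hβ χ k l γ hγ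
      have h6 : conj (∫ w, ch χ w * conj (γ w k l) ∂lam) =
          ∫ w, γ w k l * conj (ch χ w) ∂lam := by
        rw [← integral_conj]
        refine integral_congr_ae (Eventually.of_forall fun w => ?_)
        show conj (ch χ w * conj (γ w k l)) = γ w k l * conj (ch χ w)
        rw [map_mul, Complex.conj_conj, mul_comm]
      rw [← h6, h5, map_zero]
  have h7 : ∀ᵐ w ∂lam, False := by
    filter_upwards [ae_all_iff.2 fun k => ae_all_iff.2 fun l => h4 k l, hγ.left] with w h8 h9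
    have h10 : γ w = 0 := by
      ext i j
      exact h8 i j
    rw [h10, Matrix.mul_zero] at h9
    have h11 := congrFun (congrFun h9 ⟨0, hd⟩) ⟨0, hd⟩
    rw [Matrix.one_apply_eq, Matrix.zero_apply] at h11
    exact zero_ne_one h11
  obtain ⟨w, hw⟩ := h7.exists
  exact hw


end Pool.Agent.Lib.H82OH
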