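import Pool.Agent.Lib.H82OH.PD

/-!
# Project H82OH, chunk CB: two powers of an irreducible cocycle
-/

open MeasureTheory Filter Topology Finset
open scoped ComplexConjugate Matrix

namespace Pool.Agent.Lib.H82OH

open Pool.Agent.Lib.H22M Pool.Agent.Lib.H82T Pool.Agent.Lib.H82OT Pool.Agent.Lib.H82OF

variable {W : Type*} [CommGroup W] [TopologicalSpace W] [IsTopologicalGroup W] [CompactSpace W]
  [T2Space W] [SecondCountableTopology W] [MeasurableSpace W] [BorelSpace W]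

/-- Proof. Let `δ : W`, `(κ₁, γ₁)` a unitary lift of `δ` (`hLG`). `UL.pow`: a lift of `δ^r'` with constant `κ₁^r'`. `DEq.shift` (PD; `Φ' = Φ`,
`s = r'`): `ψ, κ, γ`, a lift of `δ^r` with constant `κ`, `ψ(c) κ^r = (κ₁^r')^r'`. `UL.quot` with the lift `κ₁^r` of `δ^r`: `1` has a lift with
constant `conj κ₁^r κ`; its `r`-th power (`UL.pow`, `1^r = 1`) and multiplication with `ψ` (`UL.char`): `1` has a lift with constant
`e₁ = ψ(c) κ^r conj κ₁^(r²) = κ₁^(r'²) conj κ₁^(r²)`, and with `conj e₁` (`UL.inv`). Let `n = |r'² - r²| ≥ 1`: `e₁` or `conj e₁` is `κ₁^n`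
(`‖κ₁‖ = 1`). So `1` has a lift with constant `conj κ₁^n` (`UL.inv`), `δ^n` one with constant `κ₁^n` (`UL.pow`), and `UL.mul` gives a lift of `δ^n`
with constant `1`. Every `β` is of the form `δ^n` (`Free.divisible`). -/
theorem cl_group (lam : Measure W) [lam.IsHaarMeasure] [IsProbabilityMeasure lam] {c : W}
    (hc : Free c) {d : ℕ} (hd : 0 < d) {Φ : W → Matrix (Fin d) (Fin d) ℂ} (hΦ : UC Φ)
    (hI : Ic lam c Φ) (hLG : LG lam c Φ = Set.univ) {r r' : ℕ} (hr : r.Prime)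
    (hr' : r'.Prime) (hne : r ≠ r') (hdr : d < r) (hdr' : d < r') {t t' : W}
    {J : W → Matrix (Fin d) (Fin d) ℂ} (hJ : DEq lam c Φ Φ r r' t t' J)
    (h0 : ¬ ∀ᵐ ω ∂lam, J ω = 0) (β : W) :
    ∃ γ : W → Matrix (Fin d) (Fin d) ℂ, UL lam c Φ β 1 γ := by
  -- a lift of `1` with constant `conj κ₁ ^ n`
  have key : ∀ (δ : W) (κ₁ : ℂ) (γ₁ : W → Matrix (Fin d) (Fin d) ℂ), UL lam c Φ δ κ₁ γ₁ →
      ∀ n : ℕ, (r ^ 2 + n = r' ^ 2 ∨ r' ^ 2 + n = r ^ 2) →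
      ∃ γ : W → Matrix (Fin d) (Fin d) ℂ, UL lam c Φ 1 (conj κ₁ ^ n) γ := by
    intro δ κ₁ γ₁ h₁ n hn
    obtain ⟨ψ, κ, γ, hγ, hψ, -⟩ :=
      DEq.shift lam hc hd hd hΦ hΦ hI hI hr hr' hdr hdr' hJ h0 δ (κ₁ ^ r') _ (h₁.pow r')
    have h2 := ((hγ.quot hΦ (h₁.pow r)).pow r).char ψ 1 (by simp)
    have hc1 : κ₁ * conj κ₁ = 1 := by
      rw [Complex.mul_conj, Complex.normSq_eq_norm_sq, h₁.nk]
      norm_num
    have hc2 : conj κ₁ * κ₁ = 1 := by rw [mul_comm]; exact hc1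
    have hk : ch ψ c * (conj (κ₁ ^ r) * κ) ^ r = κ₁ ^ (r' ^ 2) * conj κ₁ ^ (r ^ 2) := by
      rw [mul_pow, map_pow, ← pow_mul, ← sq, mul_left_comm, hψ, ← pow_mul, ← sq, mul_comm]
    rw [hk, one_pow] at h2
    rcases hn with hn | hn
    · rw [← hn, pow_add] at h2
      have h3 : κ₁ ^ (r ^ 2) * κ₁ ^ n * conj κ₁ ^ (r ^ 2) = κ₁ ^ n := by
        calc κ₁ ^ (r ^ 2) * κ₁ ^ n * conj κ₁ ^ (r ^ 2)
            = (κ₁ * conj κ₁) ^ (r ^ 2) * κ₁ ^ n := by rw [mul_pow]; ring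
          _ = κ₁ ^ n := by rw [hc1, one_pow, one_mul]
      rw [h3] at h2
      have h4 := h2.inv hΦ
      rw [inv_one, map_pow] at h4
      exact ⟨_, h4⟩
    · rw [← hn, pow_add] at h2
      have h3 : κ₁ ^ (r' ^ 2) * (conj κ₁ ^ (r' ^ 2) * conj κ₁ ^ n) = conj κ₁ ^ n := by
        calc κ₁ ^ (r' ^ 2) * (conj κ₁ ^ (r' ^ 2) * conj κ₁ ^ n)
            = (κ₁ * conj κ₁) ^ (r' ^ 2) * conj κ₁ ^ n := by rw [mul_pow]; ring
          _ = conj κ₁ ^ n := by rw [hc1, one_pow, one_mul]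
      rw [h3] at h2
      exact ⟨_, h2⟩
  obtain ⟨n, hn1, hn⟩ : ∃ n : ℕ, 1 ≤ n ∧ (r ^ 2 + n = r' ^ 2 ∨ r' ^ 2 + n = r ^ 2) := by
    rcases lt_or_gt_of_ne hne with h | h
    · have h5 : r ^ 2 < r' ^ 2 := Nat.pow_lt_pow_left h (by norm_num)
      exact ⟨r' ^ 2 - r ^ 2, by omega, Or.inl (by omega)⟩
    · have h5 : r' ^ 2 < r ^ 2 := Nat.pow_lt_pow_left h (by norm_num)
      exact ⟨r ^ 2 - r' ^ 2, by omega, Or.inr (by omega)⟩
  obtain ⟨δ, hδ⟩ := hc.divisible n hn1 β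
  have hmem : δ ∈ LG lam c Φ := by
    rw [hLG]
    exact Set.mem_univ _
  obtain ⟨κ₁, γ₁, h₁⟩ := hmem
  obtain ⟨γ, hγ⟩ := key δ κ₁ γ₁ h₁ n hn
  have h6 := (h₁.pow n).mul hγ
  have h7 : κ₁ ^ n * conj κ₁ ^ n = 1 := by
    rw [← mul_pow, Complex.mul_conj, Complex.normSq_eq_norm_sq, h₁.nk]
    norm_num
  rw [mul_one, hδ, h7] at h6
  exact ⟨_, h6⟩

end Pool.Agent.Lib.H82OH
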