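import Pool.Agent.Lib.H82OH.NDefs
import Pool.Agent.Lib.PNT.PNT

/-!
# Project H82OH, chunk N7: primes in dyadic blocks
-/

open Finset

namespace Pool.Agent.Lib.H82OH

private theorem n7_theta_sub (a b : ℝ) (h : ⌊a⌋₊ ≤ ⌊b⌋₊) :
    Chebyshev.theta b - Chebyshev.theta a =
      ∑ p ∈ (Ioc ⌊a⌋₊ ⌊b⌋₊).filter Nat.Prime, Real.log (p : ℝ) := by
  unfold Chebyshev.theta
  rw [Finset.sum_filter, Finset.sum_filter, Finset.sum_filter]
  have h1 := Finset.sum_Ioc_consecutive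
    (fun p : ℕ => if p.Prime then Real.log (p : ℝ) else 0) (Nat.zero_le ⌊a⌋₊) h
  linarith

private theorem n7_close (δ : ℝ) (hδ : 0 < δ) : ∃ u0 : ℝ, 1 ≤ u0 ∧ ∀ u : ℝ, u0 ≤ u →
    |Chebyshev.theta u - u| ≤ δ * u := by
  have h := Metric.tendsto_atTop.1 Pool.Agent.Lib.PNT.theta_tendsto δ hδ
  obtain ⟨N, hN⟩ := h
  refine ⟨max N 1, le_max_right _ _, fun u hu => ?_⟩
  have h1 : N ≤ u := le_trans (le_max_left _ _) hu
  have h2 : 1 ≤ u := le_trans (le_max_right _ _) hu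
  have h3 := hN u h1
  rw [Real.dist_eq] at h3
  have h4 : Chebyshev.theta u - u = (Chebyshev.theta u / u - 1) * u := by
    field_simp
  rw [h4, abs_mul, abs_of_pos (show (0 : ℝ) < u by linarith)]
  exact mul_le_mul_of_nonneg_right h3.le (by linarith)

private theorem n7_log_lower {k p : ℕ} (hp : p ∈ PB k) :
    (k : ℝ) * Real.log 2 ≤ Real.log (p : ℝ) := by
  have h1 := (mem_PB.1 hp).1.1
  have h2 : ((2 : ℝ) ^ k) ≤ (p : ℝ) := by
    exact_mod_cast h1.le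
  have h3 := Real.log_le_log (by positivity) h2
  rwa [Real.log_pow] at h3

private theorem n7_log_upper {k p : ℕ} (hp : p ∈ PB k) :
    Real.log (p : ℝ) ≤ ((k : ℝ) + 1) * Real.log 2 := by
  have h1 := (mem_PB.1 hp).1.2
  have h0 := (mem_PB.1 hp).2.pos
  have h2 : (p : ℝ) ≤ (2 : ℝ) ^ (k + 1) := by
    exact_mod_cast h1
  have h3 := Real.log_le_log (by exact_mod_cast h0) h2
  rw [Real.log_pow] at h3
  push_cast at h3
  exact h3

private theorem n7_sum (k : ℕ) :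
    Chebyshev.theta ((2 : ℝ) ^ (k + 1)) - Chebyshev.theta ((2 : ℝ) ^ k) =
      ∑ p ∈ PB k, Real.log (p : ℝ) := by
  have e1 : ⌊(2 : ℝ) ^ (k + 1)⌋₊ = 2 ^ (k + 1) := by
    have : ((2 : ℝ) ^ (k + 1)) = ((2 ^ (k + 1) : ℕ) : ℝ) := by push_cast; rfl
    rw [this, Nat.floor_natCast]
  have e2 : ⌊(2 : ℝ) ^ k⌋₊ = 2 ^ k := by
    have : ((2 : ℝ) ^ k) = ((2 ^ k : ℕ) : ℝ) := by push_cast; rfl
    rw [this, Nat.floor_natCast]
  have hle : ⌊(2 : ℝ) ^ k⌋₊ ≤ ⌊(2 : ℝ) ^ (k + 1)⌋₊ := by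
    rw [e1, e2]
    exact Nat.pow_le_pow_right (by norm_num) (Nat.le_succ k)
  rw [n7_theta_sub _ _ hle, e1, e2]
  rfl

/-- Proof. `θ(2^(k+1)) - θ(2^k) = ∑_{p ∈ PB k} log p` is between `k log 2 |PB k|` and `(k + 1) log 2 |PB k|`, and
`theta_tendsto` (`PNT/PNT.lean`) gives `(θ(2^(k+1)) - θ(2^k)) / 2^k → 2 - 1 = 1`. -/
theorem card_PB (ε : ℝ) (hε : 0 < ε) : ∃ k0 : ℕ, ∀ k : ℕ, k0 ≤ k →
    |((PB k).card : ℝ) * (k * Real.log 2) - 2 ^ k| ≤ ε * 2 ^ k := by
  obtain ⟨u0, hu0, hu⟩ := n7_close (ε / 6) (by linarith)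
  obtain ⟨k1, hk1⟩ := exists_nat_gt u0
  obtain ⟨k2, hk2⟩ := exists_nat_gt ((1 + ε / 2) / (ε / 2))
  refine ⟨max k1 k2, fun k hk => ?_⟩
  have hkk1 : k1 ≤ k := le_trans (le_max_left _ _) hk
  have hkk2 : k2 ≤ k := le_trans (le_max_right _ _) hk
  have hL : 0 < Real.log 2 := Real.log_pos (by norm_num)
  have hpow : (k : ℝ) < 2 ^ k := by exact_mod_cast Nat.lt_two_pow_self
  have hk1' : (k1 : ℝ) ≤ k := by exact_mod_cast hkk1
  have hk2' : (k2 : ℝ) ≤ k := by exact_mod_cast hkk2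
  have hX : u0 ≤ (2 : ℝ) ^ k := by linarith
  have hX2 : u0 ≤ (2 : ℝ) ^ (k + 1) := by
    rw [pow_succ]
    have : (0 : ℝ) < 2 ^ k := by positivity
    linarith
  have a1 := abs_le.1 (hu _ hX)
  have a2 := abs_le.1 (hu _ hX2)
  have hS := n7_sum k
  have s1 : ((PB k).card : ℝ) * (k * Real.log 2) ≤ ∑ p ∈ PB k, Real.log (p : ℝ) := by
    have := Finset.card_nsmul_le_sum (PB k) (fun p : ℕ => Real.log (p : ℝ)) (k * Real.log 2)
      (fun p hp => n7_log_lower hp)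
    rwa [nsmul_eq_mul] at this
  have s2 : ∑ p ∈ PB k, Real.log (p : ℝ) ≤ ((PB k).card : ℝ) * (((k : ℝ) + 1) * Real.log 2) := by
    have := Finset.sum_le_card_nsmul (PB k) (fun p : ℕ => Real.log (p : ℝ))
      (((k : ℝ) + 1) * Real.log 2) (fun p hp => n7_log_upper hp)
    rwa [nsmul_eq_mul] at this
  set S : ℝ := ∑ p ∈ PB k, Real.log (p : ℝ) with hSdef
  set N : ℝ := ((PB k).card : ℝ) with hNdef
  have hpk : (2 : ℝ) ^ (k + 1) = 2 * 2 ^ k := by rw [pow_succ]; ring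
  rw [hpk] at a2 hS
  have b1 : S ≤ (1 + ε / 2) * 2 ^ k := by nlinarith [a1.1, a2.2]
  have b2 : (1 - ε / 2) * 2 ^ k ≤ S := by nlinarith [a1.2, a2.1]
  have hX0 : (0 : ℝ) < 2 ^ k := by positivity
  have hk0 : (0 : ℝ) ≤ k := Nat.cast_nonneg k
  -- N * log 2 ≤ (ε / 2) * 2 ^ k
  have hN0 : 0 ≤ N := Nat.cast_nonneg _
  have c1 : (1 + ε / 2) ≤ (ε / 2) * k := by
    have h1 : (1 + ε / 2) / (ε / 2) ≤ k := by linarith
    rw [div_le_iff₀ (by linarith)] at h1
    linarith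
  have hkpos : (0 : ℝ) < k := by
    by_contra hcon
    have hk00 : (k : ℝ) = 0 := le_antisymm (not_lt.1 hcon) hk0
    rw [hk00] at c1
    nlinarith
  have c2 : N * Real.log 2 * k ≤ (ε / 2) * 2 ^ k * k := by
    have h1 : N * (k * Real.log 2) ≤ (1 + ε / 2) * 2 ^ k := le_trans s1 b1
    have h2 : (1 + ε / 2) * 2 ^ k ≤ (ε / 2) * k * 2 ^ k :=
      mul_le_mul_of_nonneg_right c1 hX0.le
    nlinarith
  have c3 : N * Real.log 2 ≤ (ε / 2) * 2 ^ k := le_of_mul_le_mul_right c2 hkpos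
  rw [abs_le]
  constructor
  · nlinarith
  · nlinarith

/-- The number of primes in the dyadic block tends to infinity. -/
theorem card_PB_large (C : ℝ) : ∃ k0 : ℕ, ∀ k : ℕ, k0 ≤ k → C ≤ ((PB k).card : ℝ) := by
  obtain ⟨k1, hk1⟩ := card_PB (1 / 2) (by norm_num)
  have ht := tendsto_pow_const_div_const_pow_of_one_lt 1 (show (1 : ℝ) < 2 by norm_num)
  have hC : (0 : ℝ) < 1 / (2 * (|C| + 1)) := by positivity
  obtain ⟨k2, hk2⟩ := Metric.tendsto_atTop.1 ht _ hC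
  refine ⟨max (max k1 k2) 1, fun k hk => ?_⟩
  have h1 : k1 ≤ k := le_trans (le_trans (le_max_left _ _) (le_max_left _ _)) hk
  have h2 : k2 ≤ k := le_trans (le_trans (le_max_right _ _) (le_max_left _ _)) hk
  have h3 : 1 ≤ k := le_trans (le_max_right _ _) hk
  have hkpos : (0 : ℝ) < k := by exact_mod_cast h3
  have a1 := (abs_le.1 (hk1 k h1)).1
  have a2 := hk2 k h2
  rw [Real.dist_eq, sub_zero, pow_one, abs_of_nonneg (by positivity)] at a2
  have hX0 : (0 : ℝ) < 2 ^ k := by positivity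
  rw [div_lt_div_iff₀ hX0 (by positivity)] at a2
  have hL : Real.log 2 < 1 := by
    have := Real.log_two_lt_d9
    linarith
  have hL0 : 0 < Real.log 2 := Real.log_pos (by norm_num)
  have hCabs : C ≤ |C| := le_abs_self C
  have hN0 : (0 : ℝ) ≤ ((PB k).card : ℝ) := Nat.cast_nonneg _
  have b1 : (|C| + 1) * k ≤ ((PB k).card : ℝ) * k := by
    have e1 : ((PB k).card : ℝ) * (k * Real.log 2) ≤ ((PB k).card : ℝ) * k := by
      apply mul_le_mul_of_nonneg_left _ hN0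
      nlinarith
    nlinarith
  have b2 : |C| + 1 ≤ ((PB k).card : ℝ) := le_of_mul_le_mul_right b1 hkpos
  linarith

/-- No concentration in short intervals. Proof. Let `x ∈ [2^k / 2, 2^(k+2)]` (otherwise the set is empty for `η ≤ 1/4`). The
number of the primes `p ∈ PB k` with `|p - x| ≤ η 2^k` is at most
`(θ(x + η 2^k) - θ(x - η 2^k - 1)) / (k log 2)`, and `|θ(u) - u| ≤ η u` for `u ≥ u0` (`theta_tendsto`), so it is at most
`(2 η 2^k + 1 + 10 η 2^k) / (k log 2)`, while `|PB k| ≥ 2^k / (2 k log 2)` by `card_PB`; take `η = ε / 100` (and `≤ 1/4`). -/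
theorem short_PB (ε : ℝ) (hε : 0 < ε) : ∃ (η : ℝ) (k0 : ℕ), 0 < η ∧ ∀ k : ℕ, k0 ≤ k → ∀ x : ℝ,
    (((PB k).filter (fun p : ℕ => |(p : ℝ) - x| ≤ η * 2 ^ k)).card : ℝ) ≤ ε * (PB k).card := by
  obtain ⟨u0, hu0, hu⟩ := n7_close (ε / 48) (by linarith)
  obtain ⟨k1, hk1⟩ := card_PB (1 / 2) (by norm_num)
  obtain ⟨k2, hk2⟩ := exists_nat_gt (4 * u0)
  obtain ⟨k3, hk3⟩ := exists_nat_gt (8 / ε)
  refine ⟨min (ε / 32) (1 / 4), max (max k1 k2) (max k3 4), lt_min (by linarith) (by norm_num),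
    fun k hk x => ?_⟩
  set η : ℝ := min (ε / 32) (1 / 4) with hη
  have hη0 : 0 < η := lt_min (by linarith) (by norm_num)
  have hη1 : η ≤ ε / 32 := min_le_left _ _
  have hη2 : η ≤ 1 / 4 := min_le_right _ _
  have h1 : k1 ≤ k := le_trans (le_trans (le_max_left _ _) (le_max_left _ _)) hk
  have h2 : k2 ≤ k := le_trans (le_trans (le_max_right _ _) (le_max_left _ _)) hk
  have h3 : k3 ≤ k := le_trans (le_trans (le_max_left _ _) (le_max_right _ _)) hk
  have h4 : 4 ≤ k := le_trans (le_trans (le_max_right _ _) (le_max_right _ _)) hk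
  have hpow : (k : ℝ) < 2 ^ k := by exact_mod_cast Nat.lt_two_pow_self
  have h2' : (k2 : ℝ) ≤ k := by exact_mod_cast h2
  have h3' : (k3 : ℝ) ≤ k := by exact_mod_cast h3
  have h4' : (4 : ℝ) ≤ k := by exact_mod_cast h4
  have hL0 : 0 < Real.log 2 := Real.log_pos (by norm_num)
  set X : ℝ := 2 ^ k with hX
  have hX0 : 0 < X := by positivity
  have a1 := (abs_le.1 (hk1 k h1)).1
  have hXe : 8 / ε < X := by linarith
  have hXe2 : 1 ≤ ε / 8 * X := by
    rw [div_lt_iff₀ hε] at hXe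
    linarith
  set T := (PB k).filter (fun p : ℕ => |(p : ℝ) - x| ≤ η * X) with hT
  rcases T.eq_empty_or_nonempty with hemp | ⟨p0, hp0⟩
  · rw [hemp]
    simp only [Finset.card_empty, Nat.cast_zero]
    positivity
  have hp0' := Finset.mem_filter.1 hp0
  have hp0a : X < (p0 : ℝ) := by
    have := (mem_PB.1 hp0'.1).1.1
    rw [hX]
    exact_mod_cast this
  have hp0b : (p0 : ℝ) ≤ 2 * X := by
    have h5 := (mem_PB.1 hp0'.1).1.2
    have h6 : (p0 : ℝ) ≤ (2 : ℝ) ^ (k + 1) := by exact_mod_cast h5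
    rw [pow_succ] at h6
    linarith
  set a : ℝ := p0 - 2 * η * X - 1 with ha
  set b : ℝ := p0 + 2 * η * X with hb
  have hηX : η * X ≤ X / 4 := by nlinarith
  have hηX0 : 0 < η * X := by positivity
  have hX16 : 4 < X := by linarith
  have haX : X / 4 ≤ a := by
    rw [ha]; nlinarith
  have hbX : b ≤ 3 * X := by
    rw [hb]; nlinarith
  have hab : a ≤ b := by
    rw [ha, hb]; nlinarith
  have hua : u0 ≤ a := by linarith
  have hub : u0 ≤ b := by linarith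
  have t1 := abs_le.1 (hu a hua)
  have t2 := abs_le.1 (hu b hub)
  have hfl : ⌊a⌋₊ ≤ ⌊b⌋₊ := Nat.floor_mono hab
  have hth := n7_theta_sub a b hfl
  have hsub : T ⊆ (Ioc ⌊a⌋₊ ⌊b⌋₊).filter Nat.Prime := by
    intro p hp
    have hp' := Finset.mem_filter.1 hp
    have q1 := abs_le.1 hp'.2
    have q2 := abs_le.1 hp0'.2
    rw [Finset.mem_filter, Finset.mem_Ioc]
    refine ⟨⟨?_, ?_⟩, (mem_PB.1 hp'.1).2⟩
    · rw [Nat.floor_lt (by linarith)]
      rw [ha]; linarith [q1.1, q2.2]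
    · apply Nat.le_floor
      rw [hb]; linarith [q1.2, q2.1]
  have hsum : ∑ p ∈ T, Real.log (p : ℝ) ≤ Chebyshev.theta b - Chebyshev.theta a := by
    rw [hth]
    apply Finset.sum_le_sum_of_subset_of_nonneg hsub
    intro p hp _
    have := (Finset.mem_filter.1 hp).2.one_lt
    apply Real.log_nonneg
    exact_mod_cast this.le
  have hcard : (T.card : ℝ) * (k * Real.log 2) ≤ ∑ p ∈ T, Real.log (p : ℝ) := by
    have := Finset.card_nsmul_le_sum T (fun p : ℕ => Real.log (p : ℝ)) (k * Real.log 2)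
      (fun p hp => n7_log_lower (Finset.mem_filter.1 hp).1)
    rwa [nsmul_eq_mul] at this
  have hfin : Chebyshev.theta b - Chebyshev.theta a ≤ ε / 2 * X := by
    have e1 : b - a = 4 * (η * X) + 1 := by rw [ha, hb]; ring
    have e2 : η * X ≤ ε / 32 * X := mul_le_mul_of_nonneg_right hη1 hX0.le
    have e3 : ε / 48 * (a + b) ≤ ε / 48 * (6 * X) :=
      mul_le_mul_of_nonneg_left (by linarith) (by linarith)
    nlinarith [t1.1, t2.2]
  have hkL : 0 < (k : ℝ) * Real.log 2 := by positivity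
  have hmain : (T.card : ℝ) * (k * Real.log 2) ≤ ε * (PB k).card * (k * Real.log 2) := by
    have e1 : ε / 2 * X ≤ ε * ((PB k).card * (k * Real.log 2)) := by
      have : X / 2 ≤ (PB k).card * (k * Real.log 2) := by linarith
      nlinarith
    calc (T.card : ℝ) * (k * Real.log 2) ≤ ε / 2 * X := by linarith
      _ ≤ ε * ((PB k).card * (k * Real.log 2)) := e1
      _ = ε * (PB k).card * (k * Real.log 2) := by ring
  exact le_of_mul_le_mul_right hmain hkL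

end Pool.Agent.Lib.H82OH
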