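import Pool.Agent.Lib.H82OH.TD
import Pool.Agent.Lib.H82OG.MA2
import Pool.Agent.Lib.H82OG.MA3
import Pool.Agent.Lib.H22M.TE

/-!
# Project H82OH, chunk PA: a bad pair of primes
-/

open MeasureTheory Filter Topology Finset
open scoped ComplexConjugate Matrix

namespace Pool.Agent.Lib.H82OH

open Pool.Agent.Lib.H22M Pool.Agent.Lib.H82T Pool.Agent.Lib.H82OT Pool.Agent.Lib.H82OF

variable {W : Type*} [CommGroup W] [TopologicalSpace W] [IsTopologicalGroup W] [CompactSpace W]
  [T2Space W] [SecondCountableTopology W] [MeasurableSpace W] [BorelSpace W]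

private theorem PA_rot {Y : Type*} [MeasurableSpace Y] {m : Measure Y} {R : Y → Y}
    (hR : MeasurePreserving R m m) {c : W} {P : Y → W}
    (h : ∀ᵐ y ∂m, P (R y) = c * P y) (n : ℕ) : ∀ᵐ y ∂m, P (R^[n] y) = c ^ n * P y := by
  induction n with
  | zero => exact Eventually.of_forall fun y => by simp
  | succ n ih =>
    have h2 := (hR.iterate n).quasiMeasurePreserving.ae h
    filter_upwards [ih, h2] with y h3 h4
    rw [Function.iterate_succ_apply', h4, h3, pow_succ', mul_assoc]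

private theorem PA_bun {Y : Type*} [MeasurableSpace Y] {m : Measure Y} {R : Y → Y}
    (hR : MeasurePreserving R m m) {c : W} {P : Y → W}
    (hrot : ∀ᵐ y ∂m, P (R y) = c * P y) {d : ℕ} {Φ : W → Matrix (Fin d) (Fin d) ℂ}
    {E : Y → Fin d → ℂ} (hE : Bun m R P Φ E) (n : ℕ) :
    ∀ᵐ y ∂m, E (R^[n] y) = cc c Φ n (P y) *ᵥ E y := by
  induction n with
  | zero =>
    refine Eventually.of_forall fun y => ?_
    show E y = (1 : Matrix (Fin d) (Fin d) ℂ) *ᵥ E y
    rw [Matrix.one_mulVec]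
  | succ n ih =>
    have h1 := (hR.iterate n).quasiMeasurePreserving.ae hE.eq
    filter_upwards [ih, h1, PA_rot hR hrot n] with y h2 h3 h4
    rw [Function.iterate_succ_apply', h3, h4, h2]
    show Φ (c ^ n * P y) *ᵥ (cc c Φ n (P y) *ᵥ E y) =
      (Φ (c ^ n * P y) * cc c Φ n (P y)) *ᵥ E y
    rw [Matrix.mulVec_mulVec]

/-- Conditional expectation along a map with values in `W`. -/
private theorem PA_cexp {Ω : Type*} [MeasurableSpace Ω] (ρ : Measure Ω) [IsProbabilityMeasure ρ]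
    (lam : Measure W) [IsProbabilityMeasure lam] {p : Ω → W}
    (hp : MeasurePreserving p ρ lam) (f : Ω → ℂ) (hfm : Measurable f) (C : ℝ)
    (hC : ∀ ω, ‖f ω‖ ≤ C) :
    ∃ G : W → ℂ, Measurable G ∧ (∀ w, ‖G w‖ ≤ C) ∧ ∀ h : W → ℂ, BM h →
      ∫ ω, f ω * h (p ω) ∂ρ = ∫ w, G w * h w ∂lam := by
  have hf : BM f := ⟨hfm, C, hC⟩
  have hm := hp.measurable.comap_le
  have hgm : Measurable[MeasurableSpace.comap p inferInstance]
      (ρ[f | MeasurableSpace.comap p inferInstance]) := stronglyMeasurable_condExp.measurable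
  obtain ⟨G₀, hG₀, hgG⟩ := hgm.exists_eq_measurable_comp
  have hbd : ∀ᵐ ω ∂ρ, ‖(ρ[f | MeasurableSpace.comap p inferInstance]) ω‖ ≤ C :=
    ae_bdd_norm_condExp_of_ae_bdd_norm (Eventually.of_forall hC)
  classical
  have hC0 : 0 ≤ C := by
    obtain ⟨ω⟩ := ρ.nonempty_of_neZero
    exact (norm_nonneg _).trans (hC ω)
  have hGm : Measurable (fun w => if ‖G₀ w‖ ≤ C then G₀ w else 0) :=
    Measurable.ite (measurableSet_le hG₀.norm measurable_const) hG₀ measurable_const
  have hGC : ∀ w, ‖(fun w => if ‖G₀ w‖ ≤ C then G₀ w else 0) w‖ ≤ C := by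
    intro w
    dsimp only
    split_ifs with h
    · exact h
    · rw [norm_zero]
      exact hC0
  have hG : BM (fun w => if ‖G₀ w‖ ≤ C then G₀ w else 0) := ⟨hGm, C, hGC⟩
  refine ⟨fun w => if ‖G₀ w‖ ≤ C then G₀ w else 0, hGm, hGC, fun h hh => ?_⟩
  have hfh : BM (fun ω => f ω * h (p ω)) := hf.mul (hh.comp hp.measurable)
  have hhm : StronglyMeasurable[MeasurableSpace.comap p inferInstance] (fun ω => h (p ω)) :=
    (hh.1.comp (comap_measurable p)).stronglyMeasurable
  have e1 : ∫ ω, f ω * h (p ω) ∂ρ =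
      ∫ ω, (ρ[fun ω => f ω * h (p ω) | MeasurableSpace.comap p inferInstance]) ω ∂ρ :=
    (integral_condExp hm).symm
  have e2 : ρ[fun ω => f ω * h (p ω) | MeasurableSpace.comap p inferInstance] =ᵐ[ρ]
      fun ω => (ρ[f | MeasurableSpace.comap p inferInstance]) ω * h (p ω) :=
    condExp_bilin_of_stronglyMeasurable_right (ContinuousLinearMap.mul ℝ ℂ) hhm
      hfh.integrable hf.integrable
  have e3 : (fun ω => (ρ[f | MeasurableSpace.comap p inferInstance]) ω * h (p ω)) =ᵐ[ρ]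
      fun ω => (fun w => (if ‖G₀ w‖ ≤ C then G₀ w else 0) * h w) (p ω) := by
    filter_upwards [hbd] with ω hω
    have h1 : (ρ[f | MeasurableSpace.comap p inferInstance]) ω = G₀ (p ω) := congrFun hgG ω
    rw [h1] at hω ⊢
    show G₀ (p ω) * h (p ω) = (if ‖G₀ (p ω)‖ ≤ C then G₀ (p ω) else 0) * h (p ω)
    rw [if_pos hω]
  rw [e1, integral_congr_ae e2, integral_congr_ae e3]
  have e4 := integral_map (μ := ρ) hp.measurable.aemeasurable
    (f := fun w => (if ‖G₀ w‖ ≤ C then G₀ w else 0) * h w)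
    (hG.mul hh).1.aestronglyMeasurable
  rw [hp.map_eq] at e4
  exact e4.symm

/-- Two bounded measurable functions with the same integrals against all bounded measurable functions
agree almost everywhere. -/
private theorem PA_ae_eq (lam : Measure W) [IsProbabilityMeasure lam] {L R : W → ℂ} (hL : BM L)
    (hR : BM R) (h : ∀ h : W → ℂ, BM h → ∫ w, L w * h w ∂lam = ∫ w, R w * h w ∂lam) :
    L =ᵐ[lam] R := by
  have hd : BM fun w => L w - R w := hL.sub hR
  have h1 : ∫ w, (L w - R w) * conj (L w - R w) ∂lam = 0 := by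
    have h2 := h (fun w => conj (L w - R w)) hd.conj
    have h3 : ∀ w, (L w - R w) * conj (L w - R w) =
        L w * conj (L w - R w) - R w * conj (L w - R w) := fun w => sub_mul _ _ _
    simp_rw [h3]
    rw [integral_sub (hL.mul hd.conj).integrable (hR.mul hd.conj).integrable, h2, sub_self]
  have h4 : ∫ w, ‖L w - R w‖ ^ 2 ∂lam = 0 := by
    have h5 : ((∫ w, ‖L w - R w‖ ^ 2 ∂lam : ℝ) : ℂ) = 0 := by
      rw [← h1, ← integral_complex_ofReal]
      refine integral_congr_ae (Eventually.of_forall fun w => ?_)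
      show ((‖L w - R w‖ ^ 2 : ℝ) : ℂ) = (L w - R w) * conj (L w - R w)
      rw [Complex.mul_conj, Complex.normSq_eq_norm_sq]
    exact_mod_cast h5
  have hint : Integrable (fun w => ‖L w - R w‖ ^ 2) lam := by
    obtain ⟨h1, C, hC⟩ := hd
    refine Integrable.of_bound (h1.norm.pow_const 2).aestronglyMeasurable (C ^ 2)
      (Eventually.of_forall fun w => ?_)
    rw [Real.norm_of_nonneg (by positivity)]
    exact pow_le_pow_left₀ (norm_nonneg _) (hC w) 2
  have h6 := (integral_eq_zero_iff_of_nonneg (fun w => by positivity) hint).1 h4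
  filter_upwards [h6] with w hw
  have h7 : ‖L w - R w‖ ^ 2 = 0 := hw
  have h8 : ‖L w - R w‖ = 0 := by
    rcases pow_eq_zero_iff (two_ne_zero) |>.1 h7 with h
    exact h
  exact sub_eq_zero.1 (norm_eq_zero.1 h8)

/-- A good ergodic component of a joining. -/
private theorem PA_comp {Y : Type*} [MeasurableSpace Y] [StandardBorelSpace Y] {m : Measure Y}
    [IsProbabilityMeasure m] (R : Y ≃ᵐ Y) (r s : ℕ) (hr : Ergodic (R^[r]) m)
    (hs : Ergodic (R^[s]) m) (ρ : Measure (Y × Y)) (hJ : IsJoin m R r s ρ) (F : Y × Y → ℂ)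
    (hF : BM F) (ε : ℝ) (hε : ε < ‖∫ z, F z ∂ρ‖) :
    ∃ ρ' : Measure (Y × Y), IsProbabilityMeasure ρ' ∧ ρ'.map Prod.fst = m ∧
      ρ'.map Prod.snd = m ∧ Ergodic (Prod.map (R^[r]) (R^[s])) ρ' ∧ ε < ‖∫ z, F z ∂ρ'‖ := by
  have hpr := hJ.prob
  let S : (Y × Y) ≃ᵐ (Y × Y) :=
    { toFun := Prod.map (R^[r]) (R^[s])
      invFun := Prod.map (R.symm^[r]) (R.symm^[s])
      left_inv := fun x => by
        have h : Function.LeftInverse R.symm R := R.symm_apply_apply
        exact Prod.ext (h.iterate r x.1) (h.iterate s x.2)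
      right_inv := fun x => by
        have h : Function.LeftInverse R R.symm := R.apply_symm_apply
        exact Prod.ext (h.iterate r x.1) (h.iterate s x.2)
      measurable_toFun := (R.measurable.iterate r).prodMap (R.measurable.iterate s)
      measurable_invFun := (R.symm.measurable.iterate r).prodMap (R.symm.measurable.iterate s) }
  have hSc : (S : Y × Y → Y × Y) = Prod.map (R^[r]) (R^[s]) := rfl
  have hS : MeasurePreserving S ρ ρ := hJ.inv
  have hI := MeasurableSpace.invariants_le (S : Y × Y → Y × Y)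
  let κ := ProbabilityTheory.condExpKernel ρ (MeasurableSpace.invariants S)
  have hint : ∀ A, MeasurableSet A → ∫⁻ ω, κ ω A ∂ρ = ρ A := by
    intro A hA
    have h1 : ρ A = ∫⁻ ω, κ ω A ∂(ρ.trim hI) := by
      conv_lhs => rw [← ProbabilityTheory.condExpKernel_comp_trim (μ := ρ) hI]
      exact Measure.bind_apply hA κ.aemeasurable
    rw [h1, lintegral_trim hI (κ.measurable_coe hA)]
  have marg : ∀ (q : Y × Y → Y) (n : ℕ), Measurable q → Ergodic (R^[n]) m →
      (∀ x, q (S x) = R^[n] (q x)) → ρ.map q = m → ∀ᵐ ω ∂ρ, (κ ω).map q = m := by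
    intro q n hq hn hqS hqm
    let κ₁ : ProbabilityTheory.Kernel (Y × Y) Y := (κ.comap id (measurable_id'' hI)).map q
    have hκ₁ : ∀ ω, κ₁ ω = (κ ω).map q := by
      intro ω
      rw [ProbabilityTheory.Kernel.map_apply _ hq]
      rfl
    have hmk : ProbabilityTheory.IsMarkovKernel κ₁ := ProbabilityTheory.Kernel.IsMarkovKernel.map _ hq
    have hM : Measure.bind ρ κ₁ = m := by
      refine Measure.ext fun B hB => ?_
      rw [Measure.bind_apply hB κ₁.aemeasurable]
      have h1 : ∀ ω, κ₁ ω B = κ ω (q ⁻¹' B) := fun ω => by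
        rw [hκ₁, Measure.map_apply hq hB]
      simp_rw [h1]
      rw [hint _ (hq hB), ← Measure.map_apply hq hB, hqm]
    have hκT : ∀ᵐ ω ∂ρ, MeasurePreserving (R^[n]) (κ₁ ω) (κ₁ ω) := by
      filter_upwards [Pool.Agent.Lib.H82OG.component_invariant ρ S hS] with ω hω
      rw [hκ₁]
      refine ⟨R.measurable.iterate n, ?_⟩
      rw [Measure.map_map (R.measurable.iterate n) hq]
      have h3 : R^[n] ∘ q = q ∘ S := funext fun x => (hqS x).symm
      rw [h3, ← Measure.map_map hq S.measurable, hω.map_eq]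
    filter_upwards [Pool.Agent.Lib.H82OG.ae_eq_of_ergodic ρ m _ hn κ₁ hκT hM] with ω hω
    rw [← hκ₁, hω]
  have m1 := marg Prod.fst r measurable_fst hr (fun x => rfl) hJ.fst
  have m2 := marg Prod.snd s measurable_snd hs (fun x => rfl) hJ.snd
  have hint2 : ∫ z, F z ∂ρ = ∫ ω, (∫ z, F z ∂(κ ω)) ∂ρ := by
    rw [← integral_condExp hI (f := F)]
    exact integral_congr_ae (ProbabilityTheory.condExp_ae_eq_integral_condExpKernel hI hF.integrable)
  by_contra hno
  have hle : ∀ᵐ ω ∂ρ, ‖∫ z, F z ∂(κ ω)‖ ≤ ε := by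
    filter_upwards [m1, m2, Pool.Agent.Lib.H82OG.component_ergodic ρ S hS] with ω a1 a2 a3
    by_contra hlt
    exact hno ⟨κ ω, inferInstance, a1, a2, a3, not_le.1 hlt⟩
  have h5 := norm_integral_le_of_norm_le_const hle
  rw [← hint2, probReal_univ, mul_one] at h5
  exact absurd hε (not_lt.2 h5)

/-- The bad pair for an ergodic joining. -/
private theorem PA_core {Y : Type*} [MeasurableSpace Y] {m : Measure Y}
    [IsProbabilityMeasure m] (R : Y → Y) (lam : Measure W) [lam.IsHaarMeasure]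
    [IsProbabilityMeasure lam] {c : W} {P : Y → W} (hK : KS m R lam c P) {d d' : ℕ}
    {Φ : W → Matrix (Fin d) (Fin d) ℂ} {Φ' : W → Matrix (Fin d') (Fin d') ℂ}
    {E : Y → Fin d → ℂ} {E' : Y → Fin d' → ℂ} (hE : Bun m R P Φ E) (hE' : Bun m R P Φ' E')
    (C C' : ℝ) (hC : ∀ y k, ‖E y k‖ ≤ C) (hC' : ∀ y k, ‖E' y k‖ ≤ C') (r s : ℕ)
    (hrs : r.Coprime s) (i : Fin d) (j : Fin d') (ε : ℝ)
    (ρ : Measure (Y × Y)) [IsProbabilityMeasure ρ] (h1 : ρ.map Prod.fst = m)
    (h2 : ρ.map Prod.snd = m) (herg : Ergodic (Prod.map (R^[r]) (R^[s])) ρ)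
    (hε : ε < ‖∫ z, E z.1 i * conj (E' z.2 j) ∂ρ‖) :
    ∃ (t t' : W) (D : W → Matrix (Fin d) (Fin d') ℂ), DEq lam c Φ Φ' r s t t' D ∧
      (∀ k l ω, ‖D ω k l‖ ≤ C * C') ∧ ε < ‖∫ ω, D ω i j ∂lam‖ := by
  have hRp := hK.erg.toMeasurePreserving
  have hP : Measurable P := hK.pres.measurable
  have mp1 : MeasurePreserving (Prod.fst : Y × Y → Y) ρ m := ⟨measurable_fst, h1⟩
  have mp2 : MeasurePreserving (Prod.snd : Y × Y → Y) ρ m := ⟨measurable_snd, h2⟩
  have hrot1 := mp1.quasiMeasurePreserving.ae (PA_rot hRp hK.rot r)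
  have hrot2 := mp2.quasiMeasurePreserving.ae (PA_rot hRp hK.rot s)
  have hb1 := mp1.quasiMeasurePreserving.ae (PA_bun hRp hK.rot hE r)
  have hb2 := mp2.quasiMeasurePreserving.ae (PA_bun hRp hK.rot hE' s)
  obtain ⟨a, b, hab⟩ := Nat.isCoprime_iff_coprime.2 hrs
  set S : Y × Y → Y × Y := Prod.map (R^[r]) (R^[s]) with hS
  have hSm : MeasurePreserving S ρ ρ := herg.toMeasurePreserving
  let θ : Y × Y → W := fun z => P z.1 ^ a * P z.2 ^ b
  have hP1 : Measurable fun z : Y × Y => P z.1 := hP.comp measurable_fst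
  have hP2 : Measurable fun z : Y × Y => P z.2 := hP.comp measurable_snd
  have hzp : ∀ n : ℤ, Measurable fun w : W => w ^ n := fun n => (continuous_zpow n).measurable
  have hθ : Measurable θ := ((hzp a).comp hP1).mul ((hzp b).comp hP2)
  have hθS : ∀ᵐ z ∂ρ, θ (S z) = c * θ z := by
    filter_upwards [hrot1, hrot2] with z e1 e2
    show P (R^[r] z.1) ^ a * P (R^[s] z.2) ^ b = c * (P z.1 ^ a * P z.2 ^ b)
    rw [e1, e2, mul_zpow, mul_zpow, ← zpow_natCast, ← zpow_natCast, ← zpow_mul, ← zpow_mul]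
    have e3 : c ^ ((r : ℤ) * a) * c ^ ((s : ℤ) * b) = c := by
      rw [← zpow_add]
      have e4 : (r : ℤ) * a + (s : ℤ) * b = 1 := by
        rw [mul_comm (r : ℤ), mul_comm (s : ℤ)]
        exact hab
      rw [e4, zpow_one]
    calc c ^ ((r : ℤ) * a) * P z.1 ^ a * (c ^ ((s : ℤ) * b) * P z.2 ^ b)
        = (c ^ ((r : ℤ) * a) * c ^ ((s : ℤ) * b)) * (P z.1 ^ a * P z.2 ^ b) := by
          rw [mul_mul_mul_comm]
      _ = c * (P z.1 ^ a * P z.2 ^ b) := by rw [e3]
  have hconst : ∀ (u : Y × Y → W), Measurable u → (∀ᵐ z ∂ρ, u (S z) = u z) →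
      ∃ t : W, ∀ᵐ z ∂ρ, u z = t := by
    intro u hu huS
    obtain ⟨t, ht⟩ := herg.quasiErgodic.ae_eq_const_of_ae_eq_comp₀ hu.nullMeasurable
      (show u ∘ S =ᵐ[ρ] u from huS)
    exact ⟨t, ht⟩
  obtain ⟨t, ht⟩ := hconst (fun z => P z.1 * (θ z ^ r)⁻¹)
    (hP1.mul (hθ.pow_const r).inv) (by
      filter_upwards [hrot1, hθS] with z e1 e2
      show P (R^[r] z.1) * (θ (S z) ^ r)⁻¹ = P z.1 * (θ z ^ r)⁻¹
      rw [e1, e2, mul_pow, mul_inv]
      calc c ^ r * P z.1 * ((c ^ r)⁻¹ * (θ z ^ r)⁻¹)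
          = (c ^ r * (c ^ r)⁻¹) * (P z.1 * (θ z ^ r)⁻¹) := by rw [mul_mul_mul_comm]
        _ = P z.1 * (θ z ^ r)⁻¹ := by rw [mul_inv_cancel, one_mul])
  obtain ⟨t', ht'⟩ := hconst (fun z => P z.2 * (θ z ^ s)⁻¹)
    (hP2.mul (hθ.pow_const s).inv) (by
      filter_upwards [hrot2, hθS] with z e1 e2
      show P (R^[s] z.2) * (θ (S z) ^ s)⁻¹ = P z.2 * (θ z ^ s)⁻¹
      rw [e1, e2, mul_pow, mul_inv]
      calc c ^ s * P z.2 * ((c ^ s)⁻¹ * (θ z ^ s)⁻¹)
          = (c ^ s * (c ^ s)⁻¹) * (P z.2 * (θ z ^ s)⁻¹) := by rw [mul_mul_mul_comm]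
        _ = P z.2 * (θ z ^ s)⁻¹ := by rw [mul_inv_cancel, one_mul])
  have hPt : ∀ᵐ z ∂ρ, P z.1 = t * θ z ^ r := by
    filter_upwards [ht] with z hz
    rw [← hz, inv_mul_cancel_right]
  have hPt' : ∀ᵐ z ∂ρ, P z.2 = t' * θ z ^ s := by
    filter_upwards [ht'] with z hz
    rw [← hz, inv_mul_cancel_right]
  have hlaw : MeasurePreserving θ ρ lam := by
    refine ⟨hθ, ?_⟩
    have hpm : IsProbabilityMeasure (ρ.map θ) := Measure.isProbabilityMeasure_map hθ.aemeasurable
    refine measure_ext_char _ _ fun χ => ?_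
    show ∫ w, ch χ w ∂(ρ.map θ) = ∫ w, ch χ w ∂lam
    by_cases hχ : χ = 1
    · subst hχ
      simp_rw [ch_one_left]
      rw [integral_const, integral_const, probReal_univ, probReal_univ]
    · rw [int_ch lam χ hχ, integral_map hθ.aemeasurable (bm_ch χ).1.aestronglyMeasurable]
      have hI : ch χ c * ∫ z, ch χ (θ z) ∂ρ = ∫ z, ch χ (θ z) ∂ρ := by
        have e1 : ∫ z, ch χ (θ (S z)) ∂ρ = ∫ z, ch χ (θ z) ∂ρ := by
          have e2 := integral_map (μ := ρ) hSm.measurable.aemeasurable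
            (f := fun z => ch χ (θ z)) ((bm_ch χ).comp hθ).1.aestronglyMeasurable
          rw [hSm.map_eq] at e2
          exact e2.symm
        rw [← integral_const_mul, ← e1]
        refine integral_congr_ae ?_
        filter_upwards [hθS] with z hz
        rw [hz, ch_mul_right χ c]
      by_contra h0
      have h3 : ch χ c = 1 := mul_right_cancel₀ h0 (by rw [hI, one_mul])
      exact hχ (hK.free χ 1 le_rfl (by rw [h3, one_pow]))
  have hEm : ∀ k, Measurable fun z : Y × Y => E z.1 k := fun k => (hE.bm k).1.comp measurable_fst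
  have hE'm : ∀ k, Measurable fun z : Y × Y => E' z.2 k := fun k =>
    (hE'.bm k).1.comp measurable_snd
  let M : Fin d → Fin d' → Y × Y → ℂ := fun k l z => E z.1 k * conj (E' z.2 l)
  have hMm : ∀ k l, Measurable (M k l) := fun k l =>
    (hEm k).mul (Complex.continuous_conj.measurable.comp (hE'm l))
  have hMC : ∀ k l z, ‖M k l z‖ ≤ C * C' := by
    intro k l z
    show ‖E z.1 k * conj (E' z.2 l)‖ ≤ C * C'
    rw [norm_mul, RCLike.norm_conj]
    exact mul_le_mul (hC _ _) (hC' _ _) (norm_nonneg _) ((norm_nonneg _).trans (hC z.1 k))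
  have hMB : ∀ k l, BM (M k l) := fun k l => ⟨hMm k l, C * C', hMC k l⟩
  choose G hGm hGC hGI using fun k l => PA_cexp ρ lam hlaw (M k l) (hMm k l) (C * C') (hMC k l)
  have hGB : ∀ k l, BM (G k l) := fun k l => ⟨hGm k l, C * C', hGC k l⟩
  have hucA := hE.uc.cc c r
  have hucB := hE'.uc.cc c s
  have hpr : Measurable fun ω : W => t * ω ^ r :=
    (continuous_const.mul (continuous_pow r)).measurable
  have hps : Measurable fun ω : W => t' * ω ^ s :=
    (continuous_const.mul (continuous_pow s)).measurable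
  set A : W → Matrix (Fin d) (Fin d) ℂ := fun ω => cc c Φ r (t * ω ^ r) with hA
  set B : W → Matrix (Fin d') (Fin d') ℂ := fun ω => cc c Φ' s (t' * ω ^ s) with hB
  have hAB : ∀ k l, BM fun ω => A ω k l := fun k l => (hucA.bm k l).comp hpr
  have hBB : ∀ k l, BM fun ω => B ω k l := fun k l => (hucB.bm k l).comp hps
  have hBu : ∀ ω, (B ω)ᴴ * B ω = 1 := fun ω => hucB.left _
  have hmul : Measurable fun ω : W => c * ω := measurable_const_mul c
  have hmul' : Measurable fun ω : W => c⁻¹ * ω := measurable_const_mul c⁻¹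
  -- the equation of `M`
  have hMeq : ∀ᵐ z ∂ρ, ∀ k l, ∑ q, M k q (S z) * B (θ z) q l = ∑ q, A (θ z) k q * M q l z := by
    filter_upwards [hb1, hb2, hPt, hPt'] with z e1 e2 e3 e4
    intro k l
    have f1 : E (R^[r] z.1) k = ∑ q, A (θ z) k q * E z.1 q := by
      rw [e1, e3]
      rfl
    have f2 : E' (R^[s] z.2) = B (θ z) *ᵥ E' z.2 := by
      rw [e2, e4]
    have f3 : ∑ q, conj (E' (R^[s] z.2) q) * B (θ z) q l = conj (E' z.2 l) := by
      have g1 : ∀ q, conj (E' (R^[s] z.2) q) * B (θ z) q l =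
          ∑ p, conj (E' z.2 p) * ((B (θ z))ᴴ p q * B (θ z) q l) := by
        intro q
        rw [f2]
        show conj (∑ p, B (θ z) q p * E' z.2 p) * B (θ z) q l = _
        rw [map_sum, Finset.sum_mul]
        refine Finset.sum_congr rfl fun p _ => ?_
        rw [map_mul, Matrix.conjTranspose_apply]
        show conj (B (θ z) q p) * conj (E' z.2 p) * B (θ z) q l =
          conj (E' z.2 p) * (conj (B (θ z) q p) * B (θ z) q l)
        ring
      simp_rw [g1]
      rw [Finset.sum_comm]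
      have g2 : ∀ p, ∑ q, conj (E' z.2 p) * ((B (θ z))ᴴ p q * B (θ z) q l) =
          conj (E' z.2 p) * (1 : Matrix (Fin d') (Fin d') ℂ) p l := by
        intro p
        rw [← Finset.mul_sum, ← hBu (θ z), Matrix.mul_apply]
      simp_rw [g2]
      simp [Matrix.one_apply]
    show ∑ q, (E (R^[r] z.1) k * conj (E' (R^[s] z.2) q)) * B (θ z) q l =
      ∑ q, A (θ z) k q * (E z.1 q * conj (E' z.2 l))
    have g3 : ∀ q, (E (R^[r] z.1) k * conj (E' (R^[s] z.2) q)) * B (θ z) q l =
        E (R^[r] z.1) k * (conj (E' (R^[s] z.2) q) * B (θ z) q l) := fun q => mul_assoc _ _ _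
    simp_rw [g3]
    rw [← Finset.mul_sum, f3, f1, Finset.sum_mul]
    exact Finset.sum_congr rfl fun q _ => by ring
  refine ⟨t, t', fun ω => Matrix.of fun k l => G k l ω, ⟨fun k l => hGB k l, ?_⟩,
    fun k l ω => hGC k l ω, ?_⟩
  · have key : ∀ k l, (fun ω => ∑ q, G k q (c * ω) * B ω q l) =ᵐ[lam]
        fun ω => ∑ q, A ω k q * G q l ω := by
      intro k l
      refine PA_ae_eq lam (BM.sum _ fun q _ => ((hGB k q).comp hmul).mul (hBB q l))
        (BM.sum _ fun q _ => (hAB k q).mul (hGB q l)) fun h hh => ?_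
      have hL : ∫ ω, (∑ q, G k q (c * ω) * B ω q l) * h ω ∂lam =
          ∫ z, (∑ q, M k q (S z) * B (θ z) q l) * h (θ z) ∂ρ := by
        have a1 : ∀ ω, (∑ q, G k q (c * ω) * B ω q l) * h ω =
            ∑ q, G k q (c * ω) * (B ω q l * h ω) := fun ω => by
          rw [Finset.sum_mul]
          exact Finset.sum_congr rfl fun q _ => mul_assoc _ _ _
        have a2 : ∀ z, (∑ q, M k q (S z) * B (θ z) q l) * h (θ z) =
            ∑ q, M k q (S z) * (B (θ z) q l * h (θ z)) := fun z => by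
          rw [Finset.sum_mul]
          exact Finset.sum_congr rfl fun q _ => mul_assoc _ _ _
        simp_rw [a1, a2]
        rw [integral_finsetSum _ fun q _ =>
            (((hGB k q).comp hmul).mul ((hBB q l).mul hh)).integrable,
          integral_finsetSum _ fun q _ =>
            (((hMB k q).comp hSm.measurable).mul (((hBB q l).mul hh).comp hθ)).integrable]
        refine Finset.sum_congr rfl fun q _ => ?_
        have b1 : ∫ ω, G k q (c * ω) * (B ω q l * h ω) ∂lam =
            ∫ ω, G k q ω * (B (c⁻¹ * ω) q l * h (c⁻¹ * ω)) ∂lam := by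
          have := integral_mul_left_eq_self (μ := lam)
            (fun ω => G k q ω * (B (c⁻¹ * ω) q l * h (c⁻¹ * ω))) c
          rw [← this]
          refine integral_congr_ae (Eventually.of_forall fun ω => ?_)
          simp only [inv_mul_cancel_left]
        have b2 := hGI k q (fun ω => B (c⁻¹ * ω) q l * h (c⁻¹ * ω))
          (((hBB q l).mul hh).comp hmul')
        have b3 : ∫ z, M k q z * (B (c⁻¹ * θ z) q l * h (c⁻¹ * θ z)) ∂ρ =
            ∫ z, M k q (S z) * (B (c⁻¹ * θ (S z)) q l * h (c⁻¹ * θ (S z))) ∂ρ := by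
          have e2 := integral_map (μ := ρ) hSm.measurable.aemeasurable
            (f := fun z => M k q z * (B (c⁻¹ * θ z) q l * h (c⁻¹ * θ z)))
            ((hMB k q).mul ((((hBB q l).mul hh).comp hmul').comp hθ)).1.aestronglyMeasurable
          rw [hSm.map_eq] at e2
          exact e2
        rw [b1, ← b2, b3]
        refine integral_congr_ae ?_
        filter_upwards [hθS] with z hz
        rw [hz, inv_mul_cancel_left]
      have hR' : ∫ ω, (∑ q, A ω k q * G q l ω) * h ω ∂lam =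
          ∫ z, (∑ q, A (θ z) k q * M q l z) * h (θ z) ∂ρ := by
        have a1 : ∀ ω, (∑ q, A ω k q * G q l ω) * h ω =
            ∑ q, G q l ω * (A ω k q * h ω) := fun ω => by
          rw [Finset.sum_mul]
          exact Finset.sum_congr rfl fun q _ => by ring
        have a2 : ∀ z, (∑ q, A (θ z) k q * M q l z) * h (θ z) =
            ∑ q, M q l z * (A (θ z) k q * h (θ z)) := fun z => by
          rw [Finset.sum_mul]
          exact Finset.sum_congr rfl fun q _ => by ring
        simp_rw [a1, a2]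
        rw [integral_finsetSum _ fun q _ => ((hGB q l).mul ((hAB k q).mul hh)).integrable,
          integral_finsetSum _ fun q _ =>
            ((hMB q l).mul (((hAB k q).mul hh).comp hθ)).integrable]
        exact Finset.sum_congr rfl fun q _ =>
          (hGI q l (fun ω => A ω k q * h ω) ((hAB k q).mul hh)).symm
      rw [hL, hR']
      refine integral_congr_ae ?_
      filter_upwards [hMeq] with z hz
      rw [hz k l]
    have key2 : ∀ᵐ ω ∂lam, ∀ k l, ∑ q, G k q (c * ω) * B ω q l = ∑ q, A ω k q * G q l ω := by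
      rw [ae_all_iff]
      intro k
      rw [ae_all_iff]
      exact fun l => key k l
    filter_upwards [key2] with ω hω
    ext k l
    rw [Matrix.mul_apply, Matrix.mul_apply]
    exact hω k l
  · have h5 := hGI i j (fun _ => 1) (BM.const 1)
    simp_rw [mul_one] at h5
    show ε < ‖∫ ω, G i j ω ∂lam‖
    rw [← h5]
    exact hε

/-- A bad pair of primes for two bundles. Proof. Let `ρ` be the joining, `f = E_i`, `g = E'_j`; by `h0`
`ε < ‖∫ f(z.1) conj g(z.2) dρ‖`. `S = R^r × R^s`, a measurable equivalence preserving `ρ`;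
`κ = condExpKernel ρ (MeasurableSpace.invariants S)`. For `ρ`-a.e. `z`: `κ z` is invariant and ergodic
(`component_invariant`, `component_ergodic` in `H82OG/MA1, MA2`), with both marginals `m` (`ae_eq_of_ergodic`, MA3, for
the kernels `κ.map Prod.fst`, `κ.map Prod.snd`, which consist of measures invariant under `R^r`, `R^s`; these are ergodic:
`ergodic_iterate` (`H22M/TE.lean`) with `hK.root`; compare `H82OG/MA4.lean`). Since the average of `∫ f ⊗ conj g dκ z`
is `∫ f ⊗ conj g dρ`, there is such a `z` with `ε < ‖∫ f ⊗ conj g dκ z‖`; `ρ' = κ z`.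
Let `a r + b s = 1` (integers), `θ(y, y') = P(y)^a P(y')^b`. `θ ∘ S = c θ` a.e. The functions `P(y) θ^(-r)`, `P(y') θ^(-s)`
are invariant, hence a.e. constant, `t` and `t'` (`W` is second countable and Hausdorff;
`Ergodic.ae_eq_const_of_ae_eq_comp` or the proof of `mb1` in `H82OG/MB1.lean`): `P(y) = t θ^r`, `P(y') = t' θ^s` a.e.
The law of `θ` is invariant under `c`, so all its nontrivial Fourier coefficients vanish (`ch χ c ≠ 1` by
`Free`), so it is `lam` (`measure_ext_char`, `int_ch`).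
`M(z)_kl = E_k(y) conj E'_l(y')`. As in `exists_cexp` (BE) there is `D`, bounded measurable, with
`∫ M_kl h(θ) dρ' = ∫ D_kl h dlam` for all bounded measurable `h`, `‖D_kl‖ ≤ C C'` (truncate on a null set). By induction
`E(R^r y) = cc c Φ r (P y) *ᵥ E y` a.e., so `M(S z) = cc c Φ r (t θ^r) M(z) (cc c Φ' s (t' θ^s))ᴴ` a.e., and as in `cexp_eq`
(test with `h`) the equation of `D` follows. `∫ D_ij dlam = ∫ M_ij dρ'` (`h = 1`). -/
theorem exists_D {Y : Type*} [MeasurableSpace Y] [StandardBorelSpace Y] {m : Measure Y}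
    [IsProbabilityMeasure m] (R : Y ≃ᵐ Y) (lam : Measure W) [lam.IsHaarMeasure]
    [IsProbabilityMeasure lam] {c : W} {P : Y → W} (hK : KS m R lam c P) {d d' : ℕ}
    {Φ : W → Matrix (Fin d) (Fin d) ℂ} {Φ' : W → Matrix (Fin d') (Fin d') ℂ}
    {E : Y → Fin d → ℂ} {E' : Y → Fin d' → ℂ} (hE : Bun m R P Φ E) (hE' : Bun m R P Φ' E')
    (C C' : ℝ) (hC : ∀ y k, ‖E y k‖ ≤ C) (hC' : ∀ y k, ‖E' y k‖ ≤ C') (r s : ℕ) (hr : 1 ≤ r)
    (hs : 1 ≤ s) (hrs : r.Coprime s) (i : Fin d) (j : Fin d')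
    (h0 : (∫ y, E y i ∂m) * conj (∫ y, E' y j ∂m) = 0) (ε : ℝ)
    (hbad : BadP m R (fun y => E y i) (fun y => E' y j) ε r s) :
    ∃ (t t' : W) (D : W → Matrix (Fin d) (Fin d') ℂ), DEq lam c Φ Φ' r s t t' D ∧
      (∀ k l ω, ‖D ω k l‖ ≤ C * C') ∧ ε < ‖∫ ω, D ω i j ∂lam‖ := by
  obtain ⟨ρ, hJ, hb⟩ := hbad
  rw [h0, sub_zero] at hb
  have hF : BM fun z : Y × Y => E z.1 i * conj (E' z.2 j) :=
    ((hE.bm i).comp measurable_fst).mul ((hE'.bm j).comp measurable_snd).conj
  obtain ⟨ρ', hp, m1, m2, herg, hε⟩ := PA_comp R r s (ergodic_iterate hK.erg hK.root r hr)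
    (ergodic_iterate hK.erg hK.root s hs) ρ hJ _ hF ε hb
  exact PA_core R lam hK hE hE' C C' hC hC' r s hrs i j ε ρ' m1 m2 herg hε

end Pool.Agent.Lib.H82OH
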