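import Pool.Agent.Lib.H82OH.CA
import Pool.Agent.Lib.H82OH.CB
import Pool.Agent.Lib.H82OH.PA
import Pool.Agent.Lib.H82OH.N7

/-!
# Project H82OH, chunk CC: few bad primes if all translations have lifts
-/

open MeasureTheory Filter Topology Finset
open scoped ComplexConjugate Matrix

namespace Pool.Agent.Lib.H82OH

open Pool.Agent.Lib.H22M Pool.Agent.Lib.H82T Pool.Agent.Lib.H82OT Pool.Agent.Lib.H82OF

variable {W : Type*} [CommGroup W] [TopologicalSpace W] [IsTopologicalGroup W] [CompactSpace W]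
  [T2Space W] [SecondCountableTopology W] [MeasurableSpace W] [BorelSpace W]

/-- The entries of a bounded row have a common bound. -/
private theorem few_cl_bound {Ω : Type*} [MeasurableSpace Ω] {d : ℕ} {F : Ω → Fin d → ℂ}
    (h : BMR F) : ∃ C : ℝ, ∀ y k, ‖F y k‖ ≤ C := by
  choose C hC using fun i => (h i).2
  refine ⟨∑ i, |C i|, fun y k => (hC k y).trans ((le_abs_self _).trans ?_)⟩
  exact Finset.single_le_sum (f := fun i => |C i|) (fun i _ => abs_nonneg _) (Finset.mem_univ k)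

/-- Two correlation functions with the same second prime give one for the two first primes. -/
private theorem few_cl_J (lam : Measure W) [lam.IsHaarMeasure] [IsProbabilityMeasure lam] {c : W}
    (hc : Free c) {d d' : ℕ} (hd : 0 < d) (hd' : 0 < d') {Φ : W → Matrix (Fin d) (Fin d) ℂ}
    {Φ' : W → Matrix (Fin d') (Fin d') ℂ} (hΦ : UC Φ) (hΦ' : UC Φ') (hI : Ic lam c Φ)
    (hI' : Ic lam c Φ') {r r₁ s : ℕ} (hr₁ : r₁.Prime) (hs : s.Prime)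
    (hdr₁ : d < r₁) (hds : d' < s) {t t₁ t' t₁' : W} {D D₁ : W → Matrix (Fin d) (Fin d') ℂ}
    (hD : DEq lam c Φ Φ' r s t t' D) (hD₁ : DEq lam c Φ Φ' r₁ s t₁ t₁' D₁)
    (h0 : ¬ ∀ᵐ ω ∂lam, D ω = 0) (h1 : ¬ ∀ᵐ ω ∂lam, D₁ ω = 0) :
    ∃ (t₂ : W) (J : W → Matrix (Fin d) (Fin d) ℂ), DEq lam c Φ Φ r r₁ t t₂ J ∧
      ¬ ∀ᵐ ω ∂lam, J ω = 0 := by
  obtain ⟨ζ, hζ⟩ := hc.divisible s hs.one_lt.le (t' * t₁'⁻¹)
  obtain ⟨a, -, hG, -⟩ := DEq.gram lam hc hd hd' hΦ hΦ' hI hI' hr₁ hs hdr₁ hds hD₁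
  have hqζ := (measurePreserving_mul_left lam ζ).quasiMeasurePreserving
  have hUr := hΦ.cc c r₁
  have hUs := hΦ'.cc c s
  have ha2 : ((a : ℂ) ^ 2) ≠ 0 := by
    intro ha
    apply h1
    filter_upwards [hG] with ω hω
    rw [ha, zero_smul] at hω
    open scoped ComplexOrder in exact Matrix.conjTranspose_mul_self_eq_zero.1 hω
  have e2 : ∀ᵐ ω ∂lam, D₁ (ζ * (c * ω)) * cc c Φ' s (t' * ω ^ s) =
      cc c Φ r₁ (t₁ * ζ ^ r₁ * ω ^ r₁) * D₁ (ζ * ω) := by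
    filter_upwards [hqζ.ae hD₁.2] with ω hω
    have w1 : t₁' * (ζ * ω) ^ s = t' * ω ^ s := by
      rw [mul_pow, hζ, mul_comm t' t₁'⁻¹, mul_assoc, mul_inv_cancel_left]
    have w2 : t₁ * (ζ * ω) ^ r₁ = t₁ * ζ ^ r₁ * ω ^ r₁ := by
      rw [mul_pow, mul_assoc]
    rw [w1, w2] at hω
    rw [mul_left_comm ζ c ω]
    exact hω
  have e3 : ∀ᵐ ω ∂lam, (D₁ (ζ * (c * ω)))ᴴ * cc c Φ r₁ (t₁ * ζ ^ r₁ * ω ^ r₁) =
      cc c Φ' s (t' * ω ^ s) * (D₁ (ζ * ω))ᴴ := by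
    filter_upwards [e2] with ω h2
    have h3 : D₁ (ζ * (c * ω)) = cc c Φ r₁ (t₁ * ζ ^ r₁ * ω ^ r₁) * D₁ (ζ * ω) *
        (cc c Φ' s (t' * ω ^ s))ᴴ := by
      rw [← h2, Matrix.mul_assoc, hUs.right, Matrix.mul_one]
    rw [h3, Matrix.conjTranspose_mul, Matrix.conjTranspose_mul, Matrix.conjTranspose_conjTranspose,
      Matrix.mul_assoc, Matrix.mul_assoc, hUr.left, Matrix.mul_one]
  refine ⟨t₁ * ζ ^ r₁, fun ω => D ω * (D₁ (ζ * ω))ᴴ,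
    ⟨hD.1.mul (hD₁.1.comp (measurable_const_mul ζ)).conj, ?_⟩, fun hJ => h0 ?_⟩
  · filter_upwards [hD.2, e3] with ω h2 h3
    show D (c * ω) * (D₁ (ζ * (c * ω)))ᴴ * cc c Φ r₁ (t₁ * ζ ^ r₁ * ω ^ r₁) =
      cc c Φ r (t * ω ^ r) * (D ω * (D₁ (ζ * ω))ᴴ)
    rw [Matrix.mul_assoc, h3, ← Matrix.mul_assoc, h2, Matrix.mul_assoc]
  · filter_upwards [hJ, hqζ.ae hG] with ω h2 h3
    have h4 : D ω * (D₁ (ζ * ω))ᴴ * D₁ (ζ * ω) = ((a : ℂ) ^ 2) • D ω := by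
      rw [Matrix.mul_assoc, h3, Matrix.mul_smul, Matrix.mul_one]
    have h5 : D ω * (D₁ (ζ * ω))ᴴ = 0 := h2
    rw [h5, Matrix.zero_mul] at h4
    rcases smul_eq_zero.1 h4.symm with h | h
    · exact absurd h ha2
    · exact h

/-- Proof. For `k` large all primes in `PB k` are larger than `d` and `d'`, and `1 ≤ ε |PB k|` (`card_PB_large`, N7). It is enough that for
`s ∈ PB k` at most one `r ∈ PB k`, `r ≠ s`, is bad. Suppose `r ≠ r₁` are both bad. `exists_D` (PA): `D` for `(r, s, t, t')` and `D₁` for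
`(r₁, s, t₁, t₁')`, both not a.e. `0`. Choose `ζ` with `ζ^s = t' t₁'⁻¹` (`Free.divisible`); `D₂(ω) = D₁(ζ ω)` satisfies `DEq` for
`(r₁, s, t₁ ζ^{r₁}, t')` (translation by `ζ`; `t₁' (ζ ω)^s = t' ω^s`). `J = D D₂ᴴ`: from
`D(c ω) Φ'^(s)(w_s) = Φ^(r)(t ω^r) D(ω)` and `D₂(c ω)ᴴ Φ^(r₁)(t₂ ω^{r₁}) = Φ'^(s)(w_s) D₂(ω)ᴴ` (`w_s = t' ω^s`, `t₂ = t₁ ζ^{r₁}`):
`J(c ω) Φ^(r₁)(t₂ ω^{r₁}) = Φ^(r)(t ω^r) J(ω)`, i.e. `DEq lam c Φ Φ r r₁ t t₂ J`. `J Jᴴ = D (D₂ᴴ D₂) Dᴴ = a₂² a² ≠ 0` (`DEq.gram`, PC, twice).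
`cl_group` (CB) contradicts `cl_null` (CA; a probability measure: some `β` has no lift with constant `1`). -/
theorem few_cl {Y : Type*} [MeasurableSpace Y] [StandardBorelSpace Y] {m : Measure Y}
    [IsProbabilityMeasure m] (R : Y ≃ᵐ Y) (lam : Measure W) [lam.IsHaarMeasure]
    [IsProbabilityMeasure lam] {c : W} {P : Y → W} (hK : KS m R lam c P) {d d' : ℕ}
    (hd : 0 < d) (hd' : 0 < d')
    {Φ : W → Matrix (Fin d) (Fin d) ℂ} {Φ' : W → Matrix (Fin d') (Fin d') ℂ}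
    {E : Y → Fin d → ℂ} {E' : Y → Fin d' → ℂ} (hE : Bun m R P Φ E) (hE' : Bun m R P Φ' E')
    (hI : Ic lam c Φ) (hI' : Ic lam c Φ') (i : Fin d) (j : Fin d')
    (h0 : (∫ y, E y i ∂m) * conj (∫ y, E' y j ∂m) = 0)
    (hN : NE lam c Φ) (hLG : LG lam c Φ = Set.univ) :
    Few m R (fun y => E y i) (fun y => E' y j) := by
  intro ε hε
  obtain ⟨C, hC⟩ := few_cl_bound hE.bm
  obtain ⟨C', hC'⟩ := few_cl_bound hE'.bm
  obtain ⟨k1, hk1⟩ := card_PB_large (1 / ε)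
  refine ⟨max k1 (max d d'), fun k hk s hs Q hQ hQb => ?_⟩
  have hk1' := hk1 k (le_trans (le_max_left _ _) hk)
  have hdk : d < 2 ^ k := lt_of_le_of_lt
    (le_trans (le_trans (le_max_left _ _) (le_max_right _ _)) hk) Nat.lt_two_pow_self
  have hdk' : d' < 2 ^ k := lt_of_le_of_lt
    (le_trans (le_trans (le_max_right _ _) (le_max_right _ _)) hk) Nat.lt_two_pow_self
  have h1 : (1 : ℝ) ≤ ε * (PB k).card := by
    have := (div_le_iff₀ hε).1 hk1'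
    rw [mul_comm]
    exact this
  refine le_trans ?_ h1
  have hcard : Q.card ≤ 1 := by
    by_contra hcon
    rw [not_le] at hcon
    obtain ⟨r, hr, r₁, hr₁, hne⟩ := Finset.one_lt_card.1 hcon
    have hsp := mem_PB.1 hs
    have hrp := mem_PB.1 (hQ hr)
    have hr₁p := mem_PB.1 (hQ hr₁)
    have hD0 : ∀ {D : W → Matrix (Fin d) (Fin d') ℂ}, ε < ‖∫ ω, D ω i j ∂lam‖ →
        ¬ ∀ᵐ ω ∂lam, D ω = 0 := by
      intro D h2 h3
      have h4 : ∫ ω, D ω i j ∂lam = 0 := by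
        have h5 : ∀ᵐ ω ∂lam, D ω i j = (0 : ℂ) := by
          filter_upwards [h3] with ω hω
          rw [hω]
          rfl
        rw [integral_congr_ae h5, integral_zero]
      rw [h4, norm_zero] at h2
      exact absurd h2 (not_lt.2 hε.le)
    obtain ⟨t, t', D, hD, -, hDε⟩ := exists_D R lam hK hE hE' C C' hC hC' r s hrp.2.one_lt.le
      hsp.2.one_lt.le ((Nat.coprime_primes hrp.2 hsp.2).2 (hQb r hr).1) i j h0 ε (hQb r hr).2
    obtain ⟨t₁, t₁', D₁, hD₁, -, hDε₁⟩ := exists_D R lam hK hE hE' C C' hC hC' r₁ s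
      hr₁p.2.one_lt.le hsp.2.one_lt.le ((Nat.coprime_primes hr₁p.2 hsp.2).2 (hQb r₁ hr₁).1) i j h0
      ε (hQb r₁ hr₁).2
    obtain ⟨t₂, J, hJ, hJ0⟩ := few_cl_J lam hK.free hd hd' hE.uc hE'.uc hI hI' hr₁p.2 hsp.2
      (hdk.trans hr₁p.1.1) (hdk'.trans hsp.1.1) hD hD₁ (hD0 hDε) (hD0 hDε₁)
    have : (ae lam).NeBot := ae_neBot.2 (IsProbabilityMeasure.ne_zero lam)
    obtain ⟨β, hβ⟩ := (cl_null lam hK.free hd hE.uc hN).exists
    obtain ⟨γ, hγ⟩ := cl_group lam hK.free hd hE.uc hI hLG hrp.2 hr₁p.2 hne (hdk.trans hrp.1.1)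
      (hdk.trans hr₁p.1.1) hJ hJ0 β
    exact hβ γ hγ
  exact_mod_cast hcard

end Pool.Agent.Lib.H82OH
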