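import Mathlib

/-!
# Project H82OH (MP_10e165_an): Moebius disjointness without condition (D), number theoretic definitions
-/

open Finset

namespace Pool.Agent.Lib.H82OH

/-- The primes in `(2^k, 2^(k+1)]`. -/
def PB (k : ℕ) : Finset ℕ := (Ioc (2 ^ k) (2 ^ (k + 1))).filter Nat.Prime

theorem mem_PB {k p : ℕ} : p ∈ PB k ↔ (2 ^ k < p ∧ p ≤ 2 ^ (k + 1)) ∧ p.Prime := by
  simp [PB]

end Pool.Agent.Lib.H82OH
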