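import Pool.Agent.Lib.H82OF.Defs
import Pool.Agent.Lib.H22M.TG
import Pool.Agent.Lib.H82OH.NDefs

/-!
# Project H82OH (MP_10e165_an): definitions of the dynamical part

`W` is a compact metrizable abelian group with Haar probability measure `lam`, `c` an element of `W`.
-/

open MeasureTheory Filter Topology Finset
open scoped ComplexConjugate Matrix

namespace Pool.Agent.Lib.H82OH

open Pool.Agent.Lib.H22M Pool.Agent.Lib.H82T Pool.Agent.Lib.H82OT Pool.Agent.Lib.H82OF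

/-- The value of a character as a complex number. -/
noncomputable def ch {W : Type*} [CommGroup W] [TopologicalSpace W] (χ : PontryaginDual W) (w : W) : ℂ :=
  ((χ w : Circle) : ℂ)

section

variable {W : Type*} [CommGroup W] [TopologicalSpace W]

theorem ch_mul_right (χ : PontryaginDual W) (v w : W) : ch χ (v * w) = ch χ v * ch χ w := by
  unfold ch
  rw [map_mul, Circle.coe_mul]

theorem ch_mul_left (χ χ' : PontryaginDual W) (w : W) : ch (χ * χ') w = ch χ w * ch χ' w := by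
  unfold ch
  rw [← Circle.coe_mul]
  rfl

theorem ch_one_left (w : W) : ch (1 : PontryaginDual W) w = 1 := by
  unfold ch
  have h : (1 : PontryaginDual W) w = 1 := rfl
  rw [h, Circle.coe_one]

theorem ch_one_right (χ : PontryaginDual W) : ch χ (1 : W) = 1 := by
  unfold ch
  rw [map_one, Circle.coe_one]

theorem norm_ch (χ : PontryaginDual W) (w : W) : ‖ch χ w‖ = 1 := Circle.norm_coe _

theorem ch_ne_zero (χ : PontryaginDual W) (w : W) : ch χ w ≠ 0 := by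
  intro h
  have h1 := norm_ch χ w
  rw [h, norm_zero] at h1
  exact zero_ne_one h1

theorem ch_pow_right (χ : PontryaginDual W) (w : W) (n : ℕ) : ch χ (w ^ n) = ch χ w ^ n := by
  unfold ch
  rw [map_pow, Circle.coe_pow]

theorem ch_pow_left (χ : PontryaginDual W) (w : W) (n : ℕ) : ch (χ ^ n) w = ch χ w ^ n := by
  induction n with
  | zero => rw [pow_zero, pow_zero, ch_one_left]
  | succ n ih => rw [pow_succ, pow_succ, ch_mul_left, ih]

theorem ch_mul_conj (χ : PontryaginDual W) (w : W) : ch χ w * conj (ch χ w) = 1 := by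
  rw [Complex.mul_conj, Complex.normSq_eq_norm_sq, norm_ch]
  norm_num

theorem ch_inv_left (χ : PontryaginDual W) (w : W) : ch χ⁻¹ w = conj (ch χ w) := by
  have h1 : ch χ⁻¹ w * ch χ w = 1 := by
    rw [← ch_mul_left, inv_mul_cancel, ch_one_left]
  calc ch χ⁻¹ w = ch χ⁻¹ w * (ch χ w * conj (ch χ w)) := by rw [ch_mul_conj, mul_one]
    _ = conj (ch χ w) := by rw [← mul_assoc, h1, one_mul]

theorem ch_inv_right (χ : PontryaginDual W) (w : W) : ch χ w⁻¹ = conj (ch χ w) := by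
  have h1 : ch χ w⁻¹ * ch χ w = 1 := by
    rw [← ch_mul_right, inv_mul_cancel, ch_one_right]
  calc ch χ w⁻¹ = ch χ w⁻¹ * (ch χ w * conj (ch χ w)) := by rw [ch_mul_conj, mul_one]
    _ = conj (ch χ w) := by rw [← mul_assoc, h1, one_mul]

theorem continuous_ch (χ : PontryaginDual W) : Continuous (ch χ) :=
  continuous_subtype_val.comp (map_continuous χ)

theorem bm_ch [MeasurableSpace W] [BorelSpace W] (χ : PontryaginDual W) : BM (ch χ) :=
  ⟨(continuous_ch χ).measurable, 1, fun w => (norm_ch χ w).le⟩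

/-- No nontrivial character has a root of unity as its value at `c`. -/
def Free (c : W) : Prop := ∀ (θ : PontryaginDual W) (n : ℕ), 1 ≤ n → ch θ c ^ n = 1 → θ = 1

/-- The iterated cocycle over the rotation by `c`:
`cc c Φ n w = Φ (c^(n-1) w) ⋯ Φ (c w) Φ w`. -/
def cc {d : ℕ} (c : W) (Φ : W → Matrix (Fin d) (Fin d) ℂ) : ℕ → W → Matrix (Fin d) (Fin d) ℂ
  | 0, _ => 1
  | n + 1, w => Φ (c ^ n * w) * cc c Φ n w

/-- Bounded measurable functions with values in the unitary matrices. -/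
structure UC [MeasurableSpace W] {d : ℕ} (Φ : W → Matrix (Fin d) (Fin d) ℂ) : Prop where
  bm : BMM Φ
  left : ∀ w, (Φ w)ᴴ * Φ w = 1
  right : ∀ w, Φ w * (Φ w)ᴴ = 1

/-- `X (β w) B(w) = z A(w) X(w)` for almost every `w`. -/
def Tw [MeasurableSpace W] (lam : Measure W) (β : W) {d e : ℕ}
    (A : W → Matrix (Fin d) (Fin d) ℂ) (B : W → Matrix (Fin e) (Fin e) ℂ) (z : ℂ)
    (X : W → Matrix (Fin d) (Fin e) ℂ) : Prop :=
  BMM X ∧ ∀ᵐ w ∂lam, X (β * w) * B w = z • (A w * X w)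

/-- `Φ` is irreducible: the solutions of `X (c w) = Φ(w) X(w) Φ(w)ᴴ` are the constant scalars. -/
def Ic [MeasurableSpace W] (lam : Measure W) (c : W) {d : ℕ}
    (Φ : W → Matrix (Fin d) (Fin d) ℂ) : Prop :=
  ∀ X : W → Matrix (Fin d) (Fin d) ℂ, Tw lam c Φ Φ 1 X → ∃ a : ℂ, ∀ᵐ w ∂lam, X w = a • 1

/-- `Φ` has no eigenvectors: no solutions of `ξ (c w) = z Φ(w) ξ(w)` but `0`. -/
def NE [MeasurableSpace W] (lam : Measure W) (c : W) {d : ℕ}
    (Φ : W → Matrix (Fin d) (Fin d) ℂ) : Prop :=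
  ∀ (ξ : W → Matrix (Fin d) (Fin 1) ℂ) (z : ℂ), ‖z‖ = 1 → Tw lam c Φ (fun _ => 1) z ξ →
    ∀ᵐ w ∂lam, ξ w = 0

/-- `γ` is a unitary lift of the translation by `β` with constant `κ`:
`γ (c w) = κ Φ(β w) γ(w) Φ(w)ᴴ`. -/
structure UL [MeasurableSpace W] (lam : Measure W) (c : W) {d : ℕ}
    (Φ : W → Matrix (Fin d) (Fin d) ℂ) (β : W) (κ : ℂ) (γ : W → Matrix (Fin d) (Fin d) ℂ) :
    Prop where
  bm : BMM γ
  nk : ‖κ‖ = 1
  eq : ∀ᵐ w ∂lam, γ (c * w) * Φ w = κ • (Φ (β * w) * γ w)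
  left : ∀ᵐ w ∂lam, (γ w)ᴴ * γ w = 1
  right : ∀ᵐ w ∂lam, γ w * (γ w)ᴴ = 1

/-- The translations with a unitary lift. -/
def LG [MeasurableSpace W] (lam : Measure W) (c : W) {d : ℕ}
    (Φ : W → Matrix (Fin d) (Fin d) ℂ) : Set W :=
  {β | ∃ (κ : ℂ) (γ : W → Matrix (Fin d) (Fin d) ℂ), UL lam c Φ β κ γ}

/-- The supremum of the `‖∫ γ_ij‖` over all unitary lifts `γ` of `β`. -/
noncomputable def MM [MeasurableSpace W] (lam : Measure W) (c : W) {d : ℕ}
    (Φ : W → Matrix (Fin d) (Fin d) ℂ) (β : W) : ℝ :=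
  sSup {x : ℝ | ∃ (κ : ℂ) (γ : W → Matrix (Fin d) (Fin d) ℂ) (i j : Fin d),
    UL lam c Φ β κ γ ∧ x = ‖∫ w, γ w i j ∂lam‖}

/-- A bundle over `P : Y → W`: `E (R y) = Φ (P y) E(y)`. -/
structure Bun {Y : Type*} [MeasurableSpace Y] [MeasurableSpace W] (m : Measure Y) (R : Y → Y)
    (P : Y → W) {d : ℕ} (Φ : W → Matrix (Fin d) (Fin d) ℂ) (E : Y → Fin d → ℂ) : Prop where
  uc : UC Φ
  bm : BMR E
  eq : ∀ᵐ y ∂m, E (R y) = Φ (P y) *ᵥ E y

end

/-- For every `ε` and large `k`, for every prime `s` in `(2^k, 2^(k+1)]` at most `ε |PB k|` primes `r` of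
this interval are bad for the pair `f, g`. -/
def Few {Y : Type*} [MeasurableSpace Y] (m : Measure Y) (R : Y → Y) (f g : Y → ℂ) : Prop :=
  ∀ ε : ℝ, 0 < ε → ∃ k0 : ℕ, ∀ k : ℕ, k0 ≤ k → ∀ s ∈ PB k, ∀ Q ⊆ PB k,
    (∀ r ∈ Q, r ≠ s ∧ BadP m R f g ε r s) → (Q.card : ℝ) ≤ ε * (PB k).card

/-- `P` is the maximal rotation factor of the ergodic automorphism `R`, and no eigenvalue but `1` is a
root of unity. -/
structure KS {Y W : Type*} [MeasurableSpace Y] [CommGroup W] [TopologicalSpace W]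
    [MeasurableSpace W] (m : Measure Y) (R : Y → Y) (lam : Measure W) (c : W) (P : Y → W) :
    Prop where
  free : Free c
  erg : Ergodic R m
  pres : MeasurePreserving P m lam
  rot : ∀ᵐ y ∂m, P (R y) = c * P y
  kron : ∀ (e : Y → ℂ) (l : ℂ), BM e → (∀ᵐ y ∂m, e (R y) = l * e y) →
    ∃ g : W → ℂ, BM g ∧ ∀ᵐ y ∂m, e y = g (P y)
  root : ∀ l : ℂ, IsEigenvalue m R l → ∀ n : ℕ, 1 ≤ n → l ^ n = 1 → l = 1

end Pool.Agent.Lib.H82OH
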