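import Pool.Agent.Lib.H82OG.WF
import Pool.Agent.Lib.H22M.W2
import Pool.Agent.Lib.H82OF.Defs

/-!
# Project H82OH, chunk FA: lemma of Wiener for isometries without eigenvectors
-/

open MeasureTheory Filter Topology Finset
open scoped ComplexConjugate Matrix

namespace Pool.Agent.Lib.H82OH

open Pool.Agent.Lib.H22M Pool.Agent.Lib.H82T Pool.Agent.Lib.H82OT Pool.Agent.Lib.H82OF

private theorem fa_inner {H : Type*} [NormedAddCommGroup H] [InnerProductSpace ℂ H]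
    (U : H →ₗᵢ[ℂ] H) (x : H) (a k : ℕ) :
    inner ℂ ((⇑U)^[a + k] x) ((⇑U)^[a] x) = inner ℂ ((⇑U)^[k] x) x := by
  induction a with
  | zero => rw [Nat.zero_add]; rfl
  | succ a ih =>
    rw [Nat.succ_add, Function.iterate_succ_apply', Function.iterate_succ_apply', U.inner_map_map, ih]

private theorem fa_row {H : Type*} [NormedAddCommGroup H] [InnerProductSpace ℂ H]
    (U : H →ₗᵢ[ℂ] H) (x : H) (j N n : ℕ) (hn : n < N) :
    ∑ m ∈ range N, ‖(inner ℂ ((⇑U)^[j + n] x) ((⇑U)^[j + m] x) : ℂ)‖ ≤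
      2 * ∑ k ∈ range N, ‖(inner ℂ ((⇑U)^[k] x) x : ℂ)‖ := by
  obtain ⟨L, rfl⟩ : ∃ L, N = (n + 1) + L := ⟨N - (n + 1), by omega⟩
  have hsub : ∀ K : ℕ, K ≤ n + 1 + L → ∑ k ∈ range K, ‖(inner ℂ ((⇑U)^[k] x) x : ℂ)‖ ≤
      ∑ k ∈ range (n + 1 + L), ‖(inner ℂ ((⇑U)^[k] x) x : ℂ)‖ := fun K hK =>
    Finset.sum_le_sum_of_subset_of_nonneg (Finset.range_mono hK) fun _ _ _ => norm_nonneg _
  rw [Finset.sum_range_add]
  have h1 : ∑ m ∈ range (n + 1), ‖(inner ℂ ((⇑U)^[j + n] x) ((⇑U)^[j + m] x) : ℂ)‖ =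
      ∑ k ∈ range (n + 1), ‖(inner ℂ ((⇑U)^[k] x) x : ℂ)‖ := by
    rw [← Finset.sum_range_reflect (fun k => ‖(inner ℂ ((⇑U)^[k] x) x : ℂ)‖)]
    refine Finset.sum_congr rfl fun m hm => ?_
    have hm' : m < n + 1 := Finset.mem_range.1 hm
    have h2 := fa_inner U x (j + m) (n - m)
    have h3 : j + m + (n - m) = j + n := by omega
    have h4 : n + 1 - 1 - m = n - m := by omega
    rw [h3] at h2
    rw [h2, h4]
  have h5 : ∑ i ∈ range L, ‖(inner ℂ ((⇑U)^[j + n] x) ((⇑U)^[j + (n + 1 + i)] x) : ℂ)‖ ≤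
      ∑ k ∈ range (L + 1), ‖(inner ℂ ((⇑U)^[k] x) x : ℂ)‖ := by
    rw [Finset.sum_range_succ']
    have h6 : ∀ i ∈ range L, ‖(inner ℂ ((⇑U)^[j + n] x) ((⇑U)^[j + (n + 1 + i)] x) : ℂ)‖ =
        ‖(inner ℂ ((⇑U)^[i + 1] x) x : ℂ)‖ := by
      intro i _
      have h7 := fa_inner U x (j + n) (i + 1)
      have h8 : j + n + (i + 1) = j + (n + 1 + i) := by omega
      rw [h8] at h7
      rw [← h7, norm_inner_symm]
    rw [Finset.sum_congr rfl h6]
    have h9 : 0 ≤ ‖(inner ℂ ((⇑U)^[0] x) x : ℂ)‖ := norm_nonneg _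
    linarith
  have h10 := hsub (n + 1) (by omega)
  have h11 := hsub (L + 1) (by omega)
  rw [h1]
  linarith

private theorem fa_block {H : Type*} [NormedAddCommGroup H] [InnerProductSpace ℂ H]
    (U : H →ₗᵢ[ℂ] H) (x y : H) (N : ℕ) (δ : ℝ) (hδ : 0 ≤ δ)
    (hN : ∑ n ∈ range N, ‖(inner ℂ ((⇑U)^[n] x) x : ℂ)‖ ^ 2 ≤ δ ^ 2 * N) (j : ℕ) :
    ∑ n ∈ range N, ‖(inner ℂ ((⇑U)^[j + n] x) y : ℂ)‖ ^ 2 ≤ 2 * ‖y‖ ^ 2 * δ * N := by
  set R : ℝ := ∑ k ∈ range N, ‖(inner ℂ ((⇑U)^[k] x) x : ℂ)‖ with hR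
  have hR0 : 0 ≤ R := Finset.sum_nonneg fun _ _ => norm_nonneg _
  have hRN : R ≤ δ * N := by
    have h1 : R ^ 2 ≤ (N : ℝ) * ∑ k ∈ range N, ‖(inner ℂ ((⇑U)^[k] x) x : ℂ)‖ ^ 2 := by
      have := sq_sum_le_card_mul_sum_sq (s := range N)
        (f := fun k => ‖(inner ℂ ((⇑U)^[k] x) x : ℂ)‖)
      rwa [Finset.card_range] at this
    have hN0 : (0 : ℝ) ≤ N := Nat.cast_nonneg N
    have h2 : R ^ 2 ≤ (δ * N) ^ 2 := by
      calc R ^ 2 ≤ (N : ℝ) * (δ ^ 2 * N) := h1.trans (mul_le_mul_of_nonneg_left hN hN0)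
        _ = (δ * N) ^ 2 := by ring
    exact (abs_le_of_sq_le_sq' h2 (by positivity)).2
  obtain ⟨c, hc⟩ : ∃ c : ℕ → ℂ, ∀ n, c n = inner ℂ ((⇑U)^[j + n] x) y := ⟨_, fun _ => rfl⟩
  obtain ⟨S, hS⟩ : ∃ S : ℝ, S = ∑ n ∈ range N, ‖c n‖ ^ 2 := ⟨_, rfl⟩
  have hS0 : 0 ≤ S := by
    rw [hS]; exact Finset.sum_nonneg fun _ _ => by positivity
  obtain ⟨z, hz⟩ : ∃ z : H, z = ∑ n ∈ range N, c n • (⇑U)^[j + n] x := ⟨_, rfl⟩
  have h1 : (inner ℂ z y : ℂ) = (S : ℂ) := by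
    rw [hz, sum_inner, hS]
    push_cast
    refine Finset.sum_congr rfl fun n _ => ?_
    rw [inner_smul_left, ← hc, mul_comm, Complex.mul_conj, Complex.normSq_eq_norm_sq]
    push_cast
    rfl
  have h2 : S ≤ ‖z‖ * ‖y‖ := by
    have h3 := norm_inner_le_norm (𝕜 := ℂ) z y
    rw [h1, Complex.norm_real, Real.norm_of_nonneg hS0] at h3
    exact h3
  have h3 : ‖z‖ ^ 2 ≤ 2 * R * S := by
    have h4 : ‖z‖ ^ 2 = ‖(inner ℂ z z : ℂ)‖ := by
      rw [inner_self_eq_norm_sq_to_K]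
      simp
    rw [h4]
    have h5 : (inner ℂ z z : ℂ) = ∑ n ∈ range N, ∑ m ∈ range N,
        (conj (c n) * c m) * inner ℂ ((⇑U)^[j + n] x) ((⇑U)^[j + m] x) := by
      rw [hz, sum_inner]
      refine Finset.sum_congr rfl fun n _ => ?_
      rw [inner_sum]
      refine Finset.sum_congr rfl fun m _ => ?_
      rw [inner_smul_left, inner_smul_right]
      ring
    obtain ⟨g, hg⟩ : ∃ g : ℕ → ℕ → ℝ, ∀ n m, g n m =
        ‖(inner ℂ ((⇑U)^[j + n] x) ((⇑U)^[j + m] x) : ℂ)‖ := ⟨_, fun _ _ => rfl⟩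
    have hgs : ∀ n m, g n m = g m n := fun n m => by rw [hg, hg, norm_inner_symm]
    have hg0 : ∀ n m, 0 ≤ g n m := fun n m => by rw [hg]; exact norm_nonneg _
    have hrow : ∀ n ∈ range N, ∑ m ∈ range N, g n m ≤ 2 * R := by
      intro n hn
      have := fa_row U x j N n (Finset.mem_range.1 hn)
      simp only [hg]
      exact this
    rw [h5]
    calc ‖∑ n ∈ range N, ∑ m ∈ range N,
          (conj (c n) * c m) * inner ℂ ((⇑U)^[j + n] x) ((⇑U)^[j + m] x)‖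
        ≤ ∑ n ∈ range N, ∑ m ∈ range N, (‖c n‖ ^ 2 / 2 * g n m + ‖c m‖ ^ 2 / 2 * g n m) := by
          refine (norm_sum_le _ _).trans (Finset.sum_le_sum fun n _ => ?_)
          refine (norm_sum_le _ _).trans (Finset.sum_le_sum fun m _ => ?_)
          rw [norm_mul, norm_mul, RCLike.norm_conj, ← hg]
          have h6 : ‖c n‖ * ‖c m‖ ≤ ‖c n‖ ^ 2 / 2 + ‖c m‖ ^ 2 / 2 := by
            nlinarith [sq_nonneg (‖c n‖ - ‖c m‖)]
          have h7 := mul_le_mul_of_nonneg_right h6 (hg0 n m)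
          linarith
      _ = ∑ n ∈ range N, ‖c n‖ ^ 2 * ∑ m ∈ range N, g n m := by
          have h8 : ∑ n ∈ range N, ∑ m ∈ range N, ‖c m‖ ^ 2 / 2 * g n m =
              ∑ n ∈ range N, ∑ m ∈ range N, ‖c n‖ ^ 2 / 2 * g n m := by
            rw [Finset.sum_comm]
            refine Finset.sum_congr rfl fun n _ => Finset.sum_congr rfl fun m _ => ?_
            rw [hgs]
          simp_rw [Finset.sum_add_distrib]
          rw [h8, ← Finset.sum_add_distrib]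
          refine Finset.sum_congr rfl fun n _ => ?_
          rw [← Finset.sum_add_distrib, Finset.mul_sum]
          refine Finset.sum_congr rfl fun m _ => ?_
          ring
      _ ≤ ∑ n ∈ range N, ‖c n‖ ^ 2 * (2 * R) :=
          Finset.sum_le_sum fun n hn => mul_le_mul_of_nonneg_left (hrow n hn) (by positivity)
      _ = 2 * R * S := by rw [← Finset.sum_mul, ← hS]; ring
  have hfin : S ≤ 2 * ‖y‖ ^ 2 * δ * N := by
    have h9 : S ^ 2 ≤ 2 * ‖y‖ ^ 2 * δ * N * S := by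
      calc S ^ 2 ≤ (‖z‖ * ‖y‖) ^ 2 := pow_le_pow_left₀ hS0 h2 2
        _ = ‖z‖ ^ 2 * ‖y‖ ^ 2 := by ring
        _ ≤ (2 * R * S) * ‖y‖ ^ 2 := mul_le_mul_of_nonneg_right h3 (by positivity)
        _ = (2 * S * ‖y‖ ^ 2) * R := by ring
        _ ≤ (2 * S * ‖y‖ ^ 2) * (δ * N) := mul_le_mul_of_nonneg_left hRN (by positivity)
        _ = _ := by ring
    rcases hS0.eq_or_lt with h10 | h10
    · rw [← h10]; positivity
    · have h11 : S * S ≤ 2 * ‖y‖ ^ 2 * δ * N * S := by rw [← sq]; exact h9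
      exact le_of_mul_le_mul_right h11 h10
  rw [hS] at hfin
  simp only [hc] at hfin
  exact hfin

private theorem fa_blocks (f : ℕ → ℝ) (hf : ∀ n, 0 ≤ f n) (N : ℕ) (hN : 1 ≤ N) (B : ℝ)
    (hB : 0 ≤ B) (h : ∀ j, ∑ n ∈ range N, f (j + n) ≤ B * N) (M : ℕ) :
    ∑ m ∈ range M, f m ≤ B * (M + N) := by
  induction M using Nat.strong_induction_on with
  | _ M ih =>
    rcases Nat.lt_or_ge N M with h1 | h1
    · obtain ⟨M', rfl⟩ : ∃ M', M = M' + N := ⟨M - N, by omega⟩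
      rw [Finset.sum_range_add]
      have h2 := ih M' (by omega)
      have h3 := h M'
      push_cast
      linarith
    · have h2 : ∑ m ∈ range M, f m ≤ ∑ m ∈ range N, f m :=
        Finset.sum_le_sum_of_subset_of_nonneg (Finset.range_mono h1) fun m _ _ => hf m
      have h3 := h 0
      simp only [Nat.zero_add] at h3
      have h4 : 0 ≤ B * M := by positivity
      linarith

/-- Proof. By polarization (`4 ⟪U^n x, y⟫` is a combination of the `⟪U^n (x + i^k y), x + i^k y⟫`) it is enough to treat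
`y = x`. The averages `s_N = N⁻¹ ∑_{n<N} ‖⟪U^n x, x⟫‖²` are bounded; `Tendsto` follows if they tend to `0` along every
ultrafilter `𝒰 ≤ atTop` (`tendsto_iff_ultrafilter`). Repeat the construction of `w2L`, `w2F`, `w2B` and of
`exists_average_operator`, `wiener_aux` (`H22M/W2.lean`) with `𝒰` in place of `hyperfilter ℕ` (only `𝒰 ≤ atTop` is used there),
see also `wiener_hyper` (`H82OG/WF.lean`). Alternative: deduce it from `wiener_aux`: for a single `N` with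
`∑_{n < N} ‖⟪U^n x, x⟫‖² ≤ δ N` all large `M` satisfy `s_M ≤ √(2 δ) ‖x‖² + δ`: the isometry `V = U ⊗ conj U` of the
Hilbert-Schmidt operators (or the kernel `K(n, n') = |⟪U^n x, U^n' x⟫|²`, which is positive definite as a pointwise product of
positive definite kernels) satisfies `‖N⁻¹ ∑_{n<N} V^n X‖² = N⁻² ∑_{n,n'} K(n, n') ≤ 2 δ`. -/
theorem wiener_tendsto {H : Type*} [NormedAddCommGroup H] [InnerProductSpace ℂ H]
    [CompleteSpace H] (U : H →ₗᵢ[ℂ] H) (hU : ∀ (z : ℂ) (w : H), U w = z • w → w = 0)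
    (x y : H) :
    Tendsto (fun N : ℕ => (∑ n ∈ range N, ‖inner ℂ ((⇑U)^[n] x) y‖ ^ 2) / N) atTop (𝓝 0) := by
  rw [Metric.tendsto_atTop]
  intro ε hε
  have hy : 0 < ‖y‖ ^ 2 + 1 := by positivity
  set δ : ℝ := ε / (4 * (‖y‖ ^ 2 + 1)) with hδ
  have hδ0 : 0 < δ := by positivity
  have hB : 2 * ‖y‖ ^ 2 * δ ≤ ε / 2 := by
    rw [hδ, mul_div_assoc', div_le_div_iff₀ (by positivity) (by norm_num)]
    nlinarith [sq_nonneg ‖y‖]
  obtain ⟨N, hN1, hN⟩ := wiener_aux U x (fun c w hw => by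
    rw [hU c w hw, inner_zero_left]) (δ ^ 2) (by positivity)
  refine ⟨N + 1, fun M hM => ?_⟩
  have h1 := fa_blocks (fun n => ‖(inner ℂ ((⇑U)^[n] x) y : ℂ)‖ ^ 2) (fun n => by positivity) N hN1
    (2 * ‖y‖ ^ 2 * δ) (by positivity) (fun j => fa_block U x y N δ hδ0.le hN j) M
  have hM0 : (0 : ℝ) < M := by
    have : 0 < M := by omega
    exact_mod_cast this
  have hNM : (N : ℝ) < M := by
    have : N < M := by omega
    exact_mod_cast this
  have h2 : 0 ≤ ∑ n ∈ range M, ‖(inner ℂ ((⇑U)^[n] x) y : ℂ)‖ ^ 2 :=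
    Finset.sum_nonneg fun _ _ => by positivity
  rw [Real.dist_eq, sub_zero, abs_of_nonneg (div_nonneg h2 hM0.le), div_lt_iff₀ hM0]
  have h3 : 2 * ‖y‖ ^ 2 * δ * ((M : ℝ) + N) ≤ ε / 2 * ((M : ℝ) + N) :=
    mul_le_mul_of_nonneg_right hB (by positivity)
  have h4 : ε / 2 * ((M : ℝ) + N) < ε * M := by nlinarith
  exact lt_of_le_of_lt (h1.trans h3) h4

end Pool.Agent.Lib.H82OH
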