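import Pool.Agent.Lib.H82OH.DD

/-!
# Project H82OH, chunk TA: calculus of the twisted equations
-/

open MeasureTheory Filter Topology Finset
open scoped ComplexConjugate Matrix

namespace Pool.Agent.Lib.H82OH

open Pool.Agent.Lib.H22M Pool.Agent.Lib.H82T Pool.Agent.Lib.H82OT Pool.Agent.Lib.H82OF

variable {W : Type*} [CommGroup W] [TopologicalSpace W] [IsTopologicalGroup W] [CompactSpace W]
  [T2Space W] [SecondCountableTopology W] [MeasurableSpace W] [BorelSpace W]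

private theorem ta_shift_ae {lam : Measure W} [lam.IsHaarMeasure] (u : W) {p : W → Prop}
    (h : ∀ᵐ w ∂lam, p w) : ∀ᵐ w ∂lam, p (u * w) :=
  (measurePreserving_mul_left lam u).quasiMeasurePreserving.ae h

private theorem ta_bmm_one {d : ℕ} : BMM (fun _ : W => (1 : Matrix (Fin d) (Fin d) ℂ)) :=
  fun i j => BM.const _

/-- Proof. Induction on `n`; `cc c Φ (n + 1) w = Φ (c^n w) * cc c Φ n w` is defined like this, so use induction on
`m`: `Φ (c^(m + n) w) = Φ (c^m (c^n w))`. -/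
theorem cc_add {d : ℕ} (c : W) (Φ : W → Matrix (Fin d) (Fin d) ℂ) (m n : ℕ) (w : W) :
    cc c Φ (m + n) w = cc c Φ m (c ^ n * w) * cc c Φ n w := by
  induction m with
  | zero => simp [cc]
  | succ m ih =>
    have h1 : m + 1 + n = (m + n) + 1 := by omega
    rw [h1]
    show Φ (c ^ (m + n) * w) * cc c Φ (m + n) w =
      Φ (c ^ m * (c ^ n * w)) * cc c Φ m (c ^ n * w) * cc c Φ n w
    rw [ih, pow_add, mul_assoc (c ^ m), Matrix.mul_assoc]

/-- Proof. Induction; the entries are bounded and measurable (`BM.mul`, `BM.sum`, composition with the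
translation), products of unitary matrices. -/
theorem UC.cc {d : ℕ} {Φ : W → Matrix (Fin d) (Fin d) ℂ} (h : UC Φ) (c : W) (n : ℕ) :
    UC (cc c Φ n) := by
  induction n with
  | zero =>
    refine ⟨ta_bmm_one, fun w => ?_, fun w => ?_⟩
    · show (1 : Matrix (Fin d) (Fin d) ℂ)ᴴ * 1 = 1
      simp
    · show (1 : Matrix (Fin d) (Fin d) ℂ) * 1ᴴ = 1
      simp
  | succ n ih =>
    refine ⟨?_, fun w => ?_, fun w => ?_⟩
    · exact (h.bm.comp (measurable_const_mul (c ^ n))).mul ih.bm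
    · show (Φ (c ^ n * w) * Pool.Agent.Lib.H82OH.cc c Φ n w)ᴴ *
        (Φ (c ^ n * w) * Pool.Agent.Lib.H82OH.cc c Φ n w) = 1
      rw [Matrix.conjTranspose_mul, Matrix.mul_assoc, ← Matrix.mul_assoc (Φ (c ^ n * w))ᴴ,
        h.left, Matrix.one_mul, ih.left]
    · show (Φ (c ^ n * w) * Pool.Agent.Lib.H82OH.cc c Φ n w) *
        (Φ (c ^ n * w) * Pool.Agent.Lib.H82OH.cc c Φ n w)ᴴ = 1
      rw [Matrix.conjTranspose_mul, Matrix.mul_assoc,
        ← Matrix.mul_assoc (Pool.Agent.Lib.H82OH.cc c Φ n w), ih.right, Matrix.one_mul, h.right]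

theorem UC.shift {d : ℕ} {Φ : W → Matrix (Fin d) (Fin d) ℂ} (h : UC Φ) (β : W) :
    UC (fun w => Φ (β * w)) := by
  exact ⟨h.bm.comp (measurable_const_mul β), fun w => h.left _, fun w => h.right _⟩

/-- Proof. Multiplication of both equations; `X(cw) Y(cw) C = X(cw) (z' B Y) = z z' A X Y`. -/
theorem Tw.mul {lam : Measure W} {β : W} {d e f : ℕ} {A : W → Matrix (Fin d) (Fin d) ℂ}
    {B : W → Matrix (Fin e) (Fin e) ℂ} {C : W → Matrix (Fin f) (Fin f) ℂ} {z z' : ℂ}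
    {X : W → Matrix (Fin d) (Fin e) ℂ} {Y : W → Matrix (Fin e) (Fin f) ℂ}
    (hX : Tw lam β A B z X) (hY : Tw lam β B C z' Y) :
    Tw lam β A C (z * z') (fun w => X w * Y w) := by
  refine ⟨hX.1.mul hY.1, ?_⟩
  filter_upwards [hX.2, hY.2] with w h1 h2
  show X (β * w) * Y (β * w) * C w = (z * z') • (A w * (X w * Y w))
  rw [Matrix.mul_assoc, h2, Matrix.mul_smul, ← Matrix.mul_assoc, h1, Matrix.smul_mul, smul_smul,
    mul_comm z' z, Matrix.mul_assoc]

/-- Proof. `X(βw) = z A X Bᴴ`, so `X(βw)ᴴ A = conj z B Xᴴ Aᴴ A = conj z B Xᴴ`. -/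
theorem Tw.adj {lam : Measure W} {β : W} {d e : ℕ} {A : W → Matrix (Fin d) (Fin d) ℂ}
    {B : W → Matrix (Fin e) (Fin e) ℂ} (hA : UC A) (hB : UC B) {z : ℂ}
    {X : W → Matrix (Fin d) (Fin e) ℂ} (hX : Tw lam β A B z X) :
    Tw lam β B A (conj z) (fun w => (X w)ᴴ) := by
  refine ⟨hX.1.conj, ?_⟩
  filter_upwards [hX.2] with w h1
  show (X (β * w))ᴴ * A w = (conj z) • (B w * (X w)ᴴ)
  have h2 : X (β * w) = z • (A w * X w) * (B w)ᴴ := by
    rw [← h1, Matrix.mul_assoc, hB.right, Matrix.mul_one]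
  rw [h2, Matrix.smul_mul, Matrix.conjTranspose_smul, Matrix.conjTranspose_mul,
    Matrix.conjTranspose_mul, Matrix.conjTranspose_conjTranspose, Matrix.smul_mul,
    Matrix.mul_assoc, Matrix.mul_assoc, hA.left, Matrix.mul_one]
  rfl

theorem Tw.char {lam : Measure W} {β : W} {d e : ℕ} {A : W → Matrix (Fin d) (Fin d) ℂ}
    {B : W → Matrix (Fin e) (Fin e) ℂ} {z : ℂ} {X : W → Matrix (Fin d) (Fin e) ℂ}
    (hX : Tw lam β A B z X) (χ : PontryaginDual W) (a : ℂ) :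
    Tw lam β A B (ch χ β * z) (fun w => (a * ch χ w) • X w) := by
  refine ⟨fun i j => ?_, ?_⟩
  · show BM fun w => (a * ch χ w) * X w i j
    exact ((BM.const a).mul (bm_ch χ)).mul (hX.1 i j)
  · filter_upwards [hX.2] with w h1
    show ((a * ch χ (β * w)) • X (β * w)) * B w = (ch χ β * z) • (A w * ((a * ch χ w) • X w))
    rw [Matrix.smul_mul, h1, Matrix.mul_smul, smul_smul, smul_smul, ch_mul_right]
    have h2 : a * (ch χ β * ch χ w) * z = ch χ β * z * (a * ch χ w) := by ring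
    rw [h2]

/-- Proof. The translation by `u` preserves `lam`, so the equation holds a.e. at `u w`. -/
theorem Tw.shift {lam : Measure W} [lam.IsHaarMeasure] {β : W} {d e : ℕ}
    {A : W → Matrix (Fin d) (Fin d) ℂ}
    {B : W → Matrix (Fin e) (Fin e) ℂ} {z : ℂ} {X : W → Matrix (Fin d) (Fin e) ℂ}
    (hX : Tw lam β A B z X) (u : W) :
    Tw lam β (fun w => A (u * w)) (fun w => B (u * w)) z (fun w => X (u * w)) := by
  refine ⟨hX.1.comp (measurable_const_mul u), ?_⟩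
  filter_upwards [ta_shift_ae u hX.2] with w h1
  show X (u * (β * w)) * B (u * w) = z • (A (u * w) * X (u * w))
  have h2 : u * (β * w) = β * (u * w) := by
    rw [← mul_assoc, ← mul_assoc, mul_comm u β]
  rw [h2, h1]

/-- Proof. Induction on `n`: `X(β^(n+1) w) cc B (n+1) w = X(β β^n w) B(β^n w) cc B n w
= z A(β^n w) X(β^n w) cc B n w = z^(n+1) A(β^n w) cc A n w X w`. -/
theorem Tw.iter {lam : Measure W} [lam.IsHaarMeasure] {β : W} {d e : ℕ}
    {A : W → Matrix (Fin d) (Fin d) ℂ}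
    {B : W → Matrix (Fin e) (Fin e) ℂ} {z : ℂ} {X : W → Matrix (Fin d) (Fin e) ℂ}
    (hX : Tw lam β A B z X) (n : ℕ) :
    Tw lam (β ^ n) (cc β A n) (cc β B n) (z ^ n) X := by
  refine ⟨hX.1, ?_⟩
  induction n with
  | zero =>
    refine Eventually.of_forall fun w => ?_
    show X (β ^ 0 * w) * (1 : Matrix (Fin e) (Fin e) ℂ) =
      z ^ 0 • ((1 : Matrix (Fin d) (Fin d) ℂ) * X w)
    simp
  | succ n ih =>
    filter_upwards [ih, ta_shift_ae (β ^ n) hX.2] with w h1 h2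
    show X (β ^ (n + 1) * w) * (B (β ^ n * w) * cc β B n w) =
      z ^ (n + 1) • (A (β ^ n * w) * cc β A n w * X w)
    have h3 : β ^ (n + 1) * w = β * (β ^ n * w) := by
      rw [pow_succ', mul_assoc]
    rw [h3, ← Matrix.mul_assoc, h2, Matrix.smul_mul, Matrix.mul_assoc, h1, Matrix.mul_smul,
      smul_smul, ← pow_succ', Matrix.mul_assoc]

private theorem ta_congr {lam : Measure W} [lam.IsHaarMeasure] {c : W} {d : ℕ}
    {Φ : W → Matrix (Fin d) (Fin d) ℂ} {β : W}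
    {κ : ℂ} {γ γ' : W → Matrix (Fin d) (Fin d) ℂ} (h : UL lam c Φ β κ γ) (hb : BMM γ')
    (he : ∀ᵐ w ∂lam, γ' w = γ w) : UL lam c Φ β κ γ' := by
  refine ⟨hb, h.nk, ?_, ?_, ?_⟩
  · filter_upwards [h.eq, he, ta_shift_ae c he] with w h1 h2 h3
    rw [h2, h3, h1]
  · filter_upwards [h.left, he] with w h1 h2
    rw [h2, h1]
  · filter_upwards [h.right, he] with w h1 h2
    rw [h2, h1]

theorem UL.tw {lam : Measure W} {c : W} {d : ℕ} {Φ : W → Matrix (Fin d) (Fin d) ℂ} {β : W}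
    {κ : ℂ} {γ : W → Matrix (Fin d) (Fin d) ℂ} (h : UL lam c Φ β κ γ) :
    Tw lam c (fun w => Φ (β * w)) Φ κ γ := ⟨h.bm, h.eq⟩

/-- Proof. `γ' w = γ w` where `γ w` is unitary and `1` elsewhere. -/
theorem UL.exists_uc {lam : Measure W} {c : W} {d : ℕ} {Φ : W → Matrix (Fin d) (Fin d) ℂ}
    [lam.IsHaarMeasure] {β : W} {κ : ℂ} {γ : W → Matrix (Fin d) (Fin d) ℂ}
    (h : UL lam c Φ β κ γ) :
    ∃ γ' : W → Matrix (Fin d) (Fin d) ℂ, UC γ' ∧ UL lam c Φ β κ γ' ∧ ∀ᵐ w ∂lam, γ' w = γ w := by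
  classical
  have hm : ∀ i j, Measurable fun w => γ w i j := fun i j => (h.bm i j).1
  have hS : MeasurableSet {w : W | (γ w)ᴴ * γ w = 1 ∧ γ w * (γ w)ᴴ = 1} := by
    have h1 : {w : W | (γ w)ᴴ * γ w = 1 ∧ γ w * (γ w)ᴴ = 1} =
        (⋂ i, ⋂ j, {w : W | ((γ w)ᴴ * γ w) i j = (1 : Matrix (Fin d) (Fin d) ℂ) i j}) ∩
        (⋂ i, ⋂ j, {w : W | (γ w * (γ w)ᴴ) i j = (1 : Matrix (Fin d) (Fin d) ℂ) i j}) := by
      ext w
      simp only [Set.mem_setOf_eq, Set.mem_inter_iff, Set.mem_iInter]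
      constructor
      · rintro ⟨h2, h3⟩
        exact ⟨fun i j => by rw [h2], fun i j => by rw [h3]⟩
      · rintro ⟨h2, h3⟩
        exact ⟨Matrix.ext fun i j => h2 i j, Matrix.ext fun i j => h3 i j⟩
    rw [h1]
    refine MeasurableSet.inter ?_ ?_
    · refine MeasurableSet.iInter fun i => MeasurableSet.iInter fun j => ?_
      exact measurableSet_eq_fun ((h.bm.conj.mul h.bm) i j).1 measurable_const
    · refine MeasurableSet.iInter fun i => MeasurableSet.iInter fun j => ?_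
      exact measurableSet_eq_fun ((h.bm.mul h.bm.conj) i j).1 measurable_const
  obtain ⟨S, hSdef⟩ : ∃ S : Set W, S = {w : W | (γ w)ᴴ * γ w = 1 ∧ γ w * (γ w)ᴴ = 1} := ⟨_, rfl⟩
  rw [← hSdef] at hS
  obtain ⟨γ', hγ'⟩ : ∃ γ' : W → Matrix (Fin d) (Fin d) ℂ,
      γ' = fun w => if w ∈ S then γ w else 1 := ⟨_, rfl⟩
  have hin : ∀ w, w ∈ S → γ' w = γ w := fun w hw => by rw [hγ']; simp [hw]
  have hout : ∀ w, w ∉ S → γ' w = 1 := fun w hw => by rw [hγ']; simp [hw]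
  have hbm : BMM γ' := by
    intro i j
    obtain ⟨h1, C, hC⟩ := h.bm i j
    refine ⟨?_, max C ‖(1 : Matrix (Fin d) (Fin d) ℂ) i j‖, fun w => ?_⟩
    · have h2 : (fun w => γ' w i j) =
          fun w => if w ∈ S then γ w i j else (1 : Matrix (Fin d) (Fin d) ℂ) i j := by
        funext w
        by_cases hw : w ∈ S
        · rw [hin w hw, if_pos hw]
        · rw [hout w hw, if_neg hw]
      rw [h2]
      exact Measurable.ite hS h1 measurable_const
    · by_cases hw : w ∈ S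
      · show ‖γ' w i j‖ ≤ _
        rw [hin w hw]
        exact (hC w).trans (le_max_left _ _)
      · show ‖γ' w i j‖ ≤ _
        rw [hout w hw]
        exact le_max_right _ _
  have hae : ∀ᵐ w ∂lam, γ' w = γ w := by
    filter_upwards [h.left, h.right] with w h1 h2
    exact hin w (by rw [hSdef]; exact ⟨h1, h2⟩)
  refine ⟨γ', ⟨hbm, fun w => ?_, fun w => ?_⟩, ta_congr h hbm hae, hae⟩
  · by_cases hw : w ∈ S
    · rw [hin w hw]
      rw [hSdef] at hw
      exact hw.1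
    · rw [hout w hw]
      simp
  · by_cases hw : w ∈ S
    · rw [hin w hw]
      rw [hSdef] at hw
      exact hw.2
    · rw [hout w hw]
      simp

/-- Lifts of products: `γ₁(β₂ w) γ₂(w)`. Proof. `Tw.shift` and `Tw.mul` (the commutative group:
`β₁ * (β₂ * w) = β₁ * β₂ * w`). -/
theorem UL.mul {lam : Measure W} [lam.IsHaarMeasure] {c : W} {d : ℕ}
    {Φ : W → Matrix (Fin d) (Fin d) ℂ} {β₁ β₂ : W}
    {κ₁ κ₂ : ℂ} {γ₁ γ₂ : W → Matrix (Fin d) (Fin d) ℂ} (h₁ : UL lam c Φ β₁ κ₁ γ₁)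
    (h₂ : UL lam c Φ β₂ κ₂ γ₂) :
    UL lam c Φ (β₁ * β₂) (κ₁ * κ₂) (fun w => γ₁ (β₂ * w) * γ₂ w) := by
  have h3 : Tw lam c (fun w => Φ (β₁ * (β₂ * w))) (fun w => Φ (β₂ * w)) κ₁
      (fun w => γ₁ (β₂ * w)) := h₁.tw.shift β₂
  have h4 := h3.mul h₂.tw
  refine ⟨h4.1, ?_, ?_, ?_, ?_⟩
  · rw [norm_mul, h₁.nk, h₂.nk, one_mul]
  · filter_upwards [h4.2] with w h5
    rw [mul_assoc β₁ β₂ w]
    exact h5
  · filter_upwards [ta_shift_ae β₂ h₁.left, h₂.left] with w h5 h6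
    rw [Matrix.conjTranspose_mul, Matrix.mul_assoc, ← Matrix.mul_assoc (γ₁ (β₂ * w))ᴴ, h5,
      Matrix.one_mul, h6]
  · filter_upwards [ta_shift_ae β₂ h₁.right, h₂.right] with w h5 h6
    rw [Matrix.conjTranspose_mul, Matrix.mul_assoc, ← Matrix.mul_assoc (γ₂ w), h6,
      Matrix.one_mul, h5]

/-- Lifts of inverses: `γ(β⁻¹ w)ᴴ`. Proof. `Tw.adj`, `Tw.shift` by `β⁻¹`. -/
theorem UL.inv {lam : Measure W} [lam.IsHaarMeasure] {c : W} {d : ℕ}
    {Φ : W → Matrix (Fin d) (Fin d) ℂ} (hΦ : UC Φ) {β : W}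
    {κ : ℂ} {γ : W → Matrix (Fin d) (Fin d) ℂ} (h : UL lam c Φ β κ γ) :
    UL lam c Φ β⁻¹ (conj κ) (fun w => (γ (β⁻¹ * w))ᴴ) := by
  have h1 : Tw lam c Φ (fun w => Φ (β * w)) (conj κ) (fun w => (γ w)ᴴ) :=
    h.tw.adj (hΦ.shift β) hΦ
  have h2 := h1.shift β⁻¹
  refine ⟨h2.1, ?_, ?_, ?_, ?_⟩
  · rw [RCLike.norm_conj]
    exact h.nk
  · filter_upwards [h2.2] with w h3
    have h4 : β * (β⁻¹ * w) = w := by rw [← mul_assoc, mul_inv_cancel, one_mul]
    rw [h4] at h3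
    exact h3
  · filter_upwards [ta_shift_ae β⁻¹ h.right] with w h3
    rw [Matrix.conjTranspose_conjTranspose]
    exact h3
  · filter_upwards [ta_shift_ae β⁻¹ h.left] with w h3
    rw [Matrix.conjTranspose_conjTranspose]
    exact h3

/-- The iterates of a lift are lifts of the powers. Proof. Induction with `UL.mul`
(`cc β γ (n + 1) w = γ(β^n w) * cc β γ n w`). -/
theorem UL.pow {lam : Measure W} [lam.IsHaarMeasure] {c : W} {d : ℕ}
    {Φ : W → Matrix (Fin d) (Fin d) ℂ} {β : W}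
    {κ : ℂ} {γ : W → Matrix (Fin d) (Fin d) ℂ} (h : UL lam c Φ β κ γ) (n : ℕ) :
    UL lam c Φ (β ^ n) (κ ^ n) (cc β γ n) := by
  induction n with
  | zero =>
    refine ⟨ta_bmm_one, by simp, Eventually.of_forall fun w => ?_, Eventually.of_forall fun w => ?_,
      Eventually.of_forall fun w => ?_⟩
    · show (1 : Matrix (Fin d) (Fin d) ℂ) * Φ w = κ ^ 0 • (Φ (β ^ 0 * w) * 1)
      simp
    · show (1 : Matrix (Fin d) (Fin d) ℂ)ᴴ * 1 = 1
      simp
    · show (1 : Matrix (Fin d) (Fin d) ℂ) * 1ᴴ = 1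
      simp
  | succ n ih =>
    have h1 := h.mul ih
    rw [← pow_succ', ← pow_succ'] at h1
    exact h1

/-- The iterates of `Φ` itself are lifts of the powers of `c`. Proof.
`cc c Φ n (c w) * Φ w = cc c Φ (n + 1) w = Φ (c^n w) * cc c Φ n w` (`cc_add`). -/
theorem UL.self {lam : Measure W} {c : W} {d : ℕ} {Φ : W → Matrix (Fin d) (Fin d) ℂ}
    (hΦ : UC Φ) (n : ℕ) : UL lam c Φ (c ^ n) 1 (cc c Φ n) := by
  refine ⟨(hΦ.cc c n).bm, by simp, Eventually.of_forall fun w => ?_,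
    Eventually.of_forall (hΦ.cc c n).left, Eventually.of_forall (hΦ.cc c n).right⟩
  have h1 := cc_add c Φ n 1 w
  have h2 : cc c Φ (n + 1) w = Φ (c ^ n * w) * cc c Φ n w := rfl
  have h3 : cc c Φ 1 w = Φ w := by
    show Φ (c ^ 0 * w) * 1 = Φ w
    simp
  rw [h2, h3, pow_one] at h1
  rw [one_smul]
  exact h1.symm

/-- Multiplication by a character and a constant. -/
theorem UL.char {lam : Measure W} {c : W} {d : ℕ} {Φ : W → Matrix (Fin d) (Fin d) ℂ} {β : W}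
    {κ : ℂ} {γ : W → Matrix (Fin d) (Fin d) ℂ} (h : UL lam c Φ β κ γ) (χ : PontryaginDual W)
    (a : ℂ) (ha : ‖a‖ = 1) :
    UL lam c Φ β (ch χ c * κ) (fun w => (a * ch χ w) • γ w) := by
  have h1 := h.tw.char χ a
  have hn : ∀ w : W, star (a * ch χ w) * (a * ch χ w) = 1 := fun w => by
    have h2 : star (a * ch χ w) = conj (a * ch χ w) := rfl
    rw [h2, mul_comm, Complex.mul_conj, Complex.normSq_eq_norm_sq, norm_mul, ha, norm_ch]
    norm_num
  refine ⟨h1.1, ?_, h1.2, ?_, ?_⟩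
  · rw [norm_mul, norm_ch, h.nk, one_mul]
  · filter_upwards [h.left] with w h2
    rw [Matrix.conjTranspose_smul, Matrix.smul_mul, Matrix.mul_smul, smul_smul, h2, hn, one_smul]
  · filter_upwards [h.right] with w h2
    rw [Matrix.conjTranspose_smul, Matrix.smul_mul, Matrix.mul_smul, smul_smul, h2, mul_comm, hn,
      one_smul]

/-- Quotients of two lifts of the same translation. Proof.
`γ'ᴴ(cw) Φ(βw) = conj κ' Φ(w) γ'ᴴ(w)` (`Tw.adj`) and `Tw.mul`. -/
theorem UL.quot {lam : Measure W} {c : W} {d : ℕ}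
    {Φ : W → Matrix (Fin d) (Fin d) ℂ} (hΦ : UC Φ) {β : W}
    {κ κ' : ℂ} {γ γ' : W → Matrix (Fin d) (Fin d) ℂ} (h : UL lam c Φ β κ γ)
    (h' : UL lam c Φ β κ' γ') :
    UL lam c Φ 1 (conj κ' * κ) (fun w => (γ' w)ᴴ * γ w) := by
  have h1 : Tw lam c Φ (fun w => Φ (β * w)) (conj κ') (fun w => (γ' w)ᴴ) :=
    h'.tw.adj (hΦ.shift β) hΦ
  have h2 := h1.mul h.tw
  refine ⟨h2.1, ?_, ?_, ?_, ?_⟩
  · rw [norm_mul, RCLike.norm_conj, h.nk, h'.nk, one_mul]
  · filter_upwards [h2.2] with w h3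
    rw [one_mul]
    exact h3
  · filter_upwards [h.left, h'.right] with w h3 h4
    rw [Matrix.conjTranspose_mul, Matrix.conjTranspose_conjTranspose, Matrix.mul_assoc,
      ← Matrix.mul_assoc (γ' w), h4, Matrix.one_mul, h3]
  · filter_upwards [h.right, h'.left] with w h3 h4
    rw [Matrix.conjTranspose_mul, Matrix.conjTranspose_conjTranspose, Matrix.mul_assoc,
      ← Matrix.mul_assoc (γ w), h3, Matrix.one_mul, h4]

/-- Almost everywhere equal functions. -/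
theorem UL.congr {lam : Measure W} [lam.IsHaarMeasure] {c : W} {d : ℕ}
    {Φ : W → Matrix (Fin d) (Fin d) ℂ} {β : W}
    {κ : ℂ} {γ γ' : W → Matrix (Fin d) (Fin d) ℂ} (h : UL lam c Φ β κ γ) (hb : BMM γ')
    (he : ∀ᵐ w ∂lam, γ' w = γ w) : UL lam c Φ β κ γ' := by
  exact ta_congr h hb he

end Pool.Agent.Lib.H82OH
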