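import Pool.Agent.Lib.H82OH.FA
import Pool.Agent.Lib.H82OH.TA
import Pool.Agent.Lib.H22M.TW

/-!
# Project H82OH, chunk FB: lemma of Wiener for twisted translations
-/

open MeasureTheory Filter Topology Finset
open scoped ComplexConjugate Matrix

namespace Pool.Agent.Lib.H82OH

open Pool.Agent.Lib.H22M Pool.Agent.Lib.H82T Pool.Agent.Lib.H82OT Pool.Agent.Lib.H82OF

variable {W : Type*} [CommGroup W] [TopologicalSpace W] [IsTopologicalGroup W] [CompactSpace W]
  [T2Space W] [SecondCountableTopology W] [MeasurableSpace W] [BorelSpace W]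

/-- The matrices of the twisted translation `X ↦ A(w)ᴴ X(β w) B(w)`. -/
private def fbW {W : Type*} {d e : ℕ} (A : W → Matrix (Fin d) (Fin d) ℂ)
    (B : W → Matrix (Fin e) (Fin e) ℂ) (w : W) (k l : Fin d × Fin e) : ℂ :=
  conj (A w k.1 l.1) * B w k.2 l.2

private theorem fb_unit {W : Type*} {d e : ℕ} (A : W → Matrix (Fin d) (Fin d) ℂ)
    (B : W → Matrix (Fin e) (Fin e) ℂ) (hA : ∀ w, A w * (A w)ᴴ = 1) (hB : ∀ w, B w * (B w)ᴴ = 1)
    (w : W) (k k' : Fin d × Fin e) :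
    ∑ l, fbW A B w k l * conj (fbW A B w k' l) = if k = k' then 1 else 0 := by
  have h2 : ∀ (m : ℕ) (M : Matrix (Fin m) (Fin m) ℂ), M * Mᴴ = 1 → ∀ i j : Fin m,
      ∑ l, M i l * conj (M j l) = if i = j then 1 else 0 := by
    intro m M hM i j
    have h3 : (M * Mᴴ) i j = (1 : Matrix (Fin m) (Fin m) ℂ) i j := by rw [hM]
    rw [Matrix.mul_apply, Matrix.one_apply] at h3
    exact h3
  have h1 : ∀ l : Fin d × Fin e, fbW A B w k l * conj (fbW A B w k' l) =
      (A w k'.1 l.1 * conj (A w k.1 l.1)) * (B w k.2 l.2 * conj (B w k'.2 l.2)) := by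
    intro l
    unfold fbW
    simp only [map_mul, Complex.conj_conj]
    ring
  rw [Finset.sum_congr rfl fun l _ => h1 l, Fintype.sum_prod_type]
  have h3 : ∑ x, ∑ y, (A w k'.1 x * conj (A w k.1 x)) * (B w k.2 y * conj (B w k'.2 y)) =
      (∑ x, A w k'.1 x * conj (A w k.1 x)) * ∑ y, B w k.2 y * conj (B w k'.2 y) := by
    rw [Finset.sum_mul_sum]
  rw [h3, h2 d _ (hA w), h2 e _ (hB w)]
  by_cases h4 : k.1 = k'.1
  · by_cases h5 : k.2 = k'.2
    · rw [if_pos h4.symm, if_pos h5, if_pos (Prod.ext h4 h5), one_mul]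
    · rw [if_pos h4.symm, if_neg h5, if_neg fun h => h5 (congrArg Prod.snd h), mul_zero]
  · rw [if_neg fun h => h4 h.symm, if_neg fun h => h4 (congrArg Prod.fst h), zero_mul]

/-- The coordinates of the twisted translation as a matrix product. -/
private theorem fb_sum {W : Type*} {d e : ℕ} (A : W → Matrix (Fin d) (Fin d) ℂ)
    (B : W → Matrix (Fin e) (Fin e) ℂ) (w : W) (X : Matrix (Fin d) (Fin e) ℂ)
    (l : Fin d × Fin e) :
    ∑ k, fbW A B w k l * X k.1 k.2 = ((A w)ᴴ * X * B w) l.1 l.2 := by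
  rw [Fintype.sum_prod_type, Finset.sum_comm, Matrix.mul_apply]
  refine Finset.sum_congr rfl fun y _ => ?_
  rw [Matrix.mul_apply, Finset.sum_mul]
  refine Finset.sum_congr rfl fun x _ => ?_
  rw [Matrix.conjTranspose_apply]
  unfold fbW
  have : star (A w x l.1) = conj (A w x l.1) := rfl
  rw [this]
  ring

private theorem fb_trace_sq {d e : ℕ} (X : Matrix (Fin d) (Fin e) ℂ) :
    (Matrix.trace (Xᴴ * X)).re = ∑ j, ∑ i, ‖X i j‖ ^ 2 := by
  rw [Matrix.trace, Complex.re_sum]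
  refine Finset.sum_congr rfl fun j _ => ?_
  rw [Matrix.diag_apply, Matrix.mul_apply, Complex.re_sum]
  refine Finset.sum_congr rfl fun i _ => ?_
  rw [Matrix.conjTranspose_apply]
  have : star (X i j) * X i j = ((‖X i j‖ ^ 2 : ℝ) : ℂ) := by
    rw [mul_comm]
    have h : star (X i j) = conj (X i j) := rfl
    rw [h, Complex.mul_conj, Complex.normSq_eq_norm_sq]
  rw [this, Complex.ofReal_re]

private theorem fb_entry {d e : ℕ} (X : Matrix (Fin d) (Fin e) ℂ) (i : Fin d) (j : Fin e) :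
    ‖X i j‖ ^ 2 ≤ (Matrix.trace (Xᴴ * X)).re := by
  rw [fb_trace_sq]
  calc ‖X i j‖ ^ 2 ≤ ∑ i, ‖X i j‖ ^ 2 :=
        Finset.single_le_sum (f := fun i => ‖X i j‖ ^ 2) (fun _ _ => by positivity)
          (Finset.mem_univ i)
    _ ≤ ∑ j, ∑ i, ‖X i j‖ ^ 2 :=
        Finset.single_le_sum (f := fun j => ∑ i, ‖X i j‖ ^ 2)
          (fun _ _ => Finset.sum_nonneg fun _ _ => by positivity) (Finset.mem_univ j)

/-- No eigenvectors. -/
private theorem fb_eig (lam : Measure W) [IsProbabilityMeasure lam] {β : W}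
    (hβ : Ergodic (fun w => β * w) lam) {d e : ℕ} {A : W → Matrix (Fin d) (Fin d) ℂ}
    {B : W → Matrix (Fin e) (Fin e) ℂ} (hA : UC A) (hB : UC B)
    (hne : ∀ (X : W → Matrix (Fin d) (Fin e) ℂ) (z : ℂ), ‖z‖ = 1 → Tw lam β A B z X →
      ∀ᵐ w ∂lam, X w = 0)
    (V : Lp (EuclideanSpace ℂ (Fin d × Fin e)) 2 lam →ₗᵢ[ℂ]
      Lp (EuclideanSpace ℂ (Fin d × Fin e)) 2 lam)
    (hV : IsTwist lam (fun w => β * w) (fbW A B) V) (z : ℂ)
    (u : Lp (EuclideanSpace ℂ (Fin d × Fin e)) 2 lam) (hu : V u = z • u) : u = 0 := by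
  classical
  by_contra hu0
  have hz : ‖z‖ = 1 := by
    have h1 : ‖u‖ = ‖z‖ * ‖u‖ := by
      rw [← norm_smul, ← hu, V.norm_map]
    have h2 : ‖u‖ ≠ 0 := norm_ne_zero_iff.2 hu0
    field_simp at h1
    exact h1.symm
  have hum : ∀ k, Measurable fun w => u w k := fun k =>
    (EuclideanSpace.proj (𝕜 := ℂ) k).continuous.measurable.comp (Lp.stronglyMeasurable u).measurable
  obtain ⟨X, hX⟩ : ∃ X : W → Matrix (Fin d) (Fin e) ℂ, ∀ w i j, X w i j = u w (i, j) :=
    ⟨fun w => Matrix.of fun i j => u w (i, j), fun _ _ _ => rfl⟩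
  have hXm : ∀ i j, Measurable fun w => X w i j := by
    intro i j
    simp_rw [hX]
    exact hum (i, j)
  have heq : ∀ᵐ w ∂lam, X (β * w) * B w = z • (A w * X w) := by
    filter_upwards [hV u, Lp.coeFn_smul z u] with w h1 h2
    have h3 : (A w)ᴴ * X (β * w) * B w = z • X w := by
      ext i j
      have h4 := h1 (i, j)
      rw [hu, h2] at h4
      have h5 : ∀ k : Fin d × Fin e, u (β * w) k = X (β * w) k.1 k.2 := fun k => by rw [hX]
      have h6 : ∑ k, fbW A B w k (i, j) * u (β * w) k =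
          ∑ k, fbW A B w k (i, j) * X (β * w) k.1 k.2 :=
        Finset.sum_congr rfl fun k _ => by rw [h5 k]
      have h7 := fb_sum A B w (X (β * w)) (i, j)
      rw [← h7, ← h6]
      rw [Matrix.smul_apply, hX]
      exact h4.symm
    calc X (β * w) * B w = (A w * (A w)ᴴ) * X (β * w) * B w := by rw [hA.right, Matrix.one_mul]
      _ = A w * ((A w)ᴴ * X (β * w) * B w) := by simp only [Matrix.mul_assoc]
      _ = z • (A w * X w) := by rw [h3, Matrix.mul_smul]
  have hgm : Measurable fun w => Matrix.trace ((X w)ᴴ * X w) := by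
    simp only [Matrix.trace, Matrix.diag_apply, Matrix.mul_apply, Matrix.conjTranspose_apply]
    refine Finset.measurable_sum _ fun j _ => Finset.measurable_sum _ fun i _ => ?_
    exact (Complex.continuous_conj.measurable.comp (hXm i j)).mul (hXm i j)
  have hginv : ∀ᵐ w ∂lam, Matrix.trace ((X (β * w))ᴴ * X (β * w)) =
      Matrix.trace ((X w)ᴴ * X w) := by
    filter_upwards [heq] with w hw
    have h1 : Matrix.trace ((X (β * w))ᴴ * X (β * w)) =
        Matrix.trace ((X (β * w) * B w)ᴴ * (X (β * w) * B w)) := by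
      rw [Matrix.conjTranspose_mul]
      have h2 : (B w)ᴴ * (X (β * w))ᴴ * (X (β * w) * B w) =
          (B w)ᴴ * ((X (β * w))ᴴ * X (β * w) * B w) := by simp only [Matrix.mul_assoc]
      rw [h2, Matrix.trace_mul_comm (B w)ᴴ, Matrix.mul_assoc, hB.right, mul_one]
    rw [h1, hw, Matrix.conjTranspose_smul, Matrix.smul_mul, Matrix.mul_smul, smul_smul,
      Matrix.conjTranspose_mul]
    have h3 : star z * z = 1 := by
      have h : star z = conj z := rfl
      rw [h, mul_comm, Complex.mul_conj, Complex.normSq_eq_norm_sq, hz]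
      norm_num
    have h4 : (X w)ᴴ * (A w)ᴴ * (A w * X w) = (X w)ᴴ * (((A w)ᴴ * A w) * X w) := by
      simp only [Matrix.mul_assoc]
    rw [h3, one_smul, h4, hA.left, Matrix.one_mul]
  obtain ⟨g, hg⟩ := const_of_invariant hβ _ hgm hginv
  obtain ⟨C, hC⟩ : ∃ C : ℝ, C = Real.sqrt g.re := ⟨_, rfl⟩
  have hbd : ∀ᵐ w ∂lam, ∀ i j, ‖X w i j‖ ≤ C := by
    filter_upwards [hg] with w hw i j
    have h1 := fb_entry (X w) i j
    rw [hw] at h1
    rw [hC]
    exact Real.le_sqrt_of_sq_le h1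
  obtain ⟨X', hX'⟩ : ∃ X' : W → Matrix (Fin d) (Fin e) ℂ, ∀ w i j, X' w i j =
      if ‖X w i j‖ ≤ C then X w i j else 0 :=
    ⟨fun w => Matrix.of fun i j => if ‖X w i j‖ ≤ C then X w i j else 0, fun _ _ _ => rfl⟩
  have hC0 : 0 ≤ C := by
    rw [hC]
    exact Real.sqrt_nonneg _
  have hX'b : BMM X' := by
    intro i j
    simp_rw [hX']
    refine ⟨Measurable.ite (measurableSet_le (hXm i j).norm measurable_const) (hXm i j)
      measurable_const, C, fun w => ?_⟩
    dsimp only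
    split_ifs with h
    · exact h
    · rw [norm_zero]
      exact hC0
  have hXX' : ∀ᵐ w ∂lam, X' w = X w := by
    filter_upwards [hbd] with w hw
    ext i j
    rw [hX', if_pos (hw i j)]
  have hXX'β : ∀ᵐ w ∂lam, X' (β * w) = X (β * w) :=
    hβ.toMeasurePreserving.quasiMeasurePreserving.ae hXX'
  have hTw : Tw lam β A B z X' := by
    refine ⟨hX'b, ?_⟩
    filter_upwards [heq, hXX', hXX'β] with w h1 h2 h3
    rw [h2, h3, h1]
  apply hu0
  rw [Lp.eq_zero_iff_ae_eq_zero]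
  filter_upwards [hne X' z hz hTw, hXX'] with w h1 h2
  ext k
  have h3 : X w k.1 k.2 = 0 := by
    rw [← h2, h1]
    rfl
  rw [hX] at h3
  exact h3

/-- The iterates. -/
private theorem fb_iter (lam : Measure W) [IsProbabilityMeasure lam] {β : W}
    (hβ : MeasurePreserving (fun w => β * w) lam lam) {d e : ℕ}
    {A : W → Matrix (Fin d) (Fin d) ℂ} {B : W → Matrix (Fin e) (Fin e) ℂ}
    (V : Lp (EuclideanSpace ℂ (Fin d × Fin e)) 2 lam →ₗᵢ[ℂ]
      Lp (EuclideanSpace ℂ (Fin d × Fin e)) 2 lam)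
    (hV : IsTwist lam (fun w => β * w) (fbW A B) V) (Z : W → Matrix (Fin d) (Fin e) ℂ)
    (v : Lp (EuclideanSpace ℂ (Fin d × Fin e)) 2 lam) (hv : ∀ᵐ w ∂lam, ∀ k, v w k = Z w k.1 k.2)
    (n : ℕ) :
    ∀ᵐ w ∂lam, ∀ k, ((⇑V)^[n] v) w k =
      ((cc β A n w)ᴴ * Z (β ^ n * w) * cc β B n w) k.1 k.2 := by
  induction n with
  | zero =>
    filter_upwards [hv] with w hw k
    have h1 : cc β A 0 w = 1 := rfl
    have h2 : cc β B 0 w = 1 := rfl
    rw [h1, h2, Matrix.conjTranspose_one, Matrix.one_mul, Matrix.mul_one, pow_zero, one_mul]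
    exact hw k
  | succ n ih =>
    have h1 := hβ.quasiMeasurePreserving.ae ih
    filter_upwards [hV ((⇑V)^[n] v), h1] with w h2 h3 l
    rw [Function.iterate_succ_apply', h2 l]
    have h4 : ∑ k, fbW A B w k l * ((⇑V)^[n] v) (β * w) k = ∑ k, fbW A B w k l *
        ((cc β A n (β * w))ᴴ * Z (β ^ n * (β * w)) * cc β B n (β * w)) k.1 k.2 :=
      Finset.sum_congr rfl fun k _ => by rw [h3 k]
    rw [h4, fb_sum]
    have h5 : ∀ {m : ℕ} (Φ : W → Matrix (Fin m) (Fin m) ℂ),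
        cc β Φ (n + 1) w = cc β Φ n (β * w) * Φ w := by
      intro m Φ
      rw [cc_add β Φ n 1 w, pow_one]
      have h6 : cc β Φ 1 w = Φ w := by
        show Φ (β ^ 0 * w) * 1 = Φ w
        rw [pow_zero, one_mul, mul_one]
      rw [h6]
    have h7 : β ^ n * (β * w) = β ^ (n + 1) * w := by rw [← mul_assoc, ← pow_succ]
    rw [h5 A, h5 B, h7, Matrix.conjTranspose_mul]
    simp only [Matrix.mul_assoc]

/-- Proof. `H = PiLp 2 (fun _ : Fin d × Fin e => Lp ℂ 2 lam)` (or `Lp (EuclideanSpace ℂ (Fin d × Fin e)) 2 lam`), the isometry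
`U` with `(U X)(β w) = A(w) X(w) B(w)ᴴ`, i.e. `(U X)(w) = A(β⁻¹ w) X(β⁻¹ w) B(β⁻¹ w)ᴴ` (pointwise the Hilbert-Schmidt norm is
preserved, the translation preserves `lam`). `(U^n X)(β^n w) = cc β A n w * X w * (cc β B n w)ᴴ`. An eigenvector `U X = z X`,
`X ≠ 0`: `‖z‖ = 1`, and `w ↦ ‖X(w)‖_HS` is invariant under the ergodic translation, so constant a.e.: a version of `X` is bounded,
and `X(β w) B(w) = conj z A(w) X(w)` a.e., so `X = 0` by `hne`. `wiener_tendsto` (FA) for the classes of `Y` and `Z`. -/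
theorem twisted_wiener (lam : Measure W) [lam.IsHaarMeasure] [IsProbabilityMeasure lam] {β : W}
    (hβ : Ergodic (fun w => β * w) lam) {d e : ℕ} {A : W → Matrix (Fin d) (Fin d) ℂ}
    {B : W → Matrix (Fin e) (Fin e) ℂ} (hA : UC A) (hB : UC B)
    (hne : ∀ (X : W → Matrix (Fin d) (Fin e) ℂ) (z : ℂ), ‖z‖ = 1 → Tw lam β A B z X →
      ∀ᵐ w ∂lam, X w = 0)
    (Y Z : W → Matrix (Fin d) (Fin e) ℂ) (hY : BMM Y) (hZ : BMM Z) :
    Tendsto (fun N : ℕ => (∑ n ∈ range N, ‖∫ w, Matrix.trace ((Z (β ^ n * w))ᴴ *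
      (cc β A n w * Y w * (cc β B n w)ᴴ)) ∂lam‖ ^ 2) / N) atTop (𝓝 0) := by
  classical
  have hWm : ∀ k l, Measurable fun w => fbW A B w k l := fun k l =>
    (Complex.continuous_conj.measurable.comp (hA.bm k.1 l.1).1).mul (hB.bm k.2 l.2).1
  obtain ⟨V, hV⟩ := exists_twist lam (fun w => β * w) hβ.toMeasurePreserving (fbW A B) hWm
    (fb_unit A B hA.right hB.right)
  have hclass : ∀ Z : W → Matrix (Fin d) (Fin e) ℂ, BMM Z →
      ∃ v : Lp (EuclideanSpace ℂ (Fin d × Fin e)) 2 lam, ∀ᵐ w ∂lam, ∀ k, v w k = Z w k.1 k.2 := by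
    intro Z hZ
    choose hm C hC using hZ
    obtain ⟨F, hF⟩ : ∃ F : W → EuclideanSpace ℂ (Fin d × Fin e), F = fun w =>
        WithLp.toLp 2 fun k => Z w k.1 k.2 := ⟨_, rfl⟩
    have hF' : ∀ w k, F w k = Z w k.1 k.2 := fun w k => by
      rw [hF]
    have h4 : F = fun w => ∑ l : Fin d × Fin e, (Z w l.1 l.2) •
        EuclideanSpace.single l (1 : ℂ) := by
      funext w
      ext l
      rw [hF']
      simp [WithLp.ofLp_sum, Finset.sum_apply, Pi.single_apply]
    have hFm : AEStronglyMeasurable F lam := by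
      rw [h4]
      exact Finset.aestronglyMeasurable_fun_sum _ fun l _ =>
        (hm l.1 l.2).aestronglyMeasurable.smul_const _
    have hFb : ∀ w, ‖F w‖ ≤ Real.sqrt (∑ k : Fin d × Fin e, |C k.1 k.2| ^ 2) := by
      intro w
      rw [EuclideanSpace.norm_eq]
      refine Real.sqrt_le_sqrt (Finset.sum_le_sum fun k _ => ?_)
      rw [hF']
      exact pow_le_pow_left₀ (norm_nonneg _) ((hC k.1 k.2 w).trans (le_abs_self _)) 2
    have hmem : MemLp F 2 lam := MemLp.of_bound hFm _ (Eventually.of_forall hFb)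
    refine ⟨hmem.toLp F, ?_⟩
    filter_upwards [hmem.coeFn_toLp] with w hw k
    rw [hw, hF']
  obtain ⟨v, hv⟩ := hclass Z hZ
  obtain ⟨y, hy⟩ := hclass Y hY
  have hmain := wiener_tendsto V (fun z u hu => fb_eig lam hβ hA hB hne V hV z u hu) v y
  refine hmain.congr fun N => ?_
  congr 1
  refine Finset.sum_congr rfl fun n _ => ?_
  congr 2
  rw [L2.inner_def]
  refine integral_congr_ae ?_
  filter_upwards [fb_iter lam hβ.toMeasurePreserving V hV Z v hv n, hy] with w h1 h2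
  rw [PiLp.inner_apply]
  have h3 : ∀ k : Fin d × Fin e, inner ℂ (((⇑V)^[n] v) w k) (y w k) =
      Y w k.1 k.2 * conj (((cc β A n w)ᴴ * Z (β ^ n * w) * cc β B n w) k.1 k.2) := by
    intro k
    rw [RCLike.inner_apply, h1 k, h2 k]
  rw [Finset.sum_congr rfl fun k _ => h3 k]
  obtain ⟨M, hM⟩ : ∃ M : Matrix (Fin d) (Fin e) ℂ, M = (cc β A n w)ᴴ * Z (β ^ n * w) * cc β B n w :=
    ⟨_, rfl⟩
  rw [← hM]
  have h4 : ∑ k : Fin d × Fin e, Y w k.1 k.2 * conj (M k.1 k.2) = Matrix.trace (Mᴴ * Y w) := by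
    rw [Fintype.sum_prod_type, Finset.sum_comm, Matrix.trace]
    refine Finset.sum_congr rfl fun j _ => ?_
    rw [Matrix.diag_apply, Matrix.mul_apply]
    refine Finset.sum_congr rfl fun i _ => ?_
    rw [Matrix.conjTranspose_apply, mul_comm]
    rfl
  rw [h4, hM, Matrix.conjTranspose_mul, Matrix.conjTranspose_mul,
    Matrix.conjTranspose_conjTranspose, Matrix.mul_assoc, Matrix.mul_assoc,
    Matrix.trace_mul_comm]
  simp only [Matrix.mul_assoc]

end Pool.Agent.Lib.H82OH
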