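import Pool.Agent.Lib.H82OH.TC

/-!
# Project H82OH, chunk FC: no eigenvectors outside the group
-/

open MeasureTheory Filter Topology Finset
open scoped ComplexConjugate Matrix

namespace Pool.Agent.Lib.H82OH

open Pool.Agent.Lib.H22M Pool.Agent.Lib.H82T Pool.Agent.Lib.H82OT Pool.Agent.Lib.H82OF

variable {W : Type*} [CommGroup W] [TopologicalSpace W] [IsTopologicalGroup W] [CompactSpace W]
  [T2Space W] [SecondCountableTopology W] [MeasurableSpace W] [BorelSpace W]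

/-- Linear algebra: an eigenvector modulo `N`. -/
private theorem fc_eig {F : Type*} [AddCommGroup F] [Module ℂ F] (U : F →ₗ[ℂ] F) (V N : Submodule ℂ F)
    (hV : ∀ x ∈ V, U x ∈ V) (n : ℕ) : ∀ (p : Polynomial ℂ), p ≠ 0 → p.natDegree ≤ n →
      ∀ x ∈ V, x ∉ N → Polynomial.aeval U p x ∈ N →
        ∃ μ : ℂ, ∃ x' ∈ V, x' ∉ N ∧ U x' - μ • x' ∈ N := by
  induction n with
  | zero =>
    intro p hp hdeg x hx hxN hpx
    exfalso
    have h1 : p = Polynomial.C (p.coeff 0) := Polynomial.eq_C_of_natDegree_le_zero hdeg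
    have h2 : p.coeff 0 ≠ 0 := by
      intro h
      rw [h, Polynomial.C_0] at h1
      exact hp h1
    rw [h1, Polynomial.aeval_C] at hpx
    have h3 : (algebraMap ℂ (Module.End ℂ F) (p.coeff 0)) x = p.coeff 0 • x := rfl
    rw [h3] at hpx
    apply hxN
    have h4 := N.smul_mem (p.coeff 0)⁻¹ hpx
    rwa [smul_smul, inv_mul_cancel₀ h2, one_smul] at h4
  | succ n ih =>
    intro p hp hdeg x hx hxN hpx
    by_cases h0 : p.natDegree = 0
    · exact ih p hp (by omega) x hx hxN hpx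
    · have hd0 : p.degree ≠ 0 := by
        intro h
        exact h0 (Polynomial.natDegree_eq_of_degree_eq_some h)
      obtain ⟨μ, hμ⟩ := IsAlgClosed.exists_root p hd0
      obtain ⟨q, hq⟩ := Polynomial.dvd_iff_isRoot.2 hμ
      have hq0 : q ≠ 0 := by
        intro h
        rw [h, mul_zero] at hq
        exact hp hq
      have hqdeg : q.natDegree ≤ n := by
        have h1 : p.natDegree = 1 + q.natDegree := by
          rw [hq, Polynomial.natDegree_mul (Polynomial.X_sub_C_ne_zero μ) hq0,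
            Polynomial.natDegree_X_sub_C]
        omega
      by_cases hy : U x - μ • x ∈ N
      · exact ⟨μ, x, hx, hxN, hy⟩
      · refine ih q hq0 hqdeg (U x - μ • x) (V.sub_mem (hV x hx) (V.smul_mem μ hx)) hy ?_
        have h2 : Polynomial.aeval U p x = Polynomial.aeval U q (U x - μ • x) := by
          rw [hq, mul_comm, map_mul, map_sub, Polynomial.aeval_X, Polynomial.aeval_C]
          rfl
        rw [← h2]
        exact hpx

/-- The operator `𝒰`. -/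
private noncomputable def fcU (c β' : W) {d : ℕ} (Φ : W → Matrix (Fin d) (Fin d) ℂ) :
    (W → Matrix (Fin d) (Fin d) ℂ) →ₗ[ℂ] (W → Matrix (Fin d) (Fin d) ℂ) where
  toFun X := fun w => Φ (β' * (c⁻¹ * w)) * X (c⁻¹ * w) * (Φ (c⁻¹ * w))ᴴ
  map_add' X Y := by
    funext w
    simp only [Pi.add_apply, Matrix.mul_add, Matrix.add_mul]
  map_smul' a X := by
    funext w
    simp only [Pi.smul_apply, Matrix.mul_smul, Matrix.smul_mul, RingHom.id_apply]

/-- The solutions of the twisted equation. -/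
private def fcV (lam : Measure W) (β : W) {d : ℕ} (A B : W → Matrix (Fin d) (Fin d) ℂ) (z : ℂ) :
    Submodule ℂ (W → Matrix (Fin d) (Fin d) ℂ) where
  carrier := {X | Tw lam β A B z X}
  add_mem' := by
    intro X Y hX hY
    refine ⟨hX.1.add hY.1, ?_⟩
    filter_upwards [hX.2, hY.2] with w h1 h2
    rw [Pi.add_apply, Pi.add_apply, Matrix.add_mul, h1, h2, Matrix.mul_add, smul_add]
  zero_mem' := by
    refine ⟨fun i j => by simpa using BM.const (Y := W) 0, ?_⟩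
    filter_upwards with w
    simp
  smul_mem' := by
    intro a X hX
    refine ⟨hX.1.smul a, ?_⟩
    filter_upwards [hX.2] with w h1
    rw [Pi.smul_apply, Pi.smul_apply, Matrix.smul_mul, h1, Matrix.mul_smul, smul_comm]

/-- The functions which vanish almost everywhere. -/
private def fcN (lam : Measure W) (d : ℕ) : Submodule ℂ (W → Matrix (Fin d) (Fin d) ℂ) where
  carrier := {X | ∀ᵐ w ∂lam, X w = 0}
  add_mem' := by
    intro X Y hX hY
    show ∀ᵐ w ∂lam, (X + Y) w = 0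
    filter_upwards [hX, hY] with w h1 h2
    rw [Pi.add_apply, h1, h2, add_zero]
  zero_mem' := by
    show ∀ᵐ w ∂lam, (0 : W → Matrix (Fin d) (Fin d) ℂ) w = 0
    exact Filter.Eventually.of_forall fun w => rfl
  smul_mem' := by
    intro a X hX
    show ∀ᵐ w ∂lam, (a • X) w = 0
    filter_upwards [hX] with w h1
    rw [Pi.smul_apply, h1, smul_zero]

/-- The trace of `Yᴴ X` is constant. -/
private theorem fc_const {lam : Measure W} {β : W} {d : ℕ} {A B : W → Matrix (Fin d) (Fin d) ℂ}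
    (he : Ergodic (fun w => β * w) lam) (hA : UC A) (hB : UC B) {z : ℂ} (hz : ‖z‖ = 1)
    {X Y : W → Matrix (Fin d) (Fin d) ℂ} (hX : Tw lam β A B z X) (hY : Tw lam β A B z Y) :
    ∃ a : ℂ, ∀ᵐ w ∂lam, ((Y w)ᴴ * X w).trace = a := by
  have hm : Measurable fun w => ((Y w)ᴴ * X w).trace := by
    have h1 : BMM fun w => (Y w)ᴴ * X w := hY.1.conj.mul hX.1
    exact (BM.sum Finset.univ fun i _ => h1 i i).1
  have hinv : (fun w => ((Y w)ᴴ * X w).trace) ∘ (fun w => β * w) =ᵐ[lam]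
      fun w => ((Y w)ᴴ * X w).trace := by
    filter_upwards [hX.2, hY.2] with w h1 h2
    have h3 : X (β * w) = z • (A w * X w) * (B w)ᴴ := by
      rw [← h1, Matrix.mul_assoc, hB.right, Matrix.mul_one]
    have h4 : Y (β * w) = z • (A w * Y w) * (B w)ᴴ := by
      rw [← h2, Matrix.mul_assoc, hB.right, Matrix.mul_one]
    have hzz : star z * z = 1 := by
      have h5 : z * star z = 1 := by
        have h6 : z * conj z = ((‖z‖ ^ 2 : ℝ) : ℂ) := by
          rw [Complex.mul_conj, Complex.normSq_eq_norm_sq]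
        rw [hz, one_pow, Complex.ofReal_one] at h6
        exact h6
      rw [mul_comm]
      exact h5
    have h5 : (Y (β * w))ᴴ * X (β * w) = B w * ((Y w)ᴴ * X w) * (B w)ᴴ := by
      rw [h3, h4, Matrix.conjTranspose_mul, Matrix.conjTranspose_conjTranspose,
        Matrix.conjTranspose_smul, Matrix.conjTranspose_mul]
      have hzz' : z * star z = 1 := by rw [mul_comm]; exact hzz
      simp only [Matrix.smul_mul, Matrix.mul_smul, smul_smul, hzz', one_smul]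
      have h6 : B w * ((Y w)ᴴ * (A w)ᴴ) * (A w * X w * (B w)ᴴ) =
          B w * ((Y w)ᴴ * ((A w)ᴴ * A w) * X w) * (B w)ᴴ := by
        simp only [Matrix.mul_assoc]
      rw [h6, hA.left, Matrix.mul_one]
    show ((Y (β * w))ᴴ * X (β * w)).trace = ((Y w)ᴴ * X w).trace
    rw [h5, Matrix.trace_mul_comm, ← Matrix.mul_assoc, hB.left, Matrix.one_mul]
  obtain ⟨a, ha⟩ := he.ae_eq_const_of_ae_eq_comp_ae hm.aestronglyMeasurable hinv
  exact ⟨a, ha⟩

/-- `𝒰` preserves the solutions. -/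
private theorem fc_pres {lam : Measure W} [lam.IsHaarMeasure] {c : W} {d : ℕ}
    {Φ : W → Matrix (Fin d) (Fin d) ℂ} (hΦ : UC Φ) {β₀ β' : W}
    {κ₀ : ℂ} {γ₀ : W → Matrix (Fin d) (Fin d) ℂ} (hγ₀ : UL lam c Φ β₀ κ₀ γ₀) {z : ℂ}
    {X : W → Matrix (Fin d) (Fin d) ℂ} (hX : Tw lam β₀ (fun w => γ₀ (β' * w)) γ₀ z X) :
    Tw lam β₀ (fun w => γ₀ (β' * w)) γ₀ z (fcU c β' Φ X) := by
  have hq := (measurePreserving_mul_left lam c⁻¹).quasiMeasurePreserving
  have hq' := (measurePreserving_mul_left lam β').quasiMeasurePreserving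
  refine ⟨?_, ?_⟩
  · exact ((hΦ.bm.comp ((measurable_const_mul β').comp (measurable_const_mul c⁻¹))).mul
      (hX.1.comp (measurable_const_mul c⁻¹))).mul (hΦ.bm.comp (measurable_const_mul c⁻¹)).conj
  · filter_upwards [hq.ae hX.2, hq.ae hγ₀.eq, hq.ae (hq'.ae hγ₀.eq)] with w h1 h2 h3
    obtain ⟨v, rfl⟩ : ∃ v, w = c * v := ⟨c⁻¹ * w, by rw [mul_inv_cancel_left]⟩
    rw [inv_mul_cancel_left] at h1 h2 h3
    show Φ (β' * (c⁻¹ * (β₀ * (c * v)))) * X (c⁻¹ * (β₀ * (c * v))) *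
      (Φ (c⁻¹ * (β₀ * (c * v))))ᴴ * γ₀ (c * v) = z • (γ₀ (β' * (c * v)) *
        (Φ (β' * (c⁻¹ * (c * v))) * X (c⁻¹ * (c * v)) * (Φ (c⁻¹ * (c * v)))ᴴ))
    have e1 : c⁻¹ * (β₀ * (c * v)) = β₀ * v := by
      rw [mul_left_comm β₀ c v, inv_mul_cancel_left]
    rw [e1, inv_mul_cancel_left]
    have h2' : γ₀ (c * v) = κ₀ • (Φ (β₀ * v) * γ₀ v) * (Φ v)ᴴ := by
      rw [← h2, Matrix.mul_assoc, hΦ.right, Matrix.mul_one]
    have h3' : γ₀ (β' * (c * v)) * Φ (β' * v) = κ₀ • (Φ (β' * (β₀ * v)) * γ₀ (β' * v)) := by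
      rw [mul_left_comm β' c v, mul_left_comm β' β₀ v]
      exact h3
    have h1' : X (β₀ * v) * γ₀ v = z • (γ₀ (β' * v) * X v) := h1
    have r1 : γ₀ (β' * (c * v)) * (Φ (β' * v) * X v * (Φ v)ᴴ) =
        (γ₀ (β' * (c * v)) * Φ (β' * v)) * (X v * (Φ v)ᴴ) := by
      simp only [Matrix.mul_assoc]
    rw [r1, h3', h2', Matrix.smul_mul, Matrix.smul_mul, Matrix.mul_smul]
    have r2 : Φ (β' * (β₀ * v)) * X (β₀ * v) * (Φ (β₀ * v))ᴴ * (Φ (β₀ * v) * γ₀ v * (Φ v)ᴴ) =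
        Φ (β' * (β₀ * v)) * (X (β₀ * v) * (((Φ (β₀ * v))ᴴ * Φ (β₀ * v)) * γ₀ v)) * (Φ v)ᴴ := by
      simp only [Matrix.mul_assoc]
    rw [r2, hΦ.left, Matrix.one_mul, h1', Matrix.mul_smul, Matrix.smul_mul, smul_smul, smul_smul,
      mul_comm κ₀ z]
    simp only [Matrix.mul_assoc]

/-- Proof. Suppose `X` is not a.e. `0`. Let `V` be the space of the bounded measurable `X` with `Tw lam β₀ A γ₀ z X`,
`A = γ₀(β' ·)`. (1) For `X, X' ∈ V` the function `tr(X'ᴴ X)` is invariant under the ergodic translation by `β₀`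
(`X(β₀ w) = z A(w) X(w) γ₀(w)ᴴ`, `A, γ₀` unitary), so a.e. constant. (2) For `X ∈ V` let
`(𝒰 X)(w) = Φ(β' c⁻¹ w) X(c⁻¹ w) Φ(c⁻¹ w)ᴴ`, i.e. `(𝒰 X)(c w) = Φ(β' w) X(w) Φ(w)ᴴ`; `𝒰 X ∈ V`: at `c w`,
`(𝒰X)(β₀ c w) γ₀(c w) = Φ(β' β₀ w) X(β₀ w) Φ(β₀ w)ᴴ γ₀(c w) = κ₀ Φ(β' β₀ w) X(β₀ w) γ₀(w) Φ(w)ᴴ
= κ₀ z Φ(β' β₀ w) γ₀(β' w) X(w) Φ(w)ᴴ = z γ₀(c β' w) Φ(β' w) X(w) Φ(w)ᴴ = z γ₀(β' c w) (𝒰X)(c w)`, from
`γ₀(c w) Φ(w) = κ₀ Φ(β₀ w) γ₀(w)` at `w` and at `β' w`. (3) Let `X_k = 𝒰^k X`, `k = 0, …, d²`, `G_kl = tr(X_lᴴ X_k)`, constants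
a.e. For a generic `w` the `d² + 1` matrices `X_k(w)` are linearly dependent: `∑ a_k X_k(w) = 0`, `a ≠ 0`, so
`∑_kl a_k conj a_l G_kl = 0`, and then `∑ a_k X_k = 0` a.e. So there is a polynomial `p ≠ 0` with `p(𝒰) X = 0` a.e.; take one of
minimal degree (`≥ 1`), `p = (T - μ) q`, `X' = q(𝒰) X` is not a.e. `0` and `𝒰 X' = μ X'` a.e.; `‖μ‖ = 1` (`𝒰` preserves
`∫ tr(Xᴴ X)`). So `X'(c w) Φ(w) = conj μ Φ(β' w) X'(w)`: `ul_of_tw` (TC) gives a unitary lift of `β'`, a contradiction. -/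
theorem no_eig (lam : Measure W) [lam.IsHaarMeasure] [IsProbabilityMeasure lam] {c : W}
    {d : ℕ} (hd : 0 < d) {Φ : W → Matrix (Fin d) (Fin d) ℂ} (hΦ : UC Φ)
    (hI : Ic lam c Φ) {β₀ β' : W} (hβ₀ : Ergodic (fun w => β₀ * w) lam)
    {κ₀ : ℂ} {γ₀ : W → Matrix (Fin d) (Fin d) ℂ} (hγ₀ : UL lam c Φ β₀ κ₀ γ₀) (huc : UC γ₀)
    (hβ' : β' ∉ LG lam c Φ) (z : ℂ) (hz : ‖z‖ = 1) (X : W → Matrix (Fin d) (Fin d) ℂ)
    (hX : Tw lam β₀ (fun w => γ₀ (β' * w)) γ₀ z X) : ∀ᵐ w ∂lam, X w = 0 := by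
  classical
  by_contra hX0
  set A : W → Matrix (Fin d) (Fin d) ℂ := fun w => γ₀ (β' * w) with hAdef
  have hA : UC A := huc.shift β'
  set U := fcU c β' Φ with hU
  set V := fcV lam β₀ A γ₀ z with hVdef
  set N := fcN lam d with hNdef
  have hVinv : ∀ Y ∈ V, U Y ∈ V := fun Y hY => fc_pres hΦ hγ₀ hY
  have hXV : X ∈ V := hX
  have hXN : X ∉ N := hX0
  set m : ℕ := d * d with hm
  let Xk : Fin (m + 1) → W → Matrix (Fin d) (Fin d) ℂ := fun k => (U ^ (k : ℕ)) X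
  have hXk : ∀ k, Xk k ∈ V := by
    intro k
    show (U ^ (k : ℕ)) X ∈ V
    generalize (k : ℕ) = n
    induction n with
    | zero => exact hXV
    | succ n ih =>
      rw [pow_succ']
      exact hVinv _ ih
  choose G hG using fun (q : Fin (m + 1) × Fin (m + 1)) =>
    fc_const hβ₀ hA huc hz (hXk q.1) (hXk q.2)
  have hall : ∀ᵐ w ∂lam, ∀ q : Fin (m + 1) × Fin (m + 1),
      ((Xk q.2 w)ᴴ * Xk q.1 w).trace = G q := by
    rw [ae_all_iff]
    exact hG
  have hne : (lam : Measure W) ≠ 0 := IsProbabilityMeasure.ne_zero lam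
  have hnb : (ae lam).NeBot := ae_neBot.2 hne
  obtain ⟨w₀, hw₀⟩ := hall.exists
  have hdep : ¬ LinearIndependent ℂ fun k => Xk k w₀ := by
    intro hli
    have h1 := hli.fintype_card_le_finrank
    rw [Fintype.card_fin, Module.finrank_matrix, Fintype.card_fin, Module.finrank_self, mul_one] at h1
    omega
  rw [Fintype.not_linearIndependent_iff] at hdep
  obtain ⟨a, hsum, k₀, hk₀⟩ := hdep
  have htr : ∀ w, (∀ q : Fin (m + 1) × Fin (m + 1), ((Xk q.2 w)ᴴ * Xk q.1 w).trace = G q) →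
      ((∑ k, a k • Xk k w)ᴴ * (∑ k, a k • Xk k w)).trace = ∑ l, ∑ k, star (a l) * a k * G (k, l) := by
    intro w hw
    rw [Matrix.conjTranspose_sum, Matrix.sum_mul, Matrix.trace_sum]
    refine Finset.sum_congr rfl fun l _ => ?_
    rw [Matrix.mul_sum, Matrix.trace_sum]
    refine Finset.sum_congr rfl fun k _ => ?_
    rw [Matrix.conjTranspose_smul, Matrix.smul_mul, Matrix.mul_smul, smul_smul, Matrix.trace_smul,
      smul_eq_mul, hw (k, l)]
  have hzero : ∑ l, ∑ k, star (a l) * a k * G (k, l) = 0 := by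
    rw [← htr w₀ hw₀, hsum, Matrix.mul_zero, Matrix.trace_zero]
  have hYN : (∑ k, a k • Xk k) ∈ N := by
    show ∀ᵐ w ∂lam, (∑ k, a k • Xk k) w = 0
    filter_upwards [hall] with w hw
    have h1 := htr w hw
    rw [hzero] at h1
    have h2 : (∑ k, a k • Xk k) w = ∑ k, a k • Xk k w := by
      rw [Finset.sum_apply]
      rfl
    rw [h2]
    open scoped ComplexOrder in exact Matrix.trace_conjTranspose_mul_self_eq_zero_iff.1 h1
  set p : Polynomial ℂ := ∑ k : Fin (m + 1), Polynomial.C (a k) * Polynomial.X ^ (k : ℕ) with hp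
  have hp0 : p ≠ 0 := by
    intro h
    have h1 : p.coeff (k₀ : ℕ) = a k₀ := by
      rw [hp, Polynomial.finsetSum_coeff]
      rw [Finset.sum_eq_single k₀]
      · rw [Polynomial.coeff_C_mul, Polynomial.coeff_X_pow, if_pos rfl, mul_one]
      · intro b _ hb
        rw [Polynomial.coeff_C_mul, Polynomial.coeff_X_pow, if_neg, mul_zero]
        intro h2
        exact hb (Fin.ext h2.symm)
      · intro h2
        exact absurd (Finset.mem_univ _) h2
    rw [h, Polynomial.coeff_zero] at h1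
    exact hk₀ h1.symm
  have hpX : Polynomial.aeval U p X ∈ N := by
    have h1 : Polynomial.aeval U p X = ∑ k, a k • Xk k := by
      rw [hp, map_sum, LinearMap.sum_apply]
      refine Finset.sum_congr rfl fun k _ => ?_
      rw [map_mul, map_pow, Polynomial.aeval_X, Polynomial.aeval_C]
      rfl
    rw [h1]
    exact hYN
  obtain ⟨μ, X', hX'V, hX'N, hX'⟩ := fc_eig U V N hVinv p.natDegree p hp0 le_rfl X hXV hXN hpX
  have hX'T : Tw lam β₀ A γ₀ z X' := hX'V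
  have hX'N' : ¬ ∀ᵐ w ∂lam, X' w = 0 := hX'N
  have hX'e : ∀ᵐ w ∂lam, (U X' - μ • X') w = 0 := hX'
  obtain ⟨t, ht⟩ := fc_const hβ₀ hA huc hz hX'T hX'T
  have ht0 : t ≠ 0 := by
    intro h
    apply hX'N'
    filter_upwards [ht] with w hw
    rw [h] at hw
    open scoped ComplexOrder in exact Matrix.trace_conjTranspose_mul_self_eq_zero_iff.1 hw
  have hqc := (measurePreserving_mul_left lam c).quasiMeasurePreserving
  have hkey : ∀ᵐ v ∂lam, Φ (β' * v) * X' v * (Φ v)ᴴ = μ • X' (c * v) := by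
    filter_upwards [hqc.ae hX'e] with v hv
    have h1 : (U X') (c * v) = μ • X' (c * v) := sub_eq_zero.1 hv
    have h2 : (U X') (c * v) = Φ (β' * (c⁻¹ * (c * v))) * X' (c⁻¹ * (c * v)) *
      (Φ (c⁻¹ * (c * v)))ᴴ := rfl
    rw [h2, inv_mul_cancel_left] at h1
    exact h1
  have hμ : star μ * μ = 1 := by
    have hF : ∀ᵐ v ∂lam, star μ * μ = 1 := by
      filter_upwards [hkey, ht, hqc.ae ht] with v h1 h2 h3
      have h3' : ((X' (c * v))ᴴ * X' (c * v)).trace = t := h3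
      have h4 : ((μ • X' (c * v))ᴴ * (μ • X' (c * v))).trace = star μ * μ * t := by
        rw [Matrix.conjTranspose_smul, Matrix.smul_mul, Matrix.mul_smul, smul_smul,
          Matrix.trace_smul, smul_eq_mul, h3']
      rw [← h1] at h4
      have h5 : (Φ (β' * v) * X' v * (Φ v)ᴴ)ᴴ * (Φ (β' * v) * X' v * (Φ v)ᴴ) =
          Φ v * ((X' v)ᴴ * ((Φ (β' * v))ᴴ * Φ (β' * v)) * X' v) * (Φ v)ᴴ := by
        rw [Matrix.conjTranspose_mul, Matrix.conjTranspose_mul, Matrix.conjTranspose_conjTranspose]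
        simp only [Matrix.mul_assoc]
      rw [h5, hΦ.left, Matrix.mul_one, Matrix.trace_mul_comm, ← Matrix.mul_assoc, hΦ.left,
        Matrix.one_mul, h2] at h4
      have h6 : (star μ * μ) * t = 1 * t := by rw [one_mul]; exact h4.symm
      exact mul_right_cancel₀ ht0 h6
    exact hF.exists.elim fun _ h => h
  have hμ0 : μ ≠ 0 := by
    intro h
    rw [h, mul_zero] at hμ
    exact zero_ne_one hμ
  have hμn : ‖μ‖ = 1 := by
    have h1 : μ * conj μ = 1 := by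
      rw [mul_comm]
      exact hμ
    rw [Complex.mul_conj, Complex.normSq_eq_norm_sq] at h1
    have h2 : ‖μ‖ ^ 2 = 1 := by exact_mod_cast h1
    nlinarith [norm_nonneg μ]
  have hTw : Tw lam c (fun w => Φ (β' * w)) Φ μ⁻¹ X' := by
    refine ⟨hX'T.1, ?_⟩
    filter_upwards [hkey] with v h1
    have h2 : X' (c * v) = μ⁻¹ • (Φ (β' * v) * X' v * (Φ v)ᴴ) := by
      rw [h1, smul_smul, inv_mul_cancel₀ hμ0, one_smul]
    rw [h2, Matrix.smul_mul, Matrix.mul_assoc, hΦ.left, Matrix.mul_one]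
  obtain ⟨s, hs0, _, hs1, hs2⟩ := ul_of_tw hd hΦ hI (by rw [norm_inv, hμn, inv_one]) hTw
  rcases hs0.lt_or_eq with h | h
  · exact hβ' ⟨_, _, hs2 h⟩
  · exact hX'N' (hs1 h.symm)

end Pool.Agent.Lib.H82OH
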