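import Pool.Agent.Lib.H82OH.TC

/-!
# Project H82OH, chunk FD: the lifts of the identity
-/

open MeasureTheory Filter Topology Finset
open scoped ComplexConjugate Matrix

namespace Pool.Agent.Lib.H82OH

open Pool.Agent.Lib.H22M Pool.Agent.Lib.H82T Pool.Agent.Lib.H82OT Pool.Agent.Lib.H82OF

variable {W : Type*} [CommGroup W] [TopologicalSpace W] [IsTopologicalGroup W] [CompactSpace W]
  [T2Space W] [SecondCountableTopology W] [MeasurableSpace W] [BorelSpace W]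

/-- The dichotomy: equivalent or orthogonal. -/
private theorem FD_dich (lam : Measure W) [lam.IsHaarMeasure] [IsProbabilityMeasure lam] {c : W}
    (hc : Free c) {d : ℕ} (hd : 0 < d) {Φ : W → Matrix (Fin d) (Fin d) ℂ} (hΦ : UC Φ)
    (hI : Ic lam c Φ) {κ κ' : ℂ} {γ γ' : W → Matrix (Fin d) (Fin d) ℂ} (h : UL lam c Φ 1 κ γ)
    (h' : UL lam c Φ 1 κ' γ') :
    (∃ (χ : PontryaginDual W) (a : ℂ), ‖a‖ = 1 ∧ ∀ᵐ w ∂lam, γ w = (a * ch χ w) • γ' w) ∨
      ∀ᵐ w ∂lam, ((γ' w)ᴴ * γ w).trace = 0 := by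
  have hX := UL.quot hΦ h h'
  by_cases h0 : ∀ᵐ w ∂lam, ((γ' w)ᴴ * γ w).trace = 0
  · exact Or.inr h0
  left
  have hbm : BM fun w => ((γ' w)ᴴ * γ w).trace := by
    show BM fun w => ∑ i, ((γ' w)ᴴ * γ w) i i
    exact BM.sum _ fun i _ => hX.bm i i
  have heq : ∀ᵐ w ∂lam, ((γ' (c * w))ᴴ * γ (c * w)).trace =
      (conj κ' * κ) * ((γ' w)ᴴ * γ w).trace := by
    filter_upwards [hX.eq] with w h1
    rw [one_mul] at h1
    have h2 : (γ' (c * w))ᴴ * γ (c * w) =
        ((conj κ' * κ) • (Φ w * ((γ' w)ᴴ * γ w))) * (Φ w)ᴴ := by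
      rw [← h1, Matrix.mul_assoc _ (Φ w), hΦ.right, Matrix.mul_one]
    rw [h2, Matrix.smul_mul, Matrix.trace_smul, smul_eq_mul, Matrix.mul_assoc, Matrix.trace_mul_comm,
      Matrix.mul_assoc, hΦ.left, Matrix.mul_one]
  obtain ⟨χ, a, ha, hz, hf⟩ := eigen_ch lam hc _ hbm _ heq h0
  have hX' := hX.char χ⁻¹ 1 (by simp)
  have hconst : ch χ⁻¹ c * (conj κ' * κ) = 1 := by
    rw [hz, ch_inv_left, mul_comm, ch_mul_conj]
  rw [hconst] at hX'
  have htw : Tw lam c Φ Φ 1 (fun w => (1 * ch χ⁻¹ w) • ((γ' w)ᴴ * γ w)) := by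
    refine ⟨hX'.bm, ?_⟩
    filter_upwards [hX'.eq] with w h1
    rw [one_mul w] at h1
    exact h1
  obtain ⟨b, hb⟩ := hI _ htw
  have hbn : ‖b‖ = 1 := by
    obtain ⟨w, hw1, hw2⟩ := (hb.and hX'.left).exists
    rw [hw1] at hw2
    have h3 := congrFun (congrFun hw2 ⟨0, hd⟩) ⟨0, hd⟩
    rw [Matrix.conjTranspose_smul, Matrix.conjTranspose_one, Matrix.smul_mul, Matrix.one_mul, smul_smul,
      Matrix.smul_apply, Matrix.one_apply_eq, smul_eq_mul, mul_one] at h3
    have h4 : star b * b = ((‖b‖ ^ 2 : ℝ) : ℂ) := by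
      have h5 : star b = conj b := rfl
      rw [h5, mul_comm, Complex.mul_conj, Complex.normSq_eq_norm_sq]
    rw [h4] at h3
    have h5 : ‖b‖ ^ 2 = 1 := by exact_mod_cast h3
    exact (pow_eq_one_iff_of_nonneg (norm_nonneg b) two_ne_zero).1 h5
  refine ⟨χ, b, hbn, ?_⟩
  filter_upwards [hb, h'.right] with w h1 h2
  have h3 : (γ' w)ᴴ * γ w = (b * ch χ w) • (1 : Matrix (Fin d) (Fin d) ℂ) := by
    calc (γ' w)ᴴ * γ w = (ch χ w * (1 * ch χ⁻¹ w)) • ((γ' w)ᴴ * γ w) := by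
          rw [one_mul, ch_inv_left, ch_mul_conj, one_smul]
      _ = ch χ w • ((1 * ch χ⁻¹ w) • ((γ' w)ᴴ * γ w)) := by rw [smul_smul]
      _ = (b * ch χ w) • (1 : Matrix (Fin d) (Fin d) ℂ) := by rw [h1, smul_smul, mul_comm]
  calc γ w = γ' w * (γ' w)ᴴ * γ w := by rw [h2, Matrix.one_mul]
    _ = γ' w * ((γ' w)ᴴ * γ w) := by rw [Matrix.mul_assoc]
    _ = (b * ch χ w) • γ' w := by rw [h3, Matrix.mul_smul, Matrix.mul_one]

/-- Orthogonal nonzero matrices. -/
private theorem FD_card {d n : ℕ} (hd : 0 < d) (M : Fin n → Matrix (Fin d) (Fin d) ℂ)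
    (h1 : ∀ l, (M l)ᴴ * M l = 1)
    (h2 : ∀ l l', l ≠ l' → ((M l')ᴴ * M l).trace = 0) : n ≤ d * d := by
  classical
  let v : Fin n → EuclideanSpace ℂ (Fin d × Fin d) := fun l => WithLp.toLp 2 (fun x => M l x.2 x.1)
  have hli : LinearIndependent ℂ v := by
    apply linearIndependent_of_ne_zero_of_inner_eq_zero (𝕜 := ℂ)
    · intro l h0
      have h3 : M l = 0 := by
        ext i j
        exact congrArg (fun z : EuclideanSpace ℂ (Fin d × Fin d) => z (j, i)) h0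
      have h4 := h1 l
      rw [h3, Matrix.mul_zero] at h4
      have h5 := congrFun (congrFun h4 ⟨0, hd⟩) ⟨0, hd⟩
      rw [Matrix.zero_apply, Matrix.one_apply_eq] at h5
      exact zero_ne_one h5
    · intro l l' hll
      have h3 := h2 l' l hll.symm
      rw [PiLp.inner_apply, ← h3, Fintype.sum_prod_type]
      show _ = ∑ i, ((M l)ᴴ * M l') i i
      refine Finset.sum_congr rfl fun i _ => ?_
      rw [Matrix.mul_apply]
      refine Finset.sum_congr rfl fun k _ => ?_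
      rw [RCLike.inner_apply, Matrix.conjTranspose_apply, mul_comm]
      rfl
  have h3 := hli.fintype_card_le_finrank
  rw [finrank_euclideanSpace, Fintype.card_fin, Fintype.card_prod, Fintype.card_fin] at h3
  exact h3

/-- Proof. Call two unitary lifts `γ, γ'` of `1` equivalent if `γ' = (a χ) • γ` a.e., `‖a‖ = 1` (an equivalence relation). Claim: if they
are not equivalent then `tr(γᴴ γ') = 0` a.e. `X = γᴴ γ'` is a unitary lift of `1` with a constant `e` (`UL.quot`), `f = tr X`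
satisfies `f(c w) = e f(w)` (`X(c w) = e Φ(w) X(w) Φ(w)ᴴ`, as `Φ (1 * w) = Φ w`). If `f` is not a.e. `0`, then `e = χ(c)` for a
character (`eigen_ch`, BB), `conj χ • X` is a lift of `1` with constant `1`, so by `hI` a constant scalar `a`, `‖a‖ = 1`, and
`γ' = (a χ) • γ`. So for pairwise inequivalent lifts `γ_1, …, γ_n` the matrices `γ_l(w)` are for a.e. `w` nonzero and pairwise
orthogonal for the Hilbert-Schmidt product, and `n ≤ d²` (`card_orth_le` in `H82OT/CI4.lean` is similar). Take a family of pairwise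
inequivalent lifts with the largest possible number of members. -/
theorem st_finite (lam : Measure W) [lam.IsHaarMeasure] [IsProbabilityMeasure lam] {c : W}
    (hc : Free c) {d : ℕ} (hd : 0 < d) {Φ : W → Matrix (Fin d) (Fin d) ℂ} (hΦ : UC Φ)
    (hI : Ic lam c Φ) :
    ∃ (L : ℕ) (Γ : Fin L → W → Matrix (Fin d) (Fin d) ℂ) (e : Fin L → ℂ),
      (∀ l, UL lam c Φ 1 (e l) (Γ l)) ∧
      ∀ (κ : ℂ) (γ : W → Matrix (Fin d) (Fin d) ℂ), UL lam c Φ 1 κ γ →
        ∃ (l : Fin L) (χ : PontryaginDual W) (a : ℂ), ‖a‖ = 1 ∧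
          ∀ᵐ w ∂lam, γ w = (a * ch χ w) • Γ l w := by
  classical
  obtain ⟨P, hP⟩ : ∃ P : ℕ → Prop, ∀ n, P n ↔ ∃ (Γ : Fin n → W → Matrix (Fin d) (Fin d) ℂ)
      (e : Fin n → ℂ), (∀ l, UL lam c Φ 1 (e l) (Γ l)) ∧
      ∀ l l', l ≠ l' → ∀ᵐ w ∂lam, ((Γ l' w)ᴴ * Γ l w).trace = 0 := ⟨_, fun n => Iff.rfl⟩
  have hbound : ∀ n, P n → n ≤ d * d := by
    intro n hn
    obtain ⟨Γ, e, h1, h2⟩ := (hP n).1 hn
    have h3 : ∀ᵐ w ∂lam, ∀ l, (Γ l w)ᴴ * Γ l w = 1 := ae_all_iff.2 fun l => (h1 l).left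
    have h4 : ∀ᵐ w ∂lam, ∀ l l', l ≠ l' → ((Γ l' w)ᴴ * Γ l w).trace = 0 := by
      refine ae_all_iff.2 fun l => ae_all_iff.2 fun l' => ?_
      by_cases hll : l = l'
      · exact Eventually.of_forall fun w hne => absurd hll hne
      · filter_upwards [h2 l l' hll] with w hw _
        exact hw
    obtain ⟨w, hw1, hw2⟩ := (h3.and h4).exists
    exact FD_card hd (fun l => Γ l w) hw1 hw2
  have hP0 : P 0 := (hP 0).2 ⟨fun l => l.elim0, fun l => l.elim0, fun l => l.elim0, fun l => l.elim0⟩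
  set n := Nat.findGreatest P (d * d) with hn
  have hPn : P n := Nat.findGreatest_spec (Nat.zero_le _) hP0
  have hPn1 : ¬ P (n + 1) := fun hcon =>
    Nat.findGreatest_is_greatest (Nat.lt_succ_self n) (hbound _ hcon) hcon
  obtain ⟨Γ, e, h1, h2⟩ := (hP n).1 hPn
  refine ⟨n, Γ, e, h1, fun κ γ hγ => ?_⟩
  by_contra hcon
  apply hPn1
  refine (hP (n + 1)).2 ⟨Fin.cons γ Γ, Fin.cons κ e, ?_, ?_⟩
  · intro l
    refine Fin.cases ?_ (fun i => ?_) l
    · rw [Fin.cons_zero, Fin.cons_zero]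
      exact hγ
    · rw [Fin.cons_succ, Fin.cons_succ]
      exact h1 i
  · have h3 : ∀ l, ∀ᵐ w ∂lam, ((Γ l w)ᴴ * γ w).trace = 0 := by
      intro l
      rcases FD_dich lam hc hd hΦ hI hγ (h1 l) with ⟨χ, a, ha, h4⟩ | h4
      · exact absurd ⟨l, χ, a, ha, h4⟩ hcon
      · exact h4
    intro l l'
    refine Fin.cases ?_ (fun i => ?_) l
    · refine Fin.cases ?_ (fun j => ?_) l'
      · intro hne
        exact absurd rfl hne
      · intro _
        rw [Fin.cons_zero, Fin.cons_succ]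
        exact h3 j
    · refine Fin.cases ?_ (fun j => ?_) l'
      · intro _
        rw [Fin.cons_zero, Fin.cons_succ]
        filter_upwards [h3 i] with w hw
        have h4 : (γ w)ᴴ * Γ i w = ((Γ i w)ᴴ * γ w)ᴴ := by
          rw [Matrix.conjTranspose_mul, Matrix.conjTranspose_conjTranspose]
        rw [h4, Matrix.trace_conjTranspose, hw, star_zero]
      · intro hne
        rw [Fin.cons_succ, Fin.cons_succ]
        exact h2 i j fun hij => hne (by rw [hij])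

end Pool.Agent.Lib.H82OH
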