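import Pool.Agent.Lib.H82OH.TA
import Pool.Agent.Lib.H82OH.BB

/-!
# Project H82OH, chunk TC: irreducible cocycles
-/

open MeasureTheory Filter Topology Finset
open scoped ComplexConjugate Matrix

namespace Pool.Agent.Lib.H82OH

open Pool.Agent.Lib.H22M Pool.Agent.Lib.H82T Pool.Agent.Lib.H82OT Pool.Agent.Lib.H82OF

variable {W : Type*} [CommGroup W] [TopologicalSpace W] [IsTopologicalGroup W] [CompactSpace W]
  [T2Space W] [SecondCountableTopology W] [MeasurableSpace W] [BorelSpace W]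

private theorem tc_shift_ae {lam : Measure W} [lam.IsHaarMeasure] (u : W) {p : W → Prop}
    (h : ∀ᵐ w ∂lam, p w) : ∀ᵐ w ∂lam, p (u * w) :=
  (measurePreserving_mul_left lam u).quasiMeasurePreserving.ae h

private theorem tc_prod {ι : Type*} (s : Finset ι) {f : ι → W → ℂ} (hf : ∀ i ∈ s, BM (f i)) :
    BM fun y => ∏ i ∈ s, f i y := by
  classical
  induction s using Finset.induction_on with
  | empty => simpa using BM.const (Y := W) 1
  | insert a s ha ih =>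
    simp_rw [Finset.prod_insert ha]
    exact (hf a (Finset.mem_insert_self a s)).mul
      (ih fun i hi => hf i (Finset.mem_insert_of_mem hi))

private theorem tc_det {d : ℕ} {γ : W → Matrix (Fin d) (Fin d) ℂ} (h : BMM γ) :
    BM fun w => (γ w).det := by
  simp_rw [Matrix.det_apply']
  exact BM.sum _ fun σ _ => (BM.const _).mul (tc_prod _ fun i _ => h (σ i) i)

private theorem tc_conj {z : ℂ} (hz : ‖z‖ = 1) : conj z * z = 1 := by
  rw [Complex.conj_mul', hz]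
  norm_num

/-- Proof. `X'(w) = X(β⁻¹ w)` satisfies `Tw lam c Φ Φ 1 X'` (`Tw.shift` by `β⁻¹`), so it is a constant scalar. -/
theorem Ic.shift {lam : Measure W} [lam.IsHaarMeasure] {c : W} {d : ℕ}
    {Φ : W → Matrix (Fin d) (Fin d) ℂ} (h : Ic lam c Φ) (β : W) :
    Ic lam c (fun w => Φ (β * w)) := by
  intro X hX
  have h2 : (fun w => Φ (β * (β⁻¹ * w))) = Φ := by
    funext w
    rw [mul_inv_cancel_left]
  have h3 : Tw lam c Φ Φ 1 (fun w => X (β⁻¹ * w)) := by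
    have h4 : Tw lam c (fun w => Φ (β * (β⁻¹ * w))) (fun w => Φ (β * (β⁻¹ * w))) 1
        (fun w => X (β⁻¹ * w)) := hX.shift β⁻¹
    rwa [h2] at h4
  obtain ⟨a, ha⟩ := h _ h3
  refine ⟨a, ?_⟩
  filter_upwards [tc_shift_ae β ha] with w hw
  rwa [inv_mul_cancel_left] at hw

/-- A nonnegative scalar. Proof. `Y = Xᴴ X` satisfies `Tw lam c B B 1 Y` (`Tw.adj`, `Tw.mul`,
`conj z * z = 1`), so `Y = a • 1` a.e.; for `0 < e` the number `a` is a diagonal entry `∑_k |X_k0|² ≥ 0`. -/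
theorem gram_const {lam : Measure W} [lam.IsHaarMeasure] [IsProbabilityMeasure lam] {c : W}
    {d e : ℕ} (he : 0 < e) {A : W → Matrix (Fin d) (Fin d) ℂ}
    {B : W → Matrix (Fin e) (Fin e) ℂ} (hA : UC A) (hB : UC B) (hI : Ic lam c B) {z : ℂ}
    (hz : ‖z‖ = 1) {X : W → Matrix (Fin d) (Fin e) ℂ} (hX : Tw lam c A B z X) :
    ∃ s : ℝ, 0 ≤ s ∧ ∀ᵐ w ∂lam, (X w)ᴴ * X w = ((s : ℂ) ^ 2) • 1 := by
  have h1 : Tw lam c B B 1 (fun w => (X w)ᴴ * X w) := by
    have h2 := (hX.adj hA hB).mul hX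
    rwa [tc_conj hz] at h2
  obtain ⟨a, ha⟩ := hI _ h1
  obtain ⟨w0, hw0⟩ := ha.exists
  have h4 : a = ((∑ k, ‖X w0 k ⟨0, he⟩‖ ^ 2 : ℝ) : ℂ) := by
    have h5 := congrFun (congrFun hw0 ⟨0, he⟩) ⟨0, he⟩
    simp only [Matrix.mul_apply, Matrix.conjTranspose_apply, Matrix.smul_apply,
      Matrix.one_apply_eq, smul_eq_mul, mul_one] at h5
    rw [← h5]
    push_cast
    exact Finset.sum_congr rfl fun k _ => Complex.conj_mul' _
  have h6 : 0 ≤ ∑ k, ‖X w0 k ⟨0, he⟩‖ ^ 2 := Finset.sum_nonneg fun k _ => by positivity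
  refine ⟨Real.sqrt (∑ k, ‖X w0 k ⟨0, he⟩‖ ^ 2), Real.sqrt_nonneg _, ?_⟩
  have h7 : ((Real.sqrt (∑ k, ‖X w0 k ⟨0, he⟩‖ ^ 2) : ℝ) : ℂ) ^ 2 = a := by
    rw [h4, ← Complex.ofReal_pow, Real.sq_sqrt h6]
  rw [h7]
  exact ha

/-- Bounded solutions of the equation of a lift are multiples of unitary lifts. Proof. `gram_const`
(`A = Φ(β ·)`, `B = Φ`): `Xᴴ X = s² • 1`. If `s = 0`, `X = 0` a.e. (the diagonal entries of `Xᴴ X` are the sums of the
squares of the columns). If `0 < s`: `s⁻¹ • X` is unitary from the left, and square, so from the right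
(`Matrix.mul_eq_one_comm`). -/
theorem ul_of_tw {lam : Measure W} [lam.IsHaarMeasure] [IsProbabilityMeasure lam] {c : W}
    {d : ℕ} (hd : 0 < d) {Φ : W → Matrix (Fin d) (Fin d) ℂ} (hΦ : UC Φ) (hI : Ic lam c Φ)
    {β : W} {κ : ℂ} (hκ : ‖κ‖ = 1) {X : W → Matrix (Fin d) (Fin d) ℂ}
    (hX : Tw lam c (fun w => Φ (β * w)) Φ κ X) :
    ∃ s : ℝ, 0 ≤ s ∧ (∀ᵐ w ∂lam, (X w)ᴴ * X w = ((s : ℂ) ^ 2) • 1) ∧
      (s = 0 → ∀ᵐ w ∂lam, X w = 0) ∧
      (0 < s → UL lam c Φ β κ (fun w => ((s : ℂ)⁻¹) • X w)) := by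
  obtain ⟨s, hs0, hs⟩ := gram_const hd (hΦ.shift β) hΦ hI hκ hX
  refine ⟨s, hs0, hs, fun h => ?_, fun h => ?_⟩
  · filter_upwards [hs] with w hw
    have h1 : (X w)ᴴ * X w = 0 := by
      rw [hw, h]
      simp
    ext i j
    have h2 := congrFun (congrFun h1 j) j
    simp only [Matrix.mul_apply, Matrix.conjTranspose_apply, Matrix.zero_apply] at h2
    have h3 : ∑ k, ‖X w k j‖ ^ 2 = 0 := by
      have h4 : ((∑ k, ‖X w k j‖ ^ 2 : ℝ) : ℂ) = 0 := by
        rw [← h2]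
        push_cast
        exact Finset.sum_congr rfl fun k _ => (Complex.conj_mul' _).symm
      exact_mod_cast h4
    have h5 := (Finset.sum_eq_zero_iff_of_nonneg (fun k _ => by positivity)).mp h3 i
      (Finset.mem_univ i)
    exact norm_eq_zero.mp ((pow_eq_zero_iff two_ne_zero).mp h5)
  · have hsc : (s : ℂ) ≠ 0 := by
      exact_mod_cast h.ne'
    have h1 : Tw lam c (fun w => Φ (β * w)) Φ κ (fun w => ((s : ℂ)⁻¹) • X w) := by
      refine ⟨hX.1.smul _, ?_⟩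
      filter_upwards [hX.2] with w hw
      rw [Matrix.smul_mul, hw, Matrix.mul_smul, smul_comm]
    have hst : star ((s : ℂ)⁻¹) = (s : ℂ)⁻¹ := by
      have h2 : star ((s : ℂ)⁻¹) = conj ((s : ℂ)⁻¹) := rfl
      rw [h2, map_inv₀, Complex.conj_ofReal]
    have hl : ∀ᵐ w ∂lam, (((s : ℂ)⁻¹) • X w)ᴴ * (((s : ℂ)⁻¹) • X w) = 1 := by
      filter_upwards [hs] with w hw
      rw [Matrix.conjTranspose_smul, Matrix.smul_mul, Matrix.mul_smul, hw, smul_smul, smul_smul,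
        hst]
      have h2 : (s : ℂ)⁻¹ * (s : ℂ)⁻¹ * (s : ℂ) ^ 2 = 1 := by
        field_simp
      rw [h2, one_smul]
    refine ⟨h1.1, hκ, h1.2, hl, ?_⟩
    filter_upwards [hl] with w hw
    exact mul_eq_one_comm.mp hw

/-- Proof. `f w = det (γ w)` is bounded and measurable, `‖f‖ = 1` a.e. (unitary), and
`f (c w) det(Φ w) = κ^d det(Φ w) f w` (`Φ (1 * w) = Φ w`; `Matrix.det_smul`), so `f (c w) = κ^d f w` a.e.;
`eigen_ch`. -/
theorem st_eig {lam : Measure W} [lam.IsHaarMeasure] [IsProbabilityMeasure lam] {c : W}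
    (hc : Free c) {d : ℕ} {Φ : W → Matrix (Fin d) (Fin d) ℂ} (hΦ : UC Φ) {κ : ℂ}
    {γ : W → Matrix (Fin d) (Fin d) ℂ} (h : UL lam c Φ 1 κ γ) :
    ∃ θ : PontryaginDual W, κ ^ d = ch θ c := by
  have hb := tc_det h.bm
  have he : ∀ᵐ w ∂lam, (γ (c * w)).det = κ ^ d * (γ w).det := by
    filter_upwards [h.eq] with w hw
    have h1 := congrArg Matrix.det hw
    rw [one_mul, Matrix.det_mul, Matrix.det_smul, Matrix.det_mul, Fintype.card_fin] at h1
    have h2 : (Φ w).det ≠ 0 := by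
      intro h0
      have h3 := congrArg Matrix.det (hΦ.left w)
      rw [Matrix.det_mul, h0, mul_zero, Matrix.det_one] at h3
      exact zero_ne_one h3
    apply mul_right_cancel₀ h2
    rw [h1]
    ring
  have h0 : ¬ ∀ᵐ w ∂lam, (γ w).det = 0 := by
    intro hz
    obtain ⟨w, hw1, hw2⟩ := (hz.and h.left).exists
    have h3 := congrArg Matrix.det hw2
    rw [Matrix.det_mul, hw1, mul_zero, Matrix.det_one] at h3
    exact zero_ne_one h3
  obtain ⟨χ, a, _, h2, _⟩ := eigen_ch lam hc (fun w => (γ w).det) hb (κ ^ d) he h0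
  exact ⟨χ, h2⟩

/-- Two unitary solutions with the same constant are proportional. Proof. `UL.quot`: `X = γ'ᴴ γ` is a lift of
`1` with constant `1`, so `X = a • 1` a.e. by `hI`, `‖a‖ = 1`, and `γ = a • γ'`. -/
theorem ul_unique {lam : Measure W} [lam.IsHaarMeasure] [IsProbabilityMeasure lam] {c : W}
    {d : ℕ} (hd : 0 < d) {Φ : W → Matrix (Fin d) (Fin d) ℂ} (hΦ : UC Φ) (hI : Ic lam c Φ) {β : W}
    {κ : ℂ} {γ γ' : W → Matrix (Fin d) (Fin d) ℂ} (h : UL lam c Φ β κ γ)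
    (h' : UL lam c Φ β κ γ') : ∃ a : ℂ, ‖a‖ = 1 ∧ ∀ᵐ w ∂lam, γ w = a • γ' w := by
  have h1 := h.quot hΦ h'
  have h2 : Tw lam c Φ Φ 1 (fun w => (γ' w)ᴴ * γ w) := by
    have h3 := h1.tw
    rw [tc_conj h.nk] at h3
    have h4 : (fun w => Φ (1 * w)) = Φ := by
      funext w
      rw [one_mul]
    rwa [h4] at h3
  obtain ⟨a, ha⟩ := hI _ h2
  refine ⟨a, ?_, ?_⟩
  · obtain ⟨w, hw1, hw2⟩ := (ha.and h1.left).exists
    have hw1' : (γ' w)ᴴ * γ w = a • 1 := hw1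
    rw [hw1', Matrix.conjTranspose_smul, Matrix.conjTranspose_one, Matrix.smul_mul,
      Matrix.mul_smul, Matrix.one_mul, smul_smul] at hw2
    have h5 := congrFun (congrFun hw2 ⟨0, hd⟩) ⟨0, hd⟩
    rw [Matrix.smul_apply, Matrix.one_apply_eq, smul_eq_mul, mul_one] at h5
    have h6 : ((‖a‖ : ℝ) : ℂ) ^ 2 = 1 := by
      rw [← Complex.conj_mul']
      exact h5
    have h7 : ‖a‖ ^ 2 = 1 := by
      exact_mod_cast h6
    exact (pow_eq_one_iff_of_nonneg (norm_nonneg _) two_ne_zero).mp h7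
  · filter_upwards [ha, h'.right] with w hw1 hw2
    calc γ w = (γ' w * (γ' w)ᴴ) * γ w := by rw [hw2, Matrix.one_mul]
      _ = γ' w * ((γ' w)ᴴ * γ w) := Matrix.mul_assoc _ _ _
      _ = a • γ' w := by rw [hw1, Matrix.mul_smul, Matrix.mul_one]

end Pool.Agent.Lib.H82OH
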