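import Pool.Agent.Lib.H82OH.TB
import Pool.Agent.Lib.H82OH.TC
import Pool.Agent.Lib.H82OH.BE

/-!
# Project H82OH, chunk TD: irreducibility of the powers
-/

open MeasureTheory Filter Topology Finset
open scoped ComplexConjugate Matrix

namespace Pool.Agent.Lib.H82OH

open Pool.Agent.Lib.H22M Pool.Agent.Lib.H82T Pool.Agent.Lib.H82OT Pool.Agent.Lib.H82OF

variable {W : Type*} [CommGroup W] [TopologicalSpace W] [IsTopologicalGroup W] [CompactSpace W]
  [T2Space W] [SecondCountableTopology W] [MeasurableSpace W] [BorelSpace W]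

theorem cc_shift {d : ℕ} (c β : W) (Φ : W → Matrix (Fin d) (Fin d) ℂ) (n : ℕ) (w : W) :
    cc c (fun w => Φ (β * w)) n w = cc c Φ n (β * w) := by
  induction n with
  | zero => rfl
  | succ n ih =>
    show Φ (β * (c ^ n * w)) * cc c (fun w => Φ (β * w)) n w =
      Φ (c ^ n * (β * w)) * cc c Φ n (β * w)
    rw [ih, mul_left_comm]

/-- `D (c ω) = Φ^(r)(t ω^r) D(ω) Φ'^(s)(t' ω^s)ᴴ`. -/
def DEq (lam : Measure W) (c : W) {d d' : ℕ} (Φ : W → Matrix (Fin d) (Fin d) ℂ)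
    (Φ' : W → Matrix (Fin d') (Fin d') ℂ) (r s : ℕ) (t t' : W)
    (D : W → Matrix (Fin d) (Fin d') ℂ) : Prop :=
  BMM D ∧ ∀ᵐ ω ∂lam, D (c * ω) * cc c Φ' s (t' * ω ^ s) = cc c Φ r (t * ω ^ r) * D ω

/-- The conditional expectation of `conj ψ • X` and its decomposition. -/
private theorem td_decomp (lam : Measure W) [lam.IsHaarMeasure] [IsProbabilityMeasure lam] {c : W}
    (hc : Free c) {d : ℕ} (hd : 0 < d) {Φ : W → Matrix (Fin d) (Fin d) ℂ} (hΦ : UC Φ)
    (hI : Ic lam c Φ) (r : ℕ) (hr : 1 ≤ r) (t : W)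
    (X : W → Matrix (Fin d) (Fin d) ℂ) (hX : BMM X)
    (heq : ∀ᵐ ω ∂lam, X (c * ω) * cc c Φ r (t * ω ^ r) = cc c Φ r (t * ω ^ r) * X ω)
    (ψ : PontryaginDual W) :
    ∃ (G : W → Matrix (Fin d) (Fin d) ℂ) (η : Fin r → ℂ)
      (G' : Fin r → W → Matrix (Fin d) (Fin d) ℂ),
      (∀ i j (h : W → ℂ), BM h →
        ∫ ω, (conj (ch ψ ω) * X ω i j) * h (t * ω ^ r) ∂lam = ∫ w, G w i j * h w ∂lam) ∧
      (∀ᵐ w ∂lam, G w = ∑ j, G' j w) ∧
      (∀ j, η j ^ r = conj (ch ψ c) ∧ Tw lam c Φ Φ (η j) (G' j) ∧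
        ((∀ᵐ w ∂lam, G' j w = 0) ∨ ∃ θ : PontryaginDual W, η j ^ d = ch θ c ∧
          θ ^ r * ψ ^ d = 1)) := by
  have hXψ : BMM fun ω => conj (ch ψ ω) • X ω := fun i j => (bm_ch ψ).conj.mul (hX i j)
  obtain ⟨G, hG, hGX⟩ := exists_cexp lam hc r hr t _ hXψ
  have hAr : UC (cc c Φ r) := hΦ.cc c r
  have heqψ : ∀ᵐ ω ∂lam, (conj (ch ψ (c * ω)) • X (c * ω)) * cc c Φ r (t * ω ^ r) =
      conj (ch ψ c) • (cc c Φ r (t * ω ^ r) * (conj (ch ψ ω) • X ω)) := by
    filter_upwards [heq] with ω hω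
    rw [Matrix.smul_mul, hω, Matrix.mul_smul, smul_smul, ch_mul_right, map_mul]
  have hGe := cexp_eq lam r t _ G hXψ hG hGX (conj (ch ψ c)) (cc c Φ r) (cc c Φ r) hAr.bm hAr.bm
    heqψ
  have hζ : ‖conj (ch ψ c)‖ = 1 := by rw [RCLike.norm_conj, norm_ch]
  obtain ⟨η, G', h1, h2⟩ := roots_decomp lam c Φ Φ hΦ hΦ r hr (conj (ch ψ c)) hζ G hG hGe
  refine ⟨G, η, G', fun i j h hh => hGX i j h hh, h2, fun j => ⟨(h1 j).1, (h1 j).2.2, ?_⟩⟩
  obtain ⟨h3, h4, h5⟩ := h1 j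
  have h6 : Tw lam c (fun w => Φ (1 * w)) Φ (η j) (G' j) := by
    have : (fun w => Φ (1 * w)) = Φ := funext fun w => by rw [one_mul]
    rw [this]
    exact h5
  obtain ⟨s, hs0, -, hs2, hs3⟩ := ul_of_tw hd hΦ hI h4 h6
  rcases hs0.eq_or_lt with hs | hs
  · exact Or.inl (hs2 hs.symm)
  · right
    obtain ⟨θ, hθ⟩ := st_eig hc hΦ (hs3 hs)
    refine ⟨θ, hθ, ?_⟩
    refine hc _ 1 le_rfl ?_
    rw [pow_one, ch_mul_left, ch_pow_left, ch_pow_left, ← hθ, ← pow_mul, mul_comm d r, pow_mul, h3,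
      ← mul_pow, mul_comm, ch_mul_conj, one_pow]

/-- Proof. For a character `ψ` let `G_ψ` be the function of `exists_cexp` (BE) for `conj ψ(ω) • X ω`, `r`, `t`. By
`cexp_eq` with `ζ = conj ψ(c)`, `A = B = cc c Φ r`: `G_ψ(c^r w) cc c Φ r w = conj ψ(c) • (cc c Φ r w * G_ψ w)`.
`roots_decomp` (TB, `A = B = Φ`): `G_ψ = ∑_j G_j` with `Tw lam c Φ Φ η_j G_j`, `η_j^r = conj ψ(c)`. Let `G_j` be not
a.e. `0`. By `ul_of_tw` (TC) for `β = 1` (`Φ (1 * w) = Φ w`) a multiple of it is a unitary lift of `1` with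
constant `η_j`, so `η_j^d = θ(c)` for a character `θ` (`st_eig`). Hence `θ(c)^r = conj ψ(c)^d`, i.e.
`(θ^r ψ^d)(c) = 1`, and `θ^r ψ^d = 1` by `Free c` (with exponent 1).
(1) If `ψ` is not an `r`-th power of a character then `G_ψ = 0` a.e.: otherwise with integers `u d + v r = 1` (`0 < d < r`,
`r` prime) `ψ = ψ^(u d) ψ^(v r) = (θ^(-u) ψ^v)^r`. So `∫ X_ij conj ψ = ∫ (G_ψ)_ij = 0` (take `h = 1`).
(2) `ψ = 1`: `θ^r = 1`, so `θ = 1` (`Free.torsion`), `η_j^d = 1 = η_j^r`, so `η_j = 1`, and `G_j` is a constant scalar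
(`hI`). So `G_1 = a • 1` a.e.
(3) `ψ = χ^r ≠ 1`: `∫ X_ij conj ψ = χ(t) ∫ X_ij(ω) conj χ(t ω^r) = χ(t) ∫ (G_1)_ij conj χ = χ(t) a δ_ij ∫ conj χ = 0`
(`int_ch`, BB).
So all the Fourier coefficients of `X_ij - a δ_ij` vanish (`∫ X_ij = ∫ (G_1)_ij = a δ_ij`): `fourier_zero`. -/
theorem irr_pow (lam : Measure W) [lam.IsHaarMeasure] [IsProbabilityMeasure lam] {c : W}
    (hc : Free c) {d : ℕ} (hd : 0 < d) {Φ : W → Matrix (Fin d) (Fin d) ℂ} (hΦ : UC Φ)
    (hI : Ic lam c Φ) (r : ℕ) (hr : r.Prime) (hdr : d < r) (t : W)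
    (X : W → Matrix (Fin d) (Fin d) ℂ) (hX : BMM X)
    (heq : ∀ᵐ ω ∂lam, X (c * ω) * cc c Φ r (t * ω ^ r) = cc c Φ r (t * ω ^ r) * X ω) :
    ∃ a : ℂ, ∀ᵐ ω ∂lam, X ω = a • 1 := by
  have hcop : Nat.Coprime d r := (Nat.coprime_of_lt_prime hd.ne' hdr hr).symm
  -- the case of the trivial character
  obtain ⟨G₁, η, G', hG1, hG2, hG3⟩ := td_decomp lam hc hd hΦ hI r hr.one_lt.le t X hX heq 1
  have hs : ∀ j, ∃ b : ℂ, ∀ᵐ w ∂lam, G' j w = b • 1 := by
    intro j
    obtain ⟨h1, h2, h3⟩ := hG3 j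
    rcases h3 with h3 | ⟨θ, h3, h4⟩
    · refine ⟨0, ?_⟩
      filter_upwards [h3] with w hw
      rw [hw, zero_smul]
    · have h5 : θ = 1 := by
        rw [one_pow, mul_one] at h4
        exact hc.torsion θ r hr.one_lt.le h4
      have h6 : η j ^ d = 1 := by rw [h3, h5, ch_one_left]
      have h7 : η j ^ r = 1 := by rw [h1, ch_one_left, map_one]
      have h8 : η j = 1 := by
        have := pow_gcd_eq_one.2 ⟨h6, h7⟩
        rwa [hcop, pow_one] at this
      rw [h8] at h2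
      exact hI _ h2
  choose b hb using hs
  set a : ℂ := ∑ j, b j with ha
  have hGa : ∀ᵐ w ∂lam, G₁ w = a • 1 := by
    filter_upwards [hG2, ae_all_iff.2 hb] with w h1 h2
    rw [h1, ha, Finset.sum_smul]
    exact Finset.sum_congr rfl fun j _ => h2 j
  -- the integrals against the powers
  have hint : ∀ (i j : Fin d) (h : W → ℂ), BM h →
      ∫ ω, X ω i j * h (t * ω ^ r) ∂lam =
        a * (1 : Matrix (Fin d) (Fin d) ℂ) i j * ∫ w, h w ∂lam := by
    intro i j h hh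
    have e1 := hG1 i j h hh
    have e2 : ∫ ω, (conj (ch (1 : PontryaginDual W) ω) * X ω i j) * h (t * ω ^ r) ∂lam =
        ∫ ω, X ω i j * h (t * ω ^ r) ∂lam := by
      refine integral_congr_ae (Eventually.of_forall fun ω => ?_)
      show (conj (ch (1 : PontryaginDual W) ω) * X ω i j) * h (t * ω ^ r) =
        X ω i j * h (t * ω ^ r)
      rw [ch_one_left, map_one, one_mul]
    rw [← e2, e1, ← integral_const_mul]
    refine integral_congr_ae ?_
    filter_upwards [hGa] with w hw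
    rw [hw, Matrix.smul_apply, smul_eq_mul]
  -- all the coefficients
  have hcoef : ∀ (i j : Fin d) (ψ : PontryaginDual W), ψ ≠ 1 →
      ∫ ω, X ω i j * conj (ch ψ ω) ∂lam = 0 := by
    intro i j ψ hψ
    by_cases hp : ∃ χ : PontryaginDual W, ψ = χ ^ r
    · obtain ⟨χ, rfl⟩ := hp
      have hχ : χ ≠ 1 := fun h => hψ (by rw [h, one_pow])
      have e1 := hint i j (fun w => conj (ch χ w)) (bm_ch χ).conj
      have e2 : ∫ w, conj (ch χ w) ∂lam = 0 := by
        rw [integral_conj, int_ch lam χ hχ, map_zero]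
      rw [e2, mul_zero] at e1
      have e3 : ∀ ω : W, X ω i j * conj (ch (χ ^ r) ω) =
          ch χ t * (X ω i j * conj (ch χ (t * ω ^ r))) := by
        intro ω
        rw [ch_mul_right, map_mul, ch_pow_left, ch_pow_right]
        have := ch_mul_conj χ t
        linear_combination (-(X ω i j * conj (ch χ ω ^ r))) * this
      simp_rw [e3]
      rw [integral_const_mul, e1, mul_zero]
    · obtain ⟨G, η', G'', h1, h2, h3⟩ := td_decomp lam hc hd hΦ hI r hr.one_lt.le t X hX heq ψ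
      have h4 : ∀ j, ∀ᵐ w ∂lam, G'' j w = 0 := by
        intro j
        rcases (h3 j).2.2 with h | ⟨θ, -, hθ⟩
        · exact h
        · exfalso
          apply hp
          have hb := Nat.gcd_eq_gcd_ab d r
          rw [hcop] at hb
          refine ⟨θ ^ (-(Nat.gcdA d r)) * ψ ^ (Nat.gcdB d r), ?_⟩
          have h5 : ψ ^ d = (θ ^ r)⁻¹ := (inv_eq_of_mul_eq_one_right hθ).symm
          have h6 : ψ = ψ ^ (((d : ℤ) * Nat.gcdA d r) + (r : ℤ) * Nat.gcdB d r) := by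
            rw [← hb]
            simp
          calc ψ = ψ ^ (((d : ℤ) * Nat.gcdA d r) + (r : ℤ) * Nat.gcdB d r) := h6
            _ = (ψ ^ d) ^ (Nat.gcdA d r) * (ψ ^ (Nat.gcdB d r)) ^ r := by
              rw [zpow_add, zpow_mul, zpow_natCast, mul_comm (r : ℤ), zpow_mul, zpow_natCast]
            _ = (θ ^ (-(Nat.gcdA d r))) ^ r * (ψ ^ (Nat.gcdB d r)) ^ r := by
              rw [h5]
              congr 1
              rw [inv_zpow, ← zpow_natCast θ r, ← zpow_mul, ← zpow_natCast (θ ^ _) r, ← zpow_mul,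
                ← zpow_neg, mul_comm, neg_mul]
            _ = (θ ^ (-(Nat.gcdA d r)) * ψ ^ (Nat.gcdB d r)) ^ r := (mul_pow _ _ _).symm
      have h5 : ∀ᵐ w ∂lam, G w = 0 := by
        filter_upwards [h2, ae_all_iff.2 h4] with w hw1 hw2
        rw [hw1]
        exact Finset.sum_eq_zero fun j _ => hw2 j
      have e1 := h1 i j (fun _ => 1) (BM.const 1)
      have e2 : ∫ w, G w i j * (1 : ℂ) ∂lam = 0 := by
        have : ∫ w, G w i j * (1 : ℂ) ∂lam = ∫ _w : W, (0 : ℂ) ∂lam := by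
          refine integral_congr_ae ?_
          filter_upwards [h5] with w hw
          rw [hw, Matrix.zero_apply, zero_mul]
        rw [this, integral_zero]
      rw [e2] at e1
      rw [← e1]
      refine integral_congr_ae (Eventually.of_forall fun ω => ?_)
      show X ω i j * conj (ch ψ ω) = (conj (ch ψ ω) * X ω i j) * 1
      ring
  refine ⟨a, ?_⟩
  have hentry : ∀ i j : Fin d, ∀ᵐ ω ∂lam,
      X ω i j - a * (1 : Matrix (Fin d) (Fin d) ℂ) i j = 0 := by
    intro i j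
    refine fourier_zero lam (fun ω => X ω i j - a * (1 : Matrix (Fin d) (Fin d) ℂ) i j)
      ((hX i j).sub (BM.const _)) fun ψ => ?_
    have e0 : ∀ ω : W, (X ω i j - a * (1 : Matrix (Fin d) (Fin d) ℂ) i j) * conj (ch ψ ω) =
        X ω i j * conj (ch ψ ω) - (a * (1 : Matrix (Fin d) (Fin d) ℂ) i j) * conj (ch ψ ω) :=
      fun ω => sub_mul _ _ _
    simp_rw [e0]
    rw [integral_sub ((hX i j).mul (bm_ch ψ).conj).integrable
      ((BM.const _).mul (bm_ch ψ).conj).integrable, integral_const_mul]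
    by_cases hψ : ψ = 1
    · subst hψ
      have e1 := hint i j (fun _ => 1) (BM.const 1)
      have e2 : ∫ ω, X ω i j * conj (ch (1 : PontryaginDual W) ω) ∂lam =
          ∫ ω, X ω i j * (1 : ℂ) ∂lam := by
        refine integral_congr_ae (Eventually.of_forall fun ω => ?_)
        show X ω i j * conj (ch (1 : PontryaginDual W) ω) = X ω i j * 1
        rw [ch_one_left, map_one]
      have e3 : ∫ ω, conj (ch (1 : PontryaginDual W) ω) ∂lam = ∫ _ω : W, (1 : ℂ) ∂lam := by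
        refine integral_congr_ae (Eventually.of_forall fun ω => ?_)
        show conj (ch (1 : PontryaginDual W) ω) = 1
        rw [ch_one_left, map_one]
      rw [e2, e1, e3, sub_self]
    · rw [hcoef i j ψ hψ]
      have e2 : ∫ w, conj (ch ψ w) ∂lam = 0 := by
        rw [integral_conj, int_ch lam ψ hψ, map_zero]
      rw [e2, mul_zero, sub_zero]
  filter_upwards [ae_all_iff.2 fun i => ae_all_iff.2 (hentry i)] with ω hω
  ext i j
  rw [Matrix.smul_apply, smul_eq_mul]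
  exact sub_eq_zero.1 (hω i j)

end Pool.Agent.Lib.H82OH
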