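import Pool.Agent.Lib.H82OH.FB
import Pool.Agent.Lib.H82OH.FC
import Pool.Agent.Lib.H82OH.TD

/-!
# Project H82OH, chunk FE: autocorrelations of the iterated lifts
-/

open MeasureTheory Filter Topology Finset
open scoped ComplexConjugate Matrix

namespace Pool.Agent.Lib.H82OH

open Pool.Agent.Lib.H22M Pool.Agent.Lib.H82T Pool.Agent.Lib.H82OT Pool.Agent.Lib.H82OF

variable {W : Type*} [CommGroup W] [TopologicalSpace W] [IsTopologicalGroup W] [CompactSpace W]
  [T2Space W] [SecondCountableTopology W] [MeasurableSpace W] [BorelSpace W]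

private theorem fe_trace {d : ℕ} (C D G G' : Matrix (Fin d) (Fin d) ℂ) (i j : Fin d) :
    Matrix.trace ((Matrix.of fun a b : Fin d => if a = i ∧ b = i then (1 : ℂ) else 0)ᴴ *
      (C * (Matrix.of fun a b : Fin d => G' a j * conj (G b j)) * Dᴴ)) =
      (C * G') i j * conj ((D * G) i j) := by
  have h1 : ∀ M : Matrix (Fin d) (Fin d) ℂ,
      Matrix.trace ((Matrix.of fun a b : Fin d => if a = i ∧ b = i then (1 : ℂ) else 0)ᴴ * M) =
        M i i := by
    intro M
    simp only [Matrix.trace, Matrix.diag_apply, Matrix.mul_apply, Matrix.conjTranspose_apply,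
      Matrix.of_apply]
    rw [Finset.sum_eq_single i, Finset.sum_eq_single i]
    · simp
    · intro b _ hb
      simp [hb]
    · simp
    · intro b _ hb
      refine Finset.sum_eq_zero fun a _ => ?_
      simp [hb]
    · simp
  rw [h1]
  simp only [Matrix.mul_apply, Matrix.conjTranspose_apply, Matrix.of_apply, map_sum, map_mul]
  rw [Finset.mul_sum]
  refine Finset.sum_congr rfl fun b _ => ?_
  rw [Finset.sum_mul, Finset.sum_mul]
  refine Finset.sum_congr rfl fun a _ => ?_
  show C i a * (G' a j * conj (G b j)) * conj (D i b) = _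
  ring

private theorem fe_bound {d : ℕ} {C : W → Matrix (Fin d) (Fin d) ℂ} (hC : UC C)
    {Γ : W → Matrix (Fin d) (Fin d) ℂ} {B : ℝ} (hB : ∀ a b w, ‖Γ w a b‖ ≤ B) (i j : Fin d) (w : W) :
    ‖(C w * Γ w) i j‖ ≤ d * B := by
  rw [Matrix.mul_apply]
  refine (norm_sum_le _ _).trans ?_
  have h1 : ∀ a ∈ (Finset.univ : Finset (Fin d)), ‖C w i a * Γ w a j‖ ≤ B := by
    intro a _
    rw [norm_mul]
    calc ‖C w i a‖ * ‖Γ w a j‖ ≤ 1 * B :=
          mul_le_mul (unit_entry (hC.right w) i a) (hB a j w) (norm_nonneg _) zero_le_one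
      _ = B := one_mul B
  refine (Finset.sum_le_card_nsmul _ _ _ h1).trans ?_
  rw [Finset.card_univ, Fintype.card_fin, nsmul_eq_mul]

/-- Proof. For `β' ∉ LG`, i.e. for a.e. `β'`: `twisted_wiener` (FB) with `β = β₀`, `A = γ₀(β' ·)`, `B = γ₀` (`no_eig`, FC, gives
`hne`), `Y(w)_ab = Γ(β' w)_aj conj Γ(w)_bj`, `Z` the constant matrix with the only entry `1` at `(i, i)`. With
`cc β₀ A k w = cc β₀ γ₀ k (β' w)` (`cc_shift`, TD) the trace is
`∑_ab cc(β' w)_ia Y_ab conj cc(w)_ib = (cc β₀ γ₀ k (β' w) * Γ(β' w))_ij conj((cc β₀ γ₀ k w * Γ w)_ij)`. So the averages over `k < K` tend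
to `0` for a.e. `β'`; they are bounded and measurable in `β'` (Fubini), so their integrals tend to `0` (dominated convergence). -/
theorem avg_lift (lam : Measure W) [lam.IsHaarMeasure] [IsProbabilityMeasure lam] {c : W}
    {d : ℕ} (hd : 0 < d) {Φ : W → Matrix (Fin d) (Fin d) ℂ} (hΦ : UC Φ)
    (hI : Ic lam c Φ) (hLG : lam (LG lam c Φ) = 0) {β₀ : W}
    (hβ₀ : Ergodic (fun w => β₀ * w) lam) {κ₀ : ℂ} {γ₀ : W → Matrix (Fin d) (Fin d) ℂ}
    (hγ₀ : UL lam c Φ β₀ κ₀ γ₀) (huc : UC γ₀) (Γ : W → Matrix (Fin d) (Fin d) ℂ) (hΓ : BMM Γ)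
    (i j : Fin d) :
    Tendsto (fun K : ℕ => (∑ k ∈ range K, ∫ β', ‖∫ w,
      (cc β₀ γ₀ k (β' * w) * Γ (β' * w)) i j * conj ((cc β₀ γ₀ k w * Γ w) i j) ∂lam‖ ^ 2 ∂lam) / K)
      atTop (𝓝 0) := by
  classical
  -- a bound for `Γ`
  obtain ⟨B, hB0, hB⟩ : ∃ B : ℝ, 0 ≤ B ∧ ∀ a b w, ‖Γ w a b‖ ≤ B := by
    choose C hC using fun a b => (hΓ a b).2
    refine ⟨∑ a, ∑ b, |C a b|, Finset.sum_nonneg fun a _ => Finset.sum_nonneg fun b _ =>
      abs_nonneg _, fun a b w => (hC a b w).trans ((le_abs_self _).trans ?_)⟩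
    calc |C a b| ≤ ∑ b, |C a b| :=
          Finset.single_le_sum (f := fun b => |C a b|) (fun b _ => abs_nonneg _)
            (Finset.mem_univ b)
      _ ≤ ∑ a, ∑ b, |C a b| :=
          Finset.single_le_sum (f := fun a => ∑ b, |C a b|)
            (fun a _ => Finset.sum_nonneg fun b _ => abs_nonneg _) (Finset.mem_univ a)
  -- the entries
  obtain ⟨h, hh⟩ : ∃ h : ℕ → W → ℂ, h = fun k w => (cc β₀ γ₀ k w * Γ w) i j := ⟨_, rfl⟩
  have hbm : ∀ k, BM (h k) := fun k => by
    rw [hh]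
    exact ((huc.cc β₀ k).bm.mul hΓ) i j
  have hbd : ∀ k w, ‖h k w‖ ≤ d * B := fun k w => by
    rw [hh]
    exact fe_bound (huc.cc β₀ k) hB i j w
  have hD0 : 0 ≤ (d : ℝ) * B := by positivity
  obtain ⟨F, hF⟩ : ∃ F : ℕ → W → ℝ,
      F = fun k β' => ‖∫ w, h k (β' * w) * conj (h k w) ∂lam‖ ^ 2 := ⟨_, rfl⟩
  have hFbd : ∀ k β', ‖F k β'‖ ≤ ((d * B) * (d * B)) ^ 2 := by
    intro k β'
    rw [hF]
    show ‖‖∫ w, h k (β' * w) * conj (h k w) ∂lam‖ ^ 2‖ ≤ _
    rw [Real.norm_of_nonneg (by positivity)]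
    refine pow_le_pow_left₀ (norm_nonneg _) ?_ 2
    have h1 := norm_integral_le_of_norm_le_const (μ := lam) (C := (d * B) * (d * B))
      (f := fun w => h k (β' * w) * conj (h k w)) (Eventually.of_forall fun w => by
        rw [norm_mul, RCLike.norm_conj]
        exact mul_le_mul (hbd k _) (hbd k w) (norm_nonneg _) hD0)
    simpa using h1
  have hFm : ∀ k, AEStronglyMeasurable (F k) lam := by
    intro k
    rw [hF]
    have h1 : StronglyMeasurable fun p : W × W => h k (p.1 * p.2) * conj (h k p.2) := by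
      refine Measurable.stronglyMeasurable ?_
      exact ((hbm k).1.comp measurable_mul).mul
        (Complex.continuous_conj.measurable.comp ((hbm k).1.comp measurable_snd))
    exact ((h1.integral_prod_right (ν := lam)).norm.pow 2).aestronglyMeasurable
  have hFi : ∀ k, Integrable (F k) lam := fun k =>
    Integrable.of_bound (hFm k) _ (Eventually.of_forall (hFbd k))
  -- almost every `β'`
  have hae : ∀ᵐ β' ∂lam, Tendsto (fun K : ℕ => (∑ k ∈ range K, F k β') / K) atTop (𝓝 0) := by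
    have h0 : ∀ᵐ β' ∂lam, β' ∉ LG lam c Φ := measure_eq_zero_iff_ae_notMem.1 hLG
    filter_upwards [h0] with β' hβ'
    have h1 := twisted_wiener lam hβ₀ (huc.shift β') huc
      (fun X z hz hX => no_eig lam hd hΦ hI hβ₀ hγ₀ huc hβ' z hz X hX)
      (fun w => Matrix.of fun a b => Γ (β' * w) a j * conj (Γ w b j))
      (fun _ => Matrix.of fun a b : Fin d => if a = i ∧ b = i then (1 : ℂ) else 0)
      (fun a b => ((hΓ a j).comp (measurable_const_mul β')).mul (hΓ b j).conj)
      (fun a b => BM.const _)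
    refine h1.congr fun K => ?_
    congr 1
    refine Finset.sum_congr rfl fun k _ => ?_
    rw [hF]
    show ‖_‖ ^ 2 = ‖∫ w, h k (β' * w) * conj (h k w) ∂lam‖ ^ 2
    congr 2
    refine integral_congr_ae (Eventually.of_forall fun w => ?_)
    show Matrix.trace ((Matrix.of fun a b : Fin d => if a = i ∧ b = i then (1 : ℂ) else 0)ᴴ *
      (cc β₀ (fun w => γ₀ (β' * w)) k w *
        (Matrix.of fun a b : Fin d => Γ (β' * w) a j * conj (Γ w b j)) *
          (cc β₀ γ₀ k w)ᴴ)) = h k (β' * w) * conj (h k w)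
    rw [cc_shift, fe_trace, hh]
  have hlim : Tendsto (fun K : ℕ => ∫ β', (∑ k ∈ range K, F k β') / K ∂lam) atTop
      (𝓝 (∫ _β' : W, (0 : ℝ) ∂lam)) := by
    refine tendsto_integral_of_dominated_convergence (fun _ => ((d * B) * (d * B)) ^ 2) ?_
      (integrable_const _) ?_ hae
    · intro K
      have h2 : AEStronglyMeasurable (fun β' => ∑ k ∈ range K, F k β') lam :=
        Finset.aestronglyMeasurable_fun_sum (range K) (fun k _ => hFm k)
      simp_rw [div_eq_mul_inv]
      exact h2.mul aestronglyMeasurable_const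
    · intro K
      refine Eventually.of_forall fun β' => ?_
      rcases Nat.eq_zero_or_pos K with hK | hK
      · subst hK
        simp only [Finset.range_zero, Finset.sum_empty, zero_div, norm_zero]
        positivity
      · have hK' : (0 : ℝ) < K := by exact_mod_cast hK
        rw [norm_div, Real.norm_natCast, div_le_iff₀ hK']
        refine (norm_sum_le _ _).trans ?_
        refine (Finset.sum_le_card_nsmul _ _ _ (fun k _ => hFbd k β')).trans ?_
        rw [Finset.card_range, nsmul_eq_mul, mul_comm]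
  rw [integral_zero] at hlim
  refine hlim.congr fun K => ?_
  rw [integral_div, integral_finsetSum _ (fun k _ => hFi k)]
  congr 1
  refine Finset.sum_congr rfl fun k _ => ?_
  rw [hF, hh]

end Pool.Agent.Lib.H82OH
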