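import Pool.Agent.Lib.H82OH.BB

/-!
# Project H82OH, chunk FF: fourth powers of Fourier coefficients
-/

open MeasureTheory Filter Topology Finset
open scoped ComplexConjugate Matrix

namespace Pool.Agent.Lib.H82OH

open Pool.Agent.Lib.H22M Pool.Agent.Lib.H82T Pool.Agent.Lib.H82OT Pool.Agent.Lib.H82OF

variable {W : Type*} [CommGroup W] [TopologicalSpace W] [IsTopologicalGroup W] [CompactSpace W]
  [T2Space W] [SecondCountableTopology W] [MeasurableSpace W] [BorelSpace W]

private theorem ff_bm_two (f : W → ℂ) (hf : BM f) :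
    BM fun x : W × W => f (x.1 * x.2) * conj (f x.2) :=
  (hf.comp (measurable_fst.mul measurable_snd)).mul (hf.comp measurable_snd).conj

private theorem ff_bm_A (lam : Measure W) [IsProbabilityMeasure lam] (f : W → ℂ) (hf : BM f) :
    BM fun β' : W => ∫ w, f (β' * w) * conj (f w) ∂lam := by
  obtain ⟨h1, C, hC⟩ := ff_bm_two f hf
  refine ⟨?_, C, fun β' => ?_⟩
  · exact (h1.stronglyMeasurable.integral_prod_right (ν := lam)).measurable
  · have h2 := norm_integral_le_of_norm_le_const (μ := lam)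
      (f := fun w => f (β' * w) * conj (f w)) (C := C)
      (Eventually.of_forall fun w => hC (β', w))
    rwa [probReal_univ, mul_one] at h2

private theorem ff_sq (lam : Measure W) [IsProbabilityMeasure lam] (g : W → ℂ) (hg : BM g) :
    (∫ w, ‖g w‖ ∂lam) ^ 2 ≤ ∫ w, ‖g w‖ ^ 2 ∂lam := by
  have h1 : Integrable (fun w => ‖g w‖) lam := hg.integrable.norm
  have h2 : Integrable (fun w => ‖g w‖ ^ 2) lam := by
    obtain ⟨h1, C, hC⟩ := hg
    refine Integrable.of_bound (h1.norm.pow_const 2).aestronglyMeasurable (C ^ 2)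
      (Eventually.of_forall fun w => ?_)
    rw [Real.norm_of_nonneg (by positivity)]
    exact pow_le_pow_left₀ (norm_nonneg _) (hC w) 2
  set c : ℝ := ∫ w, ‖g w‖ ∂lam with hc
  have h3 : 0 ≤ ∫ w, (‖g w‖ - c) ^ 2 ∂lam := integral_nonneg fun w => sq_nonneg _
  have h4 : ∫ w, (‖g w‖ - c) ^ 2 ∂lam = ∫ w, ‖g w‖ ^ 2 ∂lam - c ^ 2 := by
    have h5 : ∀ w, (‖g w‖ - c) ^ 2 = (‖g w‖ ^ 2 - 2 * c * ‖g w‖) + c ^ 2 := fun w => by ring
    simp_rw [h5]
    have h6 : Integrable (fun w => 2 * c * ‖g w‖) lam := h1.const_mul _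
    have h7 : Integrable (fun w => ‖g w‖ ^ 2 - 2 * c * ‖g w‖) lam := h2.sub h6
    rw [integral_add h7 (integrable_const _),
      integral_sub h2 h6, integral_const_mul, integral_const, probReal_univ, ← hc,
      one_smul]
    ring
  linarith

private theorem ff_inner (lam : Measure W) [lam.IsHaarMeasure] [IsProbabilityMeasure lam]
    (f : W → ℂ) (χ : PontryaginDual W) (w : W) :
    ∫ β', f (β' * w) * conj (ch χ β') ∂lam = ch χ w * ∫ v, f v * conj (ch χ v) ∂lam := by
  rw [← integral_mul_right_eq_self (μ := lam) (fun v => f v * conj (ch χ v)) w,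
    ← integral_const_mul]
  refine integral_congr_ae (Eventually.of_forall fun v => ?_)
  show f (v * w) * conj (ch χ v) = ch χ w * (f (v * w) * conj (ch χ (v * w)))
  rw [ch_mul_right, map_mul]
  have h := ch_mul_conj χ w
  calc f (v * w) * conj (ch χ v) = f (v * w) * conj (ch χ v) * (ch χ w * conj (ch χ w)) := by
        rw [h, mul_one]
    _ = _ := by ring

/-- Proof. `A(β') = ∫ f(β' w) conj f(w) dw`, bounded and measurable. By Fubini and the substitution `w' = β' w`:
`∫ A(β') conj χ(β') dβ' = ∫ conj f(w) (∫ f(β' w) conj χ(β') dβ') dw = ∫ conj f(w) χ(w) a dw = |a|²`, `a = ∫ f conj χ`. So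
`|a|² ≤ (∫ |A|²)^(1/2)`. -/
theorem coef_four (lam : Measure W) [lam.IsHaarMeasure] [IsProbabilityMeasure lam]
    (f : W → ℂ) (hf : BM f) (χ : PontryaginDual W) :
    ‖∫ w, f w * conj (ch χ w) ∂lam‖ ^ 4 ≤
      ∫ β', ‖∫ w, f (β' * w) * conj (f w) ∂lam‖ ^ 2 ∂lam := by
  set a : ℂ := ∫ w, f w * conj (ch χ w) ∂lam with ha
  have hA := ff_bm_A lam f hf
  have hF : BM fun x : W × W => f (x.1 * x.2) * conj (f x.2) * conj (ch χ x.1) :=
    (ff_bm_two f hf).mul ((bm_ch χ).conj.comp measurable_fst)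
  have h1 : ∫ β', (∫ w, f (β' * w) * conj (f w) ∂lam) * conj (ch χ β') ∂lam = a * conj a := by
    have h2 : ∀ β' : W, (∫ w, f (β' * w) * conj (f w) ∂lam) * conj (ch χ β') =
        ∫ w, f (β' * w) * conj (f w) * conj (ch χ β') ∂lam := fun β' =>
      (integral_mul_const _ _).symm
    simp_rw [h2]
    rw [integral_integral_swap (f := fun β' w => f (β' * w) * conj (f w) * conj (ch χ β'))
      (hF.integrable (m := lam.prod lam))]
    have h3 : ∀ w : W, ∫ β', f (β' * w) * conj (f w) * conj (ch χ β') ∂lam =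
        a * conj (f w * conj (ch χ w)) := by
      intro w
      have h4 : ∀ β' : W, f (β' * w) * conj (f w) * conj (ch χ β') =
          conj (f w) * (f (β' * w) * conj (ch χ β')) := fun β' => by ring
      simp_rw [h4]
      rw [integral_const_mul, ff_inner, ← ha, map_mul, Complex.conj_conj]
      ring
    simp_rw [h3]
    rw [integral_const_mul, integral_conj, ← ha]
  have h5 : ‖a‖ ^ 2 ≤ ∫ β', ‖∫ w, f (β' * w) * conj (f w) ∂lam‖ ∂lam := by
    have h6 : ‖a * conj a‖ = ‖a‖ ^ 2 := by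
      rw [norm_mul, RCLike.norm_conj]
      ring
    rw [← h6, ← h1]
    refine (norm_integral_le_integral_norm _).trans (le_of_eq ?_)
    refine integral_congr_ae (Eventually.of_forall fun β' => ?_)
    show ‖(∫ w, f (β' * w) * conj (f w) ∂lam) * conj (ch χ β')‖ = _
    rw [norm_mul, RCLike.norm_conj, norm_ch, mul_one]
  have h7 := ff_sq lam _ hA
  have h8 : (‖a‖ ^ 2) ^ 2 ≤ (∫ β', ‖∫ w, f (β' * w) * conj (f w) ∂lam‖ ∂lam) ^ 2 :=
    pow_le_pow_left₀ (by positivity) h5 2
  calc ‖a‖ ^ 4 = (‖a‖ ^ 2) ^ 2 := by ring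
    _ ≤ _ := h8.trans h7

end Pool.Agent.Lib.H82OH
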