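import Pool.Agent.Lib.H82OH.LA

/-!
# Project H82OH, chunk LB: the function MM
-/

open MeasureTheory Filter Topology Finset
open scoped ComplexConjugate Matrix

namespace Pool.Agent.Lib.H82OH

open Pool.Agent.Lib.H22M Pool.Agent.Lib.H82T Pool.Agent.Lib.H82OT Pool.Agent.Lib.H82OF

variable {W : Type*} [CommGroup W] [TopologicalSpace W] [IsTopologicalGroup W] [CompactSpace W]
  [T2Space W] [SecondCountableTopology W] [MeasurableSpace W] [BorelSpace W]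

private theorem lb_le_one {lam : Measure W} [IsProbabilityMeasure lam] {c : W} {d : ℕ}
    {Φ : W → Matrix (Fin d) (Fin d) ℂ} {β : W} {κ : ℂ} {γ : W → Matrix (Fin d) (Fin d) ℂ}
    (h : UL lam c Φ β κ γ) (i j : Fin d) : ‖∫ w, γ w i j ∂lam‖ ≤ 1 := by
  have h1 : ‖∫ w, γ w i j ∂lam‖ ≤ 1 * lam.real Set.univ := by
    refine norm_integral_le_of_norm_le_const ?_
    filter_upwards [h.right] with w hw
    exact unit_entry hw i j
  simpa using h1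

private theorem lb_bdd (lam : Measure W) [IsProbabilityMeasure lam] (c : W) {d : ℕ}
    (Φ : W → Matrix (Fin d) (Fin d) ℂ) (β : W) :
    BddAbove {x : ℝ | ∃ (κ : ℂ) (γ : W → Matrix (Fin d) (Fin d) ℂ) (i j : Fin d),
      UL lam c Φ β κ γ ∧ x = ‖∫ w, γ w i j ∂lam‖} := by
  refine ⟨1, ?_⟩
  rintro x ⟨κ, γ, i, j, h, rfl⟩
  exact lb_le_one h i j

private theorem lb_zero {lam : Measure W} {c : W} {d : ℕ} {Φ : W → Matrix (Fin d) (Fin d) ℂ}
    {β : W} (h : β ∉ LG lam c Φ) : MM lam c Φ β = 0 := by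
  have h1 : {x : ℝ | ∃ (κ : ℂ) (γ : W → Matrix (Fin d) (Fin d) ℂ) (i j : Fin d),
      UL lam c Φ β κ γ ∧ x = ‖∫ w, γ w i j ∂lam‖} = ∅ := by
    rw [Set.eq_empty_iff_forall_notMem]
    rintro x ⟨κ, γ, i, j, h2, _⟩
    exact h ⟨κ, γ, h2⟩
  unfold MM
  rw [h1, Real.sSup_empty]

/-- A positive value of `MM` is approximated. -/
private theorem lb_exists {lam : Measure W} {c : W} {d : ℕ} {Φ : W → Matrix (Fin d) (Fin d) ℂ}
    {β : W} {y : ℝ} (hy : 0 ≤ y) (h : y < MM lam c Φ β) :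
    ∃ (κ : ℂ) (γ : W → Matrix (Fin d) (Fin d) ℂ) (i j : Fin d),
      UL lam c Φ β κ γ ∧ y < ‖∫ w, γ w i j ∂lam‖ := by
  have hne : {x : ℝ | ∃ (κ : ℂ) (γ : W → Matrix (Fin d) (Fin d) ℂ) (i j : Fin d),
      UL lam c Φ β κ γ ∧ x = ‖∫ w, γ w i j ∂lam‖}.Nonempty := by
    by_contra hcon
    rw [Set.not_nonempty_iff_eq_empty] at hcon
    unfold MM at h
    rw [hcon, Real.sSup_empty] at h
    exact absurd h (not_lt.2 hy)
  obtain ⟨x, ⟨κ, γ, i, j, h1, h2⟩, h3⟩ := exists_lt_of_lt_csSup hne h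
  exact ⟨κ, γ, i, j, h1, h2 ▸ h3⟩

/-- Proof. The entries of a unitary matrix are bounded by `1`, so the set in the definition of `MM` is bounded
above by `1`: `le_csSup`. -/
theorem norm_int_le_mm {lam : Measure W} [IsProbabilityMeasure lam] {c : W} {d : ℕ}
    {Φ : W → Matrix (Fin d) (Fin d) ℂ} {β : W} {κ : ℂ} {γ : W → Matrix (Fin d) (Fin d) ℂ}
    (h : UL lam c Φ β κ γ) (i j : Fin d) : ‖∫ w, γ w i j ∂lam‖ ≤ MM lam c Φ β :=
  le_csSup (lb_bdd lam c Φ β) ⟨κ, γ, i, j, h, rfl⟩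

theorem mm_nonneg (lam : Measure W) (c : W) {d : ℕ} (Φ : W → Matrix (Fin d) (Fin d) ℂ)
    (β : W) : 0 ≤ MM lam c Φ β := by
  refine Real.sSup_nonneg ?_
  rintro x ⟨κ, γ, i, j, h, rfl⟩
  exact norm_nonneg _

theorem mm_le_one (lam : Measure W) [IsProbabilityMeasure lam] (c : W) {d : ℕ}
    (Φ : W → Matrix (Fin d) (Fin d) ℂ) (β : W) : MM lam c Φ β ≤ 1 := by
  refine Real.sSup_le ?_ zero_le_one
  rintro x ⟨κ, γ, i, j, h, rfl⟩
  exact lb_le_one h i j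

/-- Proof. If `β` has a unitary lift `γ`, then `γ` is not a.e. `0` (`0 < d`), so `∫ γ_ij conj χ ≠ 0` for a character
(`fourier_mat`, BB), and `χ⁻¹ γ` is a unitary lift (`UL.char`). Conversely `sSup ∅ = 0`. -/
theorem mm_pos_iff (lam : Measure W) [lam.IsHaarMeasure] [IsProbabilityMeasure lam] {c : W}
    {d : ℕ} (hd : 0 < d) (Φ : W → Matrix (Fin d) (Fin d) ℂ) (β : W) :
    0 < MM lam c Φ β ↔ β ∈ LG lam c Φ := by
  constructor
  · intro h
    by_contra hcon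
    rw [lb_zero hcon] at h
    exact lt_irrefl _ h
  · rintro ⟨κ, γ, h⟩
    have h0 : ¬ ∀ᵐ w ∂lam, γ w = 0 := by
      intro hz
      obtain ⟨w, hw1, hw2⟩ := (hz.and h.left).exists
      rw [hw1, Matrix.mul_zero] at hw2
      have h1 := congrFun (congrFun hw2 ⟨0, hd⟩) ⟨0, hd⟩
      rw [Matrix.zero_apply, Matrix.one_apply_eq] at h1
      exact zero_ne_one h1
    obtain ⟨χ, i, j, hχ⟩ := fourier_mat lam γ h.bm h0
    have h2 := norm_int_le_mm (h.char χ⁻¹ 1 norm_one) i j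
    refine lt_of_lt_of_le ?_ h2
    have h3 : ∫ w, ((1 * ch χ⁻¹ w) • γ w) i j ∂lam = ∫ w, γ w i j * conj (ch χ w) ∂lam := by
      refine integral_congr_ae (Eventually.of_forall fun w => ?_)
      show ((1 * ch χ⁻¹ w) • γ w) i j = γ w i j * conj (ch χ w)
      rw [Matrix.smul_apply, smul_eq_mul, one_mul, ch_inv_left, mul_comm]
    rw [h3]
    exact norm_pos_iff.2 hχ

/-- `MM` is upper semicontinuous. Proof. Let `0 < y < x`. For `𝒰`-almost all `i` there are a unitary lift `γ_i` of `β_i`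
and `k, l` with `y < ‖∫ (γ_i)_kl‖` (`exists_lt_of_lt_csSup`); `k, l` may be taken independent of `i` (finitely many
classes, one of them in `𝒰`). Let `G_kl` be the weak limits (`exists_wlim`, BD; put `γ_i = 0` for the other `i`), `lim_lift`:
`‖∫ G_kl‖ ≥ y > 0`, so `s > 0`, and `s⁻¹ • G` is a unitary lift of `β₀` with `‖∫ s⁻¹ G_kl‖ ≥ y`. So `y ≤ MM β₀`
(`norm_int_le_mm`). -/
theorem mm_usc (lam : Measure W) [lam.IsHaarMeasure] [IsProbabilityMeasure lam] {c : W}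
    {d : ℕ} (hd : 0 < d) {Φ : W → Matrix (Fin d) (Fin d) ℂ} (hΦ : UC Φ)
    (hI : Ic lam c Φ) {I : Type*} (𝒰 : Ultrafilter I) (β : I → W) (β₀ : W)
    (hβ : Tendsto β 𝒰 (𝓝 β₀)) (x : ℝ) (hx0 : 0 < x)
    (hx : ∀ᶠ i in (𝒰 : Filter I), x ≤ MM lam c Φ (β i)) : x ≤ MM lam c Φ β₀ := by
  classical
  refine le_of_forall_pos_lt_add fun ε hε => ?_
  obtain ⟨y, hy0, hyx, hyε⟩ : ∃ y : ℝ, 0 < y ∧ y < x ∧ x < y + ε := by
    refine ⟨max (x / 2) (x - ε / 2), lt_max_of_lt_left (by linarith),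
      max_lt (by linarith) (by linarith), ?_⟩
    have := le_max_right (x / 2) (x - ε / 2)
    linarith
  have hex : ∀ᶠ i in (𝒰 : Filter I), ∃ (k l : Fin d), ∃ (κ : ℂ)
      (γ : W → Matrix (Fin d) (Fin d) ℂ), UL lam c Φ (β i) κ γ ∧ y < ‖∫ w, γ w k l ∂lam‖ := by
    filter_upwards [hx] with i hi
    obtain ⟨κ, γ, k, l, h1, h2⟩ := lb_exists hy0.le (lt_of_lt_of_le hyx hi)
    exact ⟨k, l, κ, γ, h1, h2⟩
  obtain ⟨k, hex⟩ := (Ultrafilter.eventually_exists_iff).1 hex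
  obtain ⟨l, hex⟩ := (Ultrafilter.eventually_exists_iff).1 hex
  have hch : ∀ i, ∃ (κ : ℂ) (γ : W → Matrix (Fin d) (Fin d) ℂ), (BMM γ ∧ ∀ᵐ w ∂lam, ∀ a b, ‖γ w a b‖ ≤ 1) ∧
      ((∃ (κ : ℂ) (γ : W → Matrix (Fin d) (Fin d) ℂ),
        UL lam c Φ (β i) κ γ ∧ y < ‖∫ w, γ w k l ∂lam‖) →
        UL lam c Φ (β i) κ γ ∧ y < ‖∫ w, γ w k l ∂lam‖) := by
    intro i
    by_cases h : ∃ (κ : ℂ) (γ : W → Matrix (Fin d) (Fin d) ℂ),
        UL lam c Φ (β i) κ γ ∧ y < ‖∫ w, γ w k l ∂lam‖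
    · obtain ⟨κ, γ, h1, h2⟩ := h
      refine ⟨κ, γ, ⟨h1.bm, ?_⟩, fun _ => ⟨h1, h2⟩⟩
      filter_upwards [h1.right] with w hw a b
      exact unit_entry hw a b
    · refine ⟨0, fun _ => 0, ⟨fun a b => ?_, ?_⟩, fun h' => absurd h' h⟩
      · exact BM.const 0
      · exact Eventually.of_forall fun w a b => by simp
  choose κ γ hγb hγ using hch
  have hγ' : ∀ᶠ i in (𝒰 : Filter I), UL lam c Φ (β i) (κ i) (γ i) ∧
      y < ‖∫ w, γ i w k l ∂lam‖ := by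
    filter_upwards [hex] with i hi
    exact hγ i hi
  have hwl : ∀ a b : Fin d, ∃ G : W → ℂ, Measurable G ∧ (∀ w, ‖G w‖ ≤ 1) ∧ ∀ h : W → ℂ, BM h →
      Tendsto (fun i => ∫ w, γ i w a b * h w ∂lam) 𝒰 (𝓝 (∫ w, G w * h w ∂lam)) := by
    intro a b
    refine exists_wlim lam 𝒰 (fun i w => γ i w a b) (fun i => ((hγb i).1 a b).1) 1 fun i => ?_
    filter_upwards [(hγb i).2] with w hw
    exact hw a b
  choose G hG1 hG2 hG3 using hwl
  have hGB : BMM (fun w => Matrix.of fun a b => G a b w) := fun a b => ⟨hG1 a b, 1, hG2 a b⟩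
  obtain ⟨s, κ₀, hs0, hs1, hκ, hs2, hsz, hsu⟩ := lim_lift lam hd hΦ hI 𝒰 β β₀ hβ κ γ
    (hγ'.mono fun i hi => hi.1) (fun w => Matrix.of fun a b => G a b w) hGB hG3
  have hlim : Tendsto (fun i => ∫ w, γ i w k l ∂lam) 𝒰 (𝓝 (∫ w, G k l w ∂lam)) := by
    have h1 := hG3 k l (fun _ => 1) (BM.const 1)
    simpa using h1
  have hy : y ≤ ‖∫ w, G k l w ∂lam‖ :=
    ge_of_tendsto hlim.norm (hγ'.mono fun i hi => hi.2.le)
  have hspos : 0 < s := by
    refine lt_of_le_of_ne hs0 fun h0 => ?_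
    have h1 := hsz h0.symm
    have h2 : ∫ w, G k l w ∂lam = 0 := by
      have h3 : ∫ w, G k l w ∂lam = ∫ _ : W, (0 : ℂ) ∂lam := by
        refine integral_congr_ae ?_
        filter_upwards [h1] with w hw
        exact congrFun (congrFun hw k) l
      rw [h3, integral_zero]
    rw [h2, norm_zero] at hy
    linarith
  have h4 := norm_int_le_mm (hsu hspos) k l
  have h5 : ∫ w, (((s : ℂ)⁻¹) • (Matrix.of fun a b => G a b w : Matrix (Fin d) (Fin d) ℂ)) k l ∂lam =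
      (s : ℂ)⁻¹ * ∫ w, G k l w ∂lam := by
    rw [← integral_const_mul]
    rfl
  rw [h5, norm_mul, norm_inv, Complex.norm_real, Real.norm_of_nonneg hs0] at h4
  have h6 : ‖∫ w, G k l w ∂lam‖ ≤ s⁻¹ * ‖∫ w, G k l w ∂lam‖ :=
    le_mul_of_one_le_left (norm_nonneg _) ((one_le_inv₀ hspos).2 hs1)
  linarith

end Pool.Agent.Lib.H82OH
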