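import Pool.Agent.Lib.H82OH.FD
import Pool.Agent.Lib.H82OH.FE
import Pool.Agent.Lib.H82OH.FF
import Pool.Agent.Lib.H82OH.LB

/-!
# Project H82OH, chunk FG: the function MM along the powers of an element of the group
-/

open MeasureTheory Filter Topology Finset
open scoped ComplexConjugate Matrix

namespace Pool.Agent.Lib.H82OH

open Pool.Agent.Lib.H22M Pool.Agent.Lib.H82T Pool.Agent.Lib.H82OT Pool.Agent.Lib.H82OF

variable {W : Type*} [CommGroup W] [TopologicalSpace W] [IsTopologicalGroup W] [CompactSpace W]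
  [T2Space W] [SecondCountableTopology W] [MeasurableSpace W] [BorelSpace W]

/-- Proof. `κ₀, γ₀` a unitary lift of `β₀` with values unitary everywhere (`UL.exists_uc`, TA). `Γ_l, l < L` from `st_finite` (FD). Every
unitary lift `γ` of `β₀^k` is a.e. `(a χ) • (cc β₀ γ₀ k * Γ_l)` with `‖a‖ = 1`: `UL.quot` for `γ` and `cc β₀ γ₀ k` (`UL.pow`) is a unitary
lift of `1`. By `coef_four` (FF; the conjugate of `χ` is the character `χ⁻¹`): `MM (β₀^k)^4 ≤ y_k`, `y_k` = the sum over `l, i, j` of the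
terms of `avg_lift` (FE; `Free.erg`), and `K⁻¹ ∑_{k<K} y_k → 0`. For `0 < δ`: `x ≤ δ + x^4 / δ^3` for `x ≥ 0`, so
`K⁻¹ ∑_{k<K} MM (β₀^k) ≤ δ + δ⁻³ K⁻¹ ∑ y_k`. -/
theorem mm_avg₀ (lam : Measure W) [lam.IsHaarMeasure] [IsProbabilityMeasure lam] {c : W}
    (hc : Free c) {d : ℕ} (hd : 0 < d) {Φ : W → Matrix (Fin d) (Fin d) ℂ} (hΦ : UC Φ)
    (hI : Ic lam c Φ) (hLG : lam (LG lam c Φ) = 0) {β₀ : W} (hβ₀ : Free β₀)
    (h : β₀ ∈ LG lam c Φ) :
    Tendsto (fun K : ℕ => (∑ k ∈ range K, MM lam c Φ (β₀ ^ k)) / K) atTop (𝓝 0) := by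
  obtain ⟨κ₀, γ₁, hγ₁⟩ := h
  obtain ⟨γ₀, huc, hγ₀, -⟩ := hγ₁.exists_uc
  obtain ⟨L, Γ, e, hΓ, hfin⟩ := st_finite lam hc hd hΦ hI
  set T : ℕ → Fin L → Fin d → Fin d → ℝ := fun k l i j => ∫ β', ‖∫ w,
      (cc β₀ γ₀ k (β' * w) * Γ l (β' * w)) i j * conj ((cc β₀ γ₀ k w * Γ l w) i j) ∂lam‖ ^ 2 ∂lam
    with hT
  set y : ℕ → ℝ := fun k => ∑ l, ∑ i, ∑ j, T k l i j with hy
  have hT0 : ∀ k l i j, 0 ≤ T k l i j := fun k l i j => integral_nonneg fun β' => sq_nonneg _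
  have hy0 : ∀ k, 0 ≤ y k := fun k => sum_nonneg fun l _ => sum_nonneg fun i _ =>
    sum_nonneg fun j _ => hT0 k l i j
  have hTy : ∀ k l i j, T k l i j ≤ y k := by
    intro k l i j
    calc T k l i j ≤ ∑ j', T k l i j' :=
          single_le_sum (f := fun j' => T k l i j') (fun j' _ => hT0 k l i j') (mem_univ j)
      _ ≤ ∑ i', ∑ j', T k l i' j' :=
          single_le_sum (f := fun i' => ∑ j', T k l i' j')
            (fun i' _ => sum_nonneg fun j' _ => hT0 k l i' j') (mem_univ i)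
      _ ≤ ∑ l', ∑ i', ∑ j', T k l' i' j' :=
          single_le_sum (f := fun l' => ∑ i', ∑ j', T k l' i' j')
            (fun l' _ => sum_nonneg fun i' _ => sum_nonneg fun j' _ => hT0 k l' i' j') (mem_univ l)
  -- the averages of `y`
  have hyt : Tendsto (fun K : ℕ => (∑ k ∈ range K, y k) / K) atTop (𝓝 0) := by
    have h1 : Tendsto (fun K : ℕ => ∑ l, ∑ i, ∑ j, (∑ k ∈ range K, T k l i j) / (K : ℝ)) atTop
        (𝓝 (∑ _l : Fin L, ∑ _i : Fin d, ∑ _j : Fin d, (0 : ℝ))) :=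
      tendsto_finsetSum _ fun l _ => tendsto_finsetSum _ fun i _ => tendsto_finsetSum _ fun j _ =>
        avg_lift lam hd hΦ hI hLG (hβ₀.erg lam) hγ₀ huc (Γ l) (hΓ l).bm i j
    simp only [sum_const_zero] at h1
    refine h1.congr fun K => ?_
    have e1 : ∑ k ∈ range K, y k = ∑ l, ∑ i, ∑ j, ∑ k ∈ range K, T k l i j := by
      simp only [hy]
      rw [sum_comm]
      refine sum_congr rfl fun l _ => ?_
      rw [sum_comm]
      refine sum_congr rfl fun i _ => ?_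
      rw [sum_comm]
    rw [e1, sum_div]
    refine sum_congr rfl fun l _ => ?_
    rw [sum_div]
    refine sum_congr rfl fun i _ => ?_
    rw [sum_div]
  -- the fourth powers
  have hmem : ∀ (k : ℕ) (x : ℝ), (∃ (κ : ℂ) (γ : W → Matrix (Fin d) (Fin d) ℂ) (i j : Fin d),
      UL lam c Φ (β₀ ^ k) κ γ ∧ x = ‖∫ w, γ w i j ∂lam‖) → x ^ 4 ≤ y k := by
    rintro k x ⟨κ, γ, i, j, hγ, rfl⟩
    obtain ⟨l, χ, a, ha, hae⟩ := hfin _ _ (UL.quot hΦ hγ (hγ₀.pow k))
    have huk := huc.cc β₀ k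
    have h1 : ∫ w, γ w i j ∂lam =
        a * ∫ w, (cc β₀ γ₀ k w * Γ l w) i j * conj (ch χ⁻¹ w) ∂lam := by
      rw [← integral_const_mul]
      refine integral_congr_ae ?_
      filter_upwards [hae] with w hw
      have h2 : γ w = (a * ch χ w) • (cc β₀ γ₀ k w * Γ l w) := by
        calc γ w = (cc β₀ γ₀ k w * (cc β₀ γ₀ k w)ᴴ) * γ w := by rw [huk.right, one_mul]
          _ = cc β₀ γ₀ k w * ((cc β₀ γ₀ k w)ᴴ * γ w) := mul_assoc _ _ _
          _ = _ := by rw [hw, Matrix.mul_smul]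
      rw [h2, Matrix.smul_apply, smul_eq_mul, ch_inv_left, Complex.conj_conj]
      ring
    have hf : BM fun w => (cc β₀ γ₀ k w * Γ l w) i j := (huk.bm.mul (hΓ l).bm) i j
    have h3 := coef_four lam _ hf χ⁻¹
    rw [h1, norm_mul, ha, one_mul]
    exact h3.trans (hTy k l i j)
  have h4 : ∀ k, MM lam c Φ (β₀ ^ k) ^ 4 ≤ y k := by
    intro k
    have h1 : MM lam c Φ (β₀ ^ k) ≤ √(√(y k)) := by
      refine Real.sSup_le (fun x hx => ?_) (Real.sqrt_nonneg _)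
      refine Real.le_sqrt_of_sq_le (Real.le_sqrt_of_sq_le ?_)
      rw [← pow_mul]
      exact hmem k x hx
    calc MM lam c Φ (β₀ ^ k) ^ 4 ≤ √(√(y k)) ^ 4 := pow_le_pow_left₀ (mm_nonneg lam c Φ _) h1 4
      _ = (√(√(y k)) ^ 2) ^ 2 := by rw [← pow_mul]
      _ = y k := by rw [Real.sq_sqrt (Real.sqrt_nonneg _), Real.sq_sqrt (hy0 k)]
  -- conclusion
  have hx : ∀ (δ x : ℝ), 0 < δ → 0 ≤ x → x ≤ δ + x ^ 4 / δ ^ 3 := by
    intro δ x hδ hx0
    rcases le_or_gt x δ with h1 | h1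
    · have : 0 ≤ x ^ 4 / δ ^ 3 := by positivity
      linarith
    · have h2 : x ≤ x ^ 4 / δ ^ 3 := by
        rw [le_div_iff₀ (by positivity)]
        calc x * δ ^ 3 ≤ x * x ^ 3 :=
              mul_le_mul_of_nonneg_left (pow_le_pow_left₀ hδ.le h1.le 3) hx0
          _ = x ^ 4 := by ring
      linarith
  rw [Metric.tendsto_atTop]
  intro ε hε
  have hδ : (0 : ℝ) < ε / 4 := by positivity
  obtain ⟨N, hN⟩ := Metric.tendsto_atTop.1 hyt ((ε / 4) ^ 4) (by positivity)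
  refine ⟨N, fun K hK => ?_⟩
  have h5 := hN K hK
  rw [Real.dist_eq, sub_zero] at h5 ⊢
  have h6 : (∑ k ∈ range K, y k) / K < (ε / 4) ^ 4 := (le_abs_self _).trans_lt h5
  have h7 : 0 ≤ (∑ k ∈ range K, MM lam c Φ (β₀ ^ k)) / K :=
    div_nonneg (sum_nonneg fun k _ => mm_nonneg lam c Φ _) (Nat.cast_nonneg K)
  rw [abs_of_nonneg h7]
  have h8 : ∑ k ∈ range K, MM lam c Φ (β₀ ^ k) ≤
      K * (ε / 4) + (∑ k ∈ range K, y k) / (ε / 4) ^ 3 := by
    calc ∑ k ∈ range K, MM lam c Φ (β₀ ^ k) ≤ ∑ k ∈ range K, (ε / 4 + y k / (ε / 4) ^ 3) := by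
          refine sum_le_sum fun k _ => ?_
          refine (hx (ε / 4) _ hδ (mm_nonneg lam c Φ _)).trans ?_
          have := div_le_div_of_nonneg_right (h4 k) (by positivity : (0 : ℝ) ≤ (ε / 4) ^ 3)
          linarith
      _ = K * (ε / 4) + (∑ k ∈ range K, y k) / (ε / 4) ^ 3 := by
          rw [sum_add_distrib, sum_const, card_range, nsmul_eq_mul, sum_div]
  rcases Nat.eq_zero_or_pos K with rfl | hK0
  · simp only [range_zero, sum_empty, zero_div]
    exact hε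
  have hKp : (0 : ℝ) < K := by exact_mod_cast hK0
  calc (∑ k ∈ range K, MM lam c Φ (β₀ ^ k)) / K ≤
        (K * (ε / 4) + (∑ k ∈ range K, y k) / (ε / 4) ^ 3) / K :=
          div_le_div_of_nonneg_right h8 hKp.le
    _ = ε / 4 + ((∑ k ∈ range K, y k) / K) / (ε / 4) ^ 3 := by
          field_simp
    _ ≤ ε / 4 + (ε / 4) ^ 4 / (ε / 4) ^ 3 := by
          have := div_le_div_of_nonneg_right h6.le (by positivity : (0 : ℝ) ≤ (ε / 4) ^ 3)
          linarith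
    _ = ε / 4 + ε / 4 := by
          congr 1
          field_simp
    _ < ε := by linarith

end Pool.Agent.Lib.H82OH
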