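import Pool.Agent.Lib.H82OH.FG

/-!
# Project H82OH, chunk FH: the function MM along the powers of a free element
-/

open MeasureTheory Filter Topology Finset
open scoped ComplexConjugate Matrix

namespace Pool.Agent.Lib.H82OH

open Pool.Agent.Lib.H22M Pool.Agent.Lib.H82T Pool.Agent.Lib.H82OT Pool.Agent.Lib.H82OF

variable {W : Type*} [CommGroup W] [TopologicalSpace W] [IsTopologicalGroup W] [CompactSpace W]
  [T2Space W] [SecondCountableTopology W] [MeasurableSpace W] [BorelSpace W]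

private theorem fh_zero (lam : Measure W) [lam.IsHaarMeasure] [IsProbabilityMeasure lam] {c : W}
    {d : ℕ} (hd : 0 < d) (Φ : W → Matrix (Fin d) (Fin d) ℂ) (β : W) (h : β ∉ LG lam c Φ) :
    MM lam c Φ β = 0 := by
  have h1 : ¬ 0 < MM lam c Φ β := fun h2 => h ((mm_pos_iff lam hd Φ β).1 h2)
  exact le_antisymm (not_lt.1 h1) (mm_nonneg lam c Φ β)

private theorem fh_mul (lam : Measure W) [lam.IsHaarMeasure] {c : W} {d : ℕ}
    {Φ : W → Matrix (Fin d) (Fin d) ℂ} {β₁ β₂ : W} (h₁ : β₁ ∈ LG lam c Φ)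
    (h₂ : β₂ ∈ LG lam c Φ) : β₁ * β₂ ∈ LG lam c Φ := by
  obtain ⟨κ₁, γ₁, hh₁⟩ := h₁
  obtain ⟨κ₂, γ₂, hh₂⟩ := h₂
  exact ⟨_, _, hh₁.mul hh₂⟩

private theorem fh_inv (lam : Measure W) [lam.IsHaarMeasure] {c : W} {d : ℕ}
    {Φ : W → Matrix (Fin d) (Fin d) ℂ} (hΦ : UC Φ) {β : W} (h : β ∈ LG lam c Φ) :
    β⁻¹ ∈ LG lam c Φ := by
  obtain ⟨κ, γ, hh⟩ := h
  exact ⟨_, _, UL.inv hΦ hh⟩

private theorem fh_pow (lam : Measure W) [lam.IsHaarMeasure] {c : W} {d : ℕ}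
    {Φ : W → Matrix (Fin d) (Fin d) ℂ} {β : W} (h : β ∈ LG lam c Φ) (n : ℕ) :
    β ^ n ∈ LG lam c Φ := by
  obtain ⟨κ, γ, hh⟩ := h
  exact ⟨_, _, hh.pow n⟩

private theorem fh_sum (n0 N : ℕ) (hn0 : 1 ≤ n0) (f g : ℕ → ℝ) (hg : ∀ k, 0 ≤ g k)
    (h0 : ∀ n, ¬ n0 ∣ n → f n = 0) (h1 : ∀ k, f (n0 * k) = g k) :
    ∑ n ∈ Ico 1 N, f n ≤ ∑ k ∈ range N, g k := by
  have hnn : ∀ n k : ℕ, (0 : ℝ) ≤ if n = n0 * k then g k else 0 := by
    intro n k
    split_ifs
    · exact hg k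
    · exact le_rfl
  calc ∑ n ∈ Ico 1 N, f n ≤ ∑ n ∈ Ico 1 N, ∑ k ∈ range N, (if n = n0 * k then g k else 0) := by
        refine Finset.sum_le_sum fun n hn => ?_
        rw [Finset.mem_Ico] at hn
        by_cases hd : n0 ∣ n
        · obtain ⟨k, rfl⟩ := hd
          have hk : k ∈ range N := by
            rw [Finset.mem_range]
            exact lt_of_le_of_lt (Nat.le_mul_of_pos_left k hn0) hn.2
          have h2 := Finset.single_le_sum (f := fun k' => if n0 * k = n0 * k' then g k' else 0)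
            (fun k' _ => hnn (n0 * k) k') hk
          simp only [if_true] at h2
          rw [h1 k]
          exact h2
        · rw [h0 n hd]
          exact Finset.sum_nonneg fun k _ => hnn n k
    _ = ∑ k ∈ range N, ∑ n ∈ Ico 1 N, (if n = n0 * k then g k else 0) := Finset.sum_comm
    _ ≤ ∑ k ∈ range N, g k := by
        refine Finset.sum_le_sum fun k _ => ?_
        rw [Finset.sum_ite_eq']
        split_ifs
        · exact le_rfl
        · exact hg k

/-- Proof. If no `β^n`, `n ≥ 1`, is in `LG`, all terms vanish (`mm_pos_iff`, `mm_nonneg`, LB). Otherwise let `n₀ ≥ 1` be the least `n` with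
`β^n ∈ LG`; `LG` is a group (`UL.mul`, `UL.inv`), so `β^n ∈ LG` iff `n₀ ∣ n` (division with remainder), and
`∑_{1 ≤ n < N} MM (β^n) = ∑_{1 ≤ k, k n₀ < N} MM ((β^n₀)^k) ≤ ∑_{k < N} MM ((β^n₀)^k)`: `mm_avg₀` (FG) for `β^n₀` (`Free.pow`, BA). -/
theorem mm_avg (lam : Measure W) [lam.IsHaarMeasure] [IsProbabilityMeasure lam] {c : W}
    (hc : Free c) {d : ℕ} (hd : 0 < d) {Φ : W → Matrix (Fin d) (Fin d) ℂ} (hΦ : UC Φ)
    (hI : Ic lam c Φ) (hLG : lam (LG lam c Φ) = 0) {β : W} (hβ : Free β) :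
    Tendsto (fun N : ℕ => (∑ n ∈ Ico 1 N, MM lam c Φ (β ^ n)) / N) atTop (𝓝 0) := by
  have key : ∃ u : ℕ → ℝ, Tendsto u atTop (𝓝 0) ∧
      ∀ N, (∑ n ∈ Ico 1 N, MM lam c Φ (β ^ n)) / N ≤ u N := by
    by_cases hex : ∃ n : ℕ, 1 ≤ n ∧ β ^ n ∈ LG lam c Φ
    · classical
      have hn0 := Nat.find_spec hex
      have hmin : ∀ m : ℕ, 1 ≤ m → m < Nat.find hex → β ^ m ∉ LG lam c Φ := by
        intro m h1 h2 h3
        exact Nat.find_min hex h2 ⟨h1, h3⟩
      generalize Nat.find hex = n0 at hn0 hmin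
      refine ⟨_, mm_avg₀ lam hc hd hΦ hI hLG (hβ.pow n0 hn0.1) hn0.2, fun N => ?_⟩
      refine div_le_div_of_nonneg_right ?_ (Nat.cast_nonneg N)
      refine fh_sum n0 N hn0.1 _ _ (fun k => mm_nonneg lam c Φ _) (fun n hn => ?_) (fun k => ?_)
      · apply fh_zero lam hd
        intro hmem
        have h1 : β ^ (n % n0) ∈ LG lam c Φ := by
          have h2 : β ^ (n % n0) = ((β ^ n0) ^ (n / n0))⁻¹ * β ^ n := by
            have h3 : β ^ n = (β ^ n0) ^ (n / n0) * β ^ (n % n0) := by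
              rw [← pow_mul, ← pow_add, Nat.div_add_mod]
            rw [h3, ← mul_assoc, inv_mul_cancel, one_mul]
          rw [h2]
          exact fh_mul lam (fh_inv lam hΦ (fh_pow lam hn0.2 _)) hmem
        have h4 : 1 ≤ n % n0 := by
          rcases Nat.eq_zero_or_pos (n % n0) with h5 | h5
          · exact absurd (Nat.dvd_of_mod_eq_zero h5) hn
          · exact h5
        exact hmin (n % n0) h4 (Nat.mod_lt _ hn0.1) h1
      · rw [pow_mul]
    · refine ⟨fun _ => 0, tendsto_const_nhds, fun N => ?_⟩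
      have h1 : ∑ n ∈ Ico 1 N, MM lam c Φ (β ^ n) = 0 := by
        refine Finset.sum_eq_zero fun n hn => ?_
        rw [Finset.mem_Ico] at hn
        exact fh_zero lam hd Φ _ fun h2 => hex ⟨n, hn.1, h2⟩
      rw [h1, zero_div]
  obtain ⟨u, hu, hle⟩ := key
  refine squeeze_zero (fun N => ?_) hle hu
  exact div_nonneg (Finset.sum_nonneg fun n _ => mm_nonneg lam c Φ _) (Nat.cast_nonneg N)

end Pool.Agent.Lib.H82OH
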