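import Pool.Agent.Lib.H82OH.DD
import Pool.Agent.Lib.H82OG.GS3

/-!
# Project H82OH, chunk GA: from generators to all functions
-/

open MeasureTheory Filter Topology Finset
open scoped ComplexConjugate Matrix

namespace Pool.Agent.Lib.H82OH

open Pool.Agent.Lib.H22M Pool.Agent.Lib.H82T Pool.Agent.Lib.H82OT Pool.Agent.Lib.H82OF

private theorem ga_key {Y : Type*} [MeasurableSpace Y] {m : Measure Y} [IsProbabilityMeasure m]
    {R : Y → Y} {p q : ℕ} {ρ : Measure (Y × Y)} (hρ : IsJoin m R p q ρ)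
    (u v : Y → ℂ) (hu : BM u) (hv : BM v) :
    ‖∫ z, u z.1 * conj (v z.2) ∂ρ - (∫ y, u y ∂m) * conj (∫ y, v y ∂m)‖ ≤
      2 * (l2 m u * l2 m v) := by
  have := hρ.prob
  have e1 : l2 ρ (fun z => u z.1) = l2 m u := by
    rw [← hρ.fst, l2_map measurable_fst hu.1]
  have e2 : l2 ρ (fun z => v z.2) = l2 m v := by
    rw [← hρ.snd, l2_map measurable_snd hv.1]
  have e3 := Pool.Agent.Lib.H22M.norm_integral_mul_conj_le (m := ρ)
    (hu.comp measurable_fst) (hv.comp measurable_snd)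
  rw [e1, e2] at e3
  have e4 : ‖(∫ y, u y ∂m) * conj (∫ y, v y ∂m)‖ ≤ l2 m u * l2 m v := by
    rw [norm_mul, RCLike.norm_conj]
    exact mul_le_mul (norm_integral_le_l2 (m := m) hu) (norm_integral_le_l2 (m := m) hv)
      (norm_nonneg _) (l2_nonneg _ _)
  have e5 := norm_sub_le (∫ z, u z.1 * conj (v z.2) ∂ρ) ((∫ y, u y ∂m) * conj (∫ y, v y ∂m))
  linarith

/-- A bad pair for `F` is a bad pair for a good approximation. -/
private theorem ga_approx {Y : Type*} [MeasurableSpace Y] {m : Measure Y} [IsProbabilityMeasure m]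
    {R : Y → Y} (f f' : Y → ℂ) (hf : BM f) (hBf' : BM f') (ε δ : ℝ) (hε : 0 < ε) (hδ1 : δ ≤ 1)
    (hδ0 : 0 < δ) (hδ2 : δ * (2 * l2 m f + 1) ≤ ε / 4) (hf' : l2 m (fun y => f y - f' y) ≤ δ)
    {p q : ℕ} (h : BadP m R f f ε p q) : BadP m R f' f' (ε / 2) p q := by
  have hf0 := l2_nonneg m f
  obtain ⟨ρ, hρ, hlt⟩ := h
  refine ⟨ρ, hρ, ?_⟩
  have := hρ.prob
  have hd0 := l2_nonneg m (fun y => f y - f' y)
  have hf'0 := l2_nonneg m f'
  have hf'le : l2 m f' ≤ l2 m f + 1 := by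
    have t1 : l2 m f' ≤ l2 m f + l2 m (fun y => f' y - f y) := by
      have t2 := Pool.Agent.Lib.H22M.l2_add_le (m := m) hf (hBf'.sub hf)
      refine le_trans (le_of_eq ?_) t2
      refine l2_congr m _ _ (Eventually.of_forall fun y => ?_)
      ring
    have t3 : l2 m (fun y => f' y - f y) = l2 m (fun y => f y - f' y) := by
      unfold l2
      simp_rw [norm_sub_rev]
    rw [t3] at t1
    linarith
  have k3 : l2 m (fun y => f y - f' y) * l2 m f +
      l2 m f' * l2 m (fun y => f y - f' y) ≤ ε / 4 := by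
    calc l2 m (fun y => f y - f' y) * l2 m f + l2 m f' * l2 m (fun y => f y - f' y)
        = l2 m (fun y => f y - f' y) * (l2 m f + l2 m f') := by ring
      _ ≤ δ * (2 * l2 m f + 1) := mul_le_mul hf' (by linarith) (by linarith) hδ0.le
      _ ≤ ε / 4 := hδ2
  have k1 := ga_key hρ (fun y => f y - f' y) f (hf.sub hBf') hf
  have k2 := ga_key hρ f' (fun y => f y - f' y) hBf' (hf.sub hBf')
  have e1 : ∫ z, f z.1 * conj (f z.2) ∂ρ - (∫ y, f y ∂m) * conj (∫ y, f y ∂m)
      = (∫ z, (f z.1 - f' z.1) * conj (f z.2) ∂ρ -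
          (∫ y, (f y - f' y) ∂m) * conj (∫ y, f y ∂m))
        + (∫ z, f' z.1 * conj (f z.2 - f' z.2) ∂ρ -
          (∫ y, f' y ∂m) * conj (∫ y, (f y - f' y) ∂m))
        + (∫ z, f' z.1 * conj (f' z.2) ∂ρ - (∫ y, f' y ∂m) * conj (∫ y, f' y ∂m)) := by
    have i2 : Integrable (fun z : Y × Y => (f z.1 - f' z.1) * conj (f z.2)) ρ :=
      (((hf.sub hBf').comp measurable_fst).mul ((hf.comp measurable_snd).conj)).integrable
    have i3 : Integrable (fun z : Y × Y => f' z.1 * conj (f z.2 - f' z.2)) ρ :=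
      ((hBf'.comp measurable_fst).mul (((hf.sub hBf').comp measurable_snd).conj)).integrable
    have i4 : Integrable (fun z : Y × Y => f' z.1 * conj (f' z.2)) ρ :=
      ((hBf'.comp measurable_fst).mul ((hBf'.comp measurable_snd).conj)).integrable
    have i23 : Integrable (fun z : Y × Y => (f z.1 - f' z.1) * conj (f z.2)
        + f' z.1 * conj (f z.2 - f' z.2)) ρ := i2.add i3
    have e2 : ∫ z, f z.1 * conj (f z.2) ∂ρ
        = (∫ z, (f z.1 - f' z.1) * conj (f z.2) ∂ρ)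
          + (∫ z, f' z.1 * conj (f z.2 - f' z.2) ∂ρ)
          + ∫ z, f' z.1 * conj (f' z.2) ∂ρ := by
      rw [← integral_add i2 i3, ← integral_add i23 i4]
      refine integral_congr_ae (Eventually.of_forall fun z => ?_)
      simp only [map_sub]
      ring
    rw [e2, integral_sub hf.integrable hBf'.integrable, map_sub]
    ring
  rw [e1] at hlt
  have t1 := norm_add_le ((∫ z, (f z.1 - f' z.1) * conj (f z.2) ∂ρ -
          (∫ y, (f y - f' y) ∂m) * conj (∫ y, f y ∂m))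
        + (∫ z, f' z.1 * conj (f z.2 - f' z.2) ∂ρ -
          (∫ y, f' y ∂m) * conj (∫ y, (f y - f' y) ∂m)))
        (∫ z, f' z.1 * conj (f' z.2) ∂ρ - (∫ y, f' y ∂m) * conj (∫ y, f' y ∂m))
  have t2 := norm_add_le (∫ z, (f z.1 - f' z.1) * conj (f z.2) ∂ρ -
          (∫ y, (f y - f' y) ∂m) * conj (∫ y, f y ∂m))
        (∫ z, f' z.1 * conj (f z.2 - f' z.2) ∂ρ -
          (∫ y, f' y ∂m) * conj (∫ y, (f y - f' y) ∂m))
  linarith

/-- A bad pair for linear combinations is bad for a pair of the functions. -/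
private theorem ga_comb {Y : Type*} [MeasurableSpace Y] {m : Measure Y} [IsProbabilityMeasure m]
    {R : Y → Y} {n : ℕ} (a : Fin n → ℂ) (g : Fin n → Y → ℂ) (hg : ∀ i, BM (g i)) (ε : ℝ)
    {p q : ℕ} (hε : 0 < ε)
    (h : BadP m R (fun y => ∑ i, a i * g i y) (fun y => ∑ i, a i * g i y) ε p q) :
    ∃ i j, BadP m R (g i) (g j) (ε / ((∑ x : Fin n × Fin n, ‖a x.1‖ * ‖a x.2‖) + 1)) p q := by
  obtain ⟨ρ, hρ, hlt⟩ := h
  have := hρ.prob
  by_contra hcon
  push Not at hcon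
  set K : ℝ := (∑ x : Fin n × Fin n, ‖a x.1‖ * ‖a x.2‖) + 1 with hK
  have hK0 : 0 < K := by positivity
  have hall : ∀ x : Fin n × Fin n, ‖∫ z, g x.1 z.1 * conj (g x.2 z.2) ∂ρ -
      (∫ y, g x.1 y ∂m) * conj (∫ y, g x.2 y ∂m)‖ ≤ ε / K := by
    intro x
    by_contra hx
    exact hcon x.1 x.2 ⟨ρ, hρ, not_le.1 hx⟩
  have hint : ∫ z, (∑ i, a i * g i z.1) * conj (∑ j, a j * g j z.2) ∂ρ
      = ∑ x : Fin n × Fin n, (a x.1 * conj (a x.2)) * ∫ z, g x.1 z.1 * conj (g x.2 z.2) ∂ρ := by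
    simp_rw [← integral_const_mul]
    rw [← integral_finsetSum]
    · refine integral_congr_ae (Eventually.of_forall fun z => ?_)
      simp only
      rw [map_sum, Finset.sum_mul_sum, Fintype.sum_prod_type]
      refine Finset.sum_congr rfl fun i _ => Finset.sum_congr rfl fun j _ => ?_
      rw [map_mul]
      ring
    · intro x _
      exact ((((hg x.1).comp measurable_fst).mul
        (((hg x.2).comp measurable_snd).conj)).integrable).const_mul _
  have hint2 : (∫ y, (∑ i, a i * g i y) ∂m) * conj (∫ y, (∑ j, a j * g j y) ∂m)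
      = ∑ x : Fin n × Fin n, (a x.1 * conj (a x.2)) *
        ((∫ y, g x.1 y ∂m) * conj (∫ y, g x.2 y ∂m)) := by
    rw [integral_finsetSum _ fun i _ => (hg i).integrable.const_mul _, map_sum,
      Finset.sum_mul_sum, Fintype.sum_prod_type]
    refine Finset.sum_congr rfl fun i _ => Finset.sum_congr rfl fun j _ => ?_
    rw [integral_const_mul, integral_const_mul, map_mul]
    ring
  rw [hint, hint2, ← Finset.sum_sub_distrib] at hlt
  have hle : ‖∑ x : Fin n × Fin n, ((a x.1 * conj (a x.2)) * ∫ z, g x.1 z.1 * conj (g x.2 z.2) ∂ρ -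
      (a x.1 * conj (a x.2)) * ((∫ y, g x.1 y ∂m) * conj (∫ y, g x.2 y ∂m)))‖ ≤ ε := by
    have e1 : ∀ x : Fin n × Fin n,
        ‖(a x.1 * conj (a x.2)) * ∫ z, g x.1 z.1 * conj (g x.2 z.2) ∂ρ -
        (a x.1 * conj (a x.2)) * ((∫ y, g x.1 y ∂m) * conj (∫ y, g x.2 y ∂m))‖ ≤
        (‖a x.1‖ * ‖a x.2‖) * (ε / K) := by
      intro x
      rw [← mul_sub, norm_mul, norm_mul, RCLike.norm_conj]
      exact mul_le_mul_of_nonneg_left (hall x) (by positivity)
    refine (norm_sum_le _ _).trans ((Finset.sum_le_sum fun x _ => e1 x).trans ?_)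
    rw [← Finset.sum_mul, mul_div_assoc', div_le_iff₀ hK0, hK]
    nlinarith
  exact absurd hlt (not_lt.2 hle)

/-- The linear span. -/
private theorem ga_span {Y : Type*} [MeasurableSpace Y] {m : Measure Y} [IsProbabilityMeasure m]
    {R : Y → Y} {n : ℕ} (a : Fin n → ℂ) (g : Fin n → Y → ℂ) (hg : ∀ i, BM (g i))
    (h : ∀ i j, Few m R (g i) (g j)) :
    Few m R (fun y => ∑ i, a i * g i y) (fun y => ∑ i, a i * g i y) := by
  classical
  intro ε hε
  set K : ℝ := (∑ x : Fin n × Fin n, ‖a x.1‖ * ‖a x.2‖) + 1 with hK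
  have hK0 : 0 < K := by positivity
  set N : ℝ := (Fintype.card (Fin n × Fin n) : ℝ) + 1 with hN
  have hN0 : 0 < N := by positivity
  set ε' : ℝ := min (ε / K) (ε / N) with hε'd
  have hε' : 0 < ε' := lt_min (div_pos hε hK0) (div_pos hε hN0)
  choose k0 hk0 using fun i j => h i j ε' hε'
  refine ⟨∑ x : Fin n × Fin n, k0 x.1 x.2, fun k hk s hs Q hQ hbad => ?_⟩
  have hcov : Q ⊆ Finset.univ.biUnion fun x : Fin n × Fin n =>
      Q.filter fun r => BadP m R (g x.1) (g x.2) ε' r s := by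
    intro r hr
    obtain ⟨i, j, ρ, hρ, hlt⟩ := ga_comb a g hg ε hε (hbad r hr).2
    rw [Finset.mem_biUnion]
    exact ⟨(i, j), Finset.mem_univ _, Finset.mem_filter.2 ⟨hr, ρ, hρ,
      (min_le_left _ _).trans_lt hlt⟩⟩
  have hcard : ∀ x : Fin n × Fin n,
      ((Q.filter fun r => BadP m R (g x.1) (g x.2) ε' r s).card : ℝ) ≤ ε' * (PB k).card := by
    intro x
    have hkx : k0 x.1 x.2 ≤ k :=
      (Finset.single_le_sum (f := fun x : Fin n × Fin n => k0 x.1 x.2)
        (fun _ _ => Nat.zero_le _) (Finset.mem_univ x)).trans hk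
    refine hk0 x.1 x.2 k hkx s hs _ ((Finset.filter_subset _ _).trans hQ) fun r hr => ?_
    obtain ⟨h1, h2⟩ := Finset.mem_filter.1 hr
    exact ⟨(hbad r h1).1, h2⟩
  have h1 : (Q.card : ℝ) ≤ ∑ x : Fin n × Fin n,
      ((Q.filter fun r => BadP m R (g x.1) (g x.2) ε' r s).card : ℝ) := by
    have h2 := (Finset.card_le_card hcov).trans Finset.card_biUnion_le
    exact_mod_cast h2
  have hP : (0 : ℝ) ≤ ((PB k).card : ℝ) := Nat.cast_nonneg _
  calc (Q.card : ℝ) ≤ ∑ x : Fin n × Fin n,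
        ((Q.filter fun r => BadP m R (g x.1) (g x.2) ε' r s).card : ℝ) := h1
    _ ≤ ∑ _x : Fin n × Fin n, ε' * ((PB k).card : ℝ) := Finset.sum_le_sum fun x _ => hcard x
    _ = (Fintype.card (Fin n × Fin n) : ℝ) * (ε' * ((PB k).card : ℝ)) := by
        rw [Finset.sum_const, Finset.card_univ, nsmul_eq_mul]
    _ ≤ N * (ε' * ((PB k).card : ℝ)) :=
        mul_le_mul_of_nonneg_right (by rw [hN]; linarith) (mul_nonneg hε'.le hP)
    _ ≤ N * ((ε / N) * ((PB k).card : ℝ)) :=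
        mul_le_mul_of_nonneg_left (mul_le_mul_of_nonneg_right (min_le_right _ _) hP) hN0.le
    _ = ε * ((PB k).card : ℝ) := by
        field_simp

/-- Proof. For a joining `ρ` of `R^r` and `R^s` let `B(u, v) = ∫ u(z.1) conj v(z.2) dρ - ∫ u dm conj ∫ v dm`, additive in `u` and in `v`,
homogeneous up to conjugation, and `‖B(u, v)‖ ≤ 2 l2 m u l2 m v` (see `gs3_key` in `H82OG/GS3.lean`). (1) `Few m R f g` and
`Few m R f₁ g` imply `Few m R (f + f₁) g` (a prime which is bad for the sum and `ε` is bad for `f` or for `f₁` and `ε/2`; take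
`ε/2` in both; note `BadP` for a smaller `ε` is weaker, so `Few` with `ε' ≤ ε` bounds the number of the `ε`-bad primes by `ε' |PB k|`),
`Few m R (a • f) g` (`a = 0` clear, otherwise `ε / ‖a‖` and `min`), and the same on the right: `Few m R f g` for all `f, g` in the span of
`𝒢` (`Submodule.span_induction`, twice; the functions involved are in `BM`). (2) For `ε > 0` choose `δ` with
`2 δ (2 l2 m F + δ) ≤ ε/2` and `F'` in the span with `l2 m (F - F') ≤ δ`: a prime which is `ε`-bad for `(F, F)` is `ε/2`-bad for `(F', F')`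
(compare `BDD.approx`, `H82OG/GS3.lean`). -/
theorem few_all {Y : Type*} [MeasurableSpace Y] {m : Measure Y} [IsProbabilityMeasure m]
    {R : Y → Y} (𝒢 : Set (Y → ℂ)) (hBM : ∀ f ∈ 𝒢, BM f)
    (hpair : ∀ f ∈ 𝒢, ∀ g ∈ 𝒢, Few m R f g) (F : Y → ℂ) (hF : BM F)
    (hdense : ∀ δ : ℝ, 0 < δ → ∃ F' ∈ Submodule.span ℂ 𝒢, l2 m (fun y => F y - F' y) ≤ δ) :
    Few m R F F := by
  intro ε hε
  have hf0 := l2_nonneg m F
  set δ : ℝ := min 1 (ε / (4 * (2 * l2 m F + 1))) with hδdef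
  have hδ : 0 < δ := lt_min one_pos (by positivity)
  have hδ1 : δ ≤ 1 := min_le_left _ _
  have hδ2 : δ * (2 * l2 m F + 1) ≤ ε / 4 := by
    calc δ * (2 * l2 m F + 1) ≤ (ε / (4 * (2 * l2 m F + 1))) * (2 * l2 m F + 1) :=
          mul_le_mul_of_nonneg_right (min_le_right _ _) (by linarith)
      _ = ε / 4 := by field_simp
  obtain ⟨F', hF', hd⟩ := hdense δ hδ
  obtain ⟨n, a, g, hgF⟩ := Submodule.mem_span_set'.1 hF'
  have hF'e : F' = fun y => ∑ i, a i * (g i : Y → ℂ) y := by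
    rw [← hgF]
    funext y
    rw [Finset.sum_apply]
    rfl
  have hgB : ∀ i, BM (g i : Y → ℂ) := fun i => hBM _ (g i).2
  have hFew : Few m R F' F' := by
    rw [hF'e]
    exact ga_span a (fun i => (g i : Y → ℂ)) hgB fun i j => hpair _ (g i).2 _ (g j).2
  have hBF' : BM F' := by
    rw [hF'e]
    exact BM.sum _ fun i _ => (BM.const (a i)).mul (hgB i)
  obtain ⟨k0, hk0⟩ := hFew (ε / 2) (by positivity)
  refine ⟨k0, fun k hk s hs Q hQ hbad => ?_⟩
  have h1 := hk0 k hk s hs Q hQ fun r hr => ⟨(hbad r hr).1,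
    ga_approx F F' hF hBF' ε δ hε hδ1 hδ hδ2 hd (hbad r hr).2⟩
  refine h1.trans (mul_le_mul_of_nonneg_right (by linarith) (Nat.cast_nonneg _))

end Pool.Agent.Lib.H82OH
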