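import Pool.Agent.Lib.H82OH.TA

/-!
# Project H82OH, chunk ID: irreducible bundles with an eigenvector
-/

open MeasureTheory Filter Topology Finset
open scoped ComplexConjugate Matrix

namespace Pool.Agent.Lib.H82OH

open Pool.Agent.Lib.H22M Pool.Agent.Lib.H82T Pool.Agent.Lib.H82OT Pool.Agent.Lib.H82OF

variable {W : Type*} [CommGroup W] [TopologicalSpace W] [IsTopologicalGroup W] [CompactSpace W]
  [T2Space W] [SecondCountableTopology W] [MeasurableSpace W] [BorelSpace W]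

private theorem id_uc_one {W' : Type*} [MeasurableSpace W'] :
    UC (fun _ : W' => (1 : Matrix (Fin 1) (Fin 1) ℂ)) :=
  ⟨fun i j => BM.const _, fun w => by simp, fun w => by simp⟩

open scoped ComplexOrder in
private theorem id_zero {d e : ℕ} {X : Matrix (Fin d) (Fin e) ℂ} (h : X * Xᴴ = 0) : X = 0 :=
  Matrix.self_mul_conjTranspose_eq_zero.mp h

/-- Proof. There are `ξ`, `z`, `‖z‖ = 1`, with `ξ(c w) = z Φ(w) ξ(w)` a.e., `ξ` not a.e. `0`. `ξ ξᴴ` satisfies `Tw lam c Φ Φ 1` (`Tw.adj`,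
`Tw.mul`, TA), so it is a.e. `= a • 1`, `a ≠ 0` (some entry `|ξ_i0|²` is not a.e. `0`). `e y = ∑_k conj (ξ(P y)_k0) E(y)_k` is bounded and
measurable, and `e (R y) = conj z e y` a.e. (`hE.eq`, `hK.rot`, `hK.pres`, `Φᴴ Φ = 1`), so `e = g₀ ∘ P` a.e. (`hK.kron`). From
`a E(y) = ξ ξᴴ(P y) E(y) = ξ(P y) e(y)`: `E(y)_i = a⁻¹ ξ(P y)_i0 g₀(P y)` a.e. -/
theorem kron_of_not_ne {Y : Type*} [MeasurableSpace Y] [StandardBorelSpace Y] {m : Measure Y}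
    [IsProbabilityMeasure m] (R : Y ≃ᵐ Y) (lam : Measure W) [lam.IsHaarMeasure]
    [IsProbabilityMeasure lam] {c : W} {P : Y → W} (hK : KS m R lam c P) {d : ℕ}
    {Φ : W → Matrix (Fin d) (Fin d) ℂ} {E : Y → Fin d → ℂ} (hE : Bun m R P Φ E)
    (hI : Ic lam c Φ) (hn : ¬ NE lam c Φ) (i : Fin d) :
    ∃ g : W → ℂ, BM g ∧ ∀ᵐ y ∂m, E y i = g (P y) := by
  classical
  unfold NE at hn
  have hn' : ∃ (ξ : W → Matrix (Fin d) (Fin 1) ℂ) (z : ℂ), ‖z‖ = 1 ∧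
      Tw lam c Φ (fun _ => 1) z ξ ∧ ¬ ∀ᵐ w ∂lam, ξ w = 0 := by
    by_contra hcon
    apply hn
    intro ξ z h1 h2
    by_contra h3
    exact hcon ⟨ξ, z, h1, h2, h3⟩
  obtain ⟨ξ, z, hz, hT, hne⟩ := hn'
  have hΦ : UC Φ := hE.uc
  have hadj := hT.adj hΦ id_uc_one
  have hmul := hT.mul hadj
  have hzz : z * conj z = 1 := by
    rw [Complex.mul_conj, Complex.normSq_eq_norm_sq, hz]
    norm_num
  rw [hzz] at hmul
  obtain ⟨a, ha⟩ := hI _ hmul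
  have ha0 : a ≠ 0 := by
    intro h0
    apply hne
    filter_upwards [ha] with w hw
    have hw' : ξ w * (ξ w)ᴴ = 0 := by
      rw [hw, h0, zero_smul]
    exact id_zero hw'
  have hPm : Measurable P := hK.pres.measurable
  have hξ : BMM ξ := hT.1
  obtain ⟨e, he⟩ : ∃ e : Y → ℂ, e = fun y => ((ξ (P y))ᴴ *ᵥ E y) 0 := ⟨_, rfl⟩
  have heBM : BM e := by
    rw [he]
    show BM fun y => ∑ k, (ξ (P y))ᴴ 0 k * E y k
    refine BM.sum univ fun k _ => ?_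
    exact (hξ.conj 0 k |>.comp hPm).mul (hE.bm k)
  have hPae : ∀ {p : W → Prop}, (∀ᵐ w ∂lam, p w) → ∀ᵐ y ∂m, p (P y) := fun h =>
    hK.pres.quasiMeasurePreserving.ae h
  have heq : ∀ᵐ y ∂m, e (R y) = conj z * e y := by
    filter_upwards [hE.eq, hK.rot, hPae hadj.2] with y h1 h2 h3
    have h4 : (ξ (c * P y))ᴴ * Φ (P y) = conj z • ((ξ (P y))ᴴ) := by
      rw [h3, Matrix.one_mul]
    rw [he]
    show ((ξ (P (R y)))ᴴ *ᵥ E (R y)) 0 = conj z * ((ξ (P y))ᴴ *ᵥ E y) 0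
    rw [h2, h1, Matrix.mulVec_mulVec, h4, Matrix.smul_mulVec]
    rfl
  obtain ⟨g₀, hg₀, hg₁⟩ := hK.kron e (conj z) heBM heq
  refine ⟨fun w => a⁻¹ * ξ w i 0 * g₀ w, ((BM.const _).mul (hξ i 0)).mul hg₀, ?_⟩
  filter_upwards [hg₁, hPae ha] with y h1 h2
  have h3 : (ξ (P y) * (ξ (P y))ᴴ) *ᵥ E y = a • E y := by
    rw [h2, Matrix.smul_mulVec, Matrix.one_mulVec]
  have h4 := congrFun h3 i
  rw [← Matrix.mulVec_mulVec] at h4
  have h5 : (ξ (P y) *ᵥ ((ξ (P y))ᴴ *ᵥ E y)) i = ξ (P y) i 0 * e y := by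
    rw [he]
    show ∑ k, ξ (P y) i k * ((ξ (P y))ᴴ *ᵥ E y) k = ξ (P y) i 0 * ((ξ (P y))ᴴ *ᵥ E y) 0
    rw [Fin.sum_univ_one]
  rw [h5, Pi.smul_apply, smul_eq_mul] at h4
  show E y i = a⁻¹ * ξ (P y) i 0 * g₀ (P y)
  rw [← h1, mul_assoc, h4, ← mul_assoc, inv_mul_cancel₀ ha0, one_mul]

end Pool.Agent.Lib.H82OH
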