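import Pool.Agent.Lib.H82OH.TD
import Pool.Agent.Lib.H82OH.PA
import Pool.Agent.Lib.H82OH.BB

/-!
# Project H82OH, chunk KA: bundles without eigenvectors against characters
-/

open MeasureTheory Filter Topology Finset
open scoped ComplexConjugate Matrix

namespace Pool.Agent.Lib.H82OH

open Pool.Agent.Lib.H22M Pool.Agent.Lib.H82T Pool.Agent.Lib.H82OT Pool.Agent.Lib.H82OF

variable {W : Type*} [CommGroup W] [TopologicalSpace W] [IsTopologicalGroup W] [CompactSpace W]
  [T2Space W] [SecondCountableTopology W] [MeasurableSpace W] [BorelSpace W]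

/-- Conditional expectation along a map with values in `W`. -/
private theorem ka_cexp {Ω : Type*} [MeasurableSpace Ω] (ρ : Measure Ω) [IsProbabilityMeasure ρ]
    (lam : Measure W) [IsProbabilityMeasure lam] {p : Ω → W}
    (hp : MeasurePreserving p ρ lam) (f : Ω → ℂ) (hfm : Measurable f) (C : ℝ)
    (hC : ∀ ω, ‖f ω‖ ≤ C) :
    ∃ G : W → ℂ, Measurable G ∧ (∀ w, ‖G w‖ ≤ C) ∧ ∀ h : W → ℂ, BM h →
      ∫ ω, f ω * h (p ω) ∂ρ = ∫ w, G w * h w ∂lam := by
  have hf : BM f := ⟨hfm, C, hC⟩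
  have hm := hp.measurable.comap_le
  have hgm : Measurable[MeasurableSpace.comap p inferInstance]
      (ρ[f | MeasurableSpace.comap p inferInstance]) := stronglyMeasurable_condExp.measurable
  obtain ⟨G₀, hG₀, hgG⟩ := hgm.exists_eq_measurable_comp
  have hbd : ∀ᵐ ω ∂ρ, ‖(ρ[f | MeasurableSpace.comap p inferInstance]) ω‖ ≤ C :=
    ae_bdd_norm_condExp_of_ae_bdd_norm (Eventually.of_forall hC)
  classical
  have hC0 : 0 ≤ C := by
    obtain ⟨ω⟩ := ρ.nonempty_of_neZero
    exact (norm_nonneg _).trans (hC ω)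
  have hGm : Measurable (fun w => if ‖G₀ w‖ ≤ C then G₀ w else 0) :=
    Measurable.ite (measurableSet_le hG₀.norm measurable_const) hG₀ measurable_const
  have hGC : ∀ w, ‖(fun w => if ‖G₀ w‖ ≤ C then G₀ w else 0) w‖ ≤ C := by
    intro w
    dsimp only
    split_ifs with h
    · exact h
    · rw [norm_zero]
      exact hC0
  have hG : BM (fun w => if ‖G₀ w‖ ≤ C then G₀ w else 0) := ⟨hGm, C, hGC⟩
  refine ⟨fun w => if ‖G₀ w‖ ≤ C then G₀ w else 0, hGm, hGC, fun h hh => ?_⟩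
  have hfh : BM (fun ω => f ω * h (p ω)) := hf.mul (hh.comp hp.measurable)
  have hhm : StronglyMeasurable[MeasurableSpace.comap p inferInstance] (fun ω => h (p ω)) :=
    (hh.1.comp (comap_measurable p)).stronglyMeasurable
  have e1 : ∫ ω, f ω * h (p ω) ∂ρ =
      ∫ ω, (ρ[fun ω => f ω * h (p ω) | MeasurableSpace.comap p inferInstance]) ω ∂ρ :=
    (integral_condExp hm).symm
  have e2 : ρ[fun ω => f ω * h (p ω) | MeasurableSpace.comap p inferInstance] =ᵐ[ρ]
      fun ω => (ρ[f | MeasurableSpace.comap p inferInstance]) ω * h (p ω) :=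
    condExp_bilin_of_stronglyMeasurable_right (ContinuousLinearMap.mul ℝ ℂ) hhm
      hfh.integrable hf.integrable
  have e3 : (fun ω => (ρ[f | MeasurableSpace.comap p inferInstance]) ω * h (p ω)) =ᵐ[ρ]
      fun ω => (fun w => (if ‖G₀ w‖ ≤ C then G₀ w else 0) * h w) (p ω) := by
    filter_upwards [hbd] with ω hω
    have h1 : (ρ[f | MeasurableSpace.comap p inferInstance]) ω = G₀ (p ω) := congrFun hgG ω
    rw [h1] at hω ⊢
    show G₀ (p ω) * h (p ω) = (if ‖G₀ (p ω)‖ ≤ C then G₀ (p ω) else 0) * h (p ω)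
    rw [if_pos hω]
  rw [e1, integral_congr_ae e2, integral_congr_ae e3]
  have e4 := integral_map (μ := ρ) hp.measurable.aemeasurable
    (f := fun w => (if ‖G₀ w‖ ≤ C then G₀ w else 0) * h w)
    (hG.mul hh).1.aestronglyMeasurable
  rw [hp.map_eq] at e4
  exact e4.symm

/-- Two bounded measurable functions with the same integrals against all bounded measurable functions
agree almost everywhere. -/
private theorem ka_ae_eq (lam : Measure W) [IsProbabilityMeasure lam] {L R : W → ℂ} (hL : BM L)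
    (hR : BM R) (h : ∀ h : W → ℂ, BM h → ∫ w, L w * h w ∂lam = ∫ w, R w * h w ∂lam) :
    L =ᵐ[lam] R := by
  have hd : BM fun w => L w - R w := hL.sub hR
  have h1 : ∫ w, (L w - R w) * conj (L w - R w) ∂lam = 0 := by
    have h2 := h (fun w => conj (L w - R w)) hd.conj
    have h3 : ∀ w, (L w - R w) * conj (L w - R w) =
        L w * conj (L w - R w) - R w * conj (L w - R w) := fun w => sub_mul _ _ _
    simp_rw [h3]
    rw [integral_sub (hL.mul hd.conj).integrable (hR.mul hd.conj).integrable, h2, sub_self]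
  have h4 : ∫ w, ‖L w - R w‖ ^ 2 ∂lam = 0 := by
    have h5 : ((∫ w, ‖L w - R w‖ ^ 2 ∂lam : ℝ) : ℂ) = 0 := by
      rw [← h1, ← integral_complex_ofReal]
      refine integral_congr_ae (Eventually.of_forall fun w => ?_)
      show ((‖L w - R w‖ ^ 2 : ℝ) : ℂ) = (L w - R w) * conj (L w - R w)
      rw [Complex.mul_conj, Complex.normSq_eq_norm_sq]
    exact_mod_cast h5
  have hint : Integrable (fun w => ‖L w - R w‖ ^ 2) lam := by
    obtain ⟨h1, C, hC⟩ := hd
    refine Integrable.of_bound (h1.norm.pow_const 2).aestronglyMeasurable (C ^ 2)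
      (Eventually.of_forall fun w => ?_)
    rw [Real.norm_of_nonneg (by positivity)]
    exact pow_le_pow_left₀ (norm_nonneg _) (hC w) 2
  have h6 := (integral_eq_zero_iff_of_nonneg (fun w => by positivity) hint).1 h4
  filter_upwards [h6] with w hw
  have h7 : ‖L w - R w‖ ^ 2 = 0 := hw
  have h8 : ‖L w - R w‖ = 0 := by
    rcases pow_eq_zero_iff (two_ne_zero) |>.1 h7 with h
    exact h
  exact sub_eq_zero.1 (norm_eq_zero.1 h8)

private theorem ka_one {d : ℕ} (c : W) (n : ℕ) (w : W) :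
    cc c (fun _ : W => (1 : Matrix (Fin d) (Fin d) ℂ)) n w = 1 := by
  induction n with
  | zero => rfl
  | succ n ih =>
    show (1 : Matrix (Fin d) (Fin d) ℂ) * cc c (fun _ : W => (1 : Matrix (Fin d) (Fin d) ℂ)) n w = 1
    rw [ih, one_mul]

private theorem ka_scal (c : W) (a : ℂ) (n : ℕ) (w : W) :
    cc c (fun _ : W => a • (1 : Matrix (Fin 1) (Fin 1) ℂ)) n w = (a ^ n) • 1 := by
  induction n with
  | zero =>
    show (1 : Matrix (Fin 1) (Fin 1) ℂ) = (a ^ 0) • 1
    rw [pow_zero, one_smul]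
  | succ n ih =>
    show (a • (1 : Matrix (Fin 1) (Fin 1) ℂ)) *
      cc c (fun _ : W => a • (1 : Matrix (Fin 1) (Fin 1) ℂ)) n w = (a ^ (n + 1)) • 1
    rw [ih, Matrix.smul_mul, Matrix.mul_smul, one_mul, smul_smul, pow_succ']

private theorem ka_uc_scal (d : ℕ) (a : ℂ) (ha : ‖a‖ = 1) :
    UC (fun _ : W => a • (1 : Matrix (Fin d) (Fin d) ℂ)) := by
  have h1 : star a * a = 1 := by
    have h : star a = conj a := rfl
    rw [h, mul_comm, Complex.mul_conj, Complex.normSq_eq_norm_sq, ha]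
    norm_num
  refine ⟨fun i j => BM.const _, fun w => ?_, fun w => ?_⟩
  · rw [Matrix.conjTranspose_smul, Matrix.conjTranspose_one, Matrix.smul_mul, Matrix.mul_smul,
      smul_smul, one_mul, h1, one_smul]
  · rw [Matrix.conjTranspose_smul, Matrix.conjTranspose_one, Matrix.smul_mul, Matrix.mul_smul,
      smul_smul, one_mul, mul_comm a, h1, one_smul]

private theorem ka_uc_one (d : ℕ) : UC (fun _ : W => (1 : Matrix (Fin d) (Fin d) ℂ)) := by
  have := ka_uc_scal (W := W) d 1 norm_one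
  simpa using this

private theorem ka_char_bun {Y : Type*} [MeasurableSpace Y] {m : Measure Y} (R : Y → Y)
    (lam : Measure W) {c : W} {P : Y → W} (hK : KS m R lam c P) (χ : PontryaginDual W) :
    Bun m R P (fun _ : W => ch χ c • (1 : Matrix (Fin 1) (Fin 1) ℂ))
      (fun y => fun _ : Fin 1 => ch χ (P y)) := by
  refine ⟨ka_uc_scal 1 (ch χ c) (norm_ch χ c), fun _ => (bm_ch χ).comp hK.pres.measurable, ?_⟩
  filter_upwards [hK.rot] with y hy
  rw [hy, Matrix.smul_mulVec, Matrix.one_mulVec]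
  funext i
  rw [Pi.smul_apply, smul_eq_mul, ch_mul_right]

private theorem ka_bound {Y : Type*} [MeasurableSpace Y] {d : ℕ} {E : Y → Fin d → ℂ}
    (hE : BMR E) : ∃ C : ℝ, ∀ y k, ‖E y k‖ ≤ C := by
  choose hm C hC using hE
  refine ⟨∑ k, |C k|, fun y k => ?_⟩
  exact ((hC k y).trans (le_abs_self _)).trans
    (Finset.single_le_sum (f := fun k => |C k|) (fun _ _ => abs_nonneg _) (Finset.mem_univ k))

/-- Proof. For a character `ψ` let `G` be the function of `exists_cexp` (BE) for `conj ψ(ω) • ξ ω`, `r`, `t`, and `cexp_eq` with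
`ζ = conj ψ(c) z`, `A = cc c Φ r`, `B = 1`: `G(c^r w) = ζ • (cc c Φ r w * G w)`; `cc c (fun _ => 1) r w = 1` (induction). By
`roots_decomp` (TB, `A = Φ`, `B = fun _ => 1`) `G` is a sum of solutions of `Tw lam c Φ (fun _ => 1) η_j G_j`, `‖η_j‖ = 1`, which vanish by
`hN`. So `∫ ξ_i0 conj ψ = ∫ G_i0 = 0` for all `ψ`: `fourier_zero` (BB). -/
theorem ne_pow (lam : Measure W) [lam.IsHaarMeasure] [IsProbabilityMeasure lam] {c : W}
    (hc : Free c) {d : ℕ} {Φ : W → Matrix (Fin d) (Fin d) ℂ} (hΦ : UC Φ) (hN : NE lam c Φ)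
    (r : ℕ) (hr : 1 ≤ r) (t : W) (z : ℂ) (hz : ‖z‖ = 1) (ξ : W → Matrix (Fin d) (Fin 1) ℂ)
    (hξ : BMM ξ) (heq : ∀ᵐ ω ∂lam, ξ (c * ω) = z • (cc c Φ r (t * ω ^ r) * ξ ω)) :
    ∀ᵐ ω ∂lam, ξ ω = 0 := by
  have hcoef : ∀ (i : Fin d) (j : Fin 1) (ψ : PontryaginDual W),
      ∫ ω, ξ ω i j * conj (ch ψ ω) ∂lam = 0 := by
    intro i j ψ
    have hXψ : BMM fun ω => conj (ch ψ ω) • ξ ω := fun i j => (bm_ch ψ).conj.mul (hξ i j)
    obtain ⟨G, hG, hGX⟩ := exists_cexp lam hc r hr t _ hXψ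
    have hAr : UC (cc c Φ r) := hΦ.cc c r
    have heqψ : ∀ᵐ ω ∂lam, (conj (ch ψ (c * ω)) • ξ (c * ω)) *
        (fun _ : W => (1 : Matrix (Fin 1) (Fin 1) ℂ)) (t * ω ^ r) =
        (conj (ch ψ c) * z) • (cc c Φ r (t * ω ^ r) * (conj (ch ψ ω) • ξ ω)) := by
      filter_upwards [heq] with ω hω
      show (conj (ch ψ (c * ω)) • ξ (c * ω)) * (1 : Matrix (Fin 1) (Fin 1) ℂ) = _
      rw [Matrix.mul_one, hω, Matrix.mul_smul, smul_smul, smul_smul, ch_mul_right, map_mul]
      congr 1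
      ring
    have hGe := cexp_eq lam r t _ G hXψ hG hGX (conj (ch ψ c) * z) (cc c Φ r)
      (fun _ : W => (1 : Matrix (Fin 1) (Fin 1) ℂ)) hAr.bm (ka_uc_one 1).bm heqψ
    have hζ : ‖conj (ch ψ c) * z‖ = 1 := by rw [norm_mul, RCLike.norm_conj, norm_ch, hz, one_mul]
    have hGe' : ∀ᵐ w ∂lam, G (c ^ r * w) *
        cc c (fun _ : W => (1 : Matrix (Fin 1) (Fin 1) ℂ)) r w =
        (conj (ch ψ c) * z) • (cc c Φ r w * G w) := by
      filter_upwards [hGe] with w hw
      rw [ka_one]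
      exact hw
    obtain ⟨η, G', h1, h2⟩ := roots_decomp lam c Φ (fun _ : W => (1 : Matrix (Fin 1) (Fin 1) ℂ)) hΦ
      (ka_uc_one 1) r hr (conj (ch ψ c) * z) hζ G hG hGe'
    have h3 : ∀ j, ∀ᵐ w ∂lam, G' j w = 0 := fun j => hN (G' j) (η j) (h1 j).2.1 (h1 j).2.2
    have h4 : ∀ᵐ w ∂lam, G w = 0 := by
      filter_upwards [h2, ae_all_iff.2 h3] with w hw1 hw2
      rw [hw1]
      exact Finset.sum_eq_zero fun j _ => hw2 j
    have e1 := hGX i j (fun _ => 1) (BM.const 1)
    have e2 : ∫ w, G w i j * (1 : ℂ) ∂lam = 0 := by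
      have : ∫ w, G w i j * (1 : ℂ) ∂lam = ∫ _w : W, (0 : ℂ) ∂lam := by
        refine integral_congr_ae ?_
        filter_upwards [h4] with w hw
        rw [hw, Matrix.zero_apply, zero_mul]
      rw [this, integral_zero]
    rw [e2] at e1
    rw [← e1]
    refine integral_congr_ae (Eventually.of_forall fun ω => ?_)
    show ξ ω i j * conj (ch ψ ω) = (conj (ch ψ ω) • ξ ω) i j * 1
    rw [Matrix.smul_apply, smul_eq_mul]
    ring
  have h5 : ∀ i j, ∀ᵐ ω ∂lam, ξ ω i j = 0 := fun i j =>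
    fourier_zero lam (fun ω => ξ ω i j) (hξ i j) (hcoef i j)
  filter_upwards [ae_all_iff.2 fun i => ae_all_iff.2 (h5 i)] with ω hω
  ext i j
  exact hω i j

/-- Proof. As in `exists_cexp` (BE) there is a bounded measurable `G : W → Matrix (Fin d) (Fin 1) ℂ` with
`∫ E_i h(P) dm = ∫ G_i0 h dlam` for all bounded measurable `h` (conditional expectation given `P`, `hK.pres`), and
`G(c w) = Φ(w) G(w)` (test with `h`, substitution by `R`: `hE.eq`, `hK.rot`), so `G = 0` a.e. by `hN` with `z = 1`; `h = 1`. -/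
theorem bun_int_zero {Y : Type*} [MeasurableSpace Y] [StandardBorelSpace Y] {m : Measure Y}
    [IsProbabilityMeasure m] (R : Y ≃ᵐ Y) (lam : Measure W) [lam.IsHaarMeasure]
    [IsProbabilityMeasure lam] {c : W} {P : Y → W} (hK : KS m R lam c P) {d : ℕ}
    {Φ : W → Matrix (Fin d) (Fin d) ℂ} {E : Y → Fin d → ℂ} (hE : Bun m R P Φ E)
    (hN : NE lam c Φ) (i : Fin d) : ∫ y, E y i ∂m = 0 := by
  obtain ⟨C, hC⟩ := ka_bound hE.bm
  choose G hGm hGC hGI using fun k => ka_cexp m lam hK.pres (fun y => E y k) (hE.bm k).1 C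
    (fun y => hC y k)
  have hGB : ∀ k, BM (G k) := fun k => ⟨hGm k, C, hGC k⟩
  have hΦb : ∀ k l, BM fun w => Φ w k l := hE.uc.bm
  have hmul : Measurable fun w : W => c * w := measurable_const_mul c
  have hmul' : Measurable fun w : W => c⁻¹ * w := measurable_const_mul c⁻¹
  have hPm : Measurable P := hK.pres.measurable
  have hRp : MeasurePreserving R m m := hK.erg.toMeasurePreserving
  have key : ∀ k, (fun w => G k (c * w)) =ᵐ[lam] fun w => ∑ l, Φ w k l * G l w := by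
    intro k
    refine ka_ae_eq lam ((hGB k).comp hmul) (BM.sum _ fun l _ => (hΦb k l).mul (hGB l))
      fun h hh => ?_
    have b1 : ∫ w, G k (c * w) * h w ∂lam = ∫ w, G k w * h (c⁻¹ * w) ∂lam := by
      have := integral_mul_left_eq_self (μ := lam) (fun w => G k w * h (c⁻¹ * w)) c
      rw [← this]
      refine integral_congr_ae (Eventually.of_forall fun w => ?_)
      simp only [inv_mul_cancel_left]
    have b2 := hGI k (fun w => h (c⁻¹ * w)) (hh.comp hmul')
    have b3 : ∫ y, E y k * h (c⁻¹ * P y) ∂m = ∫ y, E (R y) k * h (c⁻¹ * P (R y)) ∂m := by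
      have e2 := integral_map (μ := m) hRp.measurable.aemeasurable
        (f := fun y => E y k * h (c⁻¹ * P y))
        ((hE.bm k).mul ((hh.comp hmul').comp hPm)).1.aestronglyMeasurable
      rw [hRp.map_eq] at e2
      exact e2
    have b4 : ∫ y, E (R y) k * h (c⁻¹ * P (R y)) ∂m =
        ∫ y, ∑ l, E y l * (Φ (P y) k l * h (P y)) ∂m := by
      refine integral_congr_ae ?_
      filter_upwards [hE.eq, hK.rot] with y h1 h2
      rw [h1, h2, inv_mul_cancel_left]
      show (∑ l, Φ (P y) k l * E y l) * h (P y) = _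
      rw [Finset.sum_mul]
      exact Finset.sum_congr rfl fun l _ => by ring
    have b5 : ∫ y, ∑ l, E y l * (Φ (P y) k l * h (P y)) ∂m =
        ∑ l, ∫ w, G l w * (Φ w k l * h w) ∂lam := by
      rw [integral_finsetSum _ fun l _ =>
        ((hE.bm l).mul (((hΦb k l).mul hh).comp hPm)).integrable]
      exact Finset.sum_congr rfl fun l _ => hGI l (fun w => Φ w k l * h w) ((hΦb k l).mul hh)
    have b6 : ∫ w, (∑ l, Φ w k l * G l w) * h w ∂lam =
        ∑ l, ∫ w, G l w * (Φ w k l * h w) ∂lam := by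
      rw [← integral_finsetSum _ fun l _ => ((hGB l).mul ((hΦb k l).mul hh)).integrable]
      refine integral_congr_ae (Eventually.of_forall fun w => ?_)
      show (∑ l, Φ w k l * G l w) * h w = ∑ l, G l w * (Φ w k l * h w)
      rw [Finset.sum_mul]
      exact Finset.sum_congr rfl fun l _ => by ring
    show ∫ w, G k (c * w) * h w ∂lam = ∫ w, (∑ l, Φ w k l * G l w) * h w ∂lam
    rw [b1, ← b2, b3, b4, b5, b6]
  have hTw : Tw lam c Φ (fun _ : W => (1 : Matrix (Fin 1) (Fin 1) ℂ)) 1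
      (fun w => Matrix.of fun k (_ : Fin 1) => G k w) := by
    refine ⟨fun k _ => hGB k, ?_⟩
    filter_upwards [ae_all_iff.2 key] with w hw
    rw [Matrix.mul_one, one_smul]
    ext k j
    rw [Matrix.mul_apply]
    exact hw k
  have h0 := hN _ 1 norm_one hTw
  have e1 := hGI i (fun _ => 1) (BM.const 1)
  simp_rw [mul_one] at e1
  rw [e1]
  have e2 : ∫ w, G i w ∂lam = ∫ _w : W, (0 : ℂ) ∂lam := by
    refine integral_congr_ae ?_
    filter_upwards [h0] with w hw
    have := congrFun (congrFun hw i) 0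
    exact this
  rw [e2, integral_zero]

/-- Proof. `f = χ ∘ P` is the coordinate of the bundle `E₁ y = fun _ : Fin 1 => ch χ (P y)`, `Φ₁ = fun _ => ch χ c • 1`; by induction
`cc c Φ₁ r w = ch χ c ^ r • 1`. For different primes `r, s` (coprime) which are bad for `ε`, `exists_D` (PA; `h0` by `bun_int_zero`) gives
`D : W → Matrix (Fin 1) (Fin d) ℂ` with `D(c ω) Φ^(s)(t' ω^s) = χ(c)^r D(ω)`, so `ξ = Dᴴ` satisfies
`ξ(c ω) = conj χ(c)^r • (Φ^(s)(t' ω^s) ξ ω)`, `ξ = 0` a.e. by `ne_pow`, and `ε < 0`, a contradiction. So there are no bad pairs. -/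
theorem few_char_bun {Y : Type*} [MeasurableSpace Y] [StandardBorelSpace Y] {m : Measure Y}
    [IsProbabilityMeasure m] (R : Y ≃ᵐ Y) (lam : Measure W) [lam.IsHaarMeasure]
    [IsProbabilityMeasure lam] {c : W} {P : Y → W} (hK : KS m R lam c P) {d : ℕ}
    {Φ : W → Matrix (Fin d) (Fin d) ℂ} {E : Y → Fin d → ℂ} (hE : Bun m R P Φ E)
    (hN : NE lam c Φ) (i : Fin d) (χ : PontryaginDual W) :
    Few m R (fun y => ch χ (P y)) (fun y => E y i) := by
  obtain ⟨C', hC'⟩ := ka_bound hE.bm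
  intro ε hε
  refine ⟨0, fun k _ s hs Q hQ hbad => ?_⟩
  have hQ0 : Q = ∅ := by
    rw [Finset.eq_empty_iff_forall_notMem]
    intro r hr
    obtain ⟨hrs, hb⟩ := hbad r hr
    have hrp : r.Prime := (mem_PB.1 (hQ hr)).2
    have hsp : s.Prime := (mem_PB.1 hs).2
    obtain ⟨t, t', D, ⟨hD, hDe⟩, -, hlt⟩ := exists_D R lam hK (ka_char_bun R lam hK χ) hE 1 C'
      (fun y _ => (norm_ch χ (P y)).le) hC' r s hrp.one_lt.le hsp.one_lt.le
      ((Nat.coprime_primes hrp hsp).2 hrs) 0 i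
      (by rw [bun_int_zero R lam hK hE hN i, map_zero, mul_zero]) ε hb
    have hz : ‖conj (ch χ c ^ r)‖ = 1 := by
      rw [RCLike.norm_conj, norm_pow, norm_ch, one_pow]
    have hξ : BMM fun ω => (D ω)ᴴ := hD.conj
    have hcs : UC (cc c Φ s) := hE.uc.cc c s
    have heq : ∀ᵐ ω ∂lam, (D (c * ω))ᴴ =
        conj (ch χ c ^ r) • (cc c Φ s (t' * ω ^ s) * (D ω)ᴴ) := by
      filter_upwards [hDe] with ω hω
      have h1 : D (c * ω) = (ch χ c ^ r) • (D ω * (cc c Φ s (t' * ω ^ s))ᴴ) := by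
        calc D (c * ω) = D (c * ω) * (cc c Φ s (t' * ω ^ s) * (cc c Φ s (t' * ω ^ s))ᴴ) := by
              rw [hcs.right, Matrix.mul_one]
          _ = (D (c * ω) * cc c Φ s (t' * ω ^ s)) * (cc c Φ s (t' * ω ^ s))ᴴ := by
              rw [Matrix.mul_assoc]
          _ = (ch χ c ^ r) • (D ω * (cc c Φ s (t' * ω ^ s))ᴴ) := by
              rw [hω, ka_scal, Matrix.smul_mul, Matrix.one_mul, Matrix.smul_mul]
      rw [h1, Matrix.conjTranspose_smul, Matrix.conjTranspose_mul,
        Matrix.conjTranspose_conjTranspose]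
      rfl
    have h0 := ne_pow lam hK.free hE.uc hN s hsp.one_lt.le t' _ hz _ hξ heq
    have h2 : ∫ ω, D ω 0 i ∂lam = ∫ _w : W, (0 : ℂ) ∂lam := by
      refine integral_congr_ae ?_
      filter_upwards [h0] with w hw
      have h3 : D w = 0 := Matrix.conjTranspose_eq_zero.1 hw
      rw [h3]
      rfl
    rw [h2, integral_zero, norm_zero] at hlt
    exact absurd hlt (not_lt.2 hε.le)
  rw [hQ0, Finset.card_empty]
  push_cast
  positivity

/-- Proof. As `few_char_bun`; here `D : W → Matrix (Fin d) (Fin 1) ℂ`, `D(c ω) χ(c)^s = Φ^(r)(t ω^r) D(ω)`: `ne_pow` for `ξ = D`,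
`z = conj χ(c)^s`. -/
theorem few_bun_char {Y : Type*} [MeasurableSpace Y] [StandardBorelSpace Y] {m : Measure Y}
    [IsProbabilityMeasure m] (R : Y ≃ᵐ Y) (lam : Measure W) [lam.IsHaarMeasure]
    [IsProbabilityMeasure lam] {c : W} {P : Y → W} (hK : KS m R lam c P) {d : ℕ}
    {Φ : W → Matrix (Fin d) (Fin d) ℂ} {E : Y → Fin d → ℂ} (hE : Bun m R P Φ E)
    (hN : NE lam c Φ) (i : Fin d) (χ : PontryaginDual W) :
    Few m R (fun y => E y i) (fun y => ch χ (P y)) := by
  obtain ⟨C', hC'⟩ := ka_bound hE.bm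
  intro ε hε
  refine ⟨0, fun k _ s hs Q hQ hbad => ?_⟩
  have hQ0 : Q = ∅ := by
    rw [Finset.eq_empty_iff_forall_notMem]
    intro r hr
    obtain ⟨hrs, hb⟩ := hbad r hr
    have hrp : r.Prime := (mem_PB.1 (hQ hr)).2
    have hsp : s.Prime := (mem_PB.1 hs).2
    obtain ⟨t, t', D, ⟨hD, hDe⟩, -, hlt⟩ := exists_D R lam hK hE (ka_char_bun R lam hK χ) C' 1
      hC' (fun y _ => (norm_ch χ (P y)).le) r s hrp.one_lt.le hsp.one_lt.le
      ((Nat.coprime_primes hrp hsp).2 hrs) i 0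
      (by rw [bun_int_zero R lam hK hE hN i, zero_mul]) ε hb
    have hz : ‖conj (ch χ c ^ s)‖ = 1 := by
      rw [RCLike.norm_conj, norm_pow, norm_ch, one_pow]
    have heq : ∀ᵐ ω ∂lam, D (c * ω) =
        conj (ch χ c ^ s) • (cc c Φ r (t * ω ^ r) * D ω) := by
      filter_upwards [hDe] with ω hω
      rw [ka_scal, Matrix.mul_smul, Matrix.mul_one] at hω
      rw [← hω, smul_smul]
      have h1 : conj (ch χ c ^ s) * ch χ c ^ s = 1 := by
        rw [map_pow, ← mul_pow, mul_comm, ch_mul_conj, one_pow]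
      rw [h1, one_smul]
    have h0 := ne_pow lam hK.free hE.uc hN r hrp.one_lt.le t _ hz _ hD heq
    have h2 : ∫ ω, D ω i 0 ∂lam = ∫ _w : W, (0 : ℂ) ∂lam := by
      refine integral_congr_ae ?_
      filter_upwards [h0] with w hw
      rw [hw]
      rfl
    rw [h2, integral_zero, norm_zero] at hlt
    exact absurd hlt (not_lt.2 hε.le)
  rw [hQ0, Finset.card_empty]
  push_cast
  positivity

end Pool.Agent.Lib.H82OH
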