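import Pool.Agent.Lib.H82OH.BB
import Pool.Agent.Lib.H82OH.N7

/-!
# Project H82OH, chunk KC: characters against characters
-/

open MeasureTheory Filter Topology Finset
open scoped ComplexConjugate Matrix

namespace Pool.Agent.Lib.H82OH

open Pool.Agent.Lib.H22M Pool.Agent.Lib.H82T Pool.Agent.Lib.H82OT Pool.Agent.Lib.H82OF

variable {W : Type*} [CommGroup W] [TopologicalSpace W] [IsTopologicalGroup W] [CompactSpace W]
  [T2Space W] [SecondCountableTopology W] [MeasurableSpace W] [BorelSpace W]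

private theorem kc_rot {Y : Type*} [MeasurableSpace Y] {m : Measure Y} {R : Y → Y}
    (hR : MeasurePreserving R m m) {c : W} {P : Y → W}
    (h : ∀ᵐ y ∂m, P (R y) = c * P y) (n : ℕ) : ∀ᵐ y ∂m, P (R^[n] y) = c ^ n * P y := by
  induction n with
  | zero => exact Eventually.of_forall fun y => by simp
  | succ n ih =>
    have h2 := (hR.iterate n).quasiMeasurePreserving.ae h
    filter_upwards [ih, h2] with y h3 h4
    rw [Function.iterate_succ_apply', h4, h3, pow_succ', mul_assoc]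

private theorem kc_int {Ω Ω' : Type*} [MeasurableSpace Ω] [MeasurableSpace Ω'] {μ : Measure Ω}
    {ν : Measure Ω'} {T : Ω → Ω'} (hT : MeasurePreserving T μ ν) (F : Ω' → ℂ)
    (hF : Measurable F) : ∫ z, F (T z) ∂μ = ∫ z, F z ∂ν := by
  have h := integral_map (μ := μ) hT.measurable.aemeasurable (f := F) hF.aestronglyMeasurable
  rw [hT.map_eq] at h
  exact h.symm

private theorem kc_ne_one {c : W} (hc : Free c) {χ : PontryaginDual W} (hχ : χ ≠ 1) {i j : ℕ}
    (hij : i < j) (h : ch χ c ^ i = ch χ c ^ j) : False := by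
  apply hχ
  refine hc χ (j - i) (Nat.sub_pos_of_lt hij) ?_
  have h1 : ch χ c ^ i ≠ 0 := pow_ne_zero _ (ch_ne_zero χ c)
  have h2 : ch χ c ^ i * ch χ c ^ (j - i) = ch χ c ^ i * 1 := by
    rw [← pow_add, Nat.add_sub_cancel' hij.le, mul_one, h]
  exact mul_left_cancel₀ h1 h2

private theorem kc_bad {Y : Type*} [MeasurableSpace Y] {m : Measure Y}
    [IsProbabilityMeasure m] (R : Y ≃ᵐ Y) (lam : Measure W) [lam.IsHaarMeasure]
    [IsProbabilityMeasure lam] {c : W} {P : Y → W} (hK : KS m R lam c P)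
    (χ χ' : PontryaginDual W) (ε : ℝ) (hε : 0 < ε) (r s : ℕ)
    (hbad : BadP m R (fun y => ch χ (P y)) (fun y => ch χ' (P y)) ε r s) :
    ch χ c ^ r = ch χ' c ^ s ∧ ¬ (χ = 1 ∧ χ' = 1) := by
  obtain ⟨ρ, hJ, hlt⟩ := hbad
  have hρ := hJ.prob
  have hPm : Measurable P := hK.pres.measurable
  have hR : MeasurePreserving R m m := hK.erg.toMeasurePreserving
  have hm1 : MeasurePreserving Prod.fst ρ m := ⟨measurable_fst, hJ.fst⟩
  have hm2 : MeasurePreserving Prod.snd ρ m := ⟨measurable_snd, hJ.snd⟩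
  have hr1 := hm1.quasiMeasurePreserving.ae (kc_rot hR hK.rot r)
  have hs1 := hm2.quasiMeasurePreserving.ae (kc_rot hR hK.rot s)
  have hFm : Measurable fun z : Y × Y => ch χ (P z.1) * conj (ch χ' (P z.2)) := by
    have h1 : Measurable fun z : Y × Y => ch χ (P z.1) :=
      (continuous_ch χ).measurable.comp (hPm.comp measurable_fst)
    have h2 : Measurable fun z : Y × Y => ch χ' (P z.2) :=
      (continuous_ch χ').measurable.comp (hPm.comp measurable_snd)
    exact h1.mul (Complex.continuous_conj.measurable.comp h2)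
  -- the case of two trivial characters
  have hne : ¬ (χ = 1 ∧ χ' = 1) := by
    rintro ⟨rfl, rfl⟩
    have h1 : (∫ z : Y × Y, ch (1 : PontryaginDual W) (P z.1) *
        conj (ch (1 : PontryaginDual W) (P z.2)) ∂ρ) = 1 := by
      simp_rw [ch_one_left, map_one, mul_one]
      rw [integral_const]
      simp
    have h2 : (∫ y, ch (1 : PontryaginDual W) (P y) ∂m) = 1 := by
      simp_rw [ch_one_left]
      rw [integral_const]
      simp
    have h3 : ε < ‖(∫ z : Y × Y, ch (1 : PontryaginDual W) (P z.1) *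
        conj (ch (1 : PontryaginDual W) (P z.2)) ∂ρ) -
        (∫ y, ch (1 : PontryaginDual W) (P y) ∂m) *
          conj (∫ y, ch (1 : PontryaginDual W) (P y) ∂m)‖ := hlt
    rw [h1, h2, map_one, mul_one, sub_self, norm_zero] at h3
    exact absurd hε (not_lt.2 h3.le)
  refine ⟨?_, hne⟩
  -- the product of the means vanishes
  have hmean : ∀ θ : PontryaginDual W, θ ≠ 1 → ∫ y, ch θ (P y) ∂m = 0 := by
    intro θ hθ
    rw [kc_int hK.pres (fun w => ch θ w) (continuous_ch θ).measurable]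
    exact int_ch lam θ hθ
  have hprod : (∫ y, ch χ (P y) ∂m) * conj (∫ y, ch χ' (P y) ∂m) = 0 := by
    by_cases h1 : χ = 1
    · have h2 : χ' ≠ 1 := fun h => hne ⟨h1, h⟩
      rw [hmean χ' h2, map_zero, mul_zero]
    · rw [hmean χ h1, zero_mul]
  have hlt' : ε < ‖(∫ z : Y × Y, ch χ (P z.1) * conj (ch χ' (P z.2)) ∂ρ) -
      (∫ y, ch χ (P y) ∂m) * conj (∫ y, ch χ' (P y) ∂m)‖ := hlt
  rw [hprod, sub_zero] at hlt'
  have hI0 : (∫ z : Y × Y, ch χ (P z.1) * conj (ch χ' (P z.2)) ∂ρ) ≠ 0 := by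
    intro h
    rw [h, norm_zero] at hlt'
    exact absurd hε (not_lt.2 hlt'.le)
  have hinv := kc_int hJ.inv (fun z : Y × Y => ch χ (P z.1) * conj (ch χ' (P z.2))) hFm
  have hcalc : (∫ z : Y × Y, (fun z : Y × Y => ch χ (P z.1) * conj (ch χ' (P z.2)))
      (Prod.map (R^[r]) (R^[s]) z) ∂ρ) =
      (ch χ c ^ r * conj (ch χ' c ^ s)) *
        ∫ z : Y × Y, ch χ (P z.1) * conj (ch χ' (P z.2)) ∂ρ := by
    rw [← integral_const_mul]
    refine integral_congr_ae ?_
    filter_upwards [hr1, hs1] with z h1 h2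
    show ch χ (P (R^[r] z.1)) * conj (ch χ' (P (R^[s] z.2))) =
      (ch χ c ^ r * conj (ch χ' c ^ s)) * (ch χ (P z.1) * conj (ch χ' (P z.2)))
    rw [h1, h2, ch_mul_right, ch_mul_right, ch_pow_right, ch_pow_right, map_mul]
    ring
  have hone : ch χ c ^ r * conj (ch χ' c ^ s) = 1 := by
    rw [hinv] at hcalc
    have h1 : (1 : ℂ) * (∫ z : Y × Y, ch χ (P z.1) * conj (ch χ' (P z.2)) ∂ρ) =
        (ch χ c ^ r * conj (ch χ' c ^ s)) *
          ∫ z : Y × Y, ch χ (P z.1) * conj (ch χ' (P z.2)) ∂ρ := by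
      rw [one_mul]
      exact hcalc
    exact (mul_right_cancel₀ hI0 h1).symm
  have hcc : conj (ch χ' c ^ s) * ch χ' c ^ s = 1 := by
    rw [map_pow, ← mul_pow, mul_comm, ch_mul_conj, one_pow]
  calc ch χ c ^ r = ch χ c ^ r * (conj (ch χ' c ^ s) * ch χ' c ^ s) := by rw [hcc, mul_one]
    _ = (ch χ c ^ r * conj (ch χ' c ^ s)) * ch χ' c ^ s := by rw [mul_assoc]
    _ = ch χ' c ^ s := by rw [hone, one_mul]

/-- Proof. Let `ρ` be a joining of `R^r` and `R^s`. `∫ χ(P z.1) conj χ'(P z.2) dρ` is unchanged under multiplication by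
`χ(c)^r conj χ'(c)^s` (invariance of `ρ`, `P (R^r y) = c^r P y` a.e.), and `(∫ χ∘P dm) conj (∫ χ'∘P dm)` is `1` if `χ = χ' = 1` and `0`
otherwise (`hK.pres`, `int_ch`). If `χ = χ' = 1` the difference is `0`, there are no bad pairs. Otherwise a bad pair satisfies
`χ(c)^r = χ'(c)^s`. If `χ = 1`, then `χ'(c)^s = 1`, `χ' = 1` (`Free`), a contradiction. If `χ ≠ 1`: for fixed `s` two bad `r < r₁` would give
`χ(c)^(r₁ - r) = 1`, a contradiction. So `Q.card ≤ 1 ≤ ε |PB k|` for large `k` (`card_PB_large`, N7). -/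
theorem few_char_char {Y : Type*} [MeasurableSpace Y] [StandardBorelSpace Y] {m : Measure Y}
    [IsProbabilityMeasure m] (R : Y ≃ᵐ Y) (lam : Measure W) [lam.IsHaarMeasure]
    [IsProbabilityMeasure lam] {c : W} {P : Y → W} (hK : KS m R lam c P)
    (χ χ' : PontryaginDual W) :
    Few m R (fun y => ch χ (P y)) (fun y => ch χ' (P y)) := by
  intro ε hε
  obtain ⟨k0, hk0⟩ := card_PB_large (1 / ε)
  refine ⟨k0, fun k hk s hs Q hQ hbad => ?_⟩
  have hcard : Q.card ≤ 1 := by
    rw [Finset.card_le_one]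
    intro r hr r₁ hr₁
    obtain ⟨h1, h2⟩ := kc_bad R lam hK χ χ' ε hε r s (hbad r hr).2
    obtain ⟨h3, _⟩ := kc_bad R lam hK χ χ' ε hε r₁ s (hbad r₁ hr₁).2
    have hχ : χ ≠ 1 := by
      intro h
      apply h2
      refine ⟨h, ?_⟩
      rw [h, ch_one_left, one_pow] at h1
      exact hK.free χ' s (mem_PB.1 hs).2.one_lt.le h1.symm
    by_contra hne
    rcases lt_or_gt_of_ne hne with hlt | hlt
    · exact kc_ne_one hK.free hχ hlt (h1.trans h3.symm)
    · exact kc_ne_one hK.free hχ hlt (h3.trans h1.symm)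
  have h1 : (Q.card : ℝ) ≤ 1 := by exact_mod_cast hcard
  have h2 : 1 ≤ ε * (PB k).card := by
    have h3 := hk0 k hk
    rw [div_le_iff₀ hε] at h3
    linarith
  exact h1.trans h2

end Pool.Agent.Lib.H82OH
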