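import Pool.Agent.Lib.H82OH.LB

/-!
# Project H82OH, chunk LC: the group of the translations with a lift
-/

open MeasureTheory Filter Topology Finset
open scoped ComplexConjugate Matrix

namespace Pool.Agent.Lib.H82OH

open Pool.Agent.Lib.H22M Pool.Agent.Lib.H82T Pool.Agent.Lib.H82OT Pool.Agent.Lib.H82OF

variable {W : Type*} [CommGroup W] [TopologicalSpace W] [IsTopologicalGroup W] [CompactSpace W]
  [T2Space W] [SecondCountableTopology W] [MeasurableSpace W] [BorelSpace W]

/-- Proof. `LG` is the union of the sets `{β | 1/(n+1) ≤ MM β}` (`mm_pos_iff`), which are closed by `mm_usc`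
(`isClosed_iff_ultrafilter` with `I = W`). -/
theorem measurableSet_lg (lam : Measure W) [lam.IsHaarMeasure] [IsProbabilityMeasure lam] {c : W}
    {d : ℕ} (hd : 0 < d) {Φ : W → Matrix (Fin d) (Fin d) ℂ} (hΦ : UC Φ)
    (hI : Ic lam c Φ) : MeasurableSet (LG lam c Φ) := by
  have h : LG lam c Φ = ⋃ n : ℕ, {β : W | 1 / ((n : ℝ) + 1) ≤ MM lam c Φ β} := by
    ext β
    rw [← mm_pos_iff lam hd Φ β]
    simp only [Set.mem_iUnion, Set.mem_ofPred_eq]
    constructor
    · intro hp
      obtain ⟨n, hn⟩ := exists_nat_one_div_lt hp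
      exact ⟨n, hn.le⟩
    · rintro ⟨n, hn⟩
      have hpos : (0 : ℝ) < 1 / ((n : ℝ) + 1) := by positivity
      exact lt_of_lt_of_le hpos hn
  rw [h]
  refine MeasurableSet.iUnion fun n => IsClosed.measurableSet ?_
  rw [isClosed_iff_ultrafilter]
  intro x u hu hs
  have hpos : (0 : ℝ) < 1 / ((n : ℝ) + 1) := by positivity
  exact mm_usc lam hd hΦ hI u (fun w => w) x hu _ hpos hs

open scoped Pointwise in
/-- Proof. `LG` is a subgroup (`UL.mul`, `UL.inv`, TA; `1` is in it: `UL.self` with `n = 0`). Suppose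
`lam (LG) ≠ 0`. Steinhaus (`MeasureTheory.Measure.div_mem_nhds_one_of_haar_pos`, measurable by `measurableSet_lg`):
`LG / LG ⊆ LG` is a neighbourhood of `1`, so `LG` is an open subgroup of the compact group `W`, of finite index `n`
(`Subgroup.finiteIndex` of an open subgroup, quotient finite), and `w^n ∈ LG` for all `w`; every element of `W`
is an `n`-th power (`Free.divisible`, BA). -/
theorem lg_dichotomy (lam : Measure W) [lam.IsHaarMeasure] [IsProbabilityMeasure lam] {c : W}
    (hc : Free c) {d : ℕ} (hd : 0 < d) {Φ : W → Matrix (Fin d) (Fin d) ℂ} (hΦ : UC Φ)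
    (hI : Ic lam c Φ) : lam (LG lam c Φ) = 0 ∨ LG lam c Φ = Set.univ := by
  classical
  by_cases h0 : lam (LG lam c Φ) = 0
  · exact Or.inl h0
  right
  have hm := measurableSet_lg lam hd hΦ hI
  let G : Subgroup W :=
    { carrier := LG lam c Φ
      mul_mem' := fun {a b} ha hb => by
        obtain ⟨κ, γ, h⟩ := ha
        obtain ⟨κ', γ', h'⟩ := hb
        exact ⟨_, _, h.mul h'⟩
      one_mem' := by
        have h1 := UL.self (lam := lam) (c := c) hΦ 0
        rw [pow_zero] at h1
        exact ⟨_, _, h1⟩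
      inv_mem' := fun {a} ha => by
        obtain ⟨κ, γ, h⟩ := ha
        exact ⟨_, _, h.inv hΦ⟩ }
  have hnhds : LG lam c Φ / LG lam c Φ ∈ 𝓝 (1 : W) :=
    Measure.div_mem_nhds_one_of_haar_pos lam _ hm (pos_iff_ne_zero.2 h0)
  have hsub : LG lam c Φ / LG lam c Φ ⊆ (G : Set W) := by
    rintro x ⟨a, ha, b, hb, rfl⟩
    exact G.div_mem ha hb
  have hopen : IsOpen (G : Set W) := G.isOpen_of_mem_nhds (Filter.mem_of_superset hnhds hsub)
  have : Finite (W ⧸ G) := G.quotient_finite_of_isOpen hopen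
  have : G.FiniteIndex := Subgroup.finiteIndex_of_finite_quotient
  have hidx : 1 ≤ G.index := Nat.one_le_iff_ne_zero.2 Subgroup.FiniteIndex.index_ne_zero
  ext w
  refine ⟨fun _ => Set.mem_univ _, fun _ => ?_⟩
  obtain ⟨v, hv⟩ := hc.divisible G.index hidx w
  have h2 : v ^ G.index ∈ G := Subgroup.pow_index_mem G v
  rw [hv] at h2
  exact h2

end Pool.Agent.Lib.H82OH
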