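import Pool.Agent.Lib.H82OH.LB

/-!
# Project H82OH, chunk LF: Bessel inequality for the limits of lifts
-/

open MeasureTheory Filter Topology Finset
open scoped ComplexConjugate Matrix

namespace Pool.Agent.Lib.H82OH

open Pool.Agent.Lib.H22M Pool.Agent.Lib.H82T Pool.Agent.Lib.H82OT Pool.Agent.Lib.H82OF

variable {W : Type*} [CommGroup W] [TopologicalSpace W] [IsTopologicalGroup W] [CompactSpace W]
  [T2Space W] [SecondCountableTopology W] [MeasurableSpace W] [BorelSpace W]

/-- The square of the norm of a difference, expanded. -/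
private theorem lf_sq {Y : Type*} [MeasurableSpace Y] (lam : Measure Y) [IsProbabilityMeasure lam]
    {J : Type*} [Fintype J] (f : Y → ℂ)
    (hf : BM f) (g : J → Y → ℂ) (hg : ∀ a, BM (g a)) :
    0 ≤ (∫ w, f w * conj (f w) ∂lam).re - 2 * (∑ a, ∫ w, f w * conj (g a w) ∂lam).re
      + (∑ a, ∑ b, ∫ w, g a w * conj (g b w) ∂lam).re := by
  have hI : ∀ a, Integrable (fun w => f w * conj (g a w)) lam := fun a =>
    (hf.mul (hg a).conj).integrable
  have hI' : ∀ a, Integrable (fun w => conj (f w * conj (g a w))) lam := fun a =>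
    (hf.mul (hg a).conj).conj.integrable
  have hI2 : ∀ a b, Integrable (fun w => g a w * conj (g b w)) lam := fun a b =>
    ((hg a).mul (hg b).conj).integrable
  have hI3 : Integrable (fun w => f w * conj (f w)) lam := (hf.mul hf.conj).integrable
  have h0 : ∀ w, (f w - ∑ a, g a w) * conj (f w - ∑ a, g a w) =
      f w * conj (f w) - ∑ a, f w * conj (g a w) - ∑ a, conj (f w * conj (g a w))
        + ∑ a, ∑ b, g a w * conj (g b w) := by
    intro w
    have e1 : ∑ a, f w * conj (g a w) = f w * ∑ a, conj (g a w) := (Finset.mul_sum _ _ _).symm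
    have e2 : ∑ a, conj (f w * conj (g a w)) = (∑ a, g a w) * conj (f w) := by
      rw [Finset.sum_mul]
      refine Finset.sum_congr rfl fun a _ => ?_
      rw [map_mul, Complex.conj_conj, mul_comm]
    have e3 : ∑ a, ∑ b, g a w * conj (g b w) = (∑ a, g a w) * ∑ b, conj (g b w) := by
      rw [Finset.sum_mul]
      refine Finset.sum_congr rfl fun a _ => ?_
      rw [Finset.mul_sum]
    rw [e1, e2, e3, map_sub, map_sum]
    ring
  have h1 : ∫ w, (f w - ∑ a, g a w) * conj (f w - ∑ a, g a w) ∂lam =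
      ∫ w, f w * conj (f w) ∂lam - ∑ a, ∫ w, f w * conj (g a w) ∂lam
        - conj (∑ a, ∫ w, f w * conj (g a w) ∂lam)
        + ∑ a, ∑ b, ∫ w, g a w * conj (g b w) ∂lam := by
    have e4 : ∫ w, ∑ a, f w * conj (g a w) ∂lam = ∑ a, ∫ w, f w * conj (g a w) ∂lam :=
      integral_finsetSum _ fun a _ => hI a
    have e5 : ∫ w, ∑ a, conj (f w * conj (g a w)) ∂lam =
        conj (∑ a, ∫ w, f w * conj (g a w) ∂lam) := by
      rw [integral_finsetSum _ fun a _ => hI' a, map_sum]
      exact Finset.sum_congr rfl fun a _ => integral_conj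
    have e6 : ∫ w, ∑ a, ∑ b, g a w * conj (g b w) ∂lam =
        ∑ a, ∑ b, ∫ w, g a w * conj (g b w) ∂lam := by
      rw [integral_finsetSum _ fun a _ => integrable_finsetSum _ fun b _ => hI2 a b]
      exact Finset.sum_congr rfl fun a _ => integral_finsetSum _ fun b _ => hI2 a b
    have i1 : Integrable (fun w => ∑ a, f w * conj (g a w)) lam :=
      integrable_finsetSum _ fun a _ => hI a
    have i2 : Integrable (fun w => ∑ a, conj (f w * conj (g a w))) lam :=
      integrable_finsetSum _ fun a _ => hI' a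
    have i3 : Integrable (fun w => ∑ a, ∑ b, g a w * conj (g b w)) lam :=
      integrable_finsetSum _ fun a _ => integrable_finsetSum _ fun b _ => hI2 a b
    have i12 : Integrable (fun w => f w * conj (f w) - ∑ a, f w * conj (g a w)) lam := hI3.sub i1
    have i123 : Integrable (fun w => f w * conj (f w) - ∑ a, f w * conj (g a w)
        - ∑ a, conj (f w * conj (g a w))) lam := i12.sub i2
    rw [← e5, ← e4, ← e6, ← integral_sub hI3 i1, ← integral_sub i12 i2, ← integral_add i123 i3]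
    exact integral_congr_ae (Eventually.of_forall h0)
  have h2 : 0 ≤ (∫ w, (f w - ∑ a, g a w) * conj (f w - ∑ a, g a w) ∂lam).re := by
    have e : ∀ w, (f w - ∑ a, g a w) * conj (f w - ∑ a, g a w) =
        ((‖f w - ∑ a, g a w‖ ^ 2 : ℝ) : ℂ) := by
      intro w
      rw [Complex.mul_conj, Complex.normSq_eq_norm_sq]
    have e' : ∫ w, (f w - ∑ a, g a w) * conj (f w - ∑ a, g a w) ∂lam =
        ∫ w, ((‖f w - ∑ a, g a w‖ ^ 2 : ℝ) : ℂ) ∂lam :=
      integral_congr_ae (Eventually.of_forall e)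
    have e3 : ∫ w, ((‖f w - ∑ a, g a w‖ ^ 2 : ℝ) : ℂ) ∂lam =
        ((∫ w, ‖f w - ∑ a, g a w‖ ^ 2 ∂lam : ℝ) : ℂ) := integral_ofReal
    rw [e', e3, Complex.ofReal_re]
    exact integral_nonneg fun w => by positivity
  rw [h1, Complex.add_re, Complex.sub_re, Complex.sub_re, Complex.conj_re] at h2
  linarith

/-- The sum of the squares of the entries of a multiple of a unitary matrix. -/
private theorem lf_trace {d : ℕ} (M : Matrix (Fin d) (Fin d) ℂ) (z : ℂ) (h : Mᴴ * M = z • 1) :
    ∑ k, ∑ l, M k l * conj (M k l) = (d : ℂ) * z := by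
  have h1 : ∀ l, ∑ k, M k l * conj (M k l) = z := by
    intro l
    have h2 : (Mᴴ * M) l l = (z • (1 : Matrix (Fin d) (Fin d) ℂ)) l l := by rw [h]
    rw [Matrix.mul_apply, Matrix.smul_apply, Matrix.one_apply_eq, smul_eq_mul, mul_one] at h2
    rw [← h2]
    refine Finset.sum_congr rfl fun k _ => ?_
    rw [Matrix.conjTranspose_apply, mul_comm]
    rfl
  rw [Finset.sum_comm, Finset.sum_congr rfl fun l _ => h1 l, Finset.sum_const, Finset.card_univ,
    Fintype.card_fin, nsmul_eq_mul]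

private theorem lf_entry {d : ℕ} (M : Matrix (Fin d) (Fin d) ℂ) (h : Mᴴ * M = 1) (k l : Fin d) :
    ‖M k l‖ ≤ 1 := by
  have h2 : (Mᴴ * M) l l = (1 : Matrix (Fin d) (Fin d) ℂ) l l := by rw [h]
  rw [Matrix.mul_apply, Matrix.one_apply_eq] at h2
  have h3 : ∑ j, ‖M j l‖ ^ 2 = 1 := by
    have h4 : ((∑ j, ‖M j l‖ ^ 2 : ℝ) : ℂ) = 1 := by
      rw [← h2, Complex.ofReal_sum]
      refine Finset.sum_congr rfl fun j _ => ?_
      rw [Matrix.conjTranspose_apply, ← Complex.normSq_eq_norm_sq, ← Complex.mul_conj, mul_comm]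
      rfl
    exact_mod_cast h4
  have h5 : ‖M k l‖ ^ 2 ≤ 1 := by
    rw [← h3]
    exact Finset.single_le_sum (f := fun j => ‖M j l‖ ^ 2) (fun j _ => by positivity)
      (Finset.mem_univ k)
  nlinarith [norm_nonneg (M k l)]

/-- Fourier coefficients at characters which leave every finite set. -/
private theorem lf_coeff (lam : Measure W) [lam.IsHaarMeasure] [IsProbabilityMeasure lam]
    (f : W → ℂ) (hf : BM f) {I : Type*} (𝒰 : Ultrafilter I) (χ χ' : I → PontryaginDual W)
    (hχ : ∀ σ : PontryaginDual W, ∀ᶠ i in (𝒰 : Filter I), χ i ≠ σ * χ' i) :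
    Tendsto (fun i => ∫ w, f w * (conj (ch (χ i) w) * ch (χ' i) w) ∂lam) 𝒰 (𝓝 0) := by
  rw [Metric.tendsto_nhds]
  intro η hη
  have h1 := finite_coeff lam f hf η hη
  have h2 : ∀ᶠ i in (𝒰 : Filter I), ∀ σ ∈ {χ : PontryaginDual W |
      η ≤ ‖∫ w, f w * conj (ch χ w) ∂lam‖}, χ i ≠ σ * χ' i :=
    (Filter.eventually_all_finite h1).2 fun σ _ => hχ σ
  filter_upwards [h2] with i hi
  rw [dist_zero_right]
  by_contra hcon
  push Not at hcon
  have h3 : ∀ w, f w * (conj (ch (χ i) w) * ch (χ' i) w) =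
      f w * conj (ch (χ i * (χ' i)⁻¹) w) := by
    intro w
    rw [ch_mul_left, ch_inv_left, map_mul, Complex.conj_conj]
  have h4 : ∫ w, f w * (conj (ch (χ i) w) * ch (χ' i) w) ∂lam =
      ∫ w, f w * conj (ch (χ i * (χ' i)⁻¹) w) ∂lam :=
    integral_congr_ae (Eventually.of_forall h3)
  rw [h4] at hcon
  refine hi (χ i * (χ' i)⁻¹) hcon ?_
  rw [inv_mul_cancel_right]

/-- Proof. For `a : J` let `G_a` be the weak limit along `𝒰` of `χ_{a,i} γ_i` (`exists_wlim`, BD, entrywise; replace `γ_i` by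
`0` where it is not a unitary lift), a limit of the unitary lifts `χ_{a,i} γ_i` of `β_i` (`UL.char`). `lim_lift` (LA):
`s_a`; `u a = s_a`. `‖∫ (G_a)_kl‖ ≤ s_a MM β₀`: clear for `s_a = 0`, otherwise `s_a⁻¹ • G_a` is a unitary lift of `β₀`
(`norm_int_le_mm`, LB); and `∫ χ_{a,i} (γ_i)_kl → ∫ (G_a)_kl`.
Bessel: expand `0 ≤ d⁻¹ ∫ tr (Xᴴ X)`, `X = γ_i - ∑_a conj χ_{a,i} G_a`. `d⁻¹ ∫ tr(γ_iᴴ γ_i) = 1`;
`d⁻¹ ∫ tr((χ_{a,i} γ_i)ᴴ G_a) → d⁻¹ ∫ tr(G_aᴴ G_a) = s_a²` (conjugate of the weak convergence tested with the conjugates of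
the entries of `G_a`), and `∫ χ_{a,i} conj χ_{b,i} tr(G_aᴴ G_b) → 0` for `a ≠ b`: it is a Fourier coefficient of the fixed
bounded function `tr(G_aᴴ G_b)` at a character which by `hχ` leaves every finite set along `𝒰` (`finite_coeff`, BB), and
`= d s_a²` for `a = b`. In the limit: `0 ≤ 1 - 2 ∑ s_a² + ∑ s_a²`. -/
theorem bessel_lift (lam : Measure W) [lam.IsHaarMeasure] [IsProbabilityMeasure lam] {c : W}
    {d : ℕ} (hd : 0 < d) {Φ : W → Matrix (Fin d) (Fin d) ℂ} (hΦ : UC Φ)
    (hI : Ic lam c Φ) {I : Type*} (𝒰 : Ultrafilter I) (β : I → W) (β₀ : W)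
    (hβ : Tendsto β 𝒰 (𝓝 β₀)) (κ : I → ℂ) (γ : I → W → Matrix (Fin d) (Fin d) ℂ)
    (hγ : ∀ᶠ i in (𝒰 : Filter I), UL lam c Φ (β i) (κ i) (γ i)) {J : Type*} [Fintype J]
    (χ : J → I → PontryaginDual W)
    (hχ : ∀ a b : J, a ≠ b → ∀ σ : PontryaginDual W,
      ∀ᶠ i in (𝒰 : Filter I), χ a i ≠ σ * χ b i) (k l : Fin d) :
    ∃ u : J → ℝ, (∀ a, 0 ≤ u a) ∧ ∑ a, u a ^ 2 ≤ 1 ∧ ∀ a, ∀ η : ℝ, 0 < η →
      ∀ᶠ i in (𝒰 : Filter I),
        ‖∫ w, ch (χ a i) w * γ i w k l ∂lam‖ ≤ u a * MM lam c Φ β₀ + η := by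
  classical
  -- the lifts, replaced by `0` for the other indices
  obtain ⟨γt, hγt⟩ : ∃ γt : I → W → Matrix (Fin d) (Fin d) ℂ, γt = fun i =>
      if UL lam c Φ (β i) (κ i) (γ i) then γ i else fun _ => 0 := ⟨_, rfl⟩
  have ht1 : ∀ i, UL lam c Φ (β i) (κ i) (γ i) → γt i = γ i := fun i hi => by
    rw [hγt]; exact if_pos hi
  have hbm : ∀ i k l, BM fun w => γt i w k l := by
    intro i k l
    by_cases hi : UL lam c Φ (β i) (κ i) (γ i)
    · rw [ht1 i hi]
      exact hi.bm k l
    · have h1 : γt i = fun _ => 0 := by rw [hγt]; exact if_neg hi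
      rw [h1]
      exact BM.const 0
  have hbd : ∀ i k l, ∀ᵐ w ∂lam, ‖γt i w k l‖ ≤ 1 := by
    intro i k l
    by_cases hi : UL lam c Φ (β i) (κ i) (γ i)
    · rw [ht1 i hi]
      filter_upwards [hi.left] with w hw
      exact lf_entry _ hw k l
    · have h1 : γt i = fun _ => 0 := by rw [hγt]; exact if_neg hi
      rw [h1]
      refine Eventually.of_forall fun w => ?_
      show ‖(0 : ℂ)‖ ≤ 1
      rw [norm_zero]
      exact zero_le_one
  -- the weak limits
  have hex : ∀ (a : J) (k l : Fin d), ∃ G : W → ℂ, Measurable G ∧ (∀ ω, ‖G ω‖ ≤ 1) ∧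
      ∀ h : W → ℂ, BM h → Tendsto (fun i => ∫ w, (ch (χ a i) w * γt i w k l) * h w ∂lam) 𝒰
        (𝓝 (∫ w, G w * h w ∂lam)) := by
    intro a k l
    refine exists_wlim lam 𝒰 (fun i w => ch (χ a i) w * γt i w k l) (fun i => ?_) 1 fun i => ?_
    · exact ((bm_ch (χ a i)).mul (hbm i k l)).1
    · filter_upwards [hbd i k l] with w hw
      rw [norm_mul, norm_ch, one_mul]
      exact hw
  choose G hGm hGb hGw using hex
  have hGBM : ∀ a k l, BM (G a k l) := fun a k l => ⟨hGm a k l, 1, hGb a k l⟩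
  have hlim := fun a : J => lim_lift lam hd hΦ hI 𝒰 β β₀ hβ (fun i => ch (χ a i) c * κ i)
    (fun i w => (1 * ch (χ a i) w) • γ i w) (hγ.mono fun i hi => hi.char (χ a i) 1 norm_one)
    (fun w => Matrix.of fun k l => G a k l w) (fun k l => hGBM a k l) (fun k l h hh => by
      refine (hGw a k l h hh).congr' ?_
      filter_upwards [hγ] with i hi
      refine integral_congr_ae (Eventually.of_forall fun w => ?_)
      show ch (χ a i) w * γt i w k l * h w = ((1 * ch (χ a i) w) • γ i w) k l * h w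
      rw [ht1 i hi, Matrix.smul_apply, smul_eq_mul, one_mul])
  choose s κ₀ hs0 hs1 hκ₀ hsq hsz hsul using hlim
  refine ⟨s, hs0, ?_, ?_⟩
  · -- Bessel
    have hD : ∀ a, ∑ k, ∑ l, ∫ w, G a k l w * conj (G a k l w) ∂lam = (d : ℂ) * (s a : ℂ) ^ 2 := by
      intro a
      have i1 : ∀ k l, Integrable (fun w => G a k l w * conj (G a k l w)) lam := fun k l =>
        ((hGBM a k l).mul (hGBM a k l).conj).integrable
      have e1 : ∑ k, ∑ l, ∫ w, G a k l w * conj (G a k l w) ∂lam =
          ∫ w, ∑ k, ∑ l, G a k l w * conj (G a k l w) ∂lam := by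
        rw [integral_finsetSum _ fun k _ => integrable_finsetSum _ fun l _ => i1 k l]
        exact Finset.sum_congr rfl fun k _ => (integral_finsetSum _ fun l _ => i1 k l).symm
      have e2 : ∫ w, ∑ k, ∑ l, G a k l w * conj (G a k l w) ∂lam =
          ∫ _w : W, (d : ℂ) * (s a : ℂ) ^ 2 ∂lam := by
        refine integral_congr_ae ?_
        filter_upwards [hsq a] with w hw
        exact lf_trace _ _ hw
      rw [e1, e2, integral_const]
      simp
    have hA : Tendsto (fun i => ∑ k, ∑ l, (∫ w, γt i w k l * conj (γt i w k l) ∂lam).re) 𝒰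
        (𝓝 (d : ℝ)) := by
      refine tendsto_const_nhds.congr' ?_
      filter_upwards [hγ] with i hi
      have i1 : ∀ k l, Integrable (fun w => γt i w k l * conj (γt i w k l)) lam := fun k l =>
        ((hbm i k l).mul (hbm i k l).conj).integrable
      have e1 : ∑ k, ∑ l, ∫ w, γt i w k l * conj (γt i w k l) ∂lam = (d : ℂ) := by
        have e2 : ∑ k, ∑ l, ∫ w, γt i w k l * conj (γt i w k l) ∂lam =
            ∫ w, ∑ k, ∑ l, γt i w k l * conj (γt i w k l) ∂lam := by
          rw [integral_finsetSum _ fun k _ => integrable_finsetSum _ fun l _ => i1 k l]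
          exact Finset.sum_congr rfl fun k _ => (integral_finsetSum _ fun l _ => i1 k l).symm
        have e3 : ∫ w, ∑ k, ∑ l, γt i w k l * conj (γt i w k l) ∂lam = ∫ _w : W, (d : ℂ) ∂lam := by
          refine integral_congr_ae ?_
          filter_upwards [hi.left] with w hw
          rw [ht1 i hi, lf_trace (γ i w) 1 (by rw [hw, one_smul]), mul_one]
        rw [e2, e3, integral_const]
        simp
      have e4 := congrArg Complex.re e1
      rw [Complex.re_sum, Complex.natCast_re] at e4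
      rw [← e4]
      exact Finset.sum_congr rfl fun k _ => Complex.re_sum _ _
    have hB : ∀ (a : J) (k l : Fin d), Tendsto
        (fun i => ∫ w, γt i w k l * conj (conj (ch (χ a i) w) * G a k l w) ∂lam) 𝒰
        (𝓝 (∫ w, G a k l w * conj (G a k l w) ∂lam)) := by
      intro a k l
      refine (hGw a k l (fun w => conj (G a k l w)) (hGBM a k l).conj).congr fun i => ?_
      refine integral_congr_ae (Eventually.of_forall fun w => ?_)
      show ch (χ a i) w * γt i w k l * conj (G a k l w) =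
        γt i w k l * conj (conj (ch (χ a i) w) * G a k l w)
      rw [map_mul, Complex.conj_conj]
      ring
    have hC : ∀ (a b : J) (k l : Fin d), Tendsto
        (fun i => ∫ w, (conj (ch (χ a i) w) * G a k l w) * conj (conj (ch (χ b i) w) * G b k l w) ∂lam)
        𝒰 (𝓝 (if a = b then ∫ w, G a k l w * conj (G a k l w) ∂lam else 0)) := by
      intro a b k l
      by_cases hab : a = b
      · subst hab
        rw [if_pos rfl]
        refine tendsto_const_nhds.congr fun i => ?_
        refine integral_congr_ae (Eventually.of_forall fun w => ?_)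
        show G a k l w * conj (G a k l w) =
          (conj (ch (χ a i) w) * G a k l w) * conj (conj (ch (χ a i) w) * G a k l w)
        rw [map_mul, Complex.conj_conj]
        have h1 := ch_mul_conj (χ a i) w
        linear_combination -(G a k l w * conj (G a k l w)) * h1
      · rw [if_neg hab]
        refine (lf_coeff lam (fun w => G a k l w * conj (G b k l w))
          ((hGBM a k l).mul (hGBM b k l).conj) 𝒰 (χ a) (χ b) (hχ a b hab)).congr fun i => ?_
        refine integral_congr_ae (Eventually.of_forall fun w => ?_)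
        show G a k l w * conj (G b k l w) * (conj (ch (χ a i) w) * ch (χ b i) w) =
          (conj (ch (χ a i) w) * G a k l w) * conj (conj (ch (χ b i) w) * G b k l w)
        rw [map_mul, Complex.conj_conj]
        ring
    have hineq : ∀ i, 0 ≤ ∑ k, ∑ l, (∫ w, γt i w k l * conj (γt i w k l) ∂lam).re
        - 2 * (∑ k, ∑ l, ∑ a, ∫ w, γt i w k l * conj (conj (ch (χ a i) w) * G a k l w) ∂lam).re
        + (∑ k, ∑ l, ∑ a, ∑ b, ∫ w, (conj (ch (χ a i) w) * G a k l w) *
            conj (conj (ch (χ b i) w) * G b k l w) ∂lam).re := by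
      intro i
      have h1 : ∀ k l, 0 ≤ (∫ w, γt i w k l * conj (γt i w k l) ∂lam).re
          - 2 * (∑ a, ∫ w, γt i w k l * conj (conj (ch (χ a i) w) * G a k l w) ∂lam).re
          + (∑ a, ∑ b, ∫ w, (conj (ch (χ a i) w) * G a k l w) *
              conj (conj (ch (χ b i) w) * G b k l w) ∂lam).re := fun k l =>
        lf_sq lam (fun w => γt i w k l) (hbm i k l)
          (fun a w => conj (ch (χ a i) w) * G a k l w)
          (fun a => (bm_ch (χ a i)).conj.mul (hGBM a k l))
      have h2 := Finset.sum_nonneg fun k (_ : k ∈ (Finset.univ : Finset (Fin d))) =>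
        Finset.sum_nonneg fun l (_ : l ∈ (Finset.univ : Finset (Fin d))) => h1 k l
      simp only [Finset.sum_add_distrib, Finset.sum_sub_distrib, ← Finset.mul_sum] at h2
      have h3 : ∀ F : Fin d → Fin d → ℂ, (∑ k, ∑ l, F k l).re = ∑ k, ∑ l, (F k l).re := by
        intro F
        rw [Complex.re_sum]
        exact Finset.sum_congr rfl fun k _ => Complex.re_sum _ _
      rw [h3, h3]
      exact h2
    have hlimit : Tendsto (fun i => ∑ k, ∑ l, (∫ w, γt i w k l * conj (γt i w k l) ∂lam).re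
        - 2 * (∑ k, ∑ l, ∑ a, ∫ w, γt i w k l * conj (conj (ch (χ a i) w) * G a k l w) ∂lam).re
        + (∑ k, ∑ l, ∑ a, ∑ b, ∫ w, (conj (ch (χ a i) w) * G a k l w) *
            conj (conj (ch (χ b i) w) * G b k l w) ∂lam).re) 𝒰
        (𝓝 ((d : ℝ) - 2 * (∑ k, ∑ l, ∑ a, ∫ w, G a k l w * conj (G a k l w) ∂lam).re
          + (∑ k, ∑ l, ∑ a, ∑ b, if a = b then ∫ w, G a k l w * conj (G a k l w) ∂lam else 0).re)) := by
      refine (hA.sub (Tendsto.const_mul 2 ?_)).add ?_
      · exact (Complex.continuous_re.tendsto _).comp (tendsto_finsetSum _ fun k _ =>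
          tendsto_finsetSum _ fun l _ => tendsto_finsetSum _ fun a _ => hB a k l)
      · exact (Complex.continuous_re.tendsto _).comp (tendsto_finsetSum _ fun k _ =>
          tendsto_finsetSum _ fun l _ => tendsto_finsetSum _ fun a _ =>
            tendsto_finsetSum _ fun b _ => hC a b k l)
    have hfin := ge_of_tendsto' hlimit hineq
    have h5 : ∑ k, ∑ l, ∑ a, ∫ w, G a k l w * conj (G a k l w) ∂lam =
        ∑ a, (d : ℂ) * (s a : ℂ) ^ 2 := by
      have h6 : ∑ k, ∑ l, ∑ a, ∫ w, G a k l w * conj (G a k l w) ∂lam =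
          ∑ a, ∑ k, ∑ l, ∫ w, G a k l w * conj (G a k l w) ∂lam := by
        rw [Finset.sum_congr rfl fun k _ => Finset.sum_comm, Finset.sum_comm]
      rw [h6]
      exact Finset.sum_congr rfl fun a _ => hD a
    have h7 : ∑ k, ∑ l, ∑ a, ∑ b, (if a = b then ∫ w, G a k l w * conj (G a k l w) ∂lam else 0) =
        ∑ k, ∑ l, ∑ a, ∫ w, G a k l w * conj (G a k l w) ∂lam := by
      refine Finset.sum_congr rfl fun k _ => Finset.sum_congr rfl fun l _ =>
        Finset.sum_congr rfl fun a _ => ?_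
      rw [Finset.sum_ite_eq, if_pos (Finset.mem_univ a)]
    rw [h7, h5] at hfin
    have h8 : (∑ a, (d : ℂ) * (s a : ℂ) ^ 2).re = (d : ℝ) * ∑ a, s a ^ 2 := by
      rw [Complex.re_sum, Finset.mul_sum]
      refine Finset.sum_congr rfl fun a _ => ?_
      have h9 : (d : ℂ) * (s a : ℂ) ^ 2 = (((d : ℝ) * s a ^ 2 : ℝ) : ℂ) := by push_cast; ring
      rw [h9, Complex.ofReal_re]
    rw [h8] at hfin
    have hd' : (0 : ℝ) < d := by exact_mod_cast hd
    by_contra hcon
    push Not at hcon
    nlinarith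
  · intro a η hη
    have h1 : ‖∫ w, G a k l w ∂lam‖ ≤ s a * MM lam c Φ β₀ := by
      rcases (hs0 a).eq_or_lt with h0 | h0
      · have h2 : ∫ w, G a k l w ∂lam = 0 := by
          have h3 : ∫ w, G a k l w ∂lam = ∫ _w : W, (0 : ℂ) ∂lam := by
            refine integral_congr_ae ?_
            filter_upwards [hsz a h0.symm] with w hw
            have h4 := congrFun (congrFun hw k) l
            exact h4
          rw [h3, integral_zero]
        rw [h2, norm_zero, ← h0, zero_mul]
      · have h2 := norm_int_le_mm (hsul a h0) k l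
        have h3 : ∫ w, (((s a : ℂ)⁻¹) • (Matrix.of fun k l => G a k l w)) k l ∂lam =
            ((s a : ℂ)⁻¹) * ∫ w, G a k l w ∂lam := by
          rw [← integral_const_mul]
          rfl
        rw [h3, norm_mul, norm_inv, Complex.norm_real, Real.norm_of_nonneg (hs0 a)] at h2
        rwa [inv_mul_le_iff₀ h0] at h2
    have h2 : Tendsto (fun i => ‖∫ w, (ch (χ a i) w * γt i w k l) * 1 ∂lam‖) 𝒰
        (𝓝 ‖∫ w, G a k l w * 1 ∂lam‖) := (hGw a k l (fun _ => 1) (BM.const 1)).norm
    have h3 : ‖∫ w, G a k l w * 1 ∂lam‖ < s a * MM lam c Φ β₀ + η := by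
      simp only [mul_one]
      linarith
    filter_upwards [hγ, h2.eventually_lt_const h3] with i hi h4
    simp only [mul_one] at h4
    rw [ht1 i hi] at h4
    exact h4.le

end Pool.Agent.Lib.H82OH
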