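import Pool.Agent.Lib.H82OH.LE
import Pool.Agent.Lib.H82OH.LF

/-!
# Project H82OH, chunk LD: the correlations along a sequence of primes
-/

open MeasureTheory Filter Topology Finset
open scoped ComplexConjugate Matrix

namespace Pool.Agent.Lib.H82OH

open Pool.Agent.Lib.H22M Pool.Agent.Lib.H82T Pool.Agent.Lib.H82OT Pool.Agent.Lib.H82OF

variable {W : Type*} [CommGroup W] [TopologicalSpace W] [IsTopologicalGroup W] [CompactSpace W]
  [T2Space W] [SecondCountableTopology W] [MeasurableSpace W] [BorelSpace W]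

private theorem ld_int_sq (lam : Measure W) [IsProbabilityMeasure lam] (f : W → ℂ) (hf : BM f) :
    Integrable (fun w => ‖f w‖ ^ 2) lam := by
  obtain ⟨h1, C, hC⟩ := hf
  refine Integrable.of_bound (h1.norm.pow_const 2).aestronglyMeasurable (C ^ 2)
    (Eventually.of_forall fun w => ?_)
  rw [Real.norm_of_nonneg (by positivity)]
  exact pow_le_pow_left₀ (norm_nonneg _) (hC w) 2

private theorem ld_bmT (F : Finset (PontryaginDual W)) (t : PontryaginDual W → ℂ) :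
    BM fun w : W => ∑ χ ∈ F, t χ * ch χ w :=
  BM.sum F fun χ _ => (BM.const (t χ)).mul (bm_ch χ)

private theorem ld_normT (lam : Measure W) [lam.IsHaarMeasure] [IsProbabilityMeasure lam]
    (F : Finset (PontryaginDual W)) (t : PontryaginDual W → ℂ) :
    ∫ w, ‖∑ χ ∈ F, t χ * ch χ w‖ ^ 2 ∂lam = ∑ χ ∈ F, ‖t χ‖ ^ 2 := by
  have h := Pool.Agent.Lib.CompactAbelian.integral_normSq_trigPoly lam
    (fun j : F => (j : PontryaginDual W)) Subtype.val_injective (fun j : F => t j)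
  rw [Finset.sum_coe_sort F (fun χ => ‖t χ‖ ^ 2)] at h
  rw [← h]
  refine integral_congr_ae (Eventually.of_forall fun w => ?_)
  show ‖∑ χ ∈ F, t χ * ch χ w‖ ^ 2 = ‖∑ j : F, t j * ch (j : PontryaginDual W) w‖ ^ 2
  rw [Finset.sum_coe_sort F (fun χ => t χ * ch χ w)]

private theorem ld_small (lam : Measure W) [IsProbabilityMeasure lam] (g : W → ℂ) (hg : BM g)
    (e : ℝ) (he : 0 < e) (h : ∫ w, ‖g w‖ ^ 2 ∂lam ≤ e ^ 2) : ∫ w, ‖g w‖ ∂lam ≤ e := by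
  have hi := ld_int_sq lam g hg
  calc ∫ w, ‖g w‖ ∂lam ≤ ∫ w, (‖g w‖ ^ 2 / (2 * e) + e / 2) ∂lam := by
        refine integral_mono hg.integrable.norm ((hi.div_const _).add (integrable_const _))
          fun w => ?_
        have h1 : 0 ≤ (‖g w‖ - e) ^ 2 / (2 * e) := by positivity
        have h2 : (‖g w‖ - e) ^ 2 / (2 * e) = ‖g w‖ ^ 2 / (2 * e) + e / 2 - ‖g w‖ := by
          field_simp
          ring
        show ‖g w‖ ≤ ‖g w‖ ^ 2 / (2 * e) + e / 2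
        linarith
    _ = (∫ w, ‖g w‖ ^ 2 ∂lam) / (2 * e) + e / 2 := by
        rw [integral_add (hi.div_const _) (integrable_const _), integral_div]
        simp
    _ ≤ e ^ 2 / (2 * e) + e / 2 := by gcongr
    _ = e := by
        field_simp
        ring

private theorem ld_norm (lam : Measure W) [lam.IsHaarMeasure] [IsProbabilityMeasure lam]
    (H : W → ℂ) (hH : BM H) (hH1 : ∀ w, ‖H w‖ ≤ 1) (F : Finset (PontryaginDual W))
    (h : PontryaginDual W → ℂ) (e : ℝ) (he : 0 < e)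
    (hF : ∫ w, ‖H w - ∑ θ ∈ F, h θ * ch θ w‖ ^ 2 ∂lam ≤ e ^ 2) :
    ∑ θ ∈ F, ‖h θ‖ ^ 2 ≤ (1 + e) ^ 2 := by
  have hD : BM fun w => H w - ∑ θ ∈ F, h θ * ch θ w := hH.sub (ld_bmT F h)
  have hi := ld_int_sq lam _ hD
  rw [← ld_normT lam F h]
  calc ∫ w, ‖∑ θ ∈ F, h θ * ch θ w‖ ^ 2 ∂lam
      ≤ ∫ w, ((1 + e) + (1 + 1 / e) * ‖H w - ∑ θ ∈ F, h θ * ch θ w‖ ^ 2) ∂lam := by
        refine integral_mono (ld_int_sq lam _ (ld_bmT F h))
          ((integrable_const _).add (hi.const_mul _)) fun w => ?_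
        show ‖∑ θ ∈ F, h θ * ch θ w‖ ^ 2 ≤
          (1 + e) + (1 + 1 / e) * ‖H w - ∑ θ ∈ F, h θ * ch θ w‖ ^ 2
        have h1 : ‖∑ θ ∈ F, h θ * ch θ w‖ ≤ 1 + ‖H w - ∑ θ ∈ F, h θ * ch θ w‖ := by
          calc ‖∑ θ ∈ F, h θ * ch θ w‖ = ‖H w - (H w - ∑ θ ∈ F, h θ * ch θ w)‖ := by
                rw [sub_sub_cancel]
            _ ≤ ‖H w‖ + ‖H w - ∑ θ ∈ F, h θ * ch θ w‖ := norm_sub_le _ _
            _ ≤ 1 + ‖H w - ∑ θ ∈ F, h θ * ch θ w‖ := by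
                have := hH1 w
                linarith
        generalize ‖H w - ∑ θ ∈ F, h θ * ch θ w‖ = b at *
        have h2 : ‖∑ θ ∈ F, h θ * ch θ w‖ ^ 2 ≤ (1 + b) ^ 2 :=
          pow_le_pow_left₀ (norm_nonneg _) h1 2
        have h3 : 0 ≤ (b - e) ^ 2 / e := by positivity
        have h4 : (b - e) ^ 2 / e = b ^ 2 / e - 2 * b + e := by
          field_simp
          ring
        have h5 : (1 + 1 / e) * b ^ 2 = b ^ 2 + b ^ 2 / e := by ring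
        rw [h5]
        nlinarith
    _ = (1 + e) + (1 + 1 / e) * ∫ w, ‖H w - ∑ θ ∈ F, h θ * ch θ w‖ ^ 2 ∂lam := by
        rw [integral_add (integrable_const _) (hi.const_mul _), integral_const_mul]
        simp
    _ ≤ (1 + e) + (1 + 1 / e) * e ^ 2 := by gcongr
    _ = (1 + e) ^ 2 := by
        field_simp
        ring

private theorem ld_meas (n : ℕ) (t : W) : Measurable fun w : W => t * w ^ n :=
  (continuous_const.mul (continuous_id.pow n)).measurable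

private theorem ld_term (lam : Measure W) [IsProbabilityMeasure lam] (r s : ℕ)
    (ψ θ : PontryaginDual W) (t t' : W) (f : W → ℂ) :
    ∫ ω, ch ψ ω * f (t * ω ^ r) * ch θ (t' * ω ^ s) ∂lam =
      ch θ t' * ∫ ω, ch (ψ * θ ^ s) ω * f (t * ω ^ r) ∂lam := by
  rw [← integral_const_mul]
  refine integral_congr_ae (Eventually.of_forall fun ω => ?_)
  show ch ψ ω * f (t * ω ^ r) * ch θ (t' * ω ^ s) =
    ch θ t' * (ch (ψ * θ ^ s) ω * f (t * ω ^ r))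
  rw [ch_mul_right, ch_pow_right, ch_mul_left, ch_pow_left]
  ring

private theorem ld_sum (lam : Measure W) [IsProbabilityMeasure lam] (r s : ℕ)
    (ψ : PontryaginDual W) (t t' : W) (f : W → ℂ) (hf : BM f) (F : Finset (PontryaginDual W))
    (h : PontryaginDual W → ℂ) :
    ‖∫ ω, ch ψ ω * f (t * ω ^ r) * (∑ θ ∈ F, h θ * ch θ (t' * ω ^ s)) ∂lam‖ ≤
      ∑ θ ∈ F, ‖h θ‖ * ‖∫ ω, ch (ψ * θ ^ s) ω * f (t * ω ^ r) ∂lam‖ := by
  have h1 : ∀ ω, ch ψ ω * f (t * ω ^ r) * (∑ θ ∈ F, h θ * ch θ (t' * ω ^ s)) =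
      ∑ θ ∈ F, h θ * (ch ψ ω * f (t * ω ^ r) * ch θ (t' * ω ^ s)) := by
    intro ω
    rw [Finset.mul_sum]
    refine Finset.sum_congr rfl fun θ _ => ?_
    ring
  simp_rw [h1]
  have hbm : ∀ θ : PontryaginDual W, BM fun ω => ch ψ ω * f (t * ω ^ r) * ch θ (t' * ω ^ s) :=
    fun θ => ((bm_ch ψ).mul (hf.comp (ld_meas r t))).mul ((bm_ch θ).comp (ld_meas s t'))
  rw [integral_finsetSum F fun θ _ => (hbm θ).integrable.const_mul (h θ)]
  refine (norm_sum_le _ _).trans (Finset.sum_le_sum fun θ _ => ?_)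
  rw [integral_const_mul, norm_mul, ld_term lam r s ψ θ t t' f, norm_mul, norm_ch, one_mul]

private theorem ld_entry (lam : Measure W) [lam.IsHaarMeasure] [IsProbabilityMeasure lam] {c : W}
    (hc : Free c) {d : ℕ} {Φ : W → Matrix (Fin d) (Fin d) ℂ} {β : W} {κ : ℂ}
    {γ : W → Matrix (Fin d) (Fin d) ℂ} (h : UL lam c Φ β κ γ) (r : ℕ) (hr : 1 ≤ r) (t : W)
    (k l : Fin d) : ∀ᵐ ω ∂lam, ‖γ (t * ω ^ r) k l‖ ≤ 1 := by
  have h1 := (mp_pow lam hc r hr t).quasiMeasurePreserving.ae h.right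
  filter_upwards [h1] with ω hω
  exact unit_entry hω k l

private theorem ld_diff (lam : Measure W) [lam.IsHaarMeasure] [IsProbabilityMeasure lam] {c : W}
    (hc : Free c) {d : ℕ} {Φ : W → Matrix (Fin d) (Fin d) ℂ} {β : W} {κ : ℂ}
    {γ : W → Matrix (Fin d) (Fin d) ℂ} (h : UL lam c Φ β κ γ) (r s : ℕ) (hr : 1 ≤ r)
    (hs : 1 ≤ s) (ψ : PontryaginDual W) (t t' : W) (k l : Fin d) (g : W → ℂ) (hg : BM g)
    (e : ℝ) (he : 0 < e) (hge : ∫ w, ‖g w‖ ^ 2 ∂lam ≤ e ^ 2) :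
    ‖∫ ω, ch ψ ω * γ (t * ω ^ r) k l * g (t' * ω ^ s) ∂lam‖ ≤ e := by
  have hgc : BM fun ω => g (t' * ω ^ s) := hg.comp (ld_meas s t')
  have h1 : ‖∫ ω, ch ψ ω * γ (t * ω ^ r) k l * g (t' * ω ^ s) ∂lam‖ ≤
      ∫ ω, ‖g (t' * ω ^ s)‖ ∂lam := by
    refine norm_integral_le_of_norm_le hgc.integrable.norm ?_
    filter_upwards [ld_entry lam hc h r hr t k l] with ω hω
    rw [norm_mul, norm_mul, norm_ch, one_mul]
    exact mul_le_of_le_one_left (norm_nonneg _) hω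
  have h2 : ∫ ω, ‖g (t' * ω ^ s)‖ ∂lam = ∫ w, ‖g w‖ ∂lam := by
    have hmp := mp_pow lam hc s hs t'
    have h3 := integral_map (μ := lam) (φ := fun w : W => t' * w ^ s) hmp.measurable.aemeasurable
      (f := fun w => ‖g w‖) (hg.1.norm.aestronglyMeasurable)
    rw [hmp.map_eq] at h3
    exact h3.symm
  rw [h2] at h1
  exact h1.trans (ld_small lam g hg e he hge)

/-- Two characters with the same quotient for infinitely many indices. -/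
private theorem ld_ne {c : W} (hc : Free c) {I : Type*} (𝒰 : Ultrafilter I) (r s : I → ℕ)
    (hr : ∀ i, (r i).Prime) (hs : ∀ i, (s i).Prime) (hrs : ∀ i, r i ≠ s i)
    (hri : Tendsto r 𝒰 atTop) (ψ : I → PontryaginDual W) (θ θ' : PontryaginDual W)
    (hne : θ ≠ θ') (χ χ' : I → PontryaginDual W)
    (h1 : ∀ᶠ i in (𝒰 : Filter I), χ i ^ r i = ψ i * θ ^ s i)
    (h2 : ∀ᶠ i in (𝒰 : Filter I), χ' i ^ r i = ψ i * θ' ^ s i) (σ : PontryaginDual W) :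
    ∀ᶠ i in (𝒰 : Filter I), χ i ≠ σ * χ' i := by
  by_contra hcon
  have hcon' : ∀ᶠ i in (𝒰 : Filter I), χ i = σ * χ' i := by
    rw [← Ultrafilter.eventually_not] at hcon
    filter_upwards [hcon] with i hi
    exact not_not.1 hi
  have h3 : ∀ᶠ i in (𝒰 : Filter I), (θ * θ'⁻¹) ^ s i = σ ^ r i := by
    filter_upwards [h1, h2, hcon'] with i hi hi' hi''
    rw [hi'', mul_pow, hi'] at hi
    have h4 : σ ^ r i * θ' ^ s i = θ ^ s i := by
      have h5 : ψ i * (σ ^ r i * θ' ^ s i) = ψ i * θ ^ s i := by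
        rw [← hi, mul_left_comm]
      exact mul_left_cancel h5
    rw [mul_pow, inv_pow, ← h4, mul_inv_cancel_right]
  obtain ⟨i, hi⟩ := h3.exists
  obtain ⟨j, hj, hj'⟩ := (h3.and (hri.eventually (eventually_gt_atTop (r i)))).exists
  have hτ : θ * θ'⁻¹ ≠ 1 := fun h => hne (mul_inv_eq_one.1 h)
  have hσ : σ ≠ 1 := by
    intro h
    rw [h, one_pow] at hi
    exact hτ (hc.torsion _ (s i) (hs i).one_lt.le hi)
  have h6 : σ ^ (r i * s j) = σ ^ (r j * s i) := by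
    rw [pow_mul, ← hi, pow_mul σ (r j) (s i), ← hj, ← pow_mul, ← pow_mul, mul_comm (s i) (s j)]
  have h7 : r i * s j = r j * s i := by
    by_contra hne'
    rcases lt_or_gt_of_ne hne' with hlt | hlt
    · apply hσ
      refine hc.torsion σ (r j * s i - r i * s j) (Nat.sub_pos_of_lt hlt) ?_
      have h8 : σ ^ (r i * s j) * σ ^ (r j * s i - r i * s j) = σ ^ (r i * s j) * 1 := by
        rw [← pow_add, Nat.add_sub_cancel' hlt.le, mul_one, h6]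
      exact mul_left_cancel h8
    · apply hσ
      refine hc.torsion σ (r i * s j - r j * s i) (Nat.sub_pos_of_lt hlt) ?_
      have h8 : σ ^ (r j * s i) * σ ^ (r i * s j - r j * s i) = σ ^ (r j * s i) * 1 := by
        rw [← pow_add, Nat.add_sub_cancel' hlt.le, mul_one, h6]
      exact mul_left_cancel h8
  have h9 : r i ∣ r j * s i := ⟨s j, h7.symm⟩
  rcases (hr i).dvd_mul.1 h9 with h10 | h10
  · have h11 := (Nat.prime_dvd_prime_iff_eq (hr i) (hr j)).1 h10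
    omega
  · exact hrs i ((Nat.prime_dvd_prime_iff_eq (hr i) (hs i)).1 h10)

/-- Proof. Suppose not: for infinitely many `i` there are `ψ_i, t_i, t'_i, κ_i, γ_i, k_i, l_i` violating the inequality; let `𝒰` be
an ultrafilter `≤ atTop` containing the set of these `i`; along `𝒰` `k_i = k`, `l_i = l` are constant. Let `η₁ = η/8` (`≤ 1`) and
`H' = ∑_{θ ∈ F} h_θ θ` with `∫ ‖H - H'‖² ≤ η₁²` (`tg_approx`), so `(∑ ‖h_θ‖²)^(1/2) = ‖H'‖_2 ≤ 1 + η₁`. Since `‖(γ_i)_kl‖ ≤ 1` a.e.,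
replacing `H` by `H'` changes the integral by at most `η₁` (`mp_pow`, BA). For `θ ∈ F`:
`∫ ψ_i(ω) γ_i(t_i ω^{r_i})_kl θ(t'_i ω^{s_i}) = θ(t'_i) ∫ (ψ_i θ^{s_i})(ω) γ_i(t_i ω^{r_i})_kl`, which is `0` if `ψ_i θ^{s_i}` is not an
`r_i`-th power (`int_not_pow`, LE), and of absolute value `‖∫ χ_{θ,i} (γ_i)_kl‖` if `ψ_i θ^{s_i} = χ_{θ,i}^{r_i}` (`int_is_pow`). The set
`F' ⊆ F` of the `θ` for which it is an `r_i`-th power is constant along `𝒰`. `bessel_lift` (LF) for `J = F'`: its hypothesis `hχ`: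
let `θ ≠ θ'` in `F'`, `τ = θ θ'⁻¹ ≠ 1`, and suppose `χ_{θ,i} = σ χ_{θ',i}` for `𝒰`-many, so infinitely many `i`; then
`σ^{r_i} = τ^{s_i}`. `σ ≠ 1` (`Free.torsion`). For two such `i, i'`: `σ^{r_i s_i'} = τ^{s_i s_i'} = σ^{r_i' s_i}`, so
`r_i s_i' = r_i' s_i` (torsion free) and `r_i = r_i'` (primes, `r_i ≠ s_i`). But `r → ∞`, a contradiction. So for
`𝒰`-almost all `i` the integral with `H'` is at most `∑_{θ ∈ F'} ‖h_θ‖ (u_θ MM β₀ + η₂) ≤ (1 + η₁) MM β₀ + η₂ ∑ ‖h_θ‖ ≤ MM β₀ + 2 η₁`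
(Cauchy-Schwarz, `MM β₀ ≤ 1`, `η₂` small). Altogether less than `MM β₀ + η`, a contradiction. -/
theorem cluster_bound (lam : Measure W) [lam.IsHaarMeasure] [IsProbabilityMeasure lam] {c : W}
    (hc : Free c) {d : ℕ} (hd : 0 < d) {Φ : W → Matrix (Fin d) (Fin d) ℂ} (hΦ : UC Φ)
    (hI : Ic lam c Φ) (H : W → ℂ) (hH : BM H) (hH1 : ∀ w, ‖H w‖ ≤ 1)
    (r s : ℕ → ℕ) (hr : ∀ i, (r i).Prime) (hs : ∀ i, (s i).Prime) (hrs : ∀ i, r i ≠ s i)
    (hri : Tendsto r atTop atTop) (β : ℕ → W) (β₀ : W) (hβ : Tendsto β atTop (𝓝 β₀)) (η : ℝ)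
    (hη : 0 < η) :
    ∀ᶠ i in atTop, ∀ (ψ : PontryaginDual W) (t t' : W) (κ : ℂ)
      (γ : W → Matrix (Fin d) (Fin d) ℂ), UL lam c Φ (β i) κ γ → ∀ k l : Fin d,
      ‖∫ ω, ch ψ ω * γ (t * ω ^ r i) k l * H (t' * ω ^ s i) ∂lam‖ ≤ MM lam c Φ β₀ + η := by
  classical
  by_contra hcon
  -- the set of bad indices and the ultrafilter
  obtain ⟨S, hS⟩ : ∃ S : Set ℕ, S = {i | ¬ ∀ (ψ : PontryaginDual W) (t t' : W) (κ : ℂ)
      (γ : W → Matrix (Fin d) (Fin d) ℂ), UL lam c Φ (β i) κ γ → ∀ k l : Fin d,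
      ‖∫ ω, ch ψ ω * γ (t * ω ^ r i) k l * H (t' * ω ^ s i) ∂lam‖ ≤ MM lam c Φ β₀ + η} :=
    ⟨_, rfl⟩
  have hfreq : ∃ᶠ i in atTop, i ∈ S := by
    rw [hS]
    exact not_eventually.1 hcon
  have hNe : (atTop ⊓ 𝓟 S).NeBot := frequently_mem_iff_neBot.1 hfreq
  obtain ⟨𝒰, h𝒰⟩ : ∃ 𝒰 : Ultrafilter ℕ, (𝒰 : Filter ℕ) ≤ atTop ⊓ 𝓟 S :=
    ⟨Ultrafilter.of (atTop ⊓ 𝓟 S), Ultrafilter.of_le _⟩
  have h𝒰1 : (𝒰 : Filter ℕ) ≤ atTop := h𝒰.trans inf_le_left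
  have h𝒰2 : ∀ᶠ i in (𝒰 : Filter ℕ), i ∈ S :=
    (h𝒰.trans inf_le_right) (mem_principal_self S)
  have hex : ∀ i, ∃ (ψ : PontryaginDual W) (t t' : W) (κ : ℂ)
      (γ : W → Matrix (Fin d) (Fin d) ℂ) (k l : Fin d), i ∈ S → (UL lam c Φ (β i) κ γ ∧
      MM lam c Φ β₀ + η <
        ‖∫ ω, ch ψ ω * γ (t * ω ^ r i) k l * H (t' * ω ^ s i) ∂lam‖) := by
    intro i
    by_cases hi : i ∈ S
    · have hi' := hi
      rw [hS, Set.mem_ofPred_eq] at hi'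
      push Not at hi'
      obtain ⟨ψ, t, t', κ, γ, hγ, k, l, hkl⟩ := hi'
      exact ⟨ψ, t, t', κ, γ, k, l, fun _ => ⟨hγ, hkl⟩⟩
    · exact ⟨1, 1, 1, 1, fun _ => 1, ⟨0, hd⟩, ⟨0, hd⟩, fun h => absurd h hi⟩
  choose ψ t t' κ γ k l hbad using hex
  -- the constant entries
  obtain ⟨⟨k0, l0⟩, hkl⟩ := (𝒰.map fun i => (k i, l i)).eq_pure_of_finite
  have hkl0 : ∀ᶠ i in (𝒰 : Filter ℕ), k i = k0 ∧ l i = l0 := by
    have h1 : {(k0, l0)} ∈ 𝒰.map fun i => (k i, l i) := by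
      rw [hkl]
      exact Ultrafilter.mem_pure.2 rfl
    rw [Ultrafilter.mem_map] at h1
    filter_upwards [h1] with i hi
    have h2 : (k i, l i) = (k0, l0) := hi
    exact ⟨congrArg Prod.fst h2, congrArg Prod.snd h2⟩
  -- the approximation
  have he : 0 < η / 4 := by positivity
  obtain ⟨F, h, hF⟩ := tg_approx lam H hH (η / 4) he
  have hF' : ∫ w, ‖H w - ∑ θ ∈ F, h θ * ch θ w‖ ^ 2 ∂lam ≤ (η / 4) ^ 2 := hF
  have hsq := ld_norm lam H hH hH1 F h (η / 4) he hF'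
  -- the characters
  have hχex : ∀ (θ : PontryaginDual W) (i : ℕ), ∃ χ : PontryaginDual W,
      (∃ χ' : PontryaginDual W, χ' ^ r i = ψ i * θ ^ s i) → χ ^ r i = ψ i * θ ^ s i := by
    intro θ i
    by_cases hP : ∃ χ' : PontryaginDual W, χ' ^ r i = ψ i * θ ^ s i
    · obtain ⟨χ', hχ'⟩ := hP
      exact ⟨χ', fun _ => hχ'⟩
    · exact ⟨1, fun hh => absurd hh hP⟩
  choose χ hχ using hχex
  obtain ⟨F1, hF1⟩ : ∃ F1 : Finset (PontryaginDual W), F1 = F.filter (fun θ =>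
      ∀ᶠ i in (𝒰 : Filter ℕ), ∃ χ' : PontryaginDual W, χ' ^ r i = ψ i * θ ^ s i) := ⟨_, rfl⟩
  have hF1sub : F1 ⊆ F := by
    rw [hF1]
    exact Finset.filter_subset _ _
  have hin : ∀ θ ∈ F1, ∀ᶠ i in (𝒰 : Filter ℕ), χ θ i ^ r i = ψ i * θ ^ s i := by
    intro θ hθ
    rw [hF1, Finset.mem_filter] at hθ
    filter_upwards [hθ.2] with i hi
    exact hχ θ i hi
  have hout : ∀ θ ∈ F, θ ∉ F1 → ∀ᶠ i in (𝒰 : Filter ℕ),
      ∀ χ' : PontryaginDual W, χ' ^ r i ≠ ψ i * θ ^ s i := by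
    intro θ hθ hθ'
    have h1 : ¬ ∀ᶠ i in (𝒰 : Filter ℕ), ∃ χ' : PontryaginDual W, χ' ^ r i = ψ i * θ ^ s i := by
      intro hh
      apply hθ'
      rw [hF1, Finset.mem_filter]
      exact ⟨hθ, hh⟩
    rw [← Ultrafilter.eventually_not] at h1
    filter_upwards [h1] with i hi χ' hχ'
    exact hi ⟨χ', hχ'⟩
  have hUL : ∀ᶠ i in (𝒰 : Filter ℕ), UL lam c Φ (β i) (κ i) (γ i) := by
    filter_upwards [h𝒰2] with i hi
    exact (hbad i hi).1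
  obtain ⟨u, hu0, hu1, hu⟩ := bessel_lift lam (c := c) hd hΦ hI 𝒰 β β₀ (hβ.mono_left h𝒰1) κ γ hUL
    (J := {θ // θ ∈ F1}) (fun a i => χ a.1 i) (fun a b hab σ =>
      ld_ne hc 𝒰 r s hr hs hrs (hri.mono_left h𝒰1) ψ a.1 b.1 (fun h => hab (Subtype.ext h))
        (χ a.1) (χ b.1) (hin a.1 a.2) (hin b.1 b.2) σ) k0 l0
  obtain ⟨B, hB⟩ : ∃ B : ℝ, B = ∑ a : {θ // θ ∈ F1}, ‖h a.1‖ := ⟨_, rfl⟩
  have hB0 : 0 ≤ B := by
    rw [hB]
    exact Finset.sum_nonneg fun a _ => norm_nonneg _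
  obtain ⟨e2, he2⟩ : ∃ e2 : ℝ, e2 = η / 4 / (1 + B) := ⟨_, rfl⟩
  have he20 : 0 < e2 := by
    rw [he2]
    positivity
  have he2B : e2 * B ≤ η / 4 := by
    rw [he2, div_mul_eq_mul_div, div_le_iff₀ (by positivity)]
    nlinarith
  -- a good index
  have hall : ∀ᶠ i in (𝒰 : Filter ℕ), (∀ a : {θ // θ ∈ F1},
      ‖∫ w, ch (χ a.1 i) w * γ i w k0 l0 ∂lam‖ ≤ u a * MM lam c Φ β₀ + e2) ∧
      (∀ θ ∈ F1, χ θ i ^ r i = ψ i * θ ^ s i) ∧
      (∀ θ ∈ F, θ ∉ F1 → ∀ χ' : PontryaginDual W, χ' ^ r i ≠ ψ i * θ ^ s i) := by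
    refine (eventually_all.2 fun a => hu a e2 he20).and (Eventually.and ?_ ?_)
    · exact (Filter.eventually_all_finset F1).2 hin
    · refine (Filter.eventually_all_finset F).2 fun θ hθ => ?_
      by_cases hθ' : θ ∈ F1
      · exact Eventually.of_forall fun i hh => absurd hθ' hh
      · filter_upwards [hout θ hθ hθ'] with i hi _
        exact hi
  obtain ⟨i, ⟨hi1, hi2, hi3⟩, ⟨hik, hil⟩, hiS⟩ := (hall.and (hkl0.and h𝒰2)).exists
  obtain ⟨hγ, hlt⟩ := hbad i hiS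
  rw [hik, hil] at hlt
  have hr1 : 1 ≤ r i := (hr i).one_lt.le
  have hs1 : 1 ≤ s i := (hs i).one_lt.le
  have hf : BM fun w => γ i w k0 l0 := hγ.bm k0 l0
  have hD : BM fun w => H w - ∑ θ ∈ F, h θ * ch θ w := hH.sub (ld_bmT F h)
  have hA := ld_diff lam hc hγ (r i) (s i) hr1 hs1 (ψ i) (t i) (t' i) k0 l0 _ hD (η / 4) he hF'
  have hC := ld_sum lam (r i) (s i) (ψ i) (t i) (t' i) _ hf F h
  have hsplit : ∫ ω, ch (ψ i) ω * γ i (t i * ω ^ r i) k0 l0 * H (t' i * ω ^ s i) ∂lam =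
      (∫ ω, ch (ψ i) ω * γ i (t i * ω ^ r i) k0 l0 *
        (H (t' i * ω ^ s i) - ∑ θ ∈ F, h θ * ch θ (t' i * ω ^ s i)) ∂lam) +
      ∫ ω, ch (ψ i) ω * γ i (t i * ω ^ r i) k0 l0 *
        (∑ θ ∈ F, h θ * ch θ (t' i * ω ^ s i)) ∂lam := by
    have hb1 : BM fun ω => ch (ψ i) ω * γ i (t i * ω ^ r i) k0 l0 :=
      (bm_ch (ψ i)).mul (hf.comp (ld_meas (r i) (t i)))
    rw [← integral_add]
    · refine integral_congr_ae (Eventually.of_forall fun ω => ?_)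
      show ch (ψ i) ω * γ i (t i * ω ^ r i) k0 l0 * H (t' i * ω ^ s i) =
        ch (ψ i) ω * γ i (t i * ω ^ r i) k0 l0 *
        (H (t' i * ω ^ s i) - ∑ θ ∈ F, h θ * ch θ (t' i * ω ^ s i)) +
        ch (ψ i) ω * γ i (t i * ω ^ r i) k0 l0 * (∑ θ ∈ F, h θ * ch θ (t' i * ω ^ s i))
      ring
    · exact (hb1.mul (hD.comp (ld_meas (s i) (t' i)))).integrable
    · exact (hb1.mul ((ld_bmT F h).comp (ld_meas (s i) (t' i)))).integrable
  have hterm : ∑ θ ∈ F, ‖h θ‖ * ‖∫ ω, ch (ψ i * θ ^ s i) ω * γ i (t i * ω ^ r i) k0 l0 ∂lam‖ ≤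
      ∑ a : {θ // θ ∈ F1}, ‖h a.1‖ * (u a * MM lam c Φ β₀ + e2) := by
    rw [← Finset.sum_subset hF1sub (f := fun θ => ‖h θ‖ *
      ‖∫ ω, ch (ψ i * θ ^ s i) ω * γ i (t i * ω ^ r i) k0 l0 ∂lam‖)]
    · rw [← Finset.sum_coe_sort F1]
      refine Finset.sum_le_sum fun a _ => ?_
      refine mul_le_mul_of_nonneg_left ?_ (norm_nonneg _)
      have h1 := int_is_pow lam hc (r i) hr1 (t i) (fun w => γ i w k0 l0) hf (χ a.1 i)
      rw [hi2 a.1 a.2] at h1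
      rw [h1, norm_mul, RCLike.norm_conj, norm_ch, one_mul]
      exact hi1 a
    · intro θ hθ hθ'
      have h1 := int_not_pow lam hc (r i) hr1 (t i) (fun w => γ i w k0 l0) hf (ψ i * θ ^ s i)
        (hi3 θ hθ hθ')
      rw [h1, norm_zero, mul_zero]
  have hM0 := mm_nonneg lam c Φ β₀
  have hM1 := mm_le_one lam c Φ β₀
  have hcs : ∑ a : {θ // θ ∈ F1}, ‖h a.1‖ * u a ≤ 1 + η / 4 := by
    have h1 : (∑ a : {θ // θ ∈ F1}, ‖h a.1‖ * u a) ^ 2 ≤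
        (∑ a : {θ // θ ∈ F1}, ‖h a.1‖ ^ 2) * ∑ a : {θ // θ ∈ F1}, u a ^ 2 :=
      Finset.sum_mul_sq_le_sq_mul_sq _ _ _
    have h2 : ∑ a : {θ // θ ∈ F1}, ‖h a.1‖ ^ 2 ≤ (1 + η / 4) ^ 2 := by
      rw [Finset.sum_coe_sort F1 (fun θ => ‖h θ‖ ^ 2)]
      exact (Finset.sum_le_sum_of_subset_of_nonneg hF1sub fun _ _ _ => by positivity).trans hsq
    have h3 : (∑ a : {θ // θ ∈ F1}, ‖h a.1‖ * u a) ^ 2 ≤ (1 + η / 4) ^ 2 := by
      refine h1.trans ?_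
      calc (∑ a : {θ // θ ∈ F1}, ‖h a.1‖ ^ 2) * ∑ a : {θ // θ ∈ F1}, u a ^ 2
          ≤ (1 + η / 4) ^ 2 * 1 :=
            mul_le_mul h2 hu1 (Finset.sum_nonneg fun _ _ => by positivity) (by positivity)
        _ = (1 + η / 4) ^ 2 := mul_one _
    exact le_of_sq_le_sq h3 (by positivity)
  have hfin : ∑ a : {θ // θ ∈ F1}, ‖h a.1‖ * (u a * MM lam c Φ β₀ + e2) =
      (∑ a : {θ // θ ∈ F1}, ‖h a.1‖ * u a) * MM lam c Φ β₀ + e2 * B := by
    rw [hB, Finset.sum_mul, Finset.mul_sum, ← Finset.sum_add_distrib]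
    refine Finset.sum_congr rfl fun a _ => ?_
    ring
  have hmul : (∑ a : {θ // θ ∈ F1}, ‖h a.1‖ * u a) * MM lam c Φ β₀ ≤
      (1 + η / 4) * MM lam c Φ β₀ := mul_le_mul_of_nonneg_right hcs hM0
  have htri := norm_add_le (∫ ω, ch (ψ i) ω * γ i (t i * ω ^ r i) k0 l0 *
        (H (t' i * ω ^ s i) - ∑ θ ∈ F, h θ * ch θ (t' i * ω ^ s i)) ∂lam)
      (∫ ω, ch (ψ i) ω * γ i (t i * ω ^ r i) k0 l0 *
        (∑ θ ∈ F, h θ * ch θ (t' i * ω ^ s i)) ∂lam)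
  rw [hsplit] at hlt
  have hlast : η / 4 * MM lam c Φ β₀ ≤ η / 4 := mul_le_of_le_one_right he.le hM1
  linarith

end Pool.Agent.Lib.H82OH
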