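import Pool.Agent.Lib.H82OH.PD

/-!
# Project H82OH, chunk PE: the mean of the correlation function
-/

open MeasureTheory Filter Topology Finset
open scoped ComplexConjugate Matrix

namespace Pool.Agent.Lib.H82OH

open Pool.Agent.Lib.H22M Pool.Agent.Lib.H82T Pool.Agent.Lib.H82OT Pool.Agent.Lib.H82OF

variable {W : Type*} [CommGroup W] [TopologicalSpace W] [IsTopologicalGroup W] [CompactSpace W]
  [T2Space W] [SecondCountableTopology W] [MeasurableSpace W] [BorelSpace W]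

private theorem pe_jensen {Y : Type*} [MeasurableSpace Y] (m : Measure Y) [IsProbabilityMeasure m]
    {f : Y → ℂ} (hf : BM f) : (∫ y, ‖f y‖ ∂m) ^ 2 ≤ ∫ y, ‖f y‖ ^ 2 ∂m := by
  obtain ⟨h1, C, hC⟩ := hf
  have i1 : Integrable (fun y => ‖f y‖) m :=
    Integrable.of_bound h1.norm.aestronglyMeasurable C (Eventually.of_forall fun y => by
      rw [Real.norm_of_nonneg (norm_nonneg _)]; exact hC y)
  have i2 : Integrable (fun y => ‖f y‖ ^ 2) m :=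
    Integrable.of_bound (h1.norm.pow_const 2).aestronglyMeasurable (C ^ 2)
      (Eventually.of_forall fun y => by
        rw [Real.norm_of_nonneg (by positivity)]
        exact pow_le_pow_left₀ (norm_nonneg _) (hC y) 2)
  set a : ℝ := ∫ y, ‖f y‖ ∂m with ha
  have h2 : 0 ≤ ∫ y, (‖f y‖ - a) ^ 2 ∂m := integral_nonneg fun y => sq_nonneg _
  have h3 : ∫ y, (‖f y‖ - a) ^ 2 ∂m = (∫ y, ‖f y‖ ^ 2 ∂m) - 2 * a * a + a ^ 2 := by
    have e : ∀ y, (‖f y‖ - a) ^ 2 = (‖f y‖ ^ 2 - (2 * a) * ‖f y‖) + a ^ 2 := fun y => by ring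
    have i3 : Integrable (fun y => ‖f y‖ ^ 2 - (2 * a) * ‖f y‖) m := i2.sub (i1.const_mul _)
    simp_rw [e]
    rw [integral_add i3 (integrable_const _),
      integral_sub i2 (i1.const_mul _), integral_const_mul, integral_const]
    simp [← ha]
  nlinarith [h2, h3]

private theorem pe_avg {Y κ : Type*} [MeasurableSpace Y] [Fintype κ] (m : Measure Y)
    [IsProbabilityMeasure m] (I : ℂ) (D : κ → Y → ℂ) (hD : ∀ k, BM (D k)) (C : ℝ)
    (hC : ∀ k y, ‖D k y‖ ≤ C) (Z : ℕ → κ → Y → ℂ) (hZ : ∀ n k, BM (Z n k)) (N : ℕ)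
    (hN : 1 ≤ N) (hI : ∀ n, I = ∑ k, ∫ y, D k y * Z n k y ∂m) :
    ‖I‖ ^ 2 ≤ (Fintype.card κ : ℝ) * C ^ 2 * ((1 / (N : ℝ) ^ 2) *
      ∑ n ∈ range N, ∑ n' ∈ range N, ‖∫ y, ∑ k, Z n k y * conj (Z n' k y) ∂m‖) := by
  have hNpos : (0 : ℝ) < N := by exact_mod_cast hN
  set S : κ → Y → ℂ := fun k y => ∑ n ∈ range N, Z n k y with hS
  have hSb : ∀ k, BM (S k) := fun k => BM.sum _ fun n _ => hZ n k
  have hNI : (N : ℂ) * I = ∑ k, ∫ y, D k y * S k y ∂m := by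
    have e1 : ∀ k, ∫ y, D k y * S k y ∂m = ∑ n ∈ range N, ∫ y, D k y * Z n k y ∂m := by
      intro k
      rw [← integral_finsetSum _ fun n _ => ((hD k).mul (hZ n k)).integrable]
      refine integral_congr_ae (Eventually.of_forall fun y => ?_)
      simp only [hS, Finset.mul_sum]
    simp_rw [e1]
    rw [Finset.sum_comm]
    simp_rw [← hI]
    rw [Finset.sum_const, card_range, nsmul_eq_mul]
  have hb : ∀ k, ‖∫ y, D k y * S k y ∂m‖ ≤ C * ∫ y, ‖S k y‖ ∂m := by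
    intro k
    refine (norm_integral_le_integral_norm _).trans ?_
    rw [← integral_const_mul]
    refine integral_mono_of_nonneg (Eventually.of_forall fun y => norm_nonneg _)
      ((hSb k).integrable.norm.const_mul C) (Eventually.of_forall fun y => ?_)
    show ‖D k y * S k y‖ ≤ C * ‖S k y‖
    rw [norm_mul]
    exact mul_le_mul_of_nonneg_right (hC k y) (norm_nonneg _)
  have h1 : (N : ℝ) * ‖I‖ ≤ ∑ k, C * ∫ y, ‖S k y‖ ∂m := by
    have : (N : ℝ) * ‖I‖ = ‖(N : ℂ) * I‖ := by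
      rw [norm_mul]; simp
    rw [this, hNI]
    exact (norm_sum_le _ _).trans (Finset.sum_le_sum fun k _ => hb k)
  have h2 : ((N : ℝ) * ‖I‖) ^ 2 ≤ (Fintype.card κ : ℝ) * ∑ k, (C * ∫ y, ‖S k y‖ ∂m) ^ 2 := by
    refine (pow_le_pow_left₀ (by positivity) h1 2).trans ?_
    have := sq_sum_le_card_mul_sum_sq (s := (Finset.univ : Finset κ))
      (f := fun k => C * ∫ y, ‖S k y‖ ∂m)
    simpa using this
  have h3 : ∑ k, (C * ∫ y, ‖S k y‖ ∂m) ^ 2 ≤ C ^ 2 * ∑ k, ∫ y, ‖S k y‖ ^ 2 ∂m := by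
    rw [Finset.mul_sum]
    refine Finset.sum_le_sum fun k _ => ?_
    rw [mul_pow]
    exact mul_le_mul_of_nonneg_left (pe_jensen m (hSb k)) (sq_nonneg _)
  have h4 : ((∑ k, ∫ y, ‖S k y‖ ^ 2 ∂m : ℝ) : ℂ) =
      ∑ n ∈ range N, ∑ n' ∈ range N, ∫ y, ∑ k, Z n k y * conj (Z n' k y) ∂m := by
    have e1 : ∀ n n', ∫ y, ∑ k, Z n k y * conj (Z n' k y) ∂m =
        ∑ k, ∫ y, Z n k y * conj (Z n' k y) ∂m := fun n n' =>
      integral_finsetSum _ fun k _ => ((hZ n k).mul (hZ n' k).conj).integrable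
    have e2 : ∀ k, ((∫ y, ‖S k y‖ ^ 2 ∂m : ℝ) : ℂ) =
        ∑ n ∈ range N, ∑ n' ∈ range N, ∫ y, Z n k y * conj (Z n' k y) ∂m := by
      intro k
      rw [← integral_complex_ofReal]
      have e3 : ∀ y, ((‖S k y‖ ^ 2 : ℝ) : ℂ) =
          ∑ n ∈ range N, ∑ n' ∈ range N, Z n k y * conj (Z n' k y) := by
        intro y
        rw [← Complex.normSq_eq_norm_sq, ← Complex.mul_conj]
        simp only [hS, map_sum]
        rw [Finset.sum_mul_sum]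
      simp_rw [e3]
      rw [integral_finsetSum _ fun n _ => (BM.sum _ fun n' _ =>
        (hZ n k).mul (hZ n' k).conj).integrable]
      refine Finset.sum_congr rfl fun n _ => ?_
      rw [integral_finsetSum _ fun n' _ => ((hZ n k).mul (hZ n' k).conj).integrable]
    simp_rw [e1]
    rw [Complex.ofReal_sum]
    simp_rw [e2]
    rw [Finset.sum_comm]
    refine Finset.sum_congr rfl fun n _ => ?_
    rw [Finset.sum_comm]
  have h5 : ∑ k, ∫ y, ‖S k y‖ ^ 2 ∂m ≤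
      ∑ n ∈ range N, ∑ n' ∈ range N, ‖∫ y, ∑ k, Z n k y * conj (Z n' k y) ∂m‖ := by
    have h6 : 0 ≤ ∑ k, ∫ y, ‖S k y‖ ^ 2 ∂m :=
      Finset.sum_nonneg fun k _ => integral_nonneg fun y => sq_nonneg _
    have h7 : ∑ k, ∫ y, ‖S k y‖ ^ 2 ∂m = ‖((∑ k, ∫ y, ‖S k y‖ ^ 2 ∂m : ℝ) : ℂ)‖ := by
      rw [Complex.norm_real, Real.norm_of_nonneg h6]
    rw [h7, h4]
    refine (norm_sum_le _ _).trans (Finset.sum_le_sum fun n _ => norm_sum_le _ _)
  have h8 : (N : ℝ) ^ 2 * ‖I‖ ^ 2 ≤ (Fintype.card κ : ℝ) * (C ^ 2 *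
      ∑ n ∈ range N, ∑ n' ∈ range N, ‖∫ y, ∑ k, Z n k y * conj (Z n' k y) ∂m‖) := by
    rw [← mul_pow]
    refine h2.trans (mul_le_mul_of_nonneg_left (h3.trans ?_) (Nat.cast_nonneg _))
    exact mul_le_mul_of_nonneg_left h5 (sq_nonneg _)
  have h9 : ‖I‖ ^ 2 = (1 / (N : ℝ) ^ 2) * ((N : ℝ) ^ 2 * ‖I‖ ^ 2) := by
    field_simp
  rw [h9]
  refine (mul_le_mul_of_nonneg_left h8 (by positivity)).trans (le_of_eq ?_)
  ring

private theorem pe_sum (N : ℕ) (a : ℕ → ℕ → ℝ) (x : ℕ → ℝ) (hx : ∀ n, 0 ≤ x n)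
    (hd : ∀ n, a n n ≤ 1) (hs : ∀ n n', a n n' = a n' n)
    (ho : ∀ n p, 1 ≤ p → n + p < N → a (n + p) n ≤ x p) :
    ∑ n ∈ range N, ∑ n' ∈ range N, a n n' ≤ N + 2 * N * ∑ p ∈ Ico 1 N, x p := by
  have key : ∀ n ∈ range N, ∑ n' ∈ range N, a n n' ≤ 1 + 2 * ∑ p ∈ Ico 1 N, x p := by
    intro n hn
    have hnN := Finset.mem_range.mp hn
    have e1 : ∑ n' ∈ range N, a n n' =
        ∑ n' ∈ Ico 0 n, a n n' + (a n n + ∑ n' ∈ Ico (n + 1) N, a n n') := by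
      rw [Finset.range_eq_Ico, ← Finset.sum_Ico_consecutive _ (Nat.zero_le n) hnN.le,
        Finset.sum_eq_sum_Ico_succ_bot hnN]
    have e2 : ∑ n' ∈ Ico 0 n, a n n' ≤ ∑ p ∈ Ico 1 N, x p := by
      have f1 : ∑ n' ∈ Ico 0 n, a n n' ≤ ∑ n' ∈ Ico 0 n, x (n - n') := by
        refine Finset.sum_le_sum fun n' hn' => ?_
        have h := Finset.mem_Ico.mp hn'
        have := ho n' (n - n') (by omega) (by omega)
        rwa [Nat.add_sub_cancel' h.2.le] at this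
      refine f1.trans ?_
      have f2 : ∑ p ∈ (Ico 0 n).image (fun n' => n - n'), x p = ∑ n' ∈ Ico 0 n, x (n - n') :=
        Finset.sum_image fun u hu v hv huv => by
          have h1 := Finset.mem_Ico.mp hu
          have h2 := Finset.mem_Ico.mp hv
          have huv' := huv
          omega
      rw [← f2]
      refine Finset.sum_le_sum_of_subset_of_nonneg (fun p hp => ?_) fun p _ _ => hx p
      obtain ⟨n', hn', rfl⟩ := Finset.mem_image.mp hp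
      have h := Finset.mem_Ico.mp hn'
      exact Finset.mem_Ico.mpr ⟨by omega, by omega⟩
    have e3 : ∑ n' ∈ Ico (n + 1) N, a n n' ≤ ∑ p ∈ Ico 1 N, x p := by
      have f1 : ∑ n' ∈ Ico (n + 1) N, a n n' ≤ ∑ n' ∈ Ico (n + 1) N, x (n' - n) := by
        refine Finset.sum_le_sum fun n' hn' => ?_
        have h := Finset.mem_Ico.mp hn'
        have := ho n (n' - n) (by omega) (by omega)
        rw [Nat.add_sub_cancel' (by omega : n ≤ n')] at this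
        rw [hs]
        exact this
      refine f1.trans ?_
      have f2 : ∑ p ∈ (Ico (n + 1) N).image (fun n' => n' - n), x p =
          ∑ n' ∈ Ico (n + 1) N, x (n' - n) :=
        Finset.sum_image fun u hu v hv huv => by
          have h1 := Finset.mem_Ico.mp hu
          have h2 := Finset.mem_Ico.mp hv
          have huv' := huv
          omega
      rw [← f2]
      refine Finset.sum_le_sum_of_subset_of_nonneg (fun p hp => ?_) fun p _ _ => hx p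
      obtain ⟨n', hn', rfl⟩ := Finset.mem_image.mp hp
      have h := Finset.mem_Ico.mp hn'
      exact Finset.mem_Ico.mpr ⟨by omega, by omega⟩
    rw [e1]
    linarith [hd n]
  refine (Finset.sum_le_sum key).trans (le_of_eq ?_)
  rw [Finset.sum_const, card_range, nsmul_eq_mul]
  ring

private theorem pe_alg {d d' : ℕ} (a b : ℂ) (G H : Matrix (Fin d) (Fin d) ℂ)
    (U V : Matrix (Fin d') (Fin d') ℂ) (i : Fin d) (j : Fin d') :
    ∑ k : Fin d × Fin d', (a * G i k.1 * conj (U j k.2)) * conj (b * H i k.1 * conj (V j k.2)) =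
      a * conj b * (G * Hᴴ) i i * conj ((U * Vᴴ) j j) := by
  rw [Fintype.sum_prod_type]
  simp only [Matrix.mul_apply, Matrix.conjTranspose_apply, map_sum, map_mul, Complex.conj_conj,
    Finset.mul_sum, Finset.sum_mul]
  rw [Finset.sum_comm]
  refine Finset.sum_congr rfl fun l _ => Finset.sum_congr rfl fun k _ => ?_
  simp only [RCLike.star_def, Complex.conj_conj]
  ring

/-- Proof. If `D = 0` a.e. the left side is `0`. Otherwise `DEq.shift` (PD) for `δ^n`, `γ' = cc c Φ' n`, `κ' = 1` (`UL.self`;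
`(δ^n)^s = c^n`, `(δ^n)^r = (δ^r)^n`): `D(δ^n ω) Φ'^(n)(w_s) = ψ_n(ω) γ_n(w_r) D(ω)`, `γ_n` a lift of `(δ^r)^n`;
`w_r = t ω^r`, `w_s = t' ω^s`. So `D(δ^n ω)_ij = ∑_kl D(ω)_kl conj (Z^n(ω)_kl)`,
`Z^n_kl = conj ψ_n(ω) conj γ_n(w_r)_ik Φ'^(n)(w_s)_jl`. Averaging over `n < N` (the translations preserve `lam`) and
Cauchy-Schwarz: `‖∫ D_ij‖² ≤ (∫ ∑_kl ‖D_kl‖²) (∫ ∑_kl ‖N⁻¹ ∑_n Z^n_kl‖²) ≤ d d' C² N⁻² ∑_{n,n'<N} I_{n,n'}`, where
`I_{n,n'} = |∫ ∑_kl Z^n_kl conj Z^{n'}_kl| = |∫ conj ψ_n ψ_{n'} (γ_{n'} γ_nᴴ)_ii(w_r) (Φ'^(n) Φ'^(n')ᴴ)_jj(w_s)|`.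
`I_{n,n} = 1`. For `n = n' + p`, `p ≥ 1`: `Φ'^(n)(w) Φ'^(n')(w)ᴴ = Φ'^(p)(c^n' w)` (`cc_add`, TA) and, with `β = δ^r`,
`γ'(w) = γ_n(β^(-n') w) γ_{n'}(β^(-n') w)ᴴ` is a lift of `β^p` (`UL.mul`, `UL.inv`), `(γ_{n'} γ_nᴴ)_ii(w) = conj γ'_ii(β^n' w)`.
Since `w_r(δ^n' ω) = β^n' w_r(ω)` and `w_s(δ^n' ω) = c^n' w_s(ω)`, the substitution `ω → δ^(-n') ω` gives
`I_{n,n'} = |∫ ψ(ω) γ'_ii(w_r) conj Φ'^(p)_jj(w_s)| ≤ x p` with `ψ = ψ_n ψ_{n'}⁻¹`. `I_{n',n} = I_{n,n'}`. The sum over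
`n, n'` is at most `N + 2 N ∑_{1 ≤ p < N} x p`. -/
theorem corr_bound (lam : Measure W) [lam.IsHaarMeasure] [IsProbabilityMeasure lam] {c : W}
    (hc : Free c) {d d' : ℕ} (hd : 0 < d) (hd' : 0 < d') {Φ : W → Matrix (Fin d) (Fin d) ℂ}
    {Φ' : W → Matrix (Fin d') (Fin d') ℂ} (hΦ : UC Φ) (hΦ' : UC Φ') (hI : Ic lam c Φ)
    (hI' : Ic lam c Φ') {r s : ℕ} (hr : r.Prime) (hs : s.Prime) (hdr : d < r) (hds : d' < s)
    {t t' : W} {D : W → Matrix (Fin d) (Fin d') ℂ} (hD : DEq lam c Φ Φ' r s t t' D) (δ : W) (hδ : δ ^ s = c) (C : ℝ)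
    (hC : ∀ k l ω, ‖D ω k l‖ ≤ C) (i : Fin d) (j : Fin d') (N : ℕ) (hN : 1 ≤ N) (x : ℕ → ℝ)
    (hx0 : ∀ n, 0 ≤ x n)
    (hx : ∀ n, 1 ≤ n → n < N → ∀ (ψ : PontryaginDual W) (κ : ℂ)
      (γ : W → Matrix (Fin d) (Fin d) ℂ), UL lam c Φ ((δ ^ r) ^ n) κ γ →
      ‖∫ ω, ch ψ ω * γ (t * ω ^ r) i i * conj (cc c Φ' n (t' * ω ^ s) j j) ∂lam‖ ≤ x n) :
    ‖∫ ω, D ω i j ∂lam‖ ^ 2 ≤
      d * d' * C ^ 2 * (1 / N + 2 / N * ∑ n ∈ Ico 1 N, x n) := by
  classical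
  have hNpos : (0 : ℝ) < N := by exact_mod_cast hN
  have hsum0 : 0 ≤ ∑ n ∈ Ico 1 N, x n := Finset.sum_nonneg fun n _ => hx0 n
  by_cases h0 : ∀ᵐ ω ∂lam, D ω = 0
  · have : ∫ ω, D ω i j ∂lam = 0 := by
      rw [integral_congr_ae (g := fun _ => (0 : ℂ)) (by
        filter_upwards [h0] with ω hω
        rw [hω]; rfl)]
      simp
    rw [this, norm_zero]
    have : (0 : ℝ) ≤ d * d' * C ^ 2 * (1 / N + 2 / N * ∑ n ∈ Ico 1 N, x n) := by positivity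
    simpa using this
  have mr : MeasurePreserving (fun w => t * w ^ r) lam lam := mp_pow lam hc r hr.one_le t
  have ms : MeasurePreserving (fun w => t' * w ^ s) lam lam := mp_pow lam hc s hs.one_le t'
  have key : ∀ n : ℕ, ∃ (ψ : PontryaginDual W) (κ : ℂ) (γ : W → Matrix (Fin d) (Fin d) ℂ),
      UL lam c Φ ((δ ^ n) ^ r) κ γ ∧ ch ψ c * κ ^ r = 1 ^ s ∧
      ∀ᵐ ω ∂lam, D (δ ^ n * ω) * cc c Φ' n (t' * ω ^ s) = (ch ψ ω) • (γ (t * ω ^ r) * D ω) := by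
    intro n
    have h1 : UL lam c Φ' ((δ ^ n) ^ s) 1 (cc c Φ' n) := by
      rw [← pow_mul, mul_comm n s, pow_mul, hδ]
      exact UL.self hΦ' n
    exact DEq.shift lam hc hd hd' hΦ hΦ' hI hI' hr hs hdr hds hD h0 (δ ^ n) 1 (cc c Φ' n) h1
  choose ψ κ γ hγ _ hDn using key
  set Z : ℕ → Fin d × Fin d' → W → ℂ := fun n k ω =>
    ch (ψ n) ω * γ n (t * ω ^ r) i k.1 * conj (cc c Φ' n (t' * ω ^ s) j k.2) with hZdef
  have hZ : ∀ n k, BM (Z n k) := fun n k =>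
    ((bm_ch (ψ n)).mul (((hγ n).bm i k.1).comp mr.measurable)).mul
      (((hΦ'.cc c n).bm j k.2).comp ms.measurable).conj
  have hDb : ∀ k : Fin d × Fin d', BM fun ω => D ω k.1 k.2 := fun k => hD.1 k.1 k.2
  have hI1 : ∀ n, ∫ ω, D ω i j ∂lam =
      ∑ k : Fin d × Fin d', ∫ ω, D ω k.1 k.2 * Z n k ω ∂lam := by
    intro n
    rw [← integral_finsetSum _ fun k _ => ((hDb k).mul (hZ n k)).integrable]
    rw [← integral_mul_left_eq_self (fun ω => D ω i j) (δ ^ n)]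
    refine integral_congr_ae ?_
    filter_upwards [hDn n] with ω hω
    have hU := (hΦ'.cc c n).right (t' * ω ^ s)
    have e1 : D (δ ^ n * ω) = ((ch (ψ n) ω) • (γ n (t * ω ^ r) * D ω)) *
        (cc c Φ' n (t' * ω ^ s))ᴴ := by
      rw [← hω, Matrix.mul_assoc, hU, Matrix.mul_one]
    rw [e1, Fintype.sum_prod_type, Matrix.mul_apply, Finset.sum_comm]
    refine Finset.sum_congr rfl fun l _ => ?_
    rw [Matrix.smul_apply, Matrix.mul_apply, Matrix.conjTranspose_apply, smul_eq_mul,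
      Finset.mul_sum, Finset.sum_mul]
    refine Finset.sum_congr rfl fun k _ => ?_
    simp only [hZdef, RCLike.star_def]
    ring
  have havg := pe_avg lam (∫ ω, D ω i j ∂lam) (fun (k : Fin d × Fin d') ω => D ω k.1 k.2) hDb C
    (fun k ω => hC k.1 k.2 ω) Z hZ N hN hI1
  have hprod : ∀ n n' ω, ∑ k, Z n k ω * conj (Z n' k ω) =
      ch (ψ n) ω * conj (ch (ψ n') ω) * (γ n (t * ω ^ r) * (γ n' (t * ω ^ r))ᴴ) i i *
        conj ((cc c Φ' n (t' * ω ^ s) * (cc c Φ' n' (t' * ω ^ s))ᴴ) j j) := fun n n' ω =>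
    pe_alg _ _ _ _ _ _ _ _
  have hdiag : ∀ n, ‖∫ ω, ∑ k, Z n k ω * conj (Z n k ω) ∂lam‖ ≤ 1 := by
    intro n
    have e : ∫ ω, ∑ k, Z n k ω * conj (Z n k ω) ∂lam = ∫ _, (1 : ℂ) ∂lam := by
      refine integral_congr_ae ?_
      filter_upwards [mr.quasiMeasurePreserving.ae (hγ n).right] with ω hω
      rw [hprod, hω, (hΦ'.cc c n).right, ch_mul_conj]
      simp
    rw [e]
    simp
  have hsymm : ∀ n n', ‖∫ ω, ∑ k, Z n k ω * conj (Z n' k ω) ∂lam‖ =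
      ‖∫ ω, ∑ k, Z n' k ω * conj (Z n k ω) ∂lam‖ := by
    intro n n'
    rw [← RCLike.norm_conj, ← integral_conj]
    congr 1
    refine integral_congr_ae (Eventually.of_forall fun ω => ?_)
    simp only [map_sum, map_mul, Complex.conj_conj]
    refine Finset.sum_congr rfl fun k _ => mul_comm _ _
  have hoff : ∀ n p, 1 ≤ p → n + p < N →
      ‖∫ ω, ∑ k, Z (n + p) k ω * conj (Z n k ω) ∂lam‖ ≤ x p := by
    intro n p hp hnp
    set β : W := δ ^ r with hβ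
    -- the lift of `β ^ p`
    have hl1 : UL lam c Φ ((δ ^ (n + p)) ^ r * ((δ ^ n) ^ r)⁻¹) (κ (n + p) * conj (κ n))
        (fun w => γ (n + p) (((δ ^ n) ^ r)⁻¹ * w) * (γ n (((δ ^ n) ^ r)⁻¹ * w))ᴴ) :=
      (hγ (n + p)).mul ((hγ n).inv hΦ)
    have hl2 : (δ ^ (n + p)) ^ r * ((δ ^ n) ^ r)⁻¹ = β ^ p := by
      rw [hβ, ← pow_mul, ← pow_mul, ← pow_mul, mul_inv_eq_iff_eq_mul, ← pow_add]
      congr 1
      ring
    rw [hl2] at hl1
    have h1 := hx p hp (by omega) (ψ (n + p) * (ψ n)⁻¹) _ _ hl1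
    refine le_trans (le_of_eq ?_) h1
    have e1 : ∫ ω, ∑ k, Z (n + p) k ω * conj (Z n k ω) ∂lam =
        ∫ ω, ∑ k, Z (n + p) k ((δ ^ n)⁻¹ * ω) * conj (Z n k ((δ ^ n)⁻¹ * ω)) ∂lam :=
      (integral_mul_left_eq_self (fun ω => ∑ k, Z (n + p) k ω * conj (Z n k ω)) (δ ^ n)⁻¹).symm
    rw [e1]
    have e2 : ∀ ω, ∑ k, Z (n + p) k ((δ ^ n)⁻¹ * ω) * conj (Z n k ((δ ^ n)⁻¹ * ω)) =
        ch (ψ (n + p) * (ψ n)⁻¹) (δ ^ n)⁻¹ * (ch (ψ (n + p) * (ψ n)⁻¹) ω *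
          (γ (n + p) (((δ ^ n) ^ r)⁻¹ * (t * ω ^ r)) *
            (γ n (((δ ^ n) ^ r)⁻¹ * (t * ω ^ r)))ᴴ) i i *
          conj (cc c Φ' p (t' * ω ^ s) j j)) := by
      intro ω
      rw [hprod]
      have f1 : t * ((δ ^ n)⁻¹ * ω) ^ r = ((δ ^ n) ^ r)⁻¹ * (t * ω ^ r) := by
        rw [mul_pow, inv_pow]
        exact mul_left_comm _ _ _
      have f2 : t' * ((δ ^ n)⁻¹ * ω) ^ s = (c ^ n)⁻¹ * (t' * ω ^ s) := by
        rw [mul_pow, inv_pow, ← pow_mul, mul_comm n s, pow_mul, hδ]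
        exact mul_left_comm _ _ _
      have f3 : cc c Φ' (n + p) ((c ^ n)⁻¹ * (t' * ω ^ s)) *
          (cc c Φ' n ((c ^ n)⁻¹ * (t' * ω ^ s)))ᴴ = cc c Φ' p (t' * ω ^ s) := by
        rw [add_comm n p, cc_add, Matrix.mul_assoc, (hΦ'.cc c n).right, Matrix.mul_one,
          mul_inv_cancel_left]
      rw [f1, f2, f3, ← ch_inv_left, ← ch_mul_left, ch_mul_right]
      ring
    simp_rw [e2]
    rw [integral_const_mul, norm_mul, norm_ch, one_mul]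
  have htot := pe_sum N (fun n n' => ‖∫ ω, ∑ k, Z n k ω * conj (Z n' k ω) ∂lam‖) x hx0 hdiag
    hsymm hoff
  refine havg.trans ?_
  rw [Fintype.card_prod, Fintype.card_fin, Fintype.card_fin, Nat.cast_mul]
  refine (mul_le_mul_of_nonneg_left (mul_le_mul_of_nonneg_left htot (by positivity))
    (by positivity)).trans (le_of_eq ?_)
  field_simp

end Pool.Agent.Lib.H82OH
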