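import Pool.Agent.Lib.H82OH.SA
import Pool.Agent.Lib.H82OH.FH
import Pool.Agent.Lib.H82OH.LD
import Pool.Agent.Lib.H82OH.PE
import Pool.Agent.Lib.H82OH.PA

/-!
# Project H82OH, chunk SB: few bad primes if the group of the lifts is null
-/

open MeasureTheory Filter Topology Finset
open scoped ComplexConjugate Matrix

namespace Pool.Agent.Lib.H82OH

open Pool.Agent.Lib.H22M Pool.Agent.Lib.H82T Pool.Agent.Lib.H82OT Pool.Agent.Lib.H82OF

variable {W : Type*} [CommGroup W] [TopologicalSpace W] [IsTopologicalGroup W] [CompactSpace W]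
  [T2Space W] [SecondCountableTopology W] [MeasurableSpace W] [BorelSpace W]

private theorem sb_entry {d : ℕ} {U : Matrix (Fin d) (Fin d) ℂ} (h : U * Uᴴ = 1) (k l : Fin d) :
    ‖U k l‖ ≤ 1 :=
  entry_norm_bound_of_unitary
    (Matrix.mem_unitaryGroup_iff.2 (by rw [Matrix.star_eq_conjTranspose]; exact h)) k l

private theorem sb_bound {Y : Type*} [MeasurableSpace Y] {d : ℕ} {E : Y → Fin d → ℂ}
    (h : BMR E) : ∃ C : ℝ, 0 ≤ C ∧ ∀ y k, ‖E y k‖ ≤ C := by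
  choose C hC using fun k => (h k).2
  refine ⟨∑ k, |C k|, Finset.sum_nonneg fun k _ => abs_nonneg _, fun y k => ?_⟩
  refine (hC k y).trans ((le_abs_self _).trans ?_)
  exact Finset.single_le_sum (f := fun k => |C k|) (fun k _ => abs_nonneg _) (Finset.mem_univ k)

/-- Proof. Suppose not: some `ε > 0` violates it for infinitely many `k`. `exists_free_cluster` (SA) with
`Bad r s = BadP m R f g ε r s`: `r_i, s_i, δ_i, β₀`; drop finitely many `i`: `d < r_i`, `d' < s_i`. `exists_D` (PA): `t_i, t'_i, D_i` with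
`‖(D_i)_kl‖ ≤ C C'`, `ε < ‖∫ (D_i)_ij‖` (`C, C'` bounds of `E, E'`; different primes are coprime). Let
`K₀ = d d' (C C')²`. By `mm_avg` (FH) choose `N ≥ 1` with `K₀ (1/N + 2/N ∑_{1≤n<N} MM (β₀^n)) < ε²/2`, and `η > 0` with
`K₀ 2 η < ε²/2`. For every `n < N` `cluster_bound` (LD) for `H w = conj (cc c Φ' n w j j)` (of absolute value at most `1`, unitary) and the
sequence `(δ_i^{r_i})^n → β₀^n`: for large `i` the hypothesis `hx` of `corr_bound` (PE) holds with `x n = MM (β₀^n) + η` (`n < N`; for other `n`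
the same formula; nonnegative). So `ε² < ‖∫ (D_i)_ij‖² ≤ K₀ (1/N + 2/N ∑ (MM (β₀^n) + η)) < ε²`. -/
theorem few_ncl {Y : Type*} [MeasurableSpace Y] [StandardBorelSpace Y] {m : Measure Y}
    [IsProbabilityMeasure m] (R : Y ≃ᵐ Y) (lam : Measure W) [lam.IsHaarMeasure]
    [IsProbabilityMeasure lam] {c : W} {P : Y → W} (hK : KS m R lam c P) {d d' : ℕ}
    (hd : 0 < d) (hd' : 0 < d')
    {Φ : W → Matrix (Fin d) (Fin d) ℂ} {Φ' : W → Matrix (Fin d') (Fin d') ℂ}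
    {E : Y → Fin d → ℂ} {E' : Y → Fin d' → ℂ} (hE : Bun m R P Φ E) (hE' : Bun m R P Φ' E')
    (hI : Ic lam c Φ) (hI' : Ic lam c Φ') (i : Fin d) (j : Fin d')
    (h0 : (∫ y, E y i ∂m) * conj (∫ y, E' y j ∂m) = 0)
    (hLG : lam (LG lam c Φ) = 0) : Few m R (fun y => E y i) (fun y => E' y j) := by
  classical
  by_contra hcon
  unfold Few at hcon
  push Not at hcon
  obtain ⟨ε, hε, hbad⟩ := hcon
  obtain ⟨r, s, δ, β₀, hP, hr, hs, hβ, hfree⟩ := exists_free_cluster hK.free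
    (fun r s => BadP m R (fun y => E y i) (fun y => E' y j) ε r s) ε hε (by
      intro k0
      obtain ⟨k, hk, s, hs, Q, hQ, hb, hc⟩ := hbad k0
      exact ⟨k, hk, s, hs, Q, hQ, hb, hc⟩)
  obtain ⟨C, hC0, hC⟩ := sb_bound hE.bm
  obtain ⟨C', hC0', hC'⟩ := sb_bound hE'.bm
  obtain ⟨K0, hK0⟩ : ∃ K0 : ℝ, K0 = d * d' * (C * C') ^ 2 := ⟨_, rfl⟩
  have hK0n : 0 ≤ K0 := by rw [hK0]; positivity
  -- the choice of N
  have havg := mm_avg lam hK.free hd hE.uc hI hLG hfree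
  have hlim : Tendsto (fun N : ℕ => K0 * (1 / (N : ℝ) +
      2 * ((∑ n ∈ Ico 1 N, MM lam c Φ (β₀ ^ n)) / N))) atTop (𝓝 0) := by
    have h1 := (tendsto_one_div_atTop_nhds_zero_nat (𝕜 := ℝ)).add (havg.const_mul 2)
    have h2 := h1.const_mul K0
    simpa using h2
  obtain ⟨N, hN1, hN⟩ : ∃ N : ℕ, 1 ≤ N ∧ K0 * (1 / (N : ℝ) +
      2 * ((∑ n ∈ Ico 1 N, MM lam c Φ (β₀ ^ n)) / N)) < ε ^ 2 / 2 := by
    have h1 : ∀ᶠ N : ℕ in atTop, K0 * (1 / (N : ℝ) +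
        2 * ((∑ n ∈ Ico 1 N, MM lam c Φ (β₀ ^ n)) / N)) < ε ^ 2 / 2 :=
      hlim.eventually_lt_const (by positivity)
    exact ((eventually_ge_atTop 1).and h1).exists
  obtain ⟨η, hη0, hη⟩ : ∃ η : ℝ, 0 < η ∧ K0 * (2 * η) < ε ^ 2 / 2 := by
    refine ⟨ε ^ 2 / (4 * (K0 + 1)), by positivity, ?_⟩
    have h1 : K0 * (2 * (ε ^ 2 / (4 * (K0 + 1)))) = (ε ^ 2 / 2) * (K0 / (K0 + 1)) := by
      field_simp
      ring
    rw [h1]
    have h2 : K0 / (K0 + 1) < 1 := by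
      rw [div_lt_one (by positivity)]
      linarith
    have h3 : (0 : ℝ) < ε ^ 2 / 2 := by positivity
    nlinarith
  -- the bounds for large indices
  have hev : ∀ᶠ a in atTop, ∀ n ∈ Finset.range N, ∀ (ψ : PontryaginDual W) (t t' : W) (κ : ℂ)
      (γ : W → Matrix (Fin d) (Fin d) ℂ), UL lam c Φ ((δ a ^ r a) ^ n) κ γ → ∀ k l : Fin d,
      ‖∫ ω, ch ψ ω * γ (t * ω ^ r a) k l * conj (cc c Φ' n (t' * ω ^ s a) j j) ∂lam‖ ≤
        MM lam c Φ (β₀ ^ n) + η := by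
    rw [Filter.eventually_all_finset]
    intro n _
    have hucc := hE'.uc.cc c n
    refine cluster_bound lam hK.free hd hE.uc hI (fun w => conj (cc c Φ' n w j j))
      (hucc.bm j j).conj (fun w => ?_) r s (fun a => (hP a).1) (fun a => (hP a).2.1)
      (fun a => (hP a).2.2.1) hr (fun a => (δ a ^ r a) ^ n) (β₀ ^ n) (hβ.pow n) η hη0
    rw [RCLike.norm_conj]
    exact sb_entry (hucc.right w) j j
  obtain ⟨a, ha, hdr, hds⟩ := (hev.and ((hr.eventually_gt_atTop d).and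
    (hs.eventually_gt_atTop d'))).exists
  obtain ⟨hpr, hps, hne, hbd, hδ⟩ := hP a
  obtain ⟨t, t', D, hD, hDb, hDε⟩ := exists_D R lam hK hE hE' C C' hC hC' (r a) (s a)
    hpr.one_lt.le hps.one_lt.le ((Nat.coprime_primes hpr hps).2 hne) i j h0 ε hbd
  have hcorr := corr_bound lam hK.free hd hd' hE.uc hE'.uc hI hI' hpr hps hdr hds hD (δ a) hδ
    (C * C') hDb i j N hN1 (fun n => MM lam c Φ (β₀ ^ n) + η)
    (fun n => add_nonneg (mm_nonneg lam c Φ _) hη0.le)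
    (fun n _ hn ψ κ γ hγ => ha n (Finset.mem_range.2 hn) ψ t t' κ γ hγ i i)
  rw [← hK0, Finset.sum_add_distrib] at hcorr
  have hNpos : (0 : ℝ) < N := by exact_mod_cast hN1
  have hcard : (2 : ℝ) / N * ∑ _n ∈ Ico 1 N, η ≤ 2 * η := by
    rw [Finset.sum_const, Nat.card_Ico, nsmul_eq_mul]
    have h1 : ((N - 1 : ℕ) : ℝ) ≤ N := by exact_mod_cast Nat.sub_le N 1
    calc (2 : ℝ) / N * (((N - 1 : ℕ) : ℝ) * η) ≤ 2 / N * (N * η) := by gcongr
      _ = 2 * η := by field_simp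
  have hfin : K0 * (1 / N + 2 / N * (∑ n ∈ Ico 1 N, MM lam c Φ (β₀ ^ n) + ∑ _n ∈ Ico 1 N, η)) <
      ε ^ 2 := by
    have h1 : K0 * (1 / N + 2 / N * (∑ n ∈ Ico 1 N, MM lam c Φ (β₀ ^ n) + ∑ _n ∈ Ico 1 N, η)) =
        K0 * (1 / N + 2 * ((∑ n ∈ Ico 1 N, MM lam c Φ (β₀ ^ n)) / N)) +
          K0 * (2 / N * ∑ _n ∈ Ico 1 N, η) := by ring
    rw [h1]
    have h2 : K0 * (2 / N * ∑ _n ∈ Ico 1 N, η) ≤ K0 * (2 * η) :=
      mul_le_mul_of_nonneg_left hcard hK0n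
    linarith
  have hsq : ε ^ 2 < ‖∫ ω, D ω i j ∂lam‖ ^ 2 := by
    have := hDε
    nlinarith
  linarith

end Pool.Agent.Lib.H82OH
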