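import Pool.Agent.Lib.H82OH.IC
import Pool.Agent.Lib.H82OH.ID
import Pool.Agent.Lib.H82OH.GA
import Pool.Agent.Lib.H82OH.KA
import Pool.Agent.Lib.H82OH.KC
import Pool.Agent.Lib.H82OH.SB
import Pool.Agent.Lib.H82OH.CC
import Pool.Agent.Lib.H82OH.LC

/-!
# Project H82OH, chunk GB: the generators
-/

open MeasureTheory Filter Topology Finset
open scoped ComplexConjugate Matrix

namespace Pool.Agent.Lib.H82OH

open Pool.Agent.Lib.H22M Pool.Agent.Lib.H82T Pool.Agent.Lib.H82OT Pool.Agent.Lib.H82OF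

variable {W : Type*} [CommGroup W] [TopologicalSpace W] [IsTopologicalGroup W] [CompactSpace W]
  [T2Space W] [SecondCountableTopology W] [MeasurableSpace W] [BorelSpace W]

/-- The generators: the characters of the Kronecker factor and the coordinates of the irreducible bundles
without eigenvectors. -/
def Atoms {Y : Type*} [MeasurableSpace Y] (m : Measure Y) (R : Y → Y) (lam : Measure W) (c : W)
    (P : Y → W) : Set (Y → ℂ) :=
  {f | (∃ χ : PontryaginDual W, f = fun y => ch χ (P y)) ∨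
    ∃ (d : ℕ) (Φ : W → Matrix (Fin d) (Fin d) ℂ) (E : Y → Fin d → ℂ) (i : Fin d), 0 < d ∧
      Bun m R P Φ E ∧ Ic lam c Φ ∧ NE lam c Φ ∧ f = fun y => E y i}

/-- Proof. Four cases: `few_char_char` (KC), `few_char_bun`, `few_bun_char` (KA), and for two bundles `lg_dichotomy` (LC) for the
first one with `few_ncl` (SB) and `few_cl` (CC); `h0` by `bun_int_zero` (KA). -/
theorem few_atoms {Y : Type*} [MeasurableSpace Y] [StandardBorelSpace Y] {m : Measure Y}
    [IsProbabilityMeasure m] (R : Y ≃ᵐ Y) (lam : Measure W) [lam.IsHaarMeasure]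
    [IsProbabilityMeasure lam] {c : W} {P : Y → W} (hK : KS m R lam c P) :
    ∀ f ∈ Atoms m R lam c P, ∀ g ∈ Atoms m R lam c P, Few m R f g := by
  intro f hf g hg
  rcases hf with ⟨χ, rfl⟩ | ⟨d, Φ, E, i, hd, hE, hI, hN, rfl⟩
  · rcases hg with ⟨χ', rfl⟩ | ⟨d', Φ', E', j, hd', hE', hI', hN', rfl⟩
    · exact few_char_char R lam hK χ χ'
    · exact few_char_bun R lam hK hE' hN' j χ
  · rcases hg with ⟨χ', rfl⟩ | ⟨d', Φ', E', j, hd', hE', hI', hN', rfl⟩
    · exact few_bun_char R lam hK hE hN i χ'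
    · have h0 : (∫ y, E y i ∂m) * conj (∫ y, E' y j ∂m) = 0 := by
        rw [bun_int_zero R lam hK hE hN i, zero_mul]
      rcases lg_dichotomy lam hK.free hd hE.uc hI with h | h
      · exact few_ncl R lam hK hd hd' hE hE' hI hI' i j h0 h
      · exact few_cl R lam hK hd hd' hE hE' hI hI' i j h0 hN h

private theorem gb_uc {d : ℕ} {Φ : W → Matrix (Fin d) (Fin d) ℂ} (h : UC Φ) {z : ℂ}
    (hz : ‖z‖ = 1) : UC fun w => z • Φ w := by
  have h1 : conj z * z = 1 := by
    rw [Complex.conj_mul', hz]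
    norm_num
  have h2 : z * conj z = 1 := by rw [mul_comm]; exact h1
  refine ⟨h.bm.smul z, fun w => ?_, fun w => ?_⟩
  · rw [Matrix.conjTranspose_smul, Matrix.smul_mul, Matrix.mul_smul, smul_smul, h.left w]
    have h3 : star z * z = 1 := h1
    rw [h3, one_smul]
  · rw [Matrix.conjTranspose_smul, Matrix.smul_mul, Matrix.mul_smul, smul_smul, h.right w]
    have h3 : z * star z = 1 := h2
    rw [h3, one_smul]

/-- Proof. The bundle `χ(P y) E(y)` with the cocycle `χ(c) Φ(w)` is irreducible without eigenvectors (the equations of `Ic` are the same; in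
`NE` replace `z` by `z χ(c)`); or the product of two characters. -/
theorem atoms_mul_char {Y : Type*} [MeasurableSpace Y] [StandardBorelSpace Y] {m : Measure Y}
    [IsProbabilityMeasure m] (R : Y ≃ᵐ Y) (lam : Measure W) [lam.IsHaarMeasure]
    [IsProbabilityMeasure lam] {c : W} {P : Y → W} (hK : KS m R lam c P)
    (f : Y → ℂ) (hf : f ∈ Atoms m R lam c P) (χ : PontryaginDual W) :
    (fun y => ch χ (P y) * f y) ∈ Atoms m R lam c P := by
  rcases hf with ⟨χ', rfl⟩ | ⟨d, Φ, E, i, hd, hE, hI, hN, rfl⟩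
  · exact Or.inl ⟨χ * χ', funext fun y => (ch_mul_left χ χ' (P y)).symm⟩
  · right
    have hz : ‖ch χ c‖ = 1 := norm_ch χ c
    have hz0 : ch χ c ≠ 0 := ch_ne_zero χ c
    refine ⟨d, fun w => ch χ c • Φ w, fun y k => ch χ (P y) * E y k, i, hd, ⟨gb_uc hE.uc hz, ?_, ?_⟩,
      ?_, ?_, rfl⟩
    · intro k
      exact ((bm_ch χ).comp hK.pres.measurable).mul (hE.bm k)
    · filter_upwards [hE.eq, hK.rot] with y h1 h2
      funext k
      show ch χ (P (R y)) * E (R y) k = _
      rw [h2, h1, ch_mul_right]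
      simp only [Matrix.mulVec, dotProduct, Matrix.smul_apply, smul_eq_mul, Finset.mul_sum]
      refine Finset.sum_congr rfl fun l _ => ?_
      ring
    · intro X hX
      refine hI X ⟨hX.1, ?_⟩
      filter_upwards [hX.2] with w hw
      simp only [Matrix.mul_smul, Matrix.smul_mul, one_smul] at hw ⊢
      exact smul_right_injective _ hz0 hw
    · intro ξ z hzn hξ
      refine hN ξ (z * ch χ c) (by rw [norm_mul, hzn, hz, one_mul]) ⟨hξ.1, ?_⟩
      filter_upwards [hξ.2] with w hw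
      rw [hw, Matrix.smul_mul, smul_smul]

/-- `h` is approximated in `l2` by the elements of `S`. -/
private def GbApp {Y : Type*} [MeasurableSpace Y] (m : Measure Y) (S : Submodule ℂ (Y → ℂ))
    (h : Y → ℂ) : Prop :=
  ∀ δ : ℝ, 0 < δ → ∃ F' ∈ S, l2 m (fun y => h y - F' y) ≤ δ

private theorem gb_app_congr {Y : Type*} [MeasurableSpace Y] {m : Measure Y}
    {S : Submodule ℂ (Y → ℂ)} {h h' : Y → ℂ} (hh : ∀ᵐ y ∂m, h y = h' y) (H : GbApp m S h') :
    GbApp m S h := by
  intro δ hδ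
  obtain ⟨F', hF', h1⟩ := H δ hδ
  refine ⟨F', hF', le_trans (le_of_eq (Pool.Agent.Lib.H22M.l2_congr ?_)) h1⟩
  filter_upwards [hh] with y hy
  rw [hy]

private theorem gb_app_sum {Y : Type*} [MeasurableSpace Y] {m : Measure Y} [IsProbabilityMeasure m]
    {S : Submodule ℂ (Y → ℂ)} (hS : ∀ F ∈ S, BM F) {ι : Type*} (s : Finset ι) {h : ι → Y → ℂ}
    (hb : ∀ i ∈ s, BM (h i)) (H : ∀ i ∈ s, GbApp m S (h i)) :
    GbApp m S (fun y => ∑ i ∈ s, h i y) := by
  classical
  induction s using Finset.induction_on with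
  | empty =>
    intro δ hδ
    refine ⟨0, S.zero_mem, ?_⟩
    have h1 : (fun y : Y => (∑ i ∈ (∅ : Finset ι), h i y) - (0 : Y → ℂ) y) = fun _ => (0 : ℂ) := by
      funext y
      simp
    rw [h1, Pool.Agent.Lib.H22M.l2_const, norm_zero]
    exact hδ.le
  | insert a s ha ih =>
    intro δ hδ
    obtain ⟨F1, hF1, h1⟩ := H a (Finset.mem_insert_self a s) (δ / 2) (half_pos hδ)
    obtain ⟨F2, hF2, h2⟩ := ih (fun i hi => hb i (Finset.mem_insert_of_mem hi))
      (fun i hi => H i (Finset.mem_insert_of_mem hi)) (δ / 2) (half_pos hδ)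
    refine ⟨F1 + F2, S.add_mem hF1 hF2, ?_⟩
    have e : (fun y => (∑ i ∈ insert a s, h i y) - (F1 + F2) y) =
        fun y => (h a y - F1 y) + ((∑ i ∈ s, h i y) - F2 y) := by
      funext y
      rw [Finset.sum_insert ha, Pi.add_apply]
      ring
    rw [e]
    have h3 := Pool.Agent.Lib.H22M.l2_add_le (m := m)
      ((hb a (Finset.mem_insert_self a s)).sub (hS F1 hF1))
      ((BM.sum s fun i hi => hb i (Finset.mem_insert_of_mem hi)).sub (hS F2 hF2))
    linarith

private theorem gb_l2_mul {Y : Type*} [MeasurableSpace Y] {m : Measure Y} [IsProbabilityMeasure m]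
    {lam : Measure W} [IsProbabilityMeasure lam] {P : Y → W} (hP : MeasurePreserving P m lam)
    {u : W → ℂ} (hu : BM u) {e : Y → ℂ} (he : BM e) {C : ℝ} (hC0 : 0 ≤ C) (hC : ∀ y, ‖e y‖ ≤ C) :
    l2 m (fun y => u (P y) * e y) ≤ C * l2 lam u := by
  have h1 : l2 lam u = l2 m (fun y => u (P y)) := by
    have h2 := l2_map (ρ := m) hP.measurable hu.1
    rwa [hP.map_eq] at h2
  rw [h1]
  have hub : BM fun y => u (P y) := hu.comp hP.measurable
  have hint : ∀ {f : Y → ℂ}, BM f → Integrable (fun y => ‖f y‖ ^ 2) m := by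
    intro f hf
    obtain ⟨h3, D, hD⟩ := hf
    refine Integrable.of_bound (h3.norm.pow_const 2).aestronglyMeasurable (D ^ 2)
      (Eventually.of_forall fun y => ?_)
    rw [Real.norm_of_nonneg (by positivity)]
    exact pow_le_pow_left₀ (norm_nonneg _) (hD y) 2
  have h4 : ∫ y, ‖u (P y) * e y‖ ^ 2 ∂m ≤ C ^ 2 * ∫ y, ‖u (P y)‖ ^ 2 ∂m := by
    rw [← integral_const_mul]
    refine integral_mono (hint (hub.mul he)) ((hint hub).const_mul _) fun y => ?_
    show ‖u (P y) * e y‖ ^ 2 ≤ C ^ 2 * ‖u (P y)‖ ^ 2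
    rw [norm_mul, mul_pow, mul_comm]
    exact mul_le_mul_of_nonneg_right (pow_le_pow_left₀ (norm_nonneg _) (hC y) 2) (by positivity)
  unfold l2
  calc Real.sqrt (∫ y, ‖u (P y) * e y‖ ^ 2 ∂m)
      ≤ Real.sqrt (C ^ 2 * ∫ y, ‖u (P y)‖ ^ 2 ∂m) := Real.sqrt_le_sqrt h4
    _ = C * Real.sqrt (∫ y, ‖u (P y)‖ ^ 2 ∂m) := by
        rw [Real.sqrt_mul (by positivity), Real.sqrt_sq hC0]

private theorem gb_atoms_bm {Y : Type*} [MeasurableSpace Y] {m : Measure Y} {R : Y → Y}
    {lam : Measure W} {c : W} {P : Y → W} (hP : Measurable P) {f : Y → ℂ}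
    (hf : f ∈ Atoms m R lam c P) : BM f := by
  rcases hf with ⟨χ, rfl⟩ | ⟨d, Φ, E, i, -, hE, -, -, rfl⟩
  · exact (bm_ch χ).comp hP
  · exact hE.bm i

private theorem gb_span_bm {Y : Type*} [MeasurableSpace Y] {m : Measure Y} {R : Y → Y}
    {lam : Measure W} {c : W} {P : Y → W} (hP : Measurable P) :
    ∀ F ∈ Submodule.span ℂ (Atoms m R lam c P), BM F := by
  intro F hF
  induction hF using Submodule.span_induction with
  | mem f hf => exact gb_atoms_bm hP hf
  | zero => exact BM.const 0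
  | add f g _ _ hf hg => exact hf.add hg
  | smul a f _ hf => exact (BM.const a).mul hf

private theorem gb_app_mul {Y : Type*} [MeasurableSpace Y] [StandardBorelSpace Y] {m : Measure Y}
    [IsProbabilityMeasure m] (R : Y ≃ᵐ Y) (lam : Measure W) [lam.IsHaarMeasure]
    [IsProbabilityMeasure lam] {c : W} {P : Y → W} (hK : KS m R lam c P) {a : W → ℂ} (ha : BM a)
    {e : Y → ℂ} (he : e ∈ Atoms m R lam c P) :
    GbApp m (Submodule.span ℂ (Atoms m R lam c P)) (fun y => a (P y) * e y) := by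
  intro δ hδ
  have heb := gb_atoms_bm hK.pres.measurable he
  obtain ⟨C, hC⟩ := heb.2
  have hC1 : 0 < |C| + 1 := by positivity
  have hC2 : ∀ y, ‖e y‖ ≤ |C| + 1 := fun y =>
    (hC y).trans ((le_abs_self C).trans (by linarith))
  obtain ⟨F, t, hF⟩ := tg_approx lam a ha (δ / (|C| + 1)) (div_pos hδ hC1)
  refine ⟨fun y => ∑ χ ∈ F, t χ * (ch χ (P y) * e y), ?_, ?_⟩
  · have h1 : (fun y => ∑ χ ∈ F, t χ * (ch χ (P y) * e y)) =
        ∑ χ ∈ F, t χ • (fun y => ch χ (P y) * e y) := by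
      funext y
      rw [Finset.sum_apply]
      rfl
    rw [h1]
    refine Submodule.sum_mem _ fun χ _ => Submodule.smul_mem _ _ (Submodule.subset_span ?_)
    exact atoms_mul_char R lam hK e he χ
  · have hT : BM fun w : W => ∑ χ ∈ F, t χ * ch χ w :=
      BM.sum F fun χ _ => (BM.const (t χ)).mul (bm_ch χ)
    have h2 : (fun y => a (P y) * e y - ∑ χ ∈ F, t χ * (ch χ (P y) * e y)) =
        fun y => (a (P y) - ∑ χ ∈ F, t χ * ch χ (P y)) * e y := by
      funext y
      rw [sub_mul, Finset.sum_mul]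
      congr 1
      refine Finset.sum_congr rfl fun χ _ => ?_
      ring
    rw [h2]
    have h3 := gb_l2_mul hK.pres (ha.sub hT) heb hC1.le hC2
    have h4 : l2 lam (fun w => a w - ∑ χ ∈ F, t χ * ch χ w) ≤ δ / (|C| + 1) := by
      unfold l2
      rw [Real.sqrt_le_left (div_pos hδ hC1).le]
      exact hF
    refine h3.trans ?_
    calc (|C| + 1) * l2 lam (fun w => a w - ∑ χ ∈ F, t χ * ch χ w)
        ≤ (|C| + 1) * (δ / (|C| + 1)) := mul_le_mul_of_nonneg_left h4 hC1.le
      _ = δ := by field_simp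

/-- Proof. `exists_irr_decomp` (IC) for `Φ`: `E(y) = ∑_k B_k(P y) E_k(y)`, `E_k(y) = B_k(P y)ᴴ *ᵥ E(y)`, a bundle for `Ψ_k`:
`E_k(R y) = B_k(c P y)ᴴ Φ(P y) E(y) = Ψ_k(P y) E_k(y)` a.e. So `g(P y) E(y)_i = ∑_k ∑_l a_kl(P y) E_k(y)_l`, `a_kl = g (B_k)_il` bounded
measurable. It is enough to approximate each product `a(P y) e(y)`, `e = (E_k)_l`, `‖e‖ ≤ C`. If `Ψ_k` has no eigenvectors:
`tg_approx` gives `T = ∑ t_χ χ` with `l2 lam (a - T)` small, `l2 m ((a - T)∘P * e) ≤ C l2 lam (a - T)` (`hK.pres`), and `χ(P y) e(y)` is in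
`Atoms` (`atoms_mul_char`). If it has, `e = g' ∘ P` a.e. (`kron_of_not_ne`, ID) and `a g'` is approximated by trigonometric
polynomials. -/
theorem dense_bun {Y : Type*} [MeasurableSpace Y] [StandardBorelSpace Y] {m : Measure Y}
    [IsProbabilityMeasure m] (R : Y ≃ᵐ Y) (lam : Measure W) [lam.IsHaarMeasure]
    [IsProbabilityMeasure lam] {c : W} {P : Y → W} (hK : KS m R lam c P) {d : ℕ}
    {Φ : W → Matrix (Fin d) (Fin d) ℂ} {E : Y → Fin d → ℂ} (hE : Bun m R P Φ E) (g : W → ℂ)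
    (hg : BM g) (i : Fin d) (δ : ℝ) (hδ : 0 < δ) :
    ∃ F' ∈ Submodule.span ℂ (Atoms m R lam c P),
      l2 m (fun y => g (P y) * E y i - F' y) ≤ δ := by
  have hPm : Measurable P := hK.pres.measurable
  obtain ⟨n, dd, B, Ψ, hB, hsum⟩ := exists_irr_decomp lam hK.free d Φ hE.uc
  obtain ⟨Ek, hEk⟩ : ∃ Ek : ∀ k : Fin n, Y → Fin (dd k) → ℂ,
      ∀ k y, Ek k y = (B k (P y))ᴴ *ᵥ E y := ⟨fun k y => (B k (P y))ᴴ *ᵥ E y, fun _ _ => rfl⟩
  have hBun : ∀ k, Bun m R P (Ψ k) (Ek k) := by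
    intro k
    obtain ⟨-, hUC, -, hBM, heq⟩ := hB k
    refine ⟨hUC, fun l => ?_, ?_⟩
    · have h1 : (fun y => Ek k y l) = fun y => ∑ j, conj (B k (P y) j l) * E y j := by
        funext y
        rw [hEk]
        rfl
      rw [h1]
      exact BM.sum _ fun j _ => ((hBM j l).comp hPm).conj.mul (hE.bm j)
    · have heq' : ∀ᵐ y ∂m, (B k (c * P y))ᴴ * Φ (P y) = Ψ k (P y) * (B k (P y))ᴴ :=
        hK.pres.quasiMeasurePreserving.ae heq
      filter_upwards [hE.eq, hK.rot, heq'] with y h1 h2 h3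
      rw [hEk, hEk, h2, h1, Matrix.mulVec_mulVec, h3, ← Matrix.mulVec_mulVec]
  have hdec : ∀ y, E y i = ∑ k, ∑ l, B k (P y) i l * Ek k y l := by
    intro y
    have h1 : E y = (∑ k, B k (P y) * (B k (P y))ᴴ) *ᵥ E y := by
      rw [hsum, Matrix.one_mulVec]
    calc E y i = ((∑ k, B k (P y) * (B k (P y))ᴴ) *ᵥ E y) i := by rw [← h1]
      _ = ∑ k, ∑ l, B k (P y) i l * Ek k y l := by
          rw [Matrix.sum_mulVec, Finset.sum_apply]
          refine Finset.sum_congr rfl fun k _ => ?_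
          rw [← Matrix.mulVec_mulVec, ← hEk]
          rfl
  have hfun : (fun y => g (P y) * E y i) =
      fun y => ∑ p ∈ (Finset.univ : Finset (Σ k : Fin n, Fin (dd k))),
        (g (P y) * B p.1 (P y) i p.2) * Ek p.1 y p.2 := by
    funext y
    rw [hdec y, ← Finset.univ_sigma_univ, Finset.sum_sigma, Finset.mul_sum]
    refine Finset.sum_congr rfl fun k _ => ?_
    rw [Finset.mul_sum]
    refine Finset.sum_congr rfl fun l _ => ?_
    ring
  have hone : (fun y => ch (1 : PontryaginDual W) (P y)) ∈ Atoms m R lam c P := Or.inl ⟨1, rfl⟩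
  have hmain : GbApp m (Submodule.span ℂ (Atoms m R lam c P)) (fun y => g (P y) * E y i) := by
    rw [hfun]
    refine gb_app_sum (gb_span_bm hPm) _ (fun p _ => ?_) (fun p _ => ?_)
    · exact ((hg.comp hPm).mul (((hB p.1).2.2.2.1 i p.2).comp hPm)).mul ((hBun p.1).bm p.2)
    · have ha : BM fun w => g w * B p.1 w i p.2 := hg.mul ((hB p.1).2.2.2.1 i p.2)
      by_cases hN : NE lam c (Ψ p.1)
      · exact gb_app_mul R lam hK ha
          (Or.inr ⟨dd p.1, Ψ p.1, Ek p.1, p.2, (hB p.1).1, hBun p.1, (hB p.1).2.2.1, hN, rfl⟩)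
      · obtain ⟨g', hg', hge⟩ := kron_of_not_ne R lam hK (hBun p.1) (hB p.1).2.2.1 hN p.2
        refine gb_app_congr (h' := fun y => (fun w => (g w * B p.1 w i p.2) * g' w) (P y) *
          ch (1 : PontryaginDual W) (P y)) ?_ (gb_app_mul R lam hK (ha.mul hg') hone)
        filter_upwards [hge] with y hy
        rw [hy, ch_one_left, mul_one]
  exact hmain δ hδ

end Pool.Agent.Lib.H82OH
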