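import Pool.Agent.Lib.H82OH.GB
import Pool.Agent.Lib.H82OG.MB2
import Pool.Agent.Lib.H82OT.FN2

/-!
# Project H82OH, chunk GC: functions of an isometric step
-/

open MeasureTheory Filter Topology Finset
open scoped ComplexConjugate Matrix

namespace Pool.Agent.Lib.H82OH

open Pool.Agent.Lib.H22M Pool.Agent.Lib.H82T Pool.Agent.Lib.H82OT Pool.Agent.Lib.H82OF

variable {W : Type*} [CommGroup W] [TopologicalSpace W] [IsTopologicalGroup W] [CompactSpace W]
  [T2Space W] [SecondCountableTopology W] [MeasurableSpace W] [BorelSpace W]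

private theorem GC_factor {Y B : Type*} [MeasurableSpace B] {d : ℕ} (P : Y → B)
    (F : Y → Fin d → ℂ) (hF : RowB (MeasurableSpace.comap P inferInstance) F) :
    ∃ F' : B → Fin d → ℂ, BMR F' ∧ ∀ y, F y = F' (P y) := by
  obtain ⟨hF1, C, hC⟩ := hF
  have hex : ∀ i, ∃ F₀ : B → ℂ, Measurable F₀ ∧ ∀ y, F y i = F₀ (P y) := by
    intro i
    obtain ⟨F₀, hF₀, hfF⟩ := (hF1 i).exists_eq_measurable_comp
    exact ⟨F₀, hF₀, fun y => congrFun hfF y⟩
  choose F₀ hF₀ hF₀e using hex
  classical
  refine ⟨fun w i => if ‖F₀ i w‖ ≤ C then F₀ i w else 0, fun i => ⟨?_, |C|, fun w => ?_⟩, ?_⟩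
  · exact Measurable.ite (measurableSet_le (hF₀ i).norm measurable_const) (hF₀ i) measurable_const
  · dsimp only
    split_ifs with h
    · exact h.trans (le_abs_self C)
    · simp
  · intro y
    funext i
    have h1 : ‖F₀ i (P y)‖ ≤ C := by
      rw [← hF₀e i y]
      exact hC y i
    show F y i = if ‖F₀ i (P y)‖ ≤ C then F₀ i (P y) else 0
    rw [if_pos h1]
    exact hF₀e i y

private theorem GC_bm_span {Y : Type*} [MeasurableSpace Y] {m : Measure Y} {R : Y → Y}
    {lam : Measure W} {c : W} {P : Y → W} (hP : Measurable P) {f : Y → ℂ}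
    (hf : f ∈ Submodule.span ℂ (Atoms m R lam c P)) : BM f := by
  induction hf using Submodule.span_induction with
  | mem x hx =>
    rcases hx with ⟨χ, rfl⟩ | ⟨d, Φ, E, i, _, hE, _, _, rfl⟩
    · exact (bm_ch χ).comp hP
    · exact hE.bm i
  | zero => exact BM.const 0
  | add x y _ _ hx hy => exact hx.add hy
  | smul a x _ hx => exact (BM.const a).mul hx

/-- Proof. `exists_zeta` (`H82OG/MB2.lean`; `hK.kron`): `ζ` with `π y = ζ (P y)` a.e. `exists_finite_type` (`H82OT/FN2.lean`) for the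
σ-algebra `comap π`: `F` is approximated in `L²` by `∑_i F_i(y) G_i(v y)` with `FTD muM G D` and bounded `F_i` measurable for
`comap π`, `F_i = a_i ∘ π = (a_i ∘ ζ) ∘ P` a.e. (`PG7_factor` in `H82OG/PG7.lean`). `E(y)_i = G_i(v y)` is a bundle for
`Φ(w) = Matrix.of (D (g (ζ w)))`: `E(R y) = D(g(π y)) E(y)` everywhere (`hvR`, `FTD.rel`), so `= Φ(P y) E(y)` a.e.; unitary by
`FTD.unit`, measurable by `FTD.measD` (see the proof of `PST_top` in `H82OG/PG7.lean`). `dense_bun` (GB) for each summand; finite sums. -/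
theorem dense_step {Y Z L M : Type*} [mY : MeasurableSpace Y] [StandardBorelSpace Y]
    {m : Measure Y} [IsProbabilityMeasure m] (R : Y ≃ᵐ Y) (lam : Measure W)
    [lam.IsHaarMeasure] [IsProbabilityMeasure lam] {c : W} {P : Y → W}
    (hK : KS m R lam c P) [CommGroup Z] [TopologicalSpace Z] [IsTopologicalGroup Z]
    [CompactSpace Z] [T2Space Z] [SecondCountableTopology Z] [MeasurableSpace Z] [BorelSpace Z]
    [Group L] [TopologicalSpace L] [IsTopologicalGroup L] [CompactSpace L] [T2Space L]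
    [SecondCountableTopology L] [MeasurableSpace L] [BorelSpace L]
    [TopologicalSpace M] [CompactSpace M] [T2Space M] [SecondCountableTopology M]
    [MeasurableSpace M] [BorelSpace M]
    [MulAction L M] [ContinuousSMul L M] [MulAction.IsPretransitive L M]
    (π : Y → Z) (hπ : Measurable π) (α : Z) (hπR : ∀ y, π (R y) = α * π y)
    (muM : Measure M) [IsProbabilityMeasure muM] [SMulInvariantMeasure L M muM]
    (v : Y → M) (hv : MeasurePreserving v m muM) (g : Z → L) (hg : Measurable g)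
    (hvR : ∀ y, v (R y) = g (π y) • v y) (F : Y → ℂ)
    (hF : Measurable[MeasurableSpace.comap π inferInstance ⊔
      MeasurableSpace.comap v inferInstance] F) (hb : ∃ C : ℝ, ∀ y, ‖F y‖ ≤ C) (δ : ℝ)
    (hδ : 0 < δ) :
    ∃ F' ∈ Submodule.span ℂ (Atoms m R lam c P), l2 m (fun y => F y - F' y) ≤ δ := by
  classical
  have hPm : Measurable P := hK.pres.measurable
  have hvm : Measurable v := hv.measurable
  have hle : MeasurableSpace.comap π inferInstance ≤ mY := hπ.comap_le
  obtain ⟨ζ, hζ, hζe⟩ := Pool.Agent.Lib.H82OG.exists_zeta (m := m) (R := R) π hπ α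
    (Eventually.of_forall hπR) P hPm hK.kron
  obtain ⟨d, G, D, Fr, hD, hFr, hl2⟩ :=
    exists_finite_type (K := L) (MeasurableSpace.comap π inferInstance) muM m hle v hv F hF
      hb (δ / 2) (by positivity)
  obtain ⟨F₁, hF₁, hF₁e⟩ := GC_factor π Fr hFr
  have hunit : ∀ z : Z, Matrix.of (D (g z)) * (Matrix.of (D (g z)))ᴴ = 1 := by
    intro z
    ext i j
    rw [Matrix.mul_apply, Matrix.one_apply]
    exact hD.unit (g z) i j
  have hGB : ∀ i, BM (fun y => G i (v y)) := by
    intro i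
    refine ⟨(hD.cont i).measurable.comp hvm, ?_⟩
    obtain ⟨C, hC⟩ := (isCompact_range (hD.cont i)).isBounded.exists_norm_le
    exact ⟨C, fun y => hC _ ⟨v y, rfl⟩⟩
  have hBun : Bun m R P (fun w => Matrix.of (D (g (ζ w)))) (fun y i => G i (v y)) := by
    refine ⟨⟨?_, ?_, ?_⟩, hGB, ?_⟩
    · intro i j
      exact ⟨(hD.measD i j).comp (hg.comp hζ), 1, fun w => unit_entry (hunit (ζ w)) i j⟩
    · intro w
      exact mul_eq_one_comm.1 (hunit (ζ w))
    · intro w
      exact hunit (ζ w)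
    · filter_upwards [hζe] with y hy
      funext i
      show G i (v (R y)) = ∑ j, D (g (ζ (P y))) i j * G j (v y)
      rw [hvR, hy]
      exact hD.rel (g (ζ (P y))) (v y) i
  have ha : ∀ i, BM (fun w => F₁ (ζ w) i) := fun i => (hF₁ i).comp hζ
  have hd1 : (0 : ℝ) < δ / (2 * (d + 1)) := by positivity
  choose F' hF'm hF'l using fun i => dense_bun R lam hK hBun (fun w => F₁ (ζ w) i) (ha i) i
    (δ / (2 * (d + 1))) hd1
  refine ⟨∑ i, F' i, Submodule.sum_mem _ fun i _ => hF'm i, ?_⟩
  have hF'B : ∀ i, BM (F' i) := fun i => GC_bm_span hPm (hF'm i)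
  have hFrB : ∀ i, BM (fun y => Fr y i) := by
    intro i
    have h1 : (fun y => Fr y i) = fun y => F₁ (π y) i := by
      funext y
      rw [hF₁e]
    rw [h1]
    exact (hF₁ i).comp hπ
  have hB1 : BM (fun y => ∑ i, Fr y i * G i (v y)) := BM.sum _ fun i _ => (hFrB i).mul (hGB i)
  have hFB : BM F := ⟨hF.mono (sup_le hle hvm.comap_le) le_rfl, hb⟩
  have hsB : BM (fun y => ∑ i, F' i y) := BM.sum _ fun i _ => hF'B i
  have h1 := l2_triangle m F (fun y => ∑ i, Fr y i * G i (v y)) (fun y => ∑ i, F' i y) hFB hB1 hsB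
  have h2 : l2 m (fun y => (∑ i, Fr y i * G i (v y)) - ∑ i, F' i y) ≤ δ / 2 := by
    have h3 : l2 m (fun y => (∑ i, Fr y i * G i (v y)) - ∑ i, F' i y) =
        l2 m (fun y => ∑ i, (F₁ (ζ (P y)) i * G i (v y) - F' i y)) := by
      refine Pool.Agent.Lib.H82OT.l2_congr m _ _ ?_
      filter_upwards [hζe] with y hy
      rw [← Finset.sum_sub_distrib]
      refine Finset.sum_congr rfl fun i _ => ?_
      rw [hF₁e y, hy]
    rw [h3]
    have hB2 : ∀ i, BM (fun y => F₁ (ζ (P y)) i * G i (v y) - F' i y) := fun i =>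
      (((ha i).comp hPm).mul (hGB i)).sub (hF'B i)
    refine (p6_l2_sum Finset.univ _ hB2).trans ?_
    calc ∑ i, l2 m (fun y => F₁ (ζ (P y)) i * G i (v y) - F' i y)
        ≤ ∑ _i : Fin d, δ / (2 * (d + 1)) := Finset.sum_le_sum fun i _ => hF'l i
      _ = (d / (d + 1)) * (δ / 2) := by
          rw [Finset.sum_const, Finset.card_univ, Fintype.card_fin, nsmul_eq_mul]
          field_simp
      _ ≤ 1 * (δ / 2) := by
          gcongr
          rw [div_le_one (by positivity)]
          linarith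
      _ = δ / 2 := one_mul _
  have h4 : (fun y => F y - (∑ i, F' i) y) = fun y => F y - ∑ i, F' i y := by
    funext y
    rw [Finset.sum_apply]
  rw [h4]
  linarith

end Pool.Agent.Lib.H82OH
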