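import Pool.Agent.Lib.H82OH.N7
import Pool.Agent.Lib.H22M.KA3

/-!
# Project H82OH, chunk KB: the criterion of Katai, Bourgain, Sarnak and Ziegler on dyadic blocks
-/

open Finset Filter Topology
open scoped ComplexConjugate

namespace Pool.Agent.Lib.H82OH

private theorem kb_core (a : ℕ → ℂ) (ha : ∀ n, ‖a n‖ ≤ 1) (P : Finset ℕ) (hP : ∀ p ∈ P, p.Prime)
    (N : ℕ) (hN2 : 2 * P.card ≤ N) (B : ℝ)
    (h4 : ‖∑ p ∈ P, ∑ m ∈ Icc 1 (N / p),
      ((ArithmeticFunction.moebius m : ℤ) : ℂ) * a (p * m)‖ ≤ B) :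
    (∑ p ∈ P, 1 / (p : ℝ)) *
        ‖∑ n ∈ Icc 1 N, ((ArithmeticFunction.moebius n : ℤ) : ℂ) * a n‖ ≤
      N * (Real.sqrt (2 * ∑ p ∈ P, 1 / (p : ℝ)) + 2) + B := by
  classical
  set A : ℝ := ∑ p ∈ P, 1 / (p : ℝ) with hA
  have hA0 : 0 ≤ A := Finset.sum_nonneg fun _ _ => by positivity
  set μ : ℕ → ℂ := fun n => ((ArithmeticFunction.moebius n : ℤ) : ℂ) with hμ
  have hμ1 : ∀ n, ‖μ n‖ ≤ 1 := H22M.ka3_mu_norm
  set om : ℕ → ℝ := fun n => ∑ p ∈ P, if p ∣ n then (1 : ℝ) else 0 with hom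
  have hNn : (0 : ℝ) ≤ N := Nat.cast_nonneg N
  have h1 : ‖∑ n ∈ Icc 1 N, μ n * a n * ((om n - A : ℝ) : ℂ)‖ ≤ N * Real.sqrt (2 * A) := by
    have e1 : ‖∑ n ∈ Icc 1 N, μ n * a n * ((om n - A : ℝ) : ℂ)‖ ≤ ∑ n ∈ Icc 1 N, |om n - A| := by
      refine (norm_sum_le _ _).trans (Finset.sum_le_sum fun n _ => ?_)
      rw [norm_mul, norm_mul, Complex.norm_real, Real.norm_eq_abs]
      have : ‖μ n‖ * ‖a n‖ ≤ 1 := by
        calc ‖μ n‖ * ‖a n‖ ≤ 1 * 1 := mul_le_mul (hμ1 n) (ha n) (norm_nonneg _) (by norm_num)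
          _ = 1 := one_mul 1
      calc ‖μ n‖ * ‖a n‖ * |om n - A| ≤ 1 * |om n - A| :=
            mul_le_mul_of_nonneg_right this (abs_nonneg _)
        _ = _ := one_mul _
    have e2 : (∑ n ∈ Icc 1 N, |om n - A|) ^ 2 ≤ (N * Real.sqrt (2 * A)) ^ 2 := by
      have e3 : (∑ n ∈ Icc 1 N, |om n - A|) ^ 2 ≤
          (Icc 1 N).card * ∑ n ∈ Icc 1 N, |om n - A| ^ 2 := sq_sum_le_card_mul_sum_sq
      have e4 : ∑ n ∈ Icc 1 N, |om n - A| ^ 2 ≤ N * A + 2 * P.card * A := by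
        simp only [sq_abs]
        exact H22M.turan_kubilius P hP N
      have e5 : (2 * P.card : ℝ) ≤ N := by exact_mod_cast hN2
      calc (∑ n ∈ Icc 1 N, |om n - A|) ^ 2 ≤ (Icc 1 N).card * ∑ n ∈ Icc 1 N, |om n - A| ^ 2 := e3
        _ = N * ∑ n ∈ Icc 1 N, |om n - A| ^ 2 := by rw [Nat.card_Icc]; simp
        _ ≤ N * (N * A + 2 * P.card * A) := mul_le_mul_of_nonneg_left e4 hNn
        _ ≤ N * (N * A + N * A) := by gcongr
        _ = (N * Real.sqrt (2 * A)) ^ 2 := by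
            rw [mul_pow, Real.sq_sqrt (by positivity)]; ring
    exact e1.trans ((sq_le_sq₀ (Finset.sum_nonneg fun _ _ => abs_nonneg _) (by positivity)).mp e2)
  have h2 : ∑ n ∈ Icc 1 N, μ n * a n * ((om n : ℝ) : ℂ) =
      ∑ p ∈ P, ∑ m ∈ Icc 1 (N / p), μ (p * m) * a (p * m) := by
    have e1 : ∀ n, μ n * a n * ((om n : ℝ) : ℂ) = ∑ p ∈ P, if p ∣ n then μ n * a n else 0 := by
      intro n
      rw [hom]
      push_cast
      rw [Finset.mul_sum]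
      refine Finset.sum_congr rfl fun p _ => ?_
      split_ifs <;> simp
    simp only [e1]
    rw [Finset.sum_comm]
    exact Finset.sum_congr rfl fun p hp =>
      H22M.ka3_multiples (hP p hp).pos N fun n => μ n * a n
  have h3 : ‖(∑ p ∈ P, ∑ m ∈ Icc 1 (N / p), μ (p * m) * a (p * m)) +
      ∑ p ∈ P, ∑ m ∈ Icc 1 (N / p), μ m * a (p * m)‖ ≤ N * 2 := by
    rw [← Finset.sum_add_distrib]
    refine (norm_sum_le _ _).trans ?_
    calc ∑ p ∈ P, ‖(∑ m ∈ Icc 1 (N / p), μ (p * m) * a (p * m)) +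
          ∑ m ∈ Icc 1 (N / p), μ m * a (p * m)‖ ≤ ∑ p ∈ P, N * ((p : ℝ) ^ 2)⁻¹ := by
          refine Finset.sum_le_sum fun p hp => ?_
          have hpp := hP p hp
          have hp0 : (0 : ℝ) < p := by exact_mod_cast hpp.pos
          rw [← Finset.sum_add_distrib]
          calc ‖∑ m ∈ Icc 1 (N / p), (μ (p * m) * a (p * m) + μ m * a (p * m))‖
              ≤ ∑ m ∈ Icc 1 (N / p), (if p ∣ m then (1 : ℝ) else 0) := by
                refine (norm_sum_le _ _).trans (Finset.sum_le_sum fun m _ => ?_)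
                rw [← add_mul, norm_mul]
                calc ‖μ (p * m) + μ m‖ * ‖a (p * m)‖ ≤ ‖μ (p * m) + μ m‖ * 1 :=
                      mul_le_mul_of_nonneg_left (ha _) (norm_nonneg _)
                  _ = ‖μ (p * m) + μ m‖ := mul_one _
                  _ ≤ _ := H22M.ka3_mu hpp
            _ ≤ ((N / p : ℕ) : ℝ) / p := H22M.ka3_count hpp.pos _
            _ ≤ (N / p : ℝ) / p := by gcongr; exact Nat.cast_div_le
            _ = N * ((p : ℝ) ^ 2)⁻¹ := by field_simp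
      _ = N * ∑ p ∈ P, ((p : ℝ) ^ 2)⁻¹ := by rw [Finset.mul_sum]
      _ ≤ N * 2 := mul_le_mul_of_nonneg_left (H22M.ka3_sq P hP) hNn
  have h5 : (A : ℂ) * ∑ n ∈ Icc 1 N, μ n * a n =
      ((∑ p ∈ P, ∑ m ∈ Icc 1 (N / p), μ (p * m) * a (p * m)) +
        ∑ p ∈ P, ∑ m ∈ Icc 1 (N / p), μ m * a (p * m)) -
      (∑ p ∈ P, ∑ m ∈ Icc 1 (N / p), μ m * a (p * m)) -
      ∑ n ∈ Icc 1 N, μ n * a n * ((om n - A : ℝ) : ℂ) := by
    rw [← h2, Finset.mul_sum, add_sub_cancel_right, ← Finset.sum_sub_distrib]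
    refine Finset.sum_congr rfl fun n _ => ?_
    push_cast
    ring
  have h6 : A * ‖∑ n ∈ Icc 1 N, μ n * a n‖ = ‖(A : ℂ) * ∑ n ∈ Icc 1 N, μ n * a n‖ := by
    rw [norm_mul, Complex.norm_real, Real.norm_of_nonneg hA0]
  rw [h6, h5]
  refine (norm_sub_le _ _).trans ?_
  refine (add_le_add (norm_sub_le _ _) h1).trans ?_
  refine (add_le_add_left (add_le_add h3 h4) _).trans (le_of_eq ?_)
  ring

private theorem kb_sum {M : Type*} [AddCommMonoid M] (f : ℕ → M) (k1 : ℕ) {K : ℕ} (h : k1 ≤ K) :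
    ∑ p ∈ (Ioc (2 ^ k1) (2 ^ K)).filter Nat.Prime, f p = ∑ k ∈ Ico k1 K, ∑ p ∈ PB k, f p := by
  induction K, h using Nat.le_induction with
  | base => simp
  | succ K hK ih =>
    rw [Finset.sum_Ico_succ_top hK, ← ih]
    unfold PB
    rw [Finset.sum_filter, Finset.sum_filter, Finset.sum_filter]
    exact (Finset.sum_Ioc_consecutive (fun p : ℕ => if p.Prime then f p else 0)
      (Nat.pow_le_pow_right (by norm_num) hK)
      (Nat.pow_le_pow_right (by norm_num) (Nat.le_succ K))).symm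

private theorem kb_symm (a : ℕ → ℂ) (p q L : ℕ) :
    ‖∑ m ∈ Icc 1 L, a (p * m) * conj (a (q * m))‖ =
      ‖∑ m ∈ Icc 1 L, a (q * m) * conj (a (p * m))‖ := by
  rw [← RCLike.norm_conj (∑ m ∈ Icc 1 L, a (q * m) * conj (a (p * m))), map_sum]
  congr 1
  refine Finset.sum_congr rfl fun m _ => ?_
  rw [map_mul, Complex.conj_conj, mul_comm]

private theorem kb_block (a : ℕ → ℂ) (ha : ∀ n, ‖a n‖ ≤ 1) (ε : ℝ) (hε : 0 < ε) (k : ℕ)
    (hk : 1 ≤ k) (hcard : 1 ≤ ε * (PB k).card)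
    (h : ∀ s ∈ PB k, ∀ Q ⊆ PB k,
      (∀ r ∈ Q, r ≠ s ∧ ¬ ∀ᶠ N : ℕ in atTop,
        ‖∑ n ∈ Icc 1 N, a (r * n) * conj (a (s * n))‖ ≤ ε * N) →
      (Q.card : ℝ) ≤ ε * (PB k).card) :
    ∀ᶠ N : ℕ in atTop, ‖∑ p ∈ PB k, ∑ m ∈ Icc 1 (N / p),
      ((ArithmeticFunction.moebius m : ℤ) : ℂ) * a (p * m)‖ ≤
        N * (6 * Real.sqrt ε * ∑ p ∈ PB k, 1 / (p : ℝ)) := by
  classical
  set Bad : ℕ → ℕ → Prop := fun p q => q ≠ p ∧ ¬ ∀ᶠ N : ℕ in atTop,
    ‖∑ n ∈ Icc 1 N, a (q * n) * conj (a (p * n))‖ ≤ ε * N with hBad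
  have hPB : ∀ p ∈ PB k, 2 ^ k ≤ p ∧ p < 2 ^ (k + 1) := by
    intro p hp
    obtain ⟨⟨h1, h2⟩, h3⟩ := mem_PB.1 hp
    refine ⟨h1.le, lt_of_le_of_ne h2 ?_⟩
    rintro rfl
    have h4 := (Nat.Prime.prime h3)
    have h5 : ¬ (2 ^ (k + 1)).Prime := Nat.Prime.not_prime_pow (by omega)
    exact h5 h3
  set m0 : ℕ := ⌊ε * (PB k).card⌋₊ with hm0
  have hm0' : (m0 : ℝ) ≤ ε * (PB k).card := Nat.floor_le (by positivity)
  have hB : ∀ p ∈ PB k, ((PB k).filter fun q => Bad p q).card ≤ m0 := by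
    intro p hp
    refine Nat.le_floor ?_
    refine h p hp _ (Finset.filter_subset _ _) fun r hr => ?_
    exact (mem_filter.mp hr).2
  have hev : ∀ᶠ L : ℕ in atTop, ∀ p ∈ PB k, ∀ q ∈ PB k, p ≠ q → ¬ Bad p q →
      ‖∑ m ∈ Icc 1 L, a (p * m) * conj (a (q * m))‖ ≤ ε * L := by
    rw [Filter.eventually_all_finset]
    intro p _
    rw [Filter.eventually_all_finset]
    intro q _
    by_cases h1 : p ≠ q ∧ ¬ Bad p q
    · have h2 : ∀ᶠ N : ℕ in atTop,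
          ‖∑ n ∈ Icc 1 N, a (q * n) * conj (a (p * n))‖ ≤ ε * N := by
        by_contra h3
        exact h1.2 ⟨h1.1.symm, h3⟩
      refine h2.mono fun L hL _ _ => ?_
      rw [kb_symm]
      exact hL
    · exact Eventually.of_forall fun L h2 h3 => absurd ⟨h2, h3⟩ h1
  obtain ⟨L0, hL0⟩ := eventually_atTop.mp hev
  filter_upwards [eventually_ge_atTop (2 ^ (k + 1) * L0)] with N hN
  have hb := H22M.block_bound a (fun n => ((ArithmeticFunction.moebius n : ℤ) : ℂ)) ha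
    H22M.ka3_mu_norm k (PB k) hPB Bad m0 hB ε hε.le L0
    (fun p hp q hq hne hb L hL => hL0 L hL p hp q hq hne hb) N hN
  refine hb.trans ?_
  have hc0 : (0 : ℝ) ≤ (PB k).card := Nat.cast_nonneg _
  have e1 : Real.sqrt ((PB k).card * (1 + m0)) ≤ 2 * Real.sqrt ε * (PB k).card := by
    have e2 : (2 * Real.sqrt ε * (PB k).card) ^ 2 = 4 * ε * ((PB k).card : ℝ) ^ 2 := by
      rw [mul_pow, mul_pow, Real.sq_sqrt hε.le]
      ring
    refine Real.sqrt_le_iff.mpr ⟨by positivity, ?_⟩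
    rw [e2]
    have e3 : (1 + (m0 : ℝ)) ≤ 4 * ε * (PB k).card := by linarith
    calc ((PB k).card : ℝ) * (1 + m0) ≤ (PB k).card * (4 * ε * (PB k).card) :=
          mul_le_mul_of_nonneg_left e3 hc0
      _ = _ := by ring
  have e5 : ((PB k).card : ℝ) / 2 ^ k ≤ 2 * ∑ p ∈ PB k, 1 / (p : ℝ) := by
    have e6 : ((PB k).card : ℝ) / 2 ^ k = 2 * ∑ _p ∈ PB k, 1 / (2 ^ (k + 1) : ℝ) := by
      rw [Finset.sum_const, nsmul_eq_mul, pow_succ]
      field_simp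
    rw [e6]
    refine mul_le_mul_of_nonneg_left (Finset.sum_le_sum fun p hp => ?_) (by norm_num)
    have hp0 : (0 : ℝ) < p := by exact_mod_cast (mem_PB.1 hp).2.pos
    exact one_div_le_one_div_of_le hp0 (by exact_mod_cast (hPB p hp).2.le)
  have hN0 : (0 : ℝ) ≤ N := Nat.cast_nonneg _
  have h2k : (0 : ℝ) < 2 ^ k := by positivity
  have hs : 0 ≤ Real.sqrt ε := Real.sqrt_nonneg _
  calc (N / 2 ^ k : ℝ) * (Real.sqrt ((PB k).card * (1 + m0)) + Real.sqrt ε * (PB k).card)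
      ≤ (N / 2 ^ k : ℝ) * (2 * Real.sqrt ε * (PB k).card + Real.sqrt ε * (PB k).card) := by
        gcongr
    _ = N * (3 * Real.sqrt ε * ((PB k).card / 2 ^ k)) := by ring
    _ ≤ N * (3 * Real.sqrt ε * (2 * ∑ p ∈ PB k, 1 / (p : ℝ))) := by gcongr
    _ = _ := by ring

/-- Proof. As for `katai_average` (`H22M/KA3.lean`), with `P' = ⋃_{k0 ≤ k < K} PB k`, where `K` is so large that
`A = ∑_{p ∈ P'} 1/p` is large (the sum of the reciprocals of the primes diverges: `Nat.Primes.not_summable_one_div` or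
`not_summable_one_div_on_primes`) and `k0` so large that the hypothesis holds for `ε` and `|PB k| ≥ 1/ε` (`card_PB_large`). Turán-Kubilius
(`turan_kubilius`, `H22M/KA1.lean`), `ka3_core` (`H22M/KA3.lean`; it reduces to the sums
`∑_{p ∈ P_j} ∑_{m ≤ N/p} μ(m) a(p m)` of the blocks `P_j`), or its proof. For one block `P = PB k`: by Cauchy-Schwarz over
`m ≤ N/2^k` its square is at most `(N/2^k) ∑_{p, q ∈ P} ‖∑_{m ≤ N / max(p,q)} a(p m) conj a(q m)‖`, where the pairs `p = q` and the bad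
pairs (at most `ε |P|^2` of them: for fixed `s` the set `Q` of all bad `r`) contribute `N/2^k` each, and the others at most `ε N/2^k` for large `N`: together at most
`(N/2^k)^2 |P|^2 (1/|P| + 2 ε) ≤ 3 ε (N/2^k)^2 |P|^2` (compare `block_bound`, `H22M/KA2.lean`). So the sum over the blocks is at most
`√(3 ε) N ∑_k |PB k| / 2^k ≤ 2 √(3 ε) A N`. -/
theorem katai_block (a : ℕ → ℂ) (ha : ∀ n, ‖a n‖ ≤ 1)
    (h : ∀ ε : ℝ, 0 < ε → ∃ k0 : ℕ, ∀ k : ℕ, k0 ≤ k → ∀ s ∈ PB k, ∀ Q ⊆ PB k,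
      (∀ r ∈ Q, r ≠ s ∧ ¬ ∀ᶠ N : ℕ in atTop,
        ‖∑ n ∈ Icc 1 N, a (r * n) * conj (a (s * n))‖ ≤ ε * N) →
      (Q.card : ℝ) ≤ ε * (PB k).card) :
    Tendsto (fun N : ℕ => (∑ n ∈ Icc 1 N, (ArithmeticFunction.moebius n : ℂ) * a n) / N) atTop
      (𝓝 0) := by
  classical
  rw [Metric.tendsto_atTop]
  intro κ hκ
  obtain ⟨k0, hk0⟩ := h ((κ / 24) ^ 2) (by positivity)
  obtain ⟨k0', hk0'⟩ := card_PB_large (1 / (κ / 24) ^ 2)
  set k1 : ℕ := max (max k0 k0') 1 with hk1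
  have hk1a : k0 ≤ k1 := (le_max_left _ _).trans (le_max_left _ _)
  have hk1b : k0' ≤ k1 := (le_max_right _ _).trans (le_max_left _ _)
  have hk1c : 1 ≤ k1 := le_max_right _ _
  have hlim : Tendsto (fun x : ℝ => Real.sqrt (2 / x) + 2 / x) atTop (𝓝 0) := by
    have l1 : Tendsto (fun x : ℝ => 2 / x) atTop (𝓝 0) := tendsto_const_nhds.div_atTop tendsto_id
    have l3 := (Real.continuous_sqrt.tendsto 0).comp l1
    simpa using l3.add l1
  obtain ⟨A0, hA0⟩ := eventually_atTop.mp ((hlim.eventually (gt_mem_nhds (show (0 : ℝ) < κ / 2 by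
    positivity))).and (eventually_ge_atTop 1))
  have hdiv : Tendsto (fun n : ℕ => ∑ i ∈ Finset.range n,
      ({p : ℕ | p.Prime}.indicator (fun n : ℕ => (1 : ℝ) / n)) i) atTop atTop := by
    refine (not_summable_iff_tendsto_nat_atTop_of_nonneg fun p => ?_).mp
      not_summable_one_div_on_primes
    exact Set.indicator_nonneg (fun _ _ => by positivity) p
  obtain ⟨K, hK1, hK⟩ : ∃ K : ℕ, k1 ≤ K ∧
      A0 ≤ ∑ p ∈ (Ioc (2 ^ k1) (2 ^ K)).filter Nat.Prime, 1 / (p : ℝ) := by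
    set g : ℕ → ℝ := {p : ℕ | p.Prime}.indicator (fun n : ℕ => (1 : ℝ) / n) with hg
    obtain ⟨n0, hn0⟩ := eventually_atTop.mp
      (hdiv.eventually (eventually_ge_atTop (A0 + ∑ i ∈ Finset.range (2 ^ k1 + 1), g i)))
    refine ⟨max k1 n0, le_max_left _ _, ?_⟩
    have h1 := hn0 (2 ^ (max k1 n0) + 1) (by
      have h2 : n0 ≤ max k1 n0 := le_max_right _ _
      have h3 : max k1 n0 < 2 ^ (max k1 n0) := Nat.lt_two_pow_self
      omega)
    have h2 : (2 ^ k1 + 1) ≤ 2 ^ (max k1 n0) + 1 :=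
      Nat.succ_le_succ (Nat.pow_le_pow_right (by norm_num) (le_max_left _ _))
    rw [← Finset.sum_range_add_sum_Ico g h2] at h1
    have h3 : ∑ p ∈ (Ioc (2 ^ k1) (2 ^ (max k1 n0))).filter Nat.Prime, 1 / (p : ℝ) =
        ∑ i ∈ Ico (2 ^ k1 + 1) (2 ^ (max k1 n0) + 1), g i := by
      rw [Finset.sum_filter]
      refine Finset.sum_congr ?_ fun p _ => ?_
      · ext p
        simp only [mem_Ioc, mem_Ico]
        omega
      · rw [hg, Set.indicator_apply]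
        rfl
    rw [h3]
    linarith
  set P : Finset ℕ := (Ioc (2 ^ k1) (2 ^ K)).filter Nat.Prime with hPdef
  have hPp : ∀ p ∈ P, p.Prime := fun p hp => (mem_filter.mp hp).2
  set A : ℝ := ∑ p ∈ P, 1 / (p : ℝ) with hA
  obtain ⟨hA1, hA2⟩ := hA0 A hK
  have hApos : 0 < A := by linarith
  have hev : ∀ᶠ N : ℕ in atTop, ∀ k ∈ Ico k1 K, ‖∑ p ∈ PB k, ∑ m ∈ Icc 1 (N / p),
      ((ArithmeticFunction.moebius m : ℤ) : ℂ) * a (p * m)‖ ≤
        N * (6 * Real.sqrt ((κ / 24) ^ 2) * ∑ p ∈ PB k, 1 / (p : ℝ)) := by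
    rw [Filter.eventually_all_finset]
    intro k hk
    have hk' := (mem_Ico.mp hk).1
    refine kb_block a ha _ (by positivity) k (hk1c.trans hk') ?_ (hk0 k (hk1a.trans hk'))
    have h1 := hk0' k (hk1b.trans hk')
    rw [div_le_iff₀ (by positivity)] at h1
    linarith
  obtain ⟨N1, hN1⟩ := eventually_atTop.mp hev
  refine ⟨max N1 (max (2 * P.card) 1), fun N hN => ?_⟩
  have hNa : N1 ≤ N := (le_max_left _ _).trans hN
  have hN2 : 2 * P.card ≤ N := (le_max_left _ _).trans ((le_max_right _ _).trans hN)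
  have hN3 : 1 ≤ N := (le_max_right _ _).trans ((le_max_right _ _).trans hN)
  have hNp : (0 : ℝ) < N := by exact_mod_cast hN3
  have hb : ‖∑ p ∈ P, ∑ m ∈ Icc 1 (N / p),
      ((ArithmeticFunction.moebius m : ℤ) : ℂ) * a (p * m)‖ ≤ N * (κ / 4 * A) := by
    rw [hPdef, kb_sum _ k1 hK1]
    refine (norm_sum_le _ _).trans ?_
    refine (Finset.sum_le_sum fun k hk => hN1 N hNa k hk).trans (le_of_eq ?_)
    rw [← Finset.mul_sum, ← Finset.mul_sum, hA, hPdef, kb_sum _ k1 hK1,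
      Real.sqrt_sq (by positivity)]
    ring
  have hcore := kb_core a ha P hPp N hN2 _ hb
  rw [← hA] at hcore
  rw [dist_zero_right, norm_div, Complex.norm_natCast]
  have e1 : Real.sqrt (2 * A) = A * Real.sqrt (2 / A) := by
    have : 2 * A = A ^ 2 * (2 / A) := by field_simp
    rw [this, Real.sqrt_mul (by positivity), Real.sqrt_sq hApos.le]
  have e2 : ‖∑ n ∈ Icc 1 N, (ArithmeticFunction.moebius n : ℂ) * a n‖ / N ≤
      Real.sqrt (2 / A) + 2 / A + κ / 4 := by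
    rw [div_le_iff₀ hNp]
    have e3 : A * ‖∑ n ∈ Icc 1 N, ((ArithmeticFunction.moebius n : ℤ) : ℂ) * a n‖ ≤
        A * ((Real.sqrt (2 / A) + 2 / A + κ / 4) * N) := by
      refine hcore.trans (le_of_eq ?_)
      rw [e1]
      field_simp
    exact le_of_mul_le_mul_left e3 hApos
  have e4 : Real.sqrt (2 / A) + 2 / A < κ / 2 := hA1
  calc ‖∑ n ∈ Icc 1 N, (ArithmeticFunction.moebius n : ℂ) * a n‖ / N
      ≤ Real.sqrt (2 / A) + 2 / A + κ / 4 := e2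
    _ < κ := by linarith

end Pool.Agent.Lib.H82OH
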