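import Pool.Agent.Lib.H82OH.BB
import Pool.Agent.Lib.H82OH.KB
import Pool.Agent.Lib.H82OG.GS3
import Pool.Agent.Lib.H82OG.MB1

/-!
# Project H82OH, chunk GD: the criterion
-/

open MeasureTheory Filter Topology Finset
open scoped ComplexConjugate Matrix

namespace Pool.Agent.Lib.H82OH

open Pool.Agent.Lib.H22M Pool.Agent.Lib.H82T Pool.Agent.Lib.H82OT Pool.Agent.Lib.H82OF
open Pool.Agent.Lib.H82OG

/-- Port of `main_of_BDD` (`H82OG/GS3.lean`) with `katai_block` (KB) in place of `katai_average`. For `F = g ∘ ψ`, `‖F‖ ≤ 1`, `∫ F dm₁ = 0`,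
and `ε > 0` take `k0` of `hQ (F ∘ τ)` for `ε / 2` (so `Q.card ≤ (ε/2) |PB k| ≤ ε |PB k|`): if all `r ∈ Q` are such that the correlation is not
eventually `≤ ε N`, then they are bad for `F ∘ τ` and `ε / 2` (otherwise `eventually_le_of_join`, `exists_joining_lift` as in
`main_of_BDD`). The ergodicity of the iterates from `hroot`. -/
theorem main_of_few {Y Y₁ : Type*} [MeasurableSpace Y] [StandardBorelSpace Y]
    [MeasurableSpace Y₁] {m : Measure Y} [IsProbabilityMeasure m] {m₁ : Measure Y₁}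
    [IsProbabilityMeasure m₁] (R : Y ≃ᵐ Y) (hR : Ergodic R m)
    (hroot : ∀ l : ℂ, IsEigenvalue m R l → ∀ n : ℕ, 1 ≤ n → l ^ n = 1 → l = 1)
    (hQ : ∀ F : Y → ℂ, BM F → Few m R F F) (R₁ : Y₁ ≃ᵐ Y₁)
    (τ : Y → Y₁) (hτ : MeasurePreserving τ m m₁) (hτR : ∀ᵐ y ∂m, τ (R y) = R₁ (τ y))
    {X : Type*} [MetricSpace X] [CompactSpace X] [MeasurableSpace X] [BorelSpace X]
    (T : X ≃ₜ X) (ν : Measure X) (θ : X → Y₁) (ψ : Y₁ → X)
    (hmodel : IsUEModel T ν m₁ R₁ θ ψ) (f : C(X, ℂ)) (x : X) :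
    Tendsto (fun N : ℕ => (1 / (N : ℂ)) *
      ∑ n ∈ Icc 1 N, f ((⇑T)^[n] x) * (ArithmeticFunction.moebius n : ℂ)) atTop (𝓝 0) := by
  have hergn : ∀ n : ℕ, 1 ≤ n → Ergodic ((⇑R₁)^[n]) m₁ := fun n hn =>
    ergodic_factor R hR.toMeasurePreserving R₁ τ hτ hτR n (ergodic_iterate hR hroot n hn)
  have hνp : IsProbabilityMeasure ν := hmodel.prob
  set c₀ : ℂ := ∫ x, f x ∂ν with hc₀
  set L : ℝ := 2 * ‖f‖ + 1 with hL
  have hL0 : 0 < L := by positivity
  have hLC : (L : ℂ) ≠ 0 := by exact_mod_cast hL0.ne'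
  set g : C(X, ℂ) := (L : ℂ)⁻¹ • (f - ContinuousMap.const X c₀) with hg
  have hgx : ∀ x, g x = (L : ℂ)⁻¹ * (f x - c₀) := fun x => rfl
  have hc₀n : ‖c₀‖ ≤ ‖f‖ := by
    have h1 := norm_integral_le_of_norm_le_const (μ := ν) (f := fun x => f x) (C := ‖f‖)
      (Eventually.of_forall fun x => f.norm_coe_le_norm x)
    simpa using h1
  have hg1 : ∀ x, ‖g x‖ ≤ 1 := by
    intro x
    rw [hgx, norm_mul, norm_inv, Complex.norm_real, Real.norm_of_nonneg hL0.le,
      inv_mul_le_iff₀ hL0, mul_one]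
    calc ‖f x - c₀‖ ≤ ‖f x‖ + ‖c₀‖ := norm_sub_le _ _
      _ ≤ ‖f‖ + ‖f‖ := add_le_add (f.norm_coe_le_norm x) hc₀n
      _ ≤ L := by rw [hL]; linarith
  have hF0 : ∫ y, g (ψ y) ∂m₁ = 0 := by
    have h1 : ∫ y, g (ψ y) ∂m₁ = ∫ x, g x ∂ν := by
      rw [← hmodel.map_psi, integral_map hmodel.meas_psi.aemeasurable]
      exact g.continuous.measurable.aestronglyMeasurable
    have hfi : Integrable (fun x => f x) ν :=
      Integrable.of_bound f.continuous.measurable.aestronglyMeasurable ‖f‖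
        (Eventually.of_forall fun x => f.norm_coe_le_norm x)
    rw [h1]
    simp_rw [hgx]
    rw [integral_const_mul, integral_sub hfi (integrable_const _), integral_const]
    simp [hc₀]
  have hgm : Measurable fun y => g (ψ y) := g.continuous.measurable.comp hmodel.meas_psi
  have gd_join : ∀ p q : ℕ, 1 ≤ p → 1 ≤ q → ∀ ε : ℝ, 0 < ε →
      ¬ BadP m R (fun y => g (ψ (τ y))) (fun y => g (ψ (τ y))) (ε / 2) p q →
      ∀ᶠ N : ℕ in atTop, ‖∑ n ∈ Icc 1 N, g ((⇑T)^[p * n] x) * conj (g ((⇑T)^[q * n] x))‖ ≤ ε * N := by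
    intro p q hp hq ε hε hbad
    refine eventually_le_of_join T.continuous R₁.measurable hmodel hergn p q hp
      hq g x (ε / 2) ε (by linarith) fun ρ₁ hρ₁ => ?_
    obtain ⟨ρ, hρ, hmap⟩ := exists_joining_lift R hR.toMeasurePreserving R₁ τ hτ hτR hρ₁
    have h4 : ∫ y, g (ψ (τ y)) ∂m = 0 := by
      rw [← hF0, ← hτ.map_eq, integral_map hτ.measurable.aemeasurable]
      exact hgm.aestronglyMeasurable
    have hmeas : Measurable fun z : Y₁ × Y₁ => g (ψ z.1) * conj (g (ψ z.2)) :=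
      (hgm.comp measurable_fst).mul
        (Complex.continuous_conj.measurable.comp (hgm.comp measurable_snd))
    have h5 : ∫ z, g (ψ z.1) * conj (g (ψ z.2)) ∂ρ₁ =
        ∫ z, g (ψ (τ z.1)) * conj (g (ψ (τ z.2))) ∂ρ := by
      rw [← hmap, integral_map (hτ.measurable.prodMap hτ.measurable).aemeasurable
        hmeas.aestronglyMeasurable]
      rfl
    rw [h5]
    by_contra hcon
    refine hbad ⟨ρ, hρ, ?_⟩
    rw [h4, zero_mul, sub_zero]
    exact not_le.1 hcon
  have hmain : Tendsto (fun N : ℕ =>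
      (∑ n ∈ Icc 1 N, (ArithmeticFunction.moebius n : ℂ) * g ((⇑T)^[n] x)) / N) atTop (𝓝 0) := by
    apply katai_block (fun n => g ((⇑T)^[n] x)) (fun n => hg1 _)
    intro ε hε
    obtain ⟨k0, hk0⟩ := hQ (fun y => g (ψ (τ y)))
      ⟨hgm.comp hτ.measurable, 1, fun y => hg1 _⟩ (ε / 2) (by positivity)
    refine ⟨k0, fun k hk s hs Q hQs hQ' => ?_⟩
    have hcard : (Q.card : ℝ) ≤ ε / 2 * (PB k).card := by
      refine hk0 k hk s hs Q hQs fun r hr => ⟨(hQ' r hr).1, ?_⟩
      by_contra hbad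
      apply (hQ' r hr).2
      exact gd_join r s (mem_PB.1 (hQs hr)).2.one_le (mem_PB.1 hs).2.one_le ε hε hbad
    have hc0 : (0 : ℝ) ≤ (PB k).card := Nat.cast_nonneg _
    nlinarith
  have h2 := (hmain.const_mul (L : ℂ)).add (moebius_mean.const_mul c₀)
  rw [mul_zero, mul_zero, add_zero] at h2
  refine h2.congr fun N => ?_
  have h3 : ∀ n, f ((⇑T)^[n] x) = (L : ℂ) * g ((⇑T)^[n] x) + c₀ := by
    intro n
    rw [hgx]
    field_simp
    ring
  simp_rw [h3, div_eq_mul_inv, one_mul]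
  rw [Finset.sum_mul, Finset.mul_sum, Finset.sum_mul, Finset.mul_sum, Finset.mul_sum,
    ← Finset.sum_add_distrib]
  refine Finset.sum_congr rfl fun n _ => ?_
  ring

/-- The maximal rotation factor. Proof. `exists_kron_haar` (`H82OG/MB1.lean`). `free`: let `θ` be a character of `W` with `θ(c)^n = 1`,
`n ≥ 1`. `θ ∘ P` is an eigenfunction of modulus one with eigenvalue `θ(c)`, so `θ(c) = 1` by `hroot`, `θ ∘ P` is invariant, a.e. constant by
ergodicity, so `θ` is `lam`-a.e. constant; by `∫ θ dlam = 0` for `θ ≠ 1` (`int_ch`-argument: translate) `θ = 1`. -/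
theorem exists_ks {Y : Type*} [MeasurableSpace Y] [StandardBorelSpace Y]
    {m : Measure Y} [IsProbabilityMeasure m] [MeasurableSpace Circle] [BorelSpace Circle]
    (R : Y ≃ᵐ Y) (hR : Ergodic R m)
    (hroot : ∀ l : ℂ, IsEigenvalue m R l → ∀ n : ℕ, 1 ≤ n → l ^ n = 1 → l = 1) :
    ∃ (W : Subgroup (ℕ → Circle)) (_ : IsClosed (W : Set (ℕ → Circle))) (lam : Measure W)
      (c : W) (P : Y → W), IsProbabilityMeasure lam ∧ lam.IsHaarMeasure ∧
      KS m R lam c P := by
  obtain ⟨W, hWc, lam, c, P, hprob, hhaar, hpres, hrot, hkron⟩ := exists_kron_haar R hR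
  refine ⟨W, hWc, lam, c, P, hprob, hhaar, ⟨?_, hR, hpres, hrot, hkron, hroot⟩⟩
  have hWcomp : CompactSpace W := isCompact_iff_compactSpace.1 hWc.isCompact
  have hsc1 : SecondCountableTopology Circle :=
    Topology.IsEmbedding.subtypeVal.secondCountableTopology
  have hsc2 : SecondCountableTopology (ℕ → Circle) := inferInstance
  have hsc3 : SecondCountableTopology W := Topology.IsEmbedding.subtypeVal.secondCountableTopology
  intro θ n hn h1
  by_contra hθ
  have hem : Measurable fun y => ch θ (P y) := (continuous_ch θ).measurable.comp hpres.measurable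
  have heq : ∀ᵐ y ∂m, ch θ (P (R y)) = ch θ c * ch θ (P y) := by
    filter_upwards [hrot] with y hy
    rw [hy, ch_mul_right]
  have hev : IsEigenvalue m R (ch θ c) :=
    ⟨fun y => ch θ (P y), hem, Filter.Eventually.of_forall fun y => norm_ch θ (P y), heq⟩
  have hc1 : ch θ c = 1 := hroot _ hev n hn h1
  have hinv : (fun y => ch θ (P y)) ∘ (⇑R) =ᵐ[m] fun y => ch θ (P y) := by
    filter_upwards [heq] with y hy
    rw [hc1, one_mul] at hy
    exact hy
  obtain ⟨a, ha⟩ := hR.ae_eq_const_of_ae_eq_comp_ae hem.aestronglyMeasurable hinv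
  have hint : ∫ y, ch θ (P y) ∂m = 0 := by
    have h2 : ∫ w, ch θ w ∂lam = ∫ y, ch θ (P y) ∂m := by
      rw [← hpres.map_eq, integral_map hpres.measurable.aemeasurable]
      exact (continuous_ch θ).measurable.aestronglyMeasurable
    rw [← h2]
    exact int_ch lam θ hθ
  have ha' : ∀ᵐ y ∂m, ch θ (P y) = a := ha
  rw [integral_congr_ae ha'] at hint
  have ha0 : a = 0 := by
    rw [integral_const] at hint
    simpa using hint
  have hF : ∀ᵐ y ∂m, False := by
    filter_upwards [ha'] with y hy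
    have h3 := norm_ch θ (P y)
    rw [hy, ha0, norm_zero] at h3
    exact zero_ne_one h3
  have hnb : (ae m).NeBot := ae_neBot.2 (IsProbabilityMeasure.ne_zero m)
  exact hF.exists.elim fun _ h => h

end Pool.Agent.Lib.H82OH
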