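import Pool.Agent.Lib.H82OH.GC
import Pool.Agent.Lib.H82OH.GD

/-!
# Project H82OH, chunk GE: order two for totally ergodic maps
-/

open MeasureTheory Filter Topology Finset
open scoped ComplexConjugate Matrix

namespace Pool.Agent.Lib.H82OH

open Pool.Agent.Lib.H22M Pool.Agent.Lib.H82T Pool.Agent.Lib.H82OT Pool.Agent.Lib.H82OF

private theorem ge_atoms_bm {W : Type*} [CommGroup W] [TopologicalSpace W]
    [IsTopologicalGroup W] [CompactSpace W] [T2Space W] [SecondCountableTopology W]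
    [MeasurableSpace W] [BorelSpace W] {Y : Type*} [MeasurableSpace Y] {m : Measure Y}
    {R : Y → Y} {lam : Measure W} {c : W} {P : Y → W} (hP : Measurable P) :
    ∀ f ∈ Atoms m R lam c P, BM f := by
  rintro f (⟨χ, rfl⟩ | ⟨d, Φ, E, i, -, hE, -, -, rfl⟩)
  · exact (bm_ch χ).comp hP
  · exact hE.bm i

private theorem ge_span_bm {Y : Type*} [MeasurableSpace Y] {𝒢 : Set (Y → ℂ)}
    (h : ∀ f ∈ 𝒢, BM f) (F : Y → ℂ) (hF : F ∈ Submodule.span ℂ 𝒢) : BM F := by
  induction hF using Submodule.span_induction with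
  | mem x hx => exact h x hx
  | zero => exact BM.const 0
  | add x y _ _ hx hy => exact hx.add hy
  | smul a x _ hx => exact (BM.const a).mul hx

/-- Proof. `letI : MeasurableSpace Circle := borel Circle`; `exists_ks` (GD): `W, lam, c, P` (instances for the closed subgroup `W` as in
`H82OG/MC3.lean`). For bounded measurable `F` and `δ > 0`: as in `BDD_all` (`H82OG/GS3.lean`) `f2_approx` gives `i` and a bounded `f'`
measurable for `comap (π i) ⊔ comap (v i)` with `l2 m (F - f') ≤ δ / 2`, and `dense_step` (GC) `F'` with `l2 m (f' - F') ≤ δ / 2`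
(`l2_add_le`; the elements of the span are in `BM`). `few_all` (GA) with `𝒢 = Atoms m R lam c P` (`few_atoms`, GB; the atoms are in `BM`):
`Few m R F F`. `main_of_few` (GD). -/
theorem main_order_two {Y Y₁ X ι : Type*} [Nonempty ι] [MeasurableSpace Y]
    [StandardBorelSpace Y] [MeasurableSpace Y₁] {m : Measure Y} [IsProbabilityMeasure m]
    {m₁ : Measure Y₁} [IsProbabilityMeasure m₁] (R : Y ≃ᵐ Y) (hR : Ergodic R m)
    (hroot : ∀ l : ℂ, IsEigenvalue m R l → ∀ n : ℕ, 1 ≤ n → l ^ n = 1 → l = 1)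
    {Z L M : ι → Type*}
    [∀ i, CommGroup (Z i)] [∀ i, TopologicalSpace (Z i)] [∀ i, IsTopologicalGroup (Z i)]
    [∀ i, CompactSpace (Z i)] [∀ i, T2Space (Z i)] [∀ i, SecondCountableTopology (Z i)]
    [∀ i, MeasurableSpace (Z i)] [∀ i, BorelSpace (Z i)]
    [∀ i, Group (L i)] [∀ i, TopologicalSpace (L i)] [∀ i, IsTopologicalGroup (L i)]
    [∀ i, CompactSpace (L i)] [∀ i, T2Space (L i)] [∀ i, SecondCountableTopology (L i)]
    [∀ i, MeasurableSpace (L i)] [∀ i, BorelSpace (L i)]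
    [∀ i, TopologicalSpace (M i)] [∀ i, CompactSpace (M i)] [∀ i, T2Space (M i)]
    [∀ i, SecondCountableTopology (M i)] [∀ i, MeasurableSpace (M i)] [∀ i, BorelSpace (M i)]
    [∀ i, MulAction (L i) (M i)] [∀ i, ContinuousSMul (L i) (M i)]
    [∀ i, MulAction.IsPretransitive (L i) (M i)]
    (π : ∀ i, Y → Z i) (hπ : ∀ i, Measurable (π i)) (α : ∀ i, Z i)
    (hπR : ∀ i y, π i (R y) = α i * π i y)
    (muM : ∀ i, Measure (M i)) [∀ i, IsProbabilityMeasure (muM i)]
    [∀ i, SMulInvariantMeasure (L i) (M i) (muM i)]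
    (v : ∀ i, Y → M i) (hv : ∀ i, MeasurePreserving (v i) m (muM i))
    (g : ∀ i, Z i → L i) (hg : ∀ i, Measurable (g i))
    (hvR : ∀ i y, v i (R y) = g i (π i y) • v i y)
    (hdir : Directed (· ≤ ·) fun i =>
      MeasurableSpace.comap (π i) inferInstance ⊔ MeasurableSpace.comap (v i) inferInstance)
    (hgen : ∀ A : Set Y, MeasurableSet A → ∃ B,
      MeasurableSet[⨆ i, (MeasurableSpace.comap (π i) inferInstance ⊔
        MeasurableSpace.comap (v i) inferInstance)] B ∧ m (symmDiff A B) = 0)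
    (R₁ : Y₁ ≃ᵐ Y₁) (τ : Y → Y₁) (hτ : MeasurePreserving τ m m₁)
    (hτR : ∀ᵐ y ∂m, τ (R y) = R₁ (τ y))
    [MetricSpace X] [CompactSpace X] [MeasurableSpace X] [BorelSpace X]
    (T : X ≃ₜ X) (ν : Measure X) (θ : X → Y₁) (ψ : Y₁ → X)
    (hmodel : IsUEModel T ν m₁ R₁ θ ψ) (f : C(X, ℂ)) (x : X) :
    Tendsto (fun N : ℕ => (1 / (N : ℂ)) *
      ∑ n ∈ Icc 1 N, f ((⇑T)^[n] x) * (ArithmeticFunction.moebius n : ℂ)) atTop (𝓝 0) := by
  classical
  let _ : MeasurableSpace Circle := borel Circle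
  have : BorelSpace Circle := ⟨rfl⟩
  obtain ⟨W, hWc, lam, c, P, hlamp, hhaar, hK⟩ := exists_ks R hR hroot
  have : CompactSpace W := isCompact_iff_compactSpace.1 hWc.isCompact
  have : SecondCountableTopology W :=
    TopologicalSpace.Subtype.secondCountableTopology (W : Set (ℕ → Circle))
  have hAB : ∀ f ∈ Atoms m R lam c P, BM f := ge_atoms_bm hK.pres.measurable
  refine main_of_few R hR hroot (fun F hF => ?_) R₁ τ hτ hτR T ν θ ψ hmodel f x
  refine few_all (Atoms m R lam c P) hAB (few_atoms R lam hK) F hF (fun δ hδ => ?_)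
  set 𝒞 : ι → MeasurableSpace Y := fun i =>
    MeasurableSpace.comap (π i) inferInstance ⊔ MeasurableSpace.comap (v i) inferInstance with h𝒞
  have hle : ∀ i, 𝒞 i ≤ ‹MeasurableSpace Y› := fun i =>
    sup_le (hπ i).comap_le (hv i).measurable.comap_le
  have hne : (Set.range 𝒞).Nonempty := Set.range_nonempty 𝒞
  have hdir' : DirectedOn (· ≤ ·) (Set.range 𝒞) := directedOn_range.2 hdir
  obtain ⟨⟨_, i, rfl⟩, f', hf', hb', hd⟩ := f2_approx (Set.range 𝒞) m hne hdir'
    (by
      rintro _ ⟨i, rfl⟩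
      exact hle i)
    (by
      rw [sSup_range]
      exact hgen) F hF.1 hF.2 (δ / 2) (by positivity)
  obtain ⟨F', hF', hd'⟩ := dense_step R lam hK (π i) (hπ i) (α i) (hπR i) (muM i) (v i) (hv i)
    (g i) (hg i) (hvR i) f' hf' hb' (δ / 2) (by positivity)
  have hBf : BM f' := ⟨hf'.mono (hle i) le_rfl, hb'⟩
  have hBF : BM F' := ge_span_bm hAB F' hF'
  refine ⟨F', hF', ?_⟩
  have h1 := Pool.Agent.Lib.H22M.l2_add_le (m := m) (hF.sub hBf) (hBf.sub hBF)
  have h2 : l2 m (fun y => F y - F' y) = l2 m (fun y => (F y - f' y) + (f' y - F' y)) := by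
    congr 1
    funext y
    ring
  rw [h2]
  linarith

end Pool.Agent.Lib.H82OH
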