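import Pool.Agent.Lib.H82OH.DD

/-!
# Project H82OH, chunk IA: measurable orthonormal frames
-/

open MeasureTheory Filter Topology Finset
open scoped ComplexConjugate Matrix

namespace Pool.Agent.Lib.H82OH

open Pool.Agent.Lib.H22M Pool.Agent.Lib.H82T Pool.Agent.Lib.H82OT Pool.Agent.Lib.H82OF

/-- The diagonal entries of an orthogonal projection. -/
private theorem ia_diag {d : ℕ} (Q : Matrix (Fin d) (Fin d) ℂ) (hsa : Qᴴ = Q) (hid : Q * Q = Q)
    (i : Fin d) : Q i i = ((∑ a, ‖Q a i‖ ^ 2 : ℝ) : ℂ) := by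
  have h1 : Qᴴ * Q = Q := by rw [hsa, hid]
  have h2 : (Qᴴ * Q) i i = Q i i := by rw [h1]
  rw [← h2, Matrix.mul_apply, Complex.ofReal_sum]
  refine Finset.sum_congr rfl fun a _ => ?_
  rw [Matrix.conjTranspose_apply, ← Complex.normSq_eq_norm_sq, ← Complex.mul_conj, mul_comm]
  rfl

/-- If all diagonal entries of an orthogonal projection vanish, so does the projection. -/
private theorem ia_zero {d : ℕ} (Q : Matrix (Fin d) (Fin d) ℂ) (hsa : Qᴴ = Q) (hid : Q * Q = Q)
    (h0 : ∀ i, Q i i = 0) : Q = 0 := by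
  ext a i
  have h1 := ia_diag Q hsa hid i
  rw [h0 i] at h1
  have h2 : (∑ a, ‖Q a i‖ ^ 2 : ℝ) = 0 := by exact_mod_cast h1.symm
  have h3 := (Finset.sum_eq_zero_iff_of_nonneg fun a _ => by positivity).1 h2 a (Finset.mem_univ a)
  have h4 : ‖Q a i‖ = 0 := by
    by_contra hne
    exact absurd h3 (pow_ne_zero 2 hne)
  exact norm_eq_zero.1 h4

/-- A measurable unit vector in the range of a nonzero projection. -/
private theorem ia_vec {Ω : Type*} [MeasurableSpace Ω] {d : ℕ}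
    (Q : Ω → Matrix (Fin d) (Fin d) ℂ) (hQ : BMM Q) (hsa : ∀ ω, (Q ω)ᴴ = Q ω)
    (hid : ∀ ω, Q ω * Q ω = Q ω) (htr : ∀ ω, ∃ i, Q ω i i ≠ 0) :
    ∃ V : Ω → Matrix (Fin d) (Fin 1) ℂ, BMM V ∧ (∀ ω, (V ω)ᴴ * V ω = 1) ∧
      ∀ ω, Q ω * V ω = V ω := by
  classical
  obtain ⟨S, hS⟩ : ∃ S : Fin d → Set Ω, S = fun i => {ω | Q ω i i ≠ 0 ∧ ∀ j < i, Q ω j j = 0} :=
    ⟨_, rfl⟩
  have hSm : ∀ i, MeasurableSet (S i) := by
    intro i
    have h1 : S i = {ω | Q ω i i ≠ 0} ∩ ⋂ j, ⋂ (_ : j < i), {ω | Q ω j j = 0} := by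
      rw [hS]
      ext ω
      simp
    rw [h1]
    refine MeasurableSet.inter ?_ ?_
    · exact (measurableSet_eq_fun (hQ i i).1 measurable_const).compl
    · exact MeasurableSet.iInter fun j => MeasurableSet.iInter fun _ =>
        measurableSet_eq_fun (hQ j j).1 measurable_const
  have hex : ∀ ω, ∃ i, ω ∈ S i := by
    intro ω
    obtain ⟨i, hi⟩ := htr ω
    have hne : (Finset.univ.filter fun i => Q ω i i ≠ 0).Nonempty :=
      ⟨i, by simpa using hi⟩
    refine ⟨(Finset.univ.filter fun i => Q ω i i ≠ 0).min' hne, ?_⟩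
    rw [hS]
    refine ⟨(Finset.mem_filter.1 (Finset.min'_mem _ hne)).2, fun j hj => ?_⟩
    by_contra hcon
    exact absurd (Finset.min'_le _ j (by simpa using hcon)) (not_le.2 hj)
  have huniq : ∀ ω i j, ω ∈ S i → ω ∈ S j → i = j := by
    intro ω i j hi hj
    rw [hS] at hi hj
    rcases lt_trichotomy i j with h | h | h
    · exact absurd (hj.2 i h) hi.1
    · exact h
    · exact absurd (hi.2 j h) hj.1
  obtain ⟨v, hv⟩ : ∃ v : Ω → Fin d → ℂ, v = fun ω a => ∑ i, (S i).indicator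
      (fun ω => Q ω a i * ((Real.sqrt (Q ω i i).re : ℝ) : ℂ)⁻¹) ω := ⟨_, rfl⟩
  have hval : ∀ ω i, ω ∈ S i → ∀ a, v ω a = Q ω a i * ((Real.sqrt (Q ω i i).re : ℝ) : ℂ)⁻¹ := by
    intro ω i hi a
    rw [hv]
    show ∑ j, (S j).indicator (fun ω => Q ω a j * ((Real.sqrt (Q ω j j).re : ℝ) : ℂ)⁻¹) ω = _
    rw [Finset.sum_eq_single i]
    · exact Set.indicator_of_mem hi _
    · intro j _ hji
      exact Set.indicator_of_notMem (fun hj => hji (huniq ω j i hj hi)) _
    · intro h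
      exact absurd (Finset.mem_univ i) h
  have hpos : ∀ ω i, ω ∈ S i → 0 < (Q ω i i).re ∧ Q ω i i = (((Q ω i i).re : ℝ) : ℂ) := by
    intro ω i hi
    have h1 := ia_diag (Q ω) (hsa ω) (hid ω) i
    have h2 : (Q ω i i).re = ∑ a, ‖Q ω a i‖ ^ 2 := by
      rw [h1, Complex.ofReal_re]
    have h3 : Q ω i i = (((Q ω i i).re : ℝ) : ℂ) := by
      rw [h2]; exact h1
    refine ⟨?_, h3⟩
    have h4 : 0 ≤ (Q ω i i).re := by
      rw [h2]; exact Finset.sum_nonneg fun a _ => by positivity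
    refine lt_of_le_of_ne h4 fun h5 => ?_
    rw [hS] at hi
    refine hi.1 ?_
    rw [h3, ← h5, Complex.ofReal_zero]
  have hnorm : ∀ ω, ∑ a, conj (v ω a) * v ω a = 1 := by
    intro ω
    obtain ⟨i, hi⟩ := hex ω
    obtain ⟨h1, h2⟩ := hpos ω i hi
    have h3 : ∀ a, conj (v ω a) * v ω a = (‖Q ω a i‖ ^ 2 : ℝ) * (((Q ω i i).re : ℝ) : ℂ)⁻¹ := by
      intro a
      rw [hval ω i hi a, map_mul, map_inv₀, Complex.conj_ofReal]
      have h4 : conj (Q ω a i) * Q ω a i = ((‖Q ω a i‖ ^ 2 : ℝ) : ℂ) := by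
        rw [mul_comm, Complex.mul_conj, Complex.normSq_eq_norm_sq]
      have h5 : ((Real.sqrt (Q ω i i).re : ℝ) : ℂ)⁻¹ * ((Real.sqrt (Q ω i i).re : ℝ) : ℂ)⁻¹ =
          (((Q ω i i).re : ℝ) : ℂ)⁻¹ := by
        rw [← mul_inv, ← Complex.ofReal_mul, Real.mul_self_sqrt h1.le]
      rw [← h4, ← h5]
      ring
    rw [Finset.sum_congr rfl fun a _ => h3 a, ← Finset.sum_mul, ← Complex.ofReal_sum]
    have h6 := ia_diag (Q ω) (hsa ω) (hid ω) i
    rw [← h6, ← h2]
    have h7 : Q ω i i ≠ 0 := by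
      rw [h2]
      exact_mod_cast h1.ne'
    exact mul_inv_cancel₀ h7
  have hfix : ∀ ω a, ∑ b, Q ω a b * v ω b = v ω a := by
    intro ω a
    obtain ⟨i, hi⟩ := hex ω
    rw [hval ω i hi a, Finset.sum_congr rfl fun b _ => by rw [hval ω i hi b, ← mul_assoc],
      ← Finset.sum_mul]
    have h1 : (Q ω * Q ω) a i = Q ω a i := by rw [hid ω]
    rw [Matrix.mul_apply] at h1
    rw [h1]
  have hvb : ∀ ω a, ‖v ω a‖ ≤ 1 := by
    intro ω a
    have h1 : (∑ a, ‖v ω a‖ ^ 2 : ℝ) = 1 := by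
      have h2 : ((∑ a, ‖v ω a‖ ^ 2 : ℝ) : ℂ) = 1 := by
        rw [← hnorm ω, Complex.ofReal_sum]
        refine Finset.sum_congr rfl fun a _ => ?_
        rw [mul_comm, Complex.mul_conj, Complex.normSq_eq_norm_sq]
      exact_mod_cast h2
    have h3 : ‖v ω a‖ ^ 2 ≤ 1 := by
      rw [← h1]
      exact Finset.single_le_sum (f := fun a => ‖v ω a‖ ^ 2) (fun a _ => by positivity)
        (Finset.mem_univ a)
    nlinarith [norm_nonneg (v ω a)]
  have hvm : ∀ a, Measurable fun ω => v ω a := by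
    intro a
    rw [hv]
    refine Finset.measurable_sum _ fun i _ => ?_
    refine Measurable.indicator ?_ (hSm i)
    refine (hQ a i).1.mul ?_
    exact (Complex.measurable_ofReal.comp
      (Real.continuous_sqrt.measurable.comp (Complex.measurable_re.comp (hQ i i).1))).inv
  refine ⟨fun ω => Matrix.of fun a _ => v ω a, fun a _ => ⟨hvm a, 1, fun ω => hvb ω a⟩, ?_, ?_⟩
  · intro ω
    ext i j
    rw [Subsingleton.elim i 0, Subsingleton.elim j 0, Matrix.mul_apply, Matrix.one_apply_eq]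
    exact hnorm ω
  · intro ω
    ext a j
    rw [Matrix.mul_apply]
    exact hfix ω a

/-- Proof. Induction on `k`. `k = 0`: the diagonal entries of `Q = Qᴴ Q` are sums of squares with total sum `0`, so `Q = 0`;
`B` has no columns. `k + 1`: for every `ω` let `i(ω)` be the least `i` with `Q_ii ≠ 0` (there is one since the trace is not `0`;
finitely many measurable cases), `v = Q_{·i} / √(Q_ii)` (`Q_ii = ∑_a |Q_ai|² > 0` is real): `‖v‖ = 1`, `Q v = v`, and `Q' = Q - v vᴴ` is again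
Hermitian, idempotent, with trace `k`. `B' : Ω → Matrix (Fin d) (Fin k) ℂ` for `Q'`, `B = [v | B']` (`Fin.cons` on columns).
`Q' v = 0`, so `‖B'ᴴ v‖² = vᴴ Q' v = 0`, and `Bᴴ B = 1`, `B Bᴴ = v vᴴ + Q' = Q`. The entries of `B` are bounded by `1`. -/
theorem exists_frame {Ω : Type*} [MeasurableSpace Ω] {d : ℕ} (k : ℕ)
    (Q : Ω → Matrix (Fin d) (Fin d) ℂ) (hQ : BMM Q) (hsa : ∀ ω, (Q ω)ᴴ = Q ω)
    (hid : ∀ ω, Q ω * Q ω = Q ω) (htr : ∀ ω, Matrix.trace (Q ω) = k) :
    ∃ B : Ω → Matrix (Fin d) (Fin k) ℂ, BMM B ∧ (∀ ω, (B ω)ᴴ * B ω = 1) ∧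
      ∀ ω, B ω * (B ω)ᴴ = Q ω := by
  induction k generalizing Q with
  | zero =>
    refine ⟨fun _ => 0, fun i j => j.elim0, fun ω => ?_, fun ω => ?_⟩
    · ext i
      exact i.elim0
    · have h1 : ∀ i, Q ω i i = 0 := by
        have h2 : ((∑ i, ∑ a, ‖Q ω a i‖ ^ 2 : ℝ) : ℂ) = 0 := by
          have h3 := htr ω
          rw [Matrix.trace, Nat.cast_zero] at h3
          rw [← h3, Complex.ofReal_sum]
          exact Finset.sum_congr rfl fun i _ => (ia_diag (Q ω) (hsa ω) (hid ω) i).symm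
        have h4 : (∑ i, ∑ a, ‖Q ω a i‖ ^ 2 : ℝ) = 0 := by exact_mod_cast h2
        intro i
        have h5 := (Finset.sum_eq_zero_iff_of_nonneg fun i _ =>
          Finset.sum_nonneg fun a _ => by positivity).1 h4 i (Finset.mem_univ i)
        rw [ia_diag (Q ω) (hsa ω) (hid ω) i, h5, Complex.ofReal_zero]
      rw [ia_zero (Q ω) (hsa ω) (hid ω) h1, Matrix.zero_mul]
  | succ k ih =>
    have hne : ∀ ω, ∃ i, Q ω i i ≠ 0 := by
      intro ω
      by_contra hcon
      push Not at hcon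
      have h1 := htr ω
      rw [ia_zero (Q ω) (hsa ω) (hid ω) hcon, Matrix.trace_zero] at h1
      have h2 : ((k + 1 : ℕ) : ℂ) ≠ 0 := by exact_mod_cast Nat.succ_ne_zero k
      exact h2 h1.symm
    obtain ⟨V, hV, hVn, hVf⟩ := ia_vec Q hQ hsa hid hne
    have hVf' : ∀ ω, (V ω)ᴴ * Q ω = (V ω)ᴴ := by
      intro ω
      have h1 := congrArg Matrix.conjTranspose (hVf ω)
      rw [Matrix.conjTranspose_mul, hsa ω] at h1
      exact h1
    obtain ⟨B', hB', hBn, hBf⟩ := ih (fun ω => Q ω - V ω * (V ω)ᴴ)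
      (fun i j => (hQ i j).sub ((hV.mul hV.conj) i j))
      (fun ω => by
        rw [Matrix.conjTranspose_sub, Matrix.conjTranspose_mul, Matrix.conjTranspose_conjTranspose,
          hsa ω])
      (fun ω => by
        rw [Matrix.sub_mul, Matrix.mul_sub, Matrix.mul_sub, hid ω, ← Matrix.mul_assoc (Q ω),
          hVf ω, Matrix.mul_assoc (V ω) (V ω)ᴴ (Q ω), hVf' ω,
          Matrix.mul_assoc (V ω) (V ω)ᴴ (V ω * (V ω)ᴴ), ← Matrix.mul_assoc (V ω)ᴴ (V ω) (V ω)ᴴ,
          hVn ω, Matrix.one_mul, sub_self, sub_zero])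
      (fun ω => by
        rw [Matrix.trace_sub, htr ω, Matrix.trace_mul_comm, hVn ω, Matrix.trace_one]
        push_cast
        simp)
    have hVB : ∀ ω, (V ω)ᴴ * B' ω = 0 := by
      intro ω
      have h1 : B' ω = (Q ω - V ω * (V ω)ᴴ) * B' ω := by
        rw [← hBf ω, Matrix.mul_assoc, hBn ω, Matrix.mul_one]
      rw [h1, ← Matrix.mul_assoc, Matrix.mul_sub, hVf' ω, ← Matrix.mul_assoc, hVn ω,
        Matrix.one_mul, sub_self, Matrix.zero_mul]
    have hVB' : ∀ ω, (B' ω)ᴴ * V ω = 0 := by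
      intro ω
      have h1 := congrArg Matrix.conjTranspose (hVB ω)
      rw [Matrix.conjTranspose_mul, Matrix.conjTranspose_conjTranspose,
        Matrix.conjTranspose_zero] at h1
      exact h1
    refine ⟨fun ω => Matrix.of fun a j => Fin.cons (α := fun _ => ℂ) (V ω a 0) (B' ω a) j,
      fun a j => ?_, fun ω => ?_, fun ω => ?_⟩
    · refine Fin.cases ?_ (fun j => ?_) j
      · exact hV a 0
      · exact hB' a j
    · ext i j
      rw [Matrix.mul_apply]
      refine Fin.cases ?_ (fun i => ?_) i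
      · refine Fin.cases ?_ (fun j => ?_) j
        · have h1 := congrFun (congrFun (hVn ω) 0) 0
          rw [Matrix.mul_apply, Matrix.one_apply_eq] at h1
          rw [Matrix.one_apply_eq]
          exact h1
        · have h1 := congrFun (congrFun (hVB ω) 0) j
          rw [Matrix.mul_apply] at h1
          rw [Matrix.one_apply_ne (Fin.succ_ne_zero j).symm]
          exact h1
      · refine Fin.cases ?_ (fun j => ?_) j
        · have h1 := congrFun (congrFun (hVB' ω) i) 0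
          rw [Matrix.mul_apply] at h1
          rw [Matrix.one_apply_ne (Fin.succ_ne_zero i)]
          exact h1
        · have h1 := congrFun (congrFun (hBn ω) i) j
          rw [Matrix.mul_apply] at h1
          have h2 : (1 : Matrix (Fin (k + 1)) (Fin (k + 1)) ℂ) i.succ j.succ =
              (1 : Matrix (Fin k) (Fin k) ℂ) i j := by
            rw [Matrix.one_apply, Matrix.one_apply]
            simp only [Fin.succ_inj]
          rw [h2]
          exact h1
    · ext a b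
      rw [Matrix.mul_apply, Fin.sum_univ_succ]
      have h1 := congrFun (congrFun (hBf ω) a) b
      rw [Matrix.mul_apply, Matrix.sub_apply, Matrix.mul_apply, Fin.sum_univ_one] at h1
      have h2 : V ω a 0 * (V ω)ᴴ 0 b + ∑ j, B' ω a j * (B' ω)ᴴ j b = Q ω a b := by
        rw [h1]; ring
      exact h2

end Pool.Agent.Lib.H82OH
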