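import Pool.Agent.Lib.H82OH.TA
import Pool.Agent.Lib.H82OH.BA

/-!
# Project H82OH, chunk IB: invariant projections of a reducible cocycle
-/

open MeasureTheory Filter Topology Finset
open scoped ComplexConjugate Matrix

namespace Pool.Agent.Lib.H82OH

open Pool.Agent.Lib.H22M Pool.Agent.Lib.H82T Pool.Agent.Lib.H82OT Pool.Agent.Lib.H82OF

variable {W : Type*} [CommGroup W] [TopologicalSpace W] [IsTopologicalGroup W] [CompactSpace W]
  [T2Space W] [SecondCountableTopology W] [MeasurableSpace W] [BorelSpace W]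

open Matrix Polynomial in
/-- A polynomial of a Hermitian matrix in its eigenbasis. -/
private theorem ib_aeval {d : ℕ} {A : Matrix (Fin d) (Fin d) ℂ} (hA : A.IsHermitian) (p : ℂ[X]) :
    aeval A p = Unitary.conjStarAlgAut ℂ _ hA.eigenvectorUnitary
      (diagonal fun i => p.eval ((hA.eigenvalues i : ℝ) : ℂ)) := by
  conv_lhs => rw [hA.spectral_theorem]
  rw [aeval_algHom_apply]
  congr 1
  have h1 : (diagonal (RCLike.ofReal ∘ hA.eigenvalues) : Matrix (Fin d) (Fin d) ℂ) =
      Matrix.diagonalAlgHom ℂ (fun i => ((hA.eigenvalues i : ℝ) : ℂ)) := rfl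
  rw [h1, aeval_algHom_apply]
  show diagonal _ = diagonal _
  congr 1
  funext i
  have h2 := aeval_algHom_apply (Pi.evalAlgHom ℂ (fun _ : Fin d => ℂ) i)
    (fun i => ((hA.eigenvalues i : ℝ) : ℂ)) p
  simp only [Pi.evalAlgHom_apply] at h2
  rw [← h2, Polynomial.coe_aeval_eq_eval]

open Matrix Polynomial in
private theorem ib_trace {d : ℕ} (U : unitary (Matrix (Fin d) (Fin d) ℂ))
    (D : Matrix (Fin d) (Fin d) ℂ) :
    trace (Unitary.conjStarAlgAut ℂ _ U D) = trace D := by
  rw [Unitary.conjStarAlgAut_apply, trace_mul_comm, ← mul_assoc]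
  simp

open Matrix Polynomial in
/-- The spectral projection. -/
private theorem ib_proj {d : ℕ} {A : Matrix (Fin d) (Fin d) ℂ} (hA : A.IsHermitian) (l : ℂ)
    {L : ℂ[X]} (hL : ∀ z ∈ A.charpoly.roots, L.eval z = if z = l then 1 else 0) :
    (aeval A L)ᴴ = aeval A L ∧ aeval A L * aeval A L = aeval A L ∧
      trace (aeval A L) = A.charpoly.roots.count l := by
  classical
  have hroots := hA.roots_charpoly_eq_eigenvalues
  have h1 : ∀ i, L.eval ((hA.eigenvalues i : ℝ) : ℂ) =
      if ((hA.eigenvalues i : ℝ) : ℂ) = l then 1 else 0 := by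
    intro i
    apply hL
    rw [hroots]
    exact Multiset.mem_map.2 ⟨i, Finset.mem_univ_val i, rfl⟩
  rw [ib_aeval hA L]
  simp_rw [h1]
  refine ⟨?_, ?_, ?_⟩
  · rw [← star_eq_conjTranspose, ← map_star]
    congr 1
    rw [star_eq_conjTranspose, diagonal_conjTranspose]
    congr 1
    funext i
    rw [Pi.star_apply]
    split_ifs <;> simp
  · rw [← map_mul, diagonal_mul_diagonal]
    congr 2
    funext i
    split_ifs <;> simp
  · rw [ib_trace, trace_diagonal, hroots, Multiset.count_map, Finset.sum_boole]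
    congr 1
    rw [Finset.card_def, Finset.filter_val]
    congr 1
    apply Multiset.filter_congr
    intro i _
    exact eq_comm

open Matrix Polynomial in
private theorem ib_const {d : ℕ} {A : Matrix (Fin d) (Fin d) ℂ} (hA : A.IsHermitian) (l : ℂ)
    (hl : ∀ z ∈ A.charpoly.roots, z = l) : A = l • 1 := by
  have hroots := hA.roots_charpoly_eq_eigenvalues
  have h1 : ∀ i, ((hA.eigenvalues i : ℝ) : ℂ) = l := by
    intro i
    apply hl
    rw [hroots]
    exact Multiset.mem_map.2 ⟨i, Finset.mem_univ_val i, rfl⟩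
  have h2 : (diagonal (RCLike.ofReal ∘ hA.eigenvalues) : Matrix (Fin d) (Fin d) ℂ) =
      l • 1 := by
    ext i j
    rw [diagonal_apply, Matrix.smul_apply, Matrix.one_apply]
    by_cases h : i = j
    · rw [if_pos h, if_pos h]
      have := h1 i
      simpa using this
    · rw [if_neg h, if_neg h]
      simp
  conv_lhs => rw [hA.spectral_theorem, h2, map_smul, map_one]

private theorem ib_bmm_one {Ω : Type*} [MeasurableSpace Ω] {d : ℕ} :
    BMM (fun _ : Ω => (1 : Matrix (Fin d) (Fin d) ℂ)) := fun i j => BM.const _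

private theorem ib_bmm_pow {Ω : Type*} [MeasurableSpace Ω] {d : ℕ}
    {H : Ω → Matrix (Fin d) (Fin d) ℂ} (hH : BMM H) (n : ℕ) : BMM fun w => H w ^ n := by
  induction n with
  | zero => simpa using ib_bmm_one
  | succ n ih =>
    simp_rw [pow_succ]
    exact ih.mul hH

private theorem ib_bmm_sum {Ω ι : Type*} [MeasurableSpace Ω] {d : ℕ} (s : Finset ι)
    {H : ι → Ω → Matrix (Fin d) (Fin d) ℂ} (hH : ∀ i ∈ s, BMM (H i)) :
    BMM fun w => ∑ i ∈ s, H i w := by
  intro i j
  simp_rw [Matrix.sum_apply]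
  exact BM.sum _ fun k hk => hH k hk i j

open Polynomial in
private theorem ib_bmm_aeval {Ω : Type*} [MeasurableSpace Ω] {d : ℕ}
    {H : Ω → Matrix (Fin d) (Fin d) ℂ} (hH : BMM H) (p : ℂ[X]) : BMM fun w => aeval (H w) p := by
  simp_rw [aeval_eq_sum_range]
  exact ib_bmm_sum _ fun k _ => (ib_bmm_pow hH k).smul _

private theorem ib_det {Ω : Type*} [MeasurableSpace Ω] {d : ℕ}
    {H : Ω → Matrix (Fin d) (Fin d) ℂ} (hH : ∀ i j, Measurable fun w => H w i j) :
    Measurable fun w => (H w).det := by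
  simp_rw [Matrix.det_apply]
  refine Finset.measurable_sum _ fun σ _ => ?_
  exact (Finset.measurable_prod _ fun i _ => hH _ _).const_smul _

open Polynomial in
private theorem ib_eval {Ω : Type*} [MeasurableSpace Ω] {d : ℕ}
    {H : Ω → Matrix (Fin d) (Fin d) ℂ} (hH : BMM H) (z : ℂ) :
    Measurable fun w => (H w).charpoly.eval z := by
  simp_rw [Matrix.eval_charpoly]
  refine ib_det fun i j => ?_
  show Measurable fun w => (Matrix.scalar (Fin d) z) i j - H w i j
  exact measurable_const.sub (hH i j).1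

open Polynomial in
private theorem ib_charpoly (lam : Measure W) [lam.IsHaarMeasure] [IsProbabilityMeasure lam] {c : W}
    (hc : Free c) {d : ℕ} {Φ H : W → Matrix (Fin d) (Fin d) ℂ} (hΦ : UC Φ)
    (hH : Tw lam c Φ Φ 1 H) : ∃ p : ℂ[X], (∀ᵐ w ∂lam, (H w).charpoly = p) ∧
      MeasurableSet {w | (H w).charpoly = p} := by
  have h1 : ∀ z : ℂ, ∃ b : ℂ, ∀ᵐ w ∂lam, (H w).charpoly.eval z = b := by
    intro z
    have h2 := (hc.erg lam).ae_eq_const_of_ae_eq_comp_ae
      (g := fun w => (H w).charpoly.eval z) (ib_eval hH.1 z).aestronglyMeasurable (by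
        filter_upwards [hH.2] with w hw
        show (H (c * w)).charpoly.eval z = (H w).charpoly.eval z
        have h3 : H (c * w) = Φ w * H w * (Φ w)ᴴ := by
          rw [one_smul] at hw
          rw [← hw, Matrix.mul_assoc, hΦ.right, Matrix.mul_one]
        rw [h3, Matrix.charpoly_mul_comm, ← Matrix.mul_assoc, hΦ.left, Matrix.one_mul])
    obtain ⟨b, hb⟩ := h2
    exact ⟨b, hb⟩
  choose b hb using h1
  have h2 : ∀ᵐ w ∂lam, ∀ n : ℕ, (H w).charpoly.eval (n : ℂ) = b n :=
    ae_all_iff.2 fun n => hb n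
  obtain ⟨w₀, hw₀⟩ := h2.exists
  have key : ∀ w, (∀ n : ℕ, (H w).charpoly.eval (n : ℂ) = b n) ↔
      (H w).charpoly = (H w₀).charpoly := by
    intro w
    constructor
    · intro h
      apply eq_of_infinite_eval_eq
      apply Set.infinite_of_injective_forall_mem (f := fun n : ℕ => (n : ℂ)) Nat.cast_injective
      intro n
      show (H w).charpoly.eval (n : ℂ) = (H w₀).charpoly.eval (n : ℂ)
      rw [h n, hw₀ n]
    · intro h n
      rw [h, hw₀ n]
  refine ⟨(H w₀).charpoly, ?_, ?_⟩
  · filter_upwards [h2] with w hw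
    exact (key w).1 hw
  · have h3 : {w | (H w).charpoly = (H w₀).charpoly} =
        ⋂ n : ℕ, (fun w => (H w).charpoly.eval (n : ℂ)) ⁻¹' {b n} := by
      ext w
      rw [Set.mem_iInter]
      exact (key w).symm
    rw [h3]
    exact MeasurableSet.iInter fun n => ib_eval hH.1 _ (measurableSet_singleton _)

/-- a Hermitian solution which is not constant -/
private theorem ib_herm (lam : Measure W) {c : W} {d : ℕ} {Φ : W → Matrix (Fin d) (Fin d) ℂ}
    (hΦ : UC Φ) (hn : ¬ Ic lam c Φ) : ∃ H : W → Matrix (Fin d) (Fin d) ℂ, Tw lam c Φ Φ 1 H ∧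
      (∀ w, (H w).IsHermitian) ∧ ∀ a : ℂ, ¬ ∀ᵐ w ∂lam, H w = a • 1 := by
  unfold Ic at hn
  push Not at hn
  obtain ⟨X, hX, hne⟩ := hn
  have hX' := hX.adj hΦ hΦ
  rw [map_one] at hX'
  have add : ∀ {A B : W → Matrix (Fin d) (Fin d) ℂ}, Tw lam c Φ Φ 1 A → Tw lam c Φ Φ 1 B →
      Tw lam c Φ Φ 1 fun w => A w + B w := by
    intro A B hA hB
    refine ⟨hA.1.add hB.1, ?_⟩
    filter_upwards [hA.2, hB.2] with w h1 h2
    rw [one_smul] at h1 h2 ⊢
    rw [Matrix.add_mul, Matrix.mul_add, h1, h2]
  have smul : ∀ {A : W → Matrix (Fin d) (Fin d) ℂ} (z : ℂ), Tw lam c Φ Φ 1 A →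
      Tw lam c Φ Φ 1 fun w => z • A w := by
    intro A z hA
    refine ⟨hA.1.smul z, ?_⟩
    filter_upwards [hA.2] with w h1
    rw [one_smul] at h1 ⊢
    rw [Matrix.smul_mul, Matrix.mul_smul, h1]
  have hH1 := add hX hX'
  have hH2 := smul Complex.I (add hX (smul (-1) hX'))
  by_cases h1 : ∃ a : ℂ, ∀ᵐ w ∂lam, X w + (X w)ᴴ = a • (1 : Matrix (Fin d) (Fin d) ℂ)
  · refine ⟨_, hH2, fun w => ?_, fun a ha => ?_⟩
    · show (Complex.I • (X w + (-1 : ℂ) • (X w)ᴴ))ᴴ = Complex.I • (X w + (-1 : ℂ) • (X w)ᴴ)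
      rw [Matrix.conjTranspose_smul, Matrix.conjTranspose_add, Matrix.conjTranspose_smul,
        Matrix.conjTranspose_conjTranspose]
      ext i j
      simp only [Matrix.smul_apply, Matrix.add_apply, smul_eq_mul, star_neg, star_one,
        Complex.star_def, Complex.conj_I]
      ring
    · obtain ⟨a1, ha1⟩ := h1
      refine hne ((a1 - Complex.I * a) / 2) ?_
      filter_upwards [ha, ha1] with w h2 h3
      have h4 : (2 : ℂ) • X w = (a1 - Complex.I * a) • (1 : Matrix (Fin d) (Fin d) ℂ) := by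
        rw [sub_smul, mul_smul, ← h2, ← h3]
        ext i j
        simp only [Matrix.smul_apply, Matrix.add_apply, Matrix.sub_apply, smul_eq_mul]
        have : Complex.I * (Complex.I * (X w i j + -1 * (X w)ᴴ i j)) =
            -(X w i j - (X w)ᴴ i j) := by
          rw [← mul_assoc, Complex.I_mul_I]
          ring
        rw [this]
        ring
      have h5 : X w = (2 : ℂ)⁻¹ • ((2 : ℂ) • X w) := by
        rw [smul_smul]
        norm_num
      intro hx
      apply hx
      rw [h5, h4, smul_smul]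
      congr 1
      ring
  · refine ⟨_, hH1, fun w => ?_, fun a ha => h1 ⟨a, ha⟩⟩
    show (X w + (X w)ᴴ)ᴴ = X w + (X w)ᴴ
    rw [Matrix.conjTranspose_add, Matrix.conjTranspose_conjTranspose, add_comm]

/-- Proof. There is `X` with `Tw lam c Φ Φ 1 X`, not a.e. a constant scalar. `X + Xᴴ` and `i (X - Xᴴ)` satisfy the same equation
(`Tw.adj`, TA), are Hermitian everywhere, and not both are a.e. constant scalars; let `H` be one which is not. `H(c w) = Φ H(w) Φᴴ`, so
the characteristic polynomials agree and their coefficients (bounded measurable, invariant under the ergodic `Free.erg`) are a.e.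
constant: `charpoly (H w) = p₀` for a.e. `w`. Let `S` be the finite set of the roots of `p₀`, real numbers (eigenvalues of a Hermitian
matrix), not empty as `0 < d`. For such `w` `H w` is diagonalizable (`Matrix.IsHermitian.spectral_theorem`), so a polynomial vanishing on
`S` vanishes at `H w`. If `S = {λ}` then `H w = λ • 1` a.e., a contradiction. So `S` has at least two elements; `λ ∈ S`,
`L = ∏_{μ ∈ S, μ ≠ λ} (T - μ)/(λ - μ)` (`Lagrange.basis` or directly), `Q w = L(H w)`: Hermitian (real coefficients), `Q² = Q` (`L² - L`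
vanishes on `S`), trace = the multiplicity `k` of `λ` in `p₀` (spectral theorem: `L(H)` has the eigenvalues `L(μ_i)`), `0 < k < d`.
`Q(c w) Φ(w) = L(Φ H Φᴴ) Φ = Φ L(H) = Φ(w) Q(w)` a.e. On the exceptional null set put `Q` = the diagonal projection on the first `k`
coordinates. -/
theorem exists_proj (lam : Measure W) [lam.IsHaarMeasure] [IsProbabilityMeasure lam] {c : W}
    (hc : Free c) {d : ℕ} (hd : 0 < d) {Φ : W → Matrix (Fin d) (Fin d) ℂ} (hΦ : UC Φ)
    (hn : ¬ Ic lam c Φ) :
    ∃ (k : ℕ) (Q : W → Matrix (Fin d) (Fin d) ℂ), 0 < k ∧ k < d ∧ BMM Q ∧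
      (∀ w, (Q w)ᴴ = Q w) ∧ (∀ w, Q w * Q w = Q w) ∧ (∀ w, Matrix.trace (Q w) = k) ∧
      ∀ᵐ w ∂lam, Q (c * w) * Φ w = Φ w * Q w := by
  classical
  obtain ⟨H, hH, hherm, hne⟩ := ib_herm lam hΦ hn
  obtain ⟨p, hp, hmeas⟩ := ib_charpoly lam hc hΦ hH
  have hcard : ∀ w, (H w).charpoly.roots.card = d := by
    intro w
    rw [(hherm w).roots_charpoly_eq_eigenvalues]
    simp
  obtain ⟨w₀, hw₀⟩ := hp.exists
  have hpcard : p.roots.card = d := by rw [← hw₀, hcard]
  obtain ⟨l, hl⟩ : ∃ l, l ∈ p.roots := Multiset.card_pos_iff_exists_mem.1 (by omega)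
  obtain ⟨m, hm, hml⟩ : ∃ m, m ∈ p.roots ∧ m ≠ l := by
    by_contra hcon
    push Not at hcon
    apply hne l
    filter_upwards [hp] with w hw
    exact ib_const (hherm w) l (by rw [hw]; exact hcon)
  obtain ⟨L, hLdef⟩ : ∃ L : Polynomial ℂ, ∀ z ∈ p.roots, L.eval z = if z = l then 1 else 0 := by
    refine ⟨Lagrange.basis p.roots.toFinset id l, fun z hz => ?_⟩
    have hz' : z ∈ p.roots.toFinset := Multiset.mem_toFinset.2 hz
    split_ifs with h
    · rw [h]
      exact Lagrange.eval_basis_self (Set.injOn_id _) (Multiset.mem_toFinset.2 hl)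
    · exact Lagrange.eval_basis_of_ne (v := id) (fun h' => h h'.symm) hz'
  set k := p.roots.count l with hk
  have hk0 : 0 < k := Multiset.count_pos.2 hl
  have hkd : k < d := by
    rw [← hpcard]
    refine lt_of_le_of_ne (Multiset.count_le_card _ _) fun h => ?_
    exact hml ((Multiset.count_eq_card.1 h) m hm).symm
  set D : Matrix (Fin d) (Fin d) ℂ := Matrix.diagonal fun i => if (i : ℕ) < k then 1 else 0 with hD
  set Q : W → Matrix (Fin d) (Fin d) ℂ := fun w =>
    if (H w).charpoly = p then Polynomial.aeval (H w) L else D with hQ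
  refine ⟨k, Q, hk0, hkd, ?_, ?_, ?_, ?_, ?_⟩
  · intro i j
    have h1 := ib_bmm_aeval hH.1 L i j
    have h2 : (fun w => Q w i j) = fun w => if (H w).charpoly = p then
        Polynomial.aeval (H w) L i j else D i j := by
      funext w
      rw [hQ]
      simp only
      split_ifs <;> rfl
    rw [h2]
    refine ⟨Measurable.ite hmeas h1.1 measurable_const, ?_⟩
    obtain ⟨C, hC⟩ := h1.2
    refine ⟨max C ‖D i j‖, fun w => ?_⟩
    show ‖if (H w).charpoly = p then Polynomial.aeval (H w) L i j else D i j‖ ≤ _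
    split_ifs
    · exact (hC w).trans (le_max_left _ _)
    · exact le_max_right _ _
  · intro w
    simp only [hQ]
    split_ifs with h
    · exact (ib_proj (hherm w) l (by rw [h]; exact hLdef)).1
    · rw [hD, Matrix.diagonal_conjTranspose]
      congr 1
      funext i
      rw [Pi.star_apply]
      split_ifs <;> simp
  · intro w
    simp only [hQ]
    split_ifs with h
    · exact (ib_proj (hherm w) l (by rw [h]; exact hLdef)).2.1
    · rw [hD, Matrix.diagonal_mul_diagonal]
      congr 1
      funext i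
      split_ifs <;> simp
  · intro w
    simp only [hQ]
    split_ifs with h
    · rw [(ib_proj (hherm w) l (by rw [h]; exact hLdef)).2.2, h]
    · rw [hD, Matrix.trace_diagonal, Finset.sum_boole]
      congr 1
      have h3 : (Finset.univ.filter fun i : Fin d => (i : ℕ) < k) =
          Finset.univ.filter fun i : Fin d => i < (⟨k, hkd⟩ : Fin d) := by
        apply Finset.filter_congr
        intro i _
        exact Iff.rfl
      rw [h3, Finset.filter_gt_eq_Iio, Fin.card_Iio]
  · have hp' : ∀ᵐ w ∂lam, (H (c * w)).charpoly = p :=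
      (measurePreserving_mul_left lam c).quasiMeasurePreserving.ae hp
    filter_upwards [hp, hp', hH.2] with w h1 h2 h3
    rw [one_smul] at h3
    simp only [hQ]
    rw [if_pos h1, if_pos h2]
    have h4 : ∀ n : ℕ, H (c * w) ^ n * Φ w = Φ w * H w ^ n := by
      intro n
      induction n with
      | zero => simp
      | succ n ih =>
        rw [pow_succ, Matrix.mul_assoc, h3, ← Matrix.mul_assoc, ih, Matrix.mul_assoc, ← pow_succ]
    rw [Polynomial.aeval_eq_sum_range, Polynomial.aeval_eq_sum_range, Finset.sum_mul,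
      Finset.mul_sum]
    refine Finset.sum_congr rfl fun n _ => ?_
    rw [smul_mul_assoc, mul_smul_comm, h4]

end Pool.Agent.Lib.H82OH
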