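import Pool.Agent.Lib.H82OH.IA
import Pool.Agent.Lib.H82OH.IB

/-!
# Project H82OH, chunk IC: decomposition into irreducible cocycles
-/

open MeasureTheory Filter Topology Finset
open scoped ComplexConjugate Matrix

namespace Pool.Agent.Lib.H82OH

open Pool.Agent.Lib.H22M Pool.Agent.Lib.H82T Pool.Agent.Lib.H82OT Pool.Agent.Lib.H82OF

variable {W : Type*} [CommGroup W] [TopologicalSpace W] [IsTopologicalGroup W] [CompactSpace W]
  [T2Space W] [SecondCountableTopology W] [MeasurableSpace W] [BorelSpace W]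

/-- A square matrix part of a cocycle on the range of an invariant projection. -/
theorem IC_piece (lam : Measure W) {c : W} {d k : ℕ} {Φ : W → Matrix (Fin d) (Fin d) ℂ} (hΦ : UC Φ)
    {Q : W → Matrix (Fin d) (Fin d) ℂ} (hcom : ∀ᵐ w ∂lam, Q (c * w) * Φ w = Φ w * Q w)
    {B : W → Matrix (Fin d) (Fin k) ℂ} (hB : BMM B) (hB1 : ∀ w, (B w)ᴴ * B w = 1)
    (hB2 : ∀ w, B w * (B w)ᴴ = Q w) :
    ∃ Φ₁ : W → Matrix (Fin k) (Fin k) ℂ, UC Φ₁ ∧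
      ∀ᵐ w ∂lam, (B (c * w))ᴴ * Φ w = Φ₁ w * (B w)ᴴ := by
  classical
  have hBc : BMM (fun w => B (c * w)) := hB.comp (measurable_const_mul c)
  have h0 : BMM (fun w => (B (c * w))ᴴ * Φ w * B w) := (hBc.conj.mul hΦ.bm).mul hB
  have h1 : BMM (fun w => ((B (c * w))ᴴ * Φ w * B w) * ((B (c * w))ᴴ * Φ w * B w)ᴴ) :=
    h0.mul h0.conj
  set Φ₀ : W → Matrix (Fin k) (Fin k) ℂ := fun w => (B (c * w))ᴴ * Φ w * B w with hΦ₀
  have hset : MeasurableSet {w : W | Φ₀ w * (Φ₀ w)ᴴ = 1} := by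
    have he : {w : W | Φ₀ w * (Φ₀ w)ᴴ = 1}
        = ⋂ i : Fin k, ⋂ j : Fin k, {w : W | (Φ₀ w * (Φ₀ w)ᴴ) i j = (1 : Matrix (Fin k) (Fin k) ℂ) i j} := by
      ext w
      simp only [Set.mem_setOf_eq, Set.mem_iInter]
      exact ⟨fun h i j => by rw [h], fun h => Matrix.ext h⟩
    rw [he]
    refine MeasurableSet.iInter fun i => MeasurableSet.iInter fun j => ?_
    exact measurableSet_eq_fun (h1 i j).1 measurable_const
  refine ⟨fun w => if Φ₀ w * (Φ₀ w)ᴴ = 1 then Φ₀ w else 1, ⟨?_, ?_, ?_⟩, ?_⟩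
  · intro i j
    obtain ⟨hm, C, hC⟩ := h0 i j
    refine ⟨?_, max C 1, ?_⟩
    · have he : (fun w => (if Φ₀ w * (Φ₀ w)ᴴ = 1 then Φ₀ w else 1) i j)
          = fun w => if w ∈ {w : W | Φ₀ w * (Φ₀ w)ᴴ = 1} then Φ₀ w i j
            else (1 : Matrix (Fin k) (Fin k) ℂ) i j := by
        funext w
        by_cases hw : Φ₀ w * (Φ₀ w)ᴴ = 1
        · rw [if_pos hw, if_pos (show w ∈ {w : W | Φ₀ w * (Φ₀ w)ᴴ = 1} from hw)]
        · rw [if_neg hw, if_neg (show w ∉ {w : W | Φ₀ w * (Φ₀ w)ᴴ = 1} from hw)]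
      rw [he]
      exact Measurable.ite hset hm measurable_const
    · intro w
      show ‖(if Φ₀ w * (Φ₀ w)ᴴ = 1 then Φ₀ w else 1) i j‖ ≤ max C 1
      by_cases hw : Φ₀ w * (Φ₀ w)ᴴ = 1
      · rw [if_pos hw]
        exact (hC w).trans (le_max_left _ _)
      · rw [if_neg hw, Matrix.one_apply]
        refine le_trans ?_ (le_max_right _ _)
        by_cases hij : i = j
        · rw [if_pos hij, norm_one]
        · rw [if_neg hij, norm_zero]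
          exact zero_le_one
  · intro w
    show (if Φ₀ w * (Φ₀ w)ᴴ = 1 then Φ₀ w else 1)ᴴ * (if Φ₀ w * (Φ₀ w)ᴴ = 1 then Φ₀ w else 1) = 1
    by_cases hw : Φ₀ w * (Φ₀ w)ᴴ = 1
    · rw [if_pos hw]
      exact mul_eq_one_comm.1 hw
    · rw [if_neg hw, Matrix.conjTranspose_one, Matrix.mul_one]
  · intro w
    show (if Φ₀ w * (Φ₀ w)ᴴ = 1 then Φ₀ w else 1) * (if Φ₀ w * (Φ₀ w)ᴴ = 1 then Φ₀ w else 1)ᴴ = 1
    by_cases hw : Φ₀ w * (Φ₀ w)ᴴ = 1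
    · rw [if_pos hw]
      exact hw
    · rw [if_neg hw, Matrix.conjTranspose_one, Matrix.mul_one]
  · filter_upwards [hcom] with w hw
    have e1 : (B (c * w))ᴴ * Q (c * w) = (B (c * w))ᴴ := by
      rw [← hB2 (c * w), ← Matrix.mul_assoc, hB1, Matrix.one_mul]
    have e2 : Φ₀ w * (B w)ᴴ = (B (c * w))ᴴ * Φ w := by
      calc Φ₀ w * (B w)ᴴ = (B (c * w))ᴴ * (Φ w * (B w * (B w)ᴴ)) := by
            simp only [hΦ₀, Matrix.mul_assoc]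
        _ = (B (c * w))ᴴ * (Q (c * w) * Φ w) := by rw [hB2, hw]
        _ = (B (c * w))ᴴ * Φ w := by rw [← Matrix.mul_assoc, e1]
    have e3 : Φ₀ w * (Φ₀ w)ᴴ = 1 := by
      have e4 : (Φ₀ w)ᴴ = (B w)ᴴ * ((Φ w)ᴴ * B (c * w)) := by
        simp only [hΦ₀, Matrix.conjTranspose_mul, Matrix.conjTranspose_conjTranspose]
      calc Φ₀ w * (Φ₀ w)ᴴ = (Φ₀ w * (B w)ᴴ) * ((Φ w)ᴴ * B (c * w)) := by
            rw [e4, ← Matrix.mul_assoc]
        _ = (B (c * w))ᴴ * (Φ w * (Φ w)ᴴ) * B (c * w) := by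
            rw [e2]
            simp only [Matrix.mul_assoc]
        _ = 1 := by rw [hΦ.right, Matrix.mul_one, hB1]
    show (B (c * w))ᴴ * Φ w = (if Φ₀ w * (Φ₀ w)ᴴ = 1 then Φ₀ w else 1) * (B w)ᴴ
    rw [if_pos e3, e2]

/-- The decomposition with a general finite index type. -/
theorem IC_aux (lam : Measure W) [lam.IsHaarMeasure] [IsProbabilityMeasure lam]
    {c : W} (hc : Free c) (d : ℕ) : ∀ (Φ : W → Matrix (Fin d) (Fin d) ℂ), UC Φ →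
    ∃ (ι : Type) (_ : Fintype ι)
      (p : ι → Σ e : ℕ, (W → Matrix (Fin d) (Fin e) ℂ) × (W → Matrix (Fin e) (Fin e) ℂ)),
      (∀ k, 0 < (p k).1 ∧ UC (p k).2.2 ∧ Ic lam c (p k).2.2 ∧ BMM (p k).2.1 ∧
        ∀ᵐ w ∂lam, ((p k).2.1 (c * w))ᴴ * Φ w = (p k).2.2 w * ((p k).2.1 w)ᴴ) ∧
      ∀ w, ∑ k, (p k).2.1 w * ((p k).2.1 w)ᴴ = 1 := by
  induction d using Nat.strong_induction_on with
  | _ d ih =>
    intro Φ hΦ
    rcases Nat.eq_zero_or_pos d with hd | hd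
    · subst hd
      refine ⟨Empty, inferInstance, fun k => k.elim, fun k => k.elim, fun w => ?_⟩
      exact Subsingleton.elim _ _
    by_cases hI : Ic lam c Φ
    · refine ⟨Unit, inferInstance, fun _ => ⟨d, fun _ => 1, Φ⟩, fun _ => ⟨hd, hΦ, hI, ?_, ?_⟩, ?_⟩
      · intro i j
        exact BM.const _
      · refine Filter.Eventually.of_forall fun w => ?_
        show (1 : Matrix (Fin d) (Fin d) ℂ)ᴴ * Φ w = Φ w * (1 : Matrix (Fin d) (Fin d) ℂ)ᴴ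
        rw [Matrix.conjTranspose_one, Matrix.one_mul, Matrix.mul_one]
      · intro w
        rw [Fintype.sum_unique]
        show (1 : Matrix (Fin d) (Fin d) ℂ) * (1 : Matrix (Fin d) (Fin d) ℂ)ᴴ = 1
        rw [Matrix.conjTranspose_one, Matrix.one_mul]
    · obtain ⟨k, Q, hk0, hkd, hQ, hsa, hid, htr, hcom⟩ := exists_proj lam hc hd hΦ hI
      obtain ⟨B₁, hB₁, hB₁1, hB₁2⟩ := exists_frame k Q hQ hsa hid htr
      have hQ' : BMM (fun w => 1 - Q w) := fun i j => (BM.const _).sub (hQ i j)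
      obtain ⟨B₂, hB₂, hB₂1, hB₂2⟩ := exists_frame (d - k) (fun w => 1 - Q w) hQ'
        (fun w => by rw [Matrix.conjTranspose_sub, Matrix.conjTranspose_one, hsa])
        (fun w => by rw [Matrix.mul_sub, Matrix.mul_one, Matrix.sub_mul, Matrix.one_mul, hid, sub_self, sub_zero])
        (fun w => by rw [Matrix.trace_sub, Matrix.trace_one, htr, Fintype.card_fin, Nat.cast_sub hkd.le])
      have hcom' : ∀ᵐ w ∂lam, (fun w => 1 - Q w) (c * w) * Φ w = Φ w * (fun w => 1 - Q w) w := by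
        filter_upwards [hcom] with w hw
        show (1 - Q (c * w)) * Φ w = Φ w * (1 - Q w)
        rw [Matrix.sub_mul, Matrix.mul_sub, Matrix.one_mul, Matrix.mul_one, hw]
      obtain ⟨Φ₁, hΦ₁, hc₁⟩ := IC_piece lam hΦ hcom hB₁ hB₁1 hB₁2
      obtain ⟨Φ₂, hΦ₂, hc₂⟩ := IC_piece (k := d - k) lam hΦ (Q := fun w => 1 - Q w) hcom' (B := B₂) hB₂ hB₂1 hB₂2
      obtain ⟨ι₁, _, p₁, hp₁, hs₁⟩ := ih k hkd Φ₁ hΦ₁
      obtain ⟨ι₂, _, p₂, hp₂, hs₂⟩ := ih (d - k) (Nat.sub_lt hd hk0) Φ₂ hΦ₂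
      refine ⟨ι₁ ⊕ ι₂, inferInstance,
        Sum.elim (fun j => ⟨(p₁ j).1, fun w => B₁ w * (p₁ j).2.1 w, (p₁ j).2.2⟩)
          (fun j => ⟨(p₂ j).1, fun w => B₂ w * (p₂ j).2.1 w, (p₂ j).2.2⟩), ?_, ?_⟩
      · rintro (j | j)
        · obtain ⟨a1, a2, a3, a4, a5⟩ := hp₁ j
          refine ⟨a1, a2, a3, hB₁.mul a4, ?_⟩
          filter_upwards [a5, hc₁] with w h5 h6
          show (B₁ (c * w) * (p₁ j).2.1 (c * w))ᴴ * Φ w
            = (p₁ j).2.2 w * (B₁ w * (p₁ j).2.1 w)ᴴ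
          rw [Matrix.conjTranspose_mul, Matrix.conjTranspose_mul, Matrix.mul_assoc, h6,
            ← Matrix.mul_assoc, h5, Matrix.mul_assoc]
        · obtain ⟨a1, a2, a3, a4, a5⟩ := hp₂ j
          refine ⟨a1, a2, a3, hB₂.mul a4, ?_⟩
          filter_upwards [a5, hc₂] with w h5 h6
          show (B₂ (c * w) * (p₂ j).2.1 (c * w))ᴴ * Φ w
            = (p₂ j).2.2 w * (B₂ w * (p₂ j).2.1 w)ᴴ
          rw [Matrix.conjTranspose_mul, Matrix.conjTranspose_mul, Matrix.mul_assoc, h6,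
            ← Matrix.mul_assoc, h5, Matrix.mul_assoc]
      · intro w
        rw [Fintype.sum_sum_type]
        have s1 : ∑ j : ι₁, (B₁ w * (p₁ j).2.1 w) * (B₁ w * (p₁ j).2.1 w)ᴴ = Q w := by
          have e : ∀ j : ι₁, (B₁ w * (p₁ j).2.1 w) * (B₁ w * (p₁ j).2.1 w)ᴴ
              = B₁ w * ((p₁ j).2.1 w * ((p₁ j).2.1 w)ᴴ) * (B₁ w)ᴴ := by
            intro j
            rw [Matrix.conjTranspose_mul]
            simp only [Matrix.mul_assoc]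
          rw [Finset.sum_congr rfl fun j _ => e j, ← Matrix.sum_mul, ← Matrix.mul_sum, hs₁,
            Matrix.mul_one, hB₁2]
        have s2 : ∑ j : ι₂, (B₂ w * (p₂ j).2.1 w) * (B₂ w * (p₂ j).2.1 w)ᴴ = 1 - Q w := by
          have e : ∀ j : ι₂, (B₂ w * (p₂ j).2.1 w) * (B₂ w * (p₂ j).2.1 w)ᴴ
              = B₂ w * ((p₂ j).2.1 w * ((p₂ j).2.1 w)ᴴ) * (B₂ w)ᴴ := by
            intro j
            rw [Matrix.conjTranspose_mul]
            simp only [Matrix.mul_assoc]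
          rw [Finset.sum_congr rfl fun j _ => e j, ← Matrix.sum_mul, ← Matrix.mul_sum, hs₂,
            Matrix.mul_one, hB₂2]
        show ∑ j : ι₁, (B₁ w * (p₁ j).2.1 w) * (B₁ w * (p₁ j).2.1 w)ᴴ
          + ∑ j : ι₂, (B₂ w * (p₂ j).2.1 w) * (B₂ w * (p₂ j).2.1 w)ᴴ = 1
        rw [s1, s2, add_sub_cancel]

/-- Proof. Strong induction on `d`. `d = 0`: `n = 0` (both sides are `0 × 0` matrices). If `0 < d` and `Ic lam c Φ`: `n = 1`, `B = 1`, `Ψ = Φ`.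
Otherwise `exists_proj` (IB): `k, Q`; `exists_frame` (IA) for `Q` and for `1 - Q` (trace `d - k`): `B₁, B₂`. `Φ₁ w = B₁(c w)ᴴ Φ(w) B₁(w)` is a.e.
unitary (`Φ₁ Φ₁ᴴ = B₁(cw)ᴴ Φ Q Φᴴ B₁(cw) = B₁(cw)ᴴ Q(cw) B₁(cw) = 1`; square, so also `Φ₁ᴴ Φ₁ = 1`); put `Φ₁ = 1` where it is not. A.e.
`B₁(cw)ᴴ Φ(w) = B₁(cw)ᴴ Q(cw) Φ(w) = B₁(cw)ᴴ Φ(w) Q(w) = Φ₁(w) B₁(w)ᴴ`. In the same way `Φ₂` for `B₂`. Apply the induction hypothesis
to `Φ₁` (`k < d`) and `Φ₂` (`d - k < d`); the pieces of `Φ₁` are `B₁ C_j, Ψ_j`: `(B₁ C_j)(cw)ᴴ Φ(w) = C_j(cw)ᴴ Φ₁(w) B₁(w)ᴴ = Ψ_j (B₁ C_j)(w)ᴴ`,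
`∑ B₁ C_j C_jᴴ B₁ᴴ + ∑ B₂ C'_j C'_jᴴ B₂ᴴ = B₁ B₁ᴴ + B₂ B₂ᴴ = 1` (the index sets `Fin n₁ ⊕ Fin n₂ ≃ Fin (n₁ + n₂)`; it may be
convenient to prove the statement with a list or a general finite index type first). -/
theorem exists_irr_decomp (lam : Measure W) [lam.IsHaarMeasure] [IsProbabilityMeasure lam]
    {c : W} (hc : Free c) (d : ℕ) (Φ : W → Matrix (Fin d) (Fin d) ℂ) (hΦ : UC Φ) :
    ∃ (n : ℕ) (dd : Fin n → ℕ) (B : ∀ k : Fin n, W → Matrix (Fin d) (Fin (dd k)) ℂ)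
      (Ψ : ∀ k : Fin n, W → Matrix (Fin (dd k)) (Fin (dd k)) ℂ),
      (∀ k, 0 < dd k ∧ UC (Ψ k) ∧ Ic lam c (Ψ k) ∧ BMM (B k) ∧
        ∀ᵐ w ∂lam, (B k (c * w))ᴴ * Φ w = Ψ k w * (B k w)ᴴ) ∧
      ∀ w, ∑ k, B k w * (B k w)ᴴ = 1 := by
  obtain ⟨ι, _, p, hp, hs⟩ := IC_aux lam hc d Φ hΦ
  refine ⟨Fintype.card ι, fun k => (p ((Fintype.equivFin ι).symm k)).1,
    fun k => (p ((Fintype.equivFin ι).symm k)).2.1,
    fun k => (p ((Fintype.equivFin ι).symm k)).2.2, fun k => hp _, fun w => ?_⟩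
  rw [← hs w]
  exact Equiv.sum_comp (Fintype.equivFin ι).symm
    (fun j => (p j).2.1 w * ((p j).2.1 w)ᴴ)

end Pool.Agent.Lib.H82OH
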