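import Pool.Agent.Lib.H82OH.TC
import Pool.Agent.Lib.H82OH.BC
import Pool.Agent.Lib.H82OH.BD

/-!
# Project H82OH, chunk LA: limits of lifts
-/

open MeasureTheory Filter Topology Finset
open scoped ComplexConjugate Matrix

namespace Pool.Agent.Lib.H82OH

open Pool.Agent.Lib.H22M Pool.Agent.Lib.H82T Pool.Agent.Lib.H82OT Pool.Agent.Lib.H82OF

variable {W : Type*} [CommGroup W] [TopologicalSpace W] [IsTopologicalGroup W] [CompactSpace W]
  [T2Space W] [SecondCountableTopology W] [MeasurableSpace W] [BorelSpace W]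

private theorem la_entry {lam : Measure W} {c : W} {d : ℕ} {Φ : W → Matrix (Fin d) (Fin d) ℂ}
    {β : W} {κ : ℂ} {γ : W → Matrix (Fin d) (Fin d) ℂ} (h : UL lam c Φ β κ γ) (k l : Fin d) :
    ∀ᵐ w ∂lam, ‖γ w k l‖ ≤ 1 := by
  filter_upwards [h.right] with w hw
  exact unit_entry hw k l

private theorem la_left (lam : Measure W) [lam.IsHaarMeasure] [IsProbabilityMeasure lam] (c : W)
    {d : ℕ} {Φ X : W → Matrix (Fin d) (Fin d) ℂ} (hΦ : BMM Φ) (hX : BMM X) (k l : Fin d)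
    (h : W → ℂ) (hh : BM h) :
    ∫ w, (X (c * w) * Φ w) k l * h w ∂lam =
      ∑ j, ∫ w, X w k j * (Φ (c⁻¹ * w) j l * h (c⁻¹ * w)) ∂lam := by
  have h1 : ∀ j, ∫ w, X w k j * (Φ (c⁻¹ * w) j l * h (c⁻¹ * w)) ∂lam =
      ∫ w, X (c * w) k j * (Φ w j l * h w) ∂lam := by
    intro j
    rw [← integral_mul_left_eq_self (fun w => X w k j * (Φ (c⁻¹ * w) j l * h (c⁻¹ * w))) c]
    simp only [inv_mul_cancel_left]
  simp_rw [h1]
  rw [← integral_finsetSum _ (fun j _ => (((hX k j).comp (measurable_const_mul c)).mul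
    ((hΦ j l).mul hh)).integrable)]
  refine integral_congr_ae (Eventually.of_forall fun w => ?_)
  show (X (c * w) * Φ w) k l * h w = ∑ j, X (c * w) k j * (Φ w j l * h w)
  rw [Matrix.mul_apply, Finset.sum_mul]
  exact Finset.sum_congr rfl fun j _ => mul_assoc _ _ _

private theorem la_right (lam : Measure W) [IsProbabilityMeasure lam]
    {d : ℕ} {A X : W → Matrix (Fin d) (Fin d) ℂ} (hA : BMM A) (hX : BMM X) (k l : Fin d)
    (h : W → ℂ) (hh : BM h) :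
    ∫ w, (A w * X w) k l * h w ∂lam = ∑ j, ∫ w, X w j l * A w k j * h w ∂lam := by
  rw [← integral_finsetSum _ (fun j _ => (((hX j l).mul (hA k j)).mul hh).integrable)]
  refine integral_congr_ae (Eventually.of_forall fun w => ?_)
  show (A w * X w) k l * h w = ∑ j, X w j l * A w k j * h w
  rw [Matrix.mul_apply, Finset.sum_mul]
  exact Finset.sum_congr rfl fun j _ => by ring

private theorem la_gram {d : ℕ} (M : Matrix (Fin d) (Fin d) ℂ) (s : ℝ)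
    (h : Mᴴ * M = ((s : ℂ) ^ 2) • 1) : ∑ k, ∑ l, ‖M k l‖ ^ 2 = d * s ^ 2 := by
  have h1 : ∀ l, ∑ k, ((‖M k l‖ ^ 2 : ℝ) : ℂ) = ((s : ℂ) ^ 2) := by
    intro l
    have h2 := congrFun (congrFun h l) l
    rw [Matrix.mul_apply, Matrix.smul_apply, Matrix.one_apply_eq, smul_eq_mul, mul_one] at h2
    rw [← h2]
    refine Finset.sum_congr rfl fun k _ => ?_
    rw [Matrix.conjTranspose_apply, RCLike.star_def, mul_comm, Complex.mul_conj,
      Complex.normSq_eq_norm_sq]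
  have h3 : ∀ l, ∑ k, ‖M k l‖ ^ 2 = s ^ 2 := by
    intro l
    have h4 := h1 l
    rw [← Complex.ofReal_sum, ← Complex.ofReal_pow] at h4
    exact Complex.ofReal_injective h4
  rw [Finset.sum_comm]
  simp_rw [h3]
  simp

private theorem la_one {lam : Measure W} {c : W} {d : ℕ} {Φ : W → Matrix (Fin d) (Fin d) ℂ} :
    UL lam c Φ 1 1 (fun _ => 1) := by
  refine ⟨fun i j => BM.const _, by simp, ?_, ?_, ?_⟩
  · exact Eventually.of_forall fun w => by simp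
  · exact Eventually.of_forall fun w => by simp
  · exact Eventually.of_forall fun w => by simp

private theorem la_main (lam : Measure W) [lam.IsHaarMeasure] [IsProbabilityMeasure lam] {c : W}
    {d : ℕ} (hd : 0 < d) {Φ : W → Matrix (Fin d) (Fin d) ℂ} (hΦ : UC Φ)
    (hI : Ic lam c Φ) {I : Type*} (𝒰 : Ultrafilter I) (β : I → W) (β₀ : W)
    (hβ : Tendsto β 𝒰 (𝓝 β₀)) (κ : I → ℂ) (γ : I → W → Matrix (Fin d) (Fin d) ℂ)
    (hγ : ∀ i, UL lam c Φ (β i) (κ i) (γ i))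
    (G : W → Matrix (Fin d) (Fin d) ℂ) (hG : BMM G)
    (hw : ∀ k l (h : W → ℂ), BM h →
      Tendsto (fun i => ∫ w, γ i w k l * h w ∂lam) 𝒰 (𝓝 (∫ w, G w k l * h w ∂lam))) :
    ∃ (s : ℝ) (κ₀ : ℂ), 0 ≤ s ∧ s ≤ 1 ∧ ‖κ₀‖ = 1 ∧
      (∀ᵐ w ∂lam, (G w)ᴴ * G w = ((s : ℂ) ^ 2) • 1) ∧ (s = 0 → ∀ᵐ w ∂lam, G w = 0) ∧
      (0 < s → UL lam c Φ β₀ κ₀ (fun w => ((s : ℂ)⁻¹) • G w)) := by
  -- the limit of the constants
  obtain ⟨κ₀, hκ₀s, hκ₀⟩ := (isCompact_sphere (0 : ℂ) 1).ultrafilter_le_nhds (𝒰.map κ) (by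
    rw [le_principal_iff]
    refine Filter.mem_map.2 (Eventually.of_forall fun i => ?_)
    exact mem_sphere_zero_iff_norm.2 (hγ i).nk)
  have hκn : ‖κ₀‖ = 1 := mem_sphere_zero_iff_norm.1 hκ₀s
  have hκt : Tendsto κ 𝒰 (𝓝 κ₀) := hκ₀
  -- the equation of the limit, tested
  have hkey : ∀ k l (h : W → ℂ), BM h → ∫ w, (G (c * w) * Φ w) k l * h w ∂lam =
      κ₀ * ∫ w, (Φ (β₀ * w) * G w) k l * h w ∂lam := by
    intro k l h hh
    have hL : Tendsto (fun i => ∫ w, (γ i (c * w) * Φ w) k l * h w ∂lam) 𝒰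
        (𝓝 (∫ w, (G (c * w) * Φ w) k l * h w ∂lam)) := by
      rw [la_left lam c hΦ.bm hG k l h hh]
      have h1 : Tendsto (fun i => ∑ j, ∫ w, γ i w k j * (Φ (c⁻¹ * w) j l * h (c⁻¹ * w)) ∂lam) 𝒰
          (𝓝 (∑ j, ∫ w, G w k j * (Φ (c⁻¹ * w) j l * h (c⁻¹ * w)) ∂lam)) := by
        refine tendsto_finsetSum _ fun j _ => ?_
        exact hw k j (fun w => Φ (c⁻¹ * w) j l * h (c⁻¹ * w))
          (((hΦ.bm j l).mul hh).comp (measurable_const_mul c⁻¹))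
      refine h1.congr fun i => ?_
      exact (la_left lam c hΦ.bm (hγ i).bm k l h hh).symm
    have hR : Tendsto (fun i => ∫ w, (Φ (β i * w) * γ i w) k l * h w ∂lam) 𝒰
        (𝓝 (∫ w, (Φ (β₀ * w) * G w) k l * h w ∂lam)) := by
      rw [la_right lam (hΦ.bm.comp (measurable_const_mul β₀)) hG k l h hh]
      have h1 : Tendsto (fun i => ∑ j, ∫ w, γ i w j l * Φ (β i * w) k j * h w ∂lam) 𝒰
          (𝓝 (∑ j, ∫ w, G w j l * Φ (β₀ * w) k j * h w ∂lam)) := by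
        refine tendsto_finsetSum _ fun j _ => ?_
        exact wlim_mul lam (𝒰 : Filter I) (fun i w => γ i w j l) (fun i => ((hγ i).bm j l).1) 1
          (fun i => la_entry (hγ i) j l) (fun w => G w j l) (hG j l) (hw j l)
          (fun i w => Φ (β i * w) k j)
          (fun i => ((hΦ.bm k j).comp (measurable_const_mul (β i))).1)
          (fun i => Eventually.of_forall fun w => unit_entry (hΦ.right (β i * w)) k j)
          (fun w => Φ (β₀ * w) k j) ((hΦ.bm k j).comp (measurable_const_mul β₀))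
          ((trans_cont lam (fun w => Φ w k j) (hΦ.bm k j) β₀).comp hβ) h hh
      refine h1.congr fun i => ?_
      exact (la_right lam (hΦ.bm.comp (measurable_const_mul (β i))) (hγ i).bm k l h hh).symm
    have hE : ∀ i, ∫ w, (γ i (c * w) * Φ w) k l * h w ∂lam =
        κ i * ∫ w, (Φ (β i * w) * γ i w) k l * h w ∂lam := by
      intro i
      rw [← integral_const_mul]
      refine integral_congr_ae ?_
      filter_upwards [(hγ i).eq] with w h1
      rw [h1, Matrix.smul_apply, smul_eq_mul, mul_assoc]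
    have h3 : Tendsto (fun i => ∫ w, (γ i (c * w) * Φ w) k l * h w ∂lam) 𝒰
        (𝓝 (κ₀ * ∫ w, (Φ (β₀ * w) * G w) k l * h w ∂lam)) :=
      (hκt.mul hR).congr fun i => (hE i).symm
    exact tendsto_nhds_unique hL h3
  have hGc : BMM (fun w => G (c * w) * Φ w) := (hG.comp (measurable_const_mul c)).mul hΦ.bm
  have hΦG : BMM (fun w => Φ (β₀ * w) * G w) :=
    (hΦ.bm.comp (measurable_const_mul β₀)).mul hG
  have hz : ∀ k l, ∀ᵐ w ∂lam, (G (c * w) * Φ w) k l - κ₀ * (Φ (β₀ * w) * G w) k l = 0 := by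
    intro k l
    refine fourier_zero lam _ ((hGc k l).sub ((BM.const κ₀).mul (hΦG k l))) fun χ => ?_
    have h1 := hkey k l (fun w => conj (ch χ w)) (bm_ch χ).conj
    have i1 : Integrable (fun w => (G (c * w) * Φ w) k l * conj (ch χ w)) lam :=
      ((hGc k l).mul (bm_ch χ).conj).integrable
    have i2 : Integrable (fun w => κ₀ * ((Φ (β₀ * w) * G w) k l * conj (ch χ w))) lam :=
      (((hΦG k l).mul (bm_ch χ).conj).integrable).const_mul κ₀
    have h2 : ∫ w, ((G (c * w) * Φ w) k l - κ₀ * (Φ (β₀ * w) * G w) k l) * conj (ch χ w) ∂lam =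
        ∫ w, ((G (c * w) * Φ w) k l * conj (ch χ w) -
          κ₀ * ((Φ (β₀ * w) * G w) k l * conj (ch χ w))) ∂lam := by
      refine integral_congr_ae (Eventually.of_forall fun w => ?_)
      show ((G (c * w) * Φ w) k l - κ₀ * (Φ (β₀ * w) * G w) k l) * conj (ch χ w) =
        (G (c * w) * Φ w) k l * conj (ch χ w) - κ₀ * ((Φ (β₀ * w) * G w) k l * conj (ch χ w))
      ring
    rw [h2, integral_sub i1 i2, integral_const_mul, h1, sub_self]
  have hTw : Tw lam c (fun w => Φ (β₀ * w)) Φ κ₀ G := by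
    refine ⟨hG, ?_⟩
    have h1 : ∀ᵐ w ∂lam, ∀ k l, (G (c * w) * Φ w) k l - κ₀ * (Φ (β₀ * w) * G w) k l = 0 :=
      ae_all_iff.2 fun k => ae_all_iff.2 fun l => hz k l
    filter_upwards [h1] with w h2
    ext k l
    rw [Matrix.smul_apply, smul_eq_mul]
    exact sub_eq_zero.1 (h2 k l)
  obtain ⟨s, hs0, hsG, hsz, hsu⟩ := ul_of_tw hd hΦ hI hκn hTw
  refine ⟨s, κ₀, hs0, ?_, hκn, hsG, hsz, hsu⟩
  -- `s ≤ 1`
  have hlim : Tendsto (fun i => ∑ k, ∑ l, ∫ w, γ i w k l * conj (G w k l) ∂lam) 𝒰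
      (𝓝 (∑ k, ∑ l, ∫ w, G w k l * conj (G w k l) ∂lam)) :=
    tendsto_finsetSum _ fun k _ => tendsto_finsetSum _ fun l _ =>
      hw k l (fun w => conj (G w k l)) (hG k l).conj
  have hsum : ∀ X : W → Matrix (Fin d) (Fin d) ℂ, BMM X →
      ∑ k, ∑ l, ∫ w, X w k l * conj (G w k l) ∂lam =
        ∫ w, ∑ k, ∑ l, X w k l * conj (G w k l) ∂lam := by
    intro X hX
    rw [integral_finsetSum _ (fun k _ => (BM.sum _ fun l _ =>
      (hX k l).mul (hG k l).conj).integrable)]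
    refine Finset.sum_congr rfl fun k _ => ?_
    rw [integral_finsetSum _ (fun l _ => ((hX k l).mul (hG k l).conj).integrable)]
  have hval : ∑ k, ∑ l, ∫ w, G w k l * conj (G w k l) ∂lam = ((d * s ^ 2 : ℝ) : ℂ) := by
    rw [hsum G hG]
    have h1 : ∫ w, ∑ k, ∑ l, G w k l * conj (G w k l) ∂lam =
        ∫ _ : W, ((d * s ^ 2 : ℝ) : ℂ) ∂lam := by
      refine integral_congr_ae ?_
      filter_upwards [hsG] with w h2
      rw [← la_gram (G w) s h2]
      push_cast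
      refine Finset.sum_congr rfl fun k _ => Finset.sum_congr rfl fun l _ => ?_
      rw [Complex.mul_conj, Complex.normSq_eq_norm_sq]
      push_cast
      rfl
    rw [h1]
    simp
  have hle : ∀ i, ‖∑ k, ∑ l, ∫ w, γ i w k l * conj (G w k l) ∂lam‖ ≤ (d + d * s ^ 2) / 2 := by
    intro i
    rw [hsum (γ i) (hγ i).bm]
    have h1 : ‖∫ w, ∑ k, ∑ l, γ i w k l * conj (G w k l) ∂lam‖ ≤
        ∫ _ : W, ((d + d * s ^ 2) / 2 : ℝ) ∂lam := by
      refine norm_integral_le_of_norm_le (integrable_const _) ?_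
      filter_upwards [hsG, (hγ i).left] with w h2 h3
      have h4 := la_gram (G w) s h2
      have h5 : ∑ k, ∑ l, ‖γ i w k l‖ ^ 2 = d * (1 : ℝ) ^ 2 :=
        la_gram (γ i w) 1 (by rw [h3]; simp)
      have h6 : ‖∑ k, ∑ l, γ i w k l * conj (G w k l)‖ ≤
          ∑ k, ∑ l, (‖γ i w k l‖ ^ 2 / 2 + ‖G w k l‖ ^ 2 / 2) := by
        refine (norm_sum_le _ _).trans (Finset.sum_le_sum fun k _ => ?_)
        refine (norm_sum_le _ _).trans (Finset.sum_le_sum fun l _ => ?_)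
        rw [norm_mul, RCLike.norm_conj]
        nlinarith [sq_nonneg (‖γ i w k l‖ - ‖G w k l‖)]
      have h7 : ∑ k, ∑ l, (‖γ i w k l‖ ^ 2 / 2 + ‖G w k l‖ ^ 2 / 2) =
          (∑ k, ∑ l, ‖γ i w k l‖ ^ 2) / 2 + (∑ k, ∑ l, ‖G w k l‖ ^ 2) / 2 := by
        simp_rw [Finset.sum_add_distrib, ← Finset.sum_div]
      rw [h7, h4, h5] at h6
      refine h6.trans (le_of_eq ?_)
      ring
    refine h1.trans (le_of_eq ?_)
    simp
  have h8 : ‖∑ k, ∑ l, ∫ w, G w k l * conj (G w k l) ∂lam‖ ≤ (d + d * s ^ 2) / 2 :=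
    le_of_tendsto hlim.norm (Eventually.of_forall hle)
  rw [hval, Complex.norm_real, Real.norm_of_nonneg (by positivity)] at h8
  have hd' : (0 : ℝ) < d := by exact_mod_cast hd
  have h9 : s ^ 2 ≤ 1 := by
    have h10 : d * s ^ 2 ≤ d * 1 := by linarith
    exact le_of_mul_le_mul_left h10 hd'
  nlinarith

/-- Proof. `κ i` converges along `𝒰` to some `κ₀` on the unit circle (compactness). For bounded measurable `h`:
`∫ (γ_i(c w) Φ(w))_kl h(w) → ∫ (G(c w) Φ(w))_kl h(w)` (substitute `w → c⁻¹ w`), and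
`∫ (κ_i Φ(β_i w) γ_i(w))_kl h → ∫ (κ₀ Φ(β₀ w) G(w))_kl h` by `wlim_mul` (BD) and `trans_cont` (BC; `hβ`). So
`G(c w) Φ(w) = κ₀ Φ(β₀ w) G(w)` a.e.: `ul_of_tw` (TC) gives `s`. `s ≤ 1`: `d s² = ∑_kl ∫ G_kl conj G_kl =
lim ∑_kl ∫ (γ_i)_kl conj G_kl ≤ (∑ ∫ |(γ_i)_kl|²)^(1/2) (∑ ∫ |G_kl|²)^(1/2) = √d · s √d`. -/
theorem lim_lift (lam : Measure W) [lam.IsHaarMeasure] [IsProbabilityMeasure lam] {c : W}
    {d : ℕ} (hd : 0 < d) {Φ : W → Matrix (Fin d) (Fin d) ℂ} (hΦ : UC Φ)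
    (hI : Ic lam c Φ) {I : Type*} (𝒰 : Ultrafilter I) (β : I → W) (β₀ : W)
    (hβ : Tendsto β 𝒰 (𝓝 β₀)) (κ : I → ℂ) (γ : I → W → Matrix (Fin d) (Fin d) ℂ)
    (hγ : ∀ᶠ i in (𝒰 : Filter I), UL lam c Φ (β i) (κ i) (γ i))
    (G : W → Matrix (Fin d) (Fin d) ℂ) (hG : BMM G)
    (hw : ∀ k l (h : W → ℂ), BM h →
      Tendsto (fun i => ∫ w, γ i w k l * h w ∂lam) 𝒰 (𝓝 (∫ w, G w k l * h w ∂lam))) :
    ∃ (s : ℝ) (κ₀ : ℂ), 0 ≤ s ∧ s ≤ 1 ∧ ‖κ₀‖ = 1 ∧
      (∀ᵐ w ∂lam, (G w)ᴴ * G w = ((s : ℂ) ^ 2) • 1) ∧ (s = 0 → ∀ᵐ w ∂lam, G w = 0) ∧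
      (0 < s → UL lam c Φ β₀ κ₀ (fun w => ((s : ℂ)⁻¹) • G w)) := by
  classical
  have hβ' : Tendsto (fun i => if UL lam c Φ (β i) (κ i) (γ i) then β i else 1) 𝒰 (𝓝 β₀) := by
    refine hβ.congr' ?_
    filter_upwards [hγ] with i hi
    rw [if_pos hi]
  refine la_main lam hd hΦ hI 𝒰 (fun i => if UL lam c Φ (β i) (κ i) (γ i) then β i else 1) β₀ hβ'
    (fun i => if UL lam c Φ (β i) (κ i) (γ i) then κ i else 1)
    (fun i => if UL lam c Φ (β i) (κ i) (γ i) then γ i else fun _ => 1) (fun i => ?_) G hG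
    (fun k l h hh => ?_)
  · by_cases hi : UL lam c Φ (β i) (κ i) (γ i)
    · rw [if_pos hi, if_pos hi, if_pos hi]
      exact hi
    · rw [if_neg hi, if_neg hi, if_neg hi]
      exact la_one
  · refine (hw k l h hh).congr' ?_
    filter_upwards [hγ] with i hi
    rw [if_pos hi]

end Pool.Agent.Lib.H82OH
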