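import Pool.Agent.Lib.H82OH.BB

/-!
# Project H82OH, chunk LE: integrals of functions of a power
-/

open MeasureTheory Filter Topology Finset
open scoped ComplexConjugate Matrix

namespace Pool.Agent.Lib.H82OH

open Pool.Agent.Lib.H22M Pool.Agent.Lib.H82T Pool.Agent.Lib.H82OT Pool.Agent.Lib.H82OF

variable {W : Type*} [CommGroup W] [TopologicalSpace W] [IsTopologicalGroup W] [CompactSpace W]
  [T2Space W] [SecondCountableTopology W] [MeasurableSpace W] [BorelSpace W]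

/-- Integrals of functions of `t ω ^ r`. -/
private theorem le_int_comp {E : Type*} [NormedAddCommGroup E] [NormedSpace ℝ E]
    (lam : Measure W) [lam.IsHaarMeasure] [IsProbabilityMeasure lam] {c : W}
    (hc : Free c) (r : ℕ) (hr : 1 ≤ r) (t : W) (g : W → E) (hg : AEStronglyMeasurable g lam) :
    ∫ ω, g (t * ω ^ r) ∂lam = ∫ w, g w ∂lam := by
  have hmp := mp_pow lam hc r hr t
  have h1 : AEStronglyMeasurable g (lam.map fun w => t * w ^ r) := by
    rw [hmp.map_eq]; exact hg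
  have h2 := integral_map hmp.measurable.aemeasurable h1
  rw [hmp.map_eq] at h2
  exact h2.symm

private theorem le_small (lam : Measure W) [IsProbabilityMeasure lam] (D : W → ℂ) (hD : BM D)
    (k : ℝ) (hk : 0 < k) (h : ∫ w, ‖D w‖ ^ 2 ∂lam ≤ k ^ 2) : ∫ w, ‖D w‖ ∂lam ≤ k := by
  obtain ⟨hDm, C, hC⟩ := hD
  have hDi : Integrable (fun z => ‖D z‖) lam :=
    Integrable.of_bound hDm.norm.aestronglyMeasurable C
      (Eventually.of_forall fun z => by rw [norm_norm]; exact hC z)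
  have hDi2 : Integrable (fun z => ‖D z‖ ^ 2) lam :=
    Integrable.of_bound (hDm.norm.pow_const 2).aestronglyMeasurable (C ^ 2)
      (Eventually.of_forall fun z => by
        rw [Real.norm_of_nonneg (by positivity)]
        exact pow_le_pow_left₀ (norm_nonneg _) (hC z) 2)
  have h1 : ∫ z, ‖D z‖ ∂lam ≤ ∫ z, (‖D z‖ ^ 2 / (2 * k) + k / 2) ∂lam := by
    refine integral_mono hDi ((hDi2.div_const _).add (integrable_const _)) fun z => ?_
    show ‖D z‖ ≤ ‖D z‖ ^ 2 / (2 * k) + k / 2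
    rw [div_add_div _ _ (by positivity) (by norm_num), le_div_iff₀ (by positivity)]
    nlinarith [sq_nonneg (‖D z‖ - k)]
  rw [integral_add (hDi2.div_const _) (integrable_const _), integral_div] at h1
  have h2 : ∫ _ : W, k / 2 ∂lam = k / 2 := by simp
  rw [h2] at h1
  have h3 : (∫ z, ‖D z‖ ^ 2 ∂lam) / (2 * k) ≤ k / 2 := by
    rw [div_le_div_iff₀ (by positivity) (by norm_num)]
    nlinarith
  linarith

/-- Proof. `tg_approx` (`H22M/TG.lean`): `f = T + g`, `∫ ‖g‖² ≤ k²`, `T = ∑ t_χ χ`. `∫ σ(ω) χ(t ω^r) = χ(t) ∫ (σ χ^r)(ω) = 0` since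
`σ χ^r ≠ 1` (otherwise `σ = (χ⁻¹)^r`; `int_ch`), and `|∫ σ(ω) g(t ω^r)| ≤ (∫ ‖g‖²)^(1/2) ≤ k` (`mp_pow`, BA). -/
theorem int_not_pow (lam : Measure W) [lam.IsHaarMeasure] [IsProbabilityMeasure lam] {c : W}
    (hc : Free c) (r : ℕ) (hr : 1 ≤ r) (t : W) (f : W → ℂ) (hf : BM f)
    (σ : PontryaginDual W) (hσ : ∀ χ : PontryaginDual W, χ ^ r ≠ σ) :
    ∫ ω, ch σ ω * f (t * ω ^ r) ∂lam = 0 := by
  have hmp := mp_pow lam hc r hr t
  have hbm : ∀ g : W → ℂ, BM g → BM (fun ω => g (t * ω ^ r)) := fun g hg =>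
    ⟨hg.1.comp hmp.measurable, by
      obtain ⟨_, C, hC⟩ := hg
      exact ⟨C, fun ω => hC _⟩⟩
  refine norm_le_zero_iff.1 (le_of_forall_pos_le_add fun k hk => ?_)
  rw [zero_add]
  obtain ⟨F, u, hF⟩ := tg_approx lam f hf k hk
  have hT : BM (fun w : W => ∑ χ ∈ F, u χ * ch χ w) :=
    BM.sum F fun χ _ => (BM.const (u χ)).mul (bm_ch χ)
  have hD : BM (fun w : W => f w - ∑ χ ∈ F, u χ * ch χ w) := hf.sub hT
  have h1 : ∫ ω, ch σ ω * (∑ χ ∈ F, u χ * ch χ (t * ω ^ r)) ∂lam = 0 := by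
    have h2 : ∀ ω, ch σ ω * (∑ χ ∈ F, u χ * ch χ (t * ω ^ r)) =
        ∑ χ ∈ F, (u χ * ch χ t) * ch (σ * χ ^ r) ω := by
      intro ω
      rw [Finset.mul_sum]
      refine Finset.sum_congr rfl fun χ _ => ?_
      rw [ch_mul_right, ch_pow_right, ch_mul_left, ch_pow_left]
      ring
    simp_rw [h2]
    rw [integral_finsetSum _ (fun χ _ => ((bm_ch (σ * χ ^ r)).integrable).const_mul _)]
    refine Finset.sum_eq_zero fun χ _ => ?_
    have h3 : σ * χ ^ r ≠ 1 := by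
      intro h4
      apply hσ χ⁻¹
      rw [inv_pow]
      exact (eq_inv_of_mul_eq_one_left h4).symm
    rw [integral_const_mul, int_ch lam _ h3, mul_zero]
  have h5 : ∫ ω, ch σ ω * f (t * ω ^ r) ∂lam =
      ∫ ω, ch σ ω * (f (t * ω ^ r) - ∑ χ ∈ F, u χ * ch χ (t * ω ^ r)) ∂lam := by
    have i1 : Integrable (fun ω => ch σ ω * f (t * ω ^ r)) lam :=
      ((bm_ch σ).mul (hbm f hf)).integrable
    have i2 : Integrable (fun ω => ch σ ω * (∑ χ ∈ F, u χ * ch χ (t * ω ^ r))) lam :=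
      ((bm_ch σ).mul (hbm _ hT)).integrable
    have h6 := integral_sub i1 i2
    rw [h1, sub_zero] at h6
    rw [← h6]
    refine integral_congr_ae (Eventually.of_forall fun ω => ?_)
    show ch σ ω * f (t * ω ^ r) - ch σ ω * (∑ χ ∈ F, u χ * ch χ (t * ω ^ r)) =
      ch σ ω * (f (t * ω ^ r) - ∑ χ ∈ F, u χ * ch χ (t * ω ^ r))
    rw [mul_sub]
  rw [h5]
  calc ‖∫ ω, ch σ ω * (f (t * ω ^ r) - ∑ χ ∈ F, u χ * ch χ (t * ω ^ r)) ∂lam‖
      ≤ ∫ ω, ‖ch σ ω * (f (t * ω ^ r) - ∑ χ ∈ F, u χ * ch χ (t * ω ^ r))‖ ∂lam :=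
        norm_integral_le_integral_norm _
    _ = ∫ ω, ‖f (t * ω ^ r) - ∑ χ ∈ F, u χ * ch χ (t * ω ^ r)‖ ∂lam := by
        refine integral_congr_ae (Eventually.of_forall fun ω => ?_)
        show ‖ch σ ω * (f (t * ω ^ r) - ∑ χ ∈ F, u χ * ch χ (t * ω ^ r))‖ = _
        rw [norm_mul, norm_ch, one_mul]
    _ = ∫ w, ‖f w - ∑ χ ∈ F, u χ * ch χ w‖ ∂lam :=
        le_int_comp lam hc r hr t (fun w => ‖f w - ∑ χ ∈ F, u χ * ch χ w‖)
          hD.1.norm.aestronglyMeasurable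
    _ ≤ k := le_small lam _ hD k hk hF

/-- Proof. `ch (χ^r) ω = conj χ(t) χ(t ω^r)` and `mp_pow` (BA). -/
theorem int_is_pow (lam : Measure W) [lam.IsHaarMeasure] [IsProbabilityMeasure lam] {c : W}
    (hc : Free c) (r : ℕ) (hr : 1 ≤ r) (t : W) (f : W → ℂ) (hf : BM f)
    (χ : PontryaginDual W) :
    ∫ ω, ch (χ ^ r) ω * f (t * ω ^ r) ∂lam = conj (ch χ t) * ∫ w, ch χ w * f w ∂lam := by
  rw [← le_int_comp lam hc r hr t (fun w => ch χ w * f w)
    ((bm_ch χ).mul hf).1.aestronglyMeasurable, ← integral_const_mul]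
  refine integral_congr_ae (Eventually.of_forall fun ω => ?_)
  show ch (χ ^ r) ω * f (t * ω ^ r) = conj (ch χ t) * (ch χ (t * ω ^ r) * f (t * ω ^ r))
  rw [ch_mul_right, ch_pow_right, ch_pow_left]
  calc ch χ ω ^ r * f (t * ω ^ r) = (ch χ t * conj (ch χ t)) * (ch χ ω ^ r * f (t * ω ^ r)) := by
        rw [ch_mul_conj, one_mul]
    _ = _ := by ring

end Pool.Agent.Lib.H82OH
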