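import Pool.Agent.Lib.H59C.SW4

/-!
# Project H82OH, chunk N1: Siegel-Walfisz away from one primitive character
-/

open Finset

namespace Pool.Agent.Lib.H82OH

open Pool.Agent.Lib.H68T (PC p0) in
open Pool.Agent.Lib.H59C (PCh psi) in
/-- Proof. The proof of `sw_exists` (`H59C/SW4.lean`), which takes a prime divisor `p1` of the exceptional
modulus; here `p'` is the exceptional character `⟨r, ψ⟩` itself, `r ≥ r0` by `zero_elementary` as there. If there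
is no exceptional character let `p'` be any pair `⟨r0 + 1, 1⟩`. In the exceptional case a primitive character
`p ≠ ⟨r, ψ⟩` satisfies the hypothesis of `hone` (in that proof) by `page`. -/
theorem sw_one (A r0 : ℕ) : ∃ n0 : ℕ, ∀ n : ℕ, n0 ≤ n → ∃ p' : PCh, r0 ≤ p'.1 ∧
    ∀ p ∈ PC ⌊Real.log n ^ A⌋₊, p ≠ p0 → p ≠ p' → ∀ y : ℕ, (n : ℝ) ^ (1 / 10 : ℝ) ≤ y →
      y ≤ 8 * n → ‖psi y p‖ ≤ y / Real.log n ^ A := by
  obtain ⟨c₀, K₀, hc₀, hpage⟩ := Pool.Agent.Lib.H68T.page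
  obtain ⟨c', C, K₁, hc', hC, hsingle⟩ := Pool.Agent.Lib.H59C.log_single c₀ hc₀
  obtain ⟨K₂, hK₂, hpsi⟩ := Pool.Agent.Lib.H59C.psi_of_log c' C hc'
  obtain ⟨ce, hce, hzero⟩ := Pool.Agent.Lib.H68T.zero_elementary
  obtain ⟨B, M, hpar⟩ := Pool.Agent.Lib.H59C.SW4_par A K₂ hK₂
  obtain ⟨n0, hn0⟩ := Pool.Agent.Lib.H59C.SW4_ev M (K₂ + 3 + |K₀| + |K₁| + c₀ * (r0 : ℝ) ^ 2 / ce + 1)
    0
  refine ⟨n0, fun n hn => ?_⟩
  obtain ⟨hM, hT, -⟩ := hn0 n hn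
  have a0 : 0 ≤ |K₀| := abs_nonneg _
  have a1 : 0 ≤ |K₁| := abs_nonneg _
  have a2 : 0 ≤ c₀ * (r0 : ℝ) ^ 2 / ce := by positivity
  obtain ⟨⟨hQA, hlQ, hLQ, hQn⟩, hreg⟩ := hpar n ⌈Real.log n ^ B⌉₊ hM (by linarith) rfl
  set Q : ℕ := ⌈Real.log n ^ B⌉₊ with hQ
  have hQpos : (0 : ℝ) < Q := by
    rcases Nat.eq_zero_or_pos Q with h | h
    · rw [h, Nat.cast_zero, Real.log_zero] at hlQ
      linarith
    · exact_mod_cast h
  have hlQ' : Real.log Q ≤ Q := (Real.log_le_sub_one_of_pos hQpos).trans (by linarith)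
  have hQK₀ : K₀ ≤ Q := by linarith [le_abs_self K₀]
  have hQK₁ : K₁ ≤ Q := by linarith [le_abs_self K₁]
  have hlQ0 : 0 < Real.log Q := by linarith
  -- the conclusion for one character
  have hone : ∀ p ∈ PC ⌊Real.log n ^ A⌋₊, p ≠ p0 →
      (∀ [NeZero p.1], p.2 ≠ 1 → p.2 ^ 2 = 1 → ∀ σ : ℝ, 1 - c₀ / Real.log Q ≤ σ → σ ≤ 1 →
        p.2.LFunction (σ : ℂ) ≠ 0) →
      ∀ y : ℕ, (n : ℝ) ^ (1 / 10 : ℝ) ≤ y → y ≤ 8 * n → ‖psi y p‖ ≤ y / Real.log n ^ A := by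
    rintro ⟨r', ψ'⟩ hp hpne hz y hy1 hy2
    obtain ⟨hr1, hr2, hprim⟩ := Pool.Agent.Lib.H68T.mem_PC.mp hp
    have hne' : NeZero r' := ⟨by
      have : 1 ≤ r' := hr1
      omega⟩
    have hψ : ψ' ≠ 1 := by
      intro h
      apply hpne
      have hr : r' = 1 := by
        have h3 : ψ'.conductor = r' := hprim
        rw [h, DirichletCharacter.conductor_one] at h3
        exact h3.symm
      subst hr
      rw [h]
      rfl
    have hr'Q : r' ≤ Q := by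
      have h1 : (r' : ℝ) ≤ Real.log n ^ A := by
        have h2 : (r' : ℝ) ≤ ⌊Real.log n ^ A⌋₊ := by exact_mod_cast hr2
        exact h2.trans (Nat.floor_le (by
          have : 0 ≤ Real.log n := Real.log_natCast_nonneg n
          positivity))
      have h3 : (r' : ℝ) ≤ Q := h1.trans hQA
      exact_mod_cast h3
    obtain ⟨g1, g2⟩ := hreg y hy1 hy2
    have h1 := Pool.Agent.Lib.H59C.SW4_one c' C K₂ hpsi Q y g1 ⟨r', ψ'⟩ hr1
      (hsingle Q hQK₁ r' ψ' hr'Q hprim hψ (fun hsq σ h1 h2 => hz hψ hsq σ h1 h2))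
    refine h1.trans ?_
    have hy : (0 : ℝ) ≤ y := Nat.cast_nonneg y
    calc (y : ℝ) * Pool.Agent.Lib.H68T.sw K₂ Q y ≤ y * (1 / Real.log n ^ A) := mul_le_mul_of_nonneg_left g2 hy
      _ = y / Real.log n ^ A := by ring
  by_cases hex : ∃ (r : ℕ) (_ : NeZero r) (ψ : DirichletCharacter ℂ r) (β : ℝ), r ≤ Q ∧
      ψ.IsPrimitive ∧ ψ ≠ 1 ∧ ψ ^ 2 = 1 ∧ 1 - c₀ / Real.log Q ≤ β ∧ β ≤ 1 ∧
      ψ.LFunction (β : ℂ) = 0
  · obtain ⟨r, hr, ψ, β, hrQ, hprim, hne, hsq, hβ, hβ1, hβ0⟩ := hex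
    have hβlt : β < 1 := by
      by_contra h
      have h1 : β = 1 := le_antisymm hβ1 (not_lt.1 h)
      rw [h1] at hβ0
      exact DirichletCharacter.LFunction_ne_zero_of_one_le_re ψ (Or.inl hne) (by simp) hβ0
    have hrr0 : r0 ≤ r := by
      by_contra h
      have h1 := hzero r ψ hne hsq β hβlt hβ0
      have hr0 : (0 : ℝ) < r := by
        have : 0 < r := Nat.pos_of_ne_zero (NeZero.ne r)
        exact_mod_cast this
      have h2 : (r : ℝ) ≤ r0 := by exact_mod_cast (not_le.1 h).le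
      have h3 : ce / (r0 : ℝ) ^ 2 ≤ ce / (r : ℝ) ^ 2 :=
        div_le_div_of_nonneg_left hce.le (by positivity) (pow_le_pow_left₀ hr0.le h2 2)
      have h4 : ce / (r0 : ℝ) ^ 2 ≤ c₀ / Real.log Q := by linarith
      have h6 : (0 : ℝ) < r0 := hr0.trans_le h2
      rw [div_le_div_iff₀ (by positivity) hlQ0] at h4
      have h5 : Real.log Q ≤ c₀ * (r0 : ℝ) ^ 2 / ce := by
        rw [le_div_iff₀ hce]
        linarith
      linarith
    refine ⟨⟨r, ψ⟩, hrr0, ?_⟩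
    · intro p hp hpne hqp
      refine hone p hp hpne ?_
      intro _ hne' hsq' σ hσ hσ1 hz'
      have hr'Q : p.1 ≤ Q := by
        obtain ⟨hr1, hr2, _⟩ := Pool.Agent.Lib.H68T.mem_PC.mp hp
        have h1 : (p.1 : ℝ) ≤ Real.log n ^ A := by
          have h2 : (p.1 : ℝ) ≤ ⌊Real.log n ^ A⌋₊ := by exact_mod_cast hr2
          exact h2.trans (Nat.floor_le (by
            have : 0 ≤ Real.log n := Real.log_natCast_nonneg n
            positivity))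
        have h3 : (p.1 : ℝ) ≤ Q := h1.trans hQA
        exact_mod_cast h3
      refine hpage Q hQK₀ r p.1 ψ p.2 hrQ hr'Q hprim (Pool.Agent.Lib.H68T.mem_PC.mp hp).2.2 hne hne' hsq hsq' ?_
        β σ hβ hβ1 hσ hσ1 hβ0 hz'
      intro h
      exact hqp h.symm
  · refine ⟨⟨r0 + 1, 1⟩, Nat.le_succ r0, ?_⟩
    intro p hp hpne _
    refine hone p hp hpne ?_
    intro inst hne' hsq' σ hσ hσ1 hz'
    refine hex ⟨p.1, inst, p.2, σ, ?_, (Pool.Agent.Lib.H68T.mem_PC.mp hp).2.2, hne', hsq', hσ, hσ1, hz'⟩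
    have h1 : (p.1 : ℝ) ≤ Real.log n ^ A := by
      have h2 : (p.1 : ℝ) ≤ ⌊Real.log n ^ A⌋₊ := by exact_mod_cast (Pool.Agent.Lib.H68T.mem_PC.mp hp).2.1
      exact h2.trans (Nat.floor_le (by
        have : 0 ≤ Real.log n := Real.log_natCast_nonneg n
        positivity))
    have h3 : (p.1 : ℝ) ≤ Q := h1.trans hQA
    exact_mod_cast h3

end Pool.Agent.Lib.H82OH
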