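import Pool.Agent.Lib.H59C.Defs

/-!
# Project H82OH, chunk N2: partial summation
-/

open Finset

namespace Pool.Agent.Lib.H82OH

open Pool.Agent.Lib.H68T (e)

private lemma N2_norm_e (x : ℝ) : ‖e x‖ = 1 := by
  have h : 2 * (Real.pi : ℂ) * (x : ℂ) * Complex.I = ((2 * Real.pi * x : ℝ) : ℂ) * Complex.I := by
    push_cast
    ring
  unfold Pool.Agent.Lib.H68T.e
  rw [h, Complex.norm_exp_ofReal_mul_I]

private lemma N2_e_succ (m : ℕ) (z : ℝ) : e (((m + 1 : ℕ) : ℝ) * z) = e (m * z) * e z := by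
  unfold Pool.Agent.Lib.H68T.e
  rw [← Complex.exp_add]
  congr 1
  push_cast
  ring

private lemma N2_e_eq (z : ℝ) : e z = Complex.exp (Complex.I * ((2 * Real.pi * z : ℝ) : ℂ)) := by
  unfold Pool.Agent.Lib.H68T.e
  congr 1
  push_cast
  ring

/-- Abel summation. Proof. `∑_{m ≤ N} b m e(m z) = S(N) e(N z) - ∑_{m < N} S(m) (e((m+1) z) - e(m z))`,
`S(y) = ∑_{m ≤ y} b m`, and `‖e((m+1) z) - e(m z)‖ = ‖e z - 1‖ ≤ 2 π |z|`. -/
theorem abel_twist (b : ℕ → ℂ) (N : ℕ) (z B : ℝ) (hB : ∀ y : ℕ, y ≤ N → ‖∑ m ∈ Icc 1 y, b m‖ ≤ B) :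
    ‖∑ m ∈ Icc 1 N, b m * e (m * z)‖ ≤ (1 + 2 * Real.pi * |z| * N) * B := by
  have key : ∀ M : ℕ, ∑ m ∈ Icc 1 M, b m * e (m * z) =
      (∑ m ∈ Icc 1 M, b m) * e (M * z) -
        ∑ m ∈ range M, (∑ k ∈ Icc 1 m, b k) * (e (m * z) * (e z - 1)) := by
    intro M
    induction M with
    | zero => simp
    | succ M ih =>
      rw [sum_Icc_succ_top (by omega), sum_Icc_succ_top (by omega), ih, sum_range_succ, N2_e_succ]
      ring
  have hez : ‖e z - 1‖ ≤ 2 * Real.pi * |z| := by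
    rw [N2_e_eq]
    refine (Real.norm_exp_I_mul_ofReal_sub_one_le).trans ?_
    rw [Real.norm_eq_abs, abs_mul, abs_mul, abs_two, abs_of_pos Real.pi_pos]
  have hB0 : 0 ≤ B := (norm_nonneg _).trans (hB N le_rfl)
  rw [key N]
  refine (norm_sub_le _ _).trans ?_
  have h1 : ‖(∑ m ∈ Icc 1 N, b m) * e (N * z)‖ ≤ B := by
    rw [norm_mul, N2_norm_e, mul_one]
    exact hB N le_rfl
  have h2 : ‖∑ m ∈ range N, (∑ k ∈ Icc 1 m, b k) * (e (m * z) * (e z - 1))‖ ≤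
      N * (B * (2 * Real.pi * |z|)) := by
    refine (norm_sum_le _ _).trans ?_
    have h3 : ∀ m ∈ range N, ‖(∑ k ∈ Icc 1 m, b k) * (e (m * z) * (e z - 1))‖ ≤
        B * (2 * Real.pi * |z|) := by
      intro m hm
      rw [norm_mul, norm_mul, N2_norm_e, one_mul]
      exact mul_le_mul (hB m (mem_range.1 hm).le) hez (norm_nonneg _) hB0
    refine (sum_le_sum h3).trans ?_
    rw [sum_const, card_range, nsmul_eq_mul]
  calc _ ≤ B + N * (B * (2 * Real.pi * |z|)) := add_le_add h1 h2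
    _ = (1 + 2 * Real.pi * |z| * N) * B := by ring

/-- Geometric sum. Proof. `‖e z - 1‖ = 2 |sin (π z)| ≥ 4 |z|` for `|z| ≤ 1/2`, and the trivial bound `N`:
`‖∑_{m ≤ N} e(m z)‖ ≤ min N (2 / ‖e z - 1‖) ≤ 2 N / (1 + N |z|)` in both cases. -/
theorem geom_twist (N : ℕ) (z : ℝ) (hz : |z| ≤ 1 / 2) :
    ‖∑ m ∈ Icc 1 N, e (m * z)‖ ≤ 2 * (N / (1 + N * |z|)) := by
  have htel : ∀ M : ℕ, (e z - 1) * ∑ m ∈ Icc 1 M, e (m * z) = e (((M + 1 : ℕ) : ℝ) * z) - e z := by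
    intro M
    induction M with
    | zero => simp
    | succ M ih =>
      rw [sum_Icc_succ_top (by omega), mul_add, ih, N2_e_succ (M + 1)]
      ring
  have hlow : 4 * |z| ≤ ‖e z - 1‖ := by
    rw [N2_e_eq, Complex.norm_exp_I_mul_ofReal_sub_one]
    have h1 : (2 * Real.pi * z / 2 : ℝ) = Real.pi * z := by ring
    rw [h1, Real.norm_eq_abs, abs_mul, abs_two]
    have h2 : |Real.sin (Real.pi * z)| = |Real.sin (Real.pi * |z|)| := by
      rcases le_total 0 z with h | h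
      · rw [abs_of_nonneg h]
      · rw [abs_of_nonpos h, mul_neg, Real.sin_neg, abs_neg]
    have h3 : 2 / Real.pi * (Real.pi * |z|) ≤ Real.sin (Real.pi * |z|) := by
      apply Real.mul_le_sin
      · positivity
      · nlinarith [Real.pi_pos]
    have h4 : 2 / Real.pi * (Real.pi * |z|) = 2 * |z| := by
      field_simp
    rw [h4] at h3
    rw [h2]
    have h5 := le_abs_self (Real.sin (Real.pi * |z|))
    linarith
  have htriv : ‖∑ m ∈ Icc 1 N, e (m * z)‖ ≤ N := by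
    refine (norm_sum_le _ _).trans ?_
    simp [N2_norm_e]
  have h6 : ‖e z - 1‖ * ‖∑ m ∈ Icc 1 N, e (m * z)‖ ≤ 2 := by
    rw [← norm_mul, htel N]
    refine (norm_sub_le _ _).trans ?_
    rw [N2_norm_e, N2_norm_e]
    norm_num
  have hT := norm_nonneg (∑ m ∈ Icc 1 N, e (m * z))
  set T := ‖∑ m ∈ Icc 1 N, e (m * z)‖ with hTdef
  have h7 : 4 * |z| * T ≤ 2 := (mul_le_mul_of_nonneg_right hlow hT).trans h6
  have hN : (0 : ℝ) ≤ N := Nat.cast_nonneg N
  have hpos : 0 < 1 + (N : ℝ) * |z| := by positivity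
  rw [← mul_div_assoc, le_div_iff₀ hpos]
  nlinarith [mul_le_mul_of_nonneg_left h7 hN]

end Pool.Agent.Lib.H82OH
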