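import Pool.Agent.Lib.H82OH.N2
import Pool.Agent.Lib.H68T.PNTE
import Pool.Agent.Lib.H68X.XPN0
import Pool.Agent.Lib.H59C.SW4

/-!
# Project H82OH, chunk N3: the trivial character
-/

open Finset

namespace Pool.Agent.Lib.H82OH

open Pool.Agent.Lib.H68T (e)

open Filter in
private lemma n3_log_rpow (k : ℕ) (r : ℝ) (hr : 0 < r) (c : ℝ) (hc : 0 < c) :
    ∃ n0 : ℕ, ∀ n : ℕ, n0 ≤ n → Real.log n ^ k ≤ c * (n : ℝ) ^ r := by
  have h2 := (isLittleO_log_rpow_rpow_atTop (k : ℝ) hr).def hc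
  have h3 := (tendsto_natCast_atTop_atTop (R := ℝ)).eventually h2
  obtain ⟨n0, hn0⟩ := eventually_atTop.1 h3
  refine ⟨n0, fun n hn => ?_⟩
  have h4 := hn0 n hn
  have h5 : 0 ≤ Real.log (n : ℝ) := Real.log_natCast_nonneg n
  have h6 : (0 : ℝ) ≤ (n : ℝ) ^ r := Real.rpow_nonneg (Nat.cast_nonneg n) r
  rw [Real.rpow_natCast, Real.norm_eq_abs, Real.norm_eq_abs, abs_of_nonneg (by positivity),
    abs_of_nonneg h6] at h4
  exact h4

private lemma n3_trivial (N y : ℕ) (hy : y ≤ N) :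
    |∑ m ∈ Icc 1 y, (ArithmeticFunction.vonMangoldt m - 1)| ≤ y * (1 + Real.log N) := by
  calc |∑ m ∈ Icc 1 y, (ArithmeticFunction.vonMangoldt m - 1)|
      ≤ ∑ m ∈ Icc 1 y, |ArithmeticFunction.vonMangoldt m - 1| := abs_sum_le_sum_abs _ _
    _ ≤ ∑ m ∈ Icc 1 y, (1 + Real.log N) := by
        refine sum_le_sum fun m hm => ?_
        obtain ⟨hm1, hm2⟩ := mem_Icc.1 hm
        have h1 : ArithmeticFunction.vonMangoldt m ≤ Real.log m :=
          ArithmeticFunction.vonMangoldt_le_log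
        have h2 : 0 ≤ ArithmeticFunction.vonMangoldt m := ArithmeticFunction.vonMangoldt_nonneg
        have h3 : Real.log m ≤ Real.log N := by
          apply Real.log_le_log
          · exact_mod_cast hm1
          · exact_mod_cast hm2.trans hy
        have h4 : 0 ≤ Real.log (N : ℝ) := Real.log_natCast_nonneg N
        rw [abs_le]
        constructor <;> linarith
    _ = y * (1 + Real.log N) := by
        rw [sum_const, Nat.card_Icc, nsmul_eq_mul]
        simp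

/-- The prime number theorem with error `x / (log x)^A`. Proof. `pnt_error` (`H68T/PNTE.lean`) or `pnt_sw`
(`H68X/XPN0.lean`) with `Q = ⌈(log X)^B⌉`, `X = y`, where `Reg K Q X` holds for large `X`: compare `SW4_par`
(`H59C/SW4.lean`); then `∑_{m ≤ y} Λ(m) = y + O(y / (log y)^(A + 1))` for `y ≥ y0`, and for
`y ≤ N`: if `y ≥ √N` the error is `≤ N / (log N)^A`, and for `y < √N` use the trivial bound. -/
theorem psi_err (A : ℕ) : ∃ N0 : ℕ, ∀ N : ℕ, N0 ≤ N → ∀ y : ℕ, y ≤ N →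
    ‖∑ m ∈ Icc 1 y, ((ArithmeticFunction.vonMangoldt m : ℂ) - 1)‖ ≤ N / Real.log N ^ A := by
  obtain ⟨K, hK, hpnt⟩ := Pool.Agent.Lib.H68T.pnt_sw
  obtain ⟨B, M, hpar⟩ := Pool.Agent.Lib.H59C.SW4_par A K hK
  obtain ⟨n0, hn0⟩ := Pool.Agent.Lib.H59C.SW4_ev M (K + 3) 3
  obtain ⟨n1, hn1⟩ := n3_log_rpow (A + 1) (9 / 10) (by norm_num) (1 / 2) (by norm_num)
  refine ⟨max n0 n1, fun N hN y hy => ?_⟩
  obtain ⟨hM, hT, hP⟩ := hn0 N ((le_max_left _ _).trans hN)
  have hl := hn1 N ((le_max_right _ _).trans hN)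
  obtain ⟨-, hreg⟩ := hpar N ⌈Real.log N ^ B⌉₊ hM hT rfl
  have hN0 : (0 : ℝ) < N := by linarith
  have hL1 : 1 ≤ Real.log N := by
    rw [Real.le_log_iff_exp_le hN0]
    have := Real.exp_one_lt_d9
    linarith
  have hLA : 0 < Real.log N ^ A := by positivity
  have hcast : ‖∑ m ∈ Icc 1 y, ((ArithmeticFunction.vonMangoldt m : ℂ) - 1)‖ =
      |∑ m ∈ Icc 1 y, (ArithmeticFunction.vonMangoldt m - 1)| := by
    rw [← Real.norm_eq_abs, ← Complex.norm_real]
    push_cast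
    rfl
  rw [hcast]
  by_cases hyn : (N : ℝ) ^ (1 / 10 : ℝ) ≤ y
  · have hy8 : y ≤ 8 * N := by omega
    obtain ⟨g1, g2⟩ := hreg y hyn hy8
    have h1 := hpnt _ y g1 y (by
      have : (0 : ℝ) ≤ y := Nat.cast_nonneg y
      linarith) (by
      have : (0 : ℝ) ≤ y := Nat.cast_nonneg y
      linarith)
    rw [Nat.floor_natCast] at h1
    refine h1.trans ?_
    have hy0 : (0 : ℝ) ≤ y := Nat.cast_nonneg y
    have hyN : (y : ℝ) ≤ N := by exact_mod_cast hy
    calc (y : ℝ) * Pool.Agent.Lib.H68T.sw K ⌈Real.log N ^ B⌉₊ y ≤ y * (1 / Real.log N ^ A) :=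
          mul_le_mul_of_nonneg_left g2 hy0
      _ ≤ N * (1 / Real.log N ^ A) := mul_le_mul_of_nonneg_right hyN (by positivity)
      _ = N / Real.log N ^ A := by ring
  · refine (n3_trivial N y hy).trans ?_
    rw [le_div_iff₀ hLA]
    have h1 : (y : ℝ) ≤ (N : ℝ) ^ (1 / 10 : ℝ) := (not_le.1 hyn).le
    have h2 : (N : ℝ) ^ (1 / 10 : ℝ) * (N : ℝ) ^ (9 / 10 : ℝ) = N := by
      rw [← Real.rpow_add hN0]
      norm_num
    have h3 : (1 + Real.log N) * Real.log N ^ A ≤ (N : ℝ) ^ (9 / 10 : ℝ) := by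
      have h4 : Real.log N ^ (A + 1) = Real.log N ^ A * Real.log N := pow_succ _ _
      have h5 : Real.log N ^ A ≤ Real.log N ^ A * Real.log N := le_mul_of_one_le_right hLA.le hL1
      nlinarith
    calc (y : ℝ) * (1 + Real.log N) * Real.log N ^ A
        = y * ((1 + Real.log N) * Real.log N ^ A) := by ring
      _ ≤ (N : ℝ) ^ (1 / 10 : ℝ) * (N : ℝ) ^ (9 / 10 : ℝ) := by
          refine mul_le_mul h1 h3 (by positivity) (by positivity)
      _ = N := h2

/-- Proof. `Λ = 1 + (Λ - 1)`: `geom_twist` and `abel_twist` with `psi_err (2 * A + 1)`; `N |z| ≤ (log N)^A`, so the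
second part is at most `(1 + 2 π (log N)^A) N / (log N)^(2 A + 1) ≤ N / (log N)^A` for large `N`.
(`|z| ≤ (log N)^A / N ≤ 1/2` for large `N`.) -/
theorem princ (A : ℕ) : ∃ N0 : ℕ, ∀ N : ℕ, N0 ≤ N → ∀ z : ℝ, |z| ≤ Real.log N ^ A / N →
    ‖∑ m ∈ Icc 1 N, (ArithmeticFunction.vonMangoldt m : ℂ) * e (m * z)‖ ≤
      2 * (N / (1 + N * |z|)) + N / Real.log N ^ A := by
  obtain ⟨n0, hn0⟩ := psi_err (2 * A + 1)
  obtain ⟨n1, hn1⟩ := n3_log_rpow A 1 (by norm_num) (1 / 2) (by norm_num)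
  obtain ⟨n2, hn2⟩ := exists_nat_ge (Real.exp 8)
  refine ⟨max (max n0 n1) n2, fun N hN z hz => ?_⟩
  have h0 := hn0 N (((le_max_left _ _).trans (le_max_left _ _)).trans hN)
  have h1 := hn1 N (((le_max_right _ _).trans (le_max_left _ _)).trans hN)
  have h2 : Real.exp 8 ≤ N := hn2.trans (by exact_mod_cast (le_max_right _ _).trans hN)
  have hN0 : (0 : ℝ) < N := lt_of_lt_of_le (Real.exp_pos 8) h2
  have hL8 : 8 ≤ Real.log N := (Real.le_log_iff_exp_le hN0).2 h2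
  set L : ℝ := Real.log N with hL
  have hLA1 : 1 ≤ L ^ A := one_le_pow₀ (by linarith)
  have hz2 : |z| ≤ 1 / 2 := by
    refine hz.trans ?_
    rw [div_le_iff₀ hN0]
    rw [Real.rpow_one] at h1
    exact h1
  have hzN : |z| * N ≤ L ^ A := (le_div_iff₀ hN0).1 hz
  have hsplit : ∑ m ∈ Icc 1 N, (ArithmeticFunction.vonMangoldt m : ℂ) * e (m * z) =
      ∑ m ∈ Icc 1 N, e (m * z) +
        ∑ m ∈ Icc 1 N, ((ArithmeticFunction.vonMangoldt m : ℂ) - 1) * e (m * z) := by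
    rw [← sum_add_distrib]
    refine sum_congr rfl fun m _ => ?_
    ring
  rw [hsplit]
  refine (norm_add_le _ _).trans (add_le_add (geom_twist N z hz2) ?_)
  refine (abel_twist (fun m => (ArithmeticFunction.vonMangoldt m : ℂ) - 1) N z _ h0).trans ?_
  have h3 : 1 + 2 * Real.pi * |z| * N ≤ L ^ (A + 1) := by
    have h4 : 2 * Real.pi * |z| * N ≤ 7 * L ^ A := by
      have h5 : 2 * Real.pi * |z| * N = 2 * Real.pi * (|z| * N) := by ring
      rw [h5]
      have h6 : 2 * Real.pi ≤ 7 := by linarith [Real.pi_lt_d2]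
      have h7 : 0 ≤ |z| * N := by positivity
      exact mul_le_mul h6 hzN h7 (by norm_num)
    have h8 : L ^ (A + 1) = L ^ A * L := pow_succ _ _
    rw [h8]
    nlinarith
  have hpos : 0 < L ^ (2 * A + 1) := by positivity
  calc (1 + 2 * Real.pi * |z| * N) * (N / L ^ (2 * A + 1))
      ≤ L ^ (A + 1) * (N / L ^ (2 * A + 1)) := mul_le_mul_of_nonneg_right h3 (by positivity)
    _ = N / L ^ A := by
        have h9 : L ^ (2 * A + 1) = L ^ (A + 1) * L ^ A := by
          rw [← pow_add]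
          congr 1
          omega
        rw [h9]
        have hL0 : L ≠ 0 := by linarith
        field_simp

end Pool.Agent.Lib.H82OH
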