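import Pool.Agent.Lib.H59C.Defs
import Pool.Agent.Lib.H59C.BV1A
import Pool.Agent.Lib.H68T.CQ1
import Pool.Agent.Lib.H68T.CQ2

/-!
# Project H82OH, chunk N4: expansion in primitive characters
-/

open Finset

namespace Pool.Agent.Lib.H82OH

open Pool.Agent.Lib.H68T (e PC p0)
open Pool.Agent.Lib.H59C (PCh)

/-! ### helper lemmas -/

private theorem n4_norm_e (x : ℝ) : ‖e x‖ = 1 := by
  unfold e
  have : (2 * (Real.pi : ℂ) * (x : ℂ) * Complex.I) = ((2 * Real.pi * x : ℝ) : ℂ) * Complex.I := by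
    push_cast
    ring
  rw [this]
  exact Complex.norm_exp_ofReal_mul_I _

private theorem n4_std {q : ℕ} [NeZero q] (j : ℤ) :
    (ZMod.stdAddChar (j : ZMod q) : ℂ) = e (j / q) := by
  rw [ZMod.stdAddChar_coe]
  unfold e
  congr 1
  push_cast
  ring

/-- the coefficient of the expansion -/
private noncomputable def n4c {q : ℕ} [NeZero q] (χ : DirichletCharacter ℂ q) (k : ZMod q) : ℂ :=
  ∑ b : (ZMod q)ˣ, χ ((b⁻¹ : (ZMod q)ˣ) : ZMod q) * ZMod.stdAddChar (k * (b : ZMod q))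

private theorem n4c_unit {q : ℕ} [NeZero q] (χ : DirichletCharacter ℂ q) (k : ZMod q)
    (u : (ZMod q)ˣ) : n4c χ ((u : ZMod q) * k) = χ (u : ZMod q) * n4c χ k := by
  unfold n4c
  rw [mul_sum]
  refine (Fintype.sum_equiv (Equiv.mulLeft u⁻¹) _ _ ?_).symm
  intro b
  simp only [Equiv.coe_mulLeft, mul_inv_rev, inv_inv, Units.val_mul, map_mul]
  have h1 : (u : ZMod q) * k * (((u⁻¹ : (ZMod q)ˣ) : ZMod q) * (b : ZMod q)) =
      k * (b : ZMod q) * ((u : ZMod q) * ((u⁻¹ : (ZMod q)ˣ) : ZMod q)) := by ring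
  rw [h1, Units.mul_inv, mul_one]
  ring

private theorem n4_norm_unit {q : ℕ} [NeZero q] (χ : DirichletCharacter ℂ q)
    (u : (ZMod q)ˣ) : ‖χ (u : ZMod q)‖ = 1 := by
  exact DirichletCharacter.unit_norm_eq_one χ u

private theorem n4c_norm_unit {q : ℕ} [NeZero q] (χ : DirichletCharacter ℂ q) (k : ZMod q)
    (u : (ZMod q)ˣ) : ‖n4c χ ((u : ZMod q) * k)‖ = ‖n4c χ k‖ := by
  rw [n4c_unit, norm_mul, n4_norm_unit, one_mul]

private theorem n4_norm_std {q : ℕ} [NeZero q] (j : ZMod q) :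
    ‖(ZMod.stdAddChar j : ℂ)‖ = 1 := by
  rw [ZMod.stdAddChar_apply]
  exact Circle.norm_coe _

private theorem n4_conj_std {q : ℕ} [NeZero q] (j : ZMod q) :
    (starRingEnd ℂ) (ZMod.stdAddChar j : ℂ) = ZMod.stdAddChar (-j) := by
  have h1 : (ZMod.stdAddChar (-j) : ℂ) = (ZMod.stdAddChar j : ℂ)⁻¹ := AddChar.map_neg_eq_inv _ _
  rw [h1, Complex.inv_def, Complex.normSq_eq_norm_sq, n4_norm_std]
  simp

private theorem n4_parseval {q : ℕ} [NeZero q] (χ : DirichletCharacter ℂ q) :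
    ∑ k : ZMod q, ‖n4c χ k‖ ^ 2 = (q : ℝ) * (q.totient : ℝ) := by
  have h1 : ∀ k : ZMod q, ((‖n4c χ k‖ ^ 2 : ℝ) : ℂ) =
      ∑ b : (ZMod q)ˣ, ∑ b' : (ZMod q)ˣ,
        (χ ((b⁻¹ : (ZMod q)ˣ) : ZMod q) * (starRingEnd ℂ) (χ ((b'⁻¹ : (ZMod q)ˣ) : ZMod q))) *
          (ZMod.stdAddChar (k * ((b : ZMod q) - (b' : ZMod q))) : ℂ) := by
    intro k
    have h2 : ((‖n4c χ k‖ ^ 2 : ℝ) : ℂ) = n4c χ k * (starRingEnd ℂ) (n4c χ k) := by
      rw [Complex.mul_conj, Complex.normSq_eq_norm_sq]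
    rw [h2]
    unfold n4c
    rw [map_sum, Finset.sum_mul_sum]
    refine sum_congr rfl fun b _ => sum_congr rfl fun b' _ => ?_
    rw [map_mul (starRingEnd ℂ), n4_conj_std]
    have h3 : (ZMod.stdAddChar (k * ((b : ZMod q) - (b' : ZMod q))) : ℂ) =
        ZMod.stdAddChar (k * (b : ZMod q)) * ZMod.stdAddChar (-(k * (b' : ZMod q))) := by
      rw [← AddChar.map_add_eq_mul]
      congr 1
      ring
    rw [h3]
    ring
  have h4 : ((∑ k : ZMod q, ‖n4c χ k‖ ^ 2 : ℝ) : ℂ) = ((q : ℝ) * (q.totient : ℝ) : ℝ) := by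
    rw [Complex.ofReal_sum, sum_congr rfl fun k _ => h1 k, sum_comm]
    have h5 : ∀ b : (ZMod q)ˣ, ∑ k : ZMod q, ∑ b' : (ZMod q)ˣ,
        (χ ((b⁻¹ : (ZMod q)ˣ) : ZMod q) * (starRingEnd ℂ) (χ ((b'⁻¹ : (ZMod q)ˣ) : ZMod q))) *
          (ZMod.stdAddChar (k * ((b : ZMod q) - (b' : ZMod q))) : ℂ) = q := by
      intro b
      rw [sum_comm]
      have h6 : ∀ b' : (ZMod q)ˣ, ∑ k : ZMod q,
          (χ ((b⁻¹ : (ZMod q)ˣ) : ZMod q) * (starRingEnd ℂ) (χ ((b'⁻¹ : (ZMod q)ˣ) : ZMod q))) *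
          (ZMod.stdAddChar (k * ((b : ZMod q) - (b' : ZMod q))) : ℂ) =
          if b' = b then (q : ℂ) else 0 := by
        intro b'
        rw [← mul_sum, AddChar.sum_mulShift _ (ZMod.isPrimitive_stdAddChar q)]
        by_cases hb : b' = b
        · rw [if_pos hb, hb, sub_self, if_pos rfl, ZMod.card, Complex.mul_conj,
            Complex.normSq_eq_norm_sq, n4_norm_unit]
          simp
        · rw [if_neg hb, if_neg]
          · simp
          · intro h
            apply hb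
            have := sub_eq_zero.mp h
            exact (Units.ext this).symm
      rw [sum_congr rfl fun b' _ => h6 b', sum_ite_eq']
      simp
    rw [sum_congr rfl fun b _ => h5 b, sum_const, card_univ, ZMod.card_units_eq_totient]
    push_cast
    simp
    ring
  exact_mod_cast h4

private theorem n4c_le {q : ℕ} [NeZero q] (χ : DirichletCharacter ℂ q) (k : ZMod q)
    (hk : IsUnit k) : ‖n4c χ k‖ ≤ Real.sqrt q := by
  obtain ⟨v, rfl⟩ := hk
  have h1 : ∀ u : (ZMod q)ˣ, ‖n4c χ (u : ZMod q)‖ = ‖n4c χ (v : ZMod q)‖ := by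
    intro u
    have h2 : (u : ZMod q) = ((u * v⁻¹ : (ZMod q)ˣ) : ZMod q) * (v : ZMod q) := by
      rw [← Units.val_mul]
      congr 1
      group
    rw [h2, n4c_norm_unit]
  have h3 : ∑ u : (ZMod q)ˣ, ‖n4c χ (u : ZMod q)‖ ^ 2 ≤ ∑ k : ZMod q, ‖n4c χ k‖ ^ 2 := by
    have h4 : ∑ u : (ZMod q)ˣ, ‖n4c χ (u : ZMod q)‖ ^ 2 =
        ∑ k ∈ (univ : Finset (ZMod q)ˣ).image (fun u : (ZMod q)ˣ => (u : ZMod q)), ‖n4c χ k‖ ^ 2 := by
      rw [sum_image]
      intro a _ b _ h
      exact Units.ext h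
    rw [h4]
    exact sum_le_sum_of_subset_of_nonneg (subset_univ _) fun _ _ _ => by positivity
  rw [n4_parseval, sum_congr rfl fun u _ => by rw [h1 u], sum_const, card_univ,
    ZMod.card_units_eq_totient, nsmul_eq_mul] at h3
  have hφ : 0 < (q.totient : ℝ) := by
    exact_mod_cast Nat.totient_pos.mpr (Nat.pos_of_ne_zero (NeZero.ne q))
  have h5 : ‖n4c χ (v : ZMod q)‖ ^ 2 ≤ q := by
    have : (q.totient : ℝ) * ‖n4c χ (v : ZMod q)‖ ^ 2 ≤ (q.totient : ℝ) * q := by linarith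
    exact le_of_mul_le_mul_left this hφ
  exact Real.le_sqrt_of_sq_le h5

private theorem n4c_one {q : ℕ} [NeZero q] (a : ℤ) (ha : IsCoprime a (q : ℤ)) :
    ‖n4c (1 : DirichletCharacter ℂ q) (a : ZMod q)‖ ≤ 1 := by
  have hq : 0 < q := Nat.pos_of_ne_zero (NeZero.ne q)
  have h1 : n4c (1 : DirichletCharacter ℂ q) (a : ZMod q) =
      ∑ b ∈ (range q).filter (fun b => Nat.Coprime b q), e (b * a / q) := by
    unfold n4c
    refine sum_bij' (fun b _ => (b : ZMod q).val) (fun b hb => if h : Nat.Coprime b q then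
      ZMod.unitOfCoprime b h else 1) ?_ ?_ ?_ ?_ ?_
    · intro b _
      rw [mem_filter, mem_range]
      exact ⟨ZMod.val_lt _, ZMod.val_coe_unit_coprime b⟩
    · intro b _
      exact mem_univ _
    · intro b _
      rw [dif_pos (ZMod.val_coe_unit_coprime b)]
      apply Units.ext
      rw [ZMod.coe_unitOfCoprime, ZMod.natCast_val, ZMod.cast_id', id]
    · intro b hb
      rw [mem_filter, mem_range] at hb
      rw [dif_pos hb.2]
      rw [ZMod.coe_unitOfCoprime, ZMod.val_natCast, Nat.mod_eq_of_lt hb.1]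
    · intro b _
      rw [MulChar.one_apply (b⁻¹).isUnit, one_mul]
      have h2 : (a : ZMod q) * (b : ZMod q) = ((((b : ZMod q).val : ℤ) * a : ℤ) : ZMod q) := by
        push_cast
        rw [ZMod.natCast_val, ZMod.cast_id', id]
        ring
      rw [h2, n4_std]
      push_cast
      rfl
  rw [h1, ← Pool.Agent.Lib.H68T.cq_eq_sum q hq a]
  unfold Pool.Agent.Lib.H68T.cq
  have h3 : q.divisors.filter (fun d : ℕ => (d : ℤ) ∣ a) = {1} := by
    ext d
    rw [mem_filter, Nat.mem_divisors, mem_singleton]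
    constructor
    · rintro ⟨⟨h4, _⟩, h5⟩
      have h6 : (d : ℤ) ∣ (q : ℤ) := by exact_mod_cast h4
      have h7 := ha.isUnit_of_dvd' h5 h6
      exact Int.ofNat_isUnit.mp h7 |> Nat.isUnit_iff.mp
    · rintro rfl
      exact ⟨⟨one_dvd _, hq.ne'⟩, by simp⟩
  rw [h3, sum_singleton]
  rw [Nat.div_one, Nat.cast_one, one_mul, Complex.norm_real, Real.norm_eq_abs]
  have h8 := ArithmeticFunction.abs_moebius_le_one (n := q)
  exact_mod_cast h8

/-- the expansion -/
private theorem n4_expand {q : ℕ} [NeZero q] (k : ZMod q) (m : ZMod q) (hm : IsUnit m) :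
    (ZMod.stdAddChar (k * m) : ℂ) = 1 / (q.totient : ℂ) *
      ∑ χ : DirichletCharacter ℂ q, n4c χ k * χ m := by
  have hφ0 : (Nat.totient q : ℂ) ≠ 0 := by
    have := Nat.totient_pos.mpr (Nat.pos_of_ne_zero (NeZero.ne q))
    exact_mod_cast this.ne'
  have h1 : ∑ χ : DirichletCharacter ℂ q, n4c χ k * χ m =
      ∑ b : (ZMod q)ˣ, (ZMod.stdAddChar (k * (b : ZMod q)) : ℂ) *
        ∑ χ : DirichletCharacter ℂ q, χ ((b : ZMod q)⁻¹) * χ m := by
    unfold n4c
    simp_rw [sum_mul, mul_sum]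
    rw [sum_comm]
    refine sum_congr rfl fun b _ => sum_congr rfl fun χ _ => ?_
    rw [ZMod.inv_coe_unit]
    ring
  rw [h1]
  obtain ⟨u, rfl⟩ := hm
  have h2 : ∀ b : (ZMod q)ˣ, (ZMod.stdAddChar (k * (b : ZMod q)) : ℂ) *
        ∑ χ : DirichletCharacter ℂ q, χ ((b : ZMod q)⁻¹) * χ (u : ZMod q) =
      if b = u then (ZMod.stdAddChar (k * (u : ZMod q)) : ℂ) * (q.totient : ℂ) else 0 := by
    intro b
    rw [DirichletCharacter.sum_char_inv_mul_char_eq ℂ b.isUnit]
    by_cases hb : b = u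
    · rw [if_pos hb, hb, if_pos rfl]
    · rw [if_neg hb, if_neg (fun h => hb (Units.ext h)), mul_zero]
  rw [sum_congr rfl fun b _ => h2 b, sum_ite_eq' univ u]
  simp only [mem_univ, if_true]
  field_simp

/-- the terms not coprime to `q` -/
private theorem n4_bad (N q : ℕ) (hN : 2 ≤ N) (hq : 1 ≤ q) (hqN : q ≤ N) :
    ∑ m ∈ (Icc 1 N).filter (fun m => ¬ m.Coprime q), ArithmeticFunction.vonMangoldt m ≤
      3 / 2 * Real.log N ^ 2 := by
  have hlog : 0 ≤ Real.log N := Real.log_natCast_nonneg N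
  have h1 : ∀ m ∈ (Icc 1 N).filter (fun m => ¬ m.Coprime q), ArithmeticFunction.vonMangoldt m ≤
      ∑ p ∈ q.primeFactors, if p ∣ m then ArithmeticFunction.vonMangoldt m else 0 := by
    intro m hm
    rw [mem_filter, mem_Icc] at hm
    obtain ⟨p, hp, hpm, hpq⟩ := Nat.Prime.not_coprime_iff_dvd.mp hm.2
    have hpf : p ∈ q.primeFactors := Nat.mem_primeFactors.mpr ⟨hp, hpq, by omega⟩
    have h2 : (if p ∣ m then ArithmeticFunction.vonMangoldt m else 0) ≤
        ∑ p ∈ q.primeFactors, if p ∣ m then ArithmeticFunction.vonMangoldt m else 0 :=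
      single_le_sum (f := fun p => if p ∣ m then ArithmeticFunction.vonMangoldt m else 0)
        (fun i _ => by
          split_ifs
          · exact ArithmeticFunction.vonMangoldt_nonneg
          · exact le_refl _) hpf
    rw [if_pos hpm] at h2
    exact h2
  have h3 : ∀ p ∈ q.primeFactors, ∑ m ∈ Icc 1 N, (if p ∣ m then
      ArithmeticFunction.vonMangoldt m else 0) ≤ Real.log N := by
    intro p hp
    have hpp : p.Prime := Nat.prime_of_mem_primeFactors hp
    set K := Nat.log p N with hK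
    have hpK : p ^ K ≤ N := Nat.pow_log_le_self p (by omega)
    have hpK0 : p ^ K ≠ 0 := pow_ne_zero _ hpp.ne_zero
    have h4 : ∑ m ∈ Icc 1 N, (if p ∣ m then ArithmeticFunction.vonMangoldt m else 0) ≤
        ∑ m ∈ (p ^ K).divisors, ArithmeticFunction.vonMangoldt m := by
      rw [← sum_filter]
      have h5 : ∑ m ∈ (Icc 1 N).filter (fun m => p ∣ m), ArithmeticFunction.vonMangoldt m =
          ∑ m ∈ ((Icc 1 N).filter (fun m => p ∣ m)).filter
            (fun m => ArithmeticFunction.vonMangoldt m ≠ 0),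
            ArithmeticFunction.vonMangoldt m := (sum_filter_ne_zero _).symm
      rw [h5]
      refine sum_le_sum_of_subset_of_nonneg ?_ fun _ _ _ => ArithmeticFunction.vonMangoldt_nonneg
      intro m hm
      rw [mem_filter, mem_filter, mem_Icc] at hm
      obtain ⟨⟨⟨hm1, hmN⟩, hpm⟩, hL⟩ := hm
      have hpow := ArithmeticFunction.vonMangoldt_ne_zero_iff.mp hL
      obtain ⟨p', k, hp', hk, rfl⟩ := (isPrimePow_nat_iff _).mp hpow
      have hpp' : p = p' := (Nat.prime_dvd_prime_iff_eq hpp hp').mp (hpp.dvd_of_dvd_pow hpm)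
      subst hpp'
      rw [Nat.mem_divisors]
      refine ⟨pow_dvd_pow p ?_, hpK0⟩
      exact Nat.le_log_of_pow_le hpp.one_lt hmN
    refine h4.trans ?_
    rw [ArithmeticFunction.vonMangoldt_sum]
    apply Real.log_le_log
    · exact_mod_cast Nat.pos_of_ne_zero hpK0
    · exact_mod_cast hpK
  calc ∑ m ∈ (Icc 1 N).filter (fun m => ¬ m.Coprime q), ArithmeticFunction.vonMangoldt m
      ≤ ∑ m ∈ (Icc 1 N).filter (fun m => ¬ m.Coprime q),
        ∑ p ∈ q.primeFactors, (if p ∣ m then ArithmeticFunction.vonMangoldt m else 0) :=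
          sum_le_sum h1
    _ ≤ ∑ m ∈ Icc 1 N,
        ∑ p ∈ q.primeFactors, (if p ∣ m then ArithmeticFunction.vonMangoldt m else 0) := by
          refine sum_le_sum_of_subset_of_nonneg (filter_subset _ _) fun _ _ _ =>
            sum_nonneg fun _ _ => ?_
          split_ifs
          · exact ArithmeticFunction.vonMangoldt_nonneg
          · exact le_refl _
    _ = ∑ p ∈ q.primeFactors, ∑ m ∈ Icc 1 N,
        (if p ∣ m then ArithmeticFunction.vonMangoldt m else 0) := sum_comm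
    _ ≤ ∑ p ∈ q.primeFactors, Real.log N := sum_le_sum h3
    _ = q.primeFactors.card * Real.log N := by rw [sum_const, nsmul_eq_mul]
    _ ≤ (3 / 2 * Real.log q) * Real.log N := by
        apply mul_le_mul_of_nonneg_right _ hlog
        exact Pool.Agent.Lib.H68T.CQ2_card q hq
    _ ≤ 3 / 2 * Real.log N ^ 2 := by
        have : Real.log q ≤ Real.log N := by
          apply Real.log_le_log
          · exact_mod_cast hq
          · exact_mod_cast hqN
        nlinarith

open Classical in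
/-- Proof. For `(m, q) = 1`, `e(m a / q) = (1/φ(q)) ∑_{χ mod q} τ(conj χ) χ(a m)` (orthogonality of the Dirichlet
characters mod `q`), `|τ(conj χ)| ≤ √q` for every character mod `q`, primitive or not, and `τ(1) = μ(q)`,
so of modulus at most `1`. The `m` with `(m, q) > 1` contribute at most
`∑_{m ≤ N, (m,q) > 1} Λ(m) ≤ (log N) (number of prime divisors of q) ≤ 2 (log N)^2` for `q ≤ N`. The character
`χ` mod `q` is induced by a primitive character `p` of conductor `p.1 ∣ q`, each primitive character of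
conductor dividing `q` occurs once (`χ ↦ ⟨χ.conductor, χ.primitiveCharacter⟩` is injective), and
`χ(m) = p.2(m)` for `(m, q) = 1`, so the difference of the two sums is again at most `2 (log N)^2`; there
are `φ(q)` characters. (Compare `H59C/BV1A.lean`, `H59C/BV1B.lean`, and `DirichletCharacter` and `gaussSum` in Mathlib. An
upper bound `|τ(χ)| ≤ √q` for all `χ` mod `q`: `τ(χ) = ∑ χ(b) e(b/q)`; for an imprimitive character
`τ(χ) = μ(q/q*) χ*(q/q*) τ(χ*)`; or avoid it: the weaker bound below holds with any constant `C` in place of the factors.) -/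
theorem expand_char (N q : ℕ) (a : ℤ) (z : ℝ) (hN : 2 ≤ N) (hq : 1 ≤ q) (hqN : q ≤ N)
    (ha : IsCoprime a (q : ℤ)) :
    ‖∑ m ∈ Icc 1 N, (ArithmeticFunction.vonMangoldt m : ℂ) * e (m * (a / q + z))‖ ≤
      1 / (q.totient : ℝ) *
        ‖∑ m ∈ Icc 1 N, (ArithmeticFunction.vonMangoldt m : ℂ) * e (m * z)‖ +
      Real.sqrt q / (q.totient : ℝ) * ∑ p ∈ (PC q).filter (fun p => p.1 ∣ q ∧ p ≠ p0),
        ‖∑ m ∈ Icc 1 N, (ArithmeticFunction.vonMangoldt m : ℂ) * p.2 (m : ZMod p.1) * e (m * z)‖ +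
      8 * Real.sqrt q * Real.log N ^ 2 := by
  have hne : NeZero q := ⟨by omega⟩
  have hφ : 0 < (q.totient : ℝ) := by
    exact_mod_cast Nat.totient_pos.mpr hq
  have hlog : 0 ≤ Real.log N := Real.log_natCast_nonneg N
  have hsq1 : 1 ≤ Real.sqrt q := by
    rw [Real.one_le_sqrt]
    exact_mod_cast hq
  obtain ⟨f, hf⟩ : ∃ f : ℕ → ℂ, f = fun m => (ArithmeticFunction.vonMangoldt m : ℂ) * e (m * z) :=
    ⟨_, rfl⟩
  have hfn : ∀ m, ‖f m‖ = ArithmeticFunction.vonMangoldt m := by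
    intro m
    rw [hf]
    simp only
    rw [norm_mul, n4_norm_e, mul_one, Complex.norm_real, Real.norm_eq_abs,
      abs_of_nonneg ArithmeticFunction.vonMangoldt_nonneg]
  obtain ⟨B, hB⟩ : ∃ B : ℝ, B = ∑ m ∈ (Icc 1 N).filter (fun m => ¬ m.Coprime q),
      ArithmeticFunction.vonMangoldt m := ⟨_, rfl⟩
  have hB0 : 0 ≤ B := by
    rw [hB]
    exact sum_nonneg fun _ _ => ArithmeticFunction.vonMangoldt_nonneg
  have hBle : B ≤ 3 / 2 * Real.log N ^ 2 := by
    rw [hB]
    exact n4_bad N q hN hq hqN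
  -- restricting to the coprime terms
  have hcop : ∀ g : ℕ → ℂ, (∀ m, ‖g m‖ ≤ 1) →
      ‖∑ m ∈ (Icc 1 N).filter (fun m => ¬ m.Coprime q), f m * g m‖ ≤ B := by
    intro g hg
    rw [hB]
    refine (norm_sum_le _ _).trans (sum_le_sum fun m _ => ?_)
    rw [norm_mul, hfn]
    calc _ ≤ ArithmeticFunction.vonMangoldt m * 1 :=
          mul_le_mul_of_nonneg_left (hg m) ArithmeticFunction.vonMangoldt_nonneg
      _ = _ := mul_one _
  have hsplit : ∀ g : ℕ → ℂ, ∑ m ∈ Icc 1 N, f m * g m =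
      ∑ m ∈ (Icc 1 N).filter (fun m => m.Coprime q), f m * g m +
      ∑ m ∈ (Icc 1 N).filter (fun m => ¬ m.Coprime q), f m * g m := by
    intro g
    exact (sum_filter_add_sum_filter_not _ _ _).symm
  have hchar : ∀ χ : DirichletCharacter ℂ q, ∀ g : ℕ → ℂ, (∀ m, ‖g m‖ ≤ 1) →
      (∀ m : ℕ, m.Coprime q → χ (m : ZMod q) = g m) →
      ‖∑ m ∈ Icc 1 N, f m * χ (m : ZMod q)‖ ≤ ‖∑ m ∈ Icc 1 N, f m * g m‖ + B := by
    intro χ g hg hχ
    have h1 : ∑ m ∈ Icc 1 N, f m * χ (m : ZMod q) =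
        ∑ m ∈ (Icc 1 N).filter (fun m => m.Coprime q), f m * g m := by
      rw [sum_filter]
      refine sum_congr rfl fun m _ => ?_
      by_cases hm : m.Coprime q
      · rw [if_pos hm, hχ m hm]
      · rw [if_neg hm, MulChar.map_nonunit _ (fun h => hm ((ZMod.isUnit_iff_coprime m q).mp h)),
          mul_zero]
    have h2 : ∑ m ∈ Icc 1 N, f m * χ (m : ZMod q) = ∑ m ∈ Icc 1 N, f m * g m -
        ∑ m ∈ (Icc 1 N).filter (fun m => ¬ m.Coprime q), f m * g m := by
      rw [h1, hsplit g]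
      ring
    rw [h2]
    refine (norm_sub_le _ _).trans ?_
    have := hcop g hg
    linarith
  -- the expansion
  have hterm : ∀ m : ℕ, (ArithmeticFunction.vonMangoldt m : ℂ) * e (m * (a / q + z)) =
      f m * ZMod.stdAddChar ((a : ZMod q) * (m : ZMod q)) := by
    intro m
    have h1 : (a : ZMod q) * (m : ZMod q) = ((a * m : ℤ) : ZMod q) := by push_cast; rfl
    rw [h1, n4_std, hf]
    simp only
    rw [mul_assoc, ← Pool.Agent.Lib.H68T.CQ1_e_add]
    congr 2
    push_cast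
    ring
  have hS : ∑ m ∈ Icc 1 N, (ArithmeticFunction.vonMangoldt m : ℂ) * e (m * (a / q + z)) =
      1 / (q.totient : ℂ) * ∑ χ : DirichletCharacter ℂ q, n4c χ (a : ZMod q) *
        ∑ m ∈ Icc 1 N, f m * χ (m : ZMod q) +
      ∑ m ∈ (Icc 1 N).filter (fun m => ¬ m.Coprime q),
        f m * ZMod.stdAddChar ((a : ZMod q) * (m : ZMod q)) := by
    rw [sum_congr rfl fun m _ => hterm m, hsplit]
    congr 1
    simp_rw [mul_sum]
    rw [sum_comm, sum_filter]
    refine sum_congr rfl fun m _ => ?_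
    by_cases hm : m.Coprime q
    · rw [if_pos hm, n4_expand _ _ ((ZMod.isUnit_iff_coprime m q).mpr hm), mul_sum, mul_sum]
      refine sum_congr rfl fun χ _ => ?_
      ring
    · rw [if_neg hm]
      symm
      apply sum_eq_zero
      intro χ _
      rw [MulChar.map_nonunit _ (fun h => hm ((ZMod.isUnit_iff_coprime m q).mp h))]
      simp
  have hau : IsUnit (a : ZMod q) := by
    have := (ZMod.coe_unitOfIsCoprime a ha)
    rw [← this]
    exact (ZMod.unitOfIsCoprime a ha).isUnit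
  obtain ⟨G, hG⟩ : ∃ G : PCh → ℝ, G = fun p =>
    ‖∑ m ∈ Icc 1 N, f m * p.2 (m : ZMod p.1)‖ := ⟨_, rfl⟩
  have hone : ‖n4c (1 : DirichletCharacter ℂ q) (a : ZMod q) *
        ∑ m ∈ Icc 1 N, f m * (1 : DirichletCharacter ℂ q) (m : ZMod q)‖ ≤
      ‖∑ m ∈ Icc 1 N, f m‖ + B := by
    rw [norm_mul]
    have h1 := hchar 1 (fun _ => 1) (fun _ => by simp)
      (fun m hm => MulChar.one_apply ((ZMod.isUnit_iff_coprime m q).mpr hm))
    simp only [mul_one] at h1
    calc _ ≤ 1 * (‖∑ m ∈ Icc 1 N, f m‖ + B) :=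
          mul_le_mul (n4c_one a ha) h1 (norm_nonneg _) zero_le_one
      _ = _ := one_mul _
  have hother : ∀ χ : DirichletCharacter ℂ q, ‖n4c χ (a : ZMod q) *
        ∑ m ∈ Icc 1 N, f m * χ (m : ZMod q)‖ ≤
      Real.sqrt q * (G (Pool.Agent.Lib.H59C.BV1A_P χ) + B) := by
    intro χ
    rw [norm_mul]
    refine mul_le_mul (n4c_le χ _ hau) ?_ (norm_nonneg _) (Real.sqrt_nonneg _)
    rw [hG]
    refine hchar χ (fun m => (Pool.Agent.Lib.H59C.BV1A_P χ).2
      (m : ZMod (Pool.Agent.Lib.H59C.BV1A_P χ).1)) ?_ ?_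
    · intro m
      exact DirichletCharacter.norm_le_one _ _
    · intro m hm
      rw [Pool.Agent.Lib.H59C.BV1A_val χ m,
        if_pos (Nat.Coprime.coprime_dvd_right (Nat.div_dvd_of_dvd χ.conductor_dvd_level) hm)]
      rfl
  have hsum : ‖∑ χ : DirichletCharacter ℂ q, n4c χ (a : ZMod q) *
        ∑ m ∈ Icc 1 N, f m * χ (m : ZMod q)‖ ≤ (‖∑ m ∈ Icc 1 N, f m‖ + B) +
      (Real.sqrt q * ∑ p ∈ (PC q).filter (fun p => p.1 ∣ q ∧ p ≠ p0), G p +
        Real.sqrt q * (q.totient * B)) := by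
    rw [← add_sum_erase _ _ (mem_univ (1 : DirichletCharacter ℂ q))]
    refine (norm_add_le _ _).trans (add_le_add hone ?_)
    refine (norm_sum_le _ _).trans ?_
    refine (sum_le_sum fun χ _ => hother χ).trans ?_
    rw [← mul_sum, ← mul_add]
    refine mul_le_mul_of_nonneg_left ?_ (Real.sqrt_nonneg _)
    rw [sum_add_distrib]
    refine add_le_add ?_ ?_
    · have h9 : ∑ χ ∈ (univ : Finset (DirichletCharacter ℂ q)).erase 1,
            G (Pool.Agent.Lib.H59C.BV1A_P χ) =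
          ∑ p ∈ ((univ : Finset (DirichletCharacter ℂ q)).erase 1).image
            Pool.Agent.Lib.H59C.BV1A_P, G p := by
        rw [sum_image]
        intro χ _ ψ _ h
        exact Pool.Agent.Lib.H59C.BV1A_inj h
      rw [h9]
      apply sum_le_sum_of_subset_of_nonneg
      · intro p hp
        rw [mem_image] at hp
        obtain ⟨χ, hχ, rfl⟩ := hp
        have hχ1 := ne_of_mem_erase hχ
        rw [mem_filter, Pool.Agent.Lib.H68T.mem_PC]
        have hc0 : χ.conductor ≠ 0 := χ.conductor_ne_zero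
        refine ⟨⟨?_, ?_, ?_⟩, ?_, ?_⟩
        · exact Nat.one_le_iff_ne_zero.mpr hc0
        · exact Nat.le_of_dvd hq χ.conductor_dvd_level
        · exact χ.primitiveCharacter_isPrimitive
        · exact χ.conductor_dvd_level
        · intro h
          apply hχ1
          rw [← Pool.Agent.Lib.H59C.BV1A_LP χ, h, Pool.Agent.Lib.H59C.BV1A_p0]
      · intro p _ _
        rw [hG]
        exact norm_nonneg _
    · rw [sum_const, nsmul_eq_mul]
      apply mul_le_mul_of_nonneg_right _ hB0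
      have h10 : ((univ : Finset (DirichletCharacter ℂ q)).erase 1).card ≤ q.totient := by
        refine (card_le_card (erase_subset _ _)).trans ?_
        rw [card_univ, ← Nat.card_eq_fintype_card,
          DirichletCharacter.card_eq_totient_of_hasEnoughRootsOfUnity ℂ q]
      exact_mod_cast h10
  rw [hS]
  refine (norm_add_le _ _).trans ?_
  have hlast := hcop (fun m => ZMod.stdAddChar ((a : ZMod q) * (m : ZMod q)))
    (fun m => (n4_norm_std _).le)
  rw [norm_mul]
  have h6 : ‖1 / (Nat.totient q : ℂ)‖ = 1 / (Nat.totient q : ℝ) := by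
    rw [norm_div, norm_one, Complex.norm_natCast]
  rw [h6]
  have h7 : 1 / (q.totient : ℝ) * ‖∑ χ : DirichletCharacter ℂ q, n4c χ (a : ZMod q) *
        ∑ m ∈ Icc 1 N, f m * χ (m : ZMod q)‖ ≤ 1 / (q.totient : ℝ) *
      ((‖∑ m ∈ Icc 1 N, f m‖ + B) +
      (Real.sqrt q * ∑ p ∈ (PC q).filter (fun p => p.1 ∣ q ∧ p ≠ p0), G p +
        Real.sqrt q * (q.totient * B))) :=
    mul_le_mul_of_nonneg_left hsum (by positivity)
  have h8 : 1 / (q.totient : ℝ) * B ≤ Real.sqrt q * B := by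
    apply mul_le_mul_of_nonneg_right _ hB0
    have hφ1 : (1 : ℝ) ≤ q.totient := by exact_mod_cast Nat.totient_pos.mpr hq
    have : 1 / (q.totient : ℝ) ≤ 1 := by
      rw [div_le_one hφ]
      exact hφ1
    linarith
  have h11 : B ≤ Real.sqrt q * B := by
    nlinarith
  have h12 : 1 / (q.totient : ℝ) * ((‖∑ m ∈ Icc 1 N, f m‖ + B) +
      (Real.sqrt q * ∑ p ∈ (PC q).filter (fun p => p.1 ∣ q ∧ p ≠ p0), G p +
        Real.sqrt q * (q.totient * B))) = 1 / (q.totient : ℝ) * ‖∑ m ∈ Icc 1 N, f m‖ +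
      Real.sqrt q / (q.totient : ℝ) *
        ∑ p ∈ (PC q).filter (fun p => p.1 ∣ q ∧ p ≠ p0), G p +
      (1 / (q.totient : ℝ) * B + Real.sqrt q * B) := by
    field_simp
    ring
  have h13 : ∑ p ∈ (PC q).filter (fun p => p.1 ∣ q ∧ p ≠ p0),
        ‖∑ m ∈ Icc 1 N, (ArithmeticFunction.vonMangoldt m : ℂ) * p.2 (m : ZMod p.1) * e (m * z)‖ =
      ∑ p ∈ (PC q).filter (fun p => p.1 ∣ q ∧ p ≠ p0), G p := by
    refine sum_congr rfl fun p _ => ?_
    rw [hG, hf]
    simp only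
    congr 1
    refine sum_congr rfl fun m _ => ?_
    ring
  have h14 : ∑ m ∈ Icc 1 N, (ArithmeticFunction.vonMangoldt m : ℂ) * e (m * z) =
      ∑ m ∈ Icc 1 N, f m := by
    rw [hf]
  rw [h13, h14]
  have h15 : Real.sqrt q * B ≤ Real.sqrt q * (3 / 2 * Real.log N ^ 2) :=
    mul_le_mul_of_nonneg_left hBle (Real.sqrt_nonneg _)
  have h16 : 0 ≤ Real.sqrt q * Real.log N ^ 2 := by positivity
  nlinarith

open Classical in
/-- There are at most `φ(q)` primitive characters of conductor dividing `q`. -/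
theorem card_prim (q : ℕ) (hq : 1 ≤ q) :
    ((PC q).filter (fun p => p.1 ∣ q ∧ p ≠ p0)).card ≤ q.totient := by
  have hne : NeZero q := ⟨by omega⟩
  have h1 : (univ : Finset (DirichletCharacter ℂ q)).card = q.totient := by
    rw [card_univ, ← Nat.card_eq_fintype_card,
      DirichletCharacter.card_eq_totient_of_hasEnoughRootsOfUnity ℂ q]
  rw [← h1]
  refine card_le_card_of_injOn (Pool.Agent.Lib.H59C.BV1A_L q) (fun _ _ => mem_univ _) ?_
  intro p hp p' hp' h
  rw [mem_coe, mem_filter, Pool.Agent.Lib.H68T.mem_PC] at hp hp'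
  obtain ⟨⟨_, _, hprim⟩, hd, _⟩ := hp
  obtain ⟨⟨_, _, hprim'⟩, hd', _⟩ := hp'
  unfold Pool.Agent.Lib.H59C.BV1A_L at h
  rw [dif_pos hd, dif_pos hd'] at h
  obtain ⟨r, χ⟩ := p
  obtain ⟨r', χ'⟩ := p'
  simp only at hprim hprim' hd hd' h
  have hc : r = r' := by
    have h2 := DirichletCharacter.conductor_changeLevel χ hd
    have h3 := DirichletCharacter.conductor_changeLevel χ' hd'
    rw [h] at h2
    rw [DirichletCharacter.isPrimitive_def] at hprim hprim'
    rw [← hprim, ← hprim', ← h2, ← h3]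
  subst hc
  have := DirichletCharacter.changeLevel_injective hd h
  rw [this]

end Pool.Agent.Lib.H82OH
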