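import Pool.Agent.Lib.H82OH.N1
import Pool.Agent.Lib.H82OH.N3
import Pool.Agent.Lib.H82OH.N4
import Pool.Agent.Lib.H68T.CQ2

/-!
# Project H82OH, chunk N5: major arcs
-/

open Finset

namespace Pool.Agent.Lib.H82OH

open Pool.Agent.Lib.H68T (e PC p0)
open Pool.Agent.Lib.H59C (PCh psi)

/-- `q / φ(q)^2 → 0`. -/
theorem sqrt_div_totient (η : ℝ) (hη : 0 < η) : ∃ Q : ℕ, ∀ q : ℕ, Q ≤ q →
    Real.sqrt q / (q.totient : ℝ) ≤ η := by
  have hlim : Filter.Tendsto (fun x : ℝ => (3 / 2 * (1 + Real.log x)) / x ^ (1 / 2 : ℝ)) Filter.atTop (nhds 0) := by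
    have h1 : Filter.Tendsto (fun x : ℝ => Real.log x / x ^ (1 / 2 : ℝ)) Filter.atTop (nhds 0) :=
      (isLittleO_log_rpow_atTop (by norm_num : (0 : ℝ) < 1 / 2)).tendsto_div_nhds_zero
    have h2 : Filter.Tendsto (fun x : ℝ => 1 / x ^ (1 / 2 : ℝ)) Filter.atTop (nhds 0) := by
      have h3 := (tendsto_rpow_atTop (by norm_num : (0 : ℝ) < 1 / 2)).inv_tendsto_atTop
      refine h3.congr fun x => ?_
      simp only [Pi.inv_apply, one_div]
    have h4 := (h2.add h1).const_mul (3 / 2 : ℝ)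
    simp only [add_zero, mul_zero] at h4
    refine h4.congr fun x => ?_
    ring
  have hev := (hlim.comp (tendsto_natCast_atTop_atTop (R := ℝ))).eventually_le_const hη
  obtain ⟨Q, hQ⟩ := Filter.eventually_atTop.1 (hev.and (Filter.eventually_ge_atTop 1))
  refine ⟨Q, fun q hq => ?_⟩
  obtain ⟨h1, h2⟩ := hQ q hq
  have hq0 : 0 < q := h2
  have hq1 : (0 : ℝ) < q := by exact_mod_cast hq0
  have h3 := Pool.Agent.Lib.H68T.CQ2_ratio q hq0
  have hs : 0 < Real.sqrt q := Real.sqrt_pos.2 hq1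
  have hsq : Real.sqrt q * Real.sqrt q = q := Real.mul_self_sqrt hq1.le
  refine le_trans ?_ h1
  simp only [Function.comp_apply]
  rw [← Real.sqrt_eq_rpow]
  calc Real.sqrt q / (q.totient : ℝ) = Real.sqrt q * (1 / (q.totient : ℝ)) := by ring
    _ ≤ Real.sqrt q * (3 / 2 * (1 + Real.log q) / q) := mul_le_mul_of_nonneg_left h3 hs.le
    _ = 3 / 2 * (1 + Real.log q) / Real.sqrt q := by
      rw [eq_div_iff hs.ne', ← hsq]
      have : Real.sqrt q ≠ 0 := hs.ne'
      rw [hsq]
      field_simp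
      rw [pow_two, hsq]

private lemma N5_norm_e (x : ℝ) : ‖e x‖ = 1 := by
  have h : 2 * (Real.pi : ℂ) * (x : ℂ) * Complex.I = ((2 * Real.pi * x : ℝ) : ℂ) * Complex.I := by
    push_cast
    ring
  unfold Pool.Agent.Lib.H68T.e
  rw [h, Complex.norm_exp_ofReal_mul_I]

private lemma N5_e_zero : e 0 = 1 := by
  unfold Pool.Agent.Lib.H68T.e
  simp

private lemma N5_ev (A A' : ℕ) (c : ℝ) : ∃ N0 : ℕ, ∀ N : ℕ, N0 ≤ N →
    c ≤ Real.log N ∧ 1 ≤ Real.log N ∧ Real.log N ^ (2 * A') ≤ N ∧ Real.log N ^ A ≤ N ∧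
      c * Real.log N ^ (A + 2) ≤ N ∧ 2 ≤ N := by
  have hN : Filter.Tendsto (fun n : ℕ => (n : ℝ)) Filter.atTop Filter.atTop := tendsto_natCast_atTop_atTop
  have hl : Filter.Tendsto (fun n : ℕ => Real.log (n : ℝ)) Filter.atTop Filter.atTop :=
    Real.tendsto_log_atTop.comp hN
  have hpow : ∀ (k : ℕ) (d : ℝ), ∀ᶠ n : ℕ in Filter.atTop, d * Real.log n ^ k ≤ n := by
    intro k d
    have h1 := ((Real.isLittleO_pow_log_id_atTop (n := k)).comp_tendsto hN).def
      (c := 1 / (|d| + 1)) (by positivity)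
    filter_upwards [h1, hl.eventually_ge_atTop 0, Filter.eventually_ge_atTop 1] with n hn hn0 hn1
    simp only [Function.comp_apply, id_eq, norm_pow, Real.norm_eq_abs] at hn
    rw [abs_of_nonneg hn0, abs_of_nonneg (Nat.cast_nonneg n : (0 : ℝ) ≤ (n : ℝ))] at hn
    have h2 : d * Real.log n ^ k ≤ (|d| + 1) * Real.log n ^ k := by
      refine mul_le_mul_of_nonneg_right ?_ (by positivity)
      linarith [le_abs_self d]
    refine h2.trans ?_
    calc (|d| + 1) * Real.log n ^ k ≤ (|d| + 1) * (1 / (|d| + 1) * n) :=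
          mul_le_mul_of_nonneg_left hn (by positivity)
      _ = n := by field_simp
  obtain ⟨N0, h0⟩ := Filter.eventually_atTop.1
    ((hl.eventually_ge_atTop c).and ((hl.eventually_ge_atTop 1).and
      ((hpow (2 * A') 1).and ((hpow A 1).and ((hpow (A + 2) c).and (Filter.eventually_ge_atTop 2))))))
  refine ⟨N0, fun N h => ?_⟩
  obtain ⟨h1, h2, h3, h4, h5, h6⟩ := h0 N h
  rw [one_mul] at h3 h4
  exact ⟨h1, h2, h3, h4, h5, h6⟩

/-- trivial bound -/
private lemma N5_triv (N : ℕ) (p : PCh) (z : ℝ) :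
    ‖∑ m ∈ Icc 1 N, (ArithmeticFunction.vonMangoldt m : ℂ) * p.2 (m : ZMod p.1) * e (m * z)‖ ≤
      ∑ m ∈ Icc 1 N, ArithmeticFunction.vonMangoldt m := by
  refine (norm_sum_le _ _).trans (sum_le_sum fun m _ => ?_)
  rw [norm_mul, norm_mul, N5_norm_e, mul_one, Complex.norm_real, Real.norm_eq_abs,
    abs_of_nonneg ArithmeticFunction.vonMangoldt_nonneg]
  have h1 := DirichletCharacter.norm_le_one p.2 (m : ZMod p.1)
  have h2 : 0 ≤ ArithmeticFunction.vonMangoldt m := ArithmeticFunction.vonMangoldt_nonneg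
  calc ArithmeticFunction.vonMangoldt m * ‖p.2 (m : ZMod p.1)‖ ≤ ArithmeticFunction.vonMangoldt m * 1 :=
        mul_le_mul_of_nonneg_left h1 h2
    _ = ArithmeticFunction.vonMangoldt m := mul_one _

private lemma N5_psi_small (y : ℕ) (p : PCh) : ‖psi y p‖ ≤ (y : ℝ) ^ 2 := by
  have h1 := N5_triv y p 0
  have h2 : psi y p = ∑ m ∈ Icc 1 y, (ArithmeticFunction.vonMangoldt m : ℂ) * p.2 (m : ZMod p.1) *
      e (m * 0) := by
    unfold Pool.Agent.Lib.H59C.psi
    refine sum_congr rfl fun m _ => ?_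
    rw [mul_zero, N5_e_zero, mul_one]
  rw [h2]
  refine h1.trans ?_
  have h3 : ∀ m ∈ Icc 1 y, ArithmeticFunction.vonMangoldt m ≤ (y : ℝ) := by
    intro m hm
    obtain ⟨hm1, hm2⟩ := mem_Icc.1 hm
    have h4 : (m : ℝ) ≤ y := by exact_mod_cast hm2
    have h5 : (0 : ℝ) < m := by exact_mod_cast hm1
    have h6 := Real.log_le_sub_one_of_pos h5
    have h7 : ArithmeticFunction.vonMangoldt m ≤ Real.log m := ArithmeticFunction.vonMangoldt_le_log
    linarith
  refine (sum_le_sum h3).trans ?_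
  rw [sum_const, Nat.card_Icc, nsmul_eq_mul, Nat.add_sub_cancel, pow_two]

/-- The major arcs. Proof. `expand_char` (N4). Main term: `princ A` (N3), at most
`(1/φ(q)) (2 N / (1 + N |z|) + N / (log N)^A)`. The exceptional character `p'` (`sw_one (3 A + 2) r0`, N1) occurs only if
`r0 ≤ p'.1 ≤ q`; its sum is trivially at most `∑_{m ≤ N} Λ(m) ≤ 2 N` (or `Chebyshev.psi_le_const_mul_self`), so it contributes
at most `2 N √q/φ(q)`, small if `r0` is large (`sqrt_div_totient`). For the others `abel_twist` (N2) with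
`B = N / (log N)^(3 A + 2)` (for `y ≤ N^(1/10)` the trivial bound; `PC ⌊(log N)^A⌋ ⊆ PC ⌊(log N)^(3 A + 2)⌋`), at most
`φ(q)` of them (`card_prim`): together at most
`√q (1 + 2 π (log N)^A) N / (log N)^(3 A + 2) ≤ ε N / 8` for large `N`. Now if `q > Q` then `1/φ(q) ≤ √q/φ(q)` is small, and
if `q ≤ Q`, `|z| > Q / N` then `2 N / (1 + N |z|) ≤ 2 N / Q`. -/
theorem major_arc (ε : ℝ) (hε : 0 < ε) (A : ℕ) : ∃ Q N0 : ℕ, ∀ N : ℕ, N0 ≤ N → ∀ (q : ℕ) (a : ℤ) (z : ℝ),
    1 ≤ q → (q : ℝ) ≤ Real.log N ^ A → IsCoprime a (q : ℤ) → |z| ≤ Real.log N ^ A / N →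
    ‖∑ m ∈ Icc 1 N, (ArithmeticFunction.vonMangoldt m : ℂ) * e (m * (a / q + z))‖ ≤ ε * N ∨
      (q ≤ Q ∧ |z| ≤ Q / N) := by
  classical
  set η : ℝ := ε / 8 with hη
  have hη0 : 0 < η := by positivity
  obtain ⟨r0, hr0⟩ := sqrt_div_totient η hη0
  obtain ⟨n1, hn1⟩ := sw_one (3 * A + 2) r0
  obtain ⟨n2, hn2⟩ := princ (A + 1)
  obtain ⟨Q1, hQ1⟩ := exists_nat_ge (1 / η)
  obtain ⟨n3, hn3⟩ := N5_ev A (3 * A + 2) (8 / η)
  refine ⟨max r0 Q1, max n1 (max n2 n3), fun N hN q a z hq hqL ha hz => ?_⟩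
  obtain ⟨p', hp', hsw⟩ := hn1 N (le_trans (le_max_left _ _) hN)
  have hpr := hn2 N (le_trans (le_trans (le_max_left _ _) (le_max_right _ _)) hN)
  obtain ⟨hL1, hL, hL2, hLA, hL3, hN2⟩ := hn3 N (le_trans (le_trans (le_max_right _ _) (le_max_right _ _)) hN)
  set L : ℝ := Real.log N with hLdef
  have hL0 : 0 < L := by linarith
  have hN0 : (0 : ℝ) < N := by
    have : 0 < N := by omega
    exact_mod_cast this
  have hN1 : (1 : ℝ) ≤ N := by
    have : 1 ≤ N := by omega
    exact_mod_cast this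
  have hLA1 : 1 ≤ L ^ A := one_le_pow₀ hL
  have hqN : q ≤ N := by
    have : (q : ℝ) ≤ N := hqL.trans hLA
    exact_mod_cast this
  have hexp := expand_char N q a z hN2 hq hqN ha
  have htot1 : 1 ≤ q.totient := Nat.totient_pos.2 hq
  have htot : (1 : ℝ) ≤ q.totient := by exact_mod_cast htot1
  have htot0 : (0 : ℝ) < q.totient := by linarith
  have hq1 : (1 : ℝ) ≤ q := by exact_mod_cast hq
  have hsq1 : 1 ≤ Real.sqrt q := Real.one_le_sqrt.2 hq1
  have hsqq : Real.sqrt q ≤ q := by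
    calc Real.sqrt q = Real.sqrt q * 1 := (mul_one _).symm
      _ ≤ Real.sqrt q * Real.sqrt q := mul_le_mul_of_nonneg_left hsq1 (Real.sqrt_nonneg _)
      _ = q := Real.mul_self_sqrt (by linarith)
  have hsqL : Real.sqrt q ≤ L ^ A := hsqq.trans hqL
  have hzN : N * |z| ≤ L ^ A := by
    calc (N : ℝ) * |z| ≤ N * (L ^ A / N) := mul_le_mul_of_nonneg_left hz hN0.le
      _ = L ^ A := by field_simp
  have hz' : |z| ≤ L ^ (A + 1) / N := by
    refine hz.trans ?_
    refine div_le_div_of_nonneg_right ?_ hN0.le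
    rw [pow_succ]
    calc L ^ A = L ^ A * 1 := (mul_one _).symm
      _ ≤ L ^ A * L := mul_le_mul_of_nonneg_left hL (by positivity)
  have hinvL : N / L ^ (A + 1) ≤ η * N := by
    rw [div_le_iff₀ (by positivity)]
    have h1 : 8 / η ≤ L ^ (A + 1) := by
      refine hL1.trans ?_
      rw [pow_succ]
      calc L = 1 * L := (one_mul _).symm
        _ ≤ L ^ A * L := mul_le_mul_of_nonneg_right hLA1 hL0.le
    have h2 : 8 ≤ η * L ^ (A + 1) := by
      rw [div_le_iff₀ hη0] at h1
      linarith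
    calc (N : ℝ) ≤ 8 * N := by linarith
      _ ≤ (η * L ^ (A + 1)) * N := mul_le_mul_of_nonneg_right h2 hN0.le
      _ = η * N * L ^ (A + 1) := by ring
  -- the whole sum of Lambda
  have hLam : ∑ m ∈ Icc 1 N, ArithmeticFunction.vonMangoldt m ≤ 2 * N + η * N := by
    have h1 := hpr 0 (by rw [abs_zero]; positivity)
    have h2 : ∑ m ∈ Icc 1 N, (ArithmeticFunction.vonMangoldt m : ℂ) * e (m * 0) =
        ((∑ m ∈ Icc 1 N, ArithmeticFunction.vonMangoldt m : ℝ) : ℂ) := by
      rw [Complex.ofReal_sum]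
      refine sum_congr rfl fun m _ => ?_
      rw [mul_zero, N5_e_zero, mul_one]
    rw [h2, Complex.norm_real, Real.norm_eq_abs, abs_zero, mul_zero, add_zero, div_one] at h1
    exact ((le_abs_self _).trans h1).trans (by linarith)
  -- the non exceptional characters
  have hB0 : (0 : ℝ) < L ^ (3 * A + 2) := by positivity
  have hT : ∀ p ∈ (PC q).filter (fun p => p.1 ∣ q ∧ p ≠ p0), p ≠ p' →
      ‖∑ m ∈ Icc 1 N, (ArithmeticFunction.vonMangoldt m : ℂ) * p.2 (m : ZMod p.1) * e (m * z)‖ ≤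
        (8 * L ^ A) * (N / L ^ (3 * A + 2)) := by
    intro p hp hpp
    obtain ⟨hpPC, hpd, hp0⟩ := mem_filter.1 hp
    obtain ⟨hp1, hp2, hp3⟩ := Pool.Agent.Lib.H68T.mem_PC.1 hpPC
    have hpin : p ∈ PC ⌊L ^ (3 * A + 2)⌋₊ := by
      refine Pool.Agent.Lib.H68T.mem_PC.2 ⟨hp1, ?_, hp3⟩
      refine hp2.trans (Nat.le_floor ?_)
      refine hqL.trans (pow_le_pow_right₀ hL (by omega))
    have hab := abel_twist (fun m => (ArithmeticFunction.vonMangoldt m : ℂ) * p.2 (m : ZMod p.1)) N z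
      (N / L ^ (3 * A + 2)) (by
        intro y hy
        change ‖psi y p‖ ≤ _
        have hyN : (y : ℝ) ≤ N := by exact_mod_cast hy
        by_cases hbig : (N : ℝ) ^ (1 / 10 : ℝ) ≤ y
        · refine (hsw p hpin hp0 hpp y hbig (by linarith)).trans ?_
          exact div_le_div_of_nonneg_right hyN hB0.le
        · have h1 := N5_psi_small y p
          refine h1.trans ?_
          rw [le_div_iff₀ hB0]
          have h2 : (y : ℝ) ≤ (N : ℝ) ^ (1 / 10 : ℝ) := (not_le.1 hbig).le
          have h3 : (y : ℝ) ^ 2 ≤ Real.sqrt N := by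
            calc (y : ℝ) ^ 2 ≤ ((N : ℝ) ^ (1 / 10 : ℝ)) ^ 2 := pow_le_pow_left₀ (Nat.cast_nonneg y) h2 2
              _ = (N : ℝ) ^ (1 / 5 : ℝ) := by
                rw [← Real.rpow_natCast, ← Real.rpow_mul hN0.le]
                norm_num
              _ ≤ (N : ℝ) ^ (1 / 2 : ℝ) := Real.rpow_le_rpow_of_exponent_le hN1 (by norm_num)
              _ = Real.sqrt N := (Real.sqrt_eq_rpow _).symm
          have h4 : L ^ (3 * A + 2) ≤ Real.sqrt N := by
            refine Real.le_sqrt_of_sq_le ?_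
            rw [← pow_mul, mul_comm (3 * A + 2) 2]
            exact hL2
          calc (y : ℝ) ^ 2 * L ^ (3 * A + 2) ≤ Real.sqrt N * Real.sqrt N :=
                mul_le_mul h3 h4 hB0.le (Real.sqrt_nonneg _)
            _ = N := Real.mul_self_sqrt hN0.le)
    refine hab.trans ?_
    refine mul_le_mul_of_nonneg_right ?_ (by positivity)
    have h5 : 2 * Real.pi * |z| * N ≤ 7 * L ^ A := by
      have h6 : 2 * Real.pi ≤ 7 := by linarith [Real.pi_lt_d2]
      calc 2 * Real.pi * |z| * N = (2 * Real.pi) * (N * |z|) := by ring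
        _ ≤ 7 * L ^ A := mul_le_mul h6 hzN (by positivity) (by norm_num)
    linarith
  have hcard := card_prim q hq
  set F := (PC q).filter (fun p => p.1 ∣ q ∧ p ≠ p0) with hF
  set T : PCh → ℝ := fun p => ‖∑ m ∈ Icc 1 N, (ArithmeticFunction.vonMangoldt m : ℂ) *
    p.2 (m : ZMod p.1) * e (m * z)‖ with hTdef
  have hT0 : ∀ p, 0 ≤ T p := fun p => norm_nonneg _
  have hsum : Real.sqrt q / (q.totient : ℝ) * ∑ p ∈ F, T p ≤ η * N + η * (2 * N + η * N) := by
    have hsplit : ∑ p ∈ F, T p ≤ ∑ p ∈ F.filter (fun p => p ≠ p'), T p +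
        ∑ p ∈ F.filter (fun p => ¬ p ≠ p'), T p :=
      (sum_filter_add_sum_filter_not F (fun p => p ≠ p') T).ge
    have hA : Real.sqrt q / (q.totient : ℝ) * ∑ p ∈ F.filter (fun p => p ≠ p'), T p ≤ η * N := by
      have h1 : ∑ p ∈ F.filter (fun p => p ≠ p'), T p ≤
          (q.totient : ℝ) * ((8 * L ^ A) * (N / L ^ (3 * A + 2))) := by
        calc ∑ p ∈ F.filter (fun p => p ≠ p'), T p
            ≤ ∑ p ∈ F.filter (fun p => p ≠ p'), (8 * L ^ A) * (N / L ^ (3 * A + 2)) :=
              sum_le_sum fun p hp => hT p (mem_filter.1 hp).1 (mem_filter.1 hp).2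
          _ = ((F.filter (fun p => p ≠ p')).card : ℝ) * ((8 * L ^ A) * (N / L ^ (3 * A + 2))) := by
              rw [sum_const, nsmul_eq_mul]
          _ ≤ (q.totient : ℝ) * ((8 * L ^ A) * (N / L ^ (3 * A + 2))) := by
              refine mul_le_mul_of_nonneg_right ?_ (by positivity)
              exact_mod_cast (card_filter_le _ _).trans hcard
      have h2 : Real.sqrt q / (q.totient : ℝ) * ((q.totient : ℝ) * ((8 * L ^ A) * (N / L ^ (3 * A + 2)))) =
          Real.sqrt q * ((8 * L ^ A) * (N / L ^ (3 * A + 2))) := by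
        field_simp
      calc _ ≤ Real.sqrt q / (q.totient : ℝ) * ((q.totient : ℝ) * ((8 * L ^ A) * (N / L ^ (3 * A + 2)))) :=
            mul_le_mul_of_nonneg_left h1 (by positivity)
        _ = Real.sqrt q * ((8 * L ^ A) * (N / L ^ (3 * A + 2))) := h2
        _ ≤ L ^ A * ((8 * L ^ A) * (N / L ^ (3 * A + 2))) :=
            mul_le_mul_of_nonneg_right hsqL (by positivity)
        _ = 8 * L ^ (2 * A) * N / L ^ (3 * A + 2) := by
            rw [two_mul, pow_add]
            ring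
        _ ≤ η * N := by
            rw [div_le_iff₀ hB0]
            have h3 : 8 * L ^ (2 * A) ≤ η * L ^ (3 * A + 2) := by
              have h4 : 8 ≤ η * L := by
                rw [div_le_iff₀ hη0] at hL1
                linarith
              have h5 : L ^ (2 * A) * L ≤ L ^ (3 * A + 2) := by
                rw [← pow_succ]
                exact pow_le_pow_right₀ hL (by omega)
              calc 8 * L ^ (2 * A) ≤ (η * L) * L ^ (2 * A) := mul_le_mul_of_nonneg_right h4 (by positivity)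
                _ = η * (L ^ (2 * A) * L) := by ring
                _ ≤ η * L ^ (3 * A + 2) := mul_le_mul_of_nonneg_left h5 hη0.le
            calc 8 * L ^ (2 * A) * N ≤ (η * L ^ (3 * A + 2)) * N := mul_le_mul_of_nonneg_right h3 hN0.le
              _ = η * N * L ^ (3 * A + 2) := by ring
    have hBx : Real.sqrt q / (q.totient : ℝ) * ∑ p ∈ F.filter (fun p => ¬ p ≠ p'), T p ≤
        η * (2 * N + η * N) := by
      by_cases hmem : p' ∈ F
      · have h1 : F.filter (fun p => ¬ p ≠ p') = {p'} := by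
          ext p
          simp only [mem_filter, ne_eq, not_not, mem_singleton]
          constructor
          · exact fun h => h.2
          · intro h
            rw [h]
            exact ⟨hmem, rfl⟩
        rw [h1, sum_singleton]
        have h2 : p'.1 ∣ q := (mem_filter.1 hmem).2.1
        have h3 : r0 ≤ q := hp'.trans (Nat.le_of_dvd hq h2)
        exact mul_le_mul (hr0 q h3) ((N5_triv N p' z).trans hLam) (hT0 p') hη0.le
      · have h1 : F.filter (fun p => ¬ p ≠ p') = ∅ := by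
          rw [filter_eq_empty_iff]
          intro p hp hpp
          rw [not_not] at hpp
          rw [hpp] at hp
          exact hmem hp
        rw [h1, sum_empty, mul_zero]
        positivity
    calc _ ≤ Real.sqrt q / (q.totient : ℝ) * (∑ p ∈ F.filter (fun p => p ≠ p'), T p +
          ∑ p ∈ F.filter (fun p => ¬ p ≠ p'), T p) := mul_le_mul_of_nonneg_left hsplit (by positivity)
      _ = _ := mul_add _ _ _
      _ ≤ _ := add_le_add hA hBx
  have hlast : 8 * Real.sqrt q * L ^ 2 ≤ η * N := by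
    have h1 : 8 / η * L ^ (A + 2) ≤ N := hL3
    have h2 : 8 * L ^ (A + 2) ≤ η * N := by
      rw [div_mul_eq_mul_div, div_le_iff₀ hη0] at h1
      linarith
    refine le_trans ?_ h2
    rw [pow_add]
    calc 8 * Real.sqrt q * L ^ 2 = Real.sqrt q * (8 * L ^ 2) := by ring
      _ ≤ L ^ A * (8 * L ^ 2) := mul_le_mul_of_nonneg_right hsqL (by positivity)
      _ = 8 * (L ^ A * L ^ 2) := by ring
  by_cases hcase : q ≤ max r0 Q1 ∧ |z| ≤ ((max r0 Q1 : ℕ) : ℝ) / N
  · exact Or.inr hcase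
  left
  have hP := hpr z hz'
  have hinv1 : 1 / (q.totient : ℝ) ≤ 1 := by
    rw [div_le_one htot0]
    exact htot
  have hden : (1 : ℝ) ≤ 1 + N * |z| := by
    have : 0 ≤ (N : ℝ) * |z| := by positivity
    linarith
  have hmain : 1 / (q.totient : ℝ) * (2 * (N / (1 + N * |z|))) ≤ 2 * (η * N) := by
    rw [not_and_or] at hcase
    rcases hcase with h | h
    · have h1 : r0 ≤ q := (le_max_left _ _).trans (not_le.1 h).le
      have h2 : 1 / (q.totient : ℝ) ≤ η := by
        refine le_trans ?_ (hr0 q h1)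
        exact div_le_div_of_nonneg_right hsq1 htot0.le
      have h3 : (N : ℝ) / (1 + N * |z|) ≤ N := div_le_self hN0.le hden
      calc 1 / (q.totient : ℝ) * (2 * (N / (1 + N * |z|))) ≤ η * (2 * N) :=
            mul_le_mul h2 (by linarith) (by positivity) hη0.le
        _ = 2 * (η * N) := by ring
    · have h1 : ((max r0 Q1 : ℕ) : ℝ) < N * |z| := by
        have h2 := not_le.1 h
        rw [div_lt_iff₀ hN0] at h2
        linarith
      have h2 : 1 / η ≤ N * |z| := by
        have h3 : (Q1 : ℝ) ≤ ((max r0 Q1 : ℕ) : ℝ) := by exact_mod_cast le_max_right _ _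
        linarith
      have h4 : (N : ℝ) / (1 + N * |z|) ≤ η * N := by
        rw [div_le_iff₀ (by linarith)]
        have h5 : 1 ≤ η * (1 + N * |z|) := by
          rw [div_le_iff₀ hη0] at h2
          nlinarith [hη0]
        calc (N : ℝ) = 1 * N := (one_mul _).symm
          _ ≤ (η * (1 + N * |z|)) * N := mul_le_mul_of_nonneg_right h5 hN0.le
          _ = η * N * (1 + N * |z|) := by ring
      calc 1 / (q.totient : ℝ) * (2 * (N / (1 + N * |z|))) ≤ 1 * (2 * (N / (1 + N * |z|))) :=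
            mul_le_mul_of_nonneg_right hinv1 (by positivity)
        _ ≤ 2 * (η * N) := by linarith
  have hPP : 1 / (q.totient : ℝ) *
      ‖∑ m ∈ Icc 1 N, (ArithmeticFunction.vonMangoldt m : ℂ) * e (m * z)‖ ≤ 3 * (η * N) := by
    calc _ ≤ 1 / (q.totient : ℝ) * (2 * (N / (1 + N * |z|)) + N / L ^ (A + 1)) :=
          mul_le_mul_of_nonneg_left hP (by positivity)
      _ = 1 / (q.totient : ℝ) * (2 * (N / (1 + N * |z|))) + 1 / (q.totient : ℝ) * (N / L ^ (A + 1)) :=
          mul_add _ _ _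
      _ ≤ 2 * (η * N) + 1 * (η * N) :=
          add_le_add hmain (mul_le_mul hinv1 hinvL (by positivity) (by norm_num))
      _ = 3 * (η * N) := by ring
  have hfin : ‖∑ m ∈ Icc 1 N, (ArithmeticFunction.vonMangoldt m : ℂ) * e (m * (a / q + z))‖ ≤
      3 * (η * N) + (η * N + η * (2 * N + η * N)) + η * N :=
    hexp.trans (add_le_add (add_le_add hPP hsum) hlast)
  by_cases hη1 : η ≤ 1
  · refine hfin.trans ?_
    have h1 : η * (2 * N + η * N) ≤ 3 * (η * N) := by
      have h2 : η * N ≤ N := by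
        calc η * N ≤ 1 * N := mul_le_mul_of_nonneg_right hη1 hN0.le
          _ = N := one_mul _
      have h3 : η * (η * N) ≤ η * N := mul_le_mul_of_nonneg_left h2 hη0.le
      calc η * (2 * N + η * N) = 2 * (η * N) + η * (η * N) := by ring
        _ ≤ 3 * (η * N) := by linarith
    have h4 : ε * N = 8 * (η * N) := by
      rw [hη]
      ring
    rw [h4]
    linarith
  · have hη1' : 1 < η := not_le.1 hη1
    -- trivial bound
    have h1 : ‖∑ m ∈ Icc 1 N, (ArithmeticFunction.vonMangoldt m : ℂ) * e (m * (a / q + z))‖ ≤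
        2 * N + η * N := by
      refine le_trans ?_ hLam
      refine (norm_sum_le _ _).trans (sum_le_sum fun m _ => ?_)
      rw [norm_mul, N5_norm_e, mul_one, Complex.norm_real, Real.norm_eq_abs,
        abs_of_nonneg ArithmeticFunction.vonMangoldt_nonneg]
    refine h1.trans ?_
    have h4 : ε * N = 8 * (η * N) := by
      rw [hη]
      ring
    rw [h4]
    have h5 : N ≤ η * N := by
      calc (N : ℝ) = 1 * N := (one_mul _).symm
        _ ≤ η * N := mul_le_mul_of_nonneg_right hη1'.le hN0.le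
    linarith

end Pool.Agent.Lib.H82OH
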