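import Pool.Agent.Lib.H82OH.N5
import Pool.Agent.Lib.H68T.VA

/-!
# Project H82OH, chunk N6: exponential sums with the von Mangoldt function
-/

open Finset

namespace Pool.Agent.Lib.H82OH

open Pool.Agent.Lib.H68T (e)

private theorem n6_ev (C ε : ℝ) (hε : 0 < ε) : ∃ N2 : ℕ, ∀ N : ℕ, N2 ≤ N →
    2 ≤ N ∧ 1 ≤ Real.log N ∧ Real.log N ^ 30 ≤ N ∧ C * 2 ^ 12 ≤ ε / 2 * Real.log N ^ 5 ∧
      C * 2 ^ 11 * Real.log N ^ 10 ≤ ε / 2 * (N : ℝ) ^ (1 / 5 : ℝ) := by
  have hcast : Filter.Tendsto (fun N : ℕ => (N : ℝ)) Filter.atTop Filter.atTop :=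
    tendsto_natCast_atTop_atTop
  have hL : Filter.Tendsto (fun N : ℕ => Real.log N) Filter.atTop Filter.atTop :=
    Real.tendsto_log_atTop.comp hcast
  have h1 : ∀ᶠ N : ℕ in Filter.atTop, 2 ≤ N := Filter.eventually_ge_atTop 2
  have h2 : ∀ᶠ N : ℕ in Filter.atTop, 1 ≤ Real.log N := hL.eventually_ge_atTop 1
  have h3 : ∀ᶠ N : ℕ in Filter.atTop, Real.log N ^ 30 ≤ N := by
    have h := (Real.isLittleO_pow_log_id_atTop (n := 30)).bound (c := 1) one_pos
    have h' := hcast.eventually h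
    filter_upwards [h', h2] with N hN hN2
    simp only [id, one_mul, norm_pow, Real.norm_eq_abs] at hN
    rw [abs_of_nonneg (by linarith : (0 : ℝ) ≤ Real.log N),
      abs_of_nonneg (Nat.cast_nonneg N)] at hN
    exact hN
  have h4 : ∀ᶠ N : ℕ in Filter.atTop, C * 2 ^ 12 ≤ ε / 2 * Real.log N ^ 5 := by
    have h5 : Filter.Tendsto (fun N : ℕ => ε / 2 * Real.log N ^ 5) Filter.atTop Filter.atTop :=
      Filter.Tendsto.const_mul_atTop (by positivity)
        ((Filter.tendsto_pow_atTop (by norm_num)).comp hL)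
    exact h5.eventually_ge_atTop _
  have h6 : ∀ᶠ N : ℕ in Filter.atTop,
      C * 2 ^ 11 * Real.log N ^ 10 ≤ ε / 2 * (N : ℝ) ^ (1 / 5 : ℝ) := by
    have hc : 0 < ε / 2 / (|C| * 2 ^ 11 + 1) := by positivity
    have h := (isLittleO_log_rpow_rpow_atTop (s := 1 / 5) (10 : ℝ) (by norm_num)).bound hc
    have h' := hcast.eventually h
    filter_upwards [h', h2] with N hN hN2
    have hl0 : 0 ≤ Real.log N := by linarith
    have e1 : Real.log (N : ℝ) ^ (10 : ℝ) = Real.log N ^ (10 : ℕ) := by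
      rw [← Real.rpow_natCast]
      norm_num
    rw [e1, Real.norm_of_nonneg (by positivity : 0 ≤ Real.log (N : ℝ) ^ 10),
      Real.norm_of_nonneg (by positivity : 0 ≤ (N : ℝ) ^ (1 / 5 : ℝ))] at hN
    have h7 : C * 2 ^ 11 * Real.log N ^ 10 ≤ (|C| * 2 ^ 11 + 1) * Real.log N ^ 10 := by
      apply mul_le_mul_of_nonneg_right _ (by positivity)
      have := le_abs_self C
      linarith
    refine h7.trans ?_
    calc (|C| * 2 ^ 11 + 1) * Real.log N ^ 10
        ≤ (|C| * 2 ^ 11 + 1) * (ε / 2 / (|C| * 2 ^ 11 + 1) * (N : ℝ) ^ (1 / 5 : ℝ)) :=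
          mul_le_mul_of_nonneg_left hN (by positivity)
      _ = ε / 2 * (N : ℝ) ^ (1 / 5 : ℝ) := by
          field_simp
  obtain ⟨N2, hN2⟩ := Filter.eventually_atTop.mp
    (h1.and (h2.and (h3.and (h4.and h6))))
  exact ⟨N2, hN2⟩

/-- Proof. Let `A = 30`, `L = log N`. Dirichlet's theorem (`Real.exists_rat_abs_sub_le_and_den_le` or
`Real.exists_int_int_abs_mul_sub_le`) gives `q ≤ N / L^A` and a coprime `a` with `|y - a/q| ≤ L^A / (q N) ≤ 1/q^2`.
If `q > L^A`: `vaughan` (`H68T/VA.lean`; `Ico 1 (N+1)`, apply it with `v = N + 1 ≤ 2 N` and its `N := 2 N`):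
`C (2N/√q + (2N)^(4/5) + √(2 N q)) (log 2N)^10 ≤ C' N L^(10 - A/2) ≤ ε N` for large `N`. If `q ≤ L^A`: `major_arc`. -/
theorem lambda_sum (ε : ℝ) (hε : 0 < ε) : ∃ Q N0 : ℕ, ∀ N : ℕ, N0 ≤ N → ∀ y : ℝ,
    ‖∑ m ∈ Icc 1 N, (ArithmeticFunction.vonMangoldt m : ℂ) * e (m * y)‖ ≤ ε * N ∨
      ∃ (q : ℕ) (a : ℤ), 1 ≤ q ∧ q ≤ Q ∧ |y - a / q| ≤ Q / N := by
  obtain ⟨C, hC, hv⟩ := Pool.Agent.Lib.H68T.vaughan
  obtain ⟨Q, N1, hmaj⟩ := major_arc ε hε 30
  obtain ⟨N2, hN2⟩ := n6_ev C ε hε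
  refine ⟨Q, max N1 N2, fun N hN y => ?_⟩
  have hNN1 : N1 ≤ N := (le_max_left _ _).trans hN
  obtain ⟨hN2', hL1, hL30, hc5, hc10⟩ := hN2 N ((le_max_right _ _).trans hN)
  have hL0 : 0 < Real.log N := by linarith
  have hLp : 0 < Real.log N ^ 30 := by positivity
  have hN0 : (0 : ℝ) < N := by exact_mod_cast (by omega : 0 < N)
  obtain ⟨n, hn⟩ : ∃ n : ℕ, n = ⌊(N : ℝ) / Real.log N ^ 30⌋₊ := ⟨_, rfl⟩
  have hn1 : 0 < n := by
    rw [hn, Nat.floor_pos, one_le_div hLp]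
    exact hL30
  have hnle : (n : ℝ) ≤ (N : ℝ) / Real.log N ^ 30 := by
    rw [hn]
    exact Nat.floor_le (by positivity)
  have hnlt : (N : ℝ) / Real.log N ^ 30 < n + 1 := by
    rw [hn]
    exact Nat.lt_floor_add_one _
  obtain ⟨r, hr, hrn⟩ := Real.exists_rat_abs_sub_le_and_den_le y hn1
  have hq1 : 1 ≤ r.den := r.pos
  have hqr : (1 : ℝ) ≤ r.den := by exact_mod_cast hq1
  have hq0 : (0 : ℝ) < r.den := by linarith
  have hcop : IsCoprime r.num (r.den : ℤ) := by
    rw [Int.isCoprime_iff_gcd_eq_one]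
    have := r.reduced
    unfold Nat.Coprime at this
    rw [Int.gcd, Int.natAbs_natCast]
    exact this
  have hrr : (r : ℝ) = r.num / r.den := Rat.cast_def r
  rw [hrr] at hr
  have hqn : (r.den : ℝ) ≤ (N : ℝ) / Real.log N ^ 30 :=
    (by exact_mod_cast hrn : (r.den : ℝ) ≤ n).trans hnle
  have hz : |y - r.num / r.den| ≤ Real.log N ^ 30 / N / r.den := by
    refine hr.trans ?_
    rw [one_div, mul_inv, div_eq_mul_inv _ (r.den : ℝ)]
    apply mul_le_mul_of_nonneg_right _ (by positivity)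
    rw [inv_le_comm₀ (by positivity) (by positivity), inv_div]
    exact hnlt.le
  by_cases hcase : (r.den : ℝ) ≤ Real.log N ^ 30
  · have hz' : |y - r.num / r.den| ≤ Real.log N ^ 30 / N := by
      refine hz.trans (div_le_self (by positivity) hqr)
    have h := hmaj N hNN1 r.den r.num (y - r.num / r.den) hq1 hcase hcop hz'
    have e1 : ∀ m : ℕ, (m : ℝ) * ((r.num : ℝ) / r.den + (y - r.num / r.den)) = m * y := by
      intro m
      ring
    simp only [e1] at h
    rcases h with h | ⟨h, h'⟩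
    · exact Or.inl h
    · exact Or.inr ⟨r.den, r.num, hq1, h, h'⟩
  · left
    rw [not_le] at hcase
    have hqN : r.den ≤ N := by
      have : (r.den : ℝ) ≤ N := hqn.trans (div_le_self hN0.le (by
        exact one_le_pow₀ hL1))
      exact_mod_cast this
    have hθ : |y - r.num / r.den| ≤ 1 / (r.den : ℝ) ^ 2 := by
      refine hz.trans ?_
      have h1 : (r.den : ℝ) * Real.log N ^ 30 ≤ N := by
        rw [le_div_iff₀ hLp] at hqn
        exact hqn
      rw [div_le_div_iff₀ hq0 (by positivity), one_mul]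
      have e2 : Real.log N ^ 30 / (N : ℝ) * (r.den : ℝ) ^ 2 =
          (r.den : ℝ) * Real.log N ^ 30 / N * r.den := by ring
      rw [e2]
      calc (r.den : ℝ) * Real.log N ^ 30 / N * r.den ≤ 1 * r.den := by
            apply mul_le_mul_of_nonneg_right _ hq0.le
            rw [div_le_one hN0]
            exact h1
        _ = r.den := one_mul _
    have hI : Icc 1 N = Ico 1 (N + 1) := by
      ext m
      rw [mem_Icc, mem_Ico]
      omega
    rw [hI]
    have h := hv y r.den r.num hq1 hcop hθ (2 * N) 1 (N + 1) (by omega) (by omega) (by omega)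
    refine h.trans ?_
    have hcast : ((2 * N : ℕ) : ℝ) = 2 * N := by push_cast; ring
    rw [hcast]
    obtain ⟨L, hLdef⟩ : ∃ L : ℝ, L = Real.log N := ⟨_, rfl⟩
    rw [← hLdef] at hL1 hL30 hc5 hc10 hL0 hLp hqn hcase
    have hlog2 : Real.log (2 * N) ≤ 2 * L := by
      rw [Real.log_mul (by norm_num) hN0.ne', ← hLdef]
      have : Real.log 2 ≤ L := by
        rw [hLdef]
        apply Real.log_le_log (by norm_num)
        exact_mod_cast hN2'
      linarith
    have hlog0 : 0 ≤ Real.log (2 * N) := by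
      apply Real.log_nonneg
      have : (2 : ℝ) ≤ N := by exact_mod_cast hN2'
      linarith
    have hlog10 : Real.log (2 * N) ^ 10 ≤ 2 ^ 10 * L ^ 10 := by
      calc Real.log (2 * N) ^ 10 ≤ (2 * L) ^ 10 := pow_le_pow_left₀ hlog0 hlog2 10
        _ = _ := by ring
    have hs15 : L ^ 15 ≤ Real.sqrt r.den := by
      apply Real.le_sqrt_of_sq_le
      have : (L ^ 15) ^ 2 = L ^ 30 := by ring
      rw [this]
      exact hcase.le
    have t1 : 2 * (N : ℝ) / Real.sqrt r.den ≤ 2 * N / L ^ 15 :=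
      div_le_div_of_nonneg_left (by positivity) (by positivity) hs15
    have t2 : (2 * (N : ℝ)) ^ (4 / 5 : ℝ) ≤ 2 * (N : ℝ) ^ (4 / 5 : ℝ) := by
      rw [Real.mul_rpow (by norm_num) hN0.le]
      apply mul_le_mul_of_nonneg_right _ (by positivity)
      calc (2 : ℝ) ^ (4 / 5 : ℝ) ≤ 2 ^ (1 : ℝ) :=
            Real.rpow_le_rpow_of_exponent_le (by norm_num) (by norm_num)
        _ = 2 := Real.rpow_one 2
    have t3 : Real.sqrt (2 * N * r.den) ≤ 2 * N / L ^ 15 := by
      rw [Real.sqrt_le_left (by positivity)]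
      have e3 : (2 * (N : ℝ) / L ^ 15) ^ 2 = 4 * N * (N / L ^ 30) := by
        field_simp
        ring
      rw [e3]
      calc 2 * (N : ℝ) * r.den ≤ 2 * N * (N / L ^ 30) :=
            mul_le_mul_of_nonneg_left hqn (by positivity)
        _ ≤ 4 * N * (N / L ^ 30) := by
            apply mul_le_mul_of_nonneg_right _ (by positivity)
            linarith
    have hNsplit : (N : ℝ) = (N : ℝ) ^ (4 / 5 : ℝ) * (N : ℝ) ^ (1 / 5 : ℝ) := by
      rw [← Real.rpow_add hN0]
      norm_num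
    have hP0 : 0 < (N : ℝ) ^ (4 / 5 : ℝ) := by positivity
    calc C * (2 * (N : ℝ) / Real.sqrt r.den + (2 * (N : ℝ)) ^ (4 / 5 : ℝ) +
          Real.sqrt (2 * N * r.den)) * Real.log (2 * N) ^ 10
        ≤ C * (2 * N / L ^ 15 + 2 * (N : ℝ) ^ (4 / 5 : ℝ) + 2 * N / L ^ 15) *
          (2 ^ 10 * L ^ 10) := by
          apply mul_le_mul _ hlog10 (by positivity) (by positivity)
          apply mul_le_mul_of_nonneg_left _ hC.le
          linarith
      _ = (C * 2 ^ 12) * (N / L ^ 5) + (C * 2 ^ 11 * L ^ 10) * (N : ℝ) ^ (4 / 5 : ℝ) := by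
          field_simp
          ring
      _ ≤ (ε / 2 * L ^ 5) * (N / L ^ 5) +
          (ε / 2 * (N : ℝ) ^ (1 / 5 : ℝ)) * (N : ℝ) ^ (4 / 5 : ℝ) := by
          apply add_le_add
          · exact mul_le_mul_of_nonneg_right hc5 (by positivity)
          · exact mul_le_mul_of_nonneg_right hc10 hP0.le
      _ = ε / 2 * N + ε / 2 * ((N : ℝ) ^ (4 / 5 : ℝ) * (N : ℝ) ^ (1 / 5 : ℝ)) := by
          field_simp
      _ = ε * N := by
          rw [← hNsplit]
          ring

end Pool.Agent.Lib.H82OH
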