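import Pool.Agent.Lib.H82OH.N6
import Pool.Agent.Lib.H82OH.N7

/-!
# Project H82OH, chunk N8: exponential sums over the primes of a dyadic block
-/

open Finset

namespace Pool.Agent.Lib.H82OH

open Pool.Agent.Lib.H68T (e)

private theorem n8_norm_e (x : ℝ) : ‖e x‖ = 1 := by
  have h : 2 * (Real.pi : ℂ) * (x : ℂ) * Complex.I = ((2 * Real.pi * x : ℝ) : ℂ) * Complex.I := by
    push_cast
    ring
  unfold Pool.Agent.Lib.H68T.e
  rw [h, Complex.norm_exp_ofReal_mul_I]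

private theorem n8_ev (δ : ℝ) (hδ : 0 < δ) : ∃ k0 : ℕ, ∀ k : ℕ, k0 ≤ k →
    1 ≤ k ∧ 1 ≤ δ * k ∧
      2 * Real.sqrt ((2 : ℝ) ^ (k + 1)) * Real.log ((2 : ℝ) ^ (k + 1)) ≤ δ * 2 ^ k := by
  have hr1 : (1 : ℝ) < Real.sqrt 2 := by
    rw [Real.lt_sqrt (by norm_num)]
    norm_num
  have hr0 : (0 : ℝ) < Real.sqrt 2 := by linarith
  have ht := tendsto_pow_const_div_const_pow_of_one_lt 1 hr1
  have hc : (0 : ℝ) < δ / (8 * Real.sqrt 2) := by positivity
  obtain ⟨k1, hk1⟩ := Metric.tendsto_atTop.1 ht _ hc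
  obtain ⟨k2, hk2⟩ := exists_nat_gt (1 / δ)
  refine ⟨max (max k1 k2) 1, fun k hk => ?_⟩
  have h1 : k1 ≤ k := le_trans (le_trans (le_max_left _ _) (le_max_left _ _)) hk
  have h2 : k2 ≤ k := le_trans (le_trans (le_max_right _ _) (le_max_left _ _)) hk
  have h3 : 1 ≤ k := le_trans (le_max_right _ _) hk
  have h2' : (k2 : ℝ) ≤ k := by exact_mod_cast h2
  have h3' : (1 : ℝ) ≤ k := by exact_mod_cast h3
  refine ⟨h3, ?_, ?_⟩
  · have : 1 / δ ≤ k := by linarith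
    rw [div_le_iff₀ hδ] at this
    linarith
  have a := hk1 k h1
  rw [Real.dist_eq, sub_zero, pow_one, abs_of_nonneg (by positivity)] at a
  have hp : (0 : ℝ) < Real.sqrt 2 ^ k := by positivity
  rw [div_lt_iff₀ hp] at a
  have hX : (2 : ℝ) ^ k = Real.sqrt 2 ^ k * Real.sqrt 2 ^ k := by
    rw [← mul_pow, Real.mul_self_sqrt (by norm_num)]
  have hs : Real.sqrt ((2 : ℝ) ^ (k + 1)) = Real.sqrt 2 * Real.sqrt 2 ^ k := by
    rw [pow_succ, hX]
    have e1 : Real.sqrt 2 ^ k * Real.sqrt 2 ^ k * (2 : ℝ) =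
        (Real.sqrt 2 * Real.sqrt 2 ^ k) ^ 2 := by
      have e2 : (Real.sqrt 2) ^ 2 = (2 : ℝ) := Real.sq_sqrt (by norm_num)
      rw [mul_pow, e2]
      ring
    rw [e1, Real.sqrt_sq (by positivity)]
  have hl : Real.log ((2 : ℝ) ^ (k + 1)) ≤ 2 * k := by
    rw [Real.log_pow]
    have hL := Real.log_two_lt_d9
    have hL0 : 0 < Real.log 2 := Real.log_pos (by norm_num)
    push_cast
    nlinarith
  rw [hs, hX]
  calc 2 * (Real.sqrt 2 * Real.sqrt 2 ^ k) * Real.log ((2 : ℝ) ^ (k + 1))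
      ≤ 2 * (Real.sqrt 2 * Real.sqrt 2 ^ k) * (2 * k) :=
        mul_le_mul_of_nonneg_left hl (by positivity)
    _ = (4 * Real.sqrt 2 * Real.sqrt 2 ^ k) * k := by ring
    _ ≤ (4 * Real.sqrt 2 * Real.sqrt 2 ^ k) * (δ / (8 * Real.sqrt 2) * Real.sqrt 2 ^ k) :=
        mul_le_mul_of_nonneg_left a.le (by positivity)
    _ = δ / 2 * (Real.sqrt 2 ^ k * Real.sqrt 2 ^ k) := by
        field_simp
        ring
    _ ≤ δ * (Real.sqrt 2 ^ k * Real.sqrt 2 ^ k) := by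
        apply mul_le_mul_of_nonneg_right _ (by positivity)
        linarith

private theorem n8_pp (k : ℕ) (y : ℝ) :
    ‖∑ m ∈ (Ioc (2 ^ k) (2 ^ (k + 1))).filter (fun m : ℕ => ¬ m.Prime),
      (ArithmeticFunction.vonMangoldt m : ℂ) * e (m * y)‖ ≤
      2 * Real.sqrt ((2 : ℝ) ^ (k + 1)) * Real.log ((2 : ℝ) ^ (k + 1)) := by
  have h1 : (1 : ℝ) ≤ (2 : ℝ) ^ (k + 1) := one_le_pow₀ (by norm_num)
  refine le_trans ?_ (Chebyshev.psi_sub_theta_le h1)
  rw [Chebyshev.psi_sub_theta_eq_sum_not_prime]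
  refine (norm_sum_le _ _).trans ?_
  have e1 : ⌊(2 : ℝ) ^ (k + 1)⌋₊ = 2 ^ (k + 1) := by
    have : ((2 : ℝ) ^ (k + 1)) = ((2 ^ (k + 1) : ℕ) : ℝ) := by push_cast; rfl
    rw [this, Nat.floor_natCast]
  rw [e1]
  have h2 : ∀ m ∈ (Ioc (2 ^ k) (2 ^ (k + 1))).filter (fun m : ℕ => ¬ m.Prime),
      ‖(ArithmeticFunction.vonMangoldt m : ℂ) * e (m * y)‖ ≤
        ArithmeticFunction.vonMangoldt m := by
    intro m _
    rw [norm_mul, n8_norm_e, mul_one, Complex.norm_real, Real.norm_of_nonneg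
      ArithmeticFunction.vonMangoldt_nonneg]
  refine (sum_le_sum h2).trans ?_
  apply sum_le_sum_of_subset_of_nonneg
  · apply filter_subset_filter
    exact Ioc_subset_Ioc_left (Nat.zero_le _)
  · intro m _ _
    exact ArithmeticFunction.vonMangoldt_nonneg

private theorem n8_split (k : ℕ) (f : ℕ → ℂ) :
    ∑ m ∈ Icc 1 (2 ^ (k + 1)), f m - ∑ m ∈ Icc 1 (2 ^ k), f m =
      ∑ p ∈ PB k, f p + ∑ m ∈ (Ioc (2 ^ k) (2 ^ (k + 1))).filter (fun m : ℕ => ¬ m.Prime), f m := by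
  have h1 : ∀ n : ℕ, Icc 1 n = Ioc 0 n := by
    intro n
    ext m
    rw [mem_Icc, mem_Ioc]
    omega
  have h2 : (2 : ℕ) ^ k ≤ 2 ^ (k + 1) := Nat.pow_le_pow_right (by norm_num) (Nat.le_succ k)
  have h3 := sum_Ioc_consecutive f (Nat.zero_le (2 ^ k)) h2
  unfold PB
  rw [h1, h1, sum_filter_add_sum_filter_not, ← h3]
  ring

/-- Proof. If `y` is not near a rational number with small denominator, `lambda_sum` (N6) with `ε' = ε / 16` for
`N = 2^(k+1)` and `N = 2^k` gives `‖∑_{2^k < m ≤ 2^(k+1)} Λ(m) e(m y)‖ ≤ 3 ε' 2^k`. The prime powers `m` with exponent `≥ 2` contribute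
at most `2 √(2^(k+1)) (k + 1)`-like (`Chebyshev.abs_psi_sub_theta_le_sqrt_mul_log`), and for `p ∈ PB k`
`|log p - k log 2| ≤ log 2`, so `k log 2 ‖∑_{p ∈ PB k} e(p y)‖ ≤ 3 ε' 2^k + ε' 2^k + log 2 |PB k|`; finally
`2^k ≤ 2 k log 2 |PB k|` (`card_PB`). -/
theorem exp_sum (ε : ℝ) (hε : 0 < ε) : ∃ Q k0 : ℕ, ∀ k : ℕ, k0 ≤ k → ∀ y : ℝ,
    ‖∑ p ∈ PB k, e (p * y)‖ ≤ ε * (PB k).card ∨
      ∃ (q : ℕ) (a : ℤ), 1 ≤ q ∧ q ≤ Q ∧ |y - a / q| ≤ Q / 2 ^ k := by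
  obtain ⟨Q, N0, hQ⟩ := lambda_sum (ε / 16) (by linarith)
  obtain ⟨k1, hk1⟩ := n8_ev (ε / 16) (by linarith)
  obtain ⟨k2, hk2⟩ := card_PB (1 / 2) (by norm_num)
  refine ⟨Q, max N0 (max k1 k2), fun k hk y => ?_⟩
  have hkN : N0 ≤ k := le_trans (le_max_left _ _) hk
  obtain ⟨c1, c2, c3⟩ := hk1 k (le_trans (le_trans (le_max_left _ _) (le_max_right _ _)) hk)
  have c4 := (abs_le.1 (hk2 k (le_trans (le_trans (le_max_right _ _) (le_max_right _ _)) hk))).1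
  have hlt : k < 2 ^ k := Nat.lt_two_pow_self
  have hle : (2 : ℕ) ^ k ≤ 2 ^ (k + 1) := Nat.pow_le_pow_right (by norm_num) (Nat.le_succ k)
  have hX0 : (0 : ℝ) < 2 ^ k := by positivity
  have hX2 : (2 : ℝ) ^ (k + 1) = 2 * 2 ^ k := by rw [pow_succ]; ring
  rcases hQ (2 ^ (k + 1)) (by omega) y with h1 | ⟨q, a, hq1, hq2, hq3⟩
  swap
  · right
    refine ⟨q, a, hq1, hq2, hq3.trans ?_⟩
    push_cast
    rw [hX2]
    exact div_le_div_of_nonneg_left (Nat.cast_nonneg _) hX0 (by linarith)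
  rcases hQ (2 ^ k) (by omega) y with h2 | ⟨q, a, hq1, hq2, hq3⟩
  swap
  · right
    refine ⟨q, a, hq1, hq2, hq3.trans ?_⟩
    push_cast
    exact le_rfl
  left
  push_cast at h1 h2
  rw [hX2] at h1
  have hsp := n8_split k (fun m : ℕ => (ArithmeticFunction.vonMangoldt m : ℂ) * e (m * y))
  have hpp := n8_pp k y
  have hL0 : 0 < Real.log 2 := Real.log_pos (by norm_num)
  have hk1' : (1 : ℝ) ≤ k := by exact_mod_cast c1
  have hkL : 0 < (k : ℝ) * Real.log 2 := by positivity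
  -- the primes
  have hlogp : ∀ p ∈ PB k, ‖((k * Real.log 2 : ℝ) : ℂ) * e (p * y) -
      (ArithmeticFunction.vonMangoldt p : ℂ) * e (p * y)‖ ≤ Real.log 2 := by
    intro p hp
    obtain ⟨⟨hp1, hp2⟩, hp3⟩ := mem_PB.1 hp
    have hp0 : (0 : ℝ) < p := by exact_mod_cast hp3.pos
    rw [← sub_mul, norm_mul, n8_norm_e, mul_one,
      ArithmeticFunction.vonMangoldt_apply_prime hp3, ← Complex.ofReal_sub, Complex.norm_real,
      Real.norm_eq_abs, abs_le]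
    have h3 : (k : ℝ) * Real.log 2 ≤ Real.log p := by
      rw [← Real.log_pow]
      apply Real.log_le_log hX0
      exact_mod_cast hp1.le
    have h4 : Real.log p ≤ ((k : ℝ) + 1) * Real.log 2 := by
      have h5 : Real.log p ≤ Real.log ((2 : ℝ) ^ (k + 1)) := by
        apply Real.log_le_log hp0
        exact_mod_cast hp2
      rw [Real.log_pow] at h5
      push_cast at h5
      exact h5
    constructor
    · linarith
    · linarith
  have hdiff : ‖∑ p ∈ PB k, (((k * Real.log 2 : ℝ) : ℂ) * e (p * y) -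
      (ArithmeticFunction.vonMangoldt p : ℂ) * e (p * y))‖ ≤ (PB k).card * Real.log 2 := by
    refine (norm_sum_le_of_le _ hlogp).trans ?_
    rw [sum_const, nsmul_eq_mul]
  rw [sum_sub_distrib, ← mul_sum] at hdiff
  set T : ℂ := ∑ p ∈ PB k, e (p * y) with hT
  set R : ℂ := ∑ p ∈ PB k, (ArithmeticFunction.vonMangoldt p : ℂ) * e (p * y) with hR
  set W : ℂ := ∑ m ∈ (Ioc (2 ^ k) (2 ^ (k + 1))).filter (fun m : ℕ => ¬ m.Prime),
    (ArithmeticFunction.vonMangoldt m : ℂ) * e (m * y) with hW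
  have hR1 : ‖R‖ ≤ ε / 16 * (2 * 2 ^ k) + ε / 16 * 2 ^ k + ε / 16 * 2 ^ k := by
    have e1 : R = (∑ m ∈ Icc 1 (2 ^ (k + 1)), (ArithmeticFunction.vonMangoldt m : ℂ) * e (m * y) -
        ∑ m ∈ Icc 1 (2 ^ k), (ArithmeticFunction.vonMangoldt m : ℂ) * e (m * y)) - W := by
      rw [hsp]
      ring
    rw [e1]
    refine (norm_sub_le _ _).trans (add_le_add ((norm_sub_le _ _).trans (add_le_add h1 h2)) ?_)
    exact hpp.trans c3
  have hkT : (k * Real.log 2) * ‖T‖ ≤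
      ε / 16 * (2 * 2 ^ k) + ε / 16 * 2 ^ k + ε / 16 * 2 ^ k + (PB k).card * Real.log 2 := by
    have e1 : ‖((k * Real.log 2 : ℝ) : ℂ) * T‖ = (k * Real.log 2) * ‖T‖ := by
      rw [norm_mul, Complex.norm_real, Real.norm_of_nonneg hkL.le]
    rw [← e1]
    have e2 : ((k * Real.log 2 : ℝ) : ℂ) * T = R + (((k * Real.log 2 : ℝ) : ℂ) * T - R) := by ring
    rw [e2]
    exact (norm_add_le _ _).trans (add_le_add hR1 hdiff)
  have hN0 : (0 : ℝ) ≤ ((PB k).card : ℝ) := Nat.cast_nonneg _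
  have hXN : (2 : ℝ) ^ k ≤ 2 * (((PB k).card : ℝ) * (k * Real.log 2)) := by linarith
  have hlast : ((PB k).card : ℝ) * Real.log 2 ≤ ε / 16 * (((PB k).card : ℝ) * (k * Real.log 2)) := by
    have e1 : 0 ≤ ((PB k).card : ℝ) * Real.log 2 := by positivity
    calc ((PB k).card : ℝ) * Real.log 2 = 1 * (((PB k).card : ℝ) * Real.log 2) := by ring
      _ ≤ (ε / 16 * k) * (((PB k).card : ℝ) * Real.log 2) := mul_le_mul_of_nonneg_right c2 e1
      _ = _ := by ring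
  have hfin : (k * Real.log 2) * ‖T‖ ≤ (k * Real.log 2) * (ε * (PB k).card) := by
    have e1 : ε / 16 * 2 ^ k ≤ ε / 16 * (2 * (((PB k).card : ℝ) * (k * Real.log 2))) :=
      mul_le_mul_of_nonneg_left hXN (by linarith)
    have e2 : 0 ≤ ε * (((PB k).card : ℝ) * (k * Real.log 2)) := by positivity
    calc (k * Real.log 2) * ‖T‖ ≤ ε / 16 * (2 * 2 ^ k) + ε / 16 * 2 ^ k + ε / 16 * 2 ^ k +
          (PB k).card * Real.log 2 := hkT
      _ = 4 * (ε / 16 * 2 ^ k) + (PB k).card * Real.log 2 := by ring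
      _ ≤ 4 * (ε / 16 * (2 * (((PB k).card : ℝ) * (k * Real.log 2)))) +
          ε / 16 * (((PB k).card : ℝ) * (k * Real.log 2)) := by linarith
      _ = 9 / 16 * (ε * (((PB k).card : ℝ) * (k * Real.log 2))) := by ring
      _ ≤ ε * (((PB k).card : ℝ) * (k * Real.log 2)) := by linarith
      _ = (k * Real.log 2) * (ε * (PB k).card) := by ring
  exact le_of_mul_le_mul_left hfin hkL

end Pool.Agent.Lib.H82OH
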