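import Pool.Agent.Lib.H82OH.N8

/-!
# Project H82OH, chunk N9: the powers of the roots of a fixed number
-/

open Finset

namespace Pool.Agent.Lib.H82OH

open Pool.Agent.Lib.H68T (e)

private theorem N9_eq (x : ℝ) : e x = Complex.exp (Complex.I * ((2 * Real.pi * x : ℝ) : ℂ)) := by
  unfold e
  congr 1
  push_cast
  ring

private theorem N9_norm (x : ℝ) : ‖e x‖ = 1 := by
  rw [N9_eq, mul_comm]
  exact Complex.norm_exp_ofReal_mul_I _

private theorem N9_add (x y : ℝ) : e (x + y) = e x * e y := by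
  unfold e
  rw [← Complex.exp_add]
  congr 1
  push_cast
  ring

private theorem N9_zero : e 0 = 1 := by
  unfold e
  simp

private theorem N9_int (n : ℤ) : e (n : ℝ) = 1 := by
  unfold e
  rw [Complex.exp_eq_one_iff]
  exact ⟨n, by push_cast; ring⟩

private theorem N9_neg (x : ℝ) : e (-x) = (starRingEnd ℂ) (e x) := by
  unfold e
  rw [← Complex.exp_conj]
  congr 1
  simp only [map_mul, Complex.conj_ofReal, Complex.conj_I, Complex.ofReal_neg]
  rw [show (starRingEnd ℂ) (2 : ℂ) = 2 from map_ofNat _ 2]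
  ring

private theorem N9_pow (x : ℝ) (n : ℕ) : e x ^ n = e (n * x) := by
  induction n with
  | zero => simp [N9_zero]
  | succ n ih =>
    rw [pow_succ, ih, ← N9_add]
    congr 1
    push_cast
    ring

private theorem N9_up (x : ℝ) : ‖e x - 1‖ ≤ 2 * Real.pi * |x| := by
  rw [N9_eq]
  refine (Real.norm_exp_I_mul_ofReal_sub_one_le).trans ?_
  rw [Real.norm_eq_abs, abs_mul, abs_of_pos (by positivity)]

private theorem N9_low (x : ℝ) (hx : |x| ≤ 1 / 2) : 4 * |x| ≤ ‖e x - 1‖ := by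
  rw [N9_eq, Complex.norm_exp_I_mul_ofReal_sub_one]
  have h1 : (2 * Real.pi * x) / 2 = Real.pi * x := by ring
  rw [h1, norm_mul, Real.norm_eq_abs, Real.norm_eq_abs, abs_of_pos (by norm_num : (0 : ℝ) < 2)]
  have h2 : |Real.sin (Real.pi * x)| = |Real.sin (Real.pi * |x|)| := by
    rcases abs_cases x with h | h
    · rw [h.1]
    · rw [h.1, mul_neg, Real.sin_neg, abs_neg]
  rw [h2]
  have h3 : 0 ≤ Real.pi * |x| := by positivity
  have h4 : Real.pi * |x| ≤ Real.pi / 2 := by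
    nlinarith [Real.pi_pos]
  have h5 := Real.mul_le_sin h3 h4
  have h6 : 2 / Real.pi * (Real.pi * |x|) = 2 * |x| := by
    have := Real.pi_ne_zero
    field_simp
  rw [h6] at h5
  have h7 : Real.sin (Real.pi * |x|) ≤ |Real.sin (Real.pi * |x|)| := le_abs_self _
  linarith

/-- distance to the nearest integer -/
private theorem N9_near (x : ℝ) : 4 * |x - round x| ≤ ‖e x - 1‖ := by
  have h1 : e x = e (x - round x) := by
    have : x = (x - round x) + ((round x : ℤ) : ℝ) := by ring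
    conv_lhs => rw [this]
    rw [N9_add, N9_int, mul_one]
  rw [h1]
  exact N9_low _ (abs_sub_round x)

private theorem N9_powsub (z : ℂ) (hz : ‖z‖ = 1) (n : ℕ) : ‖z ^ n - 1‖ ≤ n * ‖z - 1‖ := by
  induction n with
  | zero => simp
  | succ n ih =>
    have h1 : z ^ (n + 1) - 1 = z ^ n * (z - 1) + (z ^ n - 1) := by ring
    rw [h1]
    refine (norm_add_le _ _).trans ?_
    rw [norm_mul, norm_pow, hz, one_pow, one_mul]
    push_cast
    linarith

/-- Fejér's kernel. Proof. `K(x) = ∑_{|m| ≤ M} (1 - |m|/(M+1)) e(m x) = |∑_{j ≤ M} e(j x)|^2 / (M + 1) ≥ 0`, and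
`K(x) ≥ (M + 1)/2` if `‖e(x) - 1‖ ≤ η'` with `η'` small. So the number of `p ∈ P` with `‖e(p y) - 1‖ ≤ η'` is at most
`(2/(M+1)) ∑_{p ∈ P} K(p y) ≤ (2/(M+1)) (|P| + 2 ∑_{m=1}^M ‖∑_{p ∈ P} e(m p y)‖)`. -/
theorem fejer_count (M : ℕ) : ∃ η' : ℝ, 0 < η' ∧ ∀ (P : Finset ℕ) (y : ℝ),
    ((P.filter (fun p : ℕ => ‖e (p * y) - 1‖ ≤ η')).card : ℝ) ≤
      2 / (M + 1) * (P.card + 2 * ∑ m ∈ Icc 1 M, ‖∑ p ∈ P, e (p * (m * y))‖) := by
  have hM : (0 : ℝ) < M + 1 := by positivity
  refine ⟨1 / (4 * (M + 1)), by positivity, ?_⟩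
  intro P y
  obtain ⟨F, hF⟩ : ∃ F : ℕ → ℂ, F = fun p : ℕ => ∑ j ∈ range (M + 1), e (p * (j * y)) := ⟨_, rfl⟩
  obtain ⟨S, hS⟩ : ∃ S : ℕ → ℝ, S = fun m : ℕ => ‖∑ p ∈ P, e (p * (m * y))‖ := ⟨_, rfl⟩
  have hS0 : ∀ m, 0 ≤ S m := by
    intro m
    rw [hS]
    exact norm_nonneg _
  have hSz : S 0 = P.card := by
    rw [hS]
    simp [N9_zero]
  -- lower bound of the kernel
  have hlow : ∀ p : ℕ, ‖e (p * y) - 1‖ ≤ 1 / (4 * (M + 1)) → (M + 1 : ℝ) ^ 2 / 2 ≤ ‖F p‖ ^ 2 := by
    intro p hp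
    have h1 : ‖F p - (M + 1)‖ ≤ (M + 1) / 4 := by
      have h2 : F p - (M + 1) = ∑ j ∈ range (M + 1), (e (p * (j * y)) - 1) := by
        rw [Finset.sum_sub_distrib, hF]
        simp
      rw [h2]
      refine (norm_sum_le _ _).trans ?_
      have h3 : ∀ j ∈ range (M + 1), ‖e (p * (j * y)) - 1‖ ≤ 1 / 4 := by
        intro j hj
        have h4 : e (p * (j * y)) = e (p * y) ^ j := by
          rw [N9_pow]
          congr 1
          ring
        rw [h4]
        refine (N9_powsub _ (N9_norm _) j).trans ?_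
        have h5 : (j : ℝ) ≤ M + 1 := by
          have := Finset.mem_range.1 hj
          exact_mod_cast this.le
        calc (j : ℝ) * ‖e (p * y) - 1‖ ≤ (M + 1) * (1 / (4 * (M + 1))) :=
              mul_le_mul h5 hp (norm_nonneg _) hM.le
          _ = 1 / 4 := by field_simp
      refine (Finset.sum_le_sum h3).trans ?_
      rw [Finset.sum_const, Finset.card_range, nsmul_eq_mul]
      push_cast
      linarith
    have h6 : (M + 1 : ℝ) - (M + 1) / 4 ≤ ‖F p‖ := by
      have h7 : ‖((M : ℂ) + 1)‖ = M + 1 := by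
        have : ((M : ℂ) + 1) = ((M + 1 : ℝ) : ℂ) := by push_cast; ring
        rw [this, Complex.norm_real, Real.norm_eq_abs, abs_of_pos hM]
      have h8 : ‖((M : ℂ) + 1)‖ - ‖F p‖ ≤ ‖((M : ℂ) + 1) - F p‖ := norm_sub_norm_le _ _
      rw [norm_sub_rev, h7] at h8
      linarith
    nlinarith
  -- upper bound of the sum of the kernel
  have hup : ∑ p ∈ P, ‖F p‖ ^ 2 ≤ (M + 1) * (P.card + 2 * ∑ m ∈ Icc 1 M, S m) := by
    have h1 : ((∑ p ∈ P, ‖F p‖ ^ 2 : ℝ) : ℂ) =
        ∑ i ∈ range (M + 1), ∑ j ∈ range (M + 1), ∑ p ∈ P, e (p * (((i : ℝ) - j) * y)) := by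
      push_cast
      have h2 : ∀ p ∈ P, ((‖F p‖ : ℂ)) ^ 2 =
          ∑ i ∈ range (M + 1), ∑ j ∈ range (M + 1), e (p * (((i : ℝ) - j) * y)) := by
        intro p _
        have h3 : ((‖F p‖ : ℂ)) ^ 2 = F p * (starRingEnd ℂ) (F p) := by
          rw [Complex.mul_conj, Complex.normSq_eq_norm_sq]
          push_cast
          ring
        rw [h3, hF]
        simp only []
        rw [map_sum, Finset.sum_mul_sum]
        refine Finset.sum_congr rfl fun i _ => Finset.sum_congr rfl fun j _ => ?_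
        rw [← N9_neg, ← N9_add]
        congr 1
        ring
      rw [Finset.sum_congr rfl h2, Finset.sum_comm]
      refine Finset.sum_congr rfl fun i _ => ?_
      rw [Finset.sum_comm]
    have h4 : ∑ p ∈ P, ‖F p‖ ^ 2 ≤
        ∑ i ∈ range (M + 1), ∑ j ∈ range (M + 1), ‖∑ p ∈ P, e (p * (((i : ℝ) - j) * y))‖ := by
      have h5 : ∑ p ∈ P, ‖F p‖ ^ 2 = ‖((∑ p ∈ P, ‖F p‖ ^ 2 : ℝ) : ℂ)‖ := by
        rw [Complex.norm_real, Real.norm_eq_abs, abs_of_nonneg]
        exact Finset.sum_nonneg fun p _ => by positivity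
      rw [h5, h1]
      refine (norm_sum_le _ _).trans (Finset.sum_le_sum fun i _ => norm_sum_le _ _)
    refine h4.trans ?_
    have h6 : ∀ i ∈ range (M + 1),
        ∑ j ∈ range (M + 1), ‖∑ p ∈ P, e (p * (((i : ℝ) - j) * y))‖ ≤
          P.card + 2 * ∑ m ∈ Icc 1 M, S m := by
      intro i hi
      have hi' : i < M + 1 := Finset.mem_range.1 hi
      have h7 : range (M + 1) = range (i + 1) ∪ Ico (i + 1) (M + 1) := by
        ext j
        simp only [Finset.mem_range, Finset.mem_union, Finset.mem_Ico]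
        omega
      have h8 : Disjoint (range (i + 1)) (Ico (i + 1) (M + 1)) := by
        rw [Finset.disjoint_left]
        intro j h1 h2
        rw [Finset.mem_range] at h1
        rw [Finset.mem_Ico] at h2
        omega
      rw [h7, Finset.sum_union h8]
      have h9 : ∑ j ∈ range (i + 1), ‖∑ p ∈ P, e (p * (((i : ℝ) - j) * y))‖ ≤
          P.card + ∑ m ∈ Icc 1 M, S m := by
        have h10 : ∀ j ∈ range (i + 1), ‖∑ p ∈ P, e (p * (((i : ℝ) - j) * y))‖ = S (i - j) := by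
          intro j hj
          have : j ≤ i := by
            have := Finset.mem_range.1 hj
            omega
          rw [hS]
          simp only []
          rw [Nat.cast_sub this]
        rw [Finset.sum_congr rfl h10]
        have h11 : ∑ j ∈ range (i + 1), S (i - j) = ∑ j ∈ range (i + 1), S j := by
          have := Finset.sum_range_reflect S (i + 1)
          rw [← this]
          refine Finset.sum_congr rfl fun j hj => ?_
          congr 1
        rw [h11, Finset.sum_range_succ', hSz, add_comm]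
        gcongr
        have h12 : ∑ k ∈ range i, S (k + 1) = ∑ m ∈ Ico 1 (i + 1), S m := by
          rw [Finset.sum_Ico_eq_sum_range]
          refine Finset.sum_congr rfl fun k _ => ?_
          rw [add_comm]
        rw [h12]
        refine Finset.sum_le_sum_of_subset_of_nonneg ?_ fun m _ _ => hS0 m
        intro m hm
        rw [Finset.mem_Ico] at hm
        rw [Finset.mem_Icc]
        omega
      have h13 : ∑ j ∈ Ico (i + 1) (M + 1), ‖∑ p ∈ P, e (p * (((i : ℝ) - j) * y))‖ ≤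
          ∑ m ∈ Icc 1 M, S m := by
        have h14 : ∀ j ∈ Ico (i + 1) (M + 1),
            ‖∑ p ∈ P, e (p * (((i : ℝ) - j) * y))‖ = S (j - i) := by
          intro j hj
          have : i ≤ j := by
            have := Finset.mem_Ico.1 hj
            omega
          rw [hS]
          simp only []
          rw [Nat.cast_sub this]
          have h15 : ∑ p ∈ P, e (p * (((i : ℝ) - j) * y)) =
              (starRingEnd ℂ) (∑ p ∈ P, e (p * (((j : ℝ) - i) * y))) := by
            rw [map_sum]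
            refine Finset.sum_congr rfl fun p _ => ?_
            rw [← N9_neg]
            congr 1
            ring
          rw [h15, RCLike.norm_conj]
        rw [Finset.sum_congr rfl h14]
        rw [Finset.sum_Ico_eq_sum_range]
        have h16 : ∀ k ∈ range (M + 1 - (i + 1)), S (i + 1 + k - i) = S (1 + k) := by
          intro k _
          congr 1
          omega
        rw [Finset.sum_congr rfl h16]
        have h17 : ∑ k ∈ range (M + 1 - (i + 1)), S (1 + k) = ∑ m ∈ Ico 1 (M + 1 - i), S m := by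
          rw [Finset.sum_Ico_eq_sum_range]
          have : M + 1 - (i + 1) = M + 1 - i - 1 := by omega
          rw [this]
        rw [h17]
        refine Finset.sum_le_sum_of_subset_of_nonneg ?_ fun m _ _ => hS0 m
        intro m hm
        rw [Finset.mem_Ico] at hm
        rw [Finset.mem_Icc]
        omega
      linarith
    refine (Finset.sum_le_sum h6).trans ?_
    rw [Finset.sum_const, Finset.card_range, nsmul_eq_mul]
    push_cast
    exact le_refl _
  have hfin : ((P.filter (fun p : ℕ => ‖e (p * y) - 1‖ ≤ 1 / (4 * (M + 1)))).card : ℝ) *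
      ((M + 1 : ℝ) ^ 2 / 2) ≤ (M + 1) * (P.card + 2 * ∑ m ∈ Icc 1 M, S m) := by
    refine le_trans ?_ hup
    rw [← nsmul_eq_mul, ← Finset.sum_const]
    refine (Finset.sum_le_sum (g := fun p => ‖F p‖ ^ 2) ?_).trans
      (Finset.sum_le_sum_of_subset_of_nonneg (Finset.filter_subset _ _) fun p _ _ => by positivity)
    intro p hp
    exact hlow p (Finset.mem_filter.1 hp).2
  have hS' : ∑ m ∈ Icc 1 M, ‖∑ p ∈ P, e (p * (m * y))‖ = ∑ m ∈ Icc 1 M, S m := by
    rw [hS]
  rw [hS', div_mul_eq_mul_div, le_div_iff₀ hM]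
  have h20 : ((P.filter (fun p : ℕ => ‖e (p * y) - 1‖ ≤ 1 / (4 * (M + 1)))).card : ℝ) *
      (M + 1) * (M + 1) ≤ (2 * (P.card + 2 * ∑ m ∈ Icc 1 M, S m)) * (M + 1) := by
    nlinarith
  exact le_of_mul_le_mul_right h20 hM

private theorem N9_tau (e₀ : ℂ) (h0 : ∀ n : ℕ, 1 ≤ n → e₀ ^ n ≠ 1) (J : ℕ) :
    ∃ τ : ℝ, 0 < τ ∧ ∀ j : ℕ, 1 ≤ j → j ≤ J → τ ≤ ‖e₀ ^ j - 1‖ := by
  induction J with
  | zero => exact ⟨1, one_pos, fun j h1 h2 => by omega⟩
  | succ J ih =>
    obtain ⟨τ, hτ, h⟩ := ih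
    have h1 : 0 < ‖e₀ ^ (J + 1) - 1‖ := norm_pos_iff.2 (sub_ne_zero.2 (h0 _ (by omega)))
    refine ⟨min τ ‖e₀ ^ (J + 1) - 1‖, lt_min hτ h1, fun j h2 h3 => ?_⟩
    rcases Nat.lt_or_ge j (J + 1) with h4 | h4
    · exact (min_le_left _ _).trans (h j h2 (by omega))
    · have : j = J + 1 := by omega
      rw [this]
      exact min_le_right _ _

/-- The main number theoretic statement. Let `e₀` have modulus `1` and be no root of unity. For every `η > 0`
there is `η' > 0` such that for large `k`, every `s ∈ PB k` and every `z` with `z^s = e₀` at most `η |PB k|` of the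
`r ∈ PB k` satisfy `‖z^r - 1‖ ≤ η'`.

Proof. `z = e(y)`. Choose `M` with `2/(M+1) ≤ η/4`, `η'` from `fejer_count M`. Let `Q, k0` be as in `exp_sum (1/(4 (M + 1)))`. If
`‖∑_{p ∈ PB k} e(p m y)‖ ≤ |PB k| / (4 (M+1))` for all `1 ≤ m ≤ M`, then the number is at most
`(2/(M+1)) |PB k| (1 + 1/2) ≤ η |PB k|`. Otherwise there are `1 ≤ m ≤ M`, `1 ≤ q ≤ Q`, `a` with `m y = a/q + w`, `|w| ≤ Q/2^k`. Let
`J = Q M` and `τ = min_{1 ≤ j ≤ J} ‖e₀^j - 1‖ > 0`. `e(q w s) = e(q m y s) = e₀^(q m)`, so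
`τ ≤ ‖e(q w s) - 1‖ ≤ 2 π q |w| s` and `|w| ≥ τ/(2 π Q 2^(k+1))`. If `‖z^r - 1‖ ≤ η'` then
`‖e(q w r) - 1‖ = ‖z^(r q m) - 1‖ ≤ J η'`, so there is an integer `j` with `|q w r - j| ≤ J η'` (for `J η' ≤ 1`; `‖e(x) - 1‖ ≥ 4 ‖x‖`),
`|j| ≤ 2 Q^2 + 1`, and `|r - j/(q w)| ≤ J η'/(q |w|) ≤ C η' 2^k` with `C` depending on `J, τ, Q` only. By `short_PB` (with
`η/(4 Q^2 + 4)` in place of `ε`; decrease `η'`) each `j` gives at most `η |PB k| / (4 Q^2 + 4)` of the `r`. -/
theorem root_count (e₀ : ℂ) (h1 : ‖e₀‖ = 1) (h0 : ∀ n : ℕ, 1 ≤ n → e₀ ^ n ≠ 1) (η : ℝ) (hη : 0 < η) :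
    ∃ (η' : ℝ) (k0 : ℕ), 0 < η' ∧ ∀ k : ℕ, k0 ≤ k → ∀ s ∈ PB k, ∀ z : ℂ, ‖z‖ = 1 → z ^ s = e₀ →
      (((PB k).filter (fun r : ℕ => ‖z ^ r - 1‖ ≤ η')).card : ℝ) ≤ η * (PB k).card := by
  obtain ⟨M, hM⟩ : ∃ M : ℕ, 3 / η ≤ M + 1 := by
    obtain ⟨M, hM⟩ := exists_nat_ge (3 / η)
    exact ⟨M, by linarith⟩
  have hM1 : (0 : ℝ) < M + 1 := by positivity
  obtain ⟨ηF, hηF, hF⟩ := fejer_count M
  obtain ⟨Q, k1, hE⟩ := exp_sum (1 / (4 * (M + 1))) (by positivity)
  obtain ⟨τ, hτ, hτ'⟩ := N9_tau e₀ h0 (Q * M)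
  obtain ⟨ηS, k2, hηS, hSh⟩ := short_PB (η / (4 * Q ^ 2 + 3)) (by positivity)
  -- the choice of eta'
  obtain ⟨η', hη', hle1, hle2, hle3⟩ : ∃ η' : ℝ, 0 < η' ∧ η' ≤ ηF ∧ (Q * M : ℝ) * η' ≤ 4 ∧
      (Q * M : ℝ) * η' * Real.pi / τ ≤ ηS := by
    refine ⟨min ηF (min (4 / (Q * M + 1)) (ηS * τ / (Real.pi * (Q * M + 1)))), ?_, ?_, ?_, ?_⟩
    · refine lt_min hηF (lt_min (by positivity) (by positivity))
    · exact min_le_left _ _
    · have h2 : min ηF (min (4 / (Q * M + 1)) (ηS * τ / (Real.pi * (Q * M + 1)))) ≤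
          (4 : ℝ) / (Q * M + 1) := (min_le_right _ _).trans (min_le_left _ _)
      have h3 : (Q * M : ℝ) * min ηF (min (4 / (Q * M + 1)) (ηS * τ / (Real.pi * (Q * M + 1)))) ≤
          (Q * M + 1) * (4 / (Q * M + 1)) := by
        refine mul_le_mul (by linarith) h2 ?_ (by positivity)
        exact (lt_min hηF (lt_min (by positivity) (by positivity))).le
      refine h3.trans (le_of_eq ?_)
      field_simp
    · have h2 : min ηF (min (4 / (Q * M + 1)) (ηS * τ / (Real.pi * (Q * M + 1)))) ≤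
          ηS * τ / (Real.pi * (Q * M + 1)) := (min_le_right _ _).trans (min_le_right _ _)
      rw [div_le_iff₀ hτ]
      have h3 : (Q * M : ℝ) * min ηF (min (4 / (Q * M + 1)) (ηS * τ / (Real.pi * (Q * M + 1)))) ≤
          (Q * M + 1) * (ηS * τ / (Real.pi * (Q * M + 1))) := by
        refine mul_le_mul (by linarith) h2 ?_ (by positivity)
        exact (lt_min hηF (lt_min (by positivity) (by positivity))).le
      refine (mul_le_mul_of_nonneg_right h3 Real.pi_pos.le).trans (le_of_eq ?_)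
      have := Real.pi_ne_zero
      field_simp
  refine ⟨η', max k1 k2, hη', ?_⟩
  intro k hk s hs z hz hzs
  have hk1 : k1 ≤ k := (le_max_left _ _).trans hk
  have hk2 : k2 ≤ k := (le_max_right _ _).trans hk
  -- z = e(y)
  obtain ⟨y, hy⟩ : ∃ y : ℝ, z = e y := by
    refine ⟨z.arg / (2 * Real.pi), ?_⟩
    have h2 : z = Complex.exp (z.arg * Complex.I) := by
      have := Complex.norm_mul_exp_arg_mul_I z
      rw [hz, Complex.ofReal_one, one_mul] at this
      exact this.symm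
    conv_lhs => rw [h2]
    unfold e
    congr 1
    push_cast
    have := Real.pi_ne_zero
    have h3 : (Real.pi : ℂ) ≠ 0 := by exact_mod_cast this
    field_simp
  have hzpow : ∀ r : ℕ, z ^ r = e (r * y) := by
    intro r
    rw [hy, N9_pow]
  by_cases hall : ∀ m ∈ Icc 1 M, ‖∑ p ∈ PB k, e (p * (m * y))‖ ≤ 1 / (4 * (M + 1)) * (PB k).card
  · -- no large exponential sum
    have h2 := hF (PB k) y
    have h3 : ((PB k).filter (fun r : ℕ => ‖z ^ r - 1‖ ≤ η')).card ≤
        ((PB k).filter (fun p : ℕ => ‖e (p * y) - 1‖ ≤ ηF)).card := by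
      refine Finset.card_le_card fun r hr => ?_
      rw [Finset.mem_filter] at hr ⊢
      refine ⟨hr.1, ?_⟩
      rw [← hzpow]
      exact hr.2.trans hle1
    have h4 : ∑ m ∈ Icc 1 M, ‖∑ p ∈ PB k, e (p * (m * y))‖ ≤ (PB k).card / 4 := by
      refine (Finset.sum_le_sum hall).trans ?_
      rw [Finset.sum_const, Nat.card_Icc, nsmul_eq_mul]
      have h5 : ((M + 1 - 1 : ℕ) : ℝ) ≤ M + 1 := by
        rw [Nat.add_sub_cancel]
        linarith
      calc ((M + 1 - 1 : ℕ) : ℝ) * (1 / (4 * (M + 1)) * (PB k).card)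
          ≤ (M + 1) * (1 / (4 * (M + 1)) * (PB k).card) :=
            mul_le_mul_of_nonneg_right h5 (by positivity)
        _ = (PB k).card / 4 := by field_simp
    have h6 : ((PB k).card : ℝ) + 2 * ∑ m ∈ Icc 1 M, ‖∑ p ∈ PB k, e (p * (m * y))‖ ≤
        3 / 2 * (PB k).card := by linarith
    calc (((PB k).filter (fun r : ℕ => ‖z ^ r - 1‖ ≤ η')).card : ℝ)
        ≤ (((PB k).filter (fun p : ℕ => ‖e (p * y) - 1‖ ≤ ηF)).card : ℝ) := by exact_mod_cast h3
      _ ≤ 2 / (M + 1) * (3 / 2 * (PB k).card) :=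
          h2.trans (mul_le_mul_of_nonneg_left h6 (by positivity))
      _ = (3 / (M + 1)) * (PB k).card := by ring
      _ ≤ η * (PB k).card := by
          refine mul_le_mul_of_nonneg_right ?_ (by positivity)
          rw [div_le_iff₀ hM1]
          rw [div_le_iff₀ hη] at hM
          linarith
  · -- a large exponential sum
    push Not at hall
    obtain ⟨m, hm, hlarge⟩ := hall
    rw [Finset.mem_Icc] at hm
    rcases hE k hk1 (m * y) with h2 | ⟨q, a, hq1, hqQ, hqa⟩
    · exact absurd hlarge (not_lt.2 h2)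
    have hqR : (1 : ℝ) ≤ q := by exact_mod_cast hq1
    have hq0 : (0 : ℝ) < q := by linarith
    have hqQR : (q : ℝ) ≤ Q := by exact_mod_cast hqQ
    have hmR : (1 : ℝ) ≤ m := by exact_mod_cast hm.1
    have hmMR : (m : ℝ) ≤ M := by exact_mod_cast hm.2
    obtain ⟨w, hw⟩ : ∃ w : ℝ, w = m * y - a / q := ⟨_, rfl⟩
    rw [← hw] at hqa
    -- e(q w r) = z^(r q m)
    have hez : ∀ r : ℕ, e (q * w * r) = (z ^ r) ^ (q * m) := by
      intro r
      rw [hzpow, N9_pow]
      have h3 : (q : ℝ) * w * r = ((q * m : ℕ) : ℝ) * (r * y) + ((-(a * r) : ℤ) : ℝ) := by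
        rw [hw]
        push_cast
        field_simp
        ring
      rw [h3, N9_add, N9_int, mul_one]
    have hs' := mem_PB.1 hs
    have hsR : (s : ℝ) ≤ 2 ^ (k + 1) := by exact_mod_cast hs'.1.2
    have hs0 : (0 : ℝ) ≤ s := by positivity
    -- lower bound for |w|
    have hwlow : τ ≤ 2 * Real.pi * (q * |w| * 2 ^ (k + 1)) := by
      have h4 : τ ≤ ‖e₀ ^ (q * m) - 1‖ :=
        hτ' _ (Nat.mul_pos (by omega) (by omega)) (Nat.mul_le_mul hqQ hm.2)
      have h5 : e (q * w * s) = e₀ ^ (q * m) := by rw [hez, hzs]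
      rw [← h5] at h4
      have h6 := h4.trans (N9_up _)
      rw [abs_mul, abs_mul, abs_of_pos hq0, abs_of_nonneg hs0] at h6
      refine h6.trans ?_
      have : (q : ℝ) * |w| * s ≤ q * |w| * 2 ^ (k + 1) :=
        mul_le_mul_of_nonneg_left hsR (by positivity)
      exact mul_le_mul_of_nonneg_left this (by positivity)
    have hw0 : 0 < |w| := by
      by_contra hn
      have : |w| = 0 := le_antisymm (not_lt.1 hn) (abs_nonneg _)
      rw [this] at hwlow
      simp at hwlow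
      linarith
    have hwne : w ≠ 0 := abs_pos.1 hw0
    have hqw : 0 < (q : ℝ) * |w| := by positivity
    have hqwi : 1 / ((q : ℝ) * |w|) ≤ 4 * Real.pi * 2 ^ k / τ := by
      rw [div_le_div_iff₀ hqw hτ]
      rw [pow_succ] at hwlow
      nlinarith
    obtain ⟨JJ, hJJ⟩ : ∃ JJ : Finset ℤ,
      JJ = Finset.Icc (-(2 * (Q : ℤ) ^ 2 + 1)) (2 * (Q : ℤ) ^ 2 + 1) := ⟨_, rfl⟩
    -- each r is close to some j / (q w)
    have hnear : ∀ r ∈ (PB k).filter (fun r : ℕ => ‖z ^ r - 1‖ ≤ η'),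
        ∃ j ∈ JJ,
          r ∈ (PB k).filter (fun p : ℕ => |(p : ℝ) - j / (q * w)| ≤ ηS * 2 ^ k) := by
      intro r hr
      rw [Finset.mem_filter] at hr
      have hr' := mem_PB.1 hr.1
      have hrR : (r : ℝ) ≤ 2 ^ (k + 1) := by exact_mod_cast hr'.1.2
      have hr0 : (0 : ℝ) ≤ r := by positivity
      have h7 : ‖e (q * w * r) - 1‖ ≤ (Q * M) * η' := by
        rw [hez]
        refine (N9_powsub _ (by rw [norm_pow, hz, one_pow]) _).trans ?_
        have h8 : (((q * m : ℕ) : ℝ)) ≤ Q * M := by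
          push_cast
          exact mul_le_mul hqQR hmMR (by linarith) (by linarith)
        exact mul_le_mul h8 hr.2 (norm_nonneg _) (by positivity)
      have h9 := (N9_near (q * w * r)).trans h7
      refine ⟨round (q * w * r), ?_, ?_⟩
      · have h10 : |(q : ℝ) * w * r| ≤ 2 * Q ^ 2 := by
          rw [abs_mul, abs_mul, abs_of_pos hq0, abs_of_nonneg hr0]
          have h11 : |w| * r ≤ (Q / 2 ^ k) * 2 ^ (k + 1) :=
            mul_le_mul hqa hrR hr0 (by positivity)
          have h12 : (Q / 2 ^ k : ℝ) * 2 ^ (k + 1) = 2 * Q := by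
            rw [pow_succ]
            field_simp
          rw [h12] at h11
          calc (q : ℝ) * |w| * r = q * (|w| * r) := by ring
            _ ≤ Q * (2 * Q) := mul_le_mul hqQR h11 (by positivity) (by positivity)
            _ = 2 * Q ^ 2 := by ring
        have h13 : |(q : ℝ) * w * r - round (q * w * r)| ≤ 1 := by linarith
        have h14 : |((round ((q : ℝ) * w * r) : ℤ) : ℝ)| ≤ 2 * Q ^ 2 + 1 := by
          have h15 : ((round ((q : ℝ) * w * r) : ℤ) : ℝ) =
              q * w * r - (q * w * r - round (q * w * r)) := by ring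
          rw [h15]
          refine (abs_sub _ _).trans ?_
          linarith
        have h16 : |round ((q : ℝ) * w * r)| ≤ 2 * (Q : ℤ) ^ 2 + 1 := by
          have : ((|round ((q : ℝ) * w * r)| : ℤ) : ℝ) ≤ ((2 * (Q : ℤ) ^ 2 + 1 : ℤ) : ℝ) := by
            push_cast
            exact h14
          exact_mod_cast this
        rw [hJJ, Finset.mem_Icc]
        exact abs_le.1 h16
      · rw [Finset.mem_filter]
        refine ⟨hr.1, ?_⟩
        have h17 : (r : ℝ) - ((round ((q : ℝ) * w * r) : ℤ) : ℝ) / (q * w) =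
            (q * w * r - round (q * w * r)) / (q * w) := by
          field_simp
        rw [h17, abs_div, abs_mul, abs_of_pos hq0]
        have h18 : |(q : ℝ) * w * r - round (q * w * r)| ≤ (Q * M) * η' / 4 := by linarith
        calc |(q : ℝ) * w * r - round (q * w * r)| / (q * |w|)
            = |(q : ℝ) * w * r - round (q * w * r)| * (1 / (q * |w|)) := by ring
          _ ≤ ((Q * M) * η' / 4) * (4 * Real.pi * 2 ^ k / τ) :=
              mul_le_mul h18 hqwi (by positivity) (by positivity)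
          _ = ((Q * M) * η' * Real.pi / τ) * 2 ^ k := by ring
          _ ≤ ηS * 2 ^ k := mul_le_mul_of_nonneg_right hle3 (by positivity)
    have hsub : (PB k).filter (fun r : ℕ => ‖z ^ r - 1‖ ≤ η') ⊆
        (JJ).biUnion
          (fun j => (PB k).filter (fun p : ℕ => |(p : ℝ) - j / (q * w)| ≤ ηS * 2 ^ k)) := by
      intro r hr
      obtain ⟨j, hj, hrj⟩ := hnear r hr
      exact Finset.mem_biUnion.2 ⟨j, hj, hrj⟩
    have hcard : (((PB k).filter (fun r : ℕ => ‖z ^ r - 1‖ ≤ η')).card : ℝ) ≤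
        ∑ j ∈ JJ,
          (((PB k).filter (fun p : ℕ => |(p : ℝ) - j / (q * w)| ≤ ηS * 2 ^ k)).card : ℝ) := by
      have := (Finset.card_le_card hsub).trans Finset.card_biUnion_le
      exact_mod_cast this
    refine hcard.trans ?_
    have h20 : ∀ j ∈ JJ,
        (((PB k).filter (fun p : ℕ => |(p : ℝ) - j / (q * w)| ≤ ηS * 2 ^ k)).card : ℝ) ≤
          η / (4 * Q ^ 2 + 3) * (PB k).card := fun j _ => hSh k hk2 _
    refine (Finset.sum_le_sum h20).trans ?_
    rw [Finset.sum_const, hJJ, Int.card_Icc, nsmul_eq_mul]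
    have h21 : (((2 * (Q : ℤ) ^ 2 + 1 + 1 - -(2 * (Q : ℤ) ^ 2 + 1)).toNat : ℕ) : ℝ) =
        4 * Q ^ 2 + 3 := by
      have h22 : (2 * (Q : ℤ) ^ 2 + 1 + 1 - -(2 * (Q : ℤ) ^ 2 + 1)) = ((4 * Q ^ 2 + 3 : ℕ) : ℤ) := by
        push_cast
        ring
      rw [h22, Int.toNat_natCast]
      push_cast
      ring
    rw [h21]
    refine le_of_eq ?_
    have : (4 * (Q : ℝ) ^ 2 + 3) ≠ 0 := by positivity
    field_simp

end Pool.Agent.Lib.H82OH
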