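import Pool.Agent.Lib.H82OH.TE

/-!
# Project H82OH, chunk PC: the correlation function is a multiple of a unitary function
-/

open MeasureTheory Filter Topology Finset
open scoped ComplexConjugate Matrix

namespace Pool.Agent.Lib.H82OH

open Pool.Agent.Lib.H22M Pool.Agent.Lib.H82T Pool.Agent.Lib.H82OT Pool.Agent.Lib.H82OF

variable {W : Type*} [CommGroup W] [TopologicalSpace W] [IsTopologicalGroup W] [CompactSpace W]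
  [T2Space W] [SecondCountableTopology W] [MeasurableSpace W] [BorelSpace W]

private theorem gram_left {d e : ℕ} (X X' : Matrix (Fin d) (Fin e) ℂ)
    (P : Matrix (Fin d) (Fin d) ℂ) (Q : Matrix (Fin e) (Fin e) ℂ)
    (hP : Pᴴ * P = 1) (hQ : Q * Qᴴ = 1) (h : X' * Q = P * X) :
    (X'ᴴ * X') * Q = Q * (Xᴴ * X) := by
  have h1 : (X' * Q)ᴴ * (X' * Q) = Xᴴ * X := by
    rw [h, Matrix.conjTranspose_mul]
    calc Xᴴ * Pᴴ * (P * X) = Xᴴ * (Pᴴ * P) * X := by simp only [Matrix.mul_assoc]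
      _ = Xᴴ * X := by rw [hP, Matrix.mul_one]
  calc (X'ᴴ * X') * Q = (Q * Qᴴ) * (X'ᴴ * X') * Q := by rw [hQ, Matrix.one_mul]
    _ = Q * ((X' * Q)ᴴ * (X' * Q)) := by
        rw [Matrix.conjTranspose_mul]; simp only [Matrix.mul_assoc]
    _ = Q * (Xᴴ * X) := by rw [h1]

private theorem gram_right {d e : ℕ} (X X' : Matrix (Fin d) (Fin e) ℂ)
    (P : Matrix (Fin d) (Fin d) ℂ) (Q : Matrix (Fin e) (Fin e) ℂ)
    (hP : Pᴴ * P = 1) (hQ : Q * Qᴴ = 1) (h : X' * Q = P * X) :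
    (X' * X'ᴴ) * P = P * (X * Xᴴ) := by
  have h1 : (X' * Q) * (X' * Q)ᴴ = X' * X'ᴴ := by
    rw [Matrix.conjTranspose_mul]
    calc X' * Q * (Qᴴ * X'ᴴ) = X' * (Q * Qᴴ) * X'ᴴ := by simp only [Matrix.mul_assoc]
      _ = X' * X'ᴴ := by rw [hQ, Matrix.mul_one]
  calc (X' * X'ᴴ) * P = ((P * X) * (P * X)ᴴ) * P := by rw [← h1, h]
    _ = P * (X * Xᴴ) * (Pᴴ * P) := by
        rw [Matrix.conjTranspose_mul]; simp only [Matrix.mul_assoc]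
    _ = P * (X * Xᴴ) := by rw [hP, Matrix.mul_one]

private theorem diag_left {d e : ℕ} (X : Matrix (Fin d) (Fin e) ℂ) (j : Fin e) :
    (Xᴴ * X) j j = ((∑ i, ‖X i j‖ ^ 2 : ℝ) : ℂ) := by
  rw [Matrix.mul_apply]
  push_cast
  refine Finset.sum_congr rfl fun i _ => ?_
  rw [Matrix.conjTranspose_apply, Complex.star_def, mul_comm, Complex.mul_conj,
    Complex.normSq_eq_norm_sq]
  push_cast
  rfl

private theorem diag_right {d e : ℕ} (X : Matrix (Fin d) (Fin e) ℂ) (i : Fin d) :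
    (X * Xᴴ) i i = ((∑ j, ‖X i j‖ ^ 2 : ℝ) : ℂ) := by
  rw [Matrix.mul_apply]
  push_cast
  refine Finset.sum_congr rfl fun j _ => ?_
  rw [Matrix.conjTranspose_apply, Complex.star_def, Complex.mul_conj,
    Complex.normSq_eq_norm_sq]
  push_cast
  rfl

private theorem bmm_ct {Ω : Type*} [MeasurableSpace Ω] {d e : ℕ}
    {X : Ω → Matrix (Fin d) (Fin e) ℂ} (h : BMM X) : BMM fun ω => (X ω)ᴴ := BMM.conj h

/-- Proof. `Dᴴ D (c ω) Φ'^(s)(w_s) = Φ'^(s)(w_s) Dᴴ D(ω)` with `w_s = t' ω^s`, from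
`D(c ω) = Φ^(r)(w_r) D(ω) Φ'^(s)(w_s)ᴴ` and unitarity (`UC.cc`, TA), so `Dᴴ D = a₁ • 1` a.e. by `irr_pow` (TD) for `Φ', s, t'`;
`a₁` is a diagonal entry, a sum of squares: real and `≥ 0`. In the same way `D Dᴴ = a₂ • 1`, `a₂ ≥ 0`. `D Dᴴ D = a₁ D = a₂ D`
a.e.: `a₁ = a₂` or `D = 0` a.e., and then `a₁ = a₂ = 0` (`0 < d, d'`). `a = √a₁`. -/
theorem DEq.gram (lam : Measure W) [lam.IsHaarMeasure] [IsProbabilityMeasure lam] {c : W}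
    (hc : Free c) {d d' : ℕ} (hd : 0 < d) (hd' : 0 < d') {Φ : W → Matrix (Fin d) (Fin d) ℂ}
    {Φ' : W → Matrix (Fin d') (Fin d') ℂ} (hΦ : UC Φ) (hΦ' : UC Φ') (hI : Ic lam c Φ)
    (hI' : Ic lam c Φ') {r s : ℕ} (hr : r.Prime) (hs : s.Prime) (hdr : d < r) (hds : d' < s)
    {t t' : W} {D : W → Matrix (Fin d) (Fin d') ℂ} (hD : DEq lam c Φ Φ' r s t t' D) :
    ∃ a : ℝ, 0 ≤ a ∧ (∀ᵐ ω ∂lam, (D ω)ᴴ * D ω = ((a : ℂ) ^ 2) • 1) ∧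
      ∀ᵐ ω ∂lam, D ω * (D ω)ᴴ = ((a : ℂ) ^ 2) • 1 := by
  obtain ⟨hB, hE⟩ := hD
  have hP := UC.cc hΦ c r
  have hQ := UC.cc hΦ' c s
  have e1 : ∀ᵐ ω ∂lam, ((D (c * ω))ᴴ * D (c * ω)) * cc c Φ' s (t' * ω ^ s) =
      cc c Φ' s (t' * ω ^ s) * ((D ω)ᴴ * D ω) := by
    filter_upwards [hE] with ω hω
    exact gram_left _ _ _ _ (hP.left _) (hQ.right _) hω
  have e2 : ∀ᵐ ω ∂lam, (D (c * ω) * (D (c * ω))ᴴ) * cc c Φ r (t * ω ^ r) =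
      cc c Φ r (t * ω ^ r) * (D ω * (D ω)ᴴ) := by
    filter_upwards [hE] with ω hω
    exact gram_right _ _ _ _ (hP.left _) (hQ.right _) hω
  obtain ⟨a₁, ha₁⟩ := irr_pow lam hc hd' hΦ' hI' s hs hds t' (fun ω => (D ω)ᴴ * D ω)
    (BMM.mul (bmm_ct hB) hB) e1
  obtain ⟨a₂, ha₂⟩ := irr_pow lam hc hd hΦ hI r hr hdr t (fun ω => D ω * (D ω)ᴴ)
    (BMM.mul hB (bmm_ct hB)) e2
  obtain ⟨ω₀, h1, h2⟩ := (ha₁.and ha₂).exists
  have p1 : a₁ = ((∑ i, ‖D ω₀ i ⟨0, hd'⟩‖ ^ 2 : ℝ) : ℂ) := by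
    rw [← diag_left, h1]
    simp
  have p2 : a₂ = ((∑ j, ‖D ω₀ ⟨0, hd⟩ j‖ ^ 2 : ℝ) : ℂ) := by
    rw [← diag_right, h2]
    simp
  have n1 : (0 : ℝ) ≤ ∑ i, ‖D ω₀ i ⟨0, hd'⟩‖ ^ 2 := Finset.sum_nonneg fun i _ => sq_nonneg _
  have h12 : a₁ = a₂ := by
    by_cases hz : D ω₀ = 0
    · rw [p1, p2, hz]
      simp
    · have h3 : D ω₀ * (D ω₀)ᴴ * D ω₀ = a₂ • D ω₀ := by
        rw [h2, Matrix.smul_mul, Matrix.one_mul]
      have h4 : D ω₀ * (D ω₀)ᴴ * D ω₀ = a₁ • D ω₀ := by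
        rw [Matrix.mul_assoc, h1, Matrix.mul_smul, Matrix.mul_one]
      have h5 : (a₁ - a₂) • D ω₀ = 0 := by
        rw [sub_smul, ← h3, ← h4, sub_self]
      rcases smul_eq_zero.mp h5 with h6 | h6
      · exact sub_eq_zero.mp h6
      · exact absurd h6 hz
  set x : ℝ := ∑ i, ‖D ω₀ i ⟨0, hd'⟩‖ ^ 2 with hx
  have hsq : ((Real.sqrt x : ℝ) : ℂ) ^ 2 = a₁ := by
    rw [p1, ← Complex.ofReal_pow, Real.sq_sqrt n1]
  refine ⟨Real.sqrt x, Real.sqrt_nonneg _, ?_, ?_⟩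
  · filter_upwards [ha₁] with ω hω
    rw [hω, hsq]
  · filter_upwards [ha₂] with ω hω
    rw [hω, hsq, h12]

end Pool.Agent.Lib.H82OH
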