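import Pool.Agent.Lib.H82OH.PC

/-!
# Project H82OH, chunk PD: translates of the correlation function
-/

open MeasureTheory Filter Topology Finset
open scoped ComplexConjugate Matrix

namespace Pool.Agent.Lib.H82OH

open Pool.Agent.Lib.H22M Pool.Agent.Lib.H82T Pool.Agent.Lib.H82OT Pool.Agent.Lib.H82OF

variable {W : Type*} [CommGroup W] [TopologicalSpace W] [IsTopologicalGroup W] [CompactSpace W]
  [T2Space W] [SecondCountableTopology W] [MeasurableSpace W] [BorelSpace W]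

/-- Proof. `a > 0` from `DEq.gram` (PC). With `w_r = t ω^r`, `w_s = t' ω^s`, `D₁(ω) = D(δ ω) γ'(w_s)`. The equation of `D` at
`δ ω` (translation preserves `lam`): `D(c δ ω) Φ'^(s)(δ^s w_s) = Φ^(r)(δ^r w_r) D(δ ω)`; `Tw.iter` for `γ'` at `w_s`
(`mp_pow`): `γ'(c^s w_s) Φ'^(s)(w_s) = κ'^s Φ'^(s)(δ^s w_s) γ'(w_s)`. So
`D₁(c ω) Φ'^(s)(w_s) = D(c δ ω) γ'(c^s w_s) Φ'^(s)(w_s) = κ'^s Φ^(r)(δ^r w_r) D₁(ω)`. `g = D₁ Dᴴ`: from
`D(c ω)ᴴ Φ^(r)(w_r) = Φ'^(s)(w_s) D(ω)ᴴ` (adjoint of the equation): `g(c ω) Φ^(r)(w_r) = κ'^s Φ^(r)(δ^r w_r) g(ω)`.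
`g D = a² D₁`, `D₁ D₁ᴴ = D(δω) D(δω)ᴴ = a²`, so `g` is not a.e. `0`. `exists_lift` (TE) with `β = δ^r`, `ζ = κ'^s`:
`g = (b ψ(ω)) • γ(w_r)`, `ψ(c) κ^r = κ'^s`. `a² D₁ = g D = b ψ(ω) γ(w_r) D(ω)`, so with `u = b / a²`:
`D₁ = u ψ γ(w_r) D`; `D₁ D₁ᴴ = a²` and `= |u|² a²`: `|u| = 1`. Replace `γ` by `u • γ` (`UL.char` with `χ = 1`, `ch 1 = 1`). -/
theorem DEq.shift (lam : Measure W) [lam.IsHaarMeasure] [IsProbabilityMeasure lam] {c : W}
    (hc : Free c) {d d' : ℕ} (hd : 0 < d) (hd' : 0 < d') {Φ : W → Matrix (Fin d) (Fin d) ℂ}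
    {Φ' : W → Matrix (Fin d') (Fin d') ℂ} (hΦ : UC Φ) (hΦ' : UC Φ') (hI : Ic lam c Φ)
    (hI' : Ic lam c Φ') {r s : ℕ} (hr : r.Prime) (hs : s.Prime) (hdr : d < r) (hds : d' < s)
    {t t' : W} {D : W → Matrix (Fin d) (Fin d') ℂ} (hD : DEq lam c Φ Φ' r s t t' D) (h0 : ¬ ∀ᵐ ω ∂lam, D ω = 0) (δ : W) (κ' : ℂ)
    (γ' : W → Matrix (Fin d') (Fin d') ℂ) (hγ' : UL lam c Φ' (δ ^ s) κ' γ') :
    ∃ (ψ : PontryaginDual W) (κ : ℂ) (γ : W → Matrix (Fin d) (Fin d) ℂ),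
      UL lam c Φ (δ ^ r) κ γ ∧ ch ψ c * κ ^ r = κ' ^ s ∧
      ∀ᵐ ω ∂lam, D (δ * ω) * γ' (t' * ω ^ s) = (ch ψ ω) • (γ (t * ω ^ r) * D ω) := by
  obtain ⟨a, ha0, hG1, hG2⟩ := DEq.gram lam hc hd hd' hΦ hΦ' hI hI' hr hs hdr hds hD
  have hmeas_r : Measurable fun ω : W => t * ω ^ r := (mp_pow lam hc r hr.one_lt.le t).measurable
  have hmeas_s : Measurable fun ω : W => t' * ω ^ s := (mp_pow lam hc s hs.one_lt.le t').measurable
  have hqr := (mp_pow lam hc r hr.one_lt.le t).quasiMeasurePreserving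
  have hqs := (mp_pow lam hc s hs.one_lt.le t').quasiMeasurePreserving
  have hqδ := (measurePreserving_mul_left lam δ).quasiMeasurePreserving
  have hUr := hΦ.cc c r
  have hUs := hΦ'.cc c s
  -- positivity of `a`
  have hapos : 0 < a := by
    rcases ha0.lt_or_eq with h | h
    · exact h
    · exfalso
      apply h0
      filter_upwards [hG1] with ω hω
      rw [← h] at hω
      have h1 : (D ω)ᴴ * D ω = 0 := by
        rw [hω]
        simp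
      open scoped ComplexOrder in exact Matrix.conjTranspose_mul_self_eq_zero.1 h1
  have haC : ((a : ℂ)) ≠ 0 := by
    exact_mod_cast hapos.ne'
  have haC2 : ((a : ℂ) ^ 2) ≠ 0 := pow_ne_zero 2 haC
  -- the equations
  have e1 := hD.2
  have e2 := hqδ.ae hD.2
  have e3 := hqs.ae (hγ'.tw.iter s).2
  have e4 := hqs.ae hγ'.right
  have e5 := hqδ.ae hG2
  set D₁ : W → Matrix (Fin d) (Fin d') ℂ := fun ω => D (δ * ω) * γ' (t' * ω ^ s) with hD₁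
  set g : W → Matrix (Fin d) (Fin d) ℂ := fun ω => D₁ ω * (D ω)ᴴ with hgdef
  have hBD₁ : BMM D₁ := (hD.1.comp (measurable_const_mul δ)).mul (hγ'.bm.comp hmeas_s)
  have hBg : BMM g := hBD₁.mul hD.1.conj
  have hcs : ∀ ω : W, t' * (c * ω) ^ s = c ^ s * (t' * ω ^ s) := fun ω => by
    rw [mul_pow, mul_left_comm]
  have hds' : ∀ ω : W, t' * (δ * ω) ^ s = δ ^ s * (t' * ω ^ s) := fun ω => by
    rw [mul_pow, mul_left_comm]
  have hdr' : ∀ ω : W, t * (δ * ω) ^ r = δ ^ r * (t * ω ^ r) := fun ω => by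
    rw [mul_pow, mul_left_comm]
  have eD1 : ∀ᵐ ω ∂lam, D₁ (c * ω) * cc c Φ' s (t' * ω ^ s) =
      κ' ^ s • (cc c Φ r (δ ^ r * (t * ω ^ r)) * D₁ ω) := by
    filter_upwards [e2, e3] with ω h2 h3
    have h3' : γ' (c ^ s * (t' * ω ^ s)) * cc c Φ' s (t' * ω ^ s) =
        κ' ^ s • (cc c Φ' s (δ ^ s * (t' * ω ^ s)) * γ' (t' * ω ^ s)) := by
      rw [← cc_shift c (δ ^ s) Φ' s]
      exact h3
    show D (δ * (c * ω)) * γ' (t' * (c * ω) ^ s) * cc c Φ' s (t' * ω ^ s) =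
      κ' ^ s • (cc c Φ r (δ ^ r * (t * ω ^ r)) * (D (δ * ω) * γ' (t' * ω ^ s)))
    rw [hcs, Matrix.mul_assoc, h3', Matrix.mul_smul, ← Matrix.mul_assoc, ← Matrix.mul_assoc,
      mul_left_comm δ c ω]
    have h2' : D (c * (δ * ω)) * cc c Φ' s (δ ^ s * (t' * ω ^ s)) =
        cc c Φ r (δ ^ r * (t * ω ^ r)) * D (δ * ω) := by
      rw [← hds', ← hdr']
      exact h2
    rw [h2']
  have eDadj : ∀ᵐ ω ∂lam, (D (c * ω))ᴴ * cc c Φ r (t * ω ^ r) =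
      cc c Φ' s (t' * ω ^ s) * (D ω)ᴴ := by
    filter_upwards [e1] with ω h1
    have h2 : D (c * ω) = cc c Φ r (t * ω ^ r) * D ω * (cc c Φ' s (t' * ω ^ s))ᴴ := by
      rw [← h1, Matrix.mul_assoc, hUs.right, Matrix.mul_one]
    rw [h2, Matrix.conjTranspose_mul, Matrix.conjTranspose_mul, Matrix.conjTranspose_conjTranspose,
      Matrix.mul_assoc, Matrix.mul_assoc, hUr.left, Matrix.mul_one]
  have eg : ∀ᵐ ω ∂lam, g (c * ω) * cc c Φ r (t * ω ^ r) =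
      κ' ^ s • (cc c Φ r (δ ^ r * (t * ω ^ r)) * g ω) := by
    filter_upwards [eD1, eDadj] with ω h1 h2
    show D₁ (c * ω) * (D (c * ω))ᴴ * cc c Φ r (t * ω ^ r) =
      κ' ^ s • (cc c Φ r (δ ^ r * (t * ω ^ r)) * (D₁ ω * (D ω)ᴴ))
    rw [Matrix.mul_assoc, h2, ← Matrix.mul_assoc, h1, Matrix.smul_mul, Matrix.mul_assoc]
  -- `D₁ D₁ᴴ = a²`
  have eDD : ∀ᵐ ω ∂lam, D₁ ω * (D₁ ω)ᴴ = ((a : ℂ) ^ 2) • 1 := by
    filter_upwards [e4, e5] with ω h4 h5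
    show D (δ * ω) * γ' (t' * ω ^ s) * (D (δ * ω) * γ' (t' * ω ^ s))ᴴ = ((a : ℂ) ^ 2) • 1
    rw [Matrix.conjTranspose_mul, Matrix.mul_assoc, ← Matrix.mul_assoc (γ' (t' * ω ^ s)), h4,
      Matrix.one_mul, h5]
  have hne : (lam : Measure W) ≠ 0 := IsProbabilityMeasure.ne_zero lam
  have hnb : (ae lam).NeBot := ae_neBot.2 hne
  have hone : (1 : Matrix (Fin d) (Fin d) ℂ) ≠ 0 := by
    intro h
    have := congrFun (congrFun h ⟨0, hd⟩) ⟨0, hd⟩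
    rw [Matrix.one_apply_eq] at this
    exact one_ne_zero this
  have hg0 : ¬ ∀ᵐ ω ∂lam, g ω = 0 := by
    intro hg0
    have hF : ∀ᵐ ω ∂lam, False := by
      filter_upwards [hg0, hG1, eDD] with ω h1 h2 h3
      have h4 : g ω * D ω = ((a : ℂ) ^ 2) • D₁ ω := by
        show D₁ ω * (D ω)ᴴ * D ω = _
        rw [Matrix.mul_assoc, h2, Matrix.mul_smul, Matrix.mul_one]
      rw [h1, Matrix.zero_mul] at h4
      have h5 : D₁ ω = 0 := by
        rcases smul_eq_zero.1 h4.symm with h | h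
        · exact absurd h haC2
        · exact h
      rw [h5, Matrix.zero_mul] at h3
      rcases smul_eq_zero.1 h3.symm with h | h
      · exact haC2 h
      · exact hone h
    exact hF.exists.elim fun _ h => h
  have hnk : ‖κ' ^ s‖ = 1 := by rw [norm_pow, hγ'.nk, one_pow]
  obtain ⟨ψ, κ, b, γ, hγ, hb, hψ, hgγ⟩ :=
    exists_lift lam hc hd hΦ hI r hr hdr t (δ ^ r) (κ' ^ s) hnk g hBg eg hg0
  set u : ℂ := b / (a : ℂ) ^ 2 with hu
  have e6 := hqr.ae hγ.right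
  have eU : ∀ᵐ ω ∂lam, D₁ ω = (u * ch ψ ω) • (γ (t * ω ^ r) * D ω) := by
    filter_upwards [hgγ, hG1] with ω h1 h2
    have h4 : g ω * D ω = ((a : ℂ) ^ 2) • D₁ ω := by
      show D₁ ω * (D ω)ᴴ * D ω = _
      rw [Matrix.mul_assoc, h2, Matrix.mul_smul, Matrix.mul_one]
    have h5 : D₁ ω = ((a : ℂ) ^ 2)⁻¹ • (g ω * D ω) := by
      rw [h4, smul_smul, inv_mul_cancel₀ haC2, one_smul]
    rw [h5, h1, Matrix.smul_mul, smul_smul]
    congr 1
    rw [hu]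
    ring
  have hnu : ‖u‖ = 1 := by
    have hF : ∀ᵐ ω ∂lam, u * conj u = 1 := by
      filter_upwards [eU, eDD, hG2, e6] with ω h1 h2 h3 h4
      have h5 : D₁ ω * (D₁ ω)ᴴ = (u * conj u * (a : ℂ) ^ 2) • 1 := by
        rw [h1, Matrix.conjTranspose_smul, Matrix.smul_mul, Matrix.mul_smul, smul_smul,
          Matrix.conjTranspose_mul, Matrix.mul_assoc, ← Matrix.mul_assoc (D ω), h3,
          Matrix.smul_mul, Matrix.one_mul, Matrix.mul_smul, h4, smul_smul]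
        congr 1
        have h6 : star (u * ch ψ ω) = conj u * conj (ch ψ ω) := by
          rw [← map_mul]
          rfl
        rw [h6]
        have h7 := ch_mul_conj ψ ω
        linear_combination (u * conj u * (a : ℂ) ^ 2) * h7
      rw [h2] at h5
      have h6 := congrFun (congrFun h5 ⟨0, hd⟩) ⟨0, hd⟩
      rw [Matrix.smul_apply, Matrix.smul_apply, Matrix.one_apply_eq, smul_eq_mul, smul_eq_mul,
        mul_one, mul_one] at h6
      have h7 : (u * conj u) * (a : ℂ) ^ 2 = 1 * (a : ℂ) ^ 2 := by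
        rw [one_mul]
        exact h6.symm
      exact mul_right_cancel₀ haC2 h7
    obtain ⟨_, h⟩ := hF.exists
    rw [Complex.mul_conj, Complex.normSq_eq_norm_sq] at h
    have h1 : ‖u‖ ^ 2 = 1 := by exact_mod_cast h
    nlinarith [norm_nonneg u]
  refine ⟨ψ, ch (1 : PontryaginDual W) c * κ, fun w => (u * ch (1 : PontryaginDual W) w) • γ w,
    hγ.char 1 u hnu, ?_, ?_⟩
  · rw [ch_one_left, one_mul]
    exact hψ
  · filter_upwards [eU] with ω h1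
    have h2 : D (δ * ω) * γ' (t' * ω ^ s) = (u * ch ψ ω) • (γ (t * ω ^ r) * D ω) := h1
    rw [h2, ch_one_left, mul_one, Matrix.smul_mul, smul_smul, mul_comm u]

end Pool.Agent.Lib.H82OH
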