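import Pool.Agent.Lib.H82OH.BA
import Pool.Agent.Lib.H82OH.N9

/-!
# Project H82OH, chunk SA: a free cluster point
-/

open MeasureTheory Filter Topology Finset
open scoped ComplexConjugate Matrix

namespace Pool.Agent.Lib.H82OH

open Pool.Agent.Lib.H22M Pool.Agent.Lib.H82T Pool.Agent.Lib.H82OT Pool.Agent.Lib.H82OF

variable {W : Type*} [CommGroup W] [TopologicalSpace W] [IsTopologicalGroup W] [CompactSpace W]
  [T2Space W] [SecondCountableTopology W] [MeasurableSpace W] [BorelSpace W]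

omit [IsTopologicalGroup W] [MeasurableSpace W] [BorelSpace W] in
private theorem sa_countable : Countable (PontryaginDual W) := by
  haveI : SecondCountableTopology (PontryaginDual W) :=
    (ContinuousMonoidHom.isInducing_toContinuousMap W Circle).secondCountableTopology
  haveI : DiscreteTopology (PontryaginDual W) := inferInstance
  exact TopologicalSpace.separableSpace_iff_countable.1 inferInstance

/-- Proof. The pairs `(θ, n)`, `θ ≠ 1` a character, `n ≥ 1`, are countably many (`PontryaginDual W` is countable, `W` compact and second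
countable: search `Pool/Agent/Lib/CompactAbelian`, `exists_zeta` in `H82OG/MB2.lean`); enumerate them as `(θ_l, n_l)`, `l : ℕ` (if there are
none, i.e. `W` is trivial, everything is easier). `root_count` (N9) for `e₀ = θ_l(c)^n_l`, which is no root of unity by `hc`, and
`η = ε / 2^(l+2)`: `η'_l`, `k0_l`. For `i : ℕ` take from `hbad` a `k ≥ i, k0_0, …, k0_i` with `s_i, Q_i`, and `δ_i` with `δ_i^{s_i} = c`
(`Free.divisible`). With `z = θ_l(δ_i)^n_l`, `z^{s_i} = e₀`: for every `l ≤ i` at most `ε 2^(-l-2) |PB k|` of the `r ∈ PB k` satisfy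
`‖θ_l(δ_i^r)^n_l - 1‖ ≤ η'_l`, altogether at most `ε/2 |PB k| < |Q_i|` (`PB k` is not empty as `Q_i` is not), so there is `r_i ∈ Q_i` with
`‖θ_l(δ_i^{r_i})^n_l - 1‖ > η'_l` for all `l ≤ i`. Pass to a subsequence for which `δ_i^{r_i}` converges to some `β₀`
(`CompactSpace.tendsto_subseq`; `W` is first countable). Then `‖θ_l(β₀)^n_l - 1‖ ≥ η'_l > 0` for all `l`: `Free β₀`. `r_i, s_i > 2^k ≥ i`. -/
theorem exists_free_cluster {c : W} (hc : Free c) (Bad : ℕ → ℕ → Prop) (ε : ℝ) (hε : 0 < ε)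
    (hbad : ∀ k0 : ℕ, ∃ k : ℕ, k0 ≤ k ∧ ∃ s ∈ PB k, ∃ Q ⊆ PB k, (∀ r ∈ Q, r ≠ s ∧ Bad r s) ∧
      ε * (PB k).card < (Q.card : ℝ)) :
    ∃ (r s : ℕ → ℕ) (δ : ℕ → W) (β₀ : W),
      (∀ i, (r i).Prime ∧ (s i).Prime ∧ r i ≠ s i ∧ Bad (r i) (s i) ∧ δ i ^ s i = c) ∧
      Tendsto r atTop atTop ∧ Tendsto s atTop atTop ∧
      Tendsto (fun i => δ i ^ r i) atTop (𝓝 β₀) ∧ Free β₀ := by
  classical
  haveI : Countable (PontryaginDual W) := sa_countable
  -- the tasks
  let I := {p : PontryaginDual W × ℕ // p.1 ≠ 1 ∧ 1 ≤ p.2}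
  obtain ⟨f, hf⟩ := exists_surjective_nat (Option I)
  let bad : Option I → ℝ → ℕ → W → Prop := fun o η' r δ =>
    ∃ p : I, o = some p ∧ ‖ch p.1.1 (δ ^ r) ^ p.1.2 - 1‖ ≤ η'
  have key : ∀ (o : Option I) (η : ℝ), 0 < η → ∃ (η' : ℝ) (k0 : ℕ), 0 < η' ∧ ∀ k : ℕ, k0 ≤ k →
      ∀ s ∈ PB k, ∀ δ : W, δ ^ s = c →
        (((PB k).filter (fun r => bad o η' r δ)).card : ℝ) ≤ η * (PB k).card := by
    intro o η hη
    cases o with
    | none =>
      refine ⟨1, 0, one_pos, fun k _ s _ δ _ => ?_⟩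
      have h0 : (PB k).filter (fun r => bad none 1 r δ) = ∅ := by
        apply Finset.filter_eq_empty_iff.2
        rintro r _ ⟨p, hp, _⟩
        exact Option.some_ne_none p hp.symm
      rw [h0]
      simp only [Finset.card_empty, Nat.cast_zero]
      positivity
    | some p =>
      obtain ⟨⟨θ, n⟩, hθ, hn⟩ := p
      obtain ⟨η', k0, hη', hk0⟩ := root_count (ch θ c ^ n) (by rw [norm_pow, norm_ch, one_pow])
        (fun m hm h => hθ (hc θ (n * m) (Nat.mul_pos hn hm) (by rw [pow_mul]; exact h))) η hη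
      refine ⟨η', k0, hη', fun k hk s hs δ hδ => ?_⟩
      have h1 := hk0 k hk s hs (ch θ δ ^ n) (by rw [norm_pow, norm_ch, one_pow])
        (by rw [← pow_mul, mul_comm, pow_mul, ← ch_pow_right, hδ])
      refine le_trans ?_ h1
      apply Nat.cast_le.2
      apply Finset.card_le_card
      intro r hr
      rw [Finset.mem_filter] at hr ⊢
      refine ⟨hr.1, ?_⟩
      obtain ⟨p, hp, h2⟩ := hr.2
      have h3 := Option.some_injective _ hp
      rw [← h3] at h2
      rw [← pow_mul, mul_comm, pow_mul, ← ch_pow_right]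
      exact h2
  have key2 : ∀ l : ℕ, ∃ (η' : ℝ) (k0 : ℕ), 0 < η' ∧ ∀ k : ℕ, k0 ≤ k →
      ∀ s ∈ PB k, ∀ δ : W, δ ^ s = c →
        (((PB k).filter (fun r => bad (f l) η' r δ)).card : ℝ) ≤
          (ε / 4 * (1 / 2) ^ l) * (PB k).card :=
    fun l => key (f l) _ (by positivity)
  choose η' k0 hη' hk0 using key2
  -- the choice for one index
  have step : ∀ i : ℕ, ∃ (r s : ℕ) (δ : W), r.Prime ∧ s.Prime ∧ r ≠ s ∧ Bad r s ∧ δ ^ s = c ∧
      i ≤ r ∧ i ≤ s ∧ ∀ l ≤ i, ¬ bad (f l) (η' l) r δ := by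
    intro i
    obtain ⟨k, hk, s, hs, Q, hQ, hQb, hcard⟩ := hbad (i + ∑ l ∈ range (i + 1), k0 l)
    have hkl : ∀ l ≤ i, k0 l ≤ k := by
      intro l hl
      have h1 : k0 l ≤ ∑ l ∈ range (i + 1), k0 l :=
        Finset.single_le_sum (f := k0) (fun _ _ => Nat.zero_le _)
          (Finset.mem_range.2 (Nat.lt_succ_of_le hl))
      omega
    have hik : i ≤ k := by omega
    have hsp := mem_PB.1 hs
    obtain ⟨δ, hδ⟩ := hc.divisible s hsp.2.one_le c
    have hex : ∃ r ∈ Q, ∀ l ≤ i, ¬ bad (f l) (η' l) r δ := by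
      by_contra hno
      push Not at hno
      have hsub : Q ⊆ (range (i + 1)).biUnion
          (fun l => (PB k).filter (fun r => bad (f l) (η' l) r δ)) := by
        intro r hr
        obtain ⟨l, hl, hb⟩ := hno r hr
        exact Finset.mem_biUnion.2 ⟨l, Finset.mem_range.2 (Nat.lt_succ_of_le hl),
          Finset.mem_filter.2 ⟨hQ hr, hb⟩⟩
      have h1 : (Q.card : ℝ) ≤ ∑ l ∈ range (i + 1), (ε / 4 * (1 / 2) ^ l) * (PB k).card := by
        calc (Q.card : ℝ) ≤ (((range (i + 1)).biUnion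
              (fun l => (PB k).filter (fun r => bad (f l) (η' l) r δ))).card : ℝ) :=
              Nat.cast_le.2 (Finset.card_le_card hsub)
          _ ≤ ((∑ l ∈ range (i + 1),
              ((PB k).filter (fun r => bad (f l) (η' l) r δ)).card : ℕ) : ℝ) :=
              Nat.cast_le.2 Finset.card_biUnion_le
          _ = ∑ l ∈ range (i + 1),
              (((PB k).filter (fun r => bad (f l) (η' l) r δ)).card : ℝ) := by push_cast; rfl
          _ ≤ _ := Finset.sum_le_sum fun l hl =>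
              hk0 l k (hkl l (Nat.lt_succ_iff.1 (Finset.mem_range.1 hl))) s hs δ hδ
      have h2 : ∑ l ∈ range (i + 1), (ε / 4 * (1 / 2) ^ l) * ((PB k).card : ℝ) ≤
          ε / 2 * (PB k).card := by
        rw [← Finset.sum_mul, ← Finset.mul_sum]
        have h3 : ∑ l ∈ range (i + 1), ((1 : ℝ) / 2) ^ l ≤ 2 := by
          have h4 := sum_geometric_two_le (i + 1)
          exact h4
        have h5 : (0 : ℝ) ≤ (PB k).card := Nat.cast_nonneg _
        have h6 : ε / 4 * ∑ l ∈ range (i + 1), ((1 : ℝ) / 2) ^ l ≤ ε / 2 := by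
          calc ε / 4 * ∑ l ∈ range (i + 1), ((1 : ℝ) / 2) ^ l ≤ ε / 4 * 2 :=
                mul_le_mul_of_nonneg_left h3 (by positivity)
            _ = ε / 2 := by ring
        exact mul_le_mul_of_nonneg_right h6 h5
      have h5 : (0 : ℝ) ≤ (PB k).card := Nat.cast_nonneg _
      have h6 : ε / 2 * ((PB k).card : ℝ) ≤ ε * (PB k).card := by
        apply mul_le_mul_of_nonneg_right _ h5
        linarith
      linarith
    obtain ⟨r, hr, hrl⟩ := hex
    have hrp := mem_PB.1 (hQ hr)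
    have h2k : k < 2 ^ k := Nat.lt_two_pow_self
    exact ⟨r, s, δ, hrp.2, hsp.2, (hQb r hr).1, (hQb r hr).2, hδ, by omega, by omega, hrl⟩
  choose r s δ h1 h2 h3 h4 h5 h6 h7 h8 using step
  obtain ⟨β₀, φ, hφ, hlim⟩ := CompactSpace.tendsto_subseq (fun i => δ i ^ r i)
  refine ⟨fun i => r (φ i), fun i => s (φ i), fun i => δ (φ i), β₀,
    fun i => ⟨h1 _, h2 _, h3 _, h4 _, h5 _⟩, ?_, ?_, hlim, ?_⟩
  · exact tendsto_atTop_mono (fun i => (hφ.id_le i).trans (h6 (φ i))) tendsto_id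
  · exact tendsto_atTop_mono (fun i => (hφ.id_le i).trans (h7 (φ i))) tendsto_id
  · intro θ n hn hθn
    by_contra hθ
    obtain ⟨l, hl⟩ := hf (some ⟨(θ, n), hθ, hn⟩)
    have hcont : Continuous (fun w : W => ‖ch θ w ^ n - 1‖) :=
      (((continuous_ch θ).pow n).sub continuous_const).norm
    have hlim2 : Tendsto (fun i => ‖ch θ (δ (φ i) ^ r (φ i)) ^ n - 1‖) atTop
        (𝓝 ‖ch θ β₀ ^ n - 1‖) := (hcont.tendsto β₀).comp hlim
    have hge : η' l ≤ ‖ch θ β₀ ^ n - 1‖ := by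
      refine ge_of_tendsto hlim2 ?_
      filter_upwards [eventually_ge_atTop l] with i hi
      have h9 := h8 (φ i) l (hi.trans (hφ.id_le i))
      by_contra hlt
      apply h9
      exact ⟨⟨(θ, n), hθ, hn⟩, hl, (not_le.1 hlt).le⟩
    rw [hθn, sub_self, norm_zero] at hge
    exact absurd (hη' l) (not_lt.2 hge)

end Pool.Agent.Lib.H82OH
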