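import Pool.Agent.Lib.H82OH.TA

/-!
# Project H82OH, chunk TB: decomposition for the roots of an eigenvalue
-/

open MeasureTheory Filter Topology Finset
open scoped ComplexConjugate Matrix

namespace Pool.Agent.Lib.H82OH

open Pool.Agent.Lib.H22M Pool.Agent.Lib.H82T Pool.Agent.Lib.H82OT Pool.Agent.Lib.H82OF

variable {W : Type*} [CommGroup W] [TopologicalSpace W] [IsTopologicalGroup W] [CompactSpace W]
  [T2Space W] [SecondCountableTopology W] [MeasurableSpace W] [BorelSpace W]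

omit [IsTopologicalGroup W] [CompactSpace W] [T2Space W] [SecondCountableTopology W]
  [TopologicalSpace W] [BorelSpace W] [MeasurableSpace W] in
private theorem tb_one (c : W) {d : ℕ} (Φ : W → Matrix (Fin d) (Fin d) ℂ) (w : W) :
    cc c Φ 1 w = Φ w := by
  show Φ (c ^ 0 * w) * (1 : Matrix (Fin d) (Fin d) ℂ) = Φ w
  rw [pow_zero, one_mul, mul_one]

private noncomputable def tbY (c : W) {d e : ℕ}
    (A : W → Matrix (Fin d) (Fin d) ℂ) (B : W → Matrix (Fin e) (Fin e) ℂ)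
    (X : W → Matrix (Fin d) (Fin e) ℂ) (i : ℕ) (w : W) : Matrix (Fin d) (Fin e) ℂ :=
  (cc c A i w)ᴴ * X (c ^ i * w) * cc c B i w

private theorem tbY_zero (c : W) {d e : ℕ}
    (A : W → Matrix (Fin d) (Fin d) ℂ) (B : W → Matrix (Fin e) (Fin e) ℂ)
    (X : W → Matrix (Fin d) (Fin e) ℂ) (w : W) : tbY c A B X 0 w = X w := by
  show (1 : Matrix (Fin d) (Fin d) ℂ)ᴴ * X (c ^ 0 * w) * (1 : Matrix (Fin e) (Fin e) ℂ) = X w
  rw [Matrix.conjTranspose_one, Matrix.one_mul, Matrix.mul_one, pow_zero, one_mul]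

private theorem tbY_succ (c : W) {d e : ℕ}
    (A : W → Matrix (Fin d) (Fin d) ℂ) (B : W → Matrix (Fin e) (Fin e) ℂ) (hA : UC A)
    (X : W → Matrix (Fin d) (Fin e) ℂ) (i : ℕ) (w : W) :
    tbY c A B X i (c * w) * B w = A w * tbY c A B X (i + 1) w := by
  unfold tbY
  rw [cc_add c A i 1 w, cc_add c B i 1 w, tb_one, tb_one, pow_one, Matrix.conjTranspose_mul,
    pow_succ c i, mul_assoc (c ^ i) c w]
  simp only [Matrix.mul_assoc]
  rw [← Matrix.mul_assoc (A w) (A w)ᴴ, hA.right w, Matrix.one_mul]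

private theorem tbY_bmm (c : W) {d e : ℕ}
    (A : W → Matrix (Fin d) (Fin d) ℂ) (B : W → Matrix (Fin e) (Fin e) ℂ) (hA : UC A)
    (hB : UC B) (X : W → Matrix (Fin d) (Fin e) ℂ) (hX : BMM X) (i : ℕ) :
    BMM (tbY c A B X i) :=
  ((hA.cc c i).bm.conj.mul (hX.comp (measurable_const_mul (c ^ i)))).mul (hB.cc c i).bm

private theorem tb_bmm_sum {ι : Type*} (s : Finset ι) {d e : ℕ}
    {X : ι → W → Matrix (Fin d) (Fin e) ℂ} (hX : ∀ i, BMM (X i)) :
    BMM fun w => ∑ i ∈ s, X i w := fun a b => by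
  simp_rw [Matrix.sum_apply]
  exact BM.sum _ fun k _ => hX k a b

private theorem tb_geom (r : ℕ) (ω : ℂ) (hω : IsPrimitiveRoot ω r) (η0 : ℂ) (i : ℕ)
    (hi : i < r) :
    ∑ j : Fin r, ((η0 * ω ^ (j : ℕ))⁻¹) ^ i = if i = 0 then (r : ℂ) else 0 := by
  split_ifs with h0
  · subst h0
    simp
  · have h1 : ∀ j : Fin r, ((η0 * ω ^ (j : ℕ))⁻¹) ^ i = (η0⁻¹) ^ i * ((ω⁻¹) ^ i) ^ (j : ℕ) := by
      intro j
      rw [mul_inv, mul_pow, ← inv_pow, ← pow_mul, ← pow_mul, mul_comm (j : ℕ) i]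
    simp only [h1]
    rw [← Finset.mul_sum, Fin.sum_univ_eq_sum_range (fun j => ((ω⁻¹) ^ i) ^ j) r]
    have h2 : (ω⁻¹) ^ i ≠ 1 := by
      rw [inv_pow]
      intro h3
      have h4 : ω ^ i = 1 := inv_eq_one.mp h3
      exact hω.pow_ne_one_of_pos_of_lt h0 hi h4
    have h5 : ((ω⁻¹) ^ i) ^ r = 1 := by
      rw [← pow_mul, mul_comm, pow_mul, inv_pow, hω.pow_eq_one, inv_one, one_pow]
    have h6 := mul_geom_sum ((ω⁻¹) ^ i) r
    rw [h5, sub_self] at h6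
    rcases mul_eq_zero.mp h6 with h7 | h7
    · exact absurd (sub_eq_zero.mp h7) h2
    · rw [h7, mul_zero]

/-- Proof. `(𝒮X)(w) = A(w)ᴴ X(c w) B(w)`, `𝒮^i X(w) = (cc c A i w)ᴴ X(c^i w) cc c B i w` (induction), and the
hypothesis says `𝒮^r X = ζ X` a.e. Let `η_j`, `j < r`, be the `r` different solutions of `η^r = ζ`
(`η_j = η_0 e(j/r)`, `e(x) = exp(2 π i x)`), and `X'_j = (1/r) ∑_{i < r} η_j^(-i) 𝒮^i X`, bounded and measurable. Then
`𝒮 X'_j = (1/r) ∑_{i<r} η_j^(-i) 𝒮^(i+1) X = η_j (X'_j + (1/r) (η_j^(-r) ζ X - X)) = η_j X'_j` a.e., i.e.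
`X'_j(c w) B(w) = η_j A(w) X'_j(w)` (multiply by `A(w)` and use `A Aᴴ = 1`). And `∑_j η_j^(-i) = 0` for `0 < i < r`
(geometric sum of `e(-i j/r)`), so `∑_j X'_j = X`. -/
theorem roots_decomp (lam : Measure W) [lam.IsHaarMeasure] (c : W) {d e : ℕ}
    (A : W → Matrix (Fin d) (Fin d) ℂ) (B : W → Matrix (Fin e) (Fin e) ℂ) (hA : UC A)
    (hB : UC B) (r : ℕ) (hr : 1 ≤ r) (ζ : ℂ) (hζ : ‖ζ‖ = 1)
    (X : W → Matrix (Fin d) (Fin e) ℂ) (hX : BMM X)
    (heq : ∀ᵐ w ∂lam, X (c ^ r * w) * cc c B r w = ζ • (cc c A r w * X w)) :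
    ∃ (η : Fin r → ℂ) (X' : Fin r → W → Matrix (Fin d) (Fin e) ℂ),
      (∀ j, η j ^ r = ζ ∧ ‖η j‖ = 1 ∧ Tw lam c A B (η j) (X' j)) ∧
      ∀ᵐ w ∂lam, X w = ∑ j, X' j w := by
  have hr0 : r ≠ 0 := by omega
  have hrC : (r : ℂ) ≠ 0 := Nat.cast_ne_zero.mpr hr0
  obtain ⟨η0, hη0⟩ := IsAlgClosed.exists_pow_nat_eq ζ (show 0 < r by omega)
  have hω := Complex.isPrimitiveRoot_exp r hr0
  set ω : ℂ := Complex.exp (2 * Real.pi * Complex.I / r) with hωdef
  have hηr : ∀ j : Fin r, (η0 * ω ^ (j : ℕ)) ^ r = ζ := by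
    intro j
    rw [mul_pow, hη0, ← pow_mul, mul_comm (j : ℕ) r, pow_mul, hω.pow_eq_one, one_pow, mul_one]
  have hζ0 : ζ ≠ 0 := by
    intro h
    rw [h, norm_zero] at hζ
    exact zero_ne_one hζ
  have hη1 : ∀ j : Fin r, ‖η0 * ω ^ (j : ℕ)‖ = 1 := by
    intro j
    have h1 : ‖η0 * ω ^ (j : ℕ)‖ ^ r = 1 := by rw [← norm_pow, hηr j, hζ]
    exact (pow_eq_one_iff_of_nonneg (norm_nonneg _) hr0).mp h1
  refine ⟨fun j => η0 * ω ^ (j : ℕ), fun j w => (r : ℂ)⁻¹ • ∑ i ∈ Finset.range r,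
    ((η0 * ω ^ (j : ℕ))⁻¹) ^ i • tbY c A B X i w, fun j => ⟨hηr j, hη1 j, ?_, ?_⟩, ?_⟩
  · exact BMM.smul _ (tb_bmm_sum _ fun i => BMM.smul _ (tbY_bmm c A B hA hB X hX i))
  · set η : ℂ := η0 * ω ^ (j : ℕ) with hη
    have hηne : η ≠ 0 := by
      intro h
      have := hη1 j
      rw [← hη, h, norm_zero] at this
      exact zero_ne_one this
    filter_upwards [heq] with w hw
    have hYr : tbY c A B X r w = ζ • X w := by
      unfold tbY
      rw [Matrix.mul_assoc, hw, Matrix.mul_smul, ← Matrix.mul_assoc, (hA.cc c r).left w,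
        Matrix.one_mul]
    have h1 : ∑ i ∈ Finset.range r, (η⁻¹) ^ i • tbY c A B X (i + 1) w =
        η • ∑ i ∈ Finset.range r, (η⁻¹) ^ i • tbY c A B X i w := by
      have h2 : ∀ i, (η⁻¹) ^ i • tbY c A B X (i + 1) w =
          η • ((η⁻¹) ^ (i + 1) • tbY c A B X (i + 1) w) := by
        intro i
        rw [smul_smul, pow_succ' (η⁻¹) i, ← mul_assoc, mul_inv_cancel₀ hηne, one_mul]
      simp only [h2]
      rw [← Finset.smul_sum]
      congr 1
      have h3 := Finset.sum_range_succ (fun i => (η⁻¹) ^ i • tbY c A B X i w) r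
      have h4 := Finset.sum_range_succ' (fun i => (η⁻¹) ^ i • tbY c A B X i w) r
      rw [h3] at h4
      have h5 : (η⁻¹) ^ r • tbY c A B X r w = (η⁻¹) ^ 0 • tbY c A B X 0 w := by
        rw [hYr, tbY_zero, smul_smul, inv_pow, hη, hηr j, inv_mul_cancel₀ hζ0, pow_zero]
      rw [h5] at h4
      exact (add_right_cancel h4).symm
    show ((r : ℂ)⁻¹ • ∑ i ∈ Finset.range r, (η⁻¹) ^ i • tbY c A B X i (c * w)) * B w =
      η • (A w * ((r : ℂ)⁻¹ • ∑ i ∈ Finset.range r, (η⁻¹) ^ i • tbY c A B X i w))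
    rw [Matrix.smul_mul, Matrix.sum_mul, Matrix.mul_smul, smul_comm η]
    congr 1
    have h6 : ∀ i ∈ Finset.range r, ((η⁻¹) ^ i • tbY c A B X i (c * w)) * B w =
        A w * ((η⁻¹) ^ i • tbY c A B X (i + 1) w) := by
      intro i _
      rw [Matrix.smul_mul, Matrix.mul_smul, tbY_succ c A B hA X i w]
    rw [Finset.sum_congr rfl h6, ← Matrix.mul_sum, h1, Matrix.mul_smul]
  · refine Eventually.of_forall fun w => ?_
    show X w = ∑ j : Fin r, (r : ℂ)⁻¹ • ∑ i ∈ Finset.range r,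
      ((η0 * ω ^ (j : ℕ))⁻¹) ^ i • tbY c A B X i w
    rw [← Finset.smul_sum, Finset.sum_comm]
    have h1 : ∀ i ∈ Finset.range r,
        ∑ j : Fin r, ((η0 * ω ^ (j : ℕ))⁻¹) ^ i • tbY c A B X i w =
          (if i = 0 then (r : ℂ) else 0) • tbY c A B X i w := by
      intro i hi
      rw [← Finset.sum_smul, tb_geom r ω hω η0 i (Finset.mem_range.mp hi)]
    rw [Finset.sum_congr rfl h1, Finset.sum_eq_single 0]
    · rw [if_pos rfl, tbY_zero, smul_smul, inv_mul_cancel₀ hrC, one_smul]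
    · intro i _ hi
      rw [if_neg hi, zero_smul]
    · intro h
      exact absurd (Finset.mem_range.mpr (by omega)) h

end Pool.Agent.Lib.H82OH
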