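import Pool.Agent.Lib.H82OH.TD

/-!
# Project H82OH, chunk TE: functions intertwining two translates
-/

open MeasureTheory Filter Topology Finset
open scoped ComplexConjugate Matrix

namespace Pool.Agent.Lib.H82OH

open Pool.Agent.Lib.H22M Pool.Agent.Lib.H82T Pool.Agent.Lib.H82OT Pool.Agent.Lib.H82OF

variable {W : Type*} [CommGroup W] [TopologicalSpace W] [IsTopologicalGroup W] [CompactSpace W]
  [T2Space W] [SecondCountableTopology W] [MeasurableSpace W] [BorelSpace W]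

/-- Proof. `fourier_mat` (BB): `ψ, i, j` with `∫ g_ij conj ψ ≠ 0`. Let `G` be the function of `exists_cexp` (BE) for
`conj ψ(ω) • g ω`; `∫ G_ij = ∫ g_ij conj ψ ≠ 0`, so `G` is not a.e. `0`. By `cexp_eq`, with `Φ₁ = Φ(β ·)`
(`cc_shift`: `cc c Φ₁ r w = cc c Φ r (β w)`): `G(c^r w) cc c Φ r w = (conj ψ(c) ζ) • (cc c Φ₁ r w * G w)`, and
`roots_decomp` (`A = Φ₁`, `B = Φ`) gives `G_j`, not a.e. `0`, with `Tw lam c Φ₁ Φ κ G_j`, `κ^r = conj ψ(c) ζ`. By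
`ul_of_tw` (TC) `γ = s⁻¹ • G_j` is a unitary lift of `β` with constant `κ`, and `ψ(c) κ^r = ζ`. Let
`X ω = conj ψ(ω) • (γ(t ω^r)ᴴ * g ω)`. With `w = t ω^r`: `Tw.iter` gives `γ(c^r w) cc r w = κ^r cc r (β w) γ(w)`, hence
`γ(c^r w)ᴴ cc r (β w) = conj κ^r cc r w γ(w)ᴴ`, so
`X(c ω) cc r w = conj ψ(c) conj ψ(ω) γ(c^r w)ᴴ ζ cc r (β w) g(ω) = (conj ψ(c) ζ conj κ^r) cc r w X(ω) = cc r w X(ω)`.
`irr_pow` (TD): `X = a • 1` a.e., so `g ω = a ψ(ω) γ(t ω^r)` (`γ γᴴ = 1` at `t ω^r` for a.e. `ω`: `mp_pow`), `a ≠ 0` by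
`h0`. -/
theorem exists_lift (lam : Measure W) [lam.IsHaarMeasure] [IsProbabilityMeasure lam] {c : W}
    (hc : Free c) {d : ℕ} (hd : 0 < d) {Φ : W → Matrix (Fin d) (Fin d) ℂ} (hΦ : UC Φ)
    (hI : Ic lam c Φ) (r : ℕ) (hr : r.Prime) (hdr : d < r) (t β : W) (ζ : ℂ)
    (hζ : ‖ζ‖ = 1) (g : W → Matrix (Fin d) (Fin d) ℂ) (hg : BMM g)
    (heq : ∀ᵐ ω ∂lam, g (c * ω) * cc c Φ r (t * ω ^ r) =
      ζ • (cc c Φ r (β * (t * ω ^ r)) * g ω))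
    (h0 : ¬ ∀ᵐ ω ∂lam, g ω = 0) :
    ∃ (ψ : PontryaginDual W) (κ a : ℂ) (γ : W → Matrix (Fin d) (Fin d) ℂ), UL lam c Φ β κ γ ∧
      a ≠ 0 ∧ ch ψ c * κ ^ r = ζ ∧ ∀ᵐ ω ∂lam, g ω = (a * ch ψ ω) • γ (t * ω ^ r) := by
  classical
  have hr1 : 1 ≤ r := hr.one_lt.le
  obtain ⟨ψ, i, j₀, hψ⟩ := fourier_mat lam g hg h0
  have hX : BMM fun ω => conj (ch ψ ω) • g ω := fun i j => (bm_ch ψ).conj.mul (hg i j)
  obtain ⟨G, hG, hGX⟩ := exists_cexp lam hc r hr1 t _ hX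
  have hΦ1 : UC fun w => Φ (β * w) := hΦ.shift β
  have hB : UC (cc c Φ r) := hΦ.cc c r
  have hA : UC (cc c (fun w => Φ (β * w)) r) := hΦ1.cc c r
  have heqX : ∀ᵐ ω ∂lam, (conj (ch ψ (c * ω)) • g (c * ω)) * cc c Φ r (t * ω ^ r) =
      (conj (ch ψ c) * ζ) • (cc c (fun w => Φ (β * w)) r (t * ω ^ r) * (conj (ch ψ ω) • g ω)) := by
    filter_upwards [heq] with ω hω
    rw [Matrix.smul_mul, hω, Matrix.mul_smul, smul_smul, smul_smul, ch_mul_right, map_mul, cc_shift]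
    congr 1
    ring
  have hGe := cexp_eq lam r t _ G hX hG hGX (conj (ch ψ c) * ζ) (cc c (fun w => Φ (β * w)) r)
    (cc c Φ r) hA.bm hB.bm heqX
  have hζ' : ‖conj (ch ψ c) * ζ‖ = 1 := by rw [norm_mul, RCLike.norm_conj, norm_ch, hζ, one_mul]
  obtain ⟨η, G', h1, h2⟩ := roots_decomp lam c (fun w => Φ (β * w)) Φ hΦ1 hΦ r hr1
    (conj (ch ψ c) * ζ) hζ' G hG hGe
  -- one of the pieces does not vanish
  have hex : ∃ j, ¬ ∀ᵐ w ∂lam, G' j w = 0 := by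
    by_contra hcon
    push Not at hcon
    have hG0 : ∀ᵐ w ∂lam, G w = 0 := by
      filter_upwards [h2, ae_all_iff.2 hcon] with w h3 h4
      rw [h3]
      exact Finset.sum_eq_zero fun j _ => h4 j
    apply hψ
    have e1 := hGX i j₀ (fun _ => 1) (BM.const 1)
    have e2 : ∫ w, G w i j₀ * (1 : ℂ) ∂lam = 0 := by
      have e3 : ∀ᵐ w ∂lam, G w i j₀ * (1 : ℂ) = 0 := by
        filter_upwards [hG0] with w hw
        rw [hw, Matrix.zero_apply, zero_mul]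
      rw [integral_congr_ae e3, integral_zero]
    rw [e2] at e1
    rw [← e1]
    refine integral_congr_ae (Eventually.of_forall fun w => ?_)
    show g w i j₀ * conj (ch ψ w) = (conj (ch ψ w) * g w i j₀) * 1
    ring
  obtain ⟨j, hj⟩ := hex
  obtain ⟨hη1, hη2, hη3⟩ := h1 j
  obtain ⟨s, hs0, -, hs2, hs3⟩ := ul_of_tw hd hΦ hI hη2 hη3
  have hs : 0 < s := by
    rcases hs0.eq_or_lt with h | h
    · exact absurd (hs2 h.symm) hj
    · exact h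
  obtain ⟨γ, hγ⟩ : ∃ γ : W → Matrix (Fin d) (Fin d) ℂ, γ = fun w => ((s : ℂ)⁻¹) • G' j w := ⟨_, rfl⟩
  have hU : UL lam c Φ β (η j) γ := by
    rw [hγ]
    exact hs3 hs
  have hk : (η j) ^ r * conj ((η j) ^ r) = 1 := by
    rw [Complex.mul_conj, Complex.normSq_eq_norm_sq, norm_pow, hη2]
    norm_num
  -- the intertwining function
  have hpw := mp_pow lam hc r hr1 t
  have hT1 := (hU.tw.iter r).adj hA hB
  have hT2 : ∀ᵐ ω ∂lam, (γ (c ^ r * (t * ω ^ r)))ᴴ * cc c (fun w => Φ (β * w)) r (t * ω ^ r) =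
      (conj ((η j) ^ r)) • (cc c Φ r (t * ω ^ r) * (γ (t * ω ^ r))ᴴ) :=
    hpw.quasiMeasurePreserving.ae hT1.2
  have hT3 : ∀ᵐ ω ∂lam, γ (t * ω ^ r) * (γ (t * ω ^ r))ᴴ = 1 :=
    hpw.quasiMeasurePreserving.ae hU.right
  have hγm : BMM fun ω => (γ (t * ω ^ r))ᴴ := (hU.bm.comp hpw.measurable).conj
  have hY : BMM fun ω => conj (ch ψ ω) • ((γ (t * ω ^ r))ᴴ * g ω) :=
    fun i j => (bm_ch ψ).conj.mul ((hγm.mul hg) i j)
  have heqY : ∀ᵐ ω ∂lam, (conj (ch ψ (c * ω)) • ((γ (t * (c * ω) ^ r))ᴴ * g (c * ω))) *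
      cc c Φ r (t * ω ^ r) = cc c Φ r (t * ω ^ r) *
        (conj (ch ψ ω) • ((γ (t * ω ^ r))ᴴ * g ω)) := by
    filter_upwards [heq, hT2] with ω h3 h4
    have h5 : t * (c * ω) ^ r = c ^ r * (t * ω ^ r) := by
      rw [mul_pow, mul_left_comm]
    rw [h5, Matrix.smul_mul, Matrix.mul_assoc, h3, ← cc_shift, Matrix.mul_smul,
      ← Matrix.mul_assoc, h4, Matrix.smul_mul, Matrix.mul_assoc, smul_smul, smul_smul,
      Matrix.mul_smul, ch_mul_right, map_mul]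
    congr 1
    calc conj (ch ψ c) * conj (ch ψ ω) * ζ * conj (η j ^ r)
        = (conj (ch ψ c) * ζ) * conj (η j ^ r) * conj (ch ψ ω) := by ring
      _ = conj (ch ψ ω) := by rw [← hη1, hk, one_mul]
  obtain ⟨a, ha⟩ := irr_pow lam hc hd hΦ hI r hr hdr t _ hY heqY
  have hfin : ∀ᵐ ω ∂lam, g ω = (a * ch ψ ω) • γ (t * ω ^ r) := by
    filter_upwards [ha, hT3] with ω h3 h4
    have h5 : (γ (t * ω ^ r))ᴴ * g ω = (a * ch ψ ω) • (1 : Matrix (Fin d) (Fin d) ℂ) := by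
      have h6 : ch ψ ω • (conj (ch ψ ω) • ((γ (t * ω ^ r))ᴴ * g ω)) =
          ch ψ ω • (a • (1 : Matrix (Fin d) (Fin d) ℂ)) := by rw [h3]
      rw [smul_smul, ch_mul_conj, one_smul, smul_smul, mul_comm (ch ψ ω) a] at h6
      exact h6
    have h7 : γ (t * ω ^ r) * ((γ (t * ω ^ r))ᴴ * g ω) = g ω := by
      rw [← Matrix.mul_assoc, h4, Matrix.one_mul]
    rw [← h7, h5, Matrix.mul_smul, Matrix.mul_one]
  refine ⟨ψ, η j, a, γ, hU, ?_, ?_, hfin⟩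
  · intro h
    apply h0
    filter_upwards [hfin] with ω hω
    rw [hω, h, zero_mul, zero_smul]
  · rw [hη1, ← mul_assoc, ch_mul_conj, one_mul]

end Pool.Agent.Lib.H82OH
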